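import Mathlib

/-!
# Geometric realizations of simplicial complexes with the `ℓ¹` path metric
-/

set_option autoImplicit false

namespace Pool.Agent.H368.NV

open scoped ENNReal NNReal Topology

noncomputable section

variable {W W' : Type}

/-- The points of the geometric realization of the simplicial complex with the set of simplices
`K`: the finitely supported functions `w = ∑ t_v v` with `t_v ≥ 0`, `∑ t_v = 1`, whose support is a
simplex. -/
structure Pt (K : Set (Finset W)) : Type where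
  /-- the barycentric coordinates -/
  w : W →₀ ℝ
  nonneg : ∀ v, 0 ≤ w v
  sum_one : (w.sum fun _ t => t) = 1
  mem : w.support ∈ K

/-- The `ℓ¹` distance of the barycentric coordinates. -/
def l1 {K : Set (Finset W)} (x y : Pt K) : ℝ := (x.w - y.w).sum fun _ t => |t|

/-- The points `x` and `y` lie in a common simplex. -/
def Common {K : Set (Finset W)} (x y : Pt K) : Prop :=
  ∃ σ ∈ K, x.w.support ⊆ σ ∧ y.w.support ⊆ σ

/-- `Chain x y ℓ`: there are points `x = x₀, x₁, …, x_n = y` such that `x_i` and `x_{i+1}` lie in a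
common simplex, and the sum of the `ℓ¹` distances of `x_i` and `x_{i+1}` is `ℓ`. -/
inductive Chain {K : Set (Finset W)} : Pt K → Pt K → ℝ → Prop
  | refl (x : Pt K) : Chain x x 0
  | cons {x y z : Pt K} {ℓ : ℝ} : Common x y → Chain y z ℓ → Chain x z (l1 x y + ℓ)

/-- The `ℓ¹` path distance, which is `∞` for points of different components. -/
def pathDist {K : Set (Finset W)} (x y : Pt K) : ℝ≥0∞ :=
  ⨅ (ℓ : ℝ) (_ : Chain x y ℓ), ENNReal.ofReal ℓ

theorem l1_eq {K : Set (Finset W)} (x y : Pt K) (s : Finset W)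
    (hs : ∀ v, v ∉ s → x.w v = y.w v) : l1 x y = ∑ v ∈ s, |x.w v - y.w v| := by
  unfold l1
  rw [Finsupp.sum_of_support_subset _ (s := s)]
  · rfl
  · intro v hv
    by_contra h
    rw [Finsupp.mem_support_iff, Finsupp.sub_apply, hs v h, sub_self] at hv
    exact hv rfl
  · intro v _
    exact abs_zero

theorem l1_nonneg {K : Set (Finset W)} (x y : Pt K) : 0 ≤ l1 x y :=
  Finset.sum_nonneg fun _ _ => abs_nonneg _

theorem not_mem_supp {K : Set (Finset W)} (x : Pt K) {v : W} (h : v ∉ x.w.support) :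
    x.w v = 0 := Finsupp.notMem_support_iff.1 h

theorem l1_comm {K : Set (Finset W)} (x y : Pt K) : l1 x y = l1 y x := by
  classical
  have h : ∀ v, v ∉ x.w.support ∪ y.w.support → x.w v = y.w v := by
    intro v hv
    rw [Finset.mem_union, not_or] at hv
    rw [not_mem_supp x hv.1, not_mem_supp y hv.2]
  rw [l1_eq x y _ h, l1_eq y x _ fun v hv => (h v hv).symm]
  exact Finset.sum_congr rfl fun v _ => abs_sub_comm _ _

theorem l1_triangle {K : Set (Finset W)} (x y z : Pt K) : l1 x z ≤ l1 x y + l1 y z := by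
  classical
  have h : ∀ v, v ∉ x.w.support ∪ y.w.support ∪ z.w.support →
      x.w v = 0 ∧ y.w v = 0 ∧ z.w v = 0 := by
    intro v hv
    rw [Finset.mem_union, Finset.mem_union, not_or, not_or] at hv
    exact ⟨not_mem_supp x hv.1.1, not_mem_supp y hv.1.2, not_mem_supp z hv.2⟩
  rw [l1_eq x z _ fun v hv => (h v hv).1.trans (h v hv).2.2.symm,
    l1_eq x y _ fun v hv => (h v hv).1.trans (h v hv).2.1.symm,
    l1_eq y z _ fun v hv => (h v hv).2.1.trans (h v hv).2.2.symm, ← Finset.sum_add_distrib]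
  exact Finset.sum_le_sum fun v _ => abs_sub_le _ _ _

theorem Chain.nonneg {K : Set (Finset W)} {x y : Pt K} {ℓ : ℝ} (h : Chain x y ℓ) : 0 ≤ ℓ := by
  induction h with
  | refl x => exact le_rfl
  | cons _ _ ih => exact add_nonneg (l1_nonneg _ _) ih

theorem Chain.l1_le {K : Set (Finset W)} {x y : Pt K} {ℓ : ℝ} (h : Chain x y ℓ) :
    l1 x y ≤ ℓ := by
  induction h with
  | refl x =>
    rw [l1_eq x x ∅ fun _ _ => rfl]
    simp
  | cons _ _ ih => exact (l1_triangle _ _ _).trans (add_le_add le_rfl ih)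

theorem Common.symm {K : Set (Finset W)} {x y : Pt K} (h : Common x y) : Common y x := by
  obtain ⟨σ, h1, h2, h3⟩ := h
  exact ⟨σ, h1, h3, h2⟩

theorem Chain.append {K : Set (Finset W)} {x y z : Pt K} {ℓ ℓ' : ℝ} (h : Chain x y ℓ)
    (h' : Chain y z ℓ') : Chain x z (ℓ + ℓ') := by
  induction h with
  | refl x =>
    rw [zero_add]
    exact h'
  | cons hc _ ih =>
    rw [add_assoc]
    exact Chain.cons hc (ih h')

theorem Chain.reverse {K : Set (Finset W)} {x y : Pt K} {ℓ : ℝ} (h : Chain x y ℓ) :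
    Chain y x ℓ := by
  induction h with
  | refl x => exact Chain.refl x
  | @cons x y z ℓ hc _ ih =>
    have h1 := ih.append (Chain.cons hc.symm (Chain.refl x))
    have e : ℓ + (l1 y x + 0) = l1 x y + ℓ := by
      rw [l1_comm y x]
      ring
    rwa [e] at h1

theorem pathDist_self {K : Set (Finset W)} (x : Pt K) : pathDist x x = 0 := by
  refine le_antisymm ?_ bot_le
  refine (iInf₂_le (0 : ℝ) (Chain.refl x)).trans ?_
  rw [ENNReal.ofReal_zero]

theorem pathDist_comm {K : Set (Finset W)} (x y : Pt K) : pathDist x y = pathDist y x :=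
  le_antisymm (le_iInf₂ fun ℓ h => iInf₂_le ℓ h.reverse) (le_iInf₂ fun ℓ h => iInf₂_le ℓ h.reverse)

theorem pathDist_triangle {K : Set (Finset W)} (x y z : Pt K) :
    pathDist x z ≤ pathDist x y + pathDist y z := by
  have e : pathDist x y + pathDist y z =
      ⨅ (ℓ' : ℝ) (_ : Chain y z ℓ') (ℓ : ℝ) (_ : Chain x y ℓ),
        (ENNReal.ofReal ℓ + ENNReal.ofReal ℓ') := by
    simp only [pathDist, ENNReal.iInf_add, ENNReal.add_iInf]
  rw [e]
  refine le_iInf₂ fun ℓ' h' => le_iInf₂ fun ℓ h => ?_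
  rw [← ENNReal.ofReal_add h.nonneg h'.nonneg]
  exact iInf₂_le (ℓ + ℓ') (h.append h')

/-- The geometric realization with the `ℓ¹` path metric (with value `∞` between different
components). -/
instance (K : Set (Finset W)) : PseudoEMetricSpace (Pt K) where
  edist := pathDist
  edist_self := pathDist_self
  edist_comm := pathDist_comm
  edist_triangle := pathDist_triangle

theorem edist_le_of_common {K : Set (Finset W)} {x y : Pt K} (h : Common x y) :
    edist x y ≤ ENNReal.ofReal (l1 x y) := by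
  have h1 : Chain x y (l1 x y) := by
    have := Chain.cons h (Chain.refl y)
    rwa [add_zero] at this
  exact iInf₂_le (l1 x y) h1

theorem l1_le_edist {K : Set (Finset W)} (x y : Pt K) : ENNReal.ofReal (l1 x y) ≤ edist x y :=
  le_iInf₂ fun _ h => ENNReal.ofReal_le_ofReal h.l1_le

/-- The points with rational coordinates, a dense subset of the realization. -/
def rat (K : Set (Finset W)) : Set (Pt K) := {x | ∀ v, ∃ q : ℚ, x.w v = q}

/-- The points with rational coordinates are dense. -/
theorem dense_rat (K : Set (Finset W)) : Dense (rat K) := by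
  classical
  intro x
  rw [EMetric.mem_closure_iff]
  intro ε hε
  obtain ⟨r, -, hr0, hr⟩ := ENNReal.lt_iff_exists_real_btwn.1 hε
  have hr0 : 0 < r := ENNReal.ofReal_pos.1 hr0
  have hne : x.w.support.Nonempty := by
    rw [Finset.nonempty_iff_ne_empty]
    intro h
    have := x.sum_one
    rw [Finsupp.sum, h, Finset.sum_empty] at this
    exact zero_ne_one this
  obtain ⟨v0, hv0⟩ := hne
  set σ := x.w.support with hσ
  have hpos : ∀ v ∈ σ, 0 < x.w v := fun v hv =>
    lt_of_le_of_ne (x.nonneg v) (Ne.symm (Finsupp.mem_support_iff.1 hv))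
  set δ : ℝ := r / (2 * σ.card + 1) with hδ
  have hδ0 : 0 < δ := by positivity
  have hq : ∀ v, ∃ q : ℚ, v ∈ σ → 0 < (q : ℝ) ∧ x.w v - δ < q ∧ (q : ℝ) < x.w v := by
    intro v
    by_cases hv : v ∈ σ
    · obtain ⟨q, h1, h2⟩ := exists_rat_btwn (max_lt (sub_lt_self (x.w v) hδ0) (hpos v hv))
      exact ⟨q, fun _ => ⟨(le_max_right _ _).trans_lt h1, (le_max_left _ _).trans_lt h1, h2⟩⟩
    · exact ⟨0, fun h => absurd h hv⟩
  choose q hq using hq
  have hsum : x.w v0 + ∑ v ∈ σ.erase v0, x.w v = 1 := by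
    rw [Finset.add_sum_erase σ (fun v => x.w v) hv0]
    exact x.sum_one
  have hle : ∑ v ∈ σ.erase v0, (q v : ℝ) ≤ ∑ v ∈ σ.erase v0, x.w v :=
    Finset.sum_le_sum fun v hv => (hq v (Finset.mem_of_mem_erase hv)).2.2.le
  let g : W → ℝ := fun v => if v = v0 then 1 - ∑ u ∈ σ.erase v0, (q u : ℝ) else
    if v ∈ σ then (q v : ℝ) else 0
  have hg0 : g v0 = 1 - ∑ u ∈ σ.erase v0, (q u : ℝ) := if_pos rfl
  have hg1 : ∀ v ∈ σ.erase v0, g v = q v := by
    intro v hv
    rw [Finset.mem_erase] at hv
    show (if v = v0 then _ else _) = _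
    rw [if_neg hv.1, if_pos hv.2]
  have hg2 : ∀ v, v ∉ σ → g v = 0 := by
    intro v hv
    show (if v = v0 then _ else _) = _
    rw [if_neg (by rintro rfl; exact hv hv0), if_neg hv]
  have hgp0 : 0 < g v0 := by
    rw [hg0]
    have := hpos v0 hv0
    linarith
  have hgp : ∀ v ∈ σ, 0 < g v := by
    intro v hv
    by_cases h : v = v0
    · rw [h]; exact hgp0
    · rw [hg1 v (Finset.mem_erase.2 ⟨h, hv⟩)]
      exact (hq v hv).1
  let w : W →₀ ℝ := Finsupp.onFinset σ g fun v hv => by
    by_contra h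
    exact hv (hg2 v h)
  have hw : ∀ v, w v = g v := fun v => rfl
  have hsupp : w.support = σ := by
    ext v
    rw [Finsupp.mem_support_iff, hw]
    constructor
    · intro h
      by_contra h'
      exact h (hg2 v h')
    · intro h
      exact (hgp v h).ne'
  let y : Pt K :=
    { w := w
      nonneg := fun v => by
        rw [hw]
        by_cases h : v ∈ σ
        · exact (hgp v h).le
        · rw [hg2 v h]
      sum_one := by
        rw [Finsupp.sum, hsupp]
        show ∑ v ∈ σ, g v = 1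
        rw [← Finset.add_sum_erase σ g hv0, hg0, Finset.sum_congr rfl hg1]
        ring
      mem := by
        rw [hsupp]
        exact x.mem }
  have hy : ∀ v, y.w v = g v := fun v => rfl
  refine ⟨y, ?_, ?_⟩
  · intro v
    rw [hy]
    by_cases h : v = v0
    · refine ⟨1 - ∑ u ∈ σ.erase v0, q u, ?_⟩
      rw [h, hg0]
      push_cast
      rfl
    · by_cases h' : v ∈ σ
      · exact ⟨q v, hg1 v (Finset.mem_erase.2 ⟨h, h'⟩)⟩
      · exact ⟨0, by rw [hg2 v h']; simp⟩
  · have hcom : Common x y := ⟨σ, x.mem, subset_rfl, by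
      show w.support ⊆ σ
      rw [hsupp]⟩
    refine (edist_le_of_common hcom).trans_lt (lt_of_lt_of_le ?_ hr.le)
    rw [ENNReal.ofReal_lt_ofReal_iff hr0, l1_eq x y σ fun v hv => by
      rw [hy, hg2 v hv]
      exact not_mem_supp x hv]
    rw [← Finset.add_sum_erase σ (fun v => |x.w v - y.w v|) hv0]
    have h1 : ∑ v ∈ σ.erase v0, |x.w v - y.w v| = ∑ v ∈ σ.erase v0, (x.w v - q v) := by
      refine Finset.sum_congr rfl fun v hv => ?_
      rw [hy, hg1 v hv, abs_of_pos (sub_pos.2 (hq v (Finset.mem_of_mem_erase hv)).2.2)]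
    have h2 : |x.w v0 - y.w v0| = ∑ v ∈ σ.erase v0, (x.w v - q v) := by
      rw [hy, hg0, Finset.sum_sub_distrib]
      rw [abs_of_nonpos (by linarith)]
      linarith
    have h3 : ∑ v ∈ σ.erase v0, (x.w v - q v) ≤ ∑ v ∈ σ.erase v0, δ :=
      Finset.sum_le_sum fun v hv => by
        have := (hq v (Finset.mem_of_mem_erase hv)).2.1
        linarith
    have h4 : ∑ v ∈ σ.erase v0, δ ≤ σ.card * δ := by
      rw [Finset.sum_const, nsmul_eq_mul]
      exact mul_le_mul_of_nonneg_right (by exact_mod_cast Finset.card_le_card (Finset.erase_subset _ _))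
        hδ0.le
    have h5 : (2 * σ.card + 1) * δ = r := by
      rw [hδ]
      field_simp
    rw [h1, h2]
    nlinarith

theorem countable_rat (K : Set (Finset W)) (h : {v | ∃ σ ∈ K, v ∈ σ}.Countable) :
    (rat K).Countable := by
  classical
  have : Countable {v | ∃ σ ∈ K, v ∈ σ} := h.to_subtype
  rw [← Set.countable_coe_iff]
  let F : rat K → ({v | ∃ σ ∈ K, v ∈ σ} →₀ ℚ) := fun x =>
    Finsupp.ofSupportFinite (fun v => Classical.choose (x.2 v.1)) (by
      have h1 : (Subtype.val ⁻¹' (x.1.w.support : Set W) :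
          Set {v | ∃ σ ∈ K, v ∈ σ}).Finite :=
        x.1.w.support.finite_toSet.preimage Subtype.val_injective.injOn
      refine h1.subset fun v hv => ?_
      rw [Set.mem_preimage, Finset.mem_coe, Finsupp.mem_support_iff]
      intro h0
      apply hv
      have h2 : ((Classical.choose (x.2 v.1) : ℚ) : ℝ) = 0 :=
        (Classical.choose_spec (x.2 v.1)).symm.trans h0
      exact_mod_cast h2)
  have hF : ∀ (x : rat K) (v : {v | ∃ σ ∈ K, v ∈ σ}), x.1.w v.1 = (F x v : ℝ) := fun x v =>
    Classical.choose_spec (x.2 v.1)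
  have hinj : Function.Injective F := by
    intro x y hxy
    apply Subtype.ext
    have hw : x.1.w = y.1.w := by
      ext v
      by_cases hv : ∃ σ ∈ K, v ∈ σ
      · have h1 := hF x ⟨v, hv⟩
        have h2 := hF y ⟨v, hv⟩
        rw [hxy] at h1
        exact h1.trans h2.symm
      · rw [not_mem_supp x.1 fun h => hv ⟨_, x.1.mem, h⟩,
          not_mem_supp y.1 fun h => hv ⟨_, y.1.mem, h⟩]
    obtain ⟨⟨x, _, _, _⟩, _⟩ := x
    obtain ⟨⟨y, _, _, _⟩, _⟩ := y
    simp only at hw
    subst hw
    rfl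
  exact hinj.countable

/-- A simplicial map. -/
structure IsSimplicial (K : Set (Finset W)) (K' : Set (Finset W')) (f : W → W') : Prop where
  image_mem : ∀ σ ∈ K, ∀ σ' : Finset W', (∀ v', v' ∈ σ' ↔ ∃ v ∈ σ, f v = v') → σ' ∈ K'

open Classical in
theorem mapDomain_eq (f : W → W') (w : W →₀ ℝ) (s : Finset W) (hs : w.support ⊆ s) (v' : W') :
    w.mapDomain f v' = ∑ v ∈ s with f v = v', w v := by
  rw [Finsupp.mapDomain, Finsupp.sum_apply, Finsupp.sum_of_support_subset _ hs]
  · simp only [Finsupp.single_apply]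
    rw [Finset.sum_filter]
  · intro v _
    simp

/-- The map of geometric realizations `∑ t_v v ↦ ∑ t_v f(v)` induced by a simplicial map. -/
def IsSimplicial.map {K : Set (Finset W)} {K' : Set (Finset W')} {f : W → W'}
    (h : IsSimplicial K K' f) (x : Pt K) : Pt K' where
  w := x.w.mapDomain f
  nonneg := by
    classical
    intro v'
    rw [mapDomain_eq f x.w _ subset_rfl]
    exact Finset.sum_nonneg fun v _ => x.nonneg v
  sum_one := by
    rw [Finsupp.sum_mapDomain_index (fun _ => rfl) (fun _ _ _ => rfl)]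
    exact x.sum_one
  mem := by
    classical
    refine h.image_mem x.w.support x.mem _ fun v' => ?_
    rw [Finsupp.mem_support_iff, mapDomain_eq f x.w _ subset_rfl]
    constructor
    · intro h1
      obtain ⟨v, hv, -⟩ := Finset.exists_ne_zero_of_sum_ne_zero h1
      rw [Finset.mem_filter] at hv
      exact ⟨v, hv.1, hv.2⟩
    · rintro ⟨v, hv, hf⟩
      refine (Finset.sum_pos' (fun v _ => x.nonneg v) ⟨v, ?_, ?_⟩).ne'
      · rw [Finset.mem_filter]
        exact ⟨hv, hf⟩
      · exact lt_of_le_of_ne (x.nonneg v) (Ne.symm (Finsupp.mem_support_iff.1 hv))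

theorem IsSimplicial.l1_map_le {K : Set (Finset W)} {K' : Set (Finset W')} {f : W → W'}
    (h : IsSimplicial K K' f) (x y : Pt K) : l1 (h.map x) (h.map y) ≤ l1 x y := by
  classical
  set s := x.w.support ∪ y.w.support with hs
  have h1 : ∀ v, v ∉ s → x.w v = y.w v := by
    intro v hv
    rw [hs, Finset.mem_union, not_or] at hv
    rw [not_mem_supp x hv.1, not_mem_supp y hv.2]
  have hx : ∀ v', (h.map x).w v' = ∑ v ∈ s with f v = v', x.w v := fun v' =>
    mapDomain_eq f x.w s Finset.subset_union_left v'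
  have hy : ∀ v', (h.map y).w v' = ∑ v ∈ s with f v = v', y.w v := fun v' =>
    mapDomain_eq f y.w s Finset.subset_union_right v'
  rw [l1_eq x y s h1, l1_eq (h.map x) (h.map y) (s.image f) ?_]
  · rw [← Finset.sum_fiberwise_of_maps_to (fun v hv => Finset.mem_image_of_mem f hv)
      (fun v => |x.w v - y.w v|)]
    refine Finset.sum_le_sum fun v' _ => ?_
    rw [hx, hy, ← Finset.sum_sub_distrib]
    exact Finset.abs_sum_le_sum_abs _ _
  · intro v' hv'
    rw [hx, hy, Finset.sum_eq_zero, Finset.sum_eq_zero]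
    · intro v hv
      rw [Finset.mem_filter] at hv
      exact absurd (Finset.mem_image.2 ⟨v, hv.1, hv.2⟩) hv'
    · intro v hv
      rw [Finset.mem_filter] at hv
      exact absurd (Finset.mem_image.2 ⟨v, hv.1, hv.2⟩) hv'

theorem IsSimplicial.common {K : Set (Finset W)} {K' : Set (Finset W')} {f : W → W'}
    (h : IsSimplicial K K' f) {x y : Pt K} (hxy : Common x y) : Common (h.map x) (h.map y) := by
  classical
  obtain ⟨σ, hσ, h1, h2⟩ := hxy
  have key : ∀ z : Pt K, z.w.support ⊆ σ → (h.map z).w.support ⊆ σ.image f := by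
    intro z hz v' hv'
    rw [Finsupp.mem_support_iff] at hv'
    have e : (h.map z).w v' = ∑ v ∈ σ with f v = v', z.w v := mapDomain_eq f z.w σ hz v'
    rw [e] at hv'
    obtain ⟨v, hv, -⟩ := Finset.exists_ne_zero_of_sum_ne_zero hv'
    rw [Finset.mem_filter] at hv
    exact Finset.mem_image.2 ⟨v, hv.1, hv.2⟩
  exact ⟨σ.image f, h.image_mem σ hσ _ fun v' => by simp, key x h1, key y h2⟩

theorem IsSimplicial.chain {K : Set (Finset W)} {K' : Set (Finset W')} {f : W → W'}
    (h : IsSimplicial K K' f) {x y : Pt K} {ℓ : ℝ} (hc : Chain x y ℓ) :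
    ∃ ℓ', ℓ' ≤ ℓ ∧ Chain (h.map x) (h.map y) ℓ' := by
  induction hc with
  | refl x => exact ⟨0, le_rfl, Chain.refl _⟩
  | cons hxy _ ih =>
    obtain ⟨ℓ', h1, h2⟩ := ih
    exact ⟨_, add_le_add (h.l1_map_le _ _) h1, Chain.cons (h.common hxy) h2⟩

theorem IsSimplicial.edist_map_le {K : Set (Finset W)} {K' : Set (Finset W')} {f : W → W'}
    (h : IsSimplicial K K' f) (x y : Pt K) : edist (h.map x) (h.map y) ≤ edist x y := by
  refine le_iInf₂ fun ℓ hc => ?_
  obtain ⟨ℓ', h1, h2⟩ := h.chain hc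
  exact (iInf₂_le ℓ' h2).trans (ENNReal.ofReal_le_ofReal h1)

theorem IsSimplicial.map_mem_rat {K : Set (Finset W)} {K' : Set (Finset W')} {f : W → W'}
    (h : IsSimplicial K K' f) {x : Pt K} (hx : x ∈ rat K) : h.map x ∈ rat K' := by
  classical
  intro v'
  choose q hq using hx
  refine ⟨∑ v ∈ x.w.support with f v = v', q v, ?_⟩
  have e : (h.map x).w v' = ∑ v ∈ x.w.support with f v = v', x.w v :=
    mapDomain_eq f x.w _ subset_rfl v'
  rw [e]
  push_cast
  exact Finset.sum_congr rfl fun v _ => hq v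

/-- The complex is locally finite: every vertex is contained in finitely many simplices. -/
def LocFin (K : Set (Finset W)) : Prop := ∀ v, {σ ∈ K | v ∈ σ}.Finite

/-- Nonempty subsets of simplices are simplices. -/
def DownClosed (K : Set (Finset W)) : Prop :=
  ∀ σ ∈ K, ∀ τ : Finset W, τ ⊆ σ → τ.Nonempty → τ ∈ K

/-- Points of `ℓ¹` distance less than two have a common vertex. -/
theorem exists_common_vertex {K : Set (Finset W)} {x y : Pt K} (h : l1 x y < 2) :
    ∃ v, x.w v ≠ 0 ∧ y.w v ≠ 0 := by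
  classical
  by_contra hcon
  push Not at hcon
  have h1 : l1 x y = ∑ v ∈ x.w.support ∪ y.w.support, |(x.w - y.w) v| := by
    unfold l1
    refine Finsupp.sum_of_support_subset _ (fun v hv => ?_) _ (fun v _ => abs_zero)
    by_contra hv'
    rw [Finset.mem_union, not_or, Finsupp.notMem_support_iff, Finsupp.notMem_support_iff] at hv'
    rw [Finsupp.mem_support_iff, Finsupp.sub_apply, hv'.1, hv'.2, sub_zero] at hv
    exact hv rfl
  have h2 : ∀ v, |(x.w - y.w) v| = x.w v + y.w v := by
    intro v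
    rw [Finsupp.sub_apply]
    by_cases hv : x.w v = 0
    · rw [hv, zero_sub, zero_add, abs_neg, abs_of_nonneg (y.nonneg v)]
    · rw [hcon v hv, sub_zero, add_zero, abs_of_nonneg (x.nonneg v)]
  have h3 : ∑ v ∈ x.w.support ∪ y.w.support, x.w v = 1 := by
    rw [← x.sum_one]
    exact (Finsupp.sum_of_support_subset _ Finset.subset_union_left (fun _ t => t)
      (fun _ _ => rfl)).symm
  have h4 : ∑ v ∈ x.w.support ∪ y.w.support, y.w v = 1 := by
    rw [← y.sum_one]
    exact (Finsupp.sum_of_support_subset _ Finset.subset_union_right (fun _ t => t)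
      (fun _ _ => rfl)).symm
  rw [Finset.sum_congr rfl fun v _ => h2 v, Finset.sum_add_distrib, h3, h4] at h1
  rw [h1] at h
  norm_num at h

/-- A compact subset of a locally finite complex meets only finitely many open stars of
vertices. -/
theorem finite_vertices {K : Set (Finset W)} (hK : LocFin K) {C : Set (Pt K)} (hC : IsCompact C) :
    {v | ∃ x ∈ C, x.w v ≠ 0}.Finite := by
  refine hC.induction_on (p := fun s => {v | ∃ x ∈ s, x.w v ≠ 0}.Finite) ?_ ?_ ?_ ?_
  · have h : {v : W | ∃ x ∈ (∅ : Set (Pt K)), x.w v ≠ 0} = ∅ := by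
      ext v
      simp
    rw [h]
    exact Set.finite_empty
  · intro s t hst ht
    exact ht.subset fun v ⟨x, hx, hv⟩ => ⟨x, hst hx, hv⟩
  · intro s t hs ht
    refine (hs.union ht).subset ?_
    rintro v ⟨x, hx | hx, hv⟩
    · exact Or.inl ⟨x, hx, hv⟩
    · exact Or.inr ⟨x, hx, hv⟩
  · intro x _
    refine ⟨Metric.eball x 1, mem_nhdsWithin_of_mem_nhds (Metric.eball_mem_nhds x one_pos), ?_⟩
    have hfin : (⋃ u ∈ (x.w.support : Set W), ⋃ σ ∈ {σ ∈ K | u ∈ σ}, (σ : Set W)).Finite :=
      Set.Finite.biUnion (Finset.finite_toSet _) fun u _ =>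
        Set.Finite.biUnion (hK u) fun σ _ => Finset.finite_toSet σ
    refine hfin.subset ?_
    rintro v ⟨y, hy, hv⟩
    have h1 : edist x y < 1 := by
      rw [edist_comm]
      exact hy
    have h2 : l1 x y < 2 := by
      have h3 : ENNReal.ofReal (l1 x y) < ENNReal.ofReal 1 := by
        rw [ENNReal.ofReal_one]
        exact lt_of_le_of_lt (l1_le_edist x y) h1
      have h4 := (ENNReal.ofReal_lt_ofReal_iff one_pos).1 h3
      linarith
    obtain ⟨u, hu, hu'⟩ := exists_common_vertex h2
    refine Set.mem_biUnion (Finset.mem_coe.2 (Finsupp.mem_support_iff.2 hu)) ?_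
    refine Set.mem_biUnion (x := y.w.support) ⟨y.mem, Finsupp.mem_support_iff.2 hu'⟩ ?_
    exact Finset.mem_coe.2 (Finsupp.mem_support_iff.2 hv)

open Classical in
/-- The barycentric coordinates of a point of a closed simplex. -/
def stdW (σ : Finset W) (g : σ → ℝ) : W →₀ ℝ :=
  Finsupp.onFinset σ (fun v => if h : v ∈ σ then g ⟨v, h⟩ else 0) fun v hv => by
    by_contra h
    rw [dif_neg h] at hv
    exact hv rfl

theorem stdW_apply (σ : Finset W) (g : σ → ℝ) (v : W) (hv : v ∈ σ) :
    stdW σ g v = g ⟨v, hv⟩ := by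
  classical
  unfold stdW
  rw [Finsupp.onFinset_apply, dif_pos hv]

theorem stdW_apply_not (σ : Finset W) (g : σ → ℝ) (v : W) (hv : v ∉ σ) :
    stdW σ g v = 0 := by
  classical
  unfold stdW
  rw [Finsupp.onFinset_apply, dif_neg hv]

theorem stdW_support (σ : Finset W) (g : σ → ℝ) : (stdW σ g).support ⊆ σ := by
  intro v hv
  by_contra h
  rw [Finsupp.mem_support_iff, stdW_apply_not σ g v h] at hv
  exact hv rfl

theorem stdW_sum (σ : Finset W) (g : σ → ℝ) : ((stdW σ g).sum fun _ t => t) = ∑ v : σ, g v := by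
  rw [Finsupp.sum_of_support_subset _ (stdW_support σ g) (fun _ t => t) (fun _ _ => rfl),
    ← Finset.sum_coe_sort]
  exact Finset.sum_congr rfl fun v _ => stdW_apply σ g v v.2

/-- The closed simplices. -/
def stdPt {K : Set (Finset W)} (hK : DownClosed K) (σ : Finset W) (hσ : σ ∈ K)
    (g : stdSimplex ℝ σ) : Pt K where
  w := stdW σ g
  nonneg v := by
    by_cases hv : v ∈ σ
    · rw [stdW_apply σ _ v hv]
      exact g.2.1 ⟨v, hv⟩
    · rw [stdW_apply_not σ _ v hv]
  sum_one := by
    rw [stdW_sum]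
    exact g.2.2
  mem := by
    refine hK σ hσ _ (stdW_support σ _) ?_
    by_contra h
    rw [Finset.not_nonempty_iff_eq_empty] at h
    have h1 := stdW_sum σ (g : σ → ℝ)
    have h2 : ∑ v : σ, (g : σ → ℝ) v = 1 := g.2.2
    rw [h2, Finsupp.sum, h, Finset.sum_empty] at h1
    exact zero_ne_one h1

theorem continuous_stdPt {K : Set (Finset W)} (hK : DownClosed K) (σ : Finset W) (hσ : σ ∈ K) :
    Continuous (stdPt hK σ hσ) := by
  rw [continuous_iff_continuousAt]
  intro g
  rw [ContinuousAt, tendsto_iff_edist_tendsto_0]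
  have h1 : ∀ g' : stdSimplex ℝ σ, edist (stdPt hK σ hσ g') (stdPt hK σ hσ g) ≤
      ENNReal.ofReal (∑ v : σ, |(g' : σ → ℝ) v - (g : σ → ℝ) v|) := by
    intro g'
    refine (edist_le_of_common ⟨σ, hσ, stdW_support σ _, stdW_support σ _⟩).trans ?_
    refine ENNReal.ofReal_le_ofReal (le_of_eq ?_)
    unfold l1
    have h2 : (stdW σ (g' : σ → ℝ) - stdW σ (g : σ → ℝ)).support ⊆ σ := by
      intro v hv
      by_contra h
      rw [Finsupp.mem_support_iff, Finsupp.sub_apply, stdW_apply_not σ _ v h,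
        stdW_apply_not σ _ v h, sub_zero] at hv
      exact hv rfl
    show ((stdW σ (g' : σ → ℝ) - stdW σ (g : σ → ℝ)).sum fun _ t => |t|) = _
    rw [Finsupp.sum_of_support_subset _ h2 (fun _ t => |t|) (fun _ _ => abs_zero),
      ← Finset.sum_coe_sort]
    refine Finset.sum_congr rfl fun v _ => ?_
    rw [Finsupp.sub_apply, stdW_apply σ _ v v.2, stdW_apply σ _ v v.2]
  have h2 : Continuous fun g' : stdSimplex ℝ σ =>
      ENNReal.ofReal (∑ v : σ, |(g' : σ → ℝ) v - (g : σ → ℝ) v|) := by
    refine ENNReal.continuous_ofReal.comp (continuous_finsetSum _ fun v _ => ?_)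
    exact (((continuous_apply v).comp continuous_subtype_val).sub continuous_const).abs
  have h3 := h2.tendsto g
  have h4 : ENNReal.ofReal (∑ v : σ, |(g : σ → ℝ) v - (g : σ → ℝ) v|) = 0 := by
    simp
  rw [h4] at h3
  exact tendsto_of_tendsto_of_tendsto_of_le_of_le tendsto_const_nhds h3
    (fun _ => zero_le) h1

theorem range_stdPt {K : Set (Finset W)} (hK : DownClosed K) (σ : Finset W) (hσ : σ ∈ K) :
    Set.range (stdPt hK σ hσ) = {x | x.w.support ⊆ σ} := by
  ext x
  constructor
  · rintro ⟨g, rfl⟩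
    exact stdW_support σ _
  · intro hx
    have hx' : x.w.support ⊆ σ := hx
    refine ⟨⟨fun v => x.w v, fun v => x.nonneg v, ?_⟩, ?_⟩
    · rw [← x.sum_one, Finsupp.sum_of_support_subset _ hx' (fun _ t => t) (fun _ _ => rfl)]
      exact Finset.sum_coe_sort σ fun v => x.w v
    · obtain ⟨w, h1, h2, h3⟩ := x
      have h4 : stdW σ (fun v : σ => w v) = w := by
        ext v
        by_cases hv : v ∈ σ
        · rw [stdW_apply σ _ v hv]
        · rw [stdW_apply_not σ _ v hv]
          by_contra hne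
          exact hv (hx' (Finsupp.mem_support_iff.2 (Ne.symm hne)))
      unfold stdPt
      congr 1

/-- A subcomplex with finitely many vertices is compact. -/
theorem isCompact_sub {K : Set (Finset W)} (hK : DownClosed K) (F : Set W) (hF : F.Finite) :
    IsCompact {x : Pt K | ∀ v, x.w v ≠ 0 → v ∈ F} := by
  have h1 : {x : Pt K | ∀ v, x.w v ≠ 0 → v ∈ F} =
      ⋃ σ ∈ {σ | σ ∈ K ∧ (σ : Set W) ⊆ F}, {x : Pt K | x.w.support ⊆ σ} := by
    ext x
    constructor
    · intro hx
      refine Set.mem_biUnion (x := x.w.support) ⟨x.mem, fun v hv => ?_⟩ (Finset.Subset.refl _)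
      exact hx v (Finsupp.mem_support_iff.1 (Finset.mem_coe.1 hv))
    · intro hx v hv
      rw [Set.mem_iUnion₂] at hx
      obtain ⟨σ, hσ, hxσ⟩ := hx
      exact hσ.2 (Finset.mem_coe.2 (hxσ (Finsupp.mem_support_iff.2 hv)))
  rw [h1]
  have hfin : {σ : Finset W | σ ∈ K ∧ (σ : Set W) ⊆ F}.Finite := by
    have h2 : {σ : Finset W | (σ : Set W) ⊆ F}.Finite := by
      have h3 : {σ : Finset W | (σ : Set W) ⊆ F} =
          ((fun σ : Finset W => (σ : Set W)) ⁻¹' {t | t ⊆ F}) := rfl
      rw [h3]
      exact hF.finite_subsets.preimage (Finset.coe_injective.injOn)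
    exact h2.subset fun σ hσ => hσ.2
  refine hfin.isCompact_biUnion fun σ hσ => ?_
  rw [← range_stdPt hK σ hσ.1]
  exact isCompact_range (continuous_stdPt hK σ hσ.1)

/-- A simplicial map of locally finite complexes which is finite-to-one on vertices is proper. -/
theorem IsSimplicial.proper {K : Set (Finset W)} {K' : Set (Finset W')} {f : W → W'}
    (h : IsSimplicial K K' f) (hK : DownClosed K) (hK' : LocFin K')
    (hf : ∀ v', {v | f v = v' ∧ {v} ∈ K}.Finite) (C' : Set (Pt K')) (hC' : IsCompact C') :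
    ∃ C : Set (Pt K), IsCompact C ∧ h.map ⁻¹' C' ⊆ C := by
  classical
  have hF : (⋃ v' ∈ {v' | ∃ x ∈ C', x.w v' ≠ 0}, {v | f v = v' ∧ {v} ∈ K}).Finite :=
    Set.Finite.biUnion (finite_vertices hK' hC') fun v' _ => hf v'
  refine ⟨_, isCompact_sub hK _ hF, ?_⟩
  intro x hx v hv
  refine Set.mem_biUnion (x := f v) ⟨h.map x, hx, ?_⟩ ⟨rfl, ?_⟩
  · show (x.w.mapDomain f) (f v) ≠ 0
    have h1 : (x.w.mapDomain f) (f v) = ∑ u ∈ x.w.support, if f u = f v then x.w u else 0 := by
      rw [Finsupp.mapDomain, Finsupp.sum, Finsupp.finsetSum_apply]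
      refine Finset.sum_congr rfl fun u _ => ?_
      rw [Finsupp.single_apply]
    have h2 : x.w v ≤ ∑ u ∈ x.w.support, if f u = f v then x.w u else 0 := by
      have h3 := Finset.single_le_sum (f := fun u => if f u = f v then x.w u else 0)
        (fun u _ => by
          show 0 ≤ if f u = f v then x.w u else 0
          split_ifs
          · exact x.nonneg u
          · exact le_rfl) (Finsupp.mem_support_iff.2 hv)
      simpa using h3
    have h3 : 0 < x.w v := lt_of_le_of_ne (x.nonneg v) (Ne.symm hv)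
    rw [h1]
    linarith
  · refine hK _ x.mem {v} ?_ (Finset.singleton_nonempty v)
    rw [Finset.singleton_subset_iff]
    exact Finsupp.mem_support_iff.2 hv

end

end Pool.Agent.H368.NV
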