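import Pool.Agent.H368.NV.RoeM
import Pool.Agent.H368.NV.Cx

/-!
# Rips complexes of discrete metric spaces of bounded geometry and the index map in degree one
-/

set_option autoImplicit false
set_option linter.unusedVariables false

namespace Pool.Agent.H368.NV

open scoped ENNReal NNReal Topology BoundedContinuousFunction
open Filter

noncomputable section

/-- The set of all vertices of the simplices which meet `F`, together with `F`. -/
def nbh {W : Type} (K : Set (Finset W)) (F : Set W) : Set W :=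
  F ∪ ⋃ σ ∈ {σ ∈ K | ∃ u ∈ σ, u ∈ F}, (σ : Set W)

theorem nbh_finite {W : Type} {K : Set (Finset W)} (hK : LocFin K) {F : Set W} (hF : F.Finite) :
    (nbh K F).Finite := by
  refine hF.union (Set.Finite.biUnion ?_ fun σ _ => Finset.finite_toSet σ)
  have h1 : (⋃ u ∈ F, {σ ∈ K | u ∈ σ}).Finite := Set.Finite.biUnion hF fun u _ => hK u
  refine h1.subset ?_
  rintro σ ⟨hσ, u, hu, huF⟩
  exact Set.mem_biUnion huF ⟨hσ, hu⟩

/-- The iterated neighbourhoods. -/
def nbI {W : Type} (K : Set (Finset W)) (F : Set W) (k : ℕ) : Set W := (nbh K)^[k] F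

theorem nbI_finite {W : Type} {K : Set (Finset W)} (hK : LocFin K) {F : Set W} (hF : F.Finite)
    (k : ℕ) : (nbI K F k).Finite := by
  induction k with
  | zero => exact hF
  | succ k ih =>
    unfold nbI at ih ⊢
    rw [Function.iterate_succ_apply']
    exact nbh_finite hK ih

theorem nbI_succ {W : Type} {K : Set (Finset W)} {F : Set W} (k : ℕ) :
    nbI K F (k + 1) = nbh K (nbI K F k) := by
  unfold nbI
  rw [Function.iterate_succ_apply']

theorem nbI_le_succ {W : Type} {K : Set (Finset W)} {F : Set W} (k : ℕ) :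
    nbI K F k ⊆ nbI K F (k + 1) := by
  rw [nbI_succ]
  exact Set.subset_union_left

theorem nbI_mono {W : Type} {K : Set (Finset W)} {F : Set W} : Monotone (nbI K F) :=
  monotone_nat_of_le_succ nbI_le_succ

theorem nbI_step {W : Type} {K : Set (Finset W)} {F : Set W} {k : ℕ} {σ : Finset W} (hσ : σ ∈ K)
    {v w : W} (hv : v ∈ σ) (hw : w ∈ σ) (h : v ∈ nbI K F k) : w ∈ nbI K F (k + 1) := by
  rw [nbI_succ]
  exact Or.inr (Set.mem_biUnion (x := σ) ⟨hσ, v, hv, h⟩ hw)

open Classical in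
/-- The number of the `k < M` with `v ∉ nbI K F k`. -/
def dcount {W : Type} (K : Set (Finset W)) (F : Set W) (M : ℕ) (v : W) : ℝ :=
  ∑ k ∈ Finset.range M, if v ∈ nbI K F k then 0 else 1

theorem dcount_le {W : Type} {K : Set (Finset W)} {F : Set W} (M : ℕ) {σ : Finset W} (hσ : σ ∈ K)
    {v w : W} (hv : v ∈ σ) (hw : w ∈ σ) : dcount K F M w ≤ dcount K F M v + 1 := by
  classical
  cases M with
  | zero => simp [dcount]
  | succ M =>
    unfold dcount
    rw [Finset.sum_range_succ', Finset.sum_range_succ]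
    have h1 : ∑ k ∈ Finset.range M, (if w ∈ nbI K F (k + 1) then (0 : ℝ) else 1) ≤
        ∑ k ∈ Finset.range M, (if v ∈ nbI K F k then (0 : ℝ) else 1) := by
      refine Finset.sum_le_sum fun k _ => ?_
      by_cases h : v ∈ nbI K F k
      · rw [if_pos h, if_pos (nbI_step hσ hv hw h)]
      · rw [if_neg h]
        split_ifs <;> norm_num
    have h2 : (if w ∈ nbI K F 0 then (0 : ℝ) else 1) ≤ 1 := by split_ifs <;> norm_num
    have h3 : (0 : ℝ) ≤ if v ∈ nbI K F M then (0 : ℝ) else 1 := by split_ifs <;> norm_num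
    linarith

/-- The average of `dcount` over the vertices. -/
def gav {W : Type} {K : Set (Finset W)} (F : Set W) (M : ℕ) (y : Pt K) : ℝ :=
  y.w.sum fun v t => t * dcount K F M v

theorem gav_eq {W : Type} {K : Set (Finset W)} (F : Set W) (M : ℕ) (y : Pt K) (s : Finset W)
    (hs : y.w.support ⊆ s) : gav F M y = ∑ v ∈ s, y.w v * dcount K F M v :=
  Finsupp.sum_of_support_subset _ hs _ (fun _ _ => zero_mul _)

theorem sum_w_eq {W : Type} {K : Set (Finset W)} (y : Pt K) (s : Finset W)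
    (hs : y.w.support ⊆ s) : ∑ v ∈ s, y.w v = 1 := by
  rw [← y.sum_one]
  exact (Finsupp.sum_of_support_subset _ hs (fun _ t => t) (fun _ _ => rfl)).symm

theorem supp_nonempty {W : Type} {K : Set (Finset W)} (y : Pt K) : y.w.support.Nonempty := by
  rw [Finset.nonempty_iff_ne_empty]
  intro h
  have := y.sum_one
  rw [Finsupp.sum, h, Finset.sum_empty] at this
  exact zero_ne_one this

theorem gav_common {W : Type} {K : Set (Finset W)} (F : Set W) (M : ℕ) {x y : Pt K}
    (h : Common x y) : gav F M y ≤ gav F M x + l1 x y := by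
  obtain ⟨σ, hσ, hx, hy⟩ := h
  obtain ⟨v0, hv0⟩ := supp_nonempty x
  have hv0' := hx hv0
  have h1 : ∀ v, v ∉ σ → x.w v = y.w v := by
    intro v hv
    rw [not_mem_supp x fun h => hv (hx h), not_mem_supp y fun h => hv (hy h)]
  rw [gav_eq F M y σ hy, gav_eq F M x σ hx, l1_eq x y σ h1]
  have e1 := sum_w_eq x σ hx
  have e2 := sum_w_eq y σ hy
  have h2 : ∑ v ∈ σ, y.w v * dcount K F M v - ∑ v ∈ σ, x.w v * dcount K F M v =
      ∑ v ∈ σ, (y.w v - x.w v) * (dcount K F M v - dcount K F M v0) := by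
    have h3 : ∑ v ∈ σ, (y.w v - x.w v) * (dcount K F M v - dcount K F M v0) =
        (∑ v ∈ σ, y.w v * dcount K F M v - ∑ v ∈ σ, x.w v * dcount K F M v) -
        ((∑ v ∈ σ, y.w v) - ∑ v ∈ σ, x.w v) * dcount K F M v0 := by
      rw [sub_mul, Finset.sum_mul, Finset.sum_mul, ← Finset.sum_sub_distrib,
        ← Finset.sum_sub_distrib, ← Finset.sum_sub_distrib]
      refine Finset.sum_congr rfl fun v _ => ?_
      ring
    rw [h3, e1, e2]
    ring
  have h4 : ∑ v ∈ σ, (y.w v - x.w v) * (dcount K F M v - dcount K F M v0) ≤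
      ∑ v ∈ σ, |x.w v - y.w v| := by
    refine Finset.sum_le_sum fun v hv => ?_
    have h5 : |dcount K F M v - dcount K F M v0| ≤ 1 := by
      rw [abs_le]
      have g1 := dcount_le (F := F) M hσ hv hv0'
      have g2 := dcount_le (F := F) M hσ hv0' hv
      constructor <;> linarith
    calc (y.w v - x.w v) * (dcount K F M v - dcount K F M v0)
        ≤ |(y.w v - x.w v) * (dcount K F M v - dcount K F M v0)| := le_abs_self _
      _ = |x.w v - y.w v| * |dcount K F M v - dcount K F M v0| := by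
          rw [abs_mul, abs_sub_comm]
      _ ≤ |x.w v - y.w v| * 1 := mul_le_mul_of_nonneg_left h5 (abs_nonneg _)
      _ = |x.w v - y.w v| := mul_one _
  linarith

theorem gav_chain {W : Type} {K : Set (Finset W)} (F : Set W) (M : ℕ) {x y : Pt K} {ℓ : ℝ}
    (h : Chain x y ℓ) : gav F M y ≤ gav F M x + ℓ := by
  induction h with
  | refl x => simp
  | cons hc _ ih =>
    have := gav_common F M hc
    linarith

/-- In a locally finite complex a bounded set (for the path metric) has only finitely many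
vertices. SKETCH: Let `x` be a point of the set, `F₀` the vertices of `x`, and `F_{k+1}` the set of all vertices of
simplices which meet `F_k`; these sets are finite. Let `D v` be the smallest `k` with `v ∈ F_k` (on the union of the
`F_k`, which contains all vertices of all points in chains from `x`). `g y = ∑ y_v D v` satisfies
`g y' ≤ g y + l1 y y'` if `Common y y'` (as `|D v - D w| ≤ 1` for `v, w` in a common simplex), so `g y ≤ g x + ℓ` for a
chain of length `ℓ` from `x` to `y`, so some vertex, and then all vertices of `y`, are in `F_{⌈ℓ⌉ + 2}`. -/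
theorem finite_vertices_of_ebdd {W : Type} {K : Set (Finset W)} (hK : LocFin K) {B : Set (Pt K)}
    (hB : EBdd B) : {v | ∃ x ∈ B, x.w v ≠ 0}.Finite := by
  classical
  rcases B.eq_empty_or_nonempty with rfl | ⟨x, hx⟩
  · simp
  obtain ⟨r, hr⟩ := hB
  set F : Set W := (x.w.support : Set W) with hF
  obtain ⟨M, hM⟩ := exists_nat_gt ((r : ℝ) + 1)
  refine (nbI_finite hK (F := F) (Finset.finite_toSet _) (M + 1)).subset ?_
  rintro v ⟨y, hy, hv⟩
  have h1 : edist x y < (r : ℝ≥0∞) + 1 :=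
    (hr x hx y hy).trans_lt (ENNReal.lt_add_right ENNReal.coe_ne_top one_ne_zero)
  change pathDist x y < _ at h1
  unfold pathDist at h1
  rw [iInf_lt_iff] at h1
  obtain ⟨ℓ, h1⟩ := h1
  rw [iInf_lt_iff] at h1
  obtain ⟨hc, h1⟩ := h1
  have h2 : ℓ < r + 1 := by
    have h3 : ((r : ℝ≥0∞) + 1) = ENNReal.ofReal (r + 1) := by
      rw [ENNReal.ofReal_add r.coe_nonneg zero_le_one]; simp
    rw [h3] at h1
    exact (ENNReal.ofReal_lt_ofReal_iff (by positivity)).1 h1
  have h3 := gav_chain F M hc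
  have h4 : gav F M x = 0 := by
    rw [gav_eq F M x _ subset_rfl]
    refine Finset.sum_eq_zero fun v hv => ?_
    have h5 : dcount K F M v = 0 := by
      unfold dcount
      refine Finset.sum_eq_zero fun k _ => ?_
      rw [if_pos]
      exact nbI_mono (Nat.zero_le k) (show v ∈ nbI K F 0 from hv)
    rw [h5, mul_zero]
  have h5 : ∃ u ∈ y.w.support, ∃ k < M, u ∈ nbI K F k := by
    by_contra hcon
    push Not at hcon
    have h6 : gav F M y = M := by
      rw [gav_eq F M y _ subset_rfl]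
      have h7 : ∑ v ∈ y.w.support, y.w v * dcount K F M v = ∑ v ∈ y.w.support, y.w v * M := by
        refine Finset.sum_congr rfl fun u hu => ?_
        congr 1
        unfold dcount
        rw [Finset.sum_congr rfl fun k hk => if_neg (hcon u hu k (Finset.mem_range.1 hk))]
        simp
      rw [h7, ← Finset.sum_mul, sum_w_eq y _ subset_rfl, one_mul]
    linarith
  obtain ⟨u, hu, k, hk, huk⟩ := h5
  exact nbI_step y.mem hu (Finsupp.mem_support_iff.2 hv) (nbI_mono hk.le huk)

/-- The set of points with all vertices in a finite set is a finite union of bounded sets. -/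
theorem ebdd_cover {W : Type} {K : Set (Finset W)} (hK : DownClosed K) (F : Set W)
    (hF : F.Finite) : ∃ S : Set (Set (Pt K)), S.Finite ∧ (∀ B ∈ S, EBdd B) ∧
      {x : Pt K | ∀ v, x.w v ≠ 0 → v ∈ F} ⊆ ⋃₀ S := by
  have hfin : {σ : Finset W | (σ : Set W) ⊆ F}.Finite :=
    hF.finite_subsets.preimage (Finset.coe_injective.injOn)
  refine ⟨(fun σ : Finset W => {x : Pt K | x.w.support ⊆ σ}) ''
    {σ | σ ∈ K ∧ (σ : Set W) ⊆ F}, (hfin.subset fun σ hσ => hσ.2).image _, ?_, ?_⟩
  · rintro _ ⟨σ, hσ, rfl⟩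
    refine ⟨2, fun x hx y hy => ?_⟩
    refine (edist_le_of_common ⟨σ, hσ.1, hx, hy⟩).trans ?_
    have h1 : ∀ v, v ∉ σ → x.w v = y.w v := by
      intro v hv
      rw [not_mem_supp x fun h => hv (hx h), not_mem_supp y fun h => hv (hy h)]
    have h2 : l1 x y ≤ 2 := by
      rw [l1_eq x y σ h1]
      calc ∑ v ∈ σ, |x.w v - y.w v| ≤ ∑ v ∈ σ, (x.w v + y.w v) := by
            refine Finset.sum_le_sum fun v _ => ?_
            rw [abs_le]
            have g1 := x.nonneg v
            have g2 := y.nonneg v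
            constructor <;> linarith
        _ = 2 := by
            rw [Finset.sum_add_distrib, sum_w_eq x σ hx, sum_w_eq y σ hy]; norm_num
    have h3 : ENNReal.ofReal (l1 x y) ≤ ENNReal.ofReal 2 := ENNReal.ofReal_le_ofReal h2
    refine h3.trans (le_of_eq ?_)
    simp
  · intro x hx
    refine Set.mem_sUnion.2 ⟨{z : Pt K | z.w.support ⊆ x.w.support},
      ⟨x.w.support, ⟨x.mem, fun v hv => hx v (Finsupp.mem_support_iff.1 hv)⟩, rfl⟩, ?_⟩
    exact Finset.Subset.refl _

section Incl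

variable {W : Type} {K K' K'' : Set (Finset W)}

/-- The inclusion of the realization of a subcomplex. -/
def Pt.incl (h : K ⊆ K') (x : Pt K) : Pt K' where
  w := x.w
  nonneg := x.nonneg
  sum_one := x.sum_one
  mem := h x.mem

theorem Pt.incl_injective (h : K ⊆ K') : Function.Injective (Pt.incl h) := by
  intro x y hxy
  have h1 : x.w = y.w := congrArg (fun z : Pt K' => z.w) hxy
  obtain ⟨w, _, _, _⟩ := x
  obtain ⟨w', _, _, _⟩ := y
  simp only at h1
  subst h1
  rfl

theorem Pt.incl_chain (h : K ⊆ K') {x y : Pt K} {ℓ : ℝ} (hc : Chain x y ℓ) :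
    Chain (Pt.incl h x) (Pt.incl h y) ℓ := by
  induction hc with
  | refl x => exact Chain.refl _
  | @cons x y z ℓ hxy _ ih =>
    obtain ⟨σ, hσ, h1, h2⟩ := hxy
    have hcom : Common (Pt.incl h x) (Pt.incl h y) := ⟨σ, h hσ, h1, h2⟩
    exact Chain.cons hcom ih

theorem edist_incl_le (h : K ⊆ K') (x y : Pt K) :
    edist (Pt.incl h x) (Pt.incl h y) ≤ edist x y :=
  le_iInf₂ fun ℓ hc => iInf₂_le ℓ (Pt.incl_chain h hc)

theorem incl_mem_rat (h : K ⊆ K') {x : Pt K} (hx : x ∈ rat K) : Pt.incl h x ∈ rat K' := hx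

/-- The injection `(x, i) ↦ (x, i)`. -/
def inclZ (h : K ⊆ K') : rat K × ℕ ↪ rat K' × ℕ where
  toFun a := (⟨Pt.incl h a.1, incl_mem_rat h a.1.2⟩, a.2)
  inj' := by
    intro a b hab
    have h1 : Pt.incl h a.1 = Pt.incl h b.1 := congrArg (fun c : rat K' × ℕ => (c.1 : Pt K')) hab
    have h2 : a.2 = b.2 := congrArg (fun c : rat K' × ℕ => c.2) hab
    exact Prod.ext (Subtype.ext (Pt.incl_injective h h1)) h2

theorem inclZ_trans (h : K ⊆ K') (h' : K' ⊆ K'') :
    (inclZ h).trans (inclZ h') = inclZ (h.trans h') := rfl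

theorem coversM_incl (h : K ⊆ K') (hK : DownClosed K) (hK' : LocFin K') :
    CoversM (Pt.incl h) (inclZ h) where
  fst _ := rfl
  snd _ := rfl
  inj := Pt.incl_injective h
  lip := edist_incl_le h
  proper B' hB' := by
    obtain ⟨S, hS, hSB, hcov⟩ := ebdd_cover hK _ (finite_vertices_of_ebdd hK' hB')
    refine ⟨S, hS, hSB, fun x hx => hcov ?_⟩
    intro v hv
    exact ⟨Pt.incl h x, hx, hv⟩

end Incl

section Rips

/-- The Rips complex `P_d(Γ)`: its simplices are the finite nonempty subsets of diameter at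
most `d`. -/
def rips (Γ : Type) [MetricSpace Γ] (d : ℝ) : Set (Finset Γ) :=
  {σ | σ.Nonempty ∧ ∀ g ∈ σ, ∀ h ∈ σ, dist g h ≤ d}

/-- `Γ` has bounded geometry: for all `R` there is a bound for the cardinality of the balls of
radius `R`. -/
def BoundedGeometry (Γ : Type) [MetricSpace Γ] : Prop :=
  ∀ R : ℝ, 0 < R → ∃ M : ℕ, ∀ x : Γ, (Metric.closedBall x R).encard ≤ M

variable {Γ : Type} [MetricSpace Γ]

theorem rips_mono {d d' : ℝ} (h : d ≤ d') : rips Γ d ⊆ rips Γ d' :=
  fun _ hσ => ⟨hσ.1, fun g hg k hk => (hσ.2 g hg k hk).trans h⟩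

theorem downClosed_rips (d : ℝ) : DownClosed (rips Γ d) :=
  fun _ hσ _ hτ hn => ⟨hn, fun g hg k hk => hσ.2 g (hτ hg) k (hτ hk)⟩

theorem locFin_rips (hΓ : BoundedGeometry Γ) (d : ℝ) : LocFin (rips Γ d) := by
  intro v
  obtain ⟨M, hM⟩ := hΓ (max d 1) (lt_max_of_lt_right one_pos)
  have hF : (Metric.closedBall v (max d 1)).Finite :=
    Set.finite_of_encard_le_coe (hM v)
  have hfin : {σ : Finset Γ | (σ : Set Γ) ⊆ Metric.closedBall v (max d 1)}.Finite :=
    hF.finite_subsets.preimage (Finset.coe_injective.injOn)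
  refine hfin.subset ?_
  rintro σ ⟨hσ, hv⟩ g hg
  rw [Metric.mem_closedBall]
  exact (hσ.2 g hg v hv).trans (le_max_left _ _)

variable (p : ℝ≥0∞) [Fact (1 ≤ p)] [Fact (p ≠ ∞)]

/-- `K₁(B_L^p(P_d(Γ)))`. -/
def ML (Γ : Type) [MetricSpace Γ] (d : ℝ≥0) : Type := K1 (locM p (rat (rips Γ d)))

/-- `K₁(B^p(P_d(Γ)))`. -/
def MR (Γ : Type) [MetricSpace Γ] (d : ℝ≥0) : Type := K1 (roeM p (rat (rips Γ d)))

theorem coversM_rips (hΓ : BoundedGeometry Γ) {d d' : ℝ≥0} (h : d ≤ d') :
    CoversM (Pt.incl (rips_mono (Γ := Γ) (NNReal.coe_le_coe.2 h)))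
      (inclZ (rips_mono (Γ := Γ) (NNReal.coe_le_coe.2 h))) :=
  coversM_incl _ (downClosed_rips _) (locFin_rips hΓ _)

/-- The maps `K₁(B_L^p(P_d(Γ))) → K₁(B_L^p(P_{d'}(Γ)))`. -/
def mapL (hΓ : BoundedGeometry Γ) {d d' : ℝ≥0} (h : d ≤ d') : ML p Γ d → ML p Γ d' :=
  K1.map ((coversM_rips hΓ h).onLoc p)

/-- The maps `K₁(B^p(P_d(Γ))) → K₁(B^p(P_{d'}(Γ)))`. -/
def mapR (hΓ : BoundedGeometry Γ) {d d' : ℝ≥0} (h : d ≤ d') : MR p Γ d → MR p Γ d' :=
  K1.map ((coversM_rips hΓ h).onRoe p)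

/-- The maps `K₁(B_L^p(P_d(Γ))) → K₁(B^p(P_d(Γ)))` induced by evaluation at `0`. -/
def evM (d : ℝ≥0) : ML p Γ d → MR p Γ d := K1.map (evalZeroM p _)

/-- The direct limit of a family `G d` of sets with maps `f : G d → G d'` for `d ≤ d'`: the quotient
of the disjoint union by the equivalence relation generated by `x ~ f x`. -/
def DLim (G : ℝ≥0 → Type) (f : ∀ {d d' : ℝ≥0}, d ≤ d' → G d → G d') : Type :=
  Quot fun x y : Σ d, G d => ∃ h : x.1 ≤ y.1, y.2 = f h x.2

/-- The canonical map to the direct limit. -/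
def DLim.of {G : ℝ≥0 → Type} (f : ∀ {d d' : ℝ≥0}, d ≤ d' → G d → G d') (d : ℝ≥0) (x : G d) :
    DLim G f := Quot.mk _ ⟨d, x⟩

/-- If the maps are functorial and preserve base points, then an element which is equal to a base
point in the limit is mapped to the base point by some `f`. -/
theorem DLim.of_eq_base {G : ℝ≥0 → Type} (f : ∀ {d d' : ℝ≥0}, d ≤ d' → G d → G d')
    (hf : ∀ {a b c : ℝ≥0} (h : a ≤ b) (h' : b ≤ c) (x : G a), f h' (f h x) = f (h.trans h') x)
    (z : ∀ d, G d) (hz : ∀ {d d' : ℝ≥0} (h : d ≤ d'), f h (z d) = z d') {d : ℝ≥0} {x : G d}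
    (h : DLim.of f d x = DLim.of f d (z d)) : ∃ (d' : ℝ≥0) (h : d ≤ d'), f h x = z d' := by
  let P : DLim G f → Prop := Quot.lift
    (fun y : Σ d, G d => ∃ (d' : ℝ≥0) (h : y.1 ≤ d'), f h y.2 = z d') (by
      rintro ⟨a, x⟩ ⟨b, y⟩ ⟨h, hy⟩
      simp only at h hy
      subst hy
      apply propext
      constructor
      · rintro ⟨d', h', h1⟩
        refine ⟨max d' b, le_max_right _ _, ?_⟩
        show f _ (f h x) = _
        rw [hf h (le_max_right _ _) x, ← hf h' (le_max_left _ _) x]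
        simp only at h1
        rw [h1, hz]
      · rintro ⟨d', h', h1⟩
        refine ⟨d', h.trans h', ?_⟩
        rw [← hf h h' x]
        exact h1)
  have h1 : P (DLim.of f d (z d)) := ⟨d, le_rfl, hz le_rfl⟩
  rw [← h] at h1
  exact h1

/-- `lim_d K₁(B_L^p(P_d(Γ)))`. -/
def LimL (hΓ : BoundedGeometry Γ) : Type := DLim (ML p Γ) (mapL p hΓ)

/-- `lim_d K₁(B^p(P_d(Γ)))`. -/
def LimR (hΓ : BoundedGeometry Γ) : Type := DLim (MR p Γ) (mapR p hΓ)

theorem evM_mapL (hΓ : BoundedGeometry Γ) {d d' : ℝ≥0} (h : d ≤ d') (x : ML p Γ d) :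
    evM p d' (mapL p hΓ h x) = mapR p hΓ h (evM p d x) :=
  K1.map_eq_of_comp ((coversM_rips hΓ h).onLoc p) (evalZeroM p _) (evalZeroM p _)
    ((coversM_rips hΓ h).onRoe p) (fun _ => rfl) x

/-- The index map `lim_d K₁(B_L^p(P_d(Γ))) → lim_d K₁(B^p(P_d(Γ)))`. -/
def indexMap (hΓ : BoundedGeometry Γ) : LimL p hΓ → LimR p hΓ :=
  Quot.map (fun x => ⟨x.1, evM p x.1 x.2⟩) (by
    rintro x y ⟨h, hy⟩
    refine ⟨h, ?_⟩
    change evM p y.1 y.2 = mapR p hΓ h (evM p x.1 x.2)
    rw [hy, evM_mapL])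

theorem indexMap_of (hΓ : BoundedGeometry Γ) (d : ℝ≥0) (x : ML p Γ d) :
    indexMap p hΓ (DLim.of (mapL p hΓ) d x) = DLim.of (mapR p hΓ) d (evM p d x) := rfl

theorem mapL_mapL (hΓ : BoundedGeometry Γ) {a b c : ℝ≥0} (h : a ≤ b) (h' : b ≤ c)
    (x : ML p Γ a) : mapL p hΓ h' (mapL p hΓ h x) = mapL p hΓ (h.trans h') x := by
  obtain ⟨x, rfl⟩ := Quotient.exists_rep x
  change K1.mk _ (((coversM_rips hΓ h').onLoc p).onQ (((coversM_rips hΓ h).onLoc p).onQ x)) =
    K1.mk _ (((coversM_rips hΓ (h.trans h')).onLoc p).onQ x)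
  congr 1
  unfold CHom.onQ
  congr 1
  ext1 i j
  have h1 : ∀ g : ℝ≥0 →ᵇ Op p (rat (rips Γ a) × ℕ),
      pushPath (inclZ (rips_mono (Γ := Γ) (NNReal.coe_le_coe.2 h')))
        (pushPath (inclZ (rips_mono (Γ := Γ) (NNReal.coe_le_coe.2 h))) g) =
      pushPath (inclZ (rips_mono (Γ := Γ) (NNReal.coe_le_coe.2 (h.trans h')))) g := by
    intro g
    ext1 t
    rw [pushPath_apply, pushPath_apply, pushPath_apply, push_trans]
    rfl
  exact h1 _

end Rips

end

end Pool.Agent.H368.NV
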