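import Pool.Agent.H368.NV.Basic

/-!
# Compact operators on `ℓ^p(I)` and commutators with diagonal operators

PROOF SKETCH of `compact_approx`: `ind p G → 1` strongly along the finite sets `G` (as `p < ∞`), and
`‖ind p G‖ ≤ 1`, so the convergence is uniform on relatively compact sets such as the image of the
unit ball under a compact operator; so it holds for one `T`, and for a compact set of operators by
a finite `ε`-net.

PROOF SKETCH of `commutator_le`. Let `c i = ⌊g i / η⌋`, so `g = η c + η ρ` with `0 ≤ ρ < 1`. The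
commutator with `ρ` is the commutator with `ρ - 1/2`, so its norm is at most `‖T‖`. If `T a b ≠ 0` then
`|c a - c b| ≤ 1`. Let `ω` be a primitive third root of unity, `D_l = dg (ω^{l c})`, and
`T_e = (1/3) ∑_{l < 3} ω^{-l e} D_l T D_{-l}` (`e = 1, -1`); its entries are `T a b` if
`c a - c b ≡ e mod 3`, that is `c a - c b = e`, and `0` otherwise. So `[c, T] = T_1 - T_{-1}` has norm
`≤ 2 ‖T‖`.
-/

set_option autoImplicit false
set_option linter.unusedVariables false

namespace Pool.Agent.H368.NV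

open scoped ENNReal NNReal Topology
open Filter

noncomputable section

variable {p : ℝ≥0∞} [hp1 : Fact (1 ≤ p)] [hpt : Fact (p ≠ ∞)] {I : Type}

theorem tendsto_ind (f : Ell p I) {ε : ℝ} (hε : 0 < ε) :
    ∃ G : Finset I, ∀ G' : Finset I, G ⊆ G' → ‖f - ind p (G' : Set I) f‖ < ε := by
  classical
  have h := hasSum_bas f
  have h1 : ∀ᶠ G' : Finset I in atTop, dist (∑ i ∈ G', (f i) • bas p i) f < ε :=
    h.eventually (Metric.ball_mem_nhds f hε)
  obtain ⟨G, hG⟩ := eventually_atTop.1 h1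
  refine ⟨G, fun G' hG' => ?_⟩
  have h2 := hG G' hG'
  have h3 : ∑ i ∈ G', (f i) • bas p i = ind p (G' : Set I) f := by
    ext j
    rw [lp.coeFn_sum, Finset.sum_apply]
    simp only [lp.coeFn_smul, Pi.smul_apply, smul_eq_mul]
    by_cases hj : j ∈ G'
    · rw [ind_apply_mem f (by simpa using hj), Finset.sum_eq_single j, bas_apply_self, mul_one]
      · intro i _ hi
        rw [bas_apply_ne hi.symm, mul_zero]
      · intro h
        exact absurd hj h
    · rw [ind_apply_notMem f (by simpa using hj)]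
      refine Finset.sum_eq_zero fun i hi => ?_
      rw [bas_apply_ne (fun h => hj (by rw [h]; exact hi)), mul_zero]
  rw [h3, dist_comm, dist_eq_norm] at h2
  exact h2

theorem approx_totallyBounded {K : Set (Ell p I)} (hK : TotallyBounded K) {ε : ℝ} (hε : 0 < ε) :
    ∃ G : Finset I, ∀ G' : Finset I, G ⊆ G' → ∀ y ∈ K, ‖y - ind p (G' : Set I) y‖ ≤ 3 * ε := by
  classical
  obtain ⟨t, -, htf, ht⟩ := Metric.finite_approx_of_totallyBounded hK ε hε
  choose G hG using fun y : Ell p I => tendsto_ind y hε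
  refine ⟨htf.toFinset.biUnion G, fun G' hG' y hy => ?_⟩
  obtain ⟨z, hz, hyz⟩ := Set.mem_iUnion₂.1 (ht hy)
  have h1 : G z ⊆ G' :=
    (Finset.subset_biUnion_of_mem G (htf.mem_toFinset.2 hz)).trans hG'
  have h2 := (hG z G' h1).le
  have h3 : ‖y - z‖ ≤ ε := by
    rw [← dist_eq_norm]
    exact (Metric.mem_ball.1 hyz).le
  have h4 : ‖ind p (G' : Set I) (z - y)‖ ≤ ε := by
    refine ((ind p (G' : Set I)).le_opNorm _).trans ?_
    have h5 := norm_ind_le (p := p) (G' : Set I)
    rw [norm_sub_rev] at h3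
    calc ‖ind p (G' : Set I)‖ * ‖z - y‖ ≤ 1 * ε :=
          mul_le_mul h5 h3 (norm_nonneg _) zero_le_one
      _ = ε := one_mul _
  have h6 : y - ind p (G' : Set I) y = (y - z) + (z - ind p (G' : Set I) z) +
      ind p (G' : Set I) (z - y) := by
    rw [map_sub]
    abel
  rw [h6]
  refine (norm_add₃_le).trans ?_
  linarith

theorem approx_one (T : Op p I) (hT : IsCompactOperator (T : Op p I)) {ε : ℝ} (hε : 0 < ε) :
    ∃ G : Finset I, ∀ G' : Finset I, G ⊆ G' → ‖T - ind p (G' : Set I) * T‖ < ε := by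
  have h1 : IsCompact (closure (T '' Metric.closedBall 0 1)) :=
    hT.isCompact_closure_image_closedBall (f := (T : Ell p I →ₗ[ℂ] Ell p I)) 1
  have h2 : TotallyBounded (T '' Metric.closedBall 0 1) := h1.totallyBounded.subset subset_closure
  obtain ⟨G, hG⟩ := approx_totallyBounded h2 (ε := ε / 4) (by positivity)
  refine ⟨G, fun G' hG' => ?_⟩
  have h3 : ‖T - ind p (G' : Set I) * T‖ ≤ 3 * (ε / 4) := by
    refine ContinuousLinearMap.opNorm_le_of_unit_norm (by positivity) fun x hx => ?_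
    exact hG G' hG' (T x) ⟨x, by simp [hx], rfl⟩
  linarith

theorem compact_approx (S : Set (Op p I)) (hS : IsCompact S)
    (h : ∀ T ∈ S, IsCompactOperator (T : Op p I)) {ε : ℝ} (hε : 0 < ε) :
    ∃ G : Finset I, ∀ G' : Finset I, G ⊆ G' → ∀ T ∈ S, ‖T - ind p (G' : Set I) * T‖ < ε := by
  classical
  obtain ⟨t, htS, htf, ht⟩ := Metric.finite_approx_of_totallyBounded hS.totallyBounded (ε / 3)
    (by positivity)
  have hex : ∀ T : Op p I, ∃ G : Finset I, T ∈ S → ∀ G' : Finset I, G ⊆ G' →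
      ‖T - ind p (G' : Set I) * T‖ < ε / 3 := by
    intro T
    by_cases hT : T ∈ S
    · obtain ⟨G, hG⟩ := approx_one T (h T hT) (ε := ε / 3) (by positivity)
      exact ⟨G, fun _ => hG⟩
    · exact ⟨∅, fun h => absurd h hT⟩
  choose G hG using hex
  refine ⟨htf.toFinset.biUnion G, fun G' hG' T hT => ?_⟩
  obtain ⟨Z, hZ, hTZ⟩ := Set.mem_iUnion₂.1 (ht hT)
  have h1 : G Z ⊆ G' :=
    (Finset.subset_biUnion_of_mem G (htf.mem_toFinset.2 hZ)).trans hG'
  have h2 := hG Z (htS hZ) G' h1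
  have h3 : ‖T - Z‖ < ε / 3 := by
    rw [← dist_eq_norm]
    exact Metric.mem_ball.1 hTZ
  have h4 : ‖ind p (G' : Set I) * (Z - T)‖ ≤ ε / 3 := by
    refine (norm_mul_le _ _).trans ?_
    have h5 := norm_ind_le (p := p) (G' : Set I)
    rw [norm_sub_rev] at h3
    calc ‖ind p (G' : Set I)‖ * ‖Z - T‖ ≤ 1 * (ε / 3) :=
          mul_le_mul h5 h3.le (norm_nonneg _) zero_le_one
      _ = ε / 3 := one_mul _
  have h6 : T - ind p (G' : Set I) * T = (T - Z) + (Z - ind p (G' : Set I) * Z) +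
      ind p (G' : Set I) * (Z - T) := by
    rw [mul_sub]
    abel
  rw [h6]
  refine lt_of_le_of_lt (norm_add₃_le) ?_
  linarith

theorem isCompactOperator_ind (G : Set I) (hG : G.Finite) :
    IsCompactOperator (ind p G : Op p I) := by
  classical
  have e : ind p G = ∑ i ∈ hG.toFinset, (evl p i).smulRight (bas p i) := by
    apply clm_ext
    intro b
    ext j
    rw [sum_apply, lp.coeFn_sum, Finset.sum_apply]
    simp only [ContinuousLinearMap.smulRight_apply, evl_apply, lp.coeFn_smul, Pi.smul_apply,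
      smul_eq_mul]
    by_cases hj : j ∈ G
    · rw [ind_apply_mem _ hj, Finset.sum_eq_single j, bas_apply_self, mul_one]
      · intro i _ hi
        rw [bas_apply_ne hi.symm, mul_zero]
      · intro h
        exact absurd (hG.mem_toFinset.2 hj) h
    · rw [ind_apply_notMem _ hj]
      refine (Finset.sum_eq_zero fun i hi => ?_).symm
      have h9 : (bas p i : I → ℂ) j = 0 :=
        bas_apply_ne (fun h => hj (by rw [h]; exact hG.mem_toFinset.1 hi))
      rw [h9]
      exact mul_zero _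
  rw [e]
  have h1 : ∀ i ∈ hG.toFinset, ((evl p i).smulRight (bas p i) : Op p I) ∈
      compactOperator (RingHom.id ℂ) (Ell p I) (Ell p I) := by
    intro i _
    have h2 : IsCompactOperator (ContinuousLinearMap.toSpanSingleton ℂ (bas p i : Ell p I)) :=
      isCompactOperator_of_locallyCompactSpace_rng _
    have h3 := h2.comp_clm (evl p i)
    exact h3
  exact Submodule.sum_mem _ h1

/-- An operator which is multiplied by the indicator of a finite set is compact. -/
theorem isCompactOperator_ind_mul (G : Set I) (hG : G.Finite) (T : Op p I) :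
    IsCompactOperator (ind p G * T : Op p I) ∧ IsCompactOperator (T * ind p G : Op p I) := by
  have h := isCompactOperator_ind (p := p) G hG
  exact ⟨h.comp_clm T, h.clm_comp T⟩

theorem abs_floor_sub_le {x y : ℝ} (h : |x - y| ≤ 1) :
    ⌊x⌋ - ⌊y⌋ = -1 ∨ ⌊x⌋ - ⌊y⌋ = 0 ∨ ⌊x⌋ - ⌊y⌋ = 1 := by
  rw [abs_le] at h
  have h1 : ⌊x⌋ ≤ ⌊y⌋ + 1 := by
    rw [← Int.floor_add_one]
    exact Int.floor_le_floor (by linarith)
  have h2 : ⌊y⌋ ≤ ⌊x⌋ + 1 := by
    rw [← Int.floor_add_one]
    exact Int.floor_le_floor (by linarith)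
  omega

theorem comm_norm_le {g : I → ℂ} {C : ℝ} (hC : 0 ≤ C) (hg : ∀ i, ‖g i‖ ≤ C) (T : Op p I) :
    ‖dg p g * T - T * dg p g‖ ≤ 2 * C * ‖T‖ := by
  have h1 := norm_dg_le (p := p) hC hg
  calc ‖dg p g * T - T * dg p g‖ ≤ ‖dg p g * T‖ + ‖T * dg p g‖ := norm_sub_le _ _
    _ ≤ ‖dg p g‖ * ‖T‖ + ‖T‖ * ‖dg p g‖ := add_le_add (norm_mul_le _ _) (norm_mul_le _ _)
    _ ≤ C * ‖T‖ + ‖T‖ * C := by gcongr
    _ = 2 * C * ‖T‖ := by ring

/-- The commutator with an integer valued function `c` such that `|c a - c b| ≤ 1` if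
`T a b ≠ 0`. -/
theorem comm_int_le (c : I → ℤ) {C : ℝ} (hc : ∀ i, ‖((c i : ℤ) : ℂ)‖ ≤ C) (T : Op p I)
    (h : ∀ a b, ent T a b ≠ 0 → c a - c b = -1 ∨ c a - c b = 0 ∨ c a - c b = 1) :
    ‖dg p (fun i => ((c i : ℤ) : ℂ)) * T - T * dg p (fun i => ((c i : ℤ) : ℂ))‖ ≤ ‖T‖ := by
  have hu : ∀ i, ‖Complex.I ^ (c i)‖ ≤ 1 := fun i => by
    rw [norm_zpow, Complex.norm_I, one_zpow]
  have hv : ∀ i, ‖Complex.I ^ (-c i)‖ ≤ 1 := fun i => by
    rw [norm_zpow, Complex.norm_I, one_zpow]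
  set D := dg p (fun i => Complex.I ^ (c i)) with hD
  set D' := dg p (fun i => Complex.I ^ (-c i)) with hD'
  have e : dg p (fun i => ((c i : ℤ) : ℂ)) * T - T * dg p (fun i => ((c i : ℤ) : ℂ)) =
      (2 * Complex.I)⁻¹ • (D * T * D' - D' * T * D) := by
    apply op_ext
    intro a b
    rw [ent_sub, ent_dg_mul hc, ent_mul_dg hc, ent_smul, ent_sub, hD, hD', ent_mul_dg hv,
      ent_dg_mul hu, ent_mul_dg hu, ent_dg_mul hv]
    by_cases h0 : ent T a b = 0
    · rw [h0]; ring
    · have hI : Complex.I ≠ 0 := Complex.I_ne_zero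
      have key : Complex.I ^ (c a) * Complex.I ^ (-c b) - Complex.I ^ (-c a) * Complex.I ^ (c b) =
          (2 * Complex.I) * ((c a : ℂ) - (c b : ℂ)) := by
        rw [← zpow_add₀ hI, ← zpow_add₀ hI]
        have e1 : c a + -c b = c a - c b := by ring
        have e2 : -c a + c b = -(c a - c b) := by ring
        rw [e1, e2, ← Int.cast_sub]
        rcases h a b h0 with h1 | h1 | h1
        · rw [h1]
          simp only [zpow_neg, zpow_one, neg_neg, Complex.inv_I]
          push_cast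
          ring
        · rw [h1]; simp
        · rw [h1]
          simp only [zpow_neg, zpow_one, Complex.inv_I]
          push_cast
          ring
      have h2 : (2 * Complex.I) ≠ 0 := mul_ne_zero two_ne_zero hI
      rw [eq_comm, inv_mul_eq_iff_eq_mul₀ h2]
      linear_combination (ent T a b) * key
  rw [e, norm_smul]
  have h1 := norm_dg_le (p := p) zero_le_one hu
  have h2 := norm_dg_le (p := p) zero_le_one hv
  have h3 : ‖D * T * D'‖ ≤ ‖T‖ := by
    calc ‖D * T * D'‖ ≤ ‖D‖ * ‖T‖ * ‖D'‖ :=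
          (norm_mul_le _ _).trans (mul_le_mul_of_nonneg_right (norm_mul_le _ _) (norm_nonneg _))
      _ ≤ 1 * ‖T‖ * 1 := by gcongr
      _ = ‖T‖ := by ring
  have h4 : ‖D' * T * D‖ ≤ ‖T‖ := by
    calc ‖D' * T * D‖ ≤ ‖D'‖ * ‖T‖ * ‖D‖ :=
          (norm_mul_le _ _).trans (mul_le_mul_of_nonneg_right (norm_mul_le _ _) (norm_nonneg _))
      _ ≤ 1 * ‖T‖ * 1 := by gcongr
      _ = ‖T‖ := by ring
  have h5 : ‖(2 * Complex.I)⁻¹‖ = 1 / 2 := by
    rw [norm_inv, norm_mul, Complex.norm_I]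
    norm_num
  rw [h5]
  have h6 := norm_sub_le (D * T * D') (D' * T * D)
  linarith

theorem commutator_le (g : I → ℝ) {C : ℝ} (hg : ∀ i, |g i| ≤ C) {η : ℝ} (hη : 0 < η)
    (T : Op p I) (h : ∀ a b, ent T a b ≠ 0 → |g a - g b| ≤ η) :
    ‖dg p (fun i => (g i : ℂ)) * T - T * dg p (fun i => (g i : ℂ))‖ ≤ 8 * η * ‖T‖ := by
  set c : I → ℤ := fun i => ⌊g i / η⌋ with hc
  set ρ : I → ℂ := fun i => ((g i / η - ⌊g i / η⌋ : ℝ) : ℂ) with hρ
  have hgC : ∀ i, ‖((g i : ℝ) : ℂ)‖ ≤ C := fun i => by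
    rw [Complex.norm_real, Real.norm_eq_abs]
    exact hg i
  have hρ1 : ∀ i, ‖ρ i‖ ≤ 1 := by
    intro i
    rw [hρ]
    simp only
    rw [Complex.norm_real, Real.norm_eq_abs, abs_le]
    have h1 := Int.floor_le (g i / η)
    have h2 := Int.lt_floor_add_one (g i / η)
    constructor <;> linarith
  have hcC : ∀ i, ‖((c i : ℤ) : ℂ)‖ ≤ C / η + 1 := by
    intro i
    have h1 := Int.floor_le (g i / η)
    have h2 := Int.lt_floor_add_one (g i / η)
    have h3 : |g i / η| ≤ C / η := by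
      rw [abs_div, abs_of_pos hη]
      exact div_le_div_of_nonneg_right (hg i) hη.le
    have h4 : ‖((c i : ℤ) : ℂ)‖ = |((c i : ℤ) : ℝ)| := by
      rw [← Complex.ofReal_intCast, Complex.norm_real, Real.norm_eq_abs]
    rw [h4, hc]
    rw [abs_le] at h3 ⊢
    constructor <;> simp only <;> linarith [h3.1, h3.2]
  have e : dg p (fun i => (g i : ℂ)) * T - T * dg p (fun i => (g i : ℂ)) =
      (η : ℂ) • ((dg p (fun i => ((c i : ℤ) : ℂ)) * T - T * dg p (fun i => ((c i : ℤ) : ℂ))) +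
        (dg p ρ * T - T * dg p ρ)) := by
    apply op_ext
    intro a b
    rw [ent_sub, ent_dg_mul hgC, ent_mul_dg hgC, ent_smul, ent_add, ent_sub, ent_sub,
      ent_dg_mul hcC, ent_mul_dg hcC, ent_dg_mul hρ1, ent_mul_dg hρ1]
    have hηc : (η : ℂ) ≠ 0 := by exact_mod_cast hη.ne'
    have hs : ∀ i, (g i : ℂ) = (η : ℂ) * (((c i : ℤ) : ℂ) + ρ i) := by
      intro i
      rw [hρ, hc]
      simp only
      push_cast
      field_simp
      ring
    rw [hs a, hs b]
    ring
  rw [e, norm_smul]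
  have h1 := comm_int_le c hcC T (fun a b hab => by
    refine abs_floor_sub_le ?_
    have h2 := h a b hab
    rw [← sub_div, abs_div, abs_of_pos hη, div_le_one hη]
    exact h2)
  have h2 := comm_norm_le (p := p) zero_le_one hρ1 T
  have h3 : ‖(η : ℂ)‖ = η := by
    rw [Complex.norm_real, Real.norm_eq_abs, abs_of_pos hη]
  rw [h3]
  have h4 := norm_add_le (dg p (fun i => ((c i : ℤ) : ℂ)) * T - T * dg p (fun i => ((c i : ℤ) : ℂ)))
    (dg p ρ * T - T * dg p ρ)
  have h5 := norm_nonneg T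
  calc η * ‖(dg p (fun i => ((c i : ℤ) : ℂ)) * T - T * dg p (fun i => ((c i : ℤ) : ℂ))) +
        (dg p ρ * T - T * dg p ρ)‖ ≤ η * (8 * ‖T‖) := by
        refine mul_le_mul_of_nonneg_left ?_ hη.le
        linarith
    _ = 8 * η * ‖T‖ := by ring

end

end Pool.Agent.H368.NV
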