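import Pool.Agent.H368.NV.Roe
import Pool.Agent.H368.NV.OpTools

/-!
# `ℓ^p` Roe algebras and localization algebras, defined by matrices of operators on `ℓ^p(ℕ)`
-/

set_option autoImplicit false
set_option linter.unusedVariables false

namespace Pool.Agent.H368.NV

open scoped ENNReal NNReal Topology BoundedContinuousFunction
open Filter

noncomputable section

variable {p : ℝ≥0∞} [hp1 : Fact (1 ≤ p)] [hpt : Fact (p ≠ ∞)]

section Space

variable {Y : Type} [PseudoEMetricSpace Y] {Z : Set Y}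

/-- The inclusion of `{x} × ℕ` into `Z × ℕ`. -/
def fib (x : Z) : ℕ ↪ Z × ℕ := ⟨fun i => (x, i), fun i j h => (Prod.mk.inj h).2⟩

/-- The matrix entry `T(x, y)`, a bounded operator on `ℓ^p(ℕ)`, of an operator on
`ℓ^p(Z, ℓ^p(ℕ)) = ℓ^p(Z × ℕ)`. -/
def block (T : Op p (Z × ℕ)) (x y : Z) : Op p ℕ :=
  (res p (fib x)).comp (T.comp (exz p (fib y)))

theorem ent_block (T : Op p (Z × ℕ)) (x y : Z) (i j : ℕ) :
    ent (block T x y) i j = ent T (x, i) (y, j) := by
  unfold ent block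
  simp only [ContinuousLinearMap.comp_apply, res_apply, exz_bas]
  rfl

theorem block_eq_zero_iff (T : Op p (Z × ℕ)) (x y : Z) :
    block T x y = 0 ↔ ∀ i j, ent T (x, i) (y, j) = 0 := by
  constructor
  · intro h i j
    rw [← ent_block, h, ent_zero]
  · intro h
    apply op_ext
    intro i j
    rw [ent_block, ent_zero, h]

/-- A bounded subset of an extended metric space. -/
def EBdd (B : Set Y) : Prop := ∃ r : ℝ≥0, ∀ x ∈ B, ∀ y ∈ B, edist x y ≤ r

/-- `T` is locally compact: all entries `T(x, y)` are compact, and for every bounded `B ⊆ Y` there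
are only finitely many `(x, y) ∈ (B × B) ∩ (Z × Z)` with `T(x, y) ≠ 0`. -/
structure LocCptM (T : Op p (Z × ℕ)) : Prop where
  compact : ∀ x y : Z, IsCompactOperator (block T x y : Op p ℕ)
  finite : ∀ B : Set Y, EBdd B →
    {q : Z × Z | (q.1 : Y) ∈ B ∧ (q.2 : Y) ∈ B ∧ block T q.1 q.2 ≠ 0}.Finite

/-- The propagation: the infimum of all `S > 0` such that `T(x, y) = 0` if `d(x, y) > S`. -/
def propM (T : Op p (Z × ℕ)) : ℝ≥0∞ :=
  ⨅ (S : ℝ≥0) (_ : 0 < S ∧ ∀ x y : Z, (S : ℝ≥0∞) < edist (x : Y) (y : Y) → block T x y = 0),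
    (S : ℝ≥0∞)

/-- An operator of propagation at most `r` has no entries between points of distance more than
`r`. -/
theorem edist_le_of_block {T : Op p (Z × ℕ)} {r : ℝ≥0∞} (hr : prop T ≤ r) {x y : Z}
    (h : block T x y ≠ 0) : edist (x : Y) (y : Y) ≤ r := by
  rw [Ne, block_eq_zero_iff] at h
  push Not at h
  obtain ⟨i, j, hij⟩ := h
  rw [edist_comm]
  exact (prop_le_iff T r).1 hr (x, i) (y, j) hij

theorem propM_eq_prop (T : Op p (Z × ℕ)) : propM T = prop T := by
  apply le_antisymm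
  · refine ENNReal.le_of_forall_pos_le_add fun ε hε hfin => ?_
    have h1 : ((((prop T).toNNReal + ε : ℝ≥0)) : ℝ≥0∞) = prop T + ε := by
      rw [ENNReal.coe_add, ENNReal.coe_toNNReal hfin.ne]
    rw [← h1]
    refine iInf₂_le_of_le ((prop T).toNNReal + ε) ⟨?_, ?_⟩ le_rfl
    · exact lt_of_lt_of_le hε le_add_self
    · intro x y hxy
      by_contra h2
      rw [h1] at hxy
      exact absurd ((edist_le_of_block le_rfl h2).trans le_self_add) (not_le.2 hxy)
  · refine le_iInf₂ fun S hS => ?_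
    rw [prop_le_iff]
    intro a b hab
    by_contra h2
    rw [not_le, edist_comm] at h2
    exact hab ((block_eq_zero_iff T a.1 b.1).1 (hS.2 a.1 b.1 h2) a.2 b.2)

/-- The operator with one entry `S` at the place `(x, y)`. -/
def unblk (x y : Z) (S : Op p ℕ) : Op p (Z × ℕ) :=
  (exz p (fib x)).comp (S.comp (res p (fib y)))

theorem ent_unblk_self (x y : Z) (S : Op p ℕ) (i j : ℕ) :
    ent (unblk x y S) (x, i) (y, j) = ent S i j := by
  unfold ent unblk
  have h1 : res p (fib y) (bas p (y, j)) = bas p j := res_bas (fib y) j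
  simp only [ContinuousLinearMap.comp_apply, h1]
  exact exz_apply (fib x) (S (bas p j)) i

theorem ent_unblk_ne (x y : Z) (S : Op p ℕ) {a b : Z × ℕ} (h : ¬ (a.1 = x ∧ b.1 = y)) :
    ent (unblk x y S) a b = 0 := by
  unfold ent unblk
  simp only [ContinuousLinearMap.comp_apply]
  by_cases h1 : b.1 = y
  · have h2 : ∀ i, fib x i ≠ a := fun i hi => h ⟨by rw [← hi]; rfl, h1⟩
    exact exz_apply_notMem (fib x) _ h2
  · have h2 : ∀ j, fib y j ≠ b := fun j hj => h1 (by rw [← hj]; rfl)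
    rw [res_bas_notMem (fib y) h2]
    simp

theorem isCompactOperator_unblk (x y : Z) {S : Op p ℕ} (hS : IsCompactOperator (S : Op p ℕ)) :
    IsCompactOperator (unblk x y S : Op p (Z × ℕ)) := by
  have h1 : IsCompactOperator (S ∘ (res p (fib y))) := hS.comp_clm (res p (fib y))
  exact h1.clm_comp (exz p (fib x))

theorem ent_finset_sum {ι' : Type*} (s : Finset ι') (f : ι' → Op p (Z × ℕ)) (a b : Z × ℕ) :
    ent (∑ i ∈ s, f i) a b = ∑ i ∈ s, ent (f i) a b := by
  classical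
  induction s using Finset.induction_on with
  | empty => simp
  | insert i s hi ih => rw [Finset.sum_insert hi, Finset.sum_insert hi, ent_add, ih]

theorem isCompactOperator_finset_sum {ι' : Type*} (s : Finset ι') (f : ι' → Op p (Z × ℕ))
    (h : ∀ i ∈ s, IsCompactOperator (f i : Op p (Z × ℕ))) :
    IsCompactOperator ((∑ i ∈ s, f i : Op p (Z × ℕ))) := by
  classical
  induction s using Finset.induction_on with
  | empty =>
    rw [Finset.sum_empty]
    exact isCompactOperator_zero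
  | insert i s hi ih =>
    rw [Finset.sum_insert hi]
    have h1 := h i (Finset.mem_insert_self i s)
    have h2 := ih fun j hj => h j (Finset.mem_insert_of_mem hj)
    exact h1.add h2

/-- An operator with finitely many nonzero entries, all compact, is compact. -/
theorem isCompactOperator_of_finite {T : Op p (Z × ℕ)}
    (hT : ∀ x y : Z, IsCompactOperator (block T x y : Op p ℕ))
    (hF : {q : Z × Z | block T q.1 q.2 ≠ 0}.Finite) : IsCompactOperator (T : Op p (Z × ℕ)) := by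
  classical
  have h1 : T = ∑ q ∈ hF.toFinset, unblk q.1 q.2 (block T q.1 q.2) := by
    apply op_ext
    rintro ⟨x, i⟩ ⟨y, j⟩
    rw [ent_finset_sum]
    by_cases h : block T x y = 0
    · rw [← ent_block, h, ent_zero]
      symm
      refine Finset.sum_eq_zero fun q hq => ?_
      apply ent_unblk_ne
      rintro ⟨h2, h3⟩
      have h4 : block T q.1 q.2 ≠ 0 := (hF.mem_toFinset.1 hq)
      apply h4
      simp only at h2 h3
      rw [← h2, ← h3, h]
    · rw [Finset.sum_eq_single (x, y)]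
      · rw [ent_unblk_self, ent_block]
      · intro q hq hne
        apply ent_unblk_ne
        rintro ⟨h2, h3⟩
        exact hne (Prod.ext h2.symm h3.symm)
      · intro h2
        exact absurd (hF.mem_toFinset.2 h) h2
  rw [h1]
  exact isCompactOperator_finset_sum _ _ fun q _ => isCompactOperator_unblk q.1 q.2 (hT q.1 q.2)

/-- Only finitely many entries of a locally compact operator of finite propagation have a row or a
column in a finite union of bounded sets. -/
theorem LocCptM.finite_near {T : Op p (Z × ℕ)} (h : LocCptM T) {r : ℝ≥0}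
    (hr : prop T ≤ (r : ℝ≥0∞)) {K : Set Y}
    (hK : ∃ F : Set (Set Y), F.Finite ∧ (∀ B ∈ F, EBdd B) ∧ K ⊆ ⋃₀ F) :
    {q : Z × Z | ((q.1 : Y) ∈ K ∨ (q.2 : Y) ∈ K) ∧ block T q.1 q.2 ≠ 0}.Finite := by
  obtain ⟨F, hF, hFb, hKF⟩ := hK
  have h1 : ∀ B ∈ F, {q : Z × Z | (q.1 : Y) ∈ {z : Y | ∃ b ∈ B, edist z b ≤ r} ∧
      (q.2 : Y) ∈ {z : Y | ∃ b ∈ B, edist z b ≤ r} ∧ block T q.1 q.2 ≠ 0}.Finite := by
    intro B hB
    apply h.finite
    obtain ⟨s, hs⟩ := hFb B hB
    refine ⟨r + s + r, ?_⟩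
    rintro x ⟨b, hb, hxb⟩ y ⟨c, hc, hyc⟩
    calc edist x y ≤ edist x b + edist b c + edist c y := edist_triangle4 _ _ _ _
      _ ≤ r + s + r := by
          rw [edist_comm c y]
          exact add_le_add (add_le_add hxb (hs b hb c hc)) hyc
      _ = ((r + s + r : ℝ≥0) : ℝ≥0∞) := by push_cast; rfl
  refine (hF.biUnion h1).subset ?_
  rintro ⟨x, y⟩ ⟨hxy, hne⟩
  have h2 : edist (x : Y) (y : Y) ≤ r := edist_le_of_block hr hne
  rcases hxy with hx | hy
  · obtain ⟨B, hB, hxB⟩ := hKF hx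
    refine Set.mem_iUnion₂.2 ⟨B, hB, ⟨x, hxB, ?_⟩, ⟨x, hxB, ?_⟩, hne⟩
    · rw [edist_self]; exact zero_le
    · rw [edist_comm]; exact h2
  · obtain ⟨B, hB, hyB⟩ := hKF hy
    refine Set.mem_iUnion₂.2 ⟨B, hB, ⟨y, hyB, h2⟩, ⟨y, hyB, ?_⟩, hne⟩
    rw [edist_self]; exact zero_le

theorem prop_toNNReal {T : Op p (Z × ℕ)} (hT : prop T ≠ ∞) :
    prop T ≤ ((prop T).toNNReal : ℝ≥0∞) := by
  rw [ENNReal.coe_toNNReal hT]

theorem block_chi_mul (T : Op p (Z × ℕ)) (K : Set Y) (x y : Z) [Decidable ((x : Y) ∈ K)] :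
    block (chi p Z K * T) x y = if (x : Y) ∈ K then block T x y else 0 := by
  classical
  apply op_ext
  intro i j
  rw [ent_block]
  unfold chi
  rw [ent_ind_mul]
  by_cases h : (x : Y) ∈ K
  · have h2 : ((x, i) : Z × ℕ) ∈ {a : Z × ℕ | (a.1 : Y) ∈ K} := h
    rw [if_pos h, if_pos h2, ent_block]
  · have h2 : ((x, i) : Z × ℕ) ∉ {a : Z × ℕ | (a.1 : Y) ∈ K} := h
    rw [if_neg h, if_neg h2, ent_zero]

theorem block_mul_chi (T : Op p (Z × ℕ)) (K : Set Y) (x y : Z) [Decidable ((y : Y) ∈ K)] :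
    block (T * chi p Z K) x y = if (y : Y) ∈ K then block T x y else 0 := by
  classical
  apply op_ext
  intro i j
  rw [ent_block]
  unfold chi
  rw [ent_mul_ind]
  by_cases h : (y : Y) ∈ K
  · have h2 : ((y, j) : Z × ℕ) ∈ {a : Z × ℕ | (a.1 : Y) ∈ K} := h
    rw [if_pos h, if_pos h2, ent_block]
  · have h2 : ((y, j) : Z × ℕ) ∉ {a : Z × ℕ | (a.1 : Y) ∈ K} := h
    rw [if_neg h, if_neg h2, ent_zero]

/-- Sketch: a compact set `K` is covered by finitely many balls of radius `1`; as `T` has finite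
propagation, only finitely many entries `T(x, y)` with `x ∈ K` (or `y ∈ K`) are not zero, so
`χ_K T` is a finite sum of compact operators. -/
theorem locCpt_of_locCptM {T : Op p (Z × ℕ)} (h : LocCptM T) (hT : prop T ≠ ∞) : LocCpt T := by
  classical
  intro K hK
  have h1 : ∃ F : Set (Set Y), F.Finite ∧ (∀ B ∈ F, EBdd B) ∧ K ⊆ ⋃₀ F := by
    obtain ⟨t, _, ht⟩ := hK.elim_nhds_subcover (fun x => Metric.eball x 1)
      (fun x _ => Metric.eball_mem_nhds x one_pos)
    refine ⟨(fun x => Metric.eball x 1) '' (t : Set Y), t.finite_toSet.image _, ?_, ?_⟩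
    · rintro _ ⟨x, _, rfl⟩
      refine ⟨2, fun a ha b hb => ?_⟩
      rw [Metric.mem_eball] at ha hb
      calc edist a b ≤ edist a x + edist x b := edist_triangle _ _ _
        _ ≤ 1 + 1 := by
            rw [edist_comm x b]
            exact add_le_add ha.le hb.le
        _ = ((2 : ℝ≥0) : ℝ≥0∞) := by
            rw [one_add_one_eq_two]
            rfl
    · intro z hz
      obtain ⟨x, hx, hzx⟩ := Set.mem_iUnion₂.1 (ht hz)
      exact ⟨_, ⟨x, hx, rfl⟩, hzx⟩
  have h2 := h.finite_near (prop_toNNReal hT) h1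
  constructor
  · apply isCompactOperator_of_finite
    · intro x y
      rw [block_chi_mul]
      split_ifs
      · exact h.compact x y
      · exact isCompactOperator_zero
    · refine h2.subset ?_
      rintro ⟨x, y⟩ hq
      simp only [Set.mem_ofPred_eq] at hq ⊢
      rw [block_chi_mul] at hq
      by_cases hx : (x : Y) ∈ K
      · rw [if_pos hx] at hq
        exact ⟨Or.inl hx, hq⟩
      · rw [if_neg hx] at hq
        exact absurd rfl hq
  · apply isCompactOperator_of_finite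
    · intro x y
      rw [block_mul_chi]
      split_ifs
      · exact h.compact x y
      · exact isCompactOperator_zero
    · refine h2.subset ?_
      rintro ⟨x, y⟩ hq
      simp only [Set.mem_ofPred_eq] at hq ⊢
      rw [block_mul_chi] at hq
      by_cases hy : (y : Y) ∈ K
      · rw [if_pos hy] at hq
        exact ⟨Or.inr hy, hq⟩
      · rw [if_neg hy] at hq
        exact absurd rfl hq

/-- The algebra of locally compact operators of finite propagation. -/
def roeAlgM (p : ℝ≥0∞) [Fact (1 ≤ p)] [Fact (p ≠ ∞)] (Z : Set Y) : Set (Op p (Z × ℕ)) :=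
  {T | LocCptM T ∧ propM T ≠ ∞}

theorem block_zero (x y : Z) : block (0 : Op p (Z × ℕ)) x y = 0 :=
  (block_eq_zero_iff _ _ _).2 fun _ _ => ent_zero _ _

theorem zero_mem_roeAlgM : (0 : Op p (Z × ℕ)) ∈ roeAlgM p Z := by
  refine ⟨⟨fun x y => ?_, fun B _ => ?_⟩, ?_⟩
  · rw [block_zero]
    exact isCompactOperator_zero
  · refine Set.finite_empty.subset ?_
    rintro ⟨x, y⟩ ⟨_, _, h⟩
    exact h (block_zero x y)
  · rw [propM_eq_prop, prop_zero]
    exact ENNReal.zero_ne_top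

/-- The `ℓ^p` Roe algebra `B^p(Y)`. -/
def roeM (p : ℝ≥0∞) [Fact (1 ≤ p)] [Fact (p ≠ ∞)] (Z : Set Y) : ZSet (Op p (Z × ℕ)) where
  s := closure (roeAlgM p Z)
  zero_mem := subset_closure zero_mem_roeAlgM

/-- The algebra of bounded and uniformly continuous maps `g : [0, ∞) → B^p(Y)` such that the
propagation of `g t` tends to `0` for `t → ∞`. -/
def locAlgM (p : ℝ≥0∞) [Fact (1 ≤ p)] [Fact (p ≠ ∞)] (Z : Set Y) :
    Set (ℝ≥0 →ᵇ Op p (Z × ℕ)) :=
  {g | UniformContinuous g ∧ (∀ t, g t ∈ (roeM p Z).s) ∧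
    Tendsto (fun t => propM (g t)) atTop (𝓝 0)}

theorem zero_mem_locAlgM : (0 : ℝ≥0 →ᵇ Op p (Z × ℕ)) ∈ locAlgM p Z :=
  ⟨uniformContinuous_const, fun _ => (roeM p Z).zero_mem, by
    simp [propM_eq_prop, prop_zero]⟩

/-- The `ℓ^p` localization algebra `B_L^p(Y)`. -/
def locM (p : ℝ≥0∞) [Fact (1 ≤ p)] [Fact (p ≠ ∞)] (Z : Set Y) :
    ZSet (ℝ≥0 →ᵇ Op p (Z × ℕ)) where
  s := closure (locAlgM p Z)
  zero_mem := subset_closure zero_mem_locAlgM

theorem mem_roeM_of_mem_locM {f : ℝ≥0 →ᵇ Op p (Z × ℕ)} (hf : f ∈ (locM p Z).s) (t : ℝ≥0) :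
    f t ∈ (roeM p Z).s := by
  have h1 : IsClosed {f : ℝ≥0 →ᵇ Op p (Z × ℕ) | f t ∈ (roeM p Z).s} :=
    IsClosed.preimage (continuous_eval_const t) isClosed_closure
  have h2 : closure (locAlgM p Z) ⊆ {f : ℝ≥0 →ᵇ Op p (Z × ℕ) | f t ∈ (roeM p Z).s} :=
    closure_minimal (fun g hg => hg.2.1 t) h1
  exact h2 hf

/-- Evaluation at `0` is a homomorphism `B_L^p(Y) → B^p(Y)`. -/
def evalZeroM (p : ℝ≥0∞) [Fact (1 ≤ p)] [Fact (p ≠ ∞)] (Z : Set Y) :
    CHom (locM p Z) (roeM p Z) where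
  f := fun f => f 0
  map_add := fun _ _ => rfl
  map_mul := fun _ _ => rfl
  cont := continuous_eval_const (0 : ℝ≥0)
  maps := fun f hf => mem_roeM_of_mem_locM hf 0

/-- The closure of the set of all bounded functions with values in the Roe algebra (of the other
definition) whose propagation tends to zero. -/
def locBig (p : ℝ≥0∞) [Fact (1 ≤ p)] [Fact (p ≠ ∞)] (Z : Set Y) :
    ZSet (ℝ≥0 →ᵇ Op p (Z × ℕ)) where
  s := closure {f | (∀ t, f t ∈ (roe p Z).s) ∧ Tendsto (fun t => prop (f t)) atTop (𝓝 0)}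
  zero_mem := subset_closure ⟨fun _ => (roe p Z).zero_mem, by simp [prop_zero]⟩

theorem loc_subset_locBig : (loc p Z).s ⊆ (locBig p Z).s :=
  closure_mono fun _ hf => ⟨hf.2.1, hf.2.2.2⟩

theorem roeAlgM_subset_roeAlg : roeAlgM p Z ⊆ roeAlg p Z := by
  rintro T ⟨h1, h2⟩
  rw [propM_eq_prop] at h2
  exact ⟨locCpt_of_locCptM h1 h2, h2⟩

theorem roeM_subset_roe : (roeM p Z).s ⊆ (roe p Z).s :=
  closure_mono roeAlgM_subset_roeAlg

theorem locM_subset_locBig : (locM p Z).s ⊆ (locBig p Z).s := by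
  refine closure_mono ?_
  rintro f ⟨_, h2, h3⟩
  refine ⟨fun t => roeM_subset_roe (h2 t), ?_⟩
  simpa only [propM_eq_prop] using h3

end Space

section Push

variable {Y Y' : Type} [PseudoEMetricSpace Y] [PseudoEMetricSpace Y'] {Z : Set Y} {Z' : Set Y'}

/-- `ι` is the injection `(x, i) ↦ (β x, i)` for an injective map `β : Y → Y'` with `β Z ⊆ Z'` which
does not increase distances, such that the preimage of a bounded set is contained in a finite union
of bounded sets. -/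
structure CoversM (β : Y → Y') (ι : Z × ℕ ↪ Z' × ℕ) : Prop where
  fst : ∀ a, ((ι a).1 : Y') = β a.1
  snd : ∀ a, (ι a).2 = a.2
  inj : Function.Injective β
  lip : ∀ x y, edist (β x) (β y) ≤ edist x y
  proper : ∀ B' : Set Y', EBdd B' → ∃ F : Set (Set Y), F.Finite ∧ (∀ B ∈ F, EBdd B) ∧
    β ⁻¹' B' ⊆ ⋃₀ F

theorem CoversM.prop_le {β : Y → Y'} {ι : Z × ℕ ↪ Z' × ℕ} (h : CoversM β ι) (T : Op p (Z × ℕ)) :
    prop (push ι T) ≤ prop T := by
  rw [prop_le_iff]
  intro a b hab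
  by_cases ha : ∃ i, ι i = a
  · obtain ⟨i, rfl⟩ := ha
    by_cases hb : ∃ j, ι j = b
    · obtain ⟨j, rfl⟩ := hb
      rw [ent_push] at hab
      rw [h.fst, h.fst]
      exact (h.lip _ _).trans ((prop_le_iff T _).1 le_rfl i j hab)
    · push Not at hb
      exact absurd (ent_push_right ι _ _ hb) hab
  · push Not at ha
    exact absurd (ent_push_left ι _ ha _) hab

theorem CoversM.eq_mk {β : Y → Y'} {ι : Z × ℕ ↪ Z' × ℕ} (h : CoversM β ι) (x : Z) (i : ℕ) :
    ι (x, i) = ((ι (x, 0)).1, i) := by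
  apply Prod.ext
  · apply Subtype.ext
    rw [h.fst (x, i), h.fst (x, 0)]
  · exact h.snd (x, i)

theorem CoversM.block_push {β : Y → Y'} {ι : Z × ℕ ↪ Z' × ℕ} (h : CoversM β ι)
    (T : Op p (Z × ℕ)) (x y : Z) :
    block (push ι T) (ι (x, 0)).1 (ι (y, 0)).1 = block T x y := by
  apply op_ext
  intro i j
  rw [ent_block, ent_block, ← h.eq_mk x i, ← h.eq_mk y j, ent_push]

theorem CoversM.block_push_ne {β : Y → Y'} {ι : Z × ℕ ↪ Z' × ℕ} (h : CoversM β ι)
    (T : Op p (Z × ℕ)) {x' y' : Z'} (hne : block (push ι T) x' y' ≠ 0) :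
    ∃ x y : Z, x' = (ι (x, 0)).1 ∧ y' = (ι (y, 0)).1 := by
  rw [Ne, block_eq_zero_iff] at hne
  push Not at hne
  obtain ⟨i, j, hij⟩ := hne
  have hx : ∃ c, ι c = (x', i) := by
    by_contra h2
    push Not at h2
    exact hij (ent_push_left ι _ h2 _)
  have hy : ∃ c, ι c = (y', j) := by
    by_contra h2
    push Not at h2
    exact hij (ent_push_right ι _ _ h2)
  obtain ⟨⟨x, k⟩, hx⟩ := hx
  obtain ⟨⟨y, l⟩, hy⟩ := hy
  refine ⟨x, y, ?_, ?_⟩
  · rw [h.eq_mk x k] at hx
    exact (Prod.mk.inj hx).1.symm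
  · rw [h.eq_mk y l] at hy
    exact (Prod.mk.inj hy).1.symm

theorem CoversM.mem_roeAlgM {β : Y → Y'} {ι : Z × ℕ ↪ Z' × ℕ} (h : CoversM β ι)
    {T : Op p (Z × ℕ)} (hT : T ∈ roeAlgM p Z) : push ι T ∈ roeAlgM p Z' := by
  obtain ⟨h1, h2⟩ := hT
  rw [propM_eq_prop] at h2
  refine ⟨⟨fun x' y' => ?_, fun B' hB' => ?_⟩, ?_⟩
  · by_cases h3 : block (push ι T) x' y' = 0
    · rw [h3]
      exact isCompactOperator_zero
    · obtain ⟨x, y, rfl, rfl⟩ := h.block_push_ne T h3
      rw [h.block_push]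
      exact h1.compact x y
  · have h3 := h1.finite_near (prop_toNNReal h2) (h.proper B' hB')
    refine (h3.image fun q : Z × Z => ((ι (q.1, 0)).1, (ι (q.2, 0)).1)).subset ?_
    rintro ⟨x', y'⟩ ⟨hx', hy', hne⟩
    obtain ⟨x, y, hx, hy⟩ := h.block_push_ne T hne
    simp only at hx hy hx' hy' hne
    subst hx
    subst hy
    refine ⟨(x, y), ⟨Or.inl ?_, ?_⟩, rfl⟩
    · change β x ∈ B'
      rw [h.fst] at hx'
      exact hx'
    · rw [h.block_push] at hne
      exact hne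
  · rw [propM_eq_prop]
    exact ne_top_of_le_ne_top h2 (h.prop_le T)

/-- Sketch: an operator of propagation `≤ r` has `T(x, y) ≠ 0`, `x, y ∈ β⁻¹ B' ⊆ B₁ ∪ … ∪ B_m` only if
`x, y` are both in the bounded set of the points of distance at most `r` from some `B_i`. -/
theorem CoversM.mem_roeM {β : Y → Y'} {ι : Z × ℕ ↪ Z' × ℕ} (h : CoversM β ι) {T : Op p (Z × ℕ)}
    (hT : T ∈ (roeM p Z).s) : push ι T ∈ (roeM p Z').s := by
  have h1 : Set.MapsTo (pushL p ι) (roeAlgM p Z) (roeAlgM p Z') := fun S hS => h.mem_roeAlgM hS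
  exact map_mem_closure (pushL p ι).continuous hT h1

/-- The homomorphism `B^p(Y) → B^p(Y')`, `T ↦ V T V⁺`. -/
def CoversM.onRoe {β : Y → Y'} {ι : Z × ℕ ↪ Z' × ℕ} (h : CoversM β ι) (p : ℝ≥0∞)
    [Fact (1 ≤ p)] [Fact (p ≠ ∞)] : CHom (roeM p Z) (roeM p Z') where
  f := push ι
  map_add := push_add ι
  map_mul := push_mul ι
  cont := (pushL p ι).continuous
  maps := fun _ hT => h.mem_roeM hT

theorem CoversM.mem_locM {β : Y → Y'} {ι : Z × ℕ ↪ Z' × ℕ} (h : CoversM β ι)
    {f : ℝ≥0 →ᵇ Op p (Z × ℕ)} (hf : f ∈ (locM p Z).s) : pushPath ι f ∈ (locM p Z').s := by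
  have h1 : Set.MapsTo ((pushL p ι).compLeftContinuousBounded ℝ≥0) (locAlgM p Z)
      (locAlgM p Z') := by
    rintro g ⟨hg1, hg2, hg3⟩
    refine ⟨(pushL p ι).uniformContinuous.comp hg1, fun t => h.mem_roeM (hg2 t), ?_⟩
    simp only [propM_eq_prop] at hg3 ⊢
    exact tendsto_of_tendsto_of_tendsto_of_le_of_le tendsto_const_nhds hg3
      (fun _ => zero_le) (fun t => h.prop_le (g t))
  exact map_mem_closure ((pushL p ι).compLeftContinuousBounded ℝ≥0).continuous hf h1

/-- The homomorphism `B_L^p(Y) → B_L^p(Y')`, `f ↦ V f V⁺`. -/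
def CoversM.onLoc {β : Y → Y'} {ι : Z × ℕ ↪ Z' × ℕ} (h : CoversM β ι) (p : ℝ≥0∞)
    [Fact (1 ≤ p)] [Fact (p ≠ ∞)] : CHom (locM p Z) (locM p Z') where
  f := pushPath ι
  map_add := fun f g => by ext1 t; simp [push_add]
  map_mul := fun f g => by ext1 t; simp [push_mul]
  cont := ((pushL p ι).compLeftContinuousBounded ℝ≥0).continuous
  maps := fun _ hf => h.mem_locM hf

end Push

end

end Pool.Agent.H368.NV
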