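import Pool.Agent.H368.NV.LocClass
import Pool.Agent.H368.NV.RoeM

/-!
# Membership in the algebras of `RoeM.lean`

PROOF SKETCH of `Loops.mem_locM`: as `Loops.mem_loc` (LocClass.lean), see `Loops.locCpt`, `Loops.mem_locAlg`,
`finite_dy`; for `k ≤ t ≤ k + 1` the operator `push L.c (W t)` (`W = dyU` or `dyV`) has for every bounded `B` only finitely
many nonzero matrix entries with first (or second) index over `B`: the indices `c (n, s)` with `n` in the finite set of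
`hb` and `IsDy (k + 1) s`. So it satisfies `LocCptM` (blocks have only finitely many nonzero entries, singletons are
bounded). Use `propM_eq_prop`.

PROOF SKETCH of `push_fpc_mem_roe(M)`: by continuity it suffices to treat `T` with `ent T a b ≠ 0 → Wk G r (pr a) (pr b)`. If
`Wk G r x y` then the vertices `vert (ν x)`, `vert (ν y)` have distance `≤ 2 r` (chain of `r` edges or less; decompose the
walk). So `push ι T` has propagation `≤ 2 r`. A compact (or bounded) subset of the realization has finitely many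
vertices, so it contains finitely many points `vert (ν x)`, so finitely many points `(ι a).1` by `hfin` and
finiteness of the fibres of `pr`.
-/

set_option autoImplicit false
set_option linter.unusedVariables false

namespace Pool.Agent.H368.NV

open scoped ENNReal NNReal Topology BoundedContinuousFunction
open Filter

noncomputable section

variable {p : ℝ≥0∞} [hp1 : Fact (1 ≤ p)] [hpt : Fact (p ≠ ∞)]

variable {Y : Type} [PseudoEMetricSpace Y] {Z : Set Y} {N : ℕ → ℕ}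

/-- The finite set of the indices over a bounded set. -/
theorem Loops.finite_rows (L : Loops Z N) (hb : ∀ B : Set Y, EBdd B → {n | ∃ t, L.q n t ∈ B}.Finite)
    {B : Set Y} (hB : EBdd B) (k : ℕ) :
    (L.c '' {a : Dy N | a.1 ∈ {n | ∃ t, L.q n t ∈ B} ∧ IsDy k a.2}).Finite :=
  (finite_dy N (hb B hB) k).image _

theorem Loops.mem_rows (L : Loops Z N) {W : ℝ≥0 →ᵇ Op p (Dy N)} (hW : EntCond p N W) {k : ℕ}
    {t : ℝ≥0} (h1 : (k : ℝ≥0) ≤ t) (h2 : t ≤ k + 1) {B : Set Y} {a b : Z × ℕ}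
    (h : ent (push L.c (W t)) a b ≠ 0) :
    ((a.1 : Y) ∈ B → a ∈ L.c '' {a : Dy N | a.1 ∈ {n | ∃ t, L.q n t ∈ B} ∧ IsDy (k + 1) a.2}) ∧
    ((b.1 : Y) ∈ B →
      b ∈ L.c '' {a : Dy N | a.1 ∈ {n | ∃ t, L.q n t ∈ B} ∧ IsDy (k + 1) a.2}) := by
  obtain ⟨a', b', rfl, rfl, h3⟩ := exists_of_ent_push L.c _ h
  obtain ⟨-, h4, h5, -⟩ := hW k t h1 h2 a' b' h3
  constructor
  · intro ha
    rw [L.c_fst] at ha
    exact ⟨a', ⟨⟨_, ha⟩, h4⟩, rfl⟩
  · intro hb
    rw [L.c_fst] at hb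
    exact ⟨b', ⟨⟨_, hb⟩, h5⟩, rfl⟩

theorem Loops.locCptM (L : Loops Z N) (hb : ∀ B : Set Y, EBdd B → {n | ∃ t, L.q n t ∈ B}.Finite)
    {W : ℝ≥0 →ᵇ Op p (Dy N)} (hW : EntCond p N W) {k : ℕ}
    {t : ℝ≥0} (h1 : (k : ℝ≥0) ≤ t) (h2 : t ≤ k + 1) : LocCptM (push L.c (W t)) := by
  classical
  refine ⟨fun x y => ?_, fun B hB => ?_⟩
  · have hx : EBdd ({(x : Y)} : Set Y) := by
      refine ⟨0, ?_⟩
      rintro u hu v hv
      rw [Set.mem_singleton_iff] at hu hv
      rw [hu, hv, edist_self]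
      exact zero_le
    have hf := L.finite_rows hb hx (k + 1)
    have hf' := hf.preimage (fib x).injective.injOn
    have h3 : block (push L.c (W t)) x y = ind p (fib x ⁻¹' (L.c '' {a : Dy N |
        a.1 ∈ {n | ∃ t, L.q n t ∈ ({(x : Y)} : Set Y)} ∧ IsDy (k + 1) a.2})) *
        block (push L.c (W t)) x y := by
      apply op_ext
      intro i j
      rw [ent_ind_mul, ent_block]
      by_cases ha : i ∈ fib x ⁻¹' (L.c '' {a : Dy N |
        a.1 ∈ {n | ∃ t, L.q n t ∈ ({(x : Y)} : Set Y)} ∧ IsDy (k + 1) a.2})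
      · rw [if_pos ha]
      · rw [if_neg ha]
        by_contra h4
        exact ha ((L.mem_rows hW h1 h2 h4).1 rfl)
    rw [h3]
    exact (isCompactOperator_ind_mul _ hf' _).1
  · have hf := L.finite_rows hb hB (k + 1)
    refine ((hf.image Prod.fst).prod (hf.image Prod.fst)).subset ?_
    rintro ⟨x, y⟩ ⟨hx, hy, hne⟩
    rw [Ne, block_eq_zero_iff] at hne
    push Not at hne
    obtain ⟨i, j, hij⟩ := hne
    exact ⟨⟨_, (L.mem_rows hW h1 h2 hij).1 hx, rfl⟩, ⟨_, (L.mem_rows hW h1 h2 hij).2 hy, rfl⟩⟩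

theorem Loops.mem_locAlgM (L : Loops Z N)
    (hb : ∀ B : Set Y, EBdd B → {n | ∃ t, L.q n t ∈ B}.Finite)
    {W : ℝ≥0 →ᵇ Op p (Dy N)} (hu : UniformContinuous W)
    (hW : EntCond p N W) : pushB L.c W ∈ locAlgM p Z := by
  have hfl : ∀ t : ℝ≥0, ((⌊t⌋₊ : ℕ) : ℝ≥0) ≤ t ∧ t ≤ (⌊t⌋₊ : ℕ) + 1 := fun t =>
    ⟨Nat.floor_le (zero_le), (Nat.lt_floor_add_one t).le⟩
  obtain ⟨g1, g2, g3, g4⟩ := L.mem_locAlg hu hW
  refine ⟨g1, ?_, ?_⟩
  · intro t
    apply subset_closure
    refine ⟨?_, ?_⟩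
    · rw [pushB_apply]
      exact L.locCptM hb hW (hfl t).1 (hfl t).2
    · rw [propM_eq_prop, pushB_apply]
      exact ((L.prop_le hW (hfl t).1 (hfl t).2).trans_lt ENNReal.ofReal_lt_top).ne
  · simp only [propM_eq_prop]
    exact g4

theorem Loops.mem_locM (L : Loops Z N) (hN : ∀ n, 1 ≤ N n)
    (hb : ∀ B : Set Y, EBdd B → {n | ∃ t, L.q n t ∈ B}.Finite) :
    L.x p hN ∈ (locM p Z).s ∧ pushB L.c (dyV p N hN) ∈ (locM p Z).s :=
  ⟨subset_closure (L.mem_locAlgM hb (dyUV_spec p N hN).1 (entCond_dyU N hN)),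
    subset_closure (L.mem_locAlgM hb (dyUV_spec p N hN).2.1 (entCond_dyV N hN))⟩

end

end Pool.Agent.H368.NV
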