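import Mathlib

/-!
# The set `K₁(A)` of a closed subalgebra `A` of a Banach algebra, and sequential direct limits

`K₁(A)` is the set of homotopy classes of invertible matrices `1 + a` with `a` and
`(1 + a)⁻¹ - 1` having entries in `A`.
-/

set_option autoImplicit false

namespace Pool.Agent.H368.NV

open scoped Topology

noncomputable section

universe u v w

variable {R : Type u} [Ring R] [TopologicalSpace R]

/-- `a` is quasi-invertible over `A`: `1 + a` is invertible, with inverse `1 + b`, and the entries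
of `a` and of `b` are in `A`. -/
def QInv (A : Set R) {m : ℕ} (a : Matrix (Fin m) (Fin m) R) : Prop :=
  (∀ i j, a i j ∈ A) ∧ ∃ b : Matrix (Fin m) (Fin m) R, (∀ i j, b i j ∈ A) ∧
    (1 + a) * (1 + b) = 1 ∧ (1 + b) * (1 + a) = 1

/-- The matrix `a` in the upper left corner of a matrix of size `M`, the other entries being
zero. -/
def pad {m : ℕ} (M : ℕ) (a : Matrix (Fin m) (Fin m) R) : Matrix (Fin M) (Fin M) R :=
  fun i j => if h : i.1 < m ∧ j.1 < m then a ⟨i, h.1⟩ ⟨j, h.2⟩ else 0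

/-- A matrix over `A`, of any finite size, which is quasi-invertible over `A`. -/
structure QMat (A : Set R) where
  /-- the size -/
  m : ℕ
  /-- the matrix -/
  a : Matrix (Fin m) (Fin m) R
  q : QInv A a

/-- Homotopy of quasi-invertible matrices, after adding zeros. -/
def QMat.Rel {A : Set R} (x y : QMat A) : Prop :=
  ∃ M, x.m ≤ M ∧ y.m ≤ M ∧
    JoinedIn {c : Matrix (Fin M) (Fin M) R | QInv A c} (pad M x.a) (pad M y.a)

omit [TopologicalSpace R] in
theorem pad_self {m : ℕ} (a : Matrix (Fin m) (Fin m) R) : pad m a = a := by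
  ext i j
  simp [pad]

omit [TopologicalSpace R] in
theorem pad_pad {m M M' : ℕ} (h : m ≤ M) (a : Matrix (Fin m) (Fin m) R) :
    pad M' (pad M a) = pad M' a := by
  ext i j
  unfold pad
  by_cases h1 : i.1 < m ∧ j.1 < m
  · have h2 : i.1 < M ∧ j.1 < M := ⟨by omega, by omega⟩
    simp [h1, h2]
  · by_cases h2 : i.1 < M ∧ j.1 < M
    · simp [h1, h2]
    · simp [h1, h2]

theorem continuous_pad {m : ℕ} (M : ℕ) :
    Continuous (pad M : Matrix (Fin m) (Fin m) R → Matrix (Fin M) (Fin M) R) := by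
  apply continuous_matrix
  intro i j
  unfold pad
  by_cases h : i.1 < m ∧ j.1 < m
  · simp only [h, and_self, dite_true]
    exact continuous_id.matrix_elem _ _
  · simp only [h, dite_false]
    exact continuous_const

omit [TopologicalSpace R] in
theorem pad_mul {m M : ℕ} (h : m ≤ M) (a b : Matrix (Fin m) (Fin m) R) :
    pad M (a * b) = pad M a * pad M b := by
  ext i j
  rw [Matrix.mul_apply]
  by_cases h1 : i.1 < m ∧ j.1 < m
  · have h2 : ∑ k : Fin M, pad M a i k * pad M b k j =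
        ∑ k : Fin m, a ⟨i, h1.1⟩ k * b k ⟨j, h1.2⟩ := by
      symm
      refine Finset.sum_of_injOn (Fin.castLE h) (Fin.castLE_injective h).injOn
        (fun _ _ => Finset.mem_coe.2 (Finset.mem_univ _)) ?_ ?_
      · intro k _ hk
        have h3 : ¬ k.1 < m := by
          intro h4
          apply hk
          simp only [Finset.coe_univ, Set.image_univ, Set.mem_range]
          exact ⟨⟨k.1, h4⟩, rfl⟩
        simp [pad, h3]
      · intro k _
        simp [pad, h1.1, h1.2]
    rw [h2]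
    simp [pad, h1, Matrix.mul_apply]
  · symm
    have h2 : pad M (a * b) i j = 0 := by simp [pad, h1]
    rw [h2]
    apply Finset.sum_eq_zero
    intro k _
    by_cases h3 : i.1 < m
    · have h4 : ¬ j.1 < m := fun h4 => h1 ⟨h3, h4⟩
      simp [pad, h4]
    · simp [pad, h3]

omit [TopologicalSpace R] in
theorem pad_add {m M : ℕ} (a b : Matrix (Fin m) (Fin m) R) :
    pad M (a + b) = pad M a + pad M b := by
  ext i j
  unfold pad
  by_cases h : i.1 < m ∧ j.1 < m
  · simp [h]
  · simp [h]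

omit [TopologicalSpace R] in
theorem qinv_iff {A : Set R} {m : ℕ} (a : Matrix (Fin m) (Fin m) R) :
    QInv A a ↔ (∀ i j, a i j ∈ A) ∧ ∃ b : Matrix (Fin m) (Fin m) R, (∀ i j, b i j ∈ A) ∧
      a + b + a * b = 0 ∧ a + b + b * a = 0 := by
  have h1 : ∀ x y : Matrix (Fin m) (Fin m) R, (1 + x) * (1 + y) = 1 + (x + y + x * y) := by
    intro x y; noncomm_ring
  constructor
  · rintro ⟨h, b, hb, h2, h3⟩
    refine ⟨h, b, hb, ?_, ?_⟩
    · rw [h1] at h2; simpa using h2
    · rw [h1] at h3; rw [add_comm b a] at h3; simpa using h3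
  · rintro ⟨h, b, hb, h2, h3⟩
    refine ⟨h, b, hb, ?_, ?_⟩
    · rw [h1, h2]; simp
    · rw [h1, add_comm b a, h3]; simp

omit [TopologicalSpace R] in
theorem QInv.pad {A : Set R} (h0 : (0 : R) ∈ A) {m M : ℕ} (h : m ≤ M)
    {a : Matrix (Fin m) (Fin m) R} (ha : QInv A a) : QInv A (pad M a) := by
  rw [qinv_iff] at ha ⊢
  obtain ⟨h1, b, h2, h3, h4⟩ := ha
  have h5 : ∀ x : Matrix (Fin m) (Fin m) R, (∀ i j, x i j ∈ A) → ∀ i j, NV.pad M x i j ∈ A := by
    intro x hx i j
    unfold NV.pad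
    by_cases h : i.1 < m ∧ j.1 < m
    · simp only [h, and_self, dite_true]; exact hx _ _
    · simp only [h, dite_false]; exact h0
  refine ⟨h5 a h1, NV.pad M b, h5 b h2, ?_, ?_⟩
  · rw [← pad_mul h, ← pad_add, ← pad_add, h3]
    ext i j; simp [NV.pad]
  · rw [← pad_mul h, ← pad_add, ← pad_add, h4]
    ext i j; simp [NV.pad]

theorem joinedIn_map {S : Type*} {T : Type*} [TopologicalSpace S] [TopologicalSpace T] {f : S → T}
    (hf : Continuous f) {F : Set S} {G : Set T} (h : Set.MapsTo f F G) {x y : S}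
    (hxy : JoinedIn F x y) : JoinedIn G (f x) (f y) := by
  obtain ⟨γ, hγ⟩ := hxy
  exact ⟨γ.map hf, fun t => h (hγ t)⟩

theorem QMat.Rel.refl {A : Set R} (x : QMat A) : QMat.Rel x x := by
  refine ⟨x.m, le_rfl, le_rfl, ?_⟩
  rw [pad_self]
  exact JoinedIn.refl x.q

theorem QMat.Rel.symm {A : Set R} {x y : QMat A} (h : QMat.Rel x y) : QMat.Rel y x := by
  obtain ⟨M, h1, h2, h3⟩ := h
  exact ⟨M, h2, h1, h3.symm⟩

theorem QMat.Rel.trans {A : Set R} (h0 : (0 : R) ∈ A) {x y z : QMat A} (h : QMat.Rel x y)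
    (h' : QMat.Rel y z) : QMat.Rel x z := by
  obtain ⟨M, h1, h2, h3⟩ := h
  obtain ⟨N, h1', h2', h3'⟩ := h'
  refine ⟨max M N, h1.trans (le_max_left _ _), h2'.trans (le_max_right _ _), ?_⟩
  have h4 := joinedIn_map (continuous_pad (max M N))
    (G := {c : Matrix (Fin (max M N)) (Fin (max M N)) R | QInv A c})
    (fun c hc => QInv.pad h0 (le_max_left _ _) hc) h3
  have h5 := joinedIn_map (continuous_pad (max M N))
    (G := {c : Matrix (Fin (max M N)) (Fin (max M N)) R | QInv A c})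
    (fun c hc => QInv.pad h0 (le_max_right _ _) hc) h3'
  rw [pad_pad h1, pad_pad h2] at h4
  rw [pad_pad h1', pad_pad h2'] at h5
  exact h4.trans h5

/-- A set containing zero, such as a subalgebra. -/
structure ZSet (R : Type u) [Ring R] where
  /-- the set -/
  s : Set R
  zero_mem : (0 : R) ∈ s

/-- Homotopy of quasi-invertible matrices is an equivalence relation. -/
def qSetoid (A : ZSet R) : Setoid (QMat A.s) where
  r := QMat.Rel
  iseqv := ⟨QMat.Rel.refl, QMat.Rel.symm, QMat.Rel.trans A.zero_mem⟩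

/-- The set `K₁(A)`. -/
def K1 (A : ZSet R) : Type u := Quotient (qSetoid A)

/-- The class in `K₁(A)` of a quasi-invertible matrix. -/
def K1.mk (A : ZSet R) (x : QMat A.s) : K1 A := Quotient.mk (qSetoid A) x

theorem K1.mk_eq {A : ZSet R} {x y : QMat A.s} : K1.mk A x = K1.mk A y ↔ QMat.Rel x y :=
  ⟨fun h => Quotient.exact h, fun h => Quotient.sound h⟩

theorem zero_qinv (A : ZSet R) (m : ℕ) : QInv A.s (0 : Matrix (Fin m) (Fin m) R) :=
  ⟨fun _ _ => A.zero_mem, 0, fun _ _ => A.zero_mem, by simp, by simp⟩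

/-- The zero of `K₁(A)`: the class of the invertible matrix `1`. -/
def K1.zero (A : ZSet R) : K1 A := K1.mk A ⟨0, 0, zero_qinv A 0⟩

theorem K1.mk_eq_zero {A : ZSet R} {x : QMat A.s} : K1.mk A x = K1.zero A ↔
    ∃ M, x.m ≤ M ∧ JoinedIn {c : Matrix (Fin M) (Fin M) R | QInv A.s c} (pad M x.a) 0 := by
  unfold K1.zero
  rw [K1.mk_eq]
  have h : ∀ M, pad M (0 : Matrix (Fin 0) (Fin 0) R) = 0 := by
    intro M; ext i j; simp [pad]
  constructor
  · rintro ⟨M, h1, h2, h3⟩
    refine ⟨M, h1, ?_⟩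
    have := h3
    rwa [h] at this
  · rintro ⟨M, h1, h3⟩
    refine ⟨M, h1, Nat.zero_le _, ?_⟩
    rw [h]
    exact h3

variable {R' : Type v} [Ring R'] [TopologicalSpace R']
variable {R'' : Type w} [Ring R''] [TopologicalSpace R'']
variable {Q : Type*} [Ring Q] [TopologicalSpace Q]

/-- A continuous homomorphism from `A` to `A'` (which need not preserve `1`): a map of the ambient
rings which is additive, multiplicative, continuous and maps `A` to `A'`. -/
structure CHom (A : ZSet R) (A' : ZSet R') where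
  /-- the map -/
  f : R → R'
  map_add : ∀ x y, f (x + y) = f x + f y
  map_mul : ∀ x y, f (x * y) = f x * f y
  cont : Continuous f
  maps : ∀ x ∈ A.s, f x ∈ A'.s

theorem CHom.map_zero {A : ZSet R} {A' : ZSet R'} (φ : CHom A A') : φ.f 0 = 0 := by
  have := φ.map_add 0 0
  simpa using this

theorem CHom.qinv {A : ZSet R} {A' : ZSet R'} (φ : CHom A A') {m : ℕ}
    {a : Matrix (Fin m) (Fin m) R} (ha : QInv A.s a) : QInv A'.s (a.map φ.f) := by
  rw [qinv_iff] at ha ⊢
  obtain ⟨h1, b, h2, h3, h4⟩ := ha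
  have hm : ∀ x y : Matrix (Fin m) (Fin m) R, (x * y).map φ.f = x.map φ.f * y.map φ.f := by
    intro x y
    ext i j
    let g : R →+ R' := { toFun := φ.f, map_zero' := φ.map_zero, map_add' := φ.map_add }
    have h5 : ∀ r, φ.f r = g r := fun _ => rfl
    simp only [Matrix.map_apply, Matrix.mul_apply]
    rw [h5, map_sum]
    apply Finset.sum_congr rfl
    intro k _
    exact φ.map_mul _ _
  have ha : ∀ x y : Matrix (Fin m) (Fin m) R, (x + y).map φ.f = x.map φ.f + y.map φ.f := by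
    intro x y
    ext i j
    simp [φ.map_add]
  have hz : (0 : Matrix (Fin m) (Fin m) R).map φ.f = 0 := by
    ext i j
    simp [φ.map_zero]
  refine ⟨fun i j => φ.maps _ (h1 i j), b.map φ.f, fun i j => φ.maps _ (h2 i j), ?_, ?_⟩
  · rw [← hm, ← ha, ← ha, h3, hz]
  · rw [← hm, ← ha, ← ha, h4, hz]

theorem CHom.map_pad {A : ZSet R} {A' : ZSet R'} (φ : CHom A A') {m : ℕ} (M : ℕ)
    (a : Matrix (Fin m) (Fin m) R) : (NV.pad M a).map φ.f = NV.pad M (a.map φ.f) := by
  ext i j
  unfold NV.pad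
  by_cases h : i.1 < m ∧ j.1 < m
  · simp [h]
  · simp [h, φ.map_zero]

/-- The image of a quasi-invertible matrix under a homomorphism. -/
def CHom.onQ {A : ZSet R} {A' : ZSet R'} (φ : CHom A A') (x : QMat A.s) : QMat A'.s :=
  ⟨x.m, x.a.map φ.f, φ.qinv x.q⟩

theorem CHom.rel {A : ZSet R} {A' : ZSet R'} (φ : CHom A A') {x y : QMat A.s}
    (h : QMat.Rel x y) : QMat.Rel (φ.onQ x) (φ.onQ y) := by
  obtain ⟨M, h1, h2, h3⟩ := h
  refine ⟨M, h1, h2, ?_⟩
  have h4 : Continuous (fun c : Matrix (Fin M) (Fin M) R => c.map φ.f) :=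
    continuous_matrix fun i j => φ.cont.comp (continuous_id.matrix_elem i j)
  have h5 := joinedIn_map h4 (G := {c : Matrix (Fin M) (Fin M) R' | QInv A'.s c})
    (fun c hc => φ.qinv hc) h3
  rw [φ.map_pad, φ.map_pad] at h5
  exact h5

/-- The map `K₁(A) → K₁(A')` induced by a homomorphism. -/
def K1.map {A : ZSet R} {A' : ZSet R'} (φ : CHom A A') : K1 A → K1 A' :=
  Quotient.map φ.onQ fun _ _ h => φ.rel h

theorem K1.map_mk {A : ZSet R} {A' : ZSet R'} (φ : CHom A A') (x : QMat A.s) :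
    K1.map φ (K1.mk A x) = K1.mk A' (φ.onQ x) := rfl

theorem K1.map_zero {A : ZSet R} {A' : ZSet R'} (φ : CHom A A') :
    K1.map φ (K1.zero A) = K1.zero A' := by
  unfold K1.zero
  rw [K1.map_mk]
  congr 1
  unfold CHom.onQ
  congr 1
  ext i j
  exact i.elim0

theorem K1.map_eq_of_comp {A : ZSet R} {A' : ZSet R'} {A'' : ZSet R''} {B : ZSet Q}
    (φ : CHom A A') (ψ : CHom A' A'') (φ' : CHom A B) (ψ' : CHom B A'')
    (h : ∀ x, ψ.f (φ.f x) = ψ'.f (φ'.f x)) (x : K1 A) :
    K1.map ψ (K1.map φ x) = K1.map ψ' (K1.map φ' x) := by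
  obtain ⟨x, rfl⟩ := Quotient.exists_rep x
  change K1.mk A'' (ψ.onQ (φ.onQ x)) = K1.mk A'' (ψ'.onQ (φ'.onQ x))
  congr 1
  unfold CHom.onQ
  congr 1
  ext i j
  exact h _

end

/-! ### Sequential direct limits of sets -/

section Lim

universe u' v'

/-- The direct limit of a sequence of sets `G 0 → G 1 → ⋯`: the quotient of the disjoint union by
the equivalence relation generated by `x ~ f x`. -/
def Lim (G : ℕ → Type u') (f : ∀ k, G k → G (k + 1)) : Type u' :=
  Quot fun x y : Σ k, G k => y = ⟨x.1 + 1, f x.1 x.2⟩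

/-- The canonical map to the direct limit. -/
def Lim.of {G : ℕ → Type u'} (f : ∀ k, G k → G (k + 1)) (k : ℕ) (x : G k) : Lim G f :=
  Quot.mk _ ⟨k, x⟩

/-- The map of direct limits induced by maps `h k : G k → H k` with `h (k + 1) ∘ f k = g k ∘ h k`. -/
def Lim.map {G : ℕ → Type u'} {H : ℕ → Type v'} (f : ∀ k, G k → G (k + 1))
    (g : ∀ k, H k → H (k + 1)) (h : ∀ k, G k → H k)
    (hc : ∀ k x, h (k + 1) (f k x) = g k (h k x)) : Lim G f → Lim H g :=
  Quot.map (fun x => ⟨x.1, h x.1 x.2⟩) fun x y hxy => by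
    subst hxy
    simp [hc]

theorem Lim.map_of {G : ℕ → Type u'} {H : ℕ → Type v'} (f : ∀ k, G k → G (k + 1))
    (g : ∀ k, H k → H (k + 1)) (h : ∀ k, G k → H k)
    (hc : ∀ k x, h (k + 1) (f k x) = g k (h k x)) (k : ℕ) (x : G k) :
    Lim.map f g h hc (Lim.of f k x) = Lim.of g k (h k x) := rfl

/-- The shift map on the disjoint union. -/
def Lim.next {G : ℕ → Type u'} (f : ∀ k, G k → G (k + 1)) (x : Σ k, G k) : Σ k, G k :=
  ⟨x.1 + 1, f x.1 x.2⟩

/-- If `z k` is a sequence of base points preserved by the maps, then an element of the limit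
equal to the base point is equal to it at a later stage. -/
theorem Lim.of_eq_base {G : ℕ → Type u'} (f : ∀ k, G k → G (k + 1)) (z : ∀ k, G k)
    (hz : ∀ k, f k (z k) = z (k + 1)) {k : ℕ} {x : G k}
    (h : Lim.of f k x = Lim.of f k (z k)) :
    ∃ n l, (Lim.next f)^[n] ⟨k, x⟩ = ⟨l, z l⟩ := by
  have key : ∀ y : Σ k, G k, (∃ n l, (Lim.next f)^[n] y = ⟨l, z l⟩) ↔
      ∃ n l, (Lim.next f)^[n] (Lim.next f y) = ⟨l, z l⟩ := by
    intro y
    constructor
    · rintro ⟨n, l, h⟩
      refine ⟨n, l + 1, ?_⟩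
      rw [← Function.iterate_succ_apply, Function.iterate_succ_apply', h]
      simp [Lim.next, hz]
    · rintro ⟨n, l, h⟩
      exact ⟨n + 1, l, by rw [Function.iterate_succ_apply]; exact h⟩
  let P : Lim G f → Prop := Quot.lift (fun y => ∃ n l, (Lim.next f)^[n] y = ⟨l, z l⟩) (by
    intro x y hxy
    subst hxy
    exact propext (key x))
  have h1 : P (Lim.of f k (z k)) := ⟨0, k, rfl⟩
  rw [← h] at h1
  exact h1

end Lim

end Pool.Agent.H368.NV
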