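import Pool.Agent.H368.NV.Basic
import Pool.Agent.H368.NV.K1

/-!
# `ℓ^p` Roe algebras and localization algebras of (extended) metric spaces
-/

set_option autoImplicit false
set_option linter.unusedVariables false

namespace Pool.Agent.H368.NV

open scoped ENNReal NNReal Topology BoundedContinuousFunction
open Filter

noncomputable section

variable {p : ℝ≥0∞} [Fact (1 ≤ p)] [Fact (p ≠ ∞)]

section Space

variable {Y : Type} [PseudoEMetricSpace Y] {Z : Set Y}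

/-- Multiplication by the characteristic function of `V ⊆ Y` on `ℓ^p(Z × ℕ) = ℓ^p(Z, ℓ^p(ℕ))`. -/
def chi (p : ℝ≥0∞) [Fact (1 ≤ p)] [Fact (p ≠ ∞)] (Z V : Set Y) : Op p (Z × ℕ) :=
  ind p {a : Z × ℕ | (a.1 : Y) ∈ V}

/-- The support of an operator: the pairs `(x, y)` with `χ_V T χ_U ≠ 0` for all open
neighbourhoods `U` of `x` and `V` of `y`. -/
def supp (T : Op p (Z × ℕ)) : Set (Y × Y) :=
  {q | ∀ U V : Set Y, IsOpen U → IsOpen V → q.1 ∈ U → q.2 ∈ V → chi p Z V * T * chi p Z U ≠ 0}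

/-- The propagation of an operator. -/
def prop (T : Op p (Z × ℕ)) : ℝ≥0∞ := ⨆ q ∈ supp T, edist q.1 q.2

/-- `T` is locally compact: `χ_K T` and `T χ_K` are compact for all compact `K ⊆ Y`. -/
def LocCpt (T : Op p (Z × ℕ)) : Prop :=
  ∀ K : Set Y, IsCompact K →
    IsCompactOperator (chi p Z K * T : Op p (Z × ℕ)) ∧
    IsCompactOperator (T * chi p Z K : Op p (Z × ℕ))

omit [PseudoEMetricSpace Y] in
theorem chi_mul_chi_eq_zero_iff (T : Op p (Z × ℕ)) (V U : Set Y) :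
    chi p Z V * T * chi p Z U = 0 ↔
      ∀ a b : Z × ℕ, (a.1 : Y) ∈ V → (b.1 : Y) ∈ U → ent T a b = 0 := by
  classical
  constructor
  · intro h a b ha hb
    have h1 : ent (chi p Z V * T * chi p Z U) a b = 0 := by rw [h, ent_zero]
    unfold chi at h1
    have ha' : a ∈ {a : Z × ℕ | (a.1 : Y) ∈ V} := ha
    have hb' : b ∈ {a : Z × ℕ | (a.1 : Y) ∈ U} := hb
    rw [ent_mul_ind, ent_ind_mul, if_pos hb', if_pos ha'] at h1
    exact h1
  · intro h
    apply op_ext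
    intro a b
    unfold chi
    rw [ent_mul_ind, ent_ind_mul, ent_zero]
    split_ifs with h1 h2
    · exact h a b h2 h1
    · rfl
    · rfl

/-- The propagation is at most `r` iff the matrix entries between points of distance more than `r`
vanish. -/
theorem prop_le_iff (T : Op p (Z × ℕ)) (r : ℝ≥0∞) :
    prop T ≤ r ↔ ∀ a b : Z × ℕ, ent T a b ≠ 0 → edist (b.1 : Y) (a.1 : Y) ≤ r := by
  constructor
  · intro h a b hab
    have hmem : ((b.1 : Y), (a.1 : Y)) ∈ supp T := by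
      intro U V _ _ hbU haV h0
      exact hab ((chi_mul_chi_eq_zero_iff T V U).1 h0 a b haV hbU)
    exact (le_iSup₂_of_le (f := fun q (_ : q ∈ supp T) => edist q.1 q.2) _ hmem le_rfl).trans h
  · intro h
    refine iSup₂_le fun q hq => ?_
    refine ENNReal.le_of_forall_pos_le_add fun ε hε _ => ?_
    have hε2 : (0 : ℝ≥0∞) < (ε : ℝ≥0∞) / 2 :=
      ENNReal.div_pos (by exact_mod_cast hε.ne') (by norm_num)
    have h1 := hq (Metric.eball q.1 ((ε : ℝ≥0∞) / 2)) (Metric.eball q.2 ((ε : ℝ≥0∞) / 2))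
      Metric.isOpen_eball Metric.isOpen_eball (Metric.mem_eball_self hε2)
      (Metric.mem_eball_self hε2)
    rw [Ne, chi_mul_chi_eq_zero_iff] at h1
    push Not at h1
    obtain ⟨a, b, ha, hb, hab⟩ := h1
    rw [Metric.mem_eball] at ha hb
    calc edist q.1 q.2 ≤ edist q.1 (b.1 : Y) + edist (b.1 : Y) (a.1 : Y) + edist (a.1 : Y) q.2 :=
          edist_triangle4 _ _ _ _
      _ ≤ (ε : ℝ≥0∞) / 2 + r + (ε : ℝ≥0∞) / 2 := by
          rw [edist_comm q.1]
          exact add_le_add (add_le_add hb.le (h a b hab)) ha.le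
      _ = r + ε := by
          rw [add_comm ((ε : ℝ≥0∞) / 2) r, add_assoc, ENNReal.add_halves]

theorem prop_zero : prop (0 : Op p (Z × ℕ)) = 0 :=
  le_antisymm ((prop_le_iff _ _).2 fun a b h => absurd (ent_zero a b) h) zero_le

theorem locCpt_zero : LocCpt (0 : Op p (Z × ℕ)) := by
  intro K _
  rw [mul_zero, zero_mul]
  exact ⟨isCompactOperator_zero, isCompactOperator_zero⟩

/-- The algebra of locally compact operators of finite propagation. -/
def roeAlg (p : ℝ≥0∞) [Fact (1 ≤ p)] [Fact (p ≠ ∞)] (Z : Set Y) : Set (Op p (Z × ℕ)) :=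
  {T | LocCpt T ∧ prop T ≠ ∞}

/-- The `ℓ^p` Roe algebra `B^p(Y)`: the norm closure of the algebra of locally compact operators
of finite propagation on `ℓ^p(Z × ℕ)`. -/
def roe (p : ℝ≥0∞) [Fact (1 ≤ p)] [Fact (p ≠ ∞)] (Z : Set Y) : ZSet (Op p (Z × ℕ)) where
  s := closure (roeAlg p Z)
  zero_mem := subset_closure ⟨locCpt_zero, by rw [prop_zero]; simp⟩

/-- The algebra of bounded and uniformly continuous maps `f : [0, ∞) → B^p(Y)` such that the
propagation of `f t` is bounded in `t` and tends to `0` for `t → ∞`. -/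
def locAlg (p : ℝ≥0∞) [Fact (1 ≤ p)] [Fact (p ≠ ∞)] (Z : Set Y) :
    Set (ℝ≥0 →ᵇ Op p (Z × ℕ)) :=
  {f | UniformContinuous f ∧ (∀ t, f t ∈ (roe p Z).s) ∧ (⨆ t, prop (f t)) ≠ ∞ ∧
    Tendsto (fun t => prop (f t)) atTop (𝓝 0)}

/-- The `ℓ^p` localization algebra `B_L^p(Y)`. -/
def loc (p : ℝ≥0∞) [Fact (1 ≤ p)] [Fact (p ≠ ∞)] (Z : Set Y) :
    ZSet (ℝ≥0 →ᵇ Op p (Z × ℕ)) where
  s := closure (locAlg p Z)
  zero_mem := subset_closure ⟨uniformContinuous_const,
    fun _ => (roe p Z).zero_mem, by simp [prop_zero], by simp [prop_zero]⟩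

theorem mem_roe_of_mem_loc {f : ℝ≥0 →ᵇ Op p (Z × ℕ)} (hf : f ∈ (loc p Z).s) (t : ℝ≥0) :
    f t ∈ (roe p Z).s := by
  have h1 : IsClosed {f : ℝ≥0 →ᵇ Op p (Z × ℕ) | f t ∈ (roe p Z).s} :=
    IsClosed.preimage (continuous_eval_const t) isClosed_closure
  have h2 : closure (locAlg p Z) ⊆ {f : ℝ≥0 →ᵇ Op p (Z × ℕ) | f t ∈ (roe p Z).s} :=
    closure_minimal (fun g hg => hg.2.1 t) h1
  exact h2 hf

/-- Evaluation at `0` is a homomorphism `B_L^p(Y) → B^p(Y)`. -/
def evalZero (p : ℝ≥0∞) [Fact (1 ≤ p)] [Fact (p ≠ ∞)] (Z : Set Y) :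
    CHom (loc p Z) (roe p Z) where
  f := fun f => f 0
  map_add := fun _ _ => rfl
  map_mul := fun _ _ => rfl
  cont := continuous_eval_const (0 : ℝ≥0)
  maps := fun f hf => mem_roe_of_mem_loc hf 0

end Space

section Push

variable {Y Y' : Type} [PseudoEMetricSpace Y] [PseudoEMetricSpace Y'] {Z : Set Y} {Z' : Set Y'}

/-- `ι` is an injection `Z × ℕ → Z' × ℕ` over a map `β : Y → Y'` which does not increase distances
and is proper in the sense that the preimage of a compact set is contained in a compact set. -/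
structure Covers (β : Y → Y') (ι : Z × ℕ ↪ Z' × ℕ) : Prop where
  fst : ∀ a, ((ι a).1 : Y') = β a.1
  lip : ∀ x y, edist (β x) (β y) ≤ edist x y
  proper : ∀ K' : Set Y', IsCompact K' → ∃ K : Set Y, IsCompact K ∧ β ⁻¹' K' ⊆ K

omit [PseudoEMetricSpace Y] [PseudoEMetricSpace Y'] in
/-- The push-forward of a compact operator is compact. -/
theorem push_compact {ι : Z × ℕ ↪ Z' × ℕ} {S : Op p (Z × ℕ)} (hS : IsCompactOperator S) :
    IsCompactOperator (push ι S) := by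
  have h1 : IsCompactOperator (S ∘ (res p ι)) := hS.comp_clm (res p ι)
  exact h1.clm_comp (exz p ι)

theorem Covers.chi_mul_push {β : Y → Y'} {ι : Z × ℕ ↪ Z' × ℕ} (h : Covers β ι)
    (T : Op p (Z × ℕ)) (K' : Set Y') :
    chi p Z' K' * push ι T = push ι (chi p Z (β ⁻¹' K') * T) := by
  classical
  apply op_ext
  intro a b
  unfold chi
  rw [ent_ind_mul]
  by_cases ha : ∃ i, ι i = a
  · obtain ⟨i, rfl⟩ := ha
    by_cases hb : ∃ j, ι j = b
    · obtain ⟨j, rfl⟩ := hb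
      rw [ent_push, ent_push, ent_ind_mul]
      have h1 : (ι i ∈ {a : Z' × ℕ | (a.1 : Y') ∈ K'}) ↔
          (i ∈ {a : Z × ℕ | (a.1 : Y) ∈ β ⁻¹' K'}) := by
        change ((ι i).1 : Y') ∈ K' ↔ β i.1 ∈ K'
        rw [h.fst]
      by_cases h2 : i ∈ {a : Z × ℕ | (a.1 : Y) ∈ β ⁻¹' K'}
      · rw [if_pos h2, if_pos (h1.2 h2)]
      · rw [if_neg h2, if_neg (fun h3 => h2 (h1.1 h3))]
    · push Not at hb
      rw [ent_push_right ι _ _ hb, ent_push_right ι _ _ hb, ite_self]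
  · push Not at ha
    rw [ent_push_left ι _ ha, ent_push_left ι _ ha, ite_self]

theorem Covers.push_mul_chi {β : Y → Y'} {ι : Z × ℕ ↪ Z' × ℕ} (h : Covers β ι)
    (T : Op p (Z × ℕ)) (K' : Set Y') :
    push ι T * chi p Z' K' = push ι (T * chi p Z (β ⁻¹' K')) := by
  classical
  apply op_ext
  intro a b
  unfold chi
  rw [ent_mul_ind]
  by_cases hb : ∃ j, ι j = b
  · obtain ⟨j, rfl⟩ := hb
    by_cases ha : ∃ i, ι i = a
    · obtain ⟨i, rfl⟩ := ha
      rw [ent_push, ent_push, ent_mul_ind]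
      have h1 : (ι j ∈ {a : Z' × ℕ | (a.1 : Y') ∈ K'}) ↔
          (j ∈ {a : Z × ℕ | (a.1 : Y) ∈ β ⁻¹' K'}) := by
        change ((ι j).1 : Y') ∈ K' ↔ β j.1 ∈ K'
        rw [h.fst]
      by_cases h2 : j ∈ {a : Z × ℕ | (a.1 : Y) ∈ β ⁻¹' K'}
      · rw [if_pos h2, if_pos (h1.2 h2)]
      · rw [if_neg h2, if_neg (fun h3 => h2 (h1.1 h3))]
    · push Not at ha
      rw [ent_push_left ι _ ha, ent_push_left ι _ ha, ite_self]
  · push Not at hb
    rw [ent_push_right ι _ _ hb, ent_push_right ι _ _ hb, ite_self]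

omit [PseudoEMetricSpace Y] in
theorem chi_mul_of_subset {A B : Set Y} (hAB : A ⊆ B) (T : Op p (Z × ℕ)) :
    chi p Z A * T = chi p Z A * (chi p Z B * T) := by
  classical
  apply op_ext
  intro a b
  unfold chi
  rw [ent_ind_mul, ent_ind_mul, ent_ind_mul]
  by_cases h : a ∈ {a : Z × ℕ | (a.1 : Y) ∈ A}
  · have h2 : a ∈ {a : Z × ℕ | (a.1 : Y) ∈ B} := hAB h
    rw [if_pos h, if_pos h, if_pos h2]
  · rw [if_neg h, if_neg h]

omit [PseudoEMetricSpace Y] in
theorem mul_chi_of_subset {A B : Set Y} (hAB : A ⊆ B) (T : Op p (Z × ℕ)) :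
    T * chi p Z A = (T * chi p Z B) * chi p Z A := by
  classical
  apply op_ext
  intro a b
  unfold chi
  rw [ent_mul_ind, ent_mul_ind, ent_mul_ind]
  by_cases h : b ∈ {a : Z × ℕ | (a.1 : Y) ∈ A}
  · have h2 : b ∈ {a : Z × ℕ | (a.1 : Y) ∈ B} := hAB h
    rw [if_pos h, if_pos h, if_pos h2]
  · rw [if_neg h, if_neg h]

theorem Covers.locCpt {β : Y → Y'} {ι : Z × ℕ ↪ Z' × ℕ} (h : Covers β ι) {T : Op p (Z × ℕ)}
    (hT : LocCpt T) : LocCpt (push ι T) := by
  intro K' hK'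
  obtain ⟨K, hK, hsub⟩ := h.proper K' hK'
  obtain ⟨h1, h2⟩ := hT K hK
  constructor
  · rw [h.chi_mul_push, chi_mul_of_subset hsub]
    exact push_compact (h1.clm_comp (chi p Z (β ⁻¹' K')))
  · rw [h.push_mul_chi, mul_chi_of_subset hsub]
    exact push_compact (h2.comp_clm (chi p Z (β ⁻¹' K')))

theorem Covers.prop_le {β : Y → Y'} {ι : Z × ℕ ↪ Z' × ℕ} (h : Covers β ι) (T : Op p (Z × ℕ)) :
    prop (push ι T) ≤ prop T := by
  rw [prop_le_iff]
  intro a b hab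
  by_cases ha : ∃ i, ι i = a
  · obtain ⟨i, rfl⟩ := ha
    by_cases hb : ∃ j, ι j = b
    · obtain ⟨j, rfl⟩ := hb
      rw [ent_push] at hab
      rw [h.fst, h.fst]
      exact (h.lip _ _).trans ((prop_le_iff T _).1 le_rfl i j hab)
    · push Not at hb
      exact absurd (ent_push_right ι _ _ hb) hab
  · push Not at ha
    exact absurd (ent_push_left ι _ ha _) hab

theorem Covers.mem_roe {β : Y → Y'} {ι : Z × ℕ ↪ Z' × ℕ} (h : Covers β ι) {T : Op p (Z × ℕ)}
    (hT : T ∈ (roe p Z).s) : push ι T ∈ (roe p Z').s := by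
  have h1 : Set.MapsTo (pushL p ι) (roeAlg p Z) (roeAlg p Z') := fun S hS =>
    ⟨h.locCpt hS.1, ne_top_of_le_ne_top hS.2 (h.prop_le S)⟩
  exact map_mem_closure (pushL p ι).continuous hT h1

/-- The homomorphism `B^p(Y) → B^p(Y')`, `T ↦ V T V⁺`, for the isometry `V` of `ℓ^p` spaces given
by an injection `Z × ℕ → Z' × ℕ` over a map `β : Y → Y'`. -/
def Covers.onRoe {β : Y → Y'} {ι : Z × ℕ ↪ Z' × ℕ} (h : Covers β ι) (p : ℝ≥0∞)
    [Fact (1 ≤ p)] [Fact (p ≠ ∞)] : CHom (roe p Z) (roe p Z') where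
  f := push ι
  map_add := push_add ι
  map_mul := push_mul ι
  cont := (pushL p ι).continuous
  maps := fun _ hT => h.mem_roe hT

/-- Post-composition with `push ι`. -/
def pushPath (ι : Z × ℕ ↪ Z' × ℕ) (f : ℝ≥0 →ᵇ Op p (Z × ℕ)) : ℝ≥0 →ᵇ Op p (Z' × ℕ) :=
  (pushL p ι).compLeftContinuousBounded ℝ≥0 f

@[simp] theorem pushPath_apply (ι : Z × ℕ ↪ Z' × ℕ) (f : ℝ≥0 →ᵇ Op p (Z × ℕ)) (t : ℝ≥0) :
    pushPath ι f t = push ι (f t) := rfl

theorem Covers.mem_loc {β : Y → Y'} {ι : Z × ℕ ↪ Z' × ℕ} (h : Covers β ι)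
    {f : ℝ≥0 →ᵇ Op p (Z × ℕ)} (hf : f ∈ (loc p Z).s) : pushPath ι f ∈ (loc p Z').s := by
  have h1 : Set.MapsTo ((pushL p ι).compLeftContinuousBounded ℝ≥0) (locAlg p Z)
      (locAlg p Z') := by
    rintro g ⟨hg1, hg2, hg3, hg4⟩
    refine ⟨(pushL p ι).uniformContinuous.comp hg1, fun t => h.mem_roe (hg2 t), ?_, ?_⟩
    · refine ne_top_of_le_ne_top hg3 (iSup_mono fun t => ?_)
      exact h.prop_le (g t)
    · exact tendsto_of_tendsto_of_tendsto_of_le_of_le tendsto_const_nhds hg4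
        (fun _ => zero_le) (fun t => h.prop_le (g t))
  exact map_mem_closure ((pushL p ι).compLeftContinuousBounded ℝ≥0).continuous hf h1

/-- The homomorphism `B_L^p(Y) → B_L^p(Y')`, `f ↦ V f V⁺`. -/
def Covers.onLoc {β : Y → Y'} {ι : Z × ℕ ↪ Z' × ℕ} (h : Covers β ι) (p : ℝ≥0∞)
    [Fact (1 ≤ p)] [Fact (p ≠ ∞)] : CHom (loc p Z) (loc p Z') where
  f := pushPath ι
  map_add := fun f g => by ext1 t; simp [push_add]
  map_mul := fun f g => by ext1 t; simp [push_mul]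
  cont := ((pushL p ι).compLeftContinuousBounded ℝ≥0).continuous
  maps := fun _ hf => h.mem_loc hf

end Push

end

end Pool.Agent.H368.NV
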