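import Pool.Agent.H368.NV.Detect
import Pool.Agent.H368.NV.Roe

/-!
# Detection of classes of localization algebras

PROOF SKETCH of `detect_loc`. Suppose the class is zero. By `K1.mk_eq_zero` there are `M ≥ 1` and a path
`Γ : [0,1] → Matrix (Fin M) (Fin M) (ℝ≥0 →ᵇ Op p (Z × ℕ))` of matrices which are quasi-invertible over
`(loc p Z).s`, from `pad M (x)` to `0`. Let `κ : {a // a.1 ∈ Y₀} ↪ Z × ℕ` be the inclusion.
(a) For `f ∈ (loc p Z).s` and all `t`: `f t` commutes with `ind p (range κ)` (true for operators of finite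
  propagation, because of `hsep`, and closed under limits), and `ind p (range κ) * f t` is compact (as
  `f t ∈ (roe p Z).s`, closure of operators `T` with `chi K * T` compact, `Y₀ ⊆ K`); so
  `cut κ (f t)` is compact.
(b) For `f ∈ (loc p Z).s`: `‖dg p F₀ * cut κ (f t) - cut κ (f t) * dg p F₀‖ → 0` for `t → ∞`, where
  `F₀ a = F a.1.1` for `a` in the index set. For `f ∈ locAlg p Z` use `prop (f t) → 0`, `prop_le_iff`,
  the Lipschitz condition and `commutator_le` for the real and the imaginary part of `F₀`; the set of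
  `f` with this property is closed in the supremum norm.
(c) `Γ` is uniformly continuous, so by a finite net in `[0,1]`, (b) holds uniformly for all entries
  `f = Γ s i j`, `s ∈ [0,1]`. The norms of the entries of `(1 + Γ s)⁻¹ - 1` are bounded by some `C`
  uniformly in `s` (inversion is continuous in the complete normed ring of matrices with the norm
  `max_i ∑_j ‖a i j‖`; the interval is compact).
(d) Take a large integer `K` such that (b) holds with `η`, `(1 + M C) (M η) < 1`, and such that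
  `hstart` applies, and apply `detect` to `a s i j = cut κ (Γ s i j K)`. Multiplicativity of `cut κ` on
  these elements is `cut_mul`.
-/

set_option autoImplicit false
set_option linter.unusedVariables false

namespace Pool.Agent.H368.NV

open scoped ENNReal NNReal Topology BoundedContinuousFunction
open Filter

noncomputable section

variable {p : ℝ≥0∞} [hp1 : Fact (1 ≤ p)] [hpt : Fact (p ≠ ∞)]

section Inv

attribute [local instance] Matrix.linftyOpNormedRing Matrix.linftyOpNormedAddCommGroup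

theorem inv_bound_aux {M : ℕ} {R : Type} [NormedRing R] [CompleteSpace R]
    {T : Type} [TopologicalSpace T] [CompactSpace T]
    (Γ : T → Matrix (Fin M) (Fin M) R) (hΓ' : Continuous Γ)
    (B : T → Matrix (Fin M) (Fin M) R)
    (h1 : ∀ s, (1 + Γ s) * (1 + B s) = 1) (h2 : ∀ s, (1 + B s) * (1 + Γ s) = 1) :
    ∃ C : ℝ, 0 ≤ C ∧ ∀ s i j, ‖B s i j‖ ≤ C := by
  have hcs : CompleteSpace (Matrix (Fin M) (Fin M) R) := inferInstance
  have : @HasSummableGeomSeries (Matrix (Fin M) (Fin M) R)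
      Matrix.linftyOpNormedRing :=
    @instHasSummableGeomSeriesOfCompleteSpace _ Matrix.linftyOpNormedRing hcs
  have hc : Continuous (fun s => ‖B s‖) := by
    have h3 : ∀ s, B s = Ring.inverse (1 + Γ s) - 1 := by
      intro s
      have := Ring.inverse_unit ⟨1 + Γ s, 1 + B s, h1 s, h2 s⟩
      rw [this]
      simp
    have h4 : Continuous (fun s => Ring.inverse (1 + Γ s)) := by
      rw [continuous_iff_continuousAt]
      intro s
      have h5 := NormedRing.inverse_continuousAt ⟨1 + Γ s, 1 + B s, h1 s, h2 s⟩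
      exact ContinuousAt.comp (f := fun s => 1 + Γ s) h5 (by fun_prop)
    have h6 : B = fun s => Ring.inverse (1 + Γ s) - 1 := funext h3
    rw [h6]
    fun_prop
  obtain ⟨C, hC⟩ := (isCompact_range hc).bddAbove
  refine ⟨max C 0, le_max_right _ _, fun s i j => le_trans ?_ (le_max_left _ _)⟩
  refine le_trans ?_ (hC ⟨s, rfl⟩)
  change ‖B s i j‖ ≤ ‖B s‖
  rw [Matrix.linfty_opNorm_def]
  have h7 : ‖B s i j‖₊ ≤ ∑ j, ‖B s i j‖₊ :=
    Finset.single_le_sum (f := fun j => ‖B s i j‖₊) (fun _ _ => zero_le) (Finset.mem_univ j)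
  have h8 : ∑ j, ‖B s i j‖₊ ≤ (Finset.univ : Finset (Fin M)).sup fun i => ∑ j, ‖B s i j‖₊ :=
    Finset.le_sup (f := fun i => ∑ j, ‖B s i j‖₊) (Finset.mem_univ i)
  exact_mod_cast h7.trans h8

end Inv

/-- The inverses of a compact continuous family of invertible matrices are uniformly bounded. -/
theorem inv_bound {M : ℕ} {R : Type} [NormedRing R] [CompleteSpace R]
    {T : Type} [TopologicalSpace T] [CompactSpace T]
    (Γ : T → Matrix (Fin M) (Fin M) R) (hΓ : Continuous Γ)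
    (B : T → Matrix (Fin M) (Fin M) R)
    (h1 : ∀ s, (1 + Γ s) * (1 + B s) = 1) (h2 : ∀ s, (1 + B s) * (1 + Γ s) = 1) :
    ∃ C : ℝ, 0 ≤ C ∧ ∀ s i j, ‖B s i j‖ ≤ C :=
  inv_bound_aux Γ hΓ B h1 h2

/-- The inverses in a compact family of quasi-invertible matrices, after a homomorphism. -/
theorem inv_step_dl {M : ℕ} {R : Type} [NormedRing R] [CompleteSpace R] (A : Set R)
    {T : Type} [TopologicalSpace T] [CompactSpace T]
    (Γ : T → Matrix (Fin M) (Fin M) R) (hΓ : Continuous Γ) (hq : ∀ s, QInv A (Γ s)) :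
    ∃ C : ℝ, 0 ≤ C ∧ ∀ (S : Type) [NormedRing S] (ψ : R → S),
      (∀ f g, ψ (f + g) = ψ f + ψ g) → ψ 0 = 0 → (∀ f, ∀ g ∈ A, ψ (f * g) = ψ f * ψ g) →
      (∀ f, ‖ψ f‖ ≤ ‖f‖) → ∀ s, ∃ b : Matrix (Fin M) (Fin M) S,
        (1 + (Γ s).map ψ) * (1 + b) = 1 ∧ (1 + b) * (1 + (Γ s).map ψ) = 1 ∧
        ∀ i j, ‖b i j‖ ≤ C := by
  have hA : ∀ s i j, Γ s i j ∈ A := fun s => (hq s).1
  choose B hB1 hB2 hB3 using fun s => (hq s).2
  obtain ⟨C, hC, hB⟩ := inv_bound Γ hΓ B hB2 hB3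
  refine ⟨C, hC, fun S _ ψ ha h0 hm hn s => ?_⟩
  let ψh : R →+ S := { toFun := ψ, map_zero' := h0, map_add' := ha }
  have hs : ∀ f : Fin M → R, ψ (∑ k, f k) = ∑ k, ψ (f k) := fun f => map_sum ψh f _
  have hmat : ∀ X X' : Matrix (Fin M) (Fin M) R, (∀ i j, X' i j ∈ A) → (1 + X) * (1 + X') = 1 →
      (1 + X.map ψ) * (1 + X'.map ψ) = 1 := by
    intro X X' hX' h1
    have h2 : X + X' + X * X' = 0 := by
      have h3 : (1 + X) * (1 + X') = 1 + (X + X' + X * X') := by noncomm_ring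
      rw [h3] at h1
      simpa using h1
    have h4 : (1 + X.map ψ) * (1 + X'.map ψ) =
        1 + (X.map ψ + X'.map ψ + X.map ψ * X'.map ψ) := by noncomm_ring
    rw [h4]
    have h5 : X.map ψ + X'.map ψ + X.map ψ * X'.map ψ = 0 := by
      ext1 i j
      have h6 := congrArg (fun X : Matrix (Fin M) (Fin M) R => ψ (X i j)) h2
      simp only [Matrix.add_apply, Matrix.mul_apply, Matrix.zero_apply, h0, ha, hs] at h6
      simp only [Matrix.add_apply, Matrix.mul_apply, Matrix.zero_apply, Matrix.map_apply]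
      rw [← h6]
      congr 1
      apply Finset.sum_congr rfl
      intro k _
      exact (hm _ _ (hX' k j)).symm
    rw [h5, add_zero]
  exact ⟨(B s).map ψ, hmat _ _ (hB1 s) (hB2 s), hmat _ _ (hA s) (hB3 s),
    fun i j => (hn _).trans (hB s i j)⟩

/-- The commutator with a diagonal operator. -/
theorem norm_comm_le {I : Type} {F : I → ℂ} (hF : ∀ a, ‖F a‖ ≤ 1) (T : Op p I) :
    ‖dg p F * T - T * dg p F‖ ≤ 2 * ‖T‖ := by
  have h1 : ‖dg p F‖ ≤ 1 := norm_dg_le zero_le_one hF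
  calc ‖dg p F * T - T * dg p F‖ ≤ ‖dg p F * T‖ + ‖T * dg p F‖ := norm_sub_le _ _
    _ ≤ ‖dg p F‖ * ‖T‖ + ‖T‖ * ‖dg p F‖ := add_le_add (norm_mul_le _ _) (norm_mul_le _ _)
    _ ≤ 1 * ‖T‖ + ‖T‖ * 1 := by gcongr
    _ = 2 * ‖T‖ := by ring

omit hpt in
theorem comm_sub {I : Type} (A T S : Op p I) :
    A * (T - S) - (T - S) * A = (A * T - T * A) - (A * S - S * A) := by
  noncomm_ring

/-- Commutators with complex diagonal operators. -/
theorem commutator_le_complex {I : Type} (F : I → ℂ) (hF : ∀ a, ‖F a‖ ≤ 1) {η : ℝ} (hη : 0 < η)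
    (T : Op p I) (h : ∀ a b, ent T a b ≠ 0 → ‖F a - F b‖ ≤ η) :
    ‖dg p F * T - T * dg p F‖ ≤ 16 * η * ‖T‖ := by
  have hre : ∀ a, |(F a).re| ≤ 1 := fun a => (Complex.abs_re_le_norm _).trans (hF a)
  have him : ∀ a, |(F a).im| ≤ 1 := fun a => (Complex.abs_im_le_norm _).trans (hF a)
  have hre' : ∀ a, ‖((F a).re : ℂ)‖ ≤ 1 := fun a => by
    rw [Complex.norm_real, Real.norm_eq_abs]; exact hre a
  have him' : ∀ a, ‖((F a).im : ℂ)‖ ≤ 1 := fun a => by
    rw [Complex.norm_real, Real.norm_eq_abs]; exact him a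
  have h1 := commutator_le (p := p) (fun a => (F a).re) hre hη T (fun a b hab => by
    have := Complex.abs_re_le_norm (F a - F b)
    rw [Complex.sub_re] at this
    exact this.trans (h a b hab))
  have h2 := commutator_le (p := p) (fun a => (F a).im) him hη T (fun a b hab => by
    have := Complex.abs_im_le_norm (F a - F b)
    rw [Complex.sub_im] at this
    exact this.trans (h a b hab))
  have h3 : dg p F * T - T * dg p F =
      (dg p (fun i => ((F i).re : ℂ)) * T - T * dg p (fun i => ((F i).re : ℂ))) +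
      Complex.I • (dg p (fun i => ((F i).im : ℂ)) * T - T * dg p (fun i => ((F i).im : ℂ))) := by
    apply op_ext
    intro a b
    rw [ent_sub, ent_dg_mul hF, ent_mul_dg hF, ent_add, ent_sub, ent_dg_mul hre', ent_mul_dg hre',
      ent_smul, ent_sub, ent_dg_mul him', ent_mul_dg him']
    conv_lhs => rw [← Complex.re_add_im (F a), ← Complex.re_add_im (F b)]
    ring
  rw [h3]
  calc _ ≤ _ := norm_add_le _ _
    _ ≤ 8 * η * ‖T‖ + 8 * η * ‖T‖ := by
        apply add_le_add h1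
        rw [norm_smul, Complex.norm_I, one_mul]
        exact h2
    _ = 16 * η * ‖T‖ := by ring

section Loc

variable {Y : Type} [PseudoEMetricSpace Y] {Z : Set Y}

/-- The inclusion of the part of the index set over `Y₀`. -/
def kapDL (Z Y₀ : Set Y) : {a : Z × ℕ // (a.1 : Y) ∈ Y₀} ↪ Z × ℕ := Function.Embedding.subtype _

omit [PseudoEMetricSpace Y] in
theorem range_kap (Y₀ : Set Y) : Set.range (kapDL Z Y₀) = {a : Z × ℕ | (a.1 : Y) ∈ Y₀} := by
  unfold kapDL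
  ext a
  simp

theorem comm_of_prop {Y₀ : Set Y} (hsep : ∀ x ∈ Y₀, ∀ y, y ∉ Y₀ → edist x y = ∞)
    (T : Op p (Z × ℕ)) (hT : prop T ≠ ∞) :
    ind p (Set.range (kapDL Z Y₀)) * T = T * ind p (Set.range (kapDL Z Y₀)) := by
  rw [range_kap]
  apply ind_comm
  intro a b hab
  have h1 := (prop_le_iff T (prop T)).1 le_rfl a b hab
  have h2 : edist (b.1 : Y) (a.1 : Y) ≠ ∞ := fun h => hT (top_le_iff.1 (h ▸ h1))
  simp only [Set.mem_ofPred_eq]
  constructor
  · intro ha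
    by_contra hb
    exact h2 (by rw [edist_comm]; exact hsep _ ha _ hb)
  · intro hb
    by_contra ha
    exact h2 (hsep _ hb _ ha)

theorem comm_of_roe {Y₀ : Set Y} (hsep : ∀ x ∈ Y₀, ∀ y, y ∉ Y₀ → edist x y = ∞)
    (T : Op p (Z × ℕ)) (hT : T ∈ (roe p Z).s) :
    ind p (Set.range (kapDL Z Y₀)) * T = T * ind p (Set.range (kapDL Z Y₀)) := by
  have h1 : IsClosed {T : Op p (Z × ℕ) | ind p (Set.range (kapDL Z Y₀)) * T =
      T * ind p (Set.range (kapDL Z Y₀))} :=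
    isClosed_eq (continuous_const.mul continuous_id) (continuous_id.mul continuous_const)
  exact closure_minimal (fun T hT => comm_of_prop hsep T hT.2) h1 hT

theorem cpt_of_roe {Y₀ : Set Y} (hcomp : ∃ K, IsCompact K ∧ Y₀ ⊆ K)
    (T : Op p (Z × ℕ)) (hT : T ∈ (roe p Z).s) :
    IsCompactOperator (ind p (Set.range (kapDL Z Y₀)) * T : Op p (Z × ℕ)) := by
  classical
  obtain ⟨K, hK, hYK⟩ := hcomp
  have h1 : IsClosed {T : Op p (Z × ℕ) |
      IsCompactOperator (ind p (Set.range (kapDL Z Y₀)) * T : Op p (Z × ℕ))} := by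
    have h2 : IsClosed {T : Op p (Z × ℕ) | IsCompactOperator (T : Op p (Z × ℕ))} :=
      isClosed_setOfPred_isCompactOperator
    exact h2.preimage (f := fun T : Op p (Z × ℕ) => ind p (Set.range (kapDL Z Y₀)) * T)
      (continuous_const.mul continuous_id)
  refine closure_minimal (fun T hT => ?_) h1 hT
  have h3 := (hT.1 K hK).1
  have h4 : ind p (Set.range (kapDL Z Y₀)) * T = ind p (Set.range (kapDL Z Y₀)) * (chi p Z K * T) := by
    apply op_ext
    intro a b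
    rw [ent_ind_mul, ent_ind_mul]
    by_cases h : a ∈ Set.range (kapDL Z Y₀)
    · rw [if_pos h, if_pos h]
      unfold chi
      rw [ent_ind_mul, if_pos]
      rw [range_kap] at h
      exact hYK h
    · rw [if_neg h, if_neg h]
  change IsCompactOperator _
  rw [h4]
  exact h3.clm_comp (ind p (Set.range (kapDL Z Y₀)))

theorem cut_cpt {Y₀ : Set Y} (hcomp : ∃ K, IsCompact K ∧ Y₀ ⊆ K)
    (T : Op p (Z × ℕ)) (hT : T ∈ (roe p Z).s) :
    IsCompactOperator (cut (kapDL Z Y₀) T : Op p {a : Z × ℕ // (a.1 : Y) ∈ Y₀}) := by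
  have h1 := cpt_of_roe hcomp T hT
  have h2 : cut (kapDL Z Y₀) T =
      (res p (kapDL Z Y₀)).comp ((ind p (Set.range (kapDL Z Y₀)) * T).comp (exz p (kapDL Z Y₀))) := by
    ext f a
    simp only [cut_apply, ContinuousLinearMap.comp_apply, res_apply, op_mul_apply]
    rw [ind_apply_mem]
    exact ⟨a, rfl⟩
  rw [h2]
  exact (h1.comp_clm (exz p (kapDL Z Y₀))).clm_comp (res p (kapDL Z Y₀))

/-- The weakened conditions which are used for detection. -/
def wloc (p : ℝ≥0∞) [Fact (1 ≤ p)] [Fact (p ≠ ∞)] (Z : Set Y) :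
    Set (ℝ≥0 →ᵇ Op p (Z × ℕ)) :=
  {f | (∀ t, f t ∈ (roe p Z).s) ∧ Tendsto (fun t => prop (f t)) atTop (𝓝 0)}

theorem mem_roe_of_wloc {f : ℝ≥0 →ᵇ Op p (Z × ℕ)} (hf : f ∈ closure (wloc p Z)) (t : ℝ≥0) :
    f t ∈ (roe p Z).s := by
  have h1 : IsClosed {f : ℝ≥0 →ᵇ Op p (Z × ℕ) | f t ∈ (roe p Z).s} := by
    have h2 : IsClosed (roe p Z).s := isClosed_closure
    exact h2.preimage (continuous_eval_const t)
  exact closure_minimal (fun f hf => hf.1 t) h1 hf

theorem comm_tendsto_aux {Y₀ : Set Y} {F : Y → ℂ} (hF1 : ∀ y, ‖F y‖ = 1) {C : ℝ≥0}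
    (hF : LipschitzWith C F) (f : ℝ≥0 →ᵇ Op p (Z × ℕ)) (hf : f ∈ wloc p Z) {ε : ℝ}
    (hε : 0 < ε) : ∀ᶠ t in atTop,
      ‖dg p (fun a : {a : Z × ℕ // (a.1 : Y) ∈ Y₀} => F a.1.1) * cut (kapDL Z Y₀) (f t) -
        cut (kapDL Z Y₀) (f t) * dg p (fun a => F a.1.1)‖ < ε := by
  set N : ℝ := 16 * (‖f‖ + 1) with hN
  have hNpos : 0 < N := by positivity
  set η : ℝ := ε / (2 * N) with hη
  have hηpos : 0 < η := by positivity
  have h1 : ∀ᶠ t in atTop, prop (f t) < ENNReal.ofReal (η / (C + 1)) :=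
    hf.2.eventually_lt_const (by
      rw [ENNReal.ofReal_pos]; positivity)
  filter_upwards [h1] with t ht
  have h2 : ∀ a b, ent (cut (kapDL Z Y₀) (f t)) a b ≠ 0 →
      ‖F (a.1.1 : Y) - F (b.1.1 : Y)‖ ≤ η := by
    intro a b hab
    rw [ent_cut] at hab
    have h3 := (prop_le_iff (f t) _).1 ht.le _ _ hab
    have h4 := hF ((kapDL Z Y₀ b).1 : Y) ((kapDL Z Y₀ a).1 : Y)
    have h5 : edist (F ((kapDL Z Y₀ b).1 : Y)) (F ((kapDL Z Y₀ a).1 : Y)) ≤
        ENNReal.ofReal (C * (η / (C + 1))) := by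
      refine h4.trans ?_
      rw [ENNReal.ofReal_mul (NNReal.coe_nonneg C), ENNReal.ofReal_coe_nnreal]
      gcongr
    rw [edist_dist, ENNReal.ofReal_le_ofReal_iff (by positivity), dist_comm, dist_eq_norm] at h5
    refine h5.trans ?_
    rw [mul_div_assoc', div_le_iff₀ (by positivity)]
    nlinarith [hηpos, C.2]
  have h3 := commutator_le_complex (p := p)
    (fun a : {a : Z × ℕ // (a.1 : Y) ∈ Y₀} => F a.1.1) (fun a => (hF1 _).le) hηpos
    (cut (kapDL Z Y₀) (f t)) h2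
  refine h3.trans_lt ?_
  have h4 : ‖cut (kapDL Z Y₀) (f t)‖ ≤ ‖f‖ := (norm_cut_le _ _).trans (f.norm_coe_le_norm t)
  calc 16 * η * ‖cut (kapDL Z Y₀) (f t)‖ ≤ 16 * η * ‖f‖ := by gcongr
    _ < N * η * 2 := by rw [hN]; nlinarith [hηpos, norm_nonneg f]
    _ = ε := by rw [hη]; field_simp

theorem comm_tendsto {Y₀ : Set Y} {F : Y → ℂ} (hF1 : ∀ y, ‖F y‖ = 1) {C : ℝ≥0}
    (hF : LipschitzWith C F) (f : ℝ≥0 →ᵇ Op p (Z × ℕ)) (hf : f ∈ closure (wloc p Z)) {ε : ℝ}
    (hε : 0 < ε) : ∀ᶠ t in atTop, ∀ g : ℝ≥0 →ᵇ Op p (Z × ℕ), dist g f < ε / 8 → 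
      ‖dg p (fun a : {a : Z × ℕ // (a.1 : Y) ∈ Y₀} => F a.1.1) * cut (kapDL Z Y₀) (g t) -
        cut (kapDL Z Y₀) (g t) * dg p (fun a => F a.1.1)‖ < ε := by
  obtain ⟨f', hf', hff'⟩ := Metric.mem_closure_iff.1 hf (ε / 8) (by positivity)
  filter_upwards [comm_tendsto_aux (Y₀ := Y₀) hF1 hF f' hf' (half_pos hε)] with t ht g hg
  set Φ := dg p (fun a : {a : Z × ℕ // (a.1 : Y) ∈ Y₀} => F a.1.1) with hΦ
  have h2 : cut (kapDL Z Y₀) (g t) =
      cut (kapDL Z Y₀) (f' t) - cut (kapDL Z Y₀) ((f' - g) t) := by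
    rw [← cut_sub]; congr 1
    simp
  have h3 : ‖cut (kapDL Z Y₀) ((f' - g) t)‖ ≤ ‖f' - g‖ :=
    (norm_cut_le _ _).trans ((f' - g).norm_coe_le_norm t)
  have h4 : ‖f' - g‖ < ε / 4 := by
    calc ‖f' - g‖ = dist f' g := (dist_eq_norm f' g).symm
      _ ≤ dist f' f + dist f g := dist_triangle _ _ _
      _ < ε / 8 + ε / 8 := by
          rw [dist_comm f' f, dist_comm f g]
          exact add_lt_add hff' hg
      _ = ε / 4 := by ring
  rw [h2, comm_sub]
  have h5 := norm_comm_le (p := p) (F := fun a : {a : Z × ℕ // (a.1 : Y) ∈ Y₀} => F a.1.1)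
    (fun a => (hF1 _).le) (cut (kapDL Z Y₀) ((f' - g) t))
  calc _ ≤ _ := norm_sub_le _ _
    _ < ε / 2 + 2 * (ε / 4) := by
        apply add_lt_add ht
        refine h5.trans_lt ?_
        linarith
    _ = ε := by ring

theorem comm_uniform {Y₀ : Set Y} {F : Y → ℂ} (hF1 : ∀ y, ‖F y‖ = 1) {C : ℝ≥0}
    (hF : LipschitzWith C F) (S : Set (ℝ≥0 →ᵇ Op p (Z × ℕ))) (hS : IsCompact S)
    (hSl : S ⊆ closure (wloc p Z)) {ε : ℝ} (hε : 0 < ε) : ∀ᶠ t in atTop, ∀ g ∈ S,
      ‖dg p (fun a : {a : Z × ℕ // (a.1 : Y) ∈ Y₀} => F a.1.1) * cut (kapDL Z Y₀) (g t) -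
        cut (kapDL Z Y₀) (g t) * dg p (fun a => F a.1.1)‖ < ε := by
  refine hS.induction_on (p := fun S => ∀ᶠ t in atTop, ∀ g ∈ S,
      ‖dg p (fun a : {a : Z × ℕ // (a.1 : Y) ∈ Y₀} => F a.1.1) * cut (kapDL Z Y₀) (g t) -
        cut (kapDL Z Y₀) (g t) * dg p (fun a => F a.1.1)‖ < ε) ?_ ?_ ?_ ?_
  · simp
  · intro S S' hSS' h
    filter_upwards [h] with t ht g hg using ht g (hSS' hg)
  · intro S S' h h'
    filter_upwards [h, h'] with t ht ht' g hg
    rcases hg with hg | hg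
    · exact ht g hg
    · exact ht' g hg
  · intro f hf
    refine ⟨Metric.ball f (ε / 8), mem_nhdsWithin_of_mem_nhds (Metric.ball_mem_nhds _ (by positivity)),
      ?_⟩
    filter_upwards [comm_tendsto (Y₀ := Y₀) hF1 hF f (hSl hf) hε] with t ht g hg using ht g hg

end Loc

/-- Detection for every algebra whose elements can be approximated by maps of propagation tending
to zero. -/
theorem detect_loc_gen {Y : Type} [PseudoEMetricSpace Y] {Z : Set Y} (Y₀ : Set Y)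
    (A : ZSet (ℝ≥0 →ᵇ Op p (Z × ℕ)))
    (hA : A.s ⊆ closure {f | (∀ t, f t ∈ (roe p Z).s) ∧
      Tendsto (fun t => prop (f t)) atTop (𝓝 0)})
    (hsep : ∀ x ∈ Y₀, ∀ y, y ∉ Y₀ → edist x y = ∞) (hcomp : ∃ K, IsCompact K ∧ Y₀ ⊆ K)
    (F : Y → ℂ) (hF1 : ∀ y, ‖F y‖ = 1) (C : ℝ≥0) (hF : LipschitzWith C F)
    (x : ℝ≥0 →ᵇ Op p (Z × ℕ)) (hx : QInv A.s (fun (_ _ : Fin 1) => x))
    (hstart : ∀ᶠ K : ℕ in atTop, ∃ (D : Type) (_ : Fintype D) (_ : DecidableEq D)
      (c : D ↪ {a : Z × ℕ // (a.1 : Y) ∈ Y₀}) (π : Equiv.Perm D) (δ : D → ℝ),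
      cut (Function.Embedding.subtype _) (x (K : ℝ≥0)) = push c (perm p π - 1) ∧
      (∀ d, |δ d| < 1 / 2) ∧
      (∀ d, F ((c (π d)).1.1) = Complex.exp (2 * Real.pi * Complex.I * (δ d : ℂ)) *
        F ((c d).1.1)) ∧ ∑ d, δ d = 1) :
    K1.mk A ⟨1, _, hx⟩ ≠ K1.zero A := by
  classical
  have hA' : A.s ⊆ closure (wloc p Z) := hA
  intro h0
  obtain ⟨M, hM, γ, hγ⟩ := K1.mk_eq_zero.1 h0
  change 1 ≤ M at hM
  -- the path and its inverses
  have hq : ∀ s : unitInterval, QInv A.s (γ s) := hγ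
  have hΓ1 : ∀ (s : unitInterval) (i j : Fin M), γ s i j ∈ A.s := fun s => (hq s).1
  obtain ⟨Cb, hCb, hstep⟩ := @inv_step_dl M (ℝ≥0 →ᵇ Op p (Z × ℕ))
    BoundedContinuousFunction.instNormedRing inferInstance A.s unitInterval _ _
    (fun s => γ s) γ.continuous hq
  -- the choice of `η`
  obtain ⟨η, hη, hCη⟩ : ∃ η : ℝ, 0 < η ∧ (1 + M * Cb) * (M * η) < 1 := by
    refine ⟨1 / (2 * ((1 + M * Cb) * M + 1)), by positivity, ?_⟩
    have hp : 0 ≤ (1 + M * Cb) * M := by positivity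
    rw [← mul_assoc, mul_one_div, div_lt_one (by positivity)]
    linarith
  -- uniform commutator estimate
  have hu : ∀ᶠ t in atTop, ∀ (i j : Fin M) (s : unitInterval),
      ‖dg p (fun a : {a : Z × ℕ // (a.1 : Y) ∈ Y₀} => F a.1.1) * cut (kapDL Z Y₀) (γ s i j t) -
        cut (kapDL Z Y₀) (γ s i j t) * dg p (fun a => F a.1.1)‖ < η := by
    rw [Filter.eventually_all]
    intro i
    rw [Filter.eventually_all]
    intro j
    have hc : Continuous (fun s => γ s i j) := γ.continuous.matrix_elem i j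
    have := comm_uniform (Y₀ := Y₀) hF1 hF (Set.range fun s => γ s i j) (isCompact_range hc)
      (by rintro _ ⟨s, rfl⟩; exact hA' (hΓ1 s i j)) hη
    filter_upwards [this] with t ht s using ht _ ⟨s, rfl⟩
  have hu' : ∀ᶠ K : ℕ in atTop, ∀ (i j : Fin M) (s : unitInterval),
      ‖dg p (fun a : {a : Z × ℕ // (a.1 : Y) ∈ Y₀} => F a.1.1) *
        cut (kapDL Z Y₀) (γ s i j (K : ℝ≥0)) -
        cut (kapDL Z Y₀) (γ s i j (K : ℝ≥0)) * dg p (fun a => F a.1.1)‖ < η :=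
    (tendsto_natCast_atTop_atTop (R := ℝ≥0)).eventually hu
  obtain ⟨K, hK1, D, hD1, hD2, c, π, δ, hst, hδ, hFδ, hsum⟩ := (hu'.and hstart).exists
  have hroe : ∀ (s : unitInterval) (i j : Fin M), γ s i j (K : ℝ≥0) ∈ (roe p Z).s :=
    fun s i j => mem_roe_of_wloc (hA' (hΓ1 s i j)) _
  let ψ : (ℝ≥0 →ᵇ Op p (Z × ℕ)) → Op p {a : Z × ℕ // (a.1 : Y) ∈ Y₀} :=
    fun f => cut (kapDL Z Y₀) (f (K : ℝ≥0))
  have hψc : Continuous ψ :=
    (cutL p (kapDL Z Y₀)).continuous.comp (continuous_eval_const (K : ℝ≥0))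
  have hψa : ∀ f g, ψ (f + g) = ψ f + ψ g := fun f g => cut_add _ _ _
  have hψ0 : ψ 0 = 0 := cut_zero _
  have hψm : ∀ f, ∀ g ∈ A.s, ψ (f * g) = ψ f * ψ g := fun f g hg =>
    cut_mul _ _ _ (comm_of_roe hsep _ (mem_roe_of_wloc (hA' hg) _))
  have hψn : ∀ f, ‖ψ f‖ ≤ ‖f‖ := fun f =>
    (norm_cut_le _ _).trans (BoundedContinuousFunction.norm_coe_le_norm _ _)
  have hinv := @hstep (Op p {a : Z × ℕ // (a.1 : Y) ∈ Y₀}) ContinuousLinearMap.toNormedRing ψ
    hψa hψ0 hψm hψn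
  have key := detect (p := p) (fun a : {a : Z × ℕ // (a.1 : Y) ∈ Y₀} => F a.1.1)
    (fun a => hF1 _) M (fun s => (γ s).map ψ)
    (continuous_matrix fun i j => hψc.comp (γ.continuous.matrix_elem i j))
    (fun s i j => cut_cpt hcomp _ (hroe s i j)) Cb η hCb hη.le hCη
    hinv
    (fun s i j => (hK1 i j s).le)
    (by
      ext1 i j
      have h1 : γ 1 = 0 := γ.target
      change ψ (γ 1 i j) = 0
      rw [h1]
      exact hψ0)
    c π δ hM
    (by
      ext1 i j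
      have h1 : γ 0 = pad M (fun (_ _ : Fin 1) => x) := γ.source
      change ψ (γ 0 i j) = _
      rw [h1]
      unfold pad
      by_cases hij : i.1 < 1 ∧ j.1 < 1
      · rw [dif_pos hij, dif_pos hij]
        exact hst
      · rw [dif_neg hij, dif_neg hij]
        exact hψ0)
    hδ hFδ
  rw [key] at hsum
  exact zero_ne_one hsum

theorem detect_loc {Y : Type} [PseudoEMetricSpace Y] {Z : Set Y} (Y₀ : Set Y)
    (hsep : ∀ x ∈ Y₀, ∀ y, y ∉ Y₀ → edist x y = ∞) (hcomp : ∃ K, IsCompact K ∧ Y₀ ⊆ K)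
    (F : Y → ℂ) (hF1 : ∀ y, ‖F y‖ = 1) (C : ℝ≥0) (hF : LipschitzWith C F)
    (x : ℝ≥0 →ᵇ Op p (Z × ℕ)) (hx : QInv (loc p Z).s (fun (_ _ : Fin 1) => x))
    (hstart : ∀ᶠ K : ℕ in atTop, ∃ (D : Type) (_ : Fintype D) (_ : DecidableEq D)
      (c : D ↪ {a : Z × ℕ // (a.1 : Y) ∈ Y₀}) (π : Equiv.Perm D) (δ : D → ℝ),
      cut (Function.Embedding.subtype _) (x (K : ℝ≥0)) = push c (perm p π - 1) ∧
      (∀ d, |δ d| < 1 / 2) ∧
      (∀ d, F ((c (π d)).1.1) = Complex.exp (2 * Real.pi * Complex.I * (δ d : ℂ)) *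
        F ((c d).1.1)) ∧ ∑ d, δ d = 1) :
    K1.mk (loc p Z) ⟨1, _, hx⟩ ≠ K1.zero (loc p Z) :=
  detect_loc_gen Y₀ (loc p Z) (closure_mono fun f hf => ⟨hf.2.1, hf.2.2.2⟩) hsep hcomp F hF1 C hF x
    hx hstart

end

end Pool.Agent.H368.NV
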