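import Pool.Agent.H368.NV.Dyadic
import Pool.Agent.H368.NV.DetectLoc

/-!
# The class of a sequence of loops in the `K`-theory of the localization algebra
-/

set_option autoImplicit false
set_option linter.unusedVariables false

namespace Pool.Agent.H368.NV

open scoped ENNReal NNReal Topology BoundedContinuousFunction
open Filter

noncomputable section

variable {p : ℝ≥0∞} [hp1 : Fact (1 ≤ p)] [hpt : Fact (p ≠ ∞)]

/-- A sequence of periodic `2`-Lipschitz maps `q n : ℚ → Y` with period `N n`, with an enumeration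
of the indices `(n, t)` by elements of `Z × ℕ` over `q n t`. -/
structure Loops {Y : Type} [PseudoEMetricSpace Y] (Z : Set Y) (N : ℕ → ℕ) where
  /-- the maps -/
  q : ℕ → ℚ → Y
  per : ∀ n t, q n (t + N n) = q n t
  lip : ∀ n t t', edist (q n t) (q n t') ≤ ENNReal.ofReal (2 * |(t : ℝ) - t'|)
  /-- the enumeration -/
  c : Dy N ↪ Z × ℕ
  c_fst : ∀ a, ((c a).1 : Y) = q a.1 a.2
  finite : ∀ K : Set Y, IsCompact K → {n | ∃ t, q n t ∈ K}.Finite

variable {Y Y' : Type} [PseudoEMetricSpace Y] [PseudoEMetricSpace Y'] {Z : Set Y} {Z' : Set Y'}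
  {N : ℕ → ℕ}

/-- Composition with the push-forward along an injection of index sets. -/
def pushB {I J : Type} (ι : I ↪ J) (f : ℝ≥0 →ᵇ Op p I) : ℝ≥0 →ᵇ Op p J :=
  (pushL p ι).compLeftContinuousBounded ℝ≥0 f

@[simp] theorem pushB_apply {I J : Type} (ι : I ↪ J) (f : ℝ≥0 →ᵇ Op p I) (t : ℝ≥0) :
    pushB ι f t = push ι (f t) := rfl

/-- The function of `t` which gives the class of a sequence of loops. -/
def Loops.x (L : Loops Z N) (p : ℝ≥0∞) [Fact (1 ≤ p)] [Fact (p ≠ ∞)] (hN : ∀ n, 1 ≤ N n) :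
    ℝ≥0 →ᵇ Op p (Z × ℕ) := pushB L.c (dyU p N hN)

theorem Loops.q_int (L : Loops Z N) (n : ℕ) (t : ℚ) (m : ℤ) :
    L.q n (t + m * N n) = L.q n t := by
  induction m using Int.induction_on with
  | zero => simp
  | succ i ih =>
    have h1 := L.per n (t + (i : ℤ) * N n)
    rw [ih] at h1
    rw [← h1]
    congr 1
    push_cast
    ring
  | pred i ih =>
    have h1 := L.per n (t + ((-(i : ℤ) - 1 : ℤ) : ℚ) * N n)
    rw [← h1, ← ih]
    congr 1
    push_cast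
    ring

theorem Loops.edist_le (L : Loops Z N) {n k : ℕ} {a b : ℚ} {m : ℤ}
    (h : |a - b + m * N n| ≤ 2 / 2 ^ k) :
    edist (L.q n b) (L.q n a) ≤ ENNReal.ofReal (4 / 2 ^ k) := by
  rw [← L.q_int n a m]
  refine (L.lip n b _).trans ?_
  apply ENNReal.ofReal_le_ofReal
  have h1 : ((|a - b + m * N n| : ℚ) : ℝ) ≤ ((2 / 2 ^ k : ℚ) : ℝ) := by exact_mod_cast h
  have h2 : |(b : ℝ) - ((a + m * N n : ℚ) : ℝ)| = ((|a - b + m * N n| : ℚ) : ℝ) := by
    rw [abs_sub_comm, Rat.cast_abs]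
    congr 1
    push_cast
    ring
  rw [h2]
  have h3 : ((2 / 2 ^ k : ℚ) : ℝ) = 2 / 2 ^ k := by push_cast; ring
  rw [h3] at h1
  have h4 : (4 : ℝ) / 2 ^ k = 2 * (2 / 2 ^ k) := by ring
  rw [h4]
  linarith

/-- The condition on the entries of `dyU`, `dyV`. -/
def EntCond (p : ℝ≥0∞) [Fact (1 ≤ p)] [Fact (p ≠ ∞)] (N : ℕ → ℕ) (W : ℝ≥0 →ᵇ Op p (Dy N)) : Prop :=
  ∀ (k : ℕ) (t : ℝ≥0), (k : ℝ≥0) ≤ t → t ≤ k + 1 → ∀ a b : Dy N, ent (W t) a b ≠ 0 →
    a.1 = b.1 ∧ IsDy (k + 1) a.2 ∧ IsDy (k + 1) b.2 ∧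
      ∃ m : ℤ, |(a.2 : ℚ) - b.2 + m * N a.1| ≤ 2 / 2 ^ k

/-- A nonzero entry of `push ι T` comes from an entry of `T`. -/
theorem exists_of_ent_push {I J : Type} (ι : I ↪ J) (T : Op p I) {a b : J}
    (h : ent (push ι T) a b ≠ 0) : ∃ a' b' : I, ι a' = a ∧ ι b' = b ∧ ent T a' b' ≠ 0 := by
  by_cases ha : ∃ a', ι a' = a
  · by_cases hb : ∃ b', ι b' = b
    · obtain ⟨a', rfl⟩ := ha
      obtain ⟨b', rfl⟩ := hb
      rw [ent_push] at h
      exact ⟨a', b', rfl, rfl, h⟩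
    · push Not at hb
      exact absurd (ent_push_right ι T a hb) h
  · push Not at ha
    exact absurd (ent_push_left ι T ha b) h

theorem Loops.prop_le (L : Loops Z N) {W : ℝ≥0 →ᵇ Op p (Dy N)} (hW : EntCond p N W) {k : ℕ}
    {t : ℝ≥0} (h1 : (k : ℝ≥0) ≤ t) (h2 : t ≤ k + 1) :
    prop (push L.c (W t)) ≤ ENNReal.ofReal (4 / 2 ^ k) := by
  rw [prop_le_iff]
  intro a b hab
  obtain ⟨a', b', rfl, rfl, h3⟩ := exists_of_ent_push L.c _ hab
  obtain ⟨h4, -, -, m, h5⟩ := hW k t h1 h2 a' b' h3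
  have h6 : L.q b'.1 b'.2 = L.q a'.1 b'.2 := congrArg (fun n => L.q n (b'.2 : ℚ)) h4.symm
  rw [L.c_fst, L.c_fst, h6]
  exact L.edist_le h5

theorem finite_dy (N : ℕ → ℕ) {F : Set ℕ} (hF : F.Finite) (k : ℕ) :
    {a : Dy N | a.1 ∈ F ∧ IsDy k a.2}.Finite := by
  have hinj : Function.Injective (fun a : Dy N => ((a.1, (a.2 : ℚ)) : ℕ × ℚ)) := by
    rintro ⟨n, t, ht⟩ ⟨n', t', ht'⟩ h
    have h1 : n = n' := congrArg Prod.fst h
    subst h1
    have h2 : t = t' := congrArg Prod.snd h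
    subst h2
    rfl
  have hfin : (⋃ n ∈ F, ({n} : Set ℕ) ×ˢ
      ((fun z : ℤ => (z : ℚ) / 2 ^ k) '' Set.Icc 0 (N n * 2 ^ k))).Finite := by
    apply hF.biUnion
    intro n _
    exact (Set.finite_singleton n).prod ((Set.finite_Icc _ _).image _)
  refine (hfin.preimage hinj.injOn).subset ?_
  rintro ⟨n, t, ht⟩ ⟨hn, z, hz⟩
  refine Set.mem_iUnion₂.2 ⟨n, hn, Set.mem_singleton _, z, ?_, ?_⟩
  · change t * 2 ^ k = z at hz
    constructor
    · have h1 : (0 : ℚ) ≤ z := by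
        rw [← hz]
        have := ht.1
        positivity
      exact_mod_cast h1
    · have h1 : (z : ℚ) ≤ N n * 2 ^ k := by
        rw [← hz]
        have := ht.2.le
        gcongr
      exact_mod_cast h1
  · change t * 2 ^ k = z at hz
    change (z : ℚ) / 2 ^ k = t
    rw [← hz]
    field_simp

theorem Loops.locCpt (L : Loops Z N) {W : ℝ≥0 →ᵇ Op p (Dy N)} (hW : EntCond p N W) {k : ℕ}
    {t : ℝ≥0} (h1 : (k : ℝ≥0) ≤ t) (h2 : t ≤ k + 1) : LocCpt (push L.c (W t)) := by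
  classical
  intro K hK
  obtain ⟨S, hS⟩ : ∃ S : Set (Z × ℕ), S =
    L.c '' {a : Dy N | a.1 ∈ {n | ∃ t, L.q n t ∈ K} ∧ IsDy (k + 1) a.2} := ⟨_, rfl⟩
  have hSf : S.Finite := by
    rw [hS]
    exact (finite_dy N (L.finite K hK) (k + 1)).image _
  constructor
  · have h3 : chi p Z K * push L.c (W t) = ind p S * (chi p Z K * push L.c (W t)) := by
      apply op_ext
      intro a b
      rw [ent_ind_mul]
      by_cases ha : a ∈ S
      · rw [if_pos ha]
      · rw [if_neg ha]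
        unfold chi
        rw [ent_ind_mul]
        by_cases haK : a ∈ {a : Z × ℕ | (a.1 : Y) ∈ K}
        · rw [if_pos haK]
          by_contra h4
          obtain ⟨a', b', rfl, rfl, h5⟩ := exists_of_ent_push L.c _ h4
          obtain ⟨-, h6, -, -⟩ := hW k t h1 h2 a' b' h5
          apply ha
          rw [hS]
          refine ⟨a', ⟨⟨a'.2, ?_⟩, h6⟩, rfl⟩
          rw [← L.c_fst]
          exact haK
        · rw [if_neg haK]
    rw [h3]
    exact (isCompactOperator_ind_mul S hSf _).1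
  · have h3 : push L.c (W t) * chi p Z K = (push L.c (W t) * chi p Z K) * ind p S := by
      apply op_ext
      intro a b
      rw [ent_mul_ind]
      by_cases hb : b ∈ S
      · rw [if_pos hb]
      · rw [if_neg hb]
        unfold chi
        rw [ent_mul_ind]
        by_cases hbK : b ∈ {a : Z × ℕ | (a.1 : Y) ∈ K}
        · rw [if_pos hbK]
          by_contra h4
          obtain ⟨a', b', rfl, rfl, h5⟩ := exists_of_ent_push L.c _ h4
          obtain ⟨-, -, h6, -⟩ := hW k t h1 h2 a' b' h5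
          apply hb
          rw [hS]
          refine ⟨b', ⟨⟨b'.2, ?_⟩, h6⟩, rfl⟩
          rw [← L.c_fst]
          exact hbK
        · rw [if_neg hbK]
    rw [h3]
    exact (isCompactOperator_ind_mul S hSf _).2

theorem Loops.mem_locAlg (L : Loops Z N) {W : ℝ≥0 →ᵇ Op p (Dy N)} (hu : UniformContinuous W)
    (hW : EntCond p N W) : pushB L.c W ∈ locAlg p Z := by
  have hfl : ∀ t : ℝ≥0, ((⌊t⌋₊ : ℕ) : ℝ≥0) ≤ t ∧ t ≤ (⌊t⌋₊ : ℕ) + 1 := fun t =>
    ⟨Nat.floor_le (zero_le), (Nat.lt_floor_add_one t).le⟩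
  have hle : ∀ t, prop (pushB L.c W t) ≤ ENNReal.ofReal (4 / 2 ^ ⌊t⌋₊) := fun t => by
    rw [pushB_apply]
    exact L.prop_le hW (hfl t).1 (hfl t).2
  refine ⟨?_, ?_, ?_, ?_⟩
  · exact (pushL p L.c).uniformContinuous.comp hu
  · intro t
    apply subset_closure
    refine ⟨?_, ?_⟩
    · rw [pushB_apply]
      exact L.locCpt hW (hfl t).1 (hfl t).2
    · exact ((hle t).trans_lt ENNReal.ofReal_lt_top).ne
  · refine ((iSup_le fun t => ?_ : (⨆ t, prop (pushB L.c W t)) ≤ ENNReal.ofReal 4).trans_lt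
      ENNReal.ofReal_lt_top).ne
    refine (hle t).trans (ENNReal.ofReal_le_ofReal ?_)
    rw [div_le_iff₀ (by positivity)]
    have : (1 : ℝ) ≤ 2 ^ ⌊t⌋₊ := one_le_pow₀ (by norm_num)
    linarith
  · have h1 : Tendsto (fun k : ℕ => ENNReal.ofReal (4 / 2 ^ k)) atTop (𝓝 0) := by
      rw [← ENNReal.ofReal_zero]
      apply ENNReal.tendsto_ofReal
      have h2 : Tendsto (fun k : ℕ => (4 : ℝ) * (1 / 2) ^ k) atTop (𝓝 (4 * 0)) :=
        (tendsto_pow_atTop_nhds_zero_of_lt_one (by norm_num) (by norm_num)).const_mul 4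
      rw [mul_zero] at h2
      refine h2.congr fun k => ?_
      rw [one_div, inv_pow, div_eq_mul_inv]
    have h2 : Tendsto (fun t : ℝ≥0 => ENNReal.ofReal (4 / 2 ^ ⌊t⌋₊)) atTop (𝓝 0) :=
      h1.comp tendsto_nat_floor_atTop
    exact tendsto_of_tendsto_of_tendsto_of_le_of_le tendsto_const_nhds h2
      (fun t => zero_le) hle

theorem entCond_dyU (N : ℕ → ℕ) (hN : ∀ n, 1 ≤ N n) : EntCond p N (dyU p N hN) :=
  fun k t h1 h2 a b h => (dyUV_spec p N hN).2.2.2.2 k t h1 h2 a b (Or.inl h)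

theorem entCond_dyV (N : ℕ → ℕ) (hN : ∀ n, 1 ≤ N n) : EntCond p N (dyV p N hN) :=
  fun k t h1 h2 a b h => (dyUV_spec p N hN).2.2.2.2 k t h1 h2 a b (Or.inr h)

/-- `L.x` and the analogous function for `dyV` are in the localization algebra: bounded uniformly
continuous; for `k ≤ t ≤ k + 1` the entries are between points of distance at most `4 / 2 ^ k`, and
`chi K * push c (U t)` has only finitely many nonzero rows (indices `(n, s)` with `n` in the finite
set of `L.finite` and `IsDy (k + 1) s`), similarly the columns. -/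
theorem Loops.mem_loc (L : Loops Z N) (hN : ∀ n, 1 ≤ N n) :
    L.x p hN ∈ (loc p Z).s ∧ pushB L.c (dyV p N hN) ∈ (loc p Z).s :=
  ⟨subset_closure (L.mem_locAlg (dyUV_spec p N hN).1 (entCond_dyU N hN)),
    subset_closure (L.mem_locAlg (dyUV_spec p N hN).2.1 (entCond_dyV N hN))⟩

theorem qinv_fin_one {R : Type} [Ring R] [TopologicalSpace R] (A : Set R) {x y : R}
    (hx : x ∈ A) (hy : y ∈ A) (h1 : x + y + x * y = 0) (h2 : x + y + y * x = 0) :
    QInv A (m := 1) (fun _ _ => x) := by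
  refine (qinv_iff (m := 1) (fun _ _ => x)).2 ⟨fun _ _ => hx, Matrix.of fun _ _ => y,
    fun _ _ => hy, ?_, ?_⟩
  · have h3 : (fun _ _ => x : Matrix (Fin 1) (Fin 1) R) = Matrix.of fun _ _ => x := rfl
    rw [h3]
    ext i j
    simp [Matrix.mul_apply, h1]
  · have h3 : (fun _ _ => x : Matrix (Fin 1) (Fin 1) R) = Matrix.of fun _ _ => x := rfl
    rw [h3]
    ext i j
    simp [Matrix.mul_apply, h2]

theorem Loops.qinv_gen (L : Loops Z N) (hN : ∀ n, 1 ≤ N n) (A : Set (ℝ≥0 →ᵇ Op p (Z × ℕ)))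
    (h1 : L.x p hN ∈ A) (h2 : pushB L.c (dyV p N hN) ∈ A) :
    QInv A (fun (_ _ : Fin 1) => L.x p hN) := by
  refine qinv_fin_one A h1 h2 ?_ ?_
  · ext1 t
    have h1 := ((dyUV_spec p N hN).2.2.1 t).1
    have h2 : dyU p N hN t + dyV p N hN t + dyU p N hN t * dyV p N hN t = 0 := by
      have h3 : dyU p N hN t + dyV p N hN t + dyU p N hN t * dyV p N hN t =
          (1 + dyU p N hN t) * (1 + dyV p N hN t) - 1 := by noncomm_ring
      rw [h3, h1, sub_self]
    have h4 := congrArg (push L.c) h2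
    rw [push_add, push_add, push_mul, push_zero] at h4
    exact h4
  · ext1 t
    have h1 := ((dyUV_spec p N hN).2.2.1 t).2
    have h2 : dyU p N hN t + dyV p N hN t + dyV p N hN t * dyU p N hN t = 0 := by
      have h3 : dyU p N hN t + dyV p N hN t + dyV p N hN t * dyU p N hN t =
          (1 + dyV p N hN t) * (1 + dyU p N hN t) - 1 := by noncomm_ring
      rw [h3, h1, sub_self]
    have h4 := congrArg (push L.c) h2
    rw [push_add, push_add, push_mul, push_zero] at h4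
    exact h4

theorem Loops.qinv (L : Loops Z N) (hN : ∀ n, 1 ≤ N n) :
    QInv (loc p Z).s (fun (_ _ : Fin 1) => L.x p hN) :=
  L.qinv_gen hN _ (L.mem_loc hN).1 (L.mem_loc hN).2

/-- The class of a sequence of loops. -/
def Loops.cls (L : Loops Z N) (p : ℝ≥0∞) [Fact (1 ≤ p)] [Fact (p ≠ ∞)] (hN : ∀ n, 1 ≤ N n) :
    K1 (loc p Z) := K1.mk (loc p Z) ⟨1, _, L.qinv hN⟩

/-- The image of a sequence of loops under a map. -/
def Loops.map (L : Loops Z N) {β : Y → Y'} {ι : Z × ℕ ↪ Z' × ℕ} (h : Covers β ι) :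
    Loops Z' N where
  q := fun n t => β (L.q n t)
  per := fun n t => by rw [L.per]
  lip := fun n t t' => (h.lip _ _).trans (L.lip n t t')
  c := L.c.trans ι
  c_fst := fun a => by
    rw [← L.c_fst]
    exact h.fst (L.c a)
  finite := fun K' hK' => by
    obtain ⟨K, hK, h2⟩ := h.proper K' hK'
    exact (L.finite K hK).subset fun n ⟨t, ht⟩ => ⟨t, h2 ht⟩

theorem Loops.map_cls (L : Loops Z N) {β : Y → Y'} {ι : Z × ℕ ↪ Z' × ℕ} (h : Covers β ι)
    (hN : ∀ n, 1 ≤ N n) : K1.map (h.onLoc p) (L.cls p hN) = (L.map h).cls p hN := by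
  have h1 : Matrix.map (m := Fin 1) (n := Fin 1) (fun _ _ => L.x p hN) (h.onLoc p).f =
      fun (_ _ : Fin 1) => (L.map h).x p hN := by
    funext i j
    ext1 t
    exact push_trans L.c ι (dyU p N hN t)
  unfold Loops.cls
  rw [K1.map_mk]
  congr 1
  unfold CHom.onQ
  congr 1


theorem dy_ext_lc {N : ℕ → ℕ} {a b : Dy N} (h : a.1 = b.1) (h' : (a.2 : ℚ) = b.2) : a = b := by
  obtain ⟨n, t, ht⟩ := a
  obtain ⟨n', t', ht'⟩ := b
  change n = n' at h
  subst h
  change t = t' at h'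
  subst h'
  rfl

theorem dyE_lt {N : ℕ → ℕ} {n K m : ℕ} (hm : m + 1 = N n * 2 ^ K) (j : Fin (m + 1)) :
    0 ≤ ((j : ℕ) : ℚ) / 2 ^ K ∧ ((j : ℕ) : ℚ) / 2 ^ K < N n := by
  refine ⟨by positivity, ?_⟩
  rw [div_lt_iff₀ (by positivity)]
  have h1 : (j : ℕ) < N n * 2 ^ K := by
    rw [← hm]
    exact j.2
  exact_mod_cast h1

/-- The dyadic points of `[0, N n)`. -/
def dyE {N : ℕ → ℕ} {n K m : ℕ} (hm : m + 1 = N n * 2 ^ K) (j : Fin (m + 1)) : Dy N :=
  ⟨n, ⟨((j : ℕ) : ℚ) / 2 ^ K, dyE_lt hm j⟩⟩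

theorem dyE_fst {N : ℕ → ℕ} {n K m : ℕ} (hm : m + 1 = N n * 2 ^ K) (j : Fin (m + 1)) :
    (dyE hm j).1 = n := rfl

theorem dyE_snd {N : ℕ → ℕ} {n K m : ℕ} (hm : m + 1 = N n * 2 ^ K) (j : Fin (m + 1)) :
    ((dyE hm j).2 : ℚ) = ((j : ℕ) : ℚ) / 2 ^ K := rfl

theorem isDy_dyE {N : ℕ → ℕ} {n K m : ℕ} (hm : m + 1 = N n * 2 ^ K) (j : Fin (m + 1)) :
    IsDy K (dyE hm j).2 := by
  refine ⟨(j : ℕ), ?_⟩
  rw [dyE_snd, Int.cast_natCast]
  field_simp

theorem dyE_inj {N : ℕ → ℕ} {n K m : ℕ} (hm : m + 1 = N n * 2 ^ K) :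
    Function.Injective (dyE hm) := by
  intro i j h
  have h1 : ((dyE hm i).2 : ℚ) = (dyE hm j).2 := by rw [h]
  rw [dyE_snd, dyE_snd, div_left_inj' (by positivity)] at h1
  exact Fin.ext (by exact_mod_cast h1)

theorem dyE_surj {N : ℕ → ℕ} {n K m : ℕ} (hm : m + 1 = N n * 2 ^ K) {a : Dy N} (h : a.1 = n)
    (ha : IsDy K a.2) : ∃ i, dyE hm i = a := by
  obtain ⟨z, hz⟩ := ha
  have h0 := a.2.2.1
  have h1 := a.2.2.2
  have hz0 : (0 : ℚ) ≤ z := by
    rw [← hz]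
    positivity
  have hz0' : 0 ≤ z := by exact_mod_cast hz0
  obtain ⟨j, rfl⟩ := Int.eq_ofNat_of_zero_le hz0'
  have hj : j < m + 1 := by
    rw [hm]
    have h2 : (j : ℚ) < N n * 2 ^ K := by
      rw [Int.cast_natCast] at hz
      rw [← hz]
      have h3 : ((a.2 : ℚ)) < N n := by
        rw [← h]
        exact h1
      have : (0 : ℚ) < 2 ^ K := by positivity
      exact mul_lt_mul_of_pos_right h3 this
    exact_mod_cast h2
  refine ⟨⟨j, hj⟩, ?_⟩
  apply dy_ext_lc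
  · rw [dyE_fst, h]
  · rw [dyE_snd, ← Int.cast_natCast, ← hz]
    field_simp

theorem finRotate_val {m : ℕ} (j : Fin (m + 1)) :
    ((finRotate (m + 1) j : Fin (m + 1)) : ℕ) = if (j : ℕ) + 1 < m + 1 then (j : ℕ) + 1 else 0 := by
  by_cases h : (j : ℕ) + 1 < m + 1
  · rw [if_pos h]
    have h1 : j ≠ Fin.last m := by
      intro h2
      rw [h2, Fin.val_last] at h
      omega
    rw [coe_finRotate_of_ne_last h1]
  · rw [if_neg h]
    have h1 : j = Fin.last m := by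
      apply Fin.ext
      rw [Fin.val_last]
      have := j.2
      omega
    rw [h1, finRotate_last]
    rfl

theorem dyPerm_dyE {N : ℕ → ℕ} (hN : ∀ n, 1 ≤ N n) {n K m : ℕ} (hm : m + 1 = N n * 2 ^ K)
    (j : Fin (m + 1)) : dyPerm N hN K (dyE hm j) = dyE hm (finRotate (m + 1) j) := by
  apply dy_ext_lc
  · rw [dyPerm_fst, dyE_fst, dyE_fst]
  · rw [dyPerm_snd, dyE_snd, dyE_snd]
    have h1 : stepVal (N (dyE hm j).1) K (((j : ℕ) : ℚ) / 2 ^ K) =
        if ((j : ℕ) : ℚ) / 2 ^ K + 1 / 2 ^ K < N n then ((j : ℕ) : ℚ) / 2 ^ K + 1 / 2 ^ K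
        else 0 := by
      have h0 : IsDy K (((j : ℕ) : ℚ) / 2 ^ K) := isDy_dyE hm j
      rw [dyE_fst]
      unfold stepVal
      rw [if_pos h0]
    have h2 : (((j : ℕ) : ℚ) / 2 ^ K + 1 / 2 ^ K < N n) ↔ (j : ℕ) + 1 < m + 1 := by
      rw [← add_div, div_lt_iff₀ (by positivity)]
      constructor
      · intro h
        have h3 : (j : ℕ) + 1 < N n * 2 ^ K := by exact_mod_cast h
        omega
      · intro h
        have h3 : (j : ℕ) + 1 < N n * 2 ^ K := by omega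
        exact_mod_cast h3
    rw [h1, finRotate_val]
    by_cases h : (j : ℕ) + 1 < m + 1
    · rw [if_pos h, if_pos (h2.2 h)]
      push_cast
      ring
    · rw [if_neg h, if_neg (fun h3 => h (h2.1 h3))]
      simp

theorem dyPerm_of_not_isDy {N : ℕ → ℕ} (hN : ∀ n, 1 ≤ N n) {K : ℕ} {a : Dy N}
    (h : ¬ IsDy K a.2) : dyPerm N hN K a = a := by
  apply dy_ext_lc
  · rw [dyPerm_fst]
  · rw [dyPerm_snd]
    unfold stepVal
    rw [if_neg h]

/-- The matrix of the compression. -/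
theorem Loops.cut_eq (L : Loops Z N) (hN : ∀ n, 1 ≤ N n) {n : ℕ} {Y₀ : Set Y}
    (hq' : ∀ m, m ≠ n → ∀ t, L.q m t ∉ Y₀) {K m : ℕ} (hm : m + 1 = N n * 2 ^ K)
    (c : Fin (m + 1) ↪ {a : Z × ℕ // (a.1 : Y) ∈ Y₀}) (hc : ∀ i, (c i).1 = L.c (dyE hm i)) :
    cut (Function.Embedding.subtype _) (L.x p hN (K : ℝ≥0)) =
      push c (perm p (finRotate (m + 1)) - 1) := by
  classical
  apply op_ext
  intro a b
  rw [ent_cut]
  unfold Loops.x
  rw [pushB_apply, (dyUV_spec p N hN).2.2.2.1 K]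
  change ent (push L.c (perm p (dyPerm N hN K) - 1)) a.1 b.1 = _
  by_cases ha : ∃ a', L.c a' = a.1
  · by_cases hb : ∃ b', L.c b' = b.1
    · obtain ⟨a', ha'⟩ := ha
      obtain ⟨b', hb'⟩ := hb
      have han : a'.1 = n := by
        by_contra h
        apply hq' a'.1 h a'.2
        rw [← L.c_fst, ha']
        exact a.2
      have hbn : b'.1 = n := by
        by_contra h
        apply hq' b'.1 h b'.2
        rw [← L.c_fst, hb']
        exact b.2
      rw [← ha', ← hb', ent_push, ent_sub, ent_perm, ent_one]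
      by_cases had : IsDy K a'.2
      · by_cases hbd : IsDy K b'.2
        · obtain ⟨i, hi⟩ := dyE_surj hm han had
          obtain ⟨j, hj⟩ := dyE_surj hm hbn hbd
          have hai : a = c i := by
            apply Subtype.ext
            rw [hc, hi, ha']
          have hbj : b = c j := by
            apply Subtype.ext
            rw [hc, hj, hb']
          rw [hai, hbj, ent_push, ent_sub, ent_perm, ent_one, ← hi, ← hj, dyPerm_dyE]
          simp only [(dyE_inj hm).eq_iff]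
        · have h1 : ∀ i, c i ≠ b := by
            intro i hi
            apply hbd
            have h2 : L.c (dyE hm i) = L.c b' := by rw [← hc, hi, hb']
            rw [← L.c.injective h2]
            exact isDy_dyE hm i
          rw [ent_push_right c _ a h1, dyPerm_of_not_isDy hN hbd, sub_self]
      · have h1 : ∀ i, c i ≠ a := by
          intro i hi
          apply had
          have h2 : L.c (dyE hm i) = L.c a' := by rw [← hc, hi, ha']
          rw [← L.c.injective h2]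
          exact isDy_dyE hm i
        have h2 : a' = dyPerm N hN K b' ↔ a' = b' := by
          conv_lhs => rw [← dyPerm_of_not_isDy hN had]
          exact (dyPerm N hN K).injective.eq_iff
        rw [ent_push_left c _ h1]
        simp only [h2, sub_self]
    · push Not at hb
      rw [ent_push_right L.c _ _ hb, ent_push_right c]
      intro i hi
      apply hb (dyE hm i)
      rw [← hc, hi]
  · push Not at ha
    rw [ent_push_left L.c _ ha, ent_push_left c]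
    intro i hi
    apply ha (dyE hm i)
    rw [← hc, hi]

/-- Detection, for general algebras. -/
theorem Loops.cls_ne_zero_gen (L : Loops Z N) (hN : ∀ n, 1 ≤ N n)
    (A : ZSet (ℝ≥0 →ᵇ Op p (Z × ℕ)))
    (hA : A.s ⊆ closure {f | (∀ t, f t ∈ (roe p Z).s) ∧
      Tendsto (fun t => prop (f t)) atTop (𝓝 0)})
    (hx : QInv A.s (fun (_ _ : Fin 1) => L.x p hN)) (n : ℕ) (Y₀ : Set Y)
    (hsep : ∀ x ∈ Y₀, ∀ y, y ∉ Y₀ → edist x y = ∞) (hcomp : ∃ K, IsCompact K ∧ Y₀ ⊆ K)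
    (hq : ∀ t, L.q n t ∈ Y₀) (hq' : ∀ m, m ≠ n → ∀ t, L.q m t ∉ Y₀)
    (F : Y → ℂ) (hF1 : ∀ y, ‖F y‖ = 1) (C : ℝ≥0) (hF : LipschitzWith C F)
    (Φ : ℚ → ℝ)
    (hΦ : ∀ t : ℚ, 0 ≤ t → t ≤ N n →
      F (L.q n t) = Complex.exp (2 * Real.pi * Complex.I * (Φ t : ℂ)))
    (B : ℝ) (hB : ∀ t t' : ℚ, 0 ≤ t → t ≤ N n → 0 ≤ t' → t' ≤ N n →
      |Φ t - Φ t'| ≤ B * |(t : ℝ) - t'|)
    (hend : Φ (N n) - Φ 0 = 1) : K1.mk A ⟨1, _, hx⟩ ≠ K1.zero A := by
  refine detect_loc_gen Y₀ A hA hsep hcomp F hF1 C hF (L.x p hN) hx ?_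
  have hlarge : ∀ᶠ K : ℕ in atTop, B * (1 / 2) ^ K < 1 / 2 := by
    have h2 : Tendsto (fun k : ℕ => B * (1 / 2 : ℝ) ^ k) atTop (𝓝 (B * 0)) :=
      (tendsto_pow_atTop_nhds_zero_of_lt_one (by norm_num) (by norm_num)).const_mul B
    rw [mul_zero] at h2
    exact h2.eventually_lt_const (by norm_num)
  filter_upwards [hlarge] with K hK
  obtain ⟨m, hm⟩ : ∃ m : ℕ, m + 1 = N n * 2 ^ K := by
    refine ⟨N n * 2 ^ K - 1, ?_⟩
    have h1 : 0 < N n * 2 ^ K := Nat.mul_pos (hN n) (by positivity)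
    omega
  have hcY : ∀ i : Fin (m + 1), ((L.c (dyE hm i)).1 : Y) ∈ Y₀ := by
    intro i
    rw [L.c_fst]
    exact hq _
  obtain ⟨c, hc⟩ : ∃ c : Fin (m + 1) ↪ {a : Z × ℕ // (a.1 : Y) ∈ Y₀},
      ∀ i, (c i).1 = L.c (dyE hm i) :=
    ⟨⟨fun i => ⟨L.c (dyE hm i), hcY i⟩, fun i j h => dyE_inj hm
      (L.c.injective (congrArg Subtype.val h))⟩, fun _ => rfl⟩
  have hpt : ∀ i : Fin (m + 1), (((c i).1.1 : Z) : Y) = L.q n (((i : ℕ) : ℚ) / 2 ^ K) := by
    intro i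
    rw [hc, L.c_fst]
    rfl
  have hle : ∀ i : Fin (m + 1), (((i : ℕ) + 1 : ℕ) : ℚ) / 2 ^ K ≤ N n := by
    intro i
    rw [div_le_iff₀ (by positivity)]
    have h1 : (i : ℕ) + 1 ≤ N n * 2 ^ K := by
      rw [← hm]
      exact i.2
    exact_mod_cast h1
  have hnext : ∀ i : Fin (m + 1), L.q n (((finRotate (m + 1) i : Fin (m + 1)) : ℕ) / 2 ^ K) =
      L.q n ((((i : ℕ) + 1 : ℕ) : ℚ) / 2 ^ K) := by
    intro i
    rw [finRotate_val]
    by_cases h : (i : ℕ) + 1 < m + 1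
    · rw [if_pos h]
    · rw [if_neg h]
      have h1 : (i : ℕ) + 1 = N n * 2 ^ K := by
        rw [← hm]
        have := i.2
        omega
      rw [h1, Nat.cast_zero, zero_div, ← L.per n 0]
      congr 1
      push_cast
      field_simp
      ring
  refine ⟨Fin (m + 1), inferInstance, inferInstance, c, finRotate (m + 1),
    fun i => Φ ((((i : ℕ) + 1 : ℕ) : ℚ) / 2 ^ K) - Φ (((i : ℕ) : ℚ) / 2 ^ K), ?_, ?_, ?_, ?_⟩
  · exact L.cut_eq hN hq' hm c hc
  · intro i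
    have h1 := hB ((((i : ℕ) + 1 : ℕ) : ℚ) / 2 ^ K) (((i : ℕ) : ℚ) / 2 ^ K) (by positivity) (hle i)
      (dyE_lt hm i).1 (dyE_lt hm i).2.le
    refine h1.trans_lt ?_
    have h2 : ((((((i : ℕ) + 1 : ℕ) : ℚ) / 2 ^ K : ℚ) : ℝ)) - (((((i : ℕ) : ℚ) / 2 ^ K : ℚ)) : ℝ) =
        (1 / 2) ^ K := by
      push_cast
      rw [one_div, inv_pow]
      ring
    rw [h2, abs_of_pos (by positivity)]
    exact hK
  · intro i
    rw [hpt, hpt, hnext, hΦ _ (by positivity) (hle i), hΦ _ (dyE_lt hm i).1 (dyE_lt hm i).2.le,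
      ← Complex.exp_add]
    congr 1
    push_cast
    ring
  · have h1 := Fin.sum_univ_eq_sum_range
      (fun i : ℕ => Φ (((i + 1 : ℕ) : ℚ) / 2 ^ K) - Φ ((i : ℚ) / 2 ^ K)) (m + 1)
    rw [h1, Finset.sum_range_sub (fun i : ℕ => Φ ((i : ℚ) / 2 ^ K)) (m + 1), ← hend]
    congr 2
    · rw [hm]
      push_cast
      field_simp
    · simp

end

end Pool.Agent.H368.NV
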