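import Pool.Agent.H368.NV.Cx

/-!
# Phase functions on simplicial complexes

PROOF SKETCH. Define `F x = exp (2πi (θ u + ∑_v x_v δ(u, v)))` for some vertex `u` of the support of `x`.
If `u, u'` are vertices of a simplex containing the support of `x` then
`θ u' + ∑ x_v δ(u', v) = θ u' - δ(u, u') + ∑ x_v δ(u, v)` (as `∑ x_v = 1`) and
`θ u' - δ(u, u') ∈ θ u - ℤ`, so the formula holds for all `u` in all simplices containing the support.
If `x, y` lie in a common simplex then, using the same `u` for both,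
`|F x - F y| ≤ 2π |∑ (x_v - y_v) δ(u, v)| ≤ 2π B l1 x y`. Sum over a chain.
-/

set_option autoImplicit false

namespace Pool.Agent.H368.NV

open scoped ENNReal NNReal Topology

/-- The angle of the point `x` seen from the vertex `u`. -/
noncomputable def phAng {W : Type} {K : Set (Finset W)} (θ : W → ℝ) (δ : W → W → ℝ) (x : Pt K)
    (u : W) : ℝ :=
  θ u + x.w.sum fun v t => t * δ u v

theorem phAng_change {W : Type} {K : Set (Finset W)} (θ : W → ℝ) (δ : W → W → ℝ)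
    (hadd : ∀ σ ∈ K, ∀ u ∈ σ, ∀ v ∈ σ, ∀ w ∈ σ, δ u v + δ v w = δ u w)
    (hexp : ∀ σ ∈ K, ∀ u ∈ σ, ∀ v ∈ σ, ∃ z : ℤ, δ u v = θ v - θ u + z)
    (x : Pt K) (σ : Finset W) (hσ : σ ∈ K) (hx : x.w.support ⊆ σ) (u u' : W) (hu : u ∈ σ)
    (hu' : u' ∈ σ) : ∃ z : ℤ, phAng θ δ x u' = phAng θ δ x u + z := by
  obtain ⟨z, hz⟩ := hexp σ hσ u' hu' u hu
  refine ⟨z, ?_⟩
  have h1 : (x.w.sum fun v t => t * δ u' v) = δ u' u + x.w.sum fun v t => t * δ u v := by
    have h2 : (x.w.sum fun v t => t * δ u' v)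
        = x.w.sum fun v t => (t * δ u' u + t * δ u v) := by
      refine Finsupp.sum_congr fun v hv => ?_
      rw [← hadd σ hσ u' hu' u hu v (hx hv)]
      ring
    rw [h2, Finsupp.sum_add]
    congr 1
    have h3 := x.sum_one
    rw [← Finsupp.sum_mul, h3, one_mul]
  unfold phAng
  rw [h1, hz]
  ring

theorem exp_int_shift (a : ℝ) (z : ℤ) :
    Complex.exp (2 * Real.pi * Complex.I * (((a + z : ℝ)) : ℂ))
      = Complex.exp (2 * Real.pi * Complex.I * ((a : ℝ) : ℂ)) := by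
  have : 2 * (Real.pi : ℂ) * Complex.I * (((a + z : ℝ)) : ℂ)
      = 2 * Real.pi * Complex.I * ((a : ℝ) : ℂ) + z * (2 * Real.pi * Complex.I) := by
    push_cast
    ring
  rw [this, Complex.exp_add, Complex.exp_int_mul_two_pi_mul_I, mul_one]

theorem norm_exp_sub_le (a b : ℝ) :
    ‖Complex.exp (2 * Real.pi * Complex.I * ((a : ℝ) : ℂ))
      - Complex.exp (2 * Real.pi * Complex.I * ((b : ℝ) : ℂ))‖ ≤ 8 * |a - b| := by
  have h1 : Complex.exp (2 * Real.pi * Complex.I * ((a : ℝ) : ℂ))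
      - Complex.exp (2 * Real.pi * Complex.I * ((b : ℝ) : ℂ))
      = Complex.exp (2 * Real.pi * Complex.I * ((b : ℝ) : ℂ))
        * (Complex.exp (Complex.I * ((2 * Real.pi * (a - b) : ℝ) : ℂ)) - 1) := by
    rw [mul_sub, ← Complex.exp_add, mul_one]
    congr 2
    push_cast
    ring
  have h2 : ‖Complex.exp (2 * Real.pi * Complex.I * ((b : ℝ) : ℂ))‖ = 1 := by
    have : 2 * (Real.pi : ℂ) * Complex.I * ((b : ℝ) : ℂ) = ((2 * Real.pi * b : ℝ) : ℂ) * Complex.I := by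
      push_cast
      ring
    rw [this, Complex.norm_exp_ofReal_mul_I]
  rw [h1, norm_mul, h2, one_mul]
  refine (Real.norm_exp_I_mul_ofReal_sub_one_le).trans ?_
  rw [Real.norm_eq_abs, abs_mul, abs_of_pos (by positivity : (0:ℝ) < 2 * Real.pi)]
  have := Real.pi_lt_four
  nlinarith [abs_nonneg (a - b), Real.pi_lt_four]

theorem phAng_sub {W : Type} {K : Set (Finset W)} (θ : W → ℝ) (δ : W → W → ℝ) (B : ℝ≥0)
    (hB : ∀ σ ∈ K, ∀ u ∈ σ, ∀ v ∈ σ, |δ u v| ≤ B)
    (x y : Pt K) (σ : Finset W) (hσ : σ ∈ K) (hx : x.w.support ⊆ σ) (hy : y.w.support ⊆ σ)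
    (u : W) (hu : u ∈ σ) : |phAng θ δ x u - phAng θ δ y u| ≤ B * l1 x y := by
  classical
  have h1 : phAng θ δ x u - phAng θ δ y u = ∑ v ∈ σ, (x.w v - y.w v) * δ u v := by
    unfold phAng
    rw [Finsupp.sum_of_support_subset _ hx _ (by simp),
      Finsupp.sum_of_support_subset _ hy _ (by simp)]
    rw [add_sub_add_left_eq_sub, ← Finset.sum_sub_distrib]
    refine Finset.sum_congr rfl fun v _ => by ring
  have h2 : l1 x y = ∑ v ∈ σ, |x.w v - y.w v| := by
    unfold l1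
    rw [Finsupp.sum_of_support_subset (s := σ) _ _ _ (by simp)]
    · rfl
    · intro v hv
      by_contra hn
      have h3 : x.w v = 0 := by
        by_contra h
        exact hn (hx (Finsupp.mem_support_iff.2 h))
      have h4 : y.w v = 0 := by
        by_contra h
        exact hn (hy (Finsupp.mem_support_iff.2 h))
      rw [Finsupp.mem_support_iff] at hv
      apply hv
      rw [Finsupp.sub_apply, h3, h4, sub_zero]
  rw [h1, h2, Finset.mul_sum]
  refine (Finset.abs_sum_le_sum_abs _ _).trans (Finset.sum_le_sum fun v hv => ?_)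
  rw [abs_mul, mul_comm]
  exact mul_le_mul_of_nonneg_right (hB σ hσ u hu v hv) (abs_nonneg _)

theorem exists_phase {W : Type} (K : Set (Finset W)) (θ : W → ℝ) (δ : W → W → ℝ) (B : ℝ≥0)
    (hB0 : 0 < B)
    (hB : ∀ σ ∈ K, ∀ u ∈ σ, ∀ v ∈ σ, |δ u v| ≤ B)
    (hadd : ∀ σ ∈ K, ∀ u ∈ σ, ∀ v ∈ σ, ∀ w ∈ σ, δ u v + δ v w = δ u w)
    (hexp : ∀ σ ∈ K, ∀ u ∈ σ, ∀ v ∈ σ, ∃ z : ℤ, δ u v = θ v - θ u + z) :
    ∃ F : Pt K → ℂ, (∀ x, ‖F x‖ = 1) ∧ LipschitzWith (8 * B) F ∧
      ∀ x : Pt K, ∀ u, x.w u ≠ 0 →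
        F x = Complex.exp (2 * Real.pi * Complex.I *
          ((θ u + x.w.sum fun v t => t * δ u v : ℝ) : ℂ)) := by
  classical
  have hne : ∀ x : Pt K, ∃ u, x.w u ≠ 0 := by
    intro x
    by_contra hcon
    push Not at hcon
    have h0 : x.w = 0 := by
      ext v
      exact hcon v
    have := x.sum_one
    rw [h0, Finsupp.sum_zero_index] at this
    exact zero_ne_one this
  choose p hp using hne
  let F : Pt K → ℂ := fun x =>
    Complex.exp (2 * Real.pi * Complex.I * ((phAng θ δ x (p x) : ℝ) : ℂ))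
  have key : ∀ (x : Pt K) (σ : Finset W), σ ∈ K → x.w.support ⊆ σ → ∀ u ∈ σ,
      F x = Complex.exp (2 * Real.pi * Complex.I * ((phAng θ δ x u : ℝ) : ℂ)) := by
    intro x σ hσ hx u hu
    obtain ⟨z, hz⟩ := phAng_change θ δ hadd hexp x σ hσ hx u (p x) hu
      (hx (Finsupp.mem_support_iff.2 (hp x)))
    show Complex.exp (2 * Real.pi * Complex.I * ((phAng θ δ x (p x) : ℝ) : ℂ)) = _
    rw [hz]
    exact exp_int_shift _ _
  have hcommon : ∀ x y : Pt K, Common x y → ‖F x - F y‖ ≤ 8 * B * l1 x y := by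
    rintro x y ⟨σ, hσ, hx, hy⟩
    have hu : p x ∈ σ := hx (Finsupp.mem_support_iff.2 (hp x))
    rw [key x σ hσ hx (p x) hu, key y σ hσ hy (p x) hu]
    refine (norm_exp_sub_le _ _).trans ?_
    have := phAng_sub θ δ B hB x y σ hσ hx hy (p x) hu
    calc 8 * |phAng θ δ x (p x) - phAng θ δ y (p x)| ≤ 8 * (B * l1 x y) := by
          exact mul_le_mul_of_nonneg_left this (by norm_num)
      _ = 8 * B * l1 x y := by ring
  have hchain : ∀ (x y : Pt K) (ℓ : ℝ), Chain x y ℓ → ‖F x - F y‖ ≤ 8 * B * ℓ := by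
    intro x y ℓ h
    induction h with
    | refl x => simp
    | @cons x y z ℓ hxy _ ih =>
      calc ‖F x - F z‖ = ‖(F x - F y) + (F y - F z)‖ := by
            congr 1
            ring
        _ ≤ ‖F x - F y‖ + ‖F y - F z‖ := norm_add_le _ _
        _ ≤ 8 * B * l1 x y + 8 * B * ℓ := add_le_add (hcommon x y hxy) ih
        _ = 8 * B * (l1 x y + ℓ) := by ring
  refine ⟨F, ?_, ?_, ?_⟩
  · intro x
    have : 2 * (Real.pi : ℂ) * Complex.I * ((phAng θ δ x (p x) : ℝ) : ℂ)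
        = ((2 * Real.pi * phAng θ δ x (p x) : ℝ) : ℂ) * Complex.I := by
      push_cast
      ring
    show ‖Complex.exp (2 * Real.pi * Complex.I * ((phAng θ δ x (p x) : ℝ) : ℂ))‖ = 1
    rw [this, Complex.norm_exp_ofReal_mul_I]
  · intro x y
    show edist (F x) (F y) ≤ ((8 * B : ℝ≥0) : ℝ≥0∞) * pathDist x y
    unfold pathDist
    have hc0 : ((8 * B : ℝ≥0) : ℝ≥0∞) ≠ 0 := by
      simp [hB0.ne']
    rw [ENNReal.mul_iInf_of_ne hc0 ENNReal.coe_ne_top]
    refine le_iInf fun ℓ => ?_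
    rw [ENNReal.mul_iInf_of_ne hc0 ENNReal.coe_ne_top]
    refine le_iInf fun hℓ => ?_
    rw [edist_dist, dist_eq_norm]
    have h1 : ((8 * B : ℝ≥0) : ℝ≥0∞) = ENNReal.ofReal (8 * B) := by
      rw [ENNReal.ofReal, Real.toNNReal_mul (by norm_num)]
      simp
    rw [h1, ← ENNReal.ofReal_mul (by positivity)]
    exact ENNReal.ofReal_le_ofReal (hchain x y ℓ hℓ)
  · intro x u hu
    exact key x x.w.support x.mem (Finset.Subset.refl _) u (Finsupp.mem_support_iff.2 hu)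

end Pool.Agent.H368.NV
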