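import Pool.Agent.H368.NV.Cx

/-!
# Polygons in simplicial complexes
-/

set_option autoImplicit false

namespace Pool.Agent.H368.NV

open scoped ENNReal NNReal Topology

noncomputable section

variable {W W' : Type}

/-- A bi-infinite sequence of vertices such that consecutive ones span a simplex. -/
def IsPoly (K : Set (Finset W)) (u : ℤ → W) : Prop :=
  ∀ j, ∀ σ : Finset W, (∀ v, v ∈ σ ↔ v = u j ∨ v = u (j + 1)) → σ ∈ K

namespace PolyAux

theorem two_nonneg {a b : W} {p q : ℝ} (hp : 0 ≤ p) (hq : 0 ≤ q) (v : W) :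
    0 ≤ (Finsupp.single a p + Finsupp.single b q) v := by
  classical
  rw [Finsupp.add_apply, Finsupp.single_apply, Finsupp.single_apply]
  split_ifs <;> simp [hp, hq, add_nonneg]

theorem two_sum {a b : W} (p q : ℝ) (h : W → ℝ) :
    ((Finsupp.single a p + Finsupp.single b q).sum fun v t => t * h v) = p * h a + q * h b := by
  rw [Finsupp.sum_add_index' (by intro v; simp) (by intro v x y; ring),
    Finsupp.sum_single_index (by simp), Finsupp.sum_single_index (by simp)]

theorem two_sum_one {a b : W} (p q : ℝ) :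
    ((Finsupp.single a p + Finsupp.single b q).sum fun _ t => t) = p + q := by
  have := two_sum (a := a) (b := b) p q (fun _ => 1)
  simpa using this

theorem two_ne_zero {a b : W} {p q : ℝ} {v : W}
    (h : (Finsupp.single a p + Finsupp.single b q) v ≠ 0) : v = a ∨ v = b := by
  classical
  by_contra hne
  push Not at hne
  apply h
  rw [Finsupp.add_apply, Finsupp.single_apply, Finsupp.single_apply, if_neg (Ne.symm hne.1),
    if_neg (Ne.symm hne.2), add_zero]

theorem two_mem {K : Set (Finset W)} (hK : DownClosed K) {u : ℤ → W} (hu : IsPoly K u) (j : ℤ)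
    {p q : ℝ} (hpq : p + q = 1) :
    (Finsupp.single (u j) p + Finsupp.single (u (j + 1)) q).support ∈ K := by
  classical
  have h1 : ({u j, u (j + 1)} : Finset W) ∈ K := hu j _ (by simp)
  refine hK _ h1 _ ?_ ?_
  · intro v hv
    rw [Finsupp.mem_support_iff] at hv
    simpa using two_ne_zero hv
  · by_contra hne
    rw [Finset.not_nonempty_iff_eq_empty, Finsupp.support_eq_empty] at hne
    have h2 := two_sum_one (a := u j) (b := u (j + 1)) p q
    rw [hne, Finsupp.sum_zero_index] at h2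
    linarith

theorem Pt_ext {K : Set (Finset W)} {x y : Pt K} (h : x.w = y.w) : x = y := by
  cases x
  cases y
  simp only at h
  subst h
  rfl

theorem sum_abs_add (f g : W →₀ ℝ) :
    ((f + g).sum fun _ t => |t|) ≤ (f.sum fun _ t => |t|) + g.sum fun _ t => |t| := by
  classical
  rw [Finsupp.sum_of_support_subset (f + g) (s := f.support ∪ g.support) Finsupp.support_add _
      (by simp),
    Finsupp.sum_of_support_subset f (s := f.support ∪ g.support) Finset.subset_union_left _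
      (by simp),
    Finsupp.sum_of_support_subset g (s := f.support ∪ g.support) Finset.subset_union_right _
      (by simp), ← Finset.sum_add_distrib]
  refine Finset.sum_le_sum fun v _ => ?_
  rw [Finsupp.add_apply]
  exact abs_add_le _ _

end PolyAux

open PolyAux

/-- The point `(1 - {t}) u(⌊t⌋) + {t} u(⌊t⌋ + 1)` of the polygon through the vertices `u j`. -/
def poly {K : Set (Finset W)} (hK : DownClosed K) {u : ℤ → W} (hu : IsPoly K u) (t : ℚ) : Pt K where
  w := Finsupp.single (u ⌊t⌋) ((1 - Int.fract t : ℚ) : ℝ) +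
    Finsupp.single (u (⌊t⌋ + 1)) ((Int.fract t : ℚ) : ℝ)
  nonneg := by
    refine two_nonneg ?_ ?_
    · exact_mod_cast sub_nonneg.2 (Int.fract_lt_one t).le
    · exact_mod_cast Int.fract_nonneg t
  sum_one := by
    rw [two_sum_one]
    push_cast
    ring
  mem := by
    refine two_mem hK hu ⌊t⌋ ?_
    push_cast
    ring

namespace PolyAux

theorem poly_w {K : Set (Finset W)} (hK : DownClosed K) {u : ℤ → W} (hu : IsPoly K u)
    (t : ℚ) (j : ℤ) (h1 : (j : ℚ) ≤ t) (h2 : t ≤ j + 1) :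
    (poly hK hu t).w = Finsupp.single (u j) (1 - ((t : ℝ) - j)) +
      Finsupp.single (u (j + 1)) ((t : ℝ) - j) := by
  rcases h2.lt_or_eq with h3 | h3
  · have hf : ⌊t⌋ = j := by
      rw [Int.floor_eq_iff]
      exact ⟨h1, h3⟩
    have hfr : Int.fract t = t - j := by
      rw [Int.fract, hf]
    simp only [poly, hf, hfr]
    push_cast
    rfl
  · have hf : ⌊t⌋ = j + 1 := by
      rw [Int.floor_eq_iff]
      push_cast
      exact ⟨h3.ge, by linarith⟩
    have hfr : Int.fract t = 0 := by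
      rw [Int.fract, hf, h3]
      push_cast
      ring
    simp only [poly, hf, hfr]
    rw [h3]
    push_cast
    simp

end PolyAux

theorem poly_mem_rat {K : Set (Finset W)} (hK : DownClosed K) {u : ℤ → W} (hu : IsPoly K u)
    (t : ℚ) : poly hK hu t ∈ rat K := by
  classical
  intro v
  simp only [poly]
  rw [Finsupp.add_apply, Finsupp.single_apply, Finsupp.single_apply]
  refine ⟨(if u ⌊t⌋ = v then 1 - Int.fract t else 0) +
    (if u (⌊t⌋ + 1) = v then Int.fract t else 0), ?_⟩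
  split_ifs <;> push_cast <;> ring

theorem poly_add {K : Set (Finset W)} (hK : DownClosed K) {u : ℤ → W} (hu : IsPoly K u)
    (N : ℕ) (hN : ∀ j, u (j + N) = u j) (t : ℚ) : poly hK hu (t + N) = poly hK hu t := by
  apply Pt_ext
  simp only [poly]
  rw [Int.floor_add_natCast, Int.fract_add_natCast, hN, add_right_comm, hN]

namespace PolyAux

theorem edist_same {K : Set (Finset W)} (hK : DownClosed K) {u : ℤ → W} (hu : IsPoly K u)
    (t t' : ℚ) (j : ℤ) (h1 : (j : ℚ) ≤ t) (h2 : t ≤ j + 1) (h1' : (j : ℚ) ≤ t') (h2' : t' ≤ j + 1) :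
    edist (poly hK hu t) (poly hK hu t') ≤ ENNReal.ofReal (2 * |(t : ℝ) - t'|) := by
  classical
  have hw := poly_w hK hu t j h1 h2
  have hw' := poly_w hK hu t' j h1' h2'
  have hc : Common (poly hK hu t) (poly hK hu t') := by
    refine ⟨{u j, u (j + 1)}, hu j _ (by simp), ?_, ?_⟩
    · intro v hv
      rw [Finsupp.mem_support_iff, hw] at hv
      simpa using two_ne_zero hv
    · intro v hv
      rw [Finsupp.mem_support_iff, hw'] at hv
      simpa using two_ne_zero hv
  refine (edist_le_of_common hc).trans (ENNReal.ofReal_le_ofReal ?_)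
  unfold l1
  have h3 : (poly hK hu t).w - (poly hK hu t').w =
      Finsupp.single (u j) ((t' : ℝ) - t) + Finsupp.single (u (j + 1)) ((t : ℝ) - t') := by
    rw [hw, hw', add_sub_add_comm, ← Finsupp.single_sub, ← Finsupp.single_sub]
    congr 2 <;> ring
  rw [h3]
  refine (sum_abs_add _ _).trans ?_
  rw [Finsupp.sum_single_index (by simp), Finsupp.sum_single_index (by simp), abs_sub_comm]
  linarith

theorem edist_ind {K : Set (Finset W)} (hK : DownClosed K) {u : ℤ → W} (hu : IsPoly K u)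
    (n : ℕ) : ∀ t t' : ℚ, t ≤ t' → t' ≤ ⌊t⌋ + 1 + n →
    edist (poly hK hu t) (poly hK hu t') ≤ ENNReal.ofReal (2 * ((t' : ℝ) - t)) := by
  have habs : ∀ t t' : ℚ, t ≤ t' → |(t : ℝ) - t'| = t' - t := by
    intro t t' h
    have h' : (t : ℝ) ≤ t' := by exact_mod_cast h
    rw [abs_sub_comm, abs_of_nonneg (by linarith)]
  induction n with
  | zero =>
    intro t t' h h'
    have := edist_same hK hu t t' ⌊t⌋ (Int.floor_le t) (Int.lt_floor_add_one t).le
      ((Int.floor_le t).trans h) (by simpa using h')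
    rwa [habs t t' h] at this
  | succ n ih =>
    intro t t' h h'
    rcases le_total t' (⌊t⌋ + 1 + n) with h1 | h1
    · exact ih t t' h h1
    · have h2 : t ≤ ⌊t⌋ + 1 + n := by
        have := (Int.lt_floor_add_one t).le
        have h3 : (0 : ℚ) ≤ n := Nat.cast_nonneg n
        linarith
      have h3 := ih t (⌊t⌋ + 1 + n) h2 le_rfl
      have h4 := edist_same hK hu (⌊t⌋ + 1 + n) t' (⌊t⌋ + 1 + n) (by push_cast; exact le_rfl)
        (by push_cast; linarith) (by push_cast; exact h1) (by push_cast at h' ⊢; linarith)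
      rw [habs _ _ h1] at h4
      refine (edist_triangle _ _ _).trans ((add_le_add h3 h4).trans ?_)
      have h2' : (t : ℝ) ≤ ((⌊t⌋ + 1 + n : ℚ) : ℝ) := by exact_mod_cast h2
      have h1' : ((⌊t⌋ + 1 + n : ℚ) : ℝ) ≤ t' := by exact_mod_cast h1
      rw [← ENNReal.ofReal_add (by linarith) (by linarith)]
      apply le_of_eq
      congr 1
      ring

end PolyAux

/-- The polygon is `2`-Lipschitz. (First for `t, t'` in the same interval `[j, j + 1]`; note that
`poly t` for `t = j + 1` is the vertex `u (j + 1)`.) -/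
theorem edist_poly_le {K : Set (Finset W)} (hK : DownClosed K) {u : ℤ → W} (hu : IsPoly K u)
    (t t' : ℚ) : edist (poly hK hu t) (poly hK hu t') ≤ ENNReal.ofReal (2 * |(t : ℝ) - t'|) := by
  have key : ∀ t t' : ℚ, t ≤ t' →
      edist (poly hK hu t) (poly hK hu t') ≤ ENNReal.ofReal (2 * |(t : ℝ) - t'|) := by
    intro t t' h
    have h' : (t : ℝ) ≤ t' := by exact_mod_cast h
    rw [abs_sub_comm, abs_of_nonneg (by linarith)]
    obtain ⟨n, hn⟩ := exists_nat_ge (t' - t)
    refine edist_ind hK hu n t t' h ?_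
    have := (Int.lt_floor_add_one t).le
    linarith
  rcases le_total t t' with h | h
  · exact key t t' h
  · rw [edist_comm, abs_sub_comm]
    exact key t' t h

theorem map_poly {K : Set (Finset W)} {K' : Set (Finset W')} (hK : DownClosed K)
    (hK' : DownClosed K') {f : W → W'} (h : IsSimplicial K K' f) {u : ℤ → W} (hu : IsPoly K u)
    (hu' : IsPoly K' (fun j => f (u j))) (t : ℚ) :
    h.map (poly hK hu t) = poly hK' hu' t := by
  apply Pt_ext
  simp only [poly, IsSimplicial.map]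
  rw [Finsupp.mapDomain_add, Finsupp.mapDomain_single, Finsupp.mapDomain_single]

/-- The vertices of `poly t`. -/
theorem poly_ne_zero {K : Set (Finset W)} (hK : DownClosed K) {u : ℤ → W} (hu : IsPoly K u)
    (t : ℚ) (v : W) (h : (poly hK hu t).w v ≠ 0) : v = u ⌊t⌋ ∨ v = u (⌊t⌋ + 1) :=
  two_ne_zero h

namespace PolyAux

/-- the partial sums -/
def ss (θ : W → ℝ) (δ : W → W → ℝ) (u : ℤ → W) (n : ℕ) : ℝ :=
  θ (u 0) + ∑ j ∈ Finset.range n, δ (u j) (u (j + 1))

/-- the lift -/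
def ph (θ : W → ℝ) (δ : W → W → ℝ) (u : ℤ → W) (t : ℚ) : ℝ :=
  ss θ δ u ⌊t⌋₊ + ((t : ℝ) - ⌊t⌋₊) * δ (u ⌊t⌋₊) (u (⌊t⌋₊ + 1))

theorem ss_succ (θ : W → ℝ) (δ : W → W → ℝ) (u : ℤ → W) (n : ℕ) :
    ss θ δ u (n + 1) = ss θ δ u n + δ (u n) (u (n + 1)) := by
  unfold ss
  rw [Finset.sum_range_succ]
  ring

theorem ph_eq (θ : W → ℝ) (δ : W → W → ℝ) (u : ℤ → W) (t : ℚ) (j : ℕ) (h1 : (j : ℚ) ≤ t)
    (h2 : t ≤ j + 1) : ph θ δ u t = ss θ δ u j + ((t : ℝ) - j) * δ (u j) (u (j + 1)) := by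
  have h0 : (0 : ℚ) ≤ t := (Nat.cast_nonneg j).trans h1
  rcases h2.lt_or_eq with h3 | h3
  · have hf : ⌊t⌋₊ = j := (Nat.floor_eq_iff h0).2 ⟨h1, h3⟩
    unfold ph
    rw [hf]
  · have hf : ⌊t⌋₊ = j + 1 := by
      rw [Nat.floor_eq_iff h0]
      push_cast
      exact ⟨h3.ge, by linarith⟩
    unfold ph
    rw [hf, ss_succ, h3]
    push_cast
    ring

theorem ph_ind (θ : W → ℝ) (δ : W → W → ℝ) (u : ℤ → W) (B : ℝ)
    (hB : ∀ j : ℕ, |δ (u j) (u (j + 1))| ≤ B) (n : ℕ) : ∀ t t' : ℚ, 0 ≤ t → t ≤ t' →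
    t' ≤ ⌊t⌋₊ + 1 + n → |ph θ δ u t - ph θ δ u t'| ≤ B * ((t' : ℝ) - t) := by
  have same : ∀ (t t' : ℚ) (j : ℕ), (j : ℚ) ≤ t → t ≤ t' → t' ≤ j + 1 →
      |ph θ δ u t - ph θ δ u t'| ≤ B * ((t' : ℝ) - t) := by
    intro t t' j h1 h2 h3
    have h2' : (t : ℝ) ≤ t' := by exact_mod_cast h2
    rw [ph_eq θ δ u t j h1 (h2.trans h3), ph_eq θ δ u t' j (h1.trans h2) h3]
    have h4 : ss θ δ u j + ((t : ℝ) - j) * δ (u j) (u (j + 1)) -
        (ss θ δ u j + ((t' : ℝ) - j) * δ (u j) (u (j + 1))) =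
        -(δ (u j) (u (j + 1)) * ((t' : ℝ) - t)) := by ring
    rw [h4, abs_neg, abs_mul, abs_of_nonneg (sub_nonneg.2 h2')]
    exact mul_le_mul_of_nonneg_right (hB j) (sub_nonneg.2 h2')
  induction n with
  | zero =>
    intro t t' h0 h h'
    exact same t t' ⌊t⌋₊ (Nat.floor_le h0) h (by simpa using h')
  | succ n ih =>
    intro t t' h0 h h'
    rcases le_total t' (⌊t⌋₊ + 1 + n) with h1 | h1
    · exact ih t t' h0 h h1
    · have h2 : t ≤ ⌊t⌋₊ + 1 + n := by
        have := (Nat.lt_floor_add_one t).le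
        have h3 : (0 : ℚ) ≤ n := Nat.cast_nonneg n
        linarith
      have h3 := ih t (⌊t⌋₊ + 1 + n) h0 h2 le_rfl
      have h4 := same (⌊t⌋₊ + 1 + n) t' (⌊t⌋₊ + 1 + n) (by push_cast; exact le_rfl)
        h1 (by push_cast at h' ⊢; linarith)
      have h5 := abs_sub_le (ph θ δ u t) (ph θ δ u (⌊t⌋₊ + 1 + n)) (ph θ δ u t')
      linarith

end PolyAux

/-- The lift of a phase function along a polygon: let `s j` be numbers with
`s (j + 1) - s j = δ (u j) (u (j + 1))` and `s 0 = θ (u 0)`, and interpolate linearly. -/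
theorem exists_poly_phase {K : Set (Finset W)} (hK : DownClosed K) {u : ℤ → W} (hu : IsPoly K u)
    (θ : W → ℝ) (δ : W → W → ℝ) (B : ℝ≥0)
    (hB : ∀ σ ∈ K, ∀ u ∈ σ, ∀ v ∈ σ, |δ u v| ≤ B)
    (hadd : ∀ σ ∈ K, ∀ u ∈ σ, ∀ v ∈ σ, ∀ w ∈ σ, δ u v + δ v w = δ u w)
    (hexp : ∀ σ ∈ K, ∀ u ∈ σ, ∀ v ∈ σ, ∃ z : ℤ, δ u v = θ v - θ u + z)
    (F : Pt K → ℂ)
    (hF : ∀ x : Pt K, ∀ u, x.w u ≠ 0 →
        F x = Complex.exp (2 * Real.pi * Complex.I *
          ((θ u + x.w.sum fun v t => t * δ u v : ℝ) : ℂ))) (N : ℕ) :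
    ∃ Φ : ℚ → ℝ, (∀ t : ℚ, 0 ≤ t → t ≤ N →
        F (poly hK hu t) = Complex.exp (2 * Real.pi * Complex.I * (Φ t : ℂ))) ∧
      (∀ t t' : ℚ, 0 ≤ t → t ≤ N → 0 ≤ t' → t' ≤ N → |Φ t - Φ t'| ≤ B * |(t : ℝ) - t'|) ∧
      Φ N - Φ 0 = ∑ j ∈ Finset.range N, δ (u j) (u (j + 1)) := by
  classical
  have hσ : ∀ j : ℤ, ({u j, u (j + 1)} : Finset W) ∈ K := fun j => hu j _ (by simp)
  have hB' : ∀ j : ℕ, |δ (u j) (u (j + 1))| ≤ B := fun j =>
    hB _ (hσ j) _ (by simp) _ (by simp)
  have hself : ∀ j : ℤ, δ (u j) (u j) = 0 := by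
    intro j
    have := hadd _ (hσ j) (u j) (by simp) (u j) (by simp) (u j) (by simp)
    linarith
  have hint : ∀ n : ℕ, ∃ z : ℤ, ss θ δ u n = θ (u n) + z := by
    intro n
    induction n with
    | zero => exact ⟨0, by simp [ss]⟩
    | succ n ih =>
      obtain ⟨z, hz⟩ := ih
      obtain ⟨z', hz'⟩ := hexp _ (hσ n) (u n) (by simp) (u (n + 1)) (by simp)
      refine ⟨z + z', ?_⟩
      rw [ss_succ, hz, hz']
      push_cast
      ring
  refine ⟨ph θ δ u, ?_, ?_, ?_⟩
  · intro t h0 _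
    set j := ⌊t⌋₊ with hj
    have h1 : (j : ℚ) ≤ t := Nat.floor_le h0
    have h2 : t < j + 1 := Nat.lt_floor_add_one t
    have hw := poly_w hK hu t (j : ℤ) (by exact_mod_cast h1) (by exact_mod_cast h2.le)
    have h1' : (j : ℝ) ≤ t := by exact_mod_cast h1
    have h2' : (t : ℝ) < j + 1 := by exact_mod_cast h2
    have hne : (poly hK hu t).w (u j) ≠ 0 := by
      rw [hw, Finsupp.add_apply, Finsupp.single_apply, Finsupp.single_apply, if_pos rfl]
      apply ne_of_gt
      push_cast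
      split_ifs <;> linarith
    rw [hF _ _ hne, hw, two_sum, hself, ph_eq θ δ u t j h1 h2.le]
    obtain ⟨z, hz⟩ := hint j
    rw [hz]
    have h3 : (2 * Real.pi * Complex.I *
        ((θ (u j) + z + ((t : ℝ) - j) * δ (u j) (u (j + 1)) : ℝ) : ℂ)) =
        2 * Real.pi * Complex.I * ((θ (u j) + ((1 - ((t : ℝ) - (j : ℤ))) * 0 +
          ((t : ℝ) - (j : ℤ)) * δ (u j) (u (j + 1))) : ℝ) : ℂ) +
          z * (2 * Real.pi * Complex.I) := by
      push_cast
      ring
    rw [h3, Complex.exp_add, Complex.exp_int_mul_two_pi_mul_I, mul_one]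
  · have key : ∀ t t' : ℚ, 0 ≤ t → t ≤ t' →
        |ph θ δ u t - ph θ δ u t'| ≤ B * |(t : ℝ) - t'| := by
      intro t t' h0 h
      have h' : (t : ℝ) ≤ t' := by exact_mod_cast h
      rw [abs_sub_comm (t : ℝ), abs_of_nonneg (sub_nonneg.2 h')]
      obtain ⟨n, hn⟩ := exists_nat_ge (t' - t)
      refine ph_ind θ δ u B hB' n t t' h0 h ?_
      have := (Nat.lt_floor_add_one t).le
      linarith
    intro t t' h0 _ h0' _
    rcases le_total t t' with h | h
    · exact key t t' h0 h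
    · rw [abs_sub_comm, abs_sub_comm (t : ℝ)]
      exact key t' t h0' h
  · rw [ph_eq θ δ u N N le_rfl (by linarith), ph_eq θ δ u 0 0 (by simp) (by simp)]
    simp [ss]

end

end Pool.Agent.H368.NV
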