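import Pool.Agent.H368.NV.LGraph
import Pool.Agent.H368.NV.LocClass
import Pool.Agent.H368.NV.Phase
import Pool.Agent.H368.NV.Poly

/-!
# Nonvanishing of the class of the core loops at every stage

PROOF SKETCH of `stage`. Write `V n` for the points of the `n`-th graph. Choose `n ≥ r + 1` such that
closed walks of length at most `10 r + 10` in the `n`-th graph have total label `0` (`Flat`). By
`dist_le_iff`, for `a ∈ V n`, `dist a b ≤ r` implies `b ∈ V n` and a walk of length `≤ r`.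
Let `Y₀` be the set of all `x : Pt K` such that `pt v ∈ V n` for all vertices `v` of the support of `x`.
By `hr`, `Common x y` and `x ∈ Y₀` imply `y ∈ Y₀`, so points of `Y₀` and points outside have distance
`∞`; `Y₀` is contained in a compact set by `hfin` and `isCompact_sub`.
For `a b ∈ V n` such that there is a walk of length `≤ r` with label `κ` from `a` to `b`, `κ` is unique; put
`δ' a b = θ b - θ a + κ` (and `δ' a b = 0` if there is no such walk). Let
`δ v w = δ' (pt v) (pt w)` if `pt v, pt w ∈ V n` and `θ' v = θ (pt v)` if `pt v ∈ V n`; let `δ v w = 0`,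
`θ' v = 0` otherwise. The hypotheses `hB`, `hadd`, `hexp` of `exists_phase` hold (`B` = the sum of the
`|δ' a b|` over the finite set of pairs; additivity: a closed walk of length `≤ 3 r` has label `0`).
Take `F` from `exists_phase` and `Φ` from `exists_poly_phase` with `u n`. Then
`Φ (N n) - Φ 0 = ∑_{j < N n} δ (u n j) (u n (j + 1)) = 1`: let `κ_j` be the label of a walk of length `≤ r`
from `pt (u n j)` to `core j` (unique); then
`δ (u n j) (u n (j + 1)) = θ (pt (u n (j + 1))) - θ (pt (u n j)) + κ_j + lab j - κ_{j+1}` by flatness, and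
the sum telescopes by periodicity to `∑ lab j`, which is `1` by `core_phase` and periodicity.
Now apply `Loops.cls_ne_zero`.
-/

set_option autoImplicit false
set_option linter.unusedVariables false

namespace Pool.Agent.H368.NV

open scoped ENNReal NNReal Topology BoundedContinuousFunction
open Filter

noncomputable section

variable {p : ℝ≥0∞} [hp1 : Fact (1 ≤ p)] [hpt : Fact (p ≠ ∞)]

/-! ### Auxiliary lemmas -/

theorem near_of_lt {G : ℕ → LGraph} {r n : ℕ} (hn : r ≤ n) {a b : Sp G} (ha : a.1 = n)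
    (h : dist a b ≤ (r : ℝ)) :
    ∃ (v w : (G n).V) (κ : ℤ), a = ⟨n, v⟩ ∧ b = ⟨n, w⟩ ∧ (G n).Walk r v w κ := by
  rw [dist_le_iff] at h
  rcases h with ⟨m, v, w, κ, h1, h2, h3⟩ | h
  · have hm : m = n := by
      rw [← ha, h1]
    subst hm
    exact ⟨v, w, κ, h1, h2, h3⟩
  · have := le_max_left a.1 b.1
    omega

theorem near_fst {G : ℕ → LGraph} {r n : ℕ} (hn : r ≤ n) {a b : Sp G}
    (h : dist a b ≤ (r : ℝ)) : a.1 = n ↔ b.1 = n := by
  constructor
  · intro ha
    obtain ⟨v, w, κ, -, h2, -⟩ := near_of_lt hn ha h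
    rw [h2]
  · intro hb
    obtain ⟨v, w, κ, -, h2, -⟩ := near_of_lt hn hb (by rw [dist_comm]; exact h)
    rw [h2]

theorem Pt.exists_ne {W : Type} {K : Set (Finset W)} (x : Pt K) : ∃ v, x.w v ≠ 0 := by
  by_contra h
  push Not at h
  have h1 : x.w = 0 := Finsupp.ext h
  have h2 := x.sum_one
  rw [h1, Finsupp.sum_zero_index] at h2
  exact zero_ne_one h2

theorem walk_unique {G : LGraph} {r : ℕ} {s : ℕ}
    (hflat : ∀ (v : G.V) (κ : ℤ), G.Walk s v v κ → κ = 0) (hs : 2 * r ≤ s) {a b : G.V} {κ κ' : ℤ}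
    (h : G.Walk r a b κ) (h' : G.Walk r a b κ') : κ = κ' := by
  have h1 := (h.append h'.reverse).mono (s := s) (by omega)
  have := hflat _ _ h1
  omega

open Classical in
/-- the vertex of the `n`-th graph -/
def pv {G : ℕ → LGraph} (n : ℕ) (a : Sp G) : (G n).V :=
  if h : ∃ v, a = ⟨n, v⟩ then h.choose else (G n).core 0

theorem pv_eq {G : ℕ → LGraph} (n : ℕ) (v : (G n).V) : pv n (⟨n, v⟩ : Sp G) = v := by
  have h : ∃ v', (⟨n, v⟩ : Sp G) = ⟨n, v'⟩ := ⟨v, rfl⟩
  have h1 : pv n (⟨n, v⟩ : Sp G) = h.choose := dif_pos h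
  rw [h1]
  have h2 := h.choose_spec
  have h3 := (Sigma.mk.inj_iff.1 h2).2
  exact (eq_of_heq h3).symm

open Classical in
/-- the phase differences in the `n`-th graph -/
def del (G : LGraph) (r : ℕ) (a b : G.V) : ℝ :=
  if h : ∃ κ, G.Walk r a b κ then G.θ b - G.θ a + h.choose else 0

theorem del_eq {G : LGraph} {r s : ℕ}
    (hflat : ∀ (v : G.V) (κ : ℤ), G.Walk s v v κ → κ = 0) (hs : 2 * r ≤ s) {a b : G.V} {κ : ℤ}
    (h : G.Walk r a b κ) : del G r a b = G.θ b - G.θ a + κ := by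
  classical
  unfold del
  have h1 : ∃ κ, G.Walk r a b κ := ⟨κ, h⟩
  rw [dif_pos h1, walk_unique hflat hs h1.choose_spec h]

theorem chain_mem {W : Type} {K : Set (Finset W)} {Y₀ : Set (Pt K)}
    (h : ∀ x y : Pt K, Common x y → x ∈ Y₀ → y ∈ Y₀) {x y : Pt K} {ℓ : ℝ} (hc : Chain x y ℓ)
    (hx : x ∈ Y₀) : y ∈ Y₀ := by
  induction hc with
  | refl x => exact hx
  | cons hxy _ ih => exact ih (h _ _ hxy hx)

theorem stage_gen {G : ℕ → LGraph} (hflat : Flat G) {W : Type} (K : Set (Finset W))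
    (hK : DownClosed K) (pt : W → Sp G) (r : ℕ)
    (hr : ∀ σ ∈ K, ∀ v ∈ σ, ∀ w ∈ σ, dist (pt v) (pt w) ≤ r)
    (hfin : ∀ n, {v | (pt v).1 = n ∧ {v} ∈ K}.Finite)
    (u : ℕ → ℤ → W) (hu : ∀ n, IsPoly K (u n)) (hper : ∀ n j, u n (j + (G n).N) = u n j)
    (hcore : ∀ n j, dist (pt (u n j)) (⟨n, (G n).core j⟩ : Sp G) ≤ r)
    (L : Loops (rat K) fun n => (G n).N) (hL : ∀ n t, L.q n t = poly hK (hu n) t)
    (A : ZSet (ℝ≥0 →ᵇ Op p (rat K × ℕ)))
    (hA : A.s ⊆ closure {f | (∀ t, f t ∈ (roe p (rat K)).s) ∧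
      Tendsto (fun t => prop (f t)) atTop (𝓝 0)})
    (hx : QInv A.s (fun (_ _ : Fin 1) => L.x p (fun n => (G n).one_le))) :
    K1.mk A ⟨1, _, hx⟩ ≠ K1.zero A := by
  classical
  obtain ⟨n, hn, hfl⟩ : ∃ n, r ≤ n ∧ ∀ (v : (G n).V) (κ : ℤ),
      (G n).Walk (10 * r + 10) v v κ → κ = 0 :=
    ((eventually_ge_atTop r).and (hflat (10 * r + 10))).exists
  -- the data in the `n`-th graph
  let In : W → Prop := fun v => (pt v).1 = n
  let P : W → (G n).V := fun v => pv n (pt v)
  have hP : ∀ v a, pt v = ⟨n, a⟩ → P v = a := by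
    intro v a h
    show pv n (pt v) = a
    rw [h, pv_eq]
  have hIn : ∀ σ ∈ K, ∀ v ∈ σ, ∀ w ∈ σ, (In v ↔ In w) := fun σ hσ v hv w hw =>
    near_fst hn (hr σ hσ v hv w hw)
  have hwalk : ∀ σ ∈ K, ∀ v ∈ σ, ∀ w ∈ σ, In v → ∃ κ, (G n).Walk r (P v) (P w) κ := by
    intro σ hσ v hv w hw h
    obtain ⟨a, b, κ, h1, h2, h3⟩ := near_of_lt hn h (hr σ hσ v hv w hw)
    refine ⟨κ, ?_⟩
    rw [hP v a h1, hP w b h2]
    exact h3
  let θ' : W → ℝ := fun v => if In v then (G n).θ (P v) else 0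
  let δ : W → W → ℝ := fun v w => if In v ∧ In w then del (G n) r (P v) (P w) else 0
  have hδ : ∀ v w κ, In v → In w → (G n).Walk r (P v) (P w) κ →
      δ v w = (G n).θ (P w) - (G n).θ (P v) + κ := by
    intro v w κ hv hw h
    show (if In v ∧ In w then _ else _) = _
    rw [if_pos ⟨hv, hw⟩, del_eq hfl (by omega) h]
  obtain ⟨B, hBb⟩ : ∃ B : ℝ≥0, ∀ a b : (G n).V, |del (G n) r a b| ≤ B := by
    obtain ⟨C, hC⟩ := (Set.finite_range fun q : (G n).V × (G n).V =>
      |del (G n) r q.1 q.2|).bddAbove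
    refine ⟨C.toNNReal, fun a b => ?_⟩
    exact (hC ⟨(a, b), rfl⟩).trans (Real.le_coe_toNNReal C)
  have hB : ∀ σ ∈ K, ∀ v ∈ σ, ∀ w ∈ σ, |δ v w| ≤ B := by
    intro σ _ v _ w _
    show |if In v ∧ In w then _ else _| ≤ _
    split_ifs
    · exact hBb _ _
    · rw [abs_zero]
      exact B.2
  have hadd : ∀ σ ∈ K, ∀ v ∈ σ, ∀ w ∈ σ, ∀ z ∈ σ, δ v w + δ w z = δ v z := by
    intro σ hσ v hv w hw z hz
    by_cases h : In v
    · have hw' := (hIn σ hσ v hv w hw).1 h
      have hz' := (hIn σ hσ v hv z hz).1 h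
      obtain ⟨κ₁, h1⟩ := hwalk σ hσ v hv w hw h
      obtain ⟨κ₂, h2⟩ := hwalk σ hσ w hw z hz hw'
      obtain ⟨κ₃, h3⟩ := hwalk σ hσ v hv z hz h
      have h4 := hfl _ _ (((h1.append h2).append h3.reverse).mono (s := 10 * r + 10) (by omega))
      rw [hδ v w κ₁ h hw' h1, hδ w z κ₂ hw' hz' h2, hδ v z κ₃ h hz' h3]
      have h5 : (κ₃ : ℝ) = κ₁ + κ₂ := by
        have : κ₃ = κ₁ + κ₂ := by omega
        rw [this]
        push_cast
        ring
      rw [h5]
      ring
    · have hw' : ¬ In w := fun h' => h ((hIn σ hσ v hv w hw).2 h')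
      show (if In v ∧ In w then _ else _) + (if In w ∧ In z then _ else _) =
        (if In v ∧ In z then _ else _)
      rw [if_neg (fun h' => h h'.1), if_neg (fun h' => hw' h'.1), if_neg (fun h' => h h'.1), add_zero]
  have hexp : ∀ σ ∈ K, ∀ v ∈ σ, ∀ w ∈ σ, ∃ z : ℤ, δ v w = θ' w - θ' v + z := by
    intro σ hσ v hv w hw
    by_cases h : In v
    · have hw' := (hIn σ hσ v hv w hw).1 h
      obtain ⟨κ, h1⟩ := hwalk σ hσ v hv w hw h
      refine ⟨κ, ?_⟩
      show _ = (if In w then _ else _) - (if In v then _ else _) + _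
      rw [hδ v w κ h hw' h1, if_pos h, if_pos hw']
    · have hw' : ¬ In w := fun h' => h ((hIn σ hσ v hv w hw).2 h')
      refine ⟨0, ?_⟩
      show (if In v ∧ In w then _ else _) = (if In w then _ else _) - (if In v then _ else _) + _
      rw [if_neg (fun h' => h h'.1), if_neg h, if_neg hw']
      simp
  obtain ⟨F, hF1, hFL, hF⟩ := exists_phase K θ' δ (B + 1) (by positivity)
    (fun σ hσ v hv w hw => (hB σ hσ v hv w hw).trans (by push_cast; linarith)) hadd hexp
  obtain ⟨Φ, hΦ1, hΦ2, hΦ3⟩ := exists_poly_phase hK (hu n) θ' δ B hB hadd hexp F hF (G n).N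
  let Y₀ : Set (Pt K) := {x | ∀ v, x.w v ≠ 0 → In v}
  have hY : ∀ x y : Pt K, Common x y → x ∈ Y₀ → y ∈ Y₀ := by
    rintro x y ⟨σ, hσ, hx, hy⟩ hxY w hw
    obtain ⟨v, hv⟩ := x.exists_ne
    exact (hIn σ hσ v (hx (Finsupp.mem_support_iff.2 hv)) w
      (hy (Finsupp.mem_support_iff.2 hw))).1 (hxY v hv)
  have hun : ∀ j, In (u n j) := fun j => (near_fst hn (hcore n j)).2 rfl
  refine Loops.cls_ne_zero_gen L (fun n => (G n).one_le) A hA hx n Y₀ ?_ ?_ ?_ ?_ F hF1 (8 * (B + 1)) hFL Φ ?_ B hΦ2 ?_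
  · intro x hx y hy
    show pathDist x y = ∞
    unfold pathDist
    simp only [iInf_eq_top]
    intro ℓ hℓ
    exact absurd (chain_mem hY hℓ hx) hy
  · refine ⟨_, isCompact_sub hK _ (hfin n), fun x hx v hv => ⟨hx v hv, ?_⟩⟩
    exact hK _ x.mem {v} (by
      rw [Finset.singleton_subset_iff]
      exact Finsupp.mem_support_iff.2 hv) (Finset.singleton_nonempty v)
  · intro t v hv
    rw [hL] at hv
    rcases poly_ne_zero hK (hu n) t v hv with h | h
    · rw [h]; exact hun _
    · rw [h]; exact hun _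
  · intro m hm t ht
    obtain ⟨v, hv⟩ := (L.q m t).exists_ne
    have h1 : In v := ht v hv
    rw [hL] at hv
    have h2 : ∀ j, ¬ In (u m j) := by
      intro j hj
      have h3 := hcore m j
      obtain ⟨a, b, κ, -, h4, -⟩ := near_of_lt hn hj h3
      have h5 : m = n := congrArg Sigma.fst h4
      exact hm h5
    rcases poly_ne_zero hK (hu m) t v hv with h | h
    · rw [h] at h1; exact h2 _ h1
    · rw [h] at h1; exact h2 _ h1
  · intro t ht0 ht1
    rw [hL]
    exact hΦ1 t ht0 ht1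
  · rw [hΦ3]
    -- the labels of the connecting walks
    have hc : ∀ j, ∃ κ, (G n).Walk r (P (u n j)) ((G n).core j) κ := by
      intro j
      obtain ⟨a, b, κ, h1, h2, h3⟩ := near_of_lt hn (hun j) (hcore n j)
      refine ⟨κ, ?_⟩
      have h4 : (G n).core j = b := eq_of_heq (Sigma.mk.inj_iff.1 h2).2
      rw [hP _ a h1, h4]
      exact h3
    choose κ hκ using hc
    have hpair : ∀ j, ∃ σ ∈ K, u n j ∈ σ ∧ u n (j + 1) ∈ σ := by
      intro j
      refine ⟨{u n j, u n (j + 1)}, hu n j _ fun v => by simp, by simp, by simp⟩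
    have hterm : ∀ j : ℤ, δ (u n j) (u n (j + 1)) =
        ((G n).θ (P (u n (j + 1))) - κ (j + 1)) - ((G n).θ (P (u n j)) - κ j) +
          (G n).lab j := by
      intro j
      obtain ⟨σ, hσ, h1, h2⟩ := hpair j
      obtain ⟨κ', h3⟩ := hwalk σ hσ _ h1 _ h2 (hun j)
      rw [hδ _ _ κ' (hun j) (hun (j + 1)) h3]
      have h4 := ((((hκ j).append (LGraph.walk_one ((G n).core_step j))).append
        (hκ (j + 1)).reverse).append h3.reverse).mono (s := 10 * r + 10) (by omega)
      have h5 := hfl _ _ h4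
      have h6 : κ' = κ j + (G n).lab j - κ (j + 1) := by omega
      rw [h6]
      push_cast
      ring
    have hκper : κ (G n).N = κ 0 := by
      have h1 := hκ ((G n).N : ℤ)
      have h2 : u n ((G n).N : ℤ) = u n 0 := by
        have := hper n 0
        rwa [zero_add] at this
      have h3 : (G n).core ((G n).N : ℤ) = (G n).core 0 := by
        have := (G n).core_add 0
        rwa [zero_add] at this
      rw [h2, h3] at h1
      exact walk_unique hfl (by omega) h1 (hκ 0)
    have hsum : ∀ N : ℕ, ∑ j ∈ Finset.range N, δ (u n j) (u n (j + 1)) =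
        ((G n).θ (P (u n N)) - κ N) - ((G n).θ (P (u n 0)) - κ 0) +
          ∑ j ∈ Finset.range N, ((G n).lab j : ℝ) := by
      intro N
      induction N with
      | zero => simp
      | succ N ih =>
        rw [Finset.sum_range_succ, Finset.sum_range_succ, ih, hterm]
        push_cast
        ring
    have hlab : ∀ N : ℕ, ∑ j ∈ Finset.range N, ((G n).lab j : ℝ) =
        N * (1 / (G n).N) - ((G n).θ ((G n).core N) - (G n).θ ((G n).core 0)) := by
      intro N
      induction N with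
      | zero => simp
      | succ N ih =>
        rw [Finset.sum_range_succ, ih]
        have := (G n).core_phase N
        push_cast
        linarith
    rw [hsum, hlab]
    have h2 : u n ((G n).N : ℤ) = u n 0 := by
      have := hper n 0
      rwa [zero_add] at this
    have h3 : (G n).core ((G n).N : ℤ) = (G n).core 0 := by
      have := (G n).core_add 0
      rwa [zero_add] at this
    rw [h2, h3, hκper]
    have hN : ((G n).N : ℝ) ≠ 0 := by
      have := (G n).one_le
      positivity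
    field_simp
    ring

theorem stage {G : ℕ → LGraph} (hflat : Flat G) {W : Type} (K : Set (Finset W))
    (hK : DownClosed K) (pt : W → Sp G) (r : ℕ)
    (hr : ∀ σ ∈ K, ∀ v ∈ σ, ∀ w ∈ σ, dist (pt v) (pt w) ≤ r)
    (hfin : ∀ n, {v | (pt v).1 = n ∧ {v} ∈ K}.Finite)
    (u : ℕ → ℤ → W) (hu : ∀ n, IsPoly K (u n)) (hper : ∀ n j, u n (j + (G n).N) = u n j)
    (hcore : ∀ n j, dist (pt (u n j)) (⟨n, (G n).core j⟩ : Sp G) ≤ r)
    (L : Loops (rat K) fun n => (G n).N) (hL : ∀ n t, L.q n t = poly hK (hu n) t) :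
    L.cls p (fun n => (G n).one_le) ≠ K1.zero (loc p (rat K)) :=
  stage_gen hflat K hK pt r hr hfin u hu hper hcore L hL (loc p (rat K))
    (closure_mono fun f hf => ⟨hf.2.1, hf.2.2.2⟩) (L.qinv _)

end

end Pool.Agent.H368.NV
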