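import Pool.Agent.H368.NV.BaseGen
import Pool.Agent.H368.NV.MemM
import Pool.Agent.H368.NV.Stage
import Pool.Agent.H368.NV.Rips

/-!
# The index map of `Sp G` is not injective (Rips complexes)

PROOF SKETCH of `main_rips`. Take `d = 1`, `K = rips (Sp G) 1`, `ν = id`. `Good0 G K id` holds (`locFin_rips`, `Wk G 1 a b`
implies `dist a b ≤ 1`), `rat K` is countable (`countable_rat`, `Sp G` is countable). Let `L` be from `base_gen` with
`AR = roeM p (rat K)`, `hAR = push_fpc_mem_roeM`. By `Loops.mem_locM` (a bounded set has finitely many vertices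
(`finite_vertices_of_ebdd`); `poly (u n) t` has the vertex `core ⌊t⌋`) and `Loops.qinv_gen` the matrix `(L.x)` is quasi-invertible
over `(locM p (rat K)).s`; let `c` be its class in `ML p (Sp G) 1` and `x = DLim.of (mapL p hΓ) 1 c`.
`indexMap p hΓ x = DLim.of _ 1 (evM p 1 c)`, and `evM p 1 c = K1.mk (roeM ..) ⟨1, _, q⟩ = K1.zero`.
If `x = DLim.of (mapL p hΓ) 1 (K1.zero _)` then by `DLim.of_eq_base` (with `mapL_mapL`, `K1.map_zero`) there is `d' ≥ 1` with
`mapL p hΓ h c = K1.zero _`. But `mapL p hΓ h c` is the class of `L' = ` the loops with `q = Pt.incl ∘ L.q`, `c = L.c.trans (inclZ _)`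
in `rips (Sp G) d'` (as in `Loops.map_cls`; `L'.q n = poly (core)` again), and `stage_gen` with `pt = id`, `r ≥ d'`, and
`A = locM p (rat (rips (Sp G) d'))` (`locM_subset_locBig`) shows that it is not zero.
-/

set_option autoImplicit false
set_option linter.unusedVariables false

namespace Pool.Agent.H368.NV

open scoped ENNReal NNReal Topology BoundedContinuousFunction
open Filter

noncomputable section

variable {p : ℝ≥0∞} [hp1 : Fact (1 ≤ p)] [hpt : Fact (p ≠ ∞)]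

/-- The zero of `lim_d K₁(B_L^p(P_d(Γ)))`. -/
def LimL.zero (p : ℝ≥0∞) [Fact (1 ≤ p)] [Fact (p ≠ ∞)] {Γ : Type} [MetricSpace Γ]
    (hΓ : BoundedGeometry Γ) : LimL p hΓ := DLim.of (mapL p hΓ) 0 (K1.zero _)

/-- The zero of `lim_d K₁(B^p(P_d(Γ)))`. -/
def LimR.zero (p : ℝ≥0∞) [Fact (1 ≤ p)] [Fact (p ≠ ∞)] {Γ : Type} [MetricSpace Γ]
    (hΓ : BoundedGeometry Γ) : LimR p hΓ := DLim.of (mapR p hΓ) 0 (K1.zero _)

/-! ### Auxiliary lemmas -/

namespace MainR

theorem incl_poly {W : Type} {K K' : Set (Finset W)} (hK : DownClosed K) (hK' : DownClosed K')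
    (h : K ⊆ K') {u : ℤ → W} (hu : IsPoly K u) (hu' : IsPoly K' u) (t : ℚ) :
    Pt.incl h (poly hK hu t) = poly hK' hu' t := PolyAux.Pt_ext rfl

/-- The points of the `n`-th graph. -/
theorem finite_fst' {G : ℕ → LGraph} (n : ℕ) : {a : Sp G | a.1 = n}.Finite := by
  refine (Set.finite_range fun v : (G n).V => (show Sp G from ⟨n, v⟩)).subset ?_
  rintro ⟨m, v⟩ h
  have h1 : m = n := h
  subst h1
  exact ⟨v, rfl⟩

theorem isPoly_core {G : ℕ → LGraph} {d : ℝ≥0} (hd : 1 ≤ d) (n : ℕ) :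
    IsPoly (rips (Sp G) d) fun j => (⟨n, (G n).core j⟩ : Sp G) := by
  have hd' : (1 : ℝ) ≤ d := by exact_mod_cast hd
  intro j σ hσ
  refine ⟨⟨_, (hσ _).2 (Or.inl rfl)⟩, ?_⟩
  have h1 : @dist (Sp G) _ ⟨n, (G n).core j⟩ ⟨n, (G n).core (j + 1)⟩ ≤ (1 : ℕ) :=
    (dist_le_iff _ _ 1).2 (Or.inl ⟨n, _, _, _, rfl, rfl, LGraph.walk_one ((G n).core_step j)⟩)
  rw [Nat.cast_one] at h1
  have h0 : (0 : ℝ) ≤ d := d.2
  intro g hg k hk
  rcases (hσ g).1 hg with rfl | rfl
  · rcases (hσ k).1 hk with rfl | rfl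
    · rw [dist_self]; exact h0
    · exact h1.trans hd'
  · rcases (hσ k).1 hk with rfl | rfl
    · rw [dist_comm]; exact h1.trans hd'
    · rw [dist_self]; exact h0

/-- Only finitely many loops meet a set with finitely many vertices. -/
theorem finite_of_vertices {G : ℕ → LGraph} {d : ℝ≥0}
    (hu : ∀ n, IsPoly (rips (Sp G) d) fun j => (⟨n, (G n).core j⟩ : Sp G))
    {q : ℕ → ℚ → Pt (rips (Sp G) d)}
    (hq : ∀ n t, q n t = poly (downClosed_rips (Γ := Sp G) d) (hu n) t)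
    {B : Set (Pt (rips (Sp G) d))} (hB : {v | ∃ x ∈ B, x.w v ≠ 0}.Finite) :
    {n | ∃ t, q n t ∈ B}.Finite := by
  refine (hB.image fun v : Sp G => v.1).subset ?_
  rintro n ⟨t, ht⟩
  obtain ⟨v, hv⟩ := (q n t).exists_ne
  refine ⟨v, ⟨_, ht, hv⟩, ?_⟩
  rw [hq] at hv
  rcases poly_ne_zero (downClosed_rips (Γ := Sp G) d) (hu n) t v hv with h | h
  · rw [h]
  · rw [h]

/-- The loops in a larger complex. -/
def inclLoops {W : Type} {K K' : Set (Finset W)} {N : ℕ → ℕ} (L : Loops (rat K) N) (h : K ⊆ K')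
    (hfin : ∀ C : Set (Pt K'), IsCompact C → {n | ∃ t, Pt.incl h (L.q n t) ∈ C}.Finite) :
    Loops (rat K') N where
  q := fun n t => Pt.incl h (L.q n t)
  per := fun n t => by rw [L.per]
  lip := fun n t t' => (edist_incl_le h _ _).trans (L.lip n t t')
  c := L.c.trans (inclZ h)
  c_fst := fun a => by
    rw [← L.c_fst]
    rfl
  finite := hfin

/-- The class of the core loops in the Rips complex is not zero. -/
theorem cls_ne {G : ℕ → LGraph} (hflat : Flat G) (hΓ : BoundedGeometry (Sp G)) {d : ℝ≥0}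
    (hu : ∀ n, IsPoly (rips (Sp G) d) fun j => (⟨n, (G n).core j⟩ : Sp G))
    (L : Loops (rat (rips (Sp G) d)) fun n => (G n).N)
    (hL : ∀ n t, L.q n t = poly (downClosed_rips (Γ := Sp G) d) (hu n) t)
    (hx : QInv (locM p (rat (rips (Sp G) d))).s
      (fun (_ _ : Fin 1) => L.x p (fun n => (G n).one_le))) :
    K1.mk (locM p (rat (rips (Sp G) d))) ⟨1, _, hx⟩ ≠ K1.zero _ := by
  refine stage_gen (p := p) hflat (rips (Sp G) d) (downClosed_rips (Γ := Sp G) d) id ⌈(d : ℝ)⌉₊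
    ?_ ?_ (fun n j => (⟨n, (G n).core j⟩ : Sp G)) hu ?_ ?_ L hL
    (locM p (rat (rips (Sp G) d))) locM_subset_locBig hx
  · intro σ hσ v hv w hw
    exact (hσ.2 v hv w hw).trans (Nat.le_ceil _)
  · intro n
    exact (finite_fst' (G := G) n).subset fun v hv => hv.1
  · intro n j
    change (⟨n, (G n).core (j + (G n).N)⟩ : Sp G) = _
    rw [(G n).core_add]
  · intro n j
    change @dist (Sp G) _ ⟨n, (G n).core j⟩ ⟨n, (G n).core j⟩ ≤ _
    rw [dist_self]
    exact Nat.cast_nonneg _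

/-- The map of the Rips complexes maps the class of a sequence of loops to the class of the
same loops in the larger complex. -/
theorem map_mk {W : Type} {K K' : Set (Finset W)} {N : ℕ → ℕ} (hN : ∀ n, 1 ≤ N n)
    (L : Loops (rat K) N) (h : K ⊆ K')
    (hfin : ∀ C : Set (Pt K'), IsCompact C → {n | ∃ t, Pt.incl h (L.q n t) ∈ C}.Finite)
    (hc : CoversM (Pt.incl h) (inclZ h))
    (hx : QInv (locM p (rat K)).s (fun (_ _ : Fin 1) => L.x p hN)) :
    ∃ hx' : QInv (locM p (rat K')).s (fun (_ _ : Fin 1) => (inclLoops L h hfin).x p hN),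
      K1.map (hc.onLoc p) (K1.mk (locM p (rat K)) ⟨1, _, hx⟩) =
        K1.mk (locM p (rat K')) ⟨1, _, hx'⟩ := by
  have h1 : Matrix.map (m := Fin 1) (n := Fin 1) (fun _ _ => L.x p hN) (hc.onLoc p).f =
      fun (_ _ : Fin 1) => (inclLoops L h hfin).x p hN := by
    funext i j
    ext1 t
    exact push_trans L.c (inclZ h) (dyU p N hN t)
  have hx' : QInv (locM p (rat K')).s (fun (_ _ : Fin 1) => (inclLoops L h hfin).x p hN) := by
    rw [← h1]
    exact (hc.onLoc p).qinv hx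
  refine ⟨hx', ?_⟩
  rw [K1.map_mk]
  congr 1
  unfold CHom.onQ
  congr 1

theorem good0 {G : ℕ → LGraph} (hΓ : BoundedGeometry (Sp G)) :
    Good0 G (rips (Sp G) ((1 : ℝ≥0) : ℝ)) (id : Sp G → Sp G) where
  down := downClosed_rips _
  locFin := locFin_rips hΓ _
  edge := by
    intro a b hab σ hσ
    have h1 : dist a b ≤ (1 : ℕ) := (dist_le_iff a b 1).2 (Or.inl hab)
    rw [Nat.cast_one] at h1
    refine ⟨⟨_, (hσ _).2 (Or.inl rfl)⟩, ?_⟩
    rw [NNReal.coe_one]
    intro g hg k hk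
    rcases (hσ g).1 hg with rfl | rfl
    · rcases (hσ k).1 hk with rfl | rfl
      · rw [dist_self]; exact zero_le_one
      · exact h1
    · rcases (hσ k).1 hk with rfl | rfl
      · rw [dist_comm]; exact h1
      · rw [dist_self]; exact zero_le_one
  finite := fun w => Set.finite_singleton w

end MainR

theorem main_rips {G : ℕ → LGraph} (hflat : Flat G) (hkill : Kill p G)
    (hΓ : BoundedGeometry (Sp G)) :
    ∃ x : LimL p hΓ, x ≠ LimL.zero p hΓ ∧ indexMap p hΓ x = LimR.zero p hΓ := by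
  have hgood := MainR.good0 hΓ
  have hc : (rat (rips (Sp G) ((1 : ℝ≥0) : ℝ))).Countable := countable_rat _ (Set.to_countable _)
  obtain ⟨L, hL, q, hq⟩ := base_gen (p := p) hkill (rips (Sp G) ((1 : ℝ≥0) : ℝ)) hc id hgood
    (roeM p (rat (rips (Sp G) ((1 : ℝ≥0) : ℝ))))
    (fun pr hpr ι hι _ hT => push_fpc_mem_roeM hgood pr hpr ι hι hT)
  have hN : ∀ n, 1 ≤ (G n).N := fun n => (G n).one_le
  have hb : ∀ B : Set (Pt (rips (Sp G) ((1 : ℝ≥0) : ℝ))), EBdd B →
      {n | ∃ t, L.q n t ∈ B}.Finite := fun B hB =>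
    MainR.finite_of_vertices (d := 1) (fun n => MainR.isPoly_core le_rfl n) hL
      (finite_vertices_of_ebdd (locFin_rips hΓ _) hB)
  have hx : QInv (locM p (rat (rips (Sp G) ((1 : ℝ≥0) : ℝ)))).s
      (fun (_ _ : Fin 1) => L.x p hN) :=
    L.qinv_gen hN _ (L.mem_locM hN hb).1 (L.mem_locM hN hb).2
  let c : ML p (Sp G) 1 := K1.mk (locM p (rat (rips (Sp G) ((1 : ℝ≥0) : ℝ)))) ⟨1, _, hx⟩
  refine ⟨DLim.of (mapL p hΓ) 1 c, ?_, ?_⟩
  · intro h
    have h1 : DLim.of (mapL p hΓ) 0 (K1.zero _) = DLim.of (mapL p hΓ) 1 (K1.zero _) :=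
      Quot.sound ⟨zero_le_one, (K1.map_zero _).symm⟩
    have h2 : DLim.of (mapL p hΓ) 1 c = DLim.of (mapL p hΓ) 1 (K1.zero _) := h.trans h1
    obtain ⟨d', hd, h3⟩ := DLim.of_eq_base (mapL p hΓ)
      (fun h h' x => mapL_mapL p hΓ h h' x) (fun d => K1.zero _) (fun h => K1.map_zero _) h2
    have hK := rips_mono (Γ := Sp G) (NNReal.coe_le_coe.2 hd)
    have hfin : ∀ C : Set (Pt (rips (Sp G) d')), IsCompact C →
        {n | ∃ t, Pt.incl hK (L.q n t) ∈ C}.Finite := fun C hC =>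
      MainR.finite_of_vertices (d := d') (fun n => MainR.isPoly_core hd n)
        (fun n t => by rw [hL]; rfl) (finite_vertices (locFin_rips hΓ _) hC)
    obtain ⟨hx', h4⟩ := MainR.map_mk hN L hK hfin (coversM_rips hΓ hd) hx
    exact MainR.cls_ne hflat hΓ (fun n => MainR.isPoly_core hd n) (MainR.inclLoops L hK hfin)
      (fun n t => by
        change Pt.incl hK (L.q n t) = _
        rw [hL]
        rfl) hx' (h4.symm.trans h3)
  · rw [indexMap_of]
    have h1 : evM p 1 c = K1.zero _ := hq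
    rw [h1]
    exact (Quot.sound ⟨zero_le_one, (K1.map_zero _).symm⟩ :
      DLim.of (mapR p hΓ) 0 (K1.zero _) = DLim.of (mapR p hΓ) 1 (K1.zero _)).symm

end

end Pool.Agent.H368.NV
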