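import Mathlib

/-!
# Interpolation of norms of finite matrices

PROOF SKETCH. Case `p = 2`: take `ε = η`. Case `p > 2` (Marcinkiewicz): let `f ≠ 0`, `T f x = ∑ K x y f y`.
For `t > 0` write `f = f₁ + f₂` with `f₂ = f · 1_{|f| ≤ t/4}`; then `‖T f₂‖_∞ ≤ 2 · t/4 = t/2`, hence
`#{|T f| > t} ≤ #{|T f₁| > t/2} ≤ 4 ‖T f₁‖₂² / t² ≤ 4 ε² ‖f₁‖₂² / t²`. With
`∑_x |T f x|^p = ∫₀^∞ p t^{p-1} #{|T f| > t} dt` this gives
`∑_x |T f x|^p ≤ 4 ε² p ∑_y |f y|² ∫₀^{4 |f y|} t^{p-3} dt = (4 p 4^{p-2} / (p-2)) ε² ∑_y |f y|^p`.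
Case `1 < p < 2`: duality; the transposed kernel satisfies the same hypotheses (the `ℓ²` operator
norm of the transpose is the same), and the `ℓ^p` operator norm of a finite matrix is the `ℓ^{p'}`
operator norm of its transpose, `p' = p/(p-1) > 2`.
Alternatively use the Riesz–Thorin argument with Hadamard's three lines theorem, which is in
Mathlib (`Mathlib/Analysis/Complex/Hadamard.lean`), or anything else.
-/

set_option autoImplicit false

namespace Pool.Agent.H368.NV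

open MeasureTheory

/-- duality for the `ℓ^p` operator norms of a finite matrix -/
theorem interp_dual {H : Type} [Fintype H] (K : H → H → ℂ) (p q : ℝ) (hpq : p.HolderConjugate q)
    (c : ℝ) (hc : 0 ≤ c)
    (h : ∀ f : H → ℂ, ∑ x, ‖∑ y, K x y * f y‖ ^ p ≤ c ^ p * ∑ y, ‖f y‖ ^ p) (g : H → ℂ) :
    ∑ y, ‖∑ x, K x y * g x‖ ^ q ≤ c ^ q * ∑ x, ‖g x‖ ^ q := by
  have hp0 : 0 < p := hpq.pos
  have hq0 : 0 < q := hpq.symm.pos
  have hq1 : 1 < q := hpq.symm.lt
  obtain ⟨u, hu⟩ : ∃ u : H → ℂ, u = fun y => ∑ x, K x y * g x := ⟨_, rfl⟩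
  have hu' : ∀ y, ∑ x, K x y * g x = u y := fun y => by rw [hu]
  simp only [hu']
  obtain ⟨f, hf⟩ : ∃ f : H → ℂ, f = fun y => (starRingEnd ℂ) (u y) * ((‖u y‖ ^ (q - 2) : ℝ) : ℂ) :=
    ⟨_, rfl⟩
  have hfn : ∀ y, ‖f y‖ ^ p = ‖u y‖ ^ q := by
    intro y
    rw [hf]
    simp only [norm_mul, RCLike.norm_conj, Complex.norm_real]
    rw [Real.norm_of_nonneg (by positivity)]
    rcases eq_or_lt_of_le (norm_nonneg (u y)) with h0 | h0
    · rw [← h0, zero_mul, Real.zero_rpow hp0.ne', Real.zero_rpow hq0.ne']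
    · rw [← Real.rpow_one_add' h0.le (by linarith), ← Real.rpow_mul h0.le]
      congr 1
      have := hpq.sub_one_mul_conj
      have h2 := hpq.symm.sub_one_mul_conj
      linarith
  have hfu : ∀ y, f y * u y = ((‖u y‖ ^ q : ℝ) : ℂ) := by
    intro y
    rw [hf]
    simp only
    rw [mul_right_comm, mul_comm ((starRingEnd ℂ) (u y)), Complex.mul_conj,
      Complex.normSq_eq_norm_sq, ← Complex.ofReal_mul]
    congr 1
    rcases eq_or_lt_of_le (norm_nonneg (u y)) with h0 | h0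
    · rw [← h0, Real.zero_rpow hq0.ne']; simp
    · rw [← Real.rpow_natCast, ← Real.rpow_add h0]
      congr 1
      push_cast
      ring
  obtain ⟨S, hS⟩ : ∃ S : ℝ, S = ∑ y, ‖u y‖ ^ q := ⟨_, rfl⟩
  obtain ⟨T, hT⟩ : ∃ T : ℝ, T = ∑ x, ‖g x‖ ^ q := ⟨_, rfl⟩
  rw [← hS, ← hT]
  have hS0 : 0 ≤ S := by rw [hS]; positivity
  have hT0 : 0 ≤ T := by rw [hT]; positivity
  have e1 : (S : ℂ) = ∑ x, g x * ∑ y, K x y * f y := by
    rw [hS]
    push_cast
    have : ∀ y, ((‖u y‖ ^ q : ℝ) : ℂ) = ∑ x, g x * (K x y * f y) := by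
      intro y
      rw [← hfu, ← hu', Finset.mul_sum]
      refine Finset.sum_congr rfl fun x _ => by ring
    simp only [this]
    rw [Finset.sum_comm]
    refine Finset.sum_congr rfl fun x _ => by rw [Finset.mul_sum]
  have e2 : S ≤ ∑ x, ‖∑ y, K x y * f y‖ * ‖g x‖ := by
    have : S = ‖(S : ℂ)‖ := by rw [Complex.norm_real, Real.norm_of_nonneg hS0]
    rw [this, e1]
    refine (norm_sum_le _ _).trans (Finset.sum_le_sum fun x _ => ?_)
    rw [norm_mul, mul_comm]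
  have e3 := Real.inner_le_Lp_mul_Lq_of_nonneg Finset.univ hpq
    (f := fun x => ‖∑ y, K x y * f y‖) (g := fun x => ‖g x‖) (fun _ _ => norm_nonneg _)
    (fun _ _ => norm_nonneg _)
  have e4 : (∑ x, ‖∑ y, K x y * f y‖ ^ p) ^ (1 / p) ≤ c * S ^ (1 / p) := by
    have h1 := h f
    simp only [hfn] at h1
    rw [← hS] at h1
    have h2 : (∑ x, ‖∑ y, K x y * f y‖ ^ p) ^ (1 / p) ≤ (c ^ p * S) ^ (1 / p) :=
      Real.rpow_le_rpow (by positivity) h1 (by positivity)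
    rw [Real.mul_rpow (by positivity) hS0, ← Real.rpow_mul hc, mul_one_div_cancel hp0.ne',
      Real.rpow_one] at h2
    exact h2
  have e5 : S ≤ c * S ^ (1 / p) * T ^ (1 / q) := by
    refine (e2.trans e3).trans ?_
    rw [hT]
    exact mul_le_mul_of_nonneg_right e4 (by positivity)
  rcases eq_or_lt_of_le hS0 with h0 | h0
  · rw [← h0]; positivity
  · have e6 : S = S ^ (1 / p) * S ^ (1 / q) := by
      rw [← Real.rpow_add h0]
      have : 1 / p + 1 / q = 1 := by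
        have := hpq.inv_add_inv_eq_one
        simpa [one_div] using this
      rw [this, Real.rpow_one]
    have e7 : S ^ (1 / q) ≤ c * T ^ (1 / q) := by
      have h1 : 0 < S ^ (1 / p) := Real.rpow_pos_of_pos h0 _
      have h2 : S ^ (1 / p) * S ^ (1 / q) ≤ S ^ (1 / p) * (c * T ^ (1 / q)) := by
        rw [← e6]; linarith
      exact le_of_mul_le_mul_left h2 h1
    have e8 := Real.rpow_le_rpow (by positivity) e7 hq0.le
    rw [← Real.rpow_mul h0.le, Real.mul_rpow hc (by positivity), ← Real.rpow_mul hT0,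
      one_div_mul_cancel hq0.ne', Real.rpow_one, Real.rpow_one] at e8
    exact e8

/-- the layer cake formula for one point -/
theorem interp_lc (c q : ℝ) (hc : 0 ≤ c) (hq : 0 < q) :
    ENNReal.ofReal (c ^ q) = ENNReal.ofReal q *
      ∫⁻ t in Set.Ioi (0 : ℝ), (if t < c then ENNReal.ofReal (t ^ (q - 1)) else 0) := by
  have h := lintegral_rpow_eq_lintegral_meas_lt_mul (Measure.dirac ()) (f := fun _ : Unit => c)
    (Filter.Eventually.of_forall fun _ => hc) aemeasurable_const hq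
  rw [lintegral_dirac] at h
  rw [h]
  congr 1
  refine lintegral_congr fun t => ?_
  by_cases ht : t < c
  · simp [ht]
  · simp [ht]

/-- the level sets -/
theorem interp_level {H : Type} [Fintype H] (K : H → H → ℂ) (ε : ℝ)
    (h1 : ∀ x, ∑ y, ‖K x y‖ ≤ 2)
    (h2 : ∀ f : H → ℂ, ∑ x, ‖∑ y, K x y * f y‖ ^ 2 ≤ ε ^ 2 * ∑ y, ‖f y‖ ^ 2)
    (f : H → ℂ) (t : ℝ) (ht : 0 < t) :
    ∑ x, (if t < ‖∑ y, K x y * f y‖ then (t / 2) ^ 2 else 0) ≤
      ε ^ 2 * ∑ y, (if t < 4 * ‖f y‖ then ‖f y‖ ^ 2 else 0) := by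
  have h3 := h2 (fun y => if t < 4 * ‖f y‖ then f y else 0)
  have h4 : ∀ y, ‖(if t < 4 * ‖f y‖ then f y else 0 : ℂ)‖ ^ 2 =
      (if t < 4 * ‖f y‖ then ‖f y‖ ^ 2 else 0) := by
    intro y; split_ifs <;> simp
  simp only [h4] at h3
  refine le_trans (Finset.sum_le_sum fun x _ => ?_) h3
  split_ifs with hx
  · have h5 : ∑ y, K x y * f y = ∑ y, K x y * (if t < 4 * ‖f y‖ then f y else 0) +
        ∑ y, K x y * (if t < 4 * ‖f y‖ then 0 else f y) := by
      rw [← Finset.sum_add_distrib]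
      refine Finset.sum_congr rfl fun y _ => ?_
      split_ifs <;> simp
    have h6 : ‖∑ y, K x y * (if t < 4 * ‖f y‖ then 0 else f y)‖ ≤ t / 2 := by
      refine (norm_sum_le _ _).trans ?_
      have : ∀ y ∈ Finset.univ, ‖K x y * (if t < 4 * ‖f y‖ then 0 else f y)‖ ≤
          ‖K x y‖ * (t / 4) := by
        intro y _
        rw [norm_mul]
        refine mul_le_mul_of_nonneg_left ?_ (norm_nonneg _)
        split_ifs with hy
        · rw [norm_zero]; positivity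
        · push Not at hy; linarith
      refine (Finset.sum_le_sum this).trans ?_
      rw [← Finset.sum_mul]
      have := mul_le_mul_of_nonneg_right (h1 x) (show 0 ≤ t / 4 by positivity)
      linarith
    have h7 : t / 2 ≤ ‖∑ y, K x y * (if t < 4 * ‖f y‖ then f y else 0)‖ := by
      have h8 := norm_add_le (∑ y, K x y * (if t < 4 * ‖f y‖ then f y else 0))
        (∑ y, K x y * (if t < 4 * ‖f y‖ then 0 else f y))
      rw [← h5] at h8
      linarith
    exact pow_le_pow_left₀ (by positivity) h7 2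
  · positivity

/-- the case `p > 2` -/
theorem interp_gt (p : ℝ) (hp : 2 < p) {H : Type} [Fintype H] (K : H → H → ℂ) (ε : ℝ)
    (h1 : ∀ x, ∑ y, ‖K x y‖ ≤ 2)
    (h2 : ∀ f : H → ℂ, ∑ x, ‖∑ y, K x y * f y‖ ^ 2 ≤ ε ^ 2 * ∑ y, ‖f y‖ ^ 2)
    (f : H → ℂ) :
    ∑ x, ‖∑ y, K x y * f y‖ ^ p ≤
      (4 * p * 4 ^ (p - 2) / (p - 2) * ε ^ 2) * ∑ y, ‖f y‖ ^ p := by
  have hp2 : 0 < p - 2 := by linarith
  have key : ∀ t : ℝ, 0 < t →
      ∑ x, (if t < ‖∑ y, K x y * f y‖ then ENNReal.ofReal (t ^ (p - 1)) else 0) ≤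
      ∑ y, ENNReal.ofReal (4 * ε ^ 2 * ‖f y‖ ^ 2) *
        (if t < 4 * ‖f y‖ then ENNReal.ofReal (t ^ (p - 2 - 1)) else 0) := by
    intro t ht
    have h3 := interp_level K ε h1 h2 f t ht
    have h4 : ∀ x, (if t < ‖∑ y, K x y * f y‖ then ENNReal.ofReal (t ^ (p - 1)) else 0) =
        ENNReal.ofReal (4 * t ^ (p - 2 - 1) *
          (if t < ‖∑ y, K x y * f y‖ then (t / 2) ^ 2 else 0)) := by
      intro x
      split_ifs
      · congr 1
        have : p - 1 = (p - 2 - 1) + (2 : ℕ) := by push_cast; ring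
        rw [this, Real.rpow_add_natCast ht.ne']
        ring
      · simp
    have h5 : ∀ y, ENNReal.ofReal (4 * ε ^ 2 * ‖f y‖ ^ 2) *
        (if t < 4 * ‖f y‖ then ENNReal.ofReal (t ^ (p - 2 - 1)) else 0) =
        ENNReal.ofReal (4 * t ^ (p - 2 - 1) *
          (ε ^ 2 * (if t < 4 * ‖f y‖ then ‖f y‖ ^ 2 else 0))) := by
      intro y
      split_ifs
      · rw [← ENNReal.ofReal_mul (by positivity)]
        congr 1
        ring
      · simp
    simp only [h4, h5]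
    rw [← ENNReal.ofReal_sum_of_nonneg, ← ENNReal.ofReal_sum_of_nonneg]
    · apply ENNReal.ofReal_le_ofReal
      rw [← Finset.mul_sum, ← Finset.mul_sum, ← Finset.mul_sum]
      exact mul_le_mul_of_nonneg_left h3 (by positivity)
    · intro y _
      split_ifs <;> positivity
    · intro y _
      split_ifs <;> positivity
  have hm : ∀ (c q : ℝ), Measurable fun t : ℝ =>
      (if t < c then ENNReal.ofReal (t ^ q) else 0 : ENNReal) := by
    intro c q
    refine Measurable.ite (measurableSet_lt measurable_id measurable_const) ?_ measurable_const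
    exact (measurable_id.pow_const q).ennreal_ofReal
  have e1 : ∑ x, ENNReal.ofReal (‖∑ y, K x y * f y‖ ^ p) = ENNReal.ofReal p *
      ∫⁻ t in Set.Ioi (0 : ℝ), ∑ x,
        (if t < ‖∑ y, K x y * f y‖ then ENNReal.ofReal (t ^ (p - 1)) else 0) := by
    rw [lintegral_finsetSum _ (fun x _ => hm _ _), Finset.mul_sum]
    exact Finset.sum_congr rfl fun x _ => interp_lc _ p (norm_nonneg _) (by linarith)
  have e2 : ENNReal.ofReal (p - 2) * ∫⁻ t in Set.Ioi (0 : ℝ),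
      ∑ y, ENNReal.ofReal (4 * ε ^ 2 * ‖f y‖ ^ 2) *
        (if t < 4 * ‖f y‖ then ENNReal.ofReal (t ^ (p - 2 - 1)) else 0) =
      ∑ y, ENNReal.ofReal (4 * ε ^ 2 * ‖f y‖ ^ 2 * (4 * ‖f y‖) ^ (p - 2)) := by
    rw [lintegral_finsetSum _ (fun x _ => (hm _ _).const_mul _), Finset.mul_sum]
    refine Finset.sum_congr rfl fun y _ => ?_
    rw [lintegral_const_mul _ (hm _ _),
      ENNReal.ofReal_mul (p := 4 * ε ^ 2 * ‖f y‖ ^ 2) (by positivity),
      interp_lc (4 * ‖f y‖) (p - 2) (by positivity) hp2, mul_left_comm]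
  have e3 : ENNReal.ofReal (p - 2) * ∑ x, ENNReal.ofReal (‖∑ y, K x y * f y‖ ^ p) ≤
      ENNReal.ofReal p * ∑ y, ENNReal.ofReal (4 * ε ^ 2 * ‖f y‖ ^ 2 * (4 * ‖f y‖) ^ (p - 2)) := by
    rw [e1, ← e2, mul_left_comm]
    gcongr ENNReal.ofReal p * (ENNReal.ofReal (p - 2) * ?_)
    exact setLIntegral_mono' measurableSet_Ioi fun t ht => key t ht
  rw [← ENNReal.ofReal_sum_of_nonneg (fun _ _ => by positivity),
    ← ENNReal.ofReal_sum_of_nonneg (fun _ _ => by positivity),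
    ← ENNReal.ofReal_mul hp2.le, ← ENNReal.ofReal_mul (by linarith),
    ENNReal.ofReal_le_ofReal_iff (by have : 0 < p := by linarith
                                     positivity)] at e3
  have e4 : ∀ y, 4 * ε ^ 2 * ‖f y‖ ^ 2 * (4 * ‖f y‖) ^ (p - 2) =
      (4 * ε ^ 2 * 4 ^ (p - 2)) * ‖f y‖ ^ p := by
    intro y
    rw [Real.mul_rpow (by norm_num) (norm_nonneg _)]
    have : ‖f y‖ ^ 2 * ‖f y‖ ^ (p - 2) = ‖f y‖ ^ p := by
      rw [← Real.rpow_natCast, ← Real.rpow_add' (norm_nonneg _) (by push_cast; linarith)]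
      congr 1
      push_cast
      ring
    rw [← this]
    ring
  simp only [e4] at e3
  rw [← Finset.mul_sum] at e3
  have e5 : (4 * p * 4 ^ (p - 2) / (p - 2) * ε ^ 2) * ∑ y, ‖f y‖ ^ p =
      (p * (4 * ε ^ 2 * 4 ^ (p - 2) * ∑ y, ‖f y‖ ^ p)) / (p - 2) := by
    field_simp
  rw [e5, le_div_iff₀ hp2, mul_comm]
  exact e3

/-- the case `p > 2` with a small constant -/
theorem interp_gt' (p : ℝ) (hp : 2 < p) (η : ℝ) (hη : 0 < η) :
    ∃ ε : ℝ, 0 < ε ∧ ∀ (H : Type) [Fintype H] (K : H → H → ℂ),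
      (∀ x, ∑ y, ‖K x y‖ ≤ 2) →
      (∀ f : H → ℂ, ∑ x, ‖∑ y, K x y * f y‖ ^ 2 ≤ ε ^ 2 * ∑ y, ‖f y‖ ^ 2) →
      ∀ f : H → ℂ, ∑ x, ‖∑ y, K x y * f y‖ ^ p ≤ η ^ p * ∑ y, ‖f y‖ ^ p := by
  have hC : 0 < 4 * p * 4 ^ (p - 2) / (p - 2) := by
    have : 0 < p - 2 := by linarith
    have : 0 < p := by linarith
    positivity
  refine ⟨√(η ^ p / (4 * p * 4 ^ (p - 2) / (p - 2))), by positivity, ?_⟩
  intro H _ K h1 h2 f
  refine (interp_gt p hp K _ h1 h2 f).trans ?_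
  rw [Real.sq_sqrt (by positivity), mul_div_cancel₀ _ hC.ne']

theorem interp (p : ℝ) (hp : 1 < p) (η : ℝ) (hη : 0 < η) :
    ∃ ε : ℝ, 0 < ε ∧ ∀ (H : Type) [Fintype H] (K : H → H → ℂ),
      (∀ x, ∑ y, ‖K x y‖ ≤ 2) → (∀ y, ∑ x, ‖K x y‖ ≤ 2) →
      (∀ f : H → ℂ, ∑ x, ‖∑ y, K x y * f y‖ ^ 2 ≤ ε ^ 2 * ∑ y, ‖f y‖ ^ 2) →
      ∀ f : H → ℂ, ∑ x, ‖∑ y, K x y * f y‖ ^ p ≤ η ^ p * ∑ y, ‖f y‖ ^ p := by
  rcases lt_trichotomy p 2 with hp2 | hp2 | hp2
  · have hpq : p.HolderConjugate (p / (p - 1)) := Real.HolderConjugate.conjExponent hp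
    have hq2 : 2 < p / (p - 1) := by
      rw [lt_div_iff₀ (by linarith)]; linarith
    obtain ⟨ε, hε, h⟩ := interp_gt' (p / (p - 1)) hq2 η hη
    refine ⟨ε, hε, fun H _ K h1 h2 h3 f => ?_⟩
    have h22 : Real.HolderConjugate 2 2 := Real.HolderConjugate.two_two
    have h4 : ∀ g : H → ℂ, ∑ y, ‖∑ x, K x y * g x‖ ^ 2 ≤ ε ^ 2 * ∑ x, ‖g x‖ ^ 2 := by
      intro g
      have := interp_dual K 2 2 h22 ε hε.le (fun f => by
        have := h3 f
        simpa only [Real.rpow_two] using this) g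
      simpa only [Real.rpow_two] using this
    have h5 := h H (fun y x => K x y) h2 h4
    exact interp_dual (fun y x => K x y) (p / (p - 1)) p hpq.symm η hη.le h5 f
  · subst hp2
    refine ⟨η, hη, fun H _ K _ _ h f => ?_⟩
    have := h f
    simpa only [Real.rpow_two] using this
  · obtain ⟨ε, hε, h⟩ := interp_gt' p hp2 η hη
    exact ⟨ε, hε, fun H _ K h1 _ h3 f => h H K h1 h3 f⟩

end Pool.Agent.H368.NV
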