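import Pool.Agent.H368.NV.KillMem
import Pool.Agent.H368.NV.Interp

/-!
# An expander on `(ZMod N)²`

PROOF SKETCH of `gap`. Let `μ(ξ) = |f̂(ξ)|²` for the Fourier transform on `(ZMod N)²`, `‖f‖ = 1`, `μ(0) = 0`, `∑ μ = 1`
(for a suitable normalization). Claim: `‖f ∘ g - f‖ ≥ 1/9` for some `g = gen N i`. Suppose `‖f ∘ g - f‖ < ε = 1/9`
for all of them. Let `|x|` be the absolute value of the representative of `x : ZMod N` in `(-N/2, N/2]` (`ZMod.valMinAbs`),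
and `D = {ξ : |ξ₁| < N/4, |ξ₂| < N/4}`. From the translations: `∑ |e(ξ_i / N) - 1|² μ(ξ) ≤ ε²` and
`|e(ξ_i / N) - 1|² ≥ 2` if `|ξ_i| ≥ N/4`, so `μ(Dᶜ) ≤ ε²`. Let `U (x, y) = (x + y, y)`, `L (x, y) = (x, x + y)`. Since
`∑ | |a|² - |b|² | ≤ ‖a - b‖ ‖|a| + |b|‖`, we get `|μ(U E) - μ(E)| ≤ 2 ε`, and the same for `L, U⁻¹, L⁻¹`, for all sets
`E` of characters (the transposes of `U^{±1}`, `L^{±1}` are `L^{±1}`, `U^{±1}`). Let `S₁` be the set of all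
`(x, y) ∈ D` with `x y > 0` or (`y = 0`, `x ≠ 0`) (for the representatives). As `|x + y| < N/2`, `U S₁` and `L S₁` are
disjoint (in `U S₁`: `|x| > |y|`; in `L S₁`: `|y| ≥ |x|`), and both are contained in `S₁ ∪ Dᶜ`. So
`2 μ(S₁) - 4 ε ≤ μ(S₁) + ε²`, `μ(S₁) ≤ 4 ε + ε²`. In the same way (with `U⁻¹`, `L⁻¹`) `μ(S₂) ≤ 4 ε + ε²` for
`S₂` = all `(x, y) ∈ D` with `x y < 0` or (`x = 0`, `y ≠ 0`). As `D = {0} ∪ S₁ ∪ S₂`, `1 ≤ 8 ε + 3 ε² < 1`, a contradiction.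
So for some `g`, `‖f ∘ g - f‖ ≥ (1/9) ‖f‖`, and by
`‖(1/9) ∑_g f ∘ g‖² = (1/9) ∑_g ‖f ∘ g‖² - (1/162) ∑_{g, g'} ‖f ∘ g - f ∘ g'‖²` (`gen N 0 = id`),
`‖(1/9) ∑_g f ∘ g‖² ≤ (1 - 1/6561) ‖f‖²`.

PROOF SKETCH of `expander`. `Am N` is doubly stochastic, so it commutes with `avg` and `Am * avg = avg`, and
`‖(Am^k - avg) f‖₂ ≤ c^{k/2} ‖f‖₂` (`(Am^k - avg) f = Am^k (f - avg f)`); use `interp`.
-/

set_option autoImplicit false
set_option linter.unusedVariables false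

namespace Pool.Agent.H368.NV

open scoped ENNReal NNReal Topology
open Matrix

noncomputable section

/-- The group `(ZMod N)²`. -/
abbrev Sq (N : ℕ) : Type := ZMod N × ZMod N

/-- The nine affine maps. -/
def gen (N : ℕ) (i : Fin 9) (x : Sq N) : Sq N :=
  match i with
  | 0 => x
  | 1 => (x.1 + x.2, x.2)
  | 2 => (x.1 - x.2, x.2)
  | 3 => (x.1, x.2 + x.1)
  | 4 => (x.1, x.2 - x.1)
  | 5 => (x.1 + 1, x.2)
  | 6 => (x.1 - 1, x.2)
  | 7 => (x.1, x.2 + 1)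
  | 8 => (x.1, x.2 - 1)

/-! ### The Fourier transform on `(ZMod N)²` -/

section fourier

variable {N : ℕ} [NeZero N]

/-- the character `e(x)` -/
def ee (N : ℕ) [NeZero N] (t : ZMod N) : ℂ := ZMod.stdAddChar t

theorem ee_add (s t : ZMod N) : ee N (s + t) = ee N s * ee N t := AddChar.map_add_eq_mul _ _ _

theorem ee_zero : ee N 0 = 1 := AddChar.map_zero_eq_one _

theorem ee_conj (t : ZMod N) : (starRingEnd ℂ) (ee N t) = ee N (-t) :=
  (AddChar.map_neg_eq_conj _ _).symm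

theorem ee_norm (t : ZMod N) : ‖ee N t‖ = 1 := by
  unfold ee
  rw [ZMod.stdAddChar_apply]
  exact Circle.norm_coe _

theorem ee_sum (t : ZMod N) : ∑ a : ZMod N, ee N (a * t) = if t = 0 then (N : ℂ) else 0 := by
  have h := AddChar.sum_mulShift t (ZMod.isPrimitive_stdAddChar N)
  unfold ee
  rw [h]
  simp [ZMod.card]

/-- the Fourier transform -/
def FT (f : Sq N → ℂ) (ξ : Sq N) : ℂ := ∑ x : Sq N, ee N (ξ.1 * x.1 + ξ.2 * x.2) * f x

theorem FT_sub (f g : Sq N → ℂ) (ξ : Sq N) : FT (fun x => f x - g x) ξ = FT f ξ - FT g ξ := by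
  unfold FT
  rw [← Finset.sum_sub_distrib]
  exact Finset.sum_congr rfl fun x _ => by ring

/-- orthogonality -/
theorem ee_orth (x y : Sq N) :
    ∑ ξ : Sq N, ee N (ξ.1 * x.1 + ξ.2 * x.2) * ee N (-(ξ.1 * y.1 + ξ.2 * y.2)) =
      if x = y then (N : ℂ) ^ 2 else 0 := by
  have h1 : ∀ ξ : Sq N, ee N (ξ.1 * x.1 + ξ.2 * x.2) * ee N (-(ξ.1 * y.1 + ξ.2 * y.2)) =
      ee N (ξ.1 * (x.1 - y.1)) * ee N (ξ.2 * (x.2 - y.2)) := by
    intro ξ
    rw [← ee_add, ← ee_add]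
    congr 1
    ring
  rw [Finset.sum_congr rfl fun ξ _ => h1 ξ, Fintype.sum_prod_type]
  simp only
  rw [Finset.sum_congr rfl fun a _ => (Finset.mul_sum _ _ _).symm, ← Finset.sum_mul, ee_sum, ee_sum]
  by_cases h : x = y
  · subst h; simp [sq]
  · rw [if_neg h]
    by_cases h2 : x.1 - y.1 = 0
    · rw [if_neg (show ¬ x.2 - y.2 = 0 from fun h3 => h
        (Prod.ext (sub_eq_zero.1 h2) (sub_eq_zero.1 h3))), mul_zero]
    · rw [if_neg h2, zero_mul]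

/-- Plancherel's identity -/
theorem plancherel (f : Sq N → ℂ) :
    ∑ ξ, ‖FT f ξ‖ ^ 2 = (N : ℝ) ^ 2 * ∑ x, ‖f x‖ ^ 2 := by
  have h1 : ∀ ξ : Sq N, ((‖FT f ξ‖ ^ 2 : ℝ) : ℂ) = ∑ x : Sq N, ∑ y : Sq N,
      (f x * (starRingEnd ℂ) (f y)) *
        (ee N (ξ.1 * x.1 + ξ.2 * x.2) * ee N (-(ξ.1 * y.1 + ξ.2 * y.2))) := by
    intro ξ
    rw [← Complex.normSq_eq_norm_sq, ← Complex.mul_conj]
    unfold FT
    rw [map_sum, Finset.sum_mul_sum]
    refine Finset.sum_congr rfl fun x _ => Finset.sum_congr rfl fun y _ => ?_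
    rw [map_mul, ee_conj]
    ring
  have h2 : ((∑ ξ, ‖FT f ξ‖ ^ 2 : ℝ) : ℂ) = (((N : ℝ) ^ 2 * ∑ x, ‖f x‖ ^ 2 : ℝ) : ℂ) := by
    rw [Complex.ofReal_sum, Finset.sum_congr rfl fun ξ _ => h1 ξ, Finset.sum_comm]
    push_cast
    rw [Finset.mul_sum]
    refine Finset.sum_congr rfl fun x _ => ?_
    rw [Finset.sum_comm]
    have h3 : ∀ y : Sq N, ∑ ξ : Sq N, (f x * (starRingEnd ℂ) (f y)) *
        (ee N (ξ.1 * x.1 + ξ.2 * x.2) * ee N (-(ξ.1 * y.1 + ξ.2 * y.2))) =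
        if x = y then (N : ℂ) ^ 2 * (f x * (starRingEnd ℂ) (f y)) else 0 := by
      intro y
      rw [← Finset.mul_sum, ee_orth]
      split_ifs <;> ring
    rw [Finset.sum_congr rfl fun y _ => h3 y, Finset.sum_ite_eq, if_pos (Finset.mem_univ _),
      Complex.mul_conj, Complex.normSq_eq_norm_sq]
    push_cast
    rfl
  exact_mod_cast h2

/-- the shear in the first coordinate -/
def Ue (N : ℕ) : Sq N ≃ Sq N where
  toFun x := (x.1 + x.2, x.2)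
  invFun x := (x.1 - x.2, x.2)
  left_inv x := by simp
  right_inv x := by simp

/-- the shear in the second coordinate -/
def Le (N : ℕ) : Sq N ≃ Sq N where
  toFun x := (x.1, x.2 + x.1)
  invFun x := (x.1, x.2 - x.1)
  left_inv x := by simp
  right_inv x := by simp

/-- the translation in the first coordinate -/
def T1e (N : ℕ) : Sq N ≃ Sq N where
  toFun x := (x.1 + 1, x.2)
  invFun x := (x.1 - 1, x.2)
  left_inv x := by simp
  right_inv x := by simp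

/-- the translation in the second coordinate -/
def T2e (N : ℕ) : Sq N ≃ Sq N where
  toFun x := (x.1, x.2 + 1)
  invFun x := (x.1, x.2 - 1)
  left_inv x := by simp
  right_inv x := by simp

theorem FT_comp (e : Sq N ≃ Sq N) (f : Sq N → ℂ) (ξ : Sq N) :
    FT (fun x => f (e x)) ξ =
      ∑ x : Sq N, ee N (ξ.1 * (e.symm x).1 + ξ.2 * (e.symm x).2) * f x := by
  unfold FT
  rw [← Equiv.sum_comp e.symm]
  exact Finset.sum_congr rfl fun x _ => by simp only [e.apply_symm_apply]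

theorem FT_U (f : Sq N → ℂ) (ξ : Sq N) : FT (fun x => f (Ue N x)) ξ = FT f ((Le N).symm ξ) := by
  rw [FT_comp]
  unfold FT
  refine Finset.sum_congr rfl fun x _ => ?_
  congr 2
  simp only [Ue, Le, Equiv.coe_fn_symm_mk]
  ring

theorem FT_Us (f : Sq N → ℂ) (ξ : Sq N) : FT (fun x => f ((Ue N).symm x)) ξ = FT f (Le N ξ) := by
  rw [FT_comp]
  unfold FT
  refine Finset.sum_congr rfl fun x _ => ?_
  congr 2
  simp only [Ue, Le, Equiv.symm_symm, Equiv.coe_fn_mk]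
  ring

theorem FT_L (f : Sq N → ℂ) (ξ : Sq N) : FT (fun x => f (Le N x)) ξ = FT f ((Ue N).symm ξ) := by
  rw [FT_comp]
  unfold FT
  refine Finset.sum_congr rfl fun x _ => ?_
  congr 2
  simp only [Ue, Le, Equiv.coe_fn_symm_mk]
  ring

theorem FT_Ls (f : Sq N → ℂ) (ξ : Sq N) : FT (fun x => f ((Le N).symm x)) ξ = FT f (Ue N ξ) := by
  rw [FT_comp]
  unfold FT
  refine Finset.sum_congr rfl fun x _ => ?_
  congr 2
  simp only [Ue, Le, Equiv.symm_symm, Equiv.coe_fn_mk]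
  ring

theorem FT_T1 (f : Sq N → ℂ) (ξ : Sq N) :
    FT (fun x => f (T1e N x)) ξ = ee N (-ξ.1) * FT f ξ := by
  rw [FT_comp]
  unfold FT
  rw [Finset.mul_sum]
  refine Finset.sum_congr rfl fun x _ => ?_
  rw [← mul_assoc, ← ee_add]
  congr 2
  simp only [T1e, Equiv.coe_fn_symm_mk]
  ring

theorem FT_T2 (f : Sq N → ℂ) (ξ : Sq N) :
    FT (fun x => f (T2e N x)) ξ = ee N (-ξ.2) * FT f ξ := by
  rw [FT_comp]
  unfold FT
  rw [Finset.mul_sum]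
  refine Finset.sum_congr rfl fun x _ => ?_
  rw [← mul_assoc, ← ee_add]
  congr 2
  simp only [T2e, Equiv.coe_fn_symm_mk]
  ring

/-- `|e(t) - 1|² ≥ 2` for `|t| ≥ N / 4` -/
theorem ee_far (t : ZMod N) (ht : (N : ℤ) ≤ 4 * |t.valMinAbs|) : 2 ≤ ‖ee N (-t) - 1‖ ^ 2 := by
  have hN : (0 : ℝ) < N := by exact_mod_cast NeZero.pos N
  obtain ⟨v, hv⟩ : ∃ v : ℤ, v = t.valMinAbs := ⟨_, rfl⟩
  have hvt : (v : ZMod N) = t := by rw [hv]; exact ZMod.coe_valMinAbs t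
  have hv1 := t.valMinAbs_mem_Ioc
  rw [← hv] at ht hv1
  have hv2 : 2 * |v| ≤ N := by
    rcases abs_cases v with ⟨h, _⟩ | ⟨h, _⟩ <;> rw [h] <;> [linarith [hv1.2]; linarith [hv1.1]]
  have h1 : ‖ee N (-t) - 1‖ = ‖ee N t - 1‖ := by
    rw [← ee_conj, ← map_one (starRingEnd ℂ), ← map_sub, RCLike.norm_conj, map_one]
  have h2 : ee N t = Complex.exp (((2 * Real.pi * v / N : ℝ) : ℂ) * Complex.I) := by
    unfold ee
    rw [← hvt, ZMod.stdAddChar_coe]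
    congr 1
    push_cast
    ring
  have h3 : ‖ee N t - 1‖ ^ 2 = 2 - 2 * Real.cos (2 * Real.pi * v / N) := by
    rw [h2, ← Complex.normSq_eq_norm_sq, Complex.normSq_apply]
    simp only [Complex.sub_re, Complex.one_re, Complex.sub_im, Complex.one_im,
      Complex.exp_ofReal_mul_I_re, Complex.exp_ofReal_mul_I_im]
    nlinarith [Real.sin_sq_add_cos_sq (2 * Real.pi * v / N)]
  have h4 : Real.cos (2 * Real.pi * v / N) ≤ 0 := by
    rw [← Real.cos_abs]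
    have h5 : |2 * Real.pi * v / N| = 2 * Real.pi * (|v| : ℤ) / N := by
      rw [abs_div, abs_mul, abs_mul, abs_of_pos (show (0 : ℝ) < 2 by norm_num),
        abs_of_pos Real.pi_pos, abs_of_pos hN, Int.cast_abs]
    have h6 : (N : ℝ) ≤ 4 * ((|v| : ℤ) : ℝ) := by exact_mod_cast ht
    have h7 : 2 * ((|v| : ℤ) : ℝ) ≤ N := by exact_mod_cast hv2
    rw [h5]
    apply Real.cos_nonpos_of_pi_div_two_le_of_le
    · rw [le_div_iff₀ hN]
      nlinarith [Real.pi_pos]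
    · rw [div_le_iff₀ hN]
      nlinarith [Real.pi_pos]
  rw [h1, h3]
  linarith

/-- the small box -/
def inD (N : ℕ) (ξ : Sq N) : Prop :=
  (-(N : ℤ) < 4 * ξ.1.valMinAbs ∧ 4 * ξ.1.valMinAbs < N) ∧
    (-(N : ℤ) < 4 * ξ.2.valMinAbs ∧ 4 * ξ.2.valMinAbs < N)

open Classical in
/-- the first and third quadrants with the first axis -/
def S1 (N : ℕ) [NeZero N] : Finset (Sq N) := Finset.univ.filter fun ξ => inD N ξ ∧
  ((0 < ξ.1.valMinAbs ∧ 0 < ξ.2.valMinAbs) ∨ (ξ.1.valMinAbs < 0 ∧ ξ.2.valMinAbs < 0) ∨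
    (ξ.2.valMinAbs = 0 ∧ ξ.1.valMinAbs ≠ 0))

open Classical in
/-- the second and fourth quadrants with the second axis -/
def S2 (N : ℕ) [NeZero N] : Finset (Sq N) := Finset.univ.filter fun ξ => inD N ξ ∧
  ((0 < ξ.1.valMinAbs ∧ ξ.2.valMinAbs < 0) ∨ (ξ.1.valMinAbs < 0 ∧ 0 < ξ.2.valMinAbs) ∨
    (ξ.1.valMinAbs = 0 ∧ ξ.2.valMinAbs ≠ 0))

open Classical in
/-- the complement of the small box -/
def BB (N : ℕ) [NeZero N] : Finset (Sq N) := Finset.univ.filter fun ξ => ¬ inD N ξ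

theorem vma_add {a b : ZMod N} (h1 : -(N : ℤ) < 2 * (a.valMinAbs + b.valMinAbs))
    (h2 : 2 * (a.valMinAbs + b.valMinAbs) < N) :
    (a + b).valMinAbs = a.valMinAbs + b.valMinAbs := by
  rw [ZMod.valMinAbs_spec]
  refine ⟨by simp, ?_, ?_⟩ <;> linarith

theorem vma_sub {a b : ZMod N} (h1 : -(N : ℤ) < 2 * (a.valMinAbs - b.valMinAbs))
    (h2 : 2 * (a.valMinAbs - b.valMinAbs) < N) :
    (a - b).valMinAbs = a.valMinAbs - b.valMinAbs := by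
  rw [ZMod.valMinAbs_spec]
  refine ⟨by simp, ?_, ?_⟩ <;> linarith

omit [NeZero N] in
theorem shear_count (μ : Sq N → ℝ) (hμ : ∀ ξ, 0 ≤ μ ξ) (S B : Finset (Sq N))
    (P Q : Sq N ≃ Sq N) (hP : ∀ ξ ∈ S, P ξ ∈ S ∨ P ξ ∈ B) (hQ : ∀ ξ ∈ S, Q ξ ∈ S ∨ Q ξ ∈ B)
    (hPQ : ∀ ξ ∈ S, ∀ ξ' ∈ S, P ξ ≠ Q ξ') :
    ∑ ξ ∈ S, μ (P ξ) + ∑ ξ ∈ S, μ (Q ξ) ≤ ∑ ξ ∈ S, μ ξ + ∑ ξ ∈ B, μ ξ := by
  classical
  have h1 : ∑ ξ ∈ S, μ (P ξ) = ∑ ξ ∈ S.image P, μ ξ :=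
    (Finset.sum_image fun x _ y _ h => P.injective h).symm
  have h2 : ∑ ξ ∈ S, μ (Q ξ) = ∑ ξ ∈ S.image Q, μ ξ :=
    (Finset.sum_image fun x _ y _ h => Q.injective h).symm
  have h3 : Disjoint (S.image P) (S.image Q) := by
    rw [Finset.disjoint_left]
    intro ξ h h'
    obtain ⟨x, hx, rfl⟩ := Finset.mem_image.1 h
    obtain ⟨y, hy, hxy⟩ := Finset.mem_image.1 h'
    exact hPQ x hx y hy hxy.symm
  rw [h1, h2, ← Finset.sum_union h3]
  have h4 : S.image P ∪ S.image Q ⊆ S ∪ B := by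
    intro ξ h
    rcases Finset.mem_union.1 h with h | h
    · obtain ⟨x, hx, rfl⟩ := Finset.mem_image.1 h
      exact Finset.mem_union.2 (hP x hx)
    · obtain ⟨x, hx, rfl⟩ := Finset.mem_image.1 h
      exact Finset.mem_union.2 (hQ x hx)
  refine (Finset.sum_le_sum_of_subset_of_nonneg h4 fun ξ _ _ => hμ ξ).trans ?_
  have h5 := Finset.sum_union_inter (s₁ := S) (s₂ := B) (f := μ)
  have h6 : 0 ≤ ∑ ξ ∈ S ∩ B, μ ξ := Finset.sum_nonneg fun ξ _ => hμ ξ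
  linarith

theorem shear_S1 (μ : Sq N → ℝ) (hμ : ∀ ξ, 0 ≤ μ ξ) :
    ∑ ξ ∈ S1 N, μ (Ue N ξ) + ∑ ξ ∈ S1 N, μ (Le N ξ) ≤
      ∑ ξ ∈ S1 N, μ ξ + ∑ ξ ∈ BB N, μ ξ := by
  classical
  apply shear_count μ hμ
  · intro ξ hξ
    simp only [S1, BB, Finset.mem_filter, Finset.mem_univ, true_and] at hξ ⊢
    by_cases hD : inD N (Ue N ξ)
    · refine Or.inl ⟨hD, ?_⟩
      have h1 := vma_add (N := N) (a := ξ.1) (b := ξ.2) (by have := hξ.1; unfold inD at this; omega)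
        (by have := hξ.1; unfold inD at this; omega)
      simp only [Ue, Equiv.coe_fn_mk]
      omega
    · exact Or.inr hD
  · intro ξ hξ
    simp only [S1, BB, Finset.mem_filter, Finset.mem_univ, true_and] at hξ ⊢
    by_cases hD : inD N (Le N ξ)
    · refine Or.inl ⟨hD, ?_⟩
      have h1 := vma_add (N := N) (a := ξ.2) (b := ξ.1) (by have := hξ.1; unfold inD at this; omega)
        (by have := hξ.1; unfold inD at this; omega)
      simp only [Le, Equiv.coe_fn_mk]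
      omega
    · exact Or.inr hD
  · intro ξ hξ ξ' hξ' h
    simp only [S1, Finset.mem_filter, Finset.mem_univ, true_and] at hξ hξ'
    simp only [Ue, Le, Equiv.coe_fn_mk, Prod.mk.injEq] at h
    have h1 := vma_add (N := N) (a := ξ.1) (b := ξ.2) (by have := hξ.1; unfold inD at this; omega)
        (by have := hξ.1; unfold inD at this; omega)
    have h2 := vma_add (N := N) (a := ξ'.2) (b := ξ'.1)
        (by have := hξ'.1; unfold inD at this; omega)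
        (by have := hξ'.1; unfold inD at this; omega)
    rw [h.1] at h1
    rw [← h.2] at h2
    omega

theorem shear_S2 (μ : Sq N → ℝ) (hμ : ∀ ξ, 0 ≤ μ ξ) :
    ∑ ξ ∈ S2 N, μ ((Ue N).symm ξ) + ∑ ξ ∈ S2 N, μ ((Le N).symm ξ) ≤
      ∑ ξ ∈ S2 N, μ ξ + ∑ ξ ∈ BB N, μ ξ := by
  classical
  apply shear_count μ hμ
  · intro ξ hξ
    simp only [S2, BB, Finset.mem_filter, Finset.mem_univ, true_and] at hξ ⊢
    by_cases hD : inD N ((Ue N).symm ξ)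
    · refine Or.inl ⟨hD, ?_⟩
      have h1 := vma_sub (N := N) (a := ξ.1) (b := ξ.2) (by have := hξ.1; unfold inD at this; omega)
        (by have := hξ.1; unfold inD at this; omega)
      simp only [Ue, Equiv.coe_fn_symm_mk]
      omega
    · exact Or.inr hD
  · intro ξ hξ
    simp only [S2, BB, Finset.mem_filter, Finset.mem_univ, true_and] at hξ ⊢
    by_cases hD : inD N ((Le N).symm ξ)
    · refine Or.inl ⟨hD, ?_⟩
      have h1 := vma_sub (N := N) (a := ξ.2) (b := ξ.1) (by have := hξ.1; unfold inD at this; omega)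
        (by have := hξ.1; unfold inD at this; omega)
      simp only [Le, Equiv.coe_fn_symm_mk]
      omega
    · exact Or.inr hD
  · intro ξ hξ ξ' hξ' h
    simp only [S2, Finset.mem_filter, Finset.mem_univ, true_and] at hξ hξ'
    simp only [Ue, Le, Equiv.coe_fn_symm_mk, Prod.mk.injEq] at h
    have h1 := vma_sub (N := N) (a := ξ.1) (b := ξ.2) (by have := hξ.1; unfold inD at this; omega)
        (by have := hξ.1; unfold inD at this; omega)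
    have h2 := vma_sub (N := N) (a := ξ'.2) (b := ξ'.1)
        (by have := hξ'.1; unfold inD at this; omega)
        (by have := hξ'.1; unfold inD at this; omega)
    rw [h.1] at h1
    rw [← h.2] at h2
    omega

/-- everything is covered -/
theorem cover (μ : Sq N → ℝ) (hμ : ∀ ξ, 0 ≤ μ ξ) (h0 : μ 0 = 0) :
    ∑ ξ, μ ξ ≤ ∑ ξ ∈ S1 N, μ ξ + ∑ ξ ∈ S2 N, μ ξ + ∑ ξ ∈ BB N, μ ξ := by
  classical
  unfold S1 S2 BB
  rw [Finset.sum_filter, Finset.sum_filter, Finset.sum_filter, ← Finset.sum_add_distrib,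
    ← Finset.sum_add_distrib]
  refine Finset.sum_le_sum fun ξ _ => ?_
  have h := hμ ξ
  by_cases hD : inD N ξ
  · by_cases h1 : ξ.1.valMinAbs = 0 ∧ ξ.2.valMinAbs = 0
    · have : ξ = 0 := Prod.ext ((ZMod.valMinAbs_eq_zero _).1 h1.1)
        ((ZMod.valMinAbs_eq_zero _).1 h1.2)
      rw [this, h0]
      simp
    · have h2 : ((0 < ξ.1.valMinAbs ∧ 0 < ξ.2.valMinAbs) ∨
          (ξ.1.valMinAbs < 0 ∧ ξ.2.valMinAbs < 0) ∨
          (ξ.2.valMinAbs = 0 ∧ ξ.1.valMinAbs ≠ 0)) ∨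
          ((0 < ξ.1.valMinAbs ∧ ξ.2.valMinAbs < 0) ∨ (ξ.1.valMinAbs < 0 ∧ 0 < ξ.2.valMinAbs) ∨
          (ξ.1.valMinAbs = 0 ∧ ξ.2.valMinAbs ≠ 0)) := by omega
      rcases h2 with h2 | h2
      · rw [if_pos ⟨hD, h2⟩]
        split_ifs <;> linarith
      · rw [if_pos (show inD N ξ ∧ _ from ⟨hD, h2⟩)]
        split_ifs <;> linarith
  · rw [if_pos hD]
    split_ifs <;> linarith

theorem near_inv (A B : Sq N → ℂ) (S : Finset (Sq N)) :
    ∑ ξ ∈ S, ‖A ξ‖ ^ 2 ≤ ∑ ξ ∈ S, ‖B ξ‖ ^ 2 + 9 * ∑ ξ, ‖B ξ - A ξ‖ ^ 2 +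
      (1 / 18) * (∑ ξ, ‖A ξ‖ ^ 2 + ∑ ξ, ‖B ξ‖ ^ 2) := by
  have h1 : ∀ ξ, ‖A ξ‖ ^ 2 ≤ ‖B ξ‖ ^ 2 + (9 * ‖B ξ - A ξ‖ ^ 2 +
      (1 / 18) * (‖A ξ‖ ^ 2 + ‖B ξ‖ ^ 2)) := by
    intro ξ
    have h2 : ‖A ξ‖ ≤ ‖B ξ‖ + ‖B ξ - A ξ‖ := by
      have := norm_sub_le (B ξ) (B ξ - A ξ)
      rwa [sub_sub_cancel] at this
    have h3 := norm_nonneg (A ξ)
    have h4 := norm_nonneg (B ξ)
    have h5 := norm_nonneg (B ξ - A ξ)
    nlinarith [sq_nonneg (18 * ‖B ξ - A ξ‖ - (‖A ξ‖ + ‖B ξ‖)), sq_nonneg (‖A ξ‖ - ‖B ξ‖),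
      mul_le_mul_of_nonneg_right h2 (add_nonneg h3 h4)]
  calc ∑ ξ ∈ S, ‖A ξ‖ ^ 2 ≤ ∑ ξ ∈ S, (‖B ξ‖ ^ 2 + (9 * ‖B ξ - A ξ‖ ^ 2 +
      (1 / 18) * (‖A ξ‖ ^ 2 + ‖B ξ‖ ^ 2))) := Finset.sum_le_sum fun ξ _ => h1 ξ
    _ = ∑ ξ ∈ S, ‖B ξ‖ ^ 2 + ∑ ξ ∈ S, (9 * ‖B ξ - A ξ‖ ^ 2 +
      (1 / 18) * (‖A ξ‖ ^ 2 + ‖B ξ‖ ^ 2)) := Finset.sum_add_distrib
    _ ≤ ∑ ξ ∈ S, ‖B ξ‖ ^ 2 + ∑ ξ, (9 * ‖B ξ - A ξ‖ ^ 2 +
      (1 / 18) * (‖A ξ‖ ^ 2 + ‖B ξ‖ ^ 2)) := by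
        gcongr
        exact Finset.subset_univ S
    _ = _ := by
        rw [Finset.sum_add_distrib, ← Finset.mul_sum, ← Finset.mul_sum, Finset.sum_add_distrib]
        ring

/-- the spectral gap, in terms of the displacements -/
theorem displacement (f : Sq N → ℂ) (hf : ∑ x, f x = 0) :
    5 / 81 * ∑ x, ‖f x‖ ^ 2 ≤ ∑ x, ‖f (Ue N x) - f x‖ ^ 2 + ∑ x, ‖f ((Ue N).symm x) - f x‖ ^ 2 +
      ∑ x, ‖f (Le N x) - f x‖ ^ 2 + ∑ x, ‖f ((Le N).symm x) - f x‖ ^ 2 +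
      ∑ x, ‖f (T1e N x) - f x‖ ^ 2 + ∑ x, ‖f (T2e N x) - f x‖ ^ 2 := by
  classical
  have hN : (0 : ℝ) < (N : ℝ) ^ 2 := by
    have : (0 : ℝ) < N := by exact_mod_cast NeZero.pos N
    positivity
  have hP := plancherel f
  -- invariance of the total mass
  have hinv : ∀ e : Sq N ≃ Sq N, ∑ ξ, ‖FT f (e ξ)‖ ^ 2 = ∑ ξ, ‖FT f ξ‖ ^ 2 := fun e =>
    Equiv.sum_comp e fun ξ => ‖FT f ξ‖ ^ 2
  have h1 := near_inv (FT f) (fun ξ => FT f (Ue N ξ)) (S1 N)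
  have h2 := near_inv (FT f) (fun ξ => FT f (Le N ξ)) (S1 N)
  have h3 := near_inv (FT f) (fun ξ => FT f ((Ue N).symm ξ)) (S2 N)
  have h4 := near_inv (FT f) (fun ξ => FT f ((Le N).symm ξ)) (S2 N)
  rw [hinv] at h1 h2 h3 h4
  have d1 : ∑ ξ, ‖FT f (Ue N ξ) - FT f ξ‖ ^ 2 =
      (N : ℝ) ^ 2 * ∑ x, ‖f ((Le N).symm x) - f x‖ ^ 2 := by
    rw [← plancherel]
    exact Finset.sum_congr rfl fun ξ _ => by rw [FT_sub, FT_Ls]
  have d2 : ∑ ξ, ‖FT f (Le N ξ) - FT f ξ‖ ^ 2 =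
      (N : ℝ) ^ 2 * ∑ x, ‖f ((Ue N).symm x) - f x‖ ^ 2 := by
    rw [← plancherel]
    exact Finset.sum_congr rfl fun ξ _ => by rw [FT_sub, FT_Us]
  have d3 : ∑ ξ, ‖FT f ((Ue N).symm ξ) - FT f ξ‖ ^ 2 =
      (N : ℝ) ^ 2 * ∑ x, ‖f (Le N x) - f x‖ ^ 2 := by
    rw [← plancherel]
    exact Finset.sum_congr rfl fun ξ _ => by rw [FT_sub, FT_L]
  have d4 : ∑ ξ, ‖FT f ((Le N).symm ξ) - FT f ξ‖ ^ 2 =
      (N : ℝ) ^ 2 * ∑ x, ‖f (Ue N x) - f x‖ ^ 2 := by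
    rw [← plancherel]
    exact Finset.sum_congr rfl fun ξ _ => by rw [FT_sub, FT_U]
  have d5 : ∑ ξ : Sq N, ‖ee N (-ξ.1) - 1‖ ^ 2 * ‖FT f ξ‖ ^ 2 =
      (N : ℝ) ^ 2 * ∑ x, ‖f (T1e N x) - f x‖ ^ 2 := by
    rw [← plancherel]
    exact Finset.sum_congr rfl fun ξ _ => by
      rw [FT_sub, FT_T1, ← mul_pow, ← norm_mul, sub_mul, one_mul]
  have d6 : ∑ ξ : Sq N, ‖ee N (-ξ.2) - 1‖ ^ 2 * ‖FT f ξ‖ ^ 2 =
      (N : ℝ) ^ 2 * ∑ x, ‖f (T2e N x) - f x‖ ^ 2 := by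
    rw [← plancherel]
    exact Finset.sum_congr rfl fun ξ _ => by
      rw [FT_sub, FT_T2, ← mul_pow, ← norm_mul, sub_mul, one_mul]
  rw [d1] at h1
  rw [d2] at h2
  rw [d3] at h3
  rw [d4] at h4
  have c1 := shear_S1 (fun ξ => ‖FT f ξ‖ ^ 2) (fun ξ => by positivity)
  have c2 := shear_S2 (fun ξ => ‖FT f ξ‖ ^ 2) (fun ξ => by positivity)
  have h0 : ‖FT f 0‖ ^ 2 = 0 := by
    have : FT f 0 = ∑ x, f x := by
      unfold FT
      exact Finset.sum_congr rfl fun x _ => by simp [ee_zero]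
    rw [this, hf]; simp
  have c3 := cover (fun ξ => ‖FT f ξ‖ ^ 2) (fun ξ => by positivity) h0
  have c4 : 2 * ∑ ξ ∈ BB N, ‖FT f ξ‖ ^ 2 ≤ ∑ ξ : Sq N, ‖ee N (-ξ.1) - 1‖ ^ 2 * ‖FT f ξ‖ ^ 2 +
      ∑ ξ : Sq N, ‖ee N (-ξ.2) - 1‖ ^ 2 * ‖FT f ξ‖ ^ 2 := by
    unfold BB
    rw [Finset.sum_filter, Finset.mul_sum, ← Finset.sum_add_distrib]
    refine Finset.sum_le_sum fun ξ _ => ?_
    by_cases h : inD N ξ
    · rw [if_neg (not_not.2 h), mul_zero]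
      positivity
    · rw [if_pos h]
      have h5 : (N : ℤ) ≤ 4 * |ξ.1.valMinAbs| ∨ (N : ℤ) ≤ 4 * |ξ.2.valMinAbs| := by
        by_contra hcon
        push Not at hcon
        apply h
        have ha := abs_lt.1 (show |4 * ξ.1.valMinAbs| < N by rw [abs_mul]; simpa using hcon.1)
        have hb := abs_lt.1 (show |4 * ξ.2.valMinAbs| < N by rw [abs_mul]; simpa using hcon.2)
        exact ⟨ha, hb⟩
      have h6 : 0 ≤ ‖FT f ξ‖ ^ 2 := by positivity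
      rcases h5 with h5 | h5
      · have h7 := mul_le_mul_of_nonneg_right (ee_far _ h5) h6
        have h8 : 0 ≤ ‖ee N (-ξ.2) - 1‖ ^ 2 * ‖FT f ξ‖ ^ 2 := by positivity
        linarith
      · have h7 := mul_le_mul_of_nonneg_right (ee_far _ h5) h6
        have h8 : 0 ≤ ‖ee N (-ξ.1) - 1‖ ^ 2 * ‖FT f ξ‖ ^ 2 := by positivity
        linarith
  rw [d5, d6] at c4
  have e1 : 0 ≤ ∑ x, ‖f (T1e N x) - f x‖ ^ 2 := by positivity
  have e2 : 0 ≤ ∑ x, ‖f (T2e N x) - f x‖ ^ 2 := by positivity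
  rw [hP] at h1 h2 h3 h4 c3
  have key : (N : ℝ) ^ 2 * (5 / 81 * ∑ x, ‖f x‖ ^ 2) ≤ (N : ℝ) ^ 2 *
      (∑ x, ‖f (Ue N x) - f x‖ ^ 2 + ∑ x, ‖f ((Ue N).symm x) - f x‖ ^ 2 +
      ∑ x, ‖f (Le N x) - f x‖ ^ 2 + ∑ x, ‖f ((Le N).symm x) - f x‖ ^ 2 +
      ∑ x, ‖f (T1e N x) - f x‖ ^ 2 + ∑ x, ‖f (T2e N x) - f x‖ ^ 2) := by
    have e3 := mul_nonneg hN.le e1
    have e4 := mul_nonneg hN.le e2
    nlinarith [h1, h2, h3, h4, c1, c2, c3, c4, e3, e4]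
  exact le_of_mul_le_mul_left key hN

end fourier

theorem nine_sq (z : Fin 9 → ℂ) :
    ‖∑ i, z i‖ ^ 2 ≤ 9 * ∑ i, ‖z i‖ ^ 2 - ∑ i, ‖z i - z 0‖ ^ 2 := by
  have hsq : ∀ w : ℂ, ‖w‖ ^ 2 = w.re * w.re + w.im * w.im := fun w => by
    rw [← Complex.normSq_eq_norm_sq, Complex.normSq_apply]
  have hr : ∀ a : Fin 9 → ℝ, (∑ i, a i) ^ 2 ≤ 9 * ∑ i, a i ^ 2 - ∑ i, (a i - a 0) ^ 2 := by
    intro a
    have h1 : ∑ i, a i = 9 * a 0 + ∑ i : Fin 8, (a i.succ - a 0) := by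
      rw [Fin.sum_univ_succ, Finset.sum_sub_distrib]
      simp only [Finset.sum_const, Finset.card_univ, Fintype.card_fin, nsmul_eq_mul]
      push_cast
      ring
    have h2 : ∑ i, a i ^ 2 = 9 * a 0 ^ 2 + 2 * a 0 * ∑ i : Fin 8, (a i.succ - a 0) +
        ∑ i : Fin 8, (a i.succ - a 0) ^ 2 := by
      rw [Fin.sum_univ_succ, Finset.mul_sum, add_assoc, ← Finset.sum_add_distrib]
      have : ∀ i : Fin 8, 2 * a 0 * (a i.succ - a 0) + (a i.succ - a 0) ^ 2 =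
          a i.succ ^ 2 - a 0 ^ 2 := fun i => by ring
      rw [Finset.sum_congr rfl fun i _ => this i, Finset.sum_sub_distrib]
      simp only [Finset.sum_const, Finset.card_univ, Fintype.card_fin, nsmul_eq_mul]
      push_cast
      ring
    have h3 : ∑ i, (a i - a 0) ^ 2 = ∑ i : Fin 8, (a i.succ - a 0) ^ 2 := by
      rw [Fin.sum_univ_succ]
      simp
    have h4 := sq_sum_le_card_mul_sum_sq (s := (Finset.univ : Finset (Fin 8)))
      (f := fun i => a i.succ - a 0)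
    simp only [Finset.card_univ, Fintype.card_fin] at h4
    push_cast at h4
    rw [h1, h2, h3]
    nlinarith [h4]
  have h1 := hr fun i => (z i).re
  have h2 := hr fun i => (z i).im
  have e1 : ‖∑ i, z i‖ ^ 2 = (∑ i, (z i).re) ^ 2 + (∑ i, (z i).im) ^ 2 := by
    rw [hsq, Complex.re_sum, Complex.im_sum]; ring
  have e2 : ∑ i, ‖z i‖ ^ 2 = ∑ i, (z i).re ^ 2 + ∑ i, (z i).im ^ 2 := by
    rw [← Finset.sum_add_distrib]
    exact Finset.sum_congr rfl fun i _ => by rw [hsq]; ring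
  have e3 : ∑ i, ‖z i - z 0‖ ^ 2 = ∑ i, ((z i).re - (z 0).re) ^ 2 +
      ∑ i, ((z i).im - (z 0).im) ^ 2 := by
    rw [← Finset.sum_add_distrib]
    exact Finset.sum_congr rfl fun i _ => by
      rw [hsq, Complex.sub_re, Complex.sub_im]; ring
  rw [e1, e2, e3]
  linarith

/-- the generators as permutations -/
def genE (N : ℕ) (i : Fin 9) : Sq N ≃ Sq N :=
  match i with
  | 0 => Equiv.refl _
  | 1 => Ue N
  | 2 => (Ue N).symm
  | 3 => Le N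
  | 4 => (Le N).symm
  | 5 => T1e N
  | 6 => (T1e N).symm
  | 7 => T2e N
  | 8 => (T2e N).symm

theorem genE_apply (N : ℕ) (i : Fin 9) (x : Sq N) : genE N i x = gen N i x := by
  fin_cases i <;> rfl

theorem gap (N : ℕ) [NeZero N] (f : Sq N → ℂ) (hf : ∑ x, f x = 0) :
    ∑ x, ‖(1 / 9 : ℂ) * ∑ i, f (gen N i x)‖ ^ 2 ≤ (1 - 1 / 6561) * ∑ x, ‖f x‖ ^ 2 := by
  have h1 : ∀ x : Sq N, ‖(1 / 9 : ℂ) * ∑ i, f (gen N i x)‖ ^ 2 ≤
      (1 / 81) * (9 * ∑ i, ‖f (gen N i x)‖ ^ 2 - ∑ i, ‖f (gen N i x) - f (gen N 0 x)‖ ^ 2) := by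
    intro x
    rw [norm_mul, mul_pow]
    have h2 : ‖(1 / 9 : ℂ)‖ ^ 2 = 1 / 81 := by
      rw [norm_div, norm_one]
      norm_num
    rw [h2]
    exact mul_le_mul_of_nonneg_left (nine_sq fun i => f (gen N i x)) (by norm_num)
  refine (Finset.sum_le_sum fun x _ => h1 x).trans ?_
  have hc1 : ∑ x, ∑ i, ‖f (gen N i x)‖ ^ 2 = ∑ i, ∑ x, ‖f (gen N i x)‖ ^ 2 := Finset.sum_comm
  have hc2 : ∑ x, ∑ i, ‖f (gen N i x) - f (gen N 0 x)‖ ^ 2 =
      ∑ i, ∑ x, ‖f (gen N i x) - f (gen N 0 x)‖ ^ 2 := Finset.sum_comm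
  rw [← Finset.mul_sum, Finset.sum_sub_distrib, ← Finset.mul_sum, hc1, hc2]
  have h2 : ∀ i, ∑ x, ‖f (gen N i x)‖ ^ 2 = ∑ x, ‖f x‖ ^ 2 := by
    intro i
    rw [← Equiv.sum_comp (genE N i) fun x => ‖f x‖ ^ 2]
    exact Finset.sum_congr rfl fun x _ => by rw [genE_apply]
  rw [Finset.sum_congr rfl fun i _ => h2 i, Finset.sum_const, Finset.card_univ, Fintype.card_fin,
    nsmul_eq_mul]
  have h3 := displacement f hf
  have h4 : ∑ x, ‖f (Ue N x) - f x‖ ^ 2 + ∑ x, ‖f ((Ue N).symm x) - f x‖ ^ 2 +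
      ∑ x, ‖f (Le N x) - f x‖ ^ 2 + ∑ x, ‖f ((Le N).symm x) - f x‖ ^ 2 +
      ∑ x, ‖f (T1e N x) - f x‖ ^ 2 + ∑ x, ‖f (T2e N x) - f x‖ ^ 2 ≤
      ∑ i, ∑ x, ‖f (gen N i x) - f (gen N 0 x)‖ ^ 2 := by
    have h5 : ∀ i, 0 ≤ ∑ x, ‖f (gen N i x) - f (gen N 0 x)‖ ^ 2 := fun i => by positivity
    have e1 : ∑ x, ‖f (Ue N x) - f x‖ ^ 2 = ∑ x, ‖f (gen N 1 x) - f (gen N 0 x)‖ ^ 2 := rfl
    have e2 : ∑ x, ‖f ((Ue N).symm x) - f x‖ ^ 2 = ∑ x, ‖f (gen N 2 x) - f (gen N 0 x)‖ ^ 2 := rfl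
    have e3 : ∑ x, ‖f (Le N x) - f x‖ ^ 2 = ∑ x, ‖f (gen N 3 x) - f (gen N 0 x)‖ ^ 2 := rfl
    have e4 : ∑ x, ‖f ((Le N).symm x) - f x‖ ^ 2 = ∑ x, ‖f (gen N 4 x) - f (gen N 0 x)‖ ^ 2 := rfl
    have e5 : ∑ x, ‖f (T1e N x) - f x‖ ^ 2 = ∑ x, ‖f (gen N 5 x) - f (gen N 0 x)‖ ^ 2 := rfl
    have e6 : ∑ x, ‖f (T2e N x) - f x‖ ^ 2 = ∑ x, ‖f (gen N 7 x) - f (gen N 0 x)‖ ^ 2 := rfl
    rw [e1, e2, e3, e4, e5, e6]
    have h6 : ∑ i : Fin 9, ∑ x, ‖f (gen N i x) - f (gen N 0 x)‖ ^ 2 =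
        ∑ x, ‖f (gen N 0 x) - f (gen N 0 x)‖ ^ 2 + ∑ x, ‖f (gen N 1 x) - f (gen N 0 x)‖ ^ 2 +
        ∑ x, ‖f (gen N 2 x) - f (gen N 0 x)‖ ^ 2 + ∑ x, ‖f (gen N 3 x) - f (gen N 0 x)‖ ^ 2 +
        ∑ x, ‖f (gen N 4 x) - f (gen N 0 x)‖ ^ 2 + ∑ x, ‖f (gen N 5 x) - f (gen N 0 x)‖ ^ 2 +
        ∑ x, ‖f (gen N 6 x) - f (gen N 0 x)‖ ^ 2 + ∑ x, ‖f (gen N 7 x) - f (gen N 0 x)‖ ^ 2 +
        ∑ x, ‖f (gen N 8 x) - f (gen N 0 x)‖ ^ 2 := by
      simp only [Fin.sum_univ_succ, Finset.univ_eq_empty, Finset.sum_empty]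
      change _ + (_ + (_ + (_ + (_ + (_ + (_ + (_ + (_ + (0 : ℝ))))))))) = _
      simp only [add_zero, ← add_assoc]
      rfl
    rw [h6]
    linarith [h5 0, h5 6, h5 8]
  have h7 : 0 ≤ ∑ x, ‖f x‖ ^ 2 := by positivity
  push_cast
  linarith

/-- The matrix of the average of the nine maps. -/
def Am (N : ℕ) : Matrix (Sq N) (Sq N) ℂ :=
  fun x x' => (1 / 9 : ℂ) * ∑ i : Fin 9, if gen N i x = x' then 1 else 0

/-! ### Powers of the averaging matrix -/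

section powers

variable {N : ℕ} [NeZero N]

/-- `Am N` acts as the average over the generators. -/
theorem Am_mulVec (f : Sq N → ℂ) (x : Sq N) :
    ∑ y, Am N x y * f y = (1 / 9 : ℂ) * ∑ i, f (gen N i x) := by
  unfold Am
  simp only [mul_assoc, Finset.sum_mul, ← Finset.mul_sum]
  rw [Finset.sum_comm]
  congr 1
  refine Finset.sum_congr rfl fun i _ => ?_
  simp

omit [NeZero N] in
theorem Am_norm (x y : Sq N) :
    ‖Am N x y‖ ≤ (1 / 9 : ℝ) * ∑ i : Fin 9, if gen N i x = y then 1 else 0 := by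
  unfold Am
  rw [norm_mul]
  have h : ‖(1 / 9 : ℂ)‖ = 1 / 9 := by
    rw [norm_div, norm_one]
    norm_num
  rw [h]
  refine mul_le_mul_of_nonneg_left ((norm_sum_le _ _).trans (Finset.sum_le_sum fun i _ => ?_))
    (by norm_num)
  split_ifs <;> simp

theorem Am_row (x : Sq N) : ∑ y, ‖Am N x y‖ ≤ 1 := by
  refine (Finset.sum_le_sum fun y _ => Am_norm x y).trans ?_
  rw [← Finset.mul_sum, Finset.sum_comm]
  simp

theorem Am_col (y : Sq N) : ∑ x, ‖Am N x y‖ ≤ 1 := by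
  refine (Finset.sum_le_sum fun x _ => Am_norm x y).trans ?_
  rw [← Finset.mul_sum, Finset.sum_comm]
  have h : ∀ i : Fin 9, ∑ x : Sq N, (if gen N i x = y then (1 : ℝ) else 0) = 1 := by
    intro i
    have h1 : ∀ x : Sq N, (if gen N i x = y then (1 : ℝ) else 0) =
        if x = (genE N i).symm y then 1 else 0 := by
      intro x
      congr 1
      rw [← genE_apply, Equiv.eq_symm_apply]
    rw [Finset.sum_congr rfl fun x _ => h1 x]
    simp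
  rw [Finset.sum_congr rfl fun i _ => h i]
  simp

theorem mul_row {A B : Matrix (Sq N) (Sq N) ℂ} (hA : ∀ x, ∑ y, ‖A x y‖ ≤ 1)
    (hB : ∀ x, ∑ y, ‖B x y‖ ≤ 1) (x : Sq N) : ∑ y, ‖(A * B) x y‖ ≤ 1 := by
  calc ∑ y, ‖(A * B) x y‖ ≤ ∑ y, ∑ z, ‖A x z‖ * ‖B z y‖ := by
        refine Finset.sum_le_sum fun y _ => ?_
        rw [Matrix.mul_apply]
        exact (norm_sum_le _ _).trans (Finset.sum_le_sum fun z _ => (norm_mul _ _).le)
    _ = ∑ z, ‖A x z‖ * ∑ y, ‖B z y‖ := by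
        rw [Finset.sum_comm]
        exact Finset.sum_congr rfl fun z _ => (Finset.mul_sum _ _ _).symm
    _ ≤ ∑ z, ‖A x z‖ * 1 := by
        refine Finset.sum_le_sum fun z _ => mul_le_mul_of_nonneg_left (hB z) (norm_nonneg _)
    _ ≤ 1 := by
        simpa using hA x

theorem mul_col {A B : Matrix (Sq N) (Sq N) ℂ} (hA : ∀ y, ∑ x, ‖A x y‖ ≤ 1)
    (hB : ∀ y, ∑ x, ‖B x y‖ ≤ 1) (y : Sq N) : ∑ x, ‖(A * B) x y‖ ≤ 1 := by
  calc ∑ x, ‖(A * B) x y‖ ≤ ∑ x, ∑ z, ‖A x z‖ * ‖B z y‖ := by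
        refine Finset.sum_le_sum fun x _ => ?_
        rw [Matrix.mul_apply]
        exact (norm_sum_le _ _).trans (Finset.sum_le_sum fun z _ => (norm_mul _ _).le)
    _ = ∑ z, (∑ x, ‖A x z‖) * ‖B z y‖ := by
        rw [Finset.sum_comm]
        exact Finset.sum_congr rfl fun z _ => (Finset.sum_mul _ _ _).symm
    _ ≤ ∑ z, 1 * ‖B z y‖ := by
        refine Finset.sum_le_sum fun z _ => mul_le_mul_of_nonneg_right (hA z) (norm_nonneg _)
    _ ≤ 1 := by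
        simpa using hB y

theorem pow_row (k : ℕ) (x : Sq N) : ∑ y, ‖(Am N ^ k) x y‖ ≤ 1 := by
  induction k generalizing x with
  | zero =>
    rw [pow_zero]
    have h : ∀ y, ‖(1 : Matrix (Sq N) (Sq N) ℂ) x y‖ = if x = y then 1 else 0 := by
      intro y
      rw [Matrix.one_apply]
      split_ifs <;> simp
    rw [Finset.sum_congr rfl fun y _ => h y]
    simp
  | succ k ih =>
    rw [pow_succ]
    exact mul_row ih Am_row x

theorem pow_col (k : ℕ) (y : Sq N) : ∑ x, ‖(Am N ^ k) x y‖ ≤ 1 := by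
  induction k generalizing y with
  | zero =>
    rw [pow_zero]
    have h : ∀ x, ‖(1 : Matrix (Sq N) (Sq N) ℂ) x y‖ = if x = y then 1 else 0 := by
      intro x
      rw [Matrix.one_apply]
      split_ifs <;> simp
    rw [Finset.sum_congr rfl fun x _ => h x]
    simp
  | succ k ih =>
    rw [pow_succ]
    exact mul_col ih Am_col y

/-- decay on functions of mean `0`, together with the preservation of the mean -/
theorem pow_decay (k : ℕ) (f : Sq N → ℂ) (hf : ∑ x, f x = 0) :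
    ∑ x, (∑ y, (Am N ^ k) x y * f y) = 0 ∧
    ∑ x, ‖∑ y, (Am N ^ k) x y * f y‖ ^ 2 ≤ (1 - 1 / 6561) ^ k * ∑ x, ‖f x‖ ^ 2 := by
  induction k with
  | zero =>
    have h : ∀ x, ∑ y, (Am N ^ 0) x y * f y = f x := by
      intro x
      rw [pow_zero]
      simp [Matrix.one_apply]
    simp only [h]
    exact ⟨hf, by simp⟩
  | succ k ih =>
    have h : ∀ x, ∑ y, (Am N ^ (k + 1)) x y * f y =
        (1 / 9 : ℂ) * ∑ i, ∑ y, (Am N ^ k) (gen N i x) y * f y := by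
      intro x
      rw [← Am_mulVec (fun x => ∑ y, (Am N ^ k) x y * f y) x, pow_succ']
      simp only [Matrix.mul_apply, Finset.sum_mul, Finset.mul_sum]
      rw [Finset.sum_comm]
      exact Finset.sum_congr rfl fun z _ => Finset.sum_congr rfl fun y _ => by ring
    simp only [h]
    constructor
    · rw [← Finset.mul_sum, Finset.sum_comm]
      have h1 : ∀ i : Fin 9, ∑ x, ∑ y, (Am N ^ k) (gen N i x) y * f y = 0 := by
        intro i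
        rw [← ih.1, ← Equiv.sum_comp (genE N i) fun x => ∑ y, (Am N ^ k) x y * f y]
        exact Finset.sum_congr rfl fun x _ => by rw [genE_apply]
      rw [Finset.sum_congr rfl fun i _ => h1 i]
      simp
    · refine (gap N _ ih.1).trans ?_
      rw [pow_succ', mul_assoc]
      exact mul_le_mul_of_nonneg_left ih.2 (by norm_num)

/-- `Am N ^ k` fixes the constants. -/
theorem pow_const (k : ℕ) (x : Sq N) : ∑ y, (Am N ^ k) x y = 1 := by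
  induction k generalizing x with
  | zero => rw [pow_zero]; simp [Matrix.one_apply]
  | succ k ih =>
    rw [pow_succ']
    simp only [Matrix.mul_apply]
    rw [Finset.sum_comm]
    simp only [← Finset.mul_sum, ih, mul_one]
    have := Am_mulVec (fun _ : Sq N => (1 : ℂ)) x
    simp only [mul_one, Finset.sum_const, Finset.card_univ, Fintype.card_fin, nsmul_eq_mul] at this
    rw [this]
    norm_num

theorem l2_bound (k : ℕ) (f : Sq N → ℂ) :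
    ∑ x, ‖∑ y, (Am N ^ k - avg (Sq N)) x y * f y‖ ^ 2 ≤
      (1 - 1 / 6561) ^ k * ∑ x, ‖f x‖ ^ 2 := by
  have hc : (Fintype.card (Sq N) : ℂ) ≠ 0 := Nat.cast_ne_zero.2 Fintype.card_ne_zero
  obtain ⟨m, hm⟩ : ∃ m : ℂ, m = (1 / Fintype.card (Sq N) : ℂ) * ∑ x, f x := ⟨_, rfl⟩
  have hm' : (Fintype.card (Sq N) : ℂ) * m = ∑ x, f x := by
    rw [hm, ← mul_assoc, mul_one_div_cancel hc, one_mul]
  have h0 : ∑ x, (f x - m) = 0 := by
    rw [Finset.sum_sub_distrib, Finset.sum_const, Finset.card_univ, nsmul_eq_mul, hm', sub_self]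
  have h1 : ∀ x, ∑ y, (Am N ^ k - avg (Sq N)) x y * f y =
      ∑ y, (Am N ^ k) x y * (f y - m) := by
    intro x
    simp only [Matrix.sub_apply, sub_mul, mul_sub, Finset.sum_sub_distrib]
    congr 1
    rw [← Finset.sum_mul, pow_const, one_mul]
    unfold avg
    rw [← Finset.mul_sum, ← hm]
  rw [Finset.sum_congr rfl fun x _ => by rw [h1 x]]
  refine (pow_decay k _ h0).2.trans (mul_le_mul_of_nonneg_left ?_ (by positivity))
  -- `‖f - m‖² ≤ ‖f‖²`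
  have h2 : ((∑ x, ‖f x - m‖ ^ 2 : ℝ) : ℂ) =
      ((∑ x, ‖f x‖ ^ 2 - Fintype.card (Sq N) * ‖m‖ ^ 2 : ℝ) : ℂ) := by
    push_cast
    have h3 : ∀ w : ℂ, ((‖w‖ : ℂ)) ^ 2 = w * (starRingEnd ℂ) w := by
      intro w
      rw [Complex.mul_conj, Complex.normSq_eq_norm_sq]
      push_cast
      rfl
    simp only [h3, map_sub]
    have h4 : ∀ x, (f x - m) * ((starRingEnd ℂ) (f x) - (starRingEnd ℂ) m) =
        f x * (starRingEnd ℂ) (f x) - f x * (starRingEnd ℂ) m - m * (starRingEnd ℂ) (f x) +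
          m * (starRingEnd ℂ) m := fun x => by ring
    rw [Finset.sum_congr rfl fun x _ => h4 x, Finset.sum_add_distrib, Finset.sum_sub_distrib,
      Finset.sum_sub_distrib, ← Finset.sum_mul, ← Finset.mul_sum, ← map_sum, ← hm', map_mul,
      Finset.sum_const, Finset.card_univ, nsmul_eq_mul, map_natCast]
    ring
  have h5 : (∑ x, ‖f x - m‖ ^ 2 : ℝ) = ∑ x, ‖f x‖ ^ 2 - Fintype.card (Sq N) * ‖m‖ ^ 2 := by
    exact_mod_cast h2
  rw [h5]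
  have h6 : 0 ≤ (Fintype.card (Sq N) : ℝ) * ‖m‖ ^ 2 := by positivity
  linarith

end powers

theorem expander (p : ℝ≥0∞) [Fact (1 ≤ p)] [Fact (p ≠ ∞)] (hp : 1 < p) (ε : ℝ) (hε : 0 < ε) :
    ∃ k : ℕ, ∀ (N : ℕ) [NeZero N],
      MBd p (Am N ^ k - avg (Sq N)) ε := by
  have hpt : p ≠ ∞ := Fact.out
  have hp' : 1 < p.toReal := by
    rw [← ENNReal.toReal_one]
    exact (ENNReal.toReal_lt_toReal ENNReal.one_ne_top hpt).2 hp
  obtain ⟨δ, hδ, h⟩ := interp p.toReal hp' ε hε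
  obtain ⟨k, hk⟩ := exists_pow_lt_of_lt_one (show (0 : ℝ) < δ ^ 2 by positivity)
    (show (1 - 1 / 6561 : ℝ) < 1 by norm_num)
  refine ⟨k, fun N _ => ⟨hε.le, fun f => ?_⟩⟩
  have hc : (0 : ℝ) < Fintype.card (Sq N) := by exact_mod_cast Fintype.card_pos
  have hav : ∀ x y : Sq N, ‖avg (Sq N) x y‖ = 1 / Fintype.card (Sq N) := by
    intro x y
    unfold avg
    rw [norm_div, norm_one, Complex.norm_natCast]
  refine h (Sq N) (Am N ^ k - avg (Sq N)) ?_ ?_ ?_ f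
  · intro x
    calc ∑ y, ‖(Am N ^ k - avg (Sq N)) x y‖ ≤ ∑ y, (‖(Am N ^ k) x y‖ + ‖avg (Sq N) x y‖) :=
          Finset.sum_le_sum fun y _ => norm_sub_le _ _
      _ ≤ 1 + 1 := by
          rw [Finset.sum_add_distrib]
          refine add_le_add (pow_row k x) (le_of_eq ?_)
          rw [Finset.sum_congr rfl fun y _ => hav x y, Finset.sum_const, Finset.card_univ,
            nsmul_eq_mul, mul_one_div_cancel hc.ne']
      _ = 2 := by norm_num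
  · intro y
    calc ∑ x, ‖(Am N ^ k - avg (Sq N)) x y‖ ≤ ∑ x, (‖(Am N ^ k) x y‖ + ‖avg (Sq N) x y‖) :=
          Finset.sum_le_sum fun x _ => norm_sub_le _ _
      _ ≤ 1 + 1 := by
          rw [Finset.sum_add_distrib]
          refine add_le_add (pow_col k y) (le_of_eq ?_)
          rw [Finset.sum_congr rfl fun x _ => hav x y, Finset.sum_const, Finset.card_univ,
            nsmul_eq_mul, mul_one_div_cancel hc.ne']
      _ = 2 := by norm_num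
  · intro f
    refine (l2_bound k f).trans (mul_le_mul_of_nonneg_right hk.le ?_)
    positivity

/-- The entries of the powers of `Am N` are supported on the pairs of points which are connected by
applying the generators. -/
theorem Am_pow_ne_zero (N : ℕ) [NeZero N] (k : ℕ) (x x' : Sq N) (h : (Am N ^ k) x x' ≠ 0) :
    ∃ w : List (Fin 9), w.length = k ∧ w.foldl (fun y i => gen N i y) x = x' := by
  induction k generalizing x with
  | zero =>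
    rw [pow_zero, Matrix.one_apply] at h
    refine ⟨[], rfl, ?_⟩
    by_contra hx
    exact h (if_neg hx)
  | succ k ih =>
    rw [pow_succ', Matrix.mul_apply] at h
    obtain ⟨z, _, hz⟩ := Finset.exists_ne_zero_of_sum_ne_zero h
    obtain ⟨w, hw, hw'⟩ := ih z (right_ne_zero_of_mul hz)
    have h1 : Am N x z ≠ 0 := left_ne_zero_of_mul hz
    unfold Am at h1
    obtain ⟨i, _, hi⟩ := Finset.exists_ne_zero_of_sum_ne_zero (right_ne_zero_of_mul h1)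
    have hi' : gen N i x = z := by
      by_contra hne
      exact hi (if_neg hne)
    refine ⟨i :: w, by simp [hw], ?_⟩
    rw [List.foldl_cons, hi']
    exact hw'

end

end Pool.Agent.H368.NV
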