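import Pool.Agent.H368.NV.BGraph
import Pool.Agent.H368.NV.Expander

/-!
# The model over the graphs of bounded degree

PROOF SKETCH of `exists_model_bg`. `H n = Sq (2 ^ kk n)`, `L n = kk n + ll n`, `loc` as in `BG.loc`, `x0 = 0`, `r0 = 1`.
`lvl` is the edge `lvl`; `bot` and `top` hold with equality (`j.val / 2^(ll n) = 0`, and `% 2^(ex n (kk n + ll n)) = % 1`);
`circTop` is `circ` or `wrap` (on the top level the coordinate `x` is irrelevant).
`approxP`: given `ε`, take `K` from `expander` and `A n = Am (2 ^ kk n) ^ K` (`Am_pow_ne_zero`, each letter is an edge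
`fib`; note `gen N i = act N i` for `i < 9`), with walks of length `K`.
`approxT`: let `n₀` be such that `(1 / (n + 1))^(1 - 1/p) ≤ ε / 2` and `(1 / (n + 1))^(1/p) ≤ ε / 2` for `n ≥ n₀`, `K` from
`expander` with `ε / 2`. For `n < n₀` take `A n j = avg`: all points `loc n x j i`, `loc n x' j' i` with `j' = j + 1` are connected
by a walk of length `≤ 2 (kk n + ll n) + 1` through the top level. For `n ≥ n₀` take `A n j = Am^K` if `j + 1 ≠ 0` (edge `circ`),
and `A n j = Am^K * B` if `j + 1 = 0`, where `B z x' = 1` if `z = act _ 9 x'` and `x' ∉ Bad (2 ^ kk n) n`, and `0` otherwise. Then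
`A n j - avg = (Am^K - avg) * B + (avg * B - avg)`, the norm of `B` is at most `1` (`MBd.partialPerm`; `3` is a unit), and
`(avg * B - avg) x x' = - (1/|H|) [x' ∈ Bad]` has norm `≤ (|Bad|/|H|)^(1 - 1/p) ≤ (1/(n + 1))^(1 - 1/p)` by Hölder's inequality
and `kk_spec`. The walk is: `(x', j) → (act 9 x', j + 1)` (edge `wrap`, as `x' ∉ Bad`) `→ (x, j + 1)`.
`approxT'`: the same with `A n j = Bᵀ * Am^K` if `j + 1 = 0`; `Bᵀ * avg - avg` has norm `≤ (|Bad|/|H|)^(1/p)`.
-/

set_option autoImplicit false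
set_option linter.unusedVariables false

namespace Pool.Agent.H368.NV

open scoped ENNReal NNReal Topology
open Filter Matrix

noncomputable section

namespace BG

section norms

variable {p : ℝ≥0∞} [hp1 : Fact (1 ≤ p)] [hpt : Fact (p ≠ ∞)]

theorem colind {X : Type} [Fintype X] [Nonempty X] [DecidableEq X] (T : Finset X) (m : ℕ)
    (hm : 1 ≤ m) (hT : T.card * m ≤ Fintype.card X) :
    MBd p (fun _ x' : X => if x' ∈ T then -(1 / (Fintype.card X : ℂ)) else 0)
      ((1 / (m : ℝ)) ^ (1 - 1 / p.toReal)) := by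
  have hr : 0 < p.toReal := toReal_pos
  have hr1 : 1 ≤ p.toReal := one_le_toReal
  have hm0 : (0 : ℝ) < m := by exact_mod_cast hm
  have hN : (0 : ℝ) < Fintype.card X := by exact_mod_cast Fintype.card_pos
  refine ⟨by positivity, fun f => ?_⟩
  have h1 : ∑ b, (if b ∈ T then -(1 / (Fintype.card X : ℂ)) else 0) * f b
      = -(1 / (Fintype.card X : ℂ)) * ∑ b ∈ T, f b := by
    simp only [ite_mul, zero_mul]
    rw [Finset.sum_ite_mem, Finset.univ_inter, Finset.mul_sum]
  simp only [h1]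
  rw [Finset.sum_const, Finset.card_univ, nsmul_eq_mul, norm_mul, norm_neg, norm_div, norm_one,
    Complex.norm_natCast, Real.mul_rpow (by positivity) (norm_nonneg _)]
  have h2 : ‖∑ b ∈ T, f b‖ ^ p.toReal ≤
      (T.card : ℝ) ^ (p.toReal - 1) * ∑ b, ‖f b‖ ^ p.toReal := by
    have h3 := Real.rpow_sum_le_const_mul_sum_rpow T (fun b => ‖f b‖) hr1
    simp only [abs_norm] at h3
    calc ‖∑ b ∈ T, f b‖ ^ p.toReal ≤ (∑ b ∈ T, ‖f b‖) ^ p.toReal :=
          Real.rpow_le_rpow (norm_nonneg _) (norm_sum_le _ _) hr.le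
      _ ≤ _ := h3
      _ ≤ _ := by
          apply mul_le_mul_of_nonneg_left _ (by positivity)
          exact Finset.sum_le_sum_of_subset_of_nonneg (Finset.subset_univ _)
            fun _ _ _ => by positivity
  have hS : 0 ≤ ∑ b, ‖f b‖ ^ p.toReal := Finset.sum_nonneg fun _ _ => by positivity
  calc (Fintype.card X : ℝ) * ((1 / (Fintype.card X : ℝ)) ^ p.toReal * ‖∑ b ∈ T, f b‖ ^ p.toReal)
      ≤ (Fintype.card X : ℝ) * ((1 / (Fintype.card X : ℝ)) ^ p.toReal *
        ((T.card : ℝ) ^ (p.toReal - 1) * ∑ b, ‖f b‖ ^ p.toReal)) := by gcongr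
    _ = ((T.card : ℝ) / Fintype.card X) ^ (p.toReal - 1) * ∑ b, ‖f b‖ ^ p.toReal := by
        rw [one_div, Real.inv_rpow hN.le, Real.div_rpow (by positivity) hN.le]
        have h4 : (Fintype.card X : ℝ) ^ p.toReal
            = (Fintype.card X : ℝ) ^ (p.toReal - 1) * Fintype.card X := by
          rw [← Real.rpow_add_one hN.ne']; congr 1; ring
        rw [h4]
        have h5 : (Fintype.card X : ℝ) ^ (p.toReal - 1) ≠ 0 := (Real.rpow_pos_of_pos hN _).ne'
        field_simp
    _ ≤ (1 / (m : ℝ)) ^ (p.toReal - 1) * ∑ b, ‖f b‖ ^ p.toReal := by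
        apply mul_le_mul_of_nonneg_right _ hS
        apply Real.rpow_le_rpow (by positivity) _ (by linarith)
        rw [div_le_div_iff₀ hN hm0, one_mul]
        exact_mod_cast hT
    _ = ((1 / (m : ℝ)) ^ (1 - 1 / p.toReal)) ^ p.toReal * ∑ b, ‖f b‖ ^ p.toReal := by
        rw [← Real.rpow_mul (by positivity)]
        congr 2
        field_simp

theorem rowind {X : Type} [Fintype X] [Nonempty X] [DecidableEq X] (T : Finset X) (m : ℕ)
    (hm : 1 ≤ m) (hT : T.card * m ≤ Fintype.card X) :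
    MBd p (fun x _ : X => if x ∈ T then -(1 / (Fintype.card X : ℂ)) else 0)
      ((1 / (m : ℝ)) ^ (1 / p.toReal)) := by
  have hr : 0 < p.toReal := toReal_pos
  have hr1 : 1 ≤ p.toReal := one_le_toReal
  have hm0 : (0 : ℝ) < m := by exact_mod_cast hm
  have hN : (0 : ℝ) < Fintype.card X := by exact_mod_cast Fintype.card_pos
  refine ⟨by positivity, fun f => ?_⟩
  have h1 : ∀ x, ‖∑ b, (if x ∈ T then -(1 / (Fintype.card X : ℂ)) else 0) * f b‖ ^ p.toReal
      = if x ∈ T then ((1 / (Fintype.card X : ℝ)) ^ p.toReal * ‖∑ b, f b‖ ^ p.toReal) else 0 := by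
    intro x
    by_cases hx : x ∈ T
    · simp only [hx, if_true]
      rw [← Finset.mul_sum, norm_mul, norm_neg, norm_div, norm_one,
        Complex.norm_natCast, Real.mul_rpow (by positivity) (norm_nonneg _)]
    · simp [hx, hr.ne']
  simp only [h1]
  rw [Finset.sum_ite_mem, Finset.univ_inter, Finset.sum_const, nsmul_eq_mul]
  have h2 : ‖∑ b, f b‖ ^ p.toReal ≤
      (Fintype.card X : ℝ) ^ (p.toReal - 1) * ∑ b, ‖f b‖ ^ p.toReal := by
    have h3 := Real.rpow_sum_le_const_mul_sum_rpow Finset.univ (fun b => ‖f b‖) hr1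
    simp only [abs_norm, Finset.card_univ] at h3
    exact (Real.rpow_le_rpow (norm_nonneg _) (norm_sum_le _ _) hr.le).trans h3
  have hS : 0 ≤ ∑ b, ‖f b‖ ^ p.toReal := Finset.sum_nonneg fun _ _ => by positivity
  calc (T.card : ℝ) * ((1 / (Fintype.card X : ℝ)) ^ p.toReal * ‖∑ b, f b‖ ^ p.toReal)
      ≤ (T.card : ℝ) * ((1 / (Fintype.card X : ℝ)) ^ p.toReal *
        ((Fintype.card X : ℝ) ^ (p.toReal - 1) * ∑ b, ‖f b‖ ^ p.toReal)) := by gcongr
    _ = ((T.card : ℝ) / Fintype.card X) * ∑ b, ‖f b‖ ^ p.toReal := by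
        rw [one_div, Real.inv_rpow hN.le]
        have h4 : (Fintype.card X : ℝ) ^ p.toReal
            = (Fintype.card X : ℝ) ^ (p.toReal - 1) * Fintype.card X := by
          rw [← Real.rpow_add_one hN.ne']; congr 1; ring
        rw [h4]
        have h5 : (Fintype.card X : ℝ) ^ (p.toReal - 1) ≠ 0 := (Real.rpow_pos_of_pos hN _).ne'
        field_simp
    _ ≤ (1 / (m : ℝ)) * ∑ b, ‖f b‖ ^ p.toReal := by
        apply mul_le_mul_of_nonneg_right _ hS
        rw [div_le_div_iff₀ hN hm0, one_mul]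
        exact_mod_cast hT
    _ = ((1 / (m : ℝ)) ^ (1 / p.toReal)) ^ p.toReal * ∑ b, ‖f b‖ ^ p.toReal := by
        rw [← Real.rpow_mul (by positivity), one_div_mul_cancel hr.ne', Real.rpow_one]

end norms

/-! ### walks -/

theorem wk_step {n : ℕ} {v w : V n} {κ : ℤ} (h : Step n v w κ) :
    Wk G 1 (⟨n, v⟩ : Sp G) (⟨n, w⟩ : Sp G) :=
  ⟨n, v, w, κ, rfl, rfl, LGraph.walk_one (G := G n) h⟩

theorem wk_of_eq {n : ℕ} {v w : V n} (h : v = w) (r : ℕ) :
    Wk G r (⟨n, v⟩ : Sp G) (⟨n, w⟩ : Sp G) := by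
  subst h
  exact ⟨n, v, v, 0, rfl, rfl, LGraph.Walk.refl r _⟩

theorem gen_eq_act (N : ℕ) (i : Fin 9) (x : Sq N) :
    gen N i x = act N ⟨i.val, by omega⟩ x := by
  fin_cases i <;> rfl

theorem wk_fib (n : ℕ) (j : ZMod (2 ^ ll n)) (i : Fin (kk n + ll n + 1)) :
    ∀ (w : List (Fin 9)) (x : H n),
      Wk G w.length (⟨n, loc n x j i⟩ : Sp G)
        (⟨n, loc n (w.foldl (fun y i => gen (2 ^ kk n) i y) x) j i⟩ : Sp G) := by
  intro w
  induction w with
  | nil => intro x; exact wk_of_eq rfl _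
  | cons g w ih =>
    intro x
    rw [List.foldl_cons, List.length_cons, add_comm]
    refine wkm_trans ?_ (ih _)
    rw [gen_eq_act]
    exact wk_step (Step.pos (Step0.fib x j i ⟨g.val, by omega⟩ g.2))

theorem wk_Am (n K : ℕ) (x x' : H n) (h : (Am (2 ^ kk n) ^ K) x x' ≠ 0) (j : ZMod (2 ^ ll n))
    (i : Fin (kk n + ll n + 1)) :
    Wk G K (⟨n, loc n x j i⟩ : Sp G) (⟨n, loc n x' j i⟩ : Sp G) := by
  obtain ⟨w, hw1, hw2⟩ := Am_pow_ne_zero (2 ^ kk n) K x x' h
  have := wk_fib n j i w x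
  rwa [hw1, hw2] at this

theorem loc_top (n : ℕ) (x x' : H n) (j : ZMod (2 ^ ll n)) :
    loc n x j (Fin.last _) = loc n x' j (Fin.last _) := by
  have h : ex n ((Fin.last (kk n + ll n) : Fin (kk n + ll n + 1)) : ℕ) = 0 := by
    rw [Fin.val_last, ex]; omega
  unfold loc
  simp only [h, pow_zero, Nat.mod_one]

theorem loc_bot (n : ℕ) (x : H n) (j j' : ZMod (2 ^ ll n)) :
    loc n x j 0 = loc n x j' 0 := by
  have h : ∀ j : ZMod (2 ^ ll n), j.val / 2 ^ (ll n - ((0 : Fin (kk n + ll n + 1)) : ℕ)) = 0 := by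
    intro j
    apply Nat.div_eq_of_lt
    rw [Fin.val_zero, Nat.sub_zero]
    exact ZMod.val_lt j
  unfold loc
  simp only [h]

theorem wk_circTop (n : ℕ) (x x' : H n) (j : ZMod (2 ^ ll n)) :
    Wk G 1 (⟨n, loc n x j (Fin.last _)⟩ : Sp G) (⟨n, loc n x' (j + 1) (Fin.last _)⟩ : Sp G) := by
  by_cases h : j + 1 = 0
  · rw [loc_top n x' (act _ 9 x) (j + 1)]
    refine wk_step (Step.pos (Step0.wrap x j (Fin.last _) h ?_))
    intro h2
    rw [Fin.val_last] at h2
    omega
  · rw [loc_top n x' x (j + 1)]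
    exact wk_step (Step.pos (Step0.circ x j (Fin.last _) h))

theorem wk_lvl (n : ℕ) (x : H n) (j : ZMod (2 ^ ll n)) (i : Fin (kk n + ll n)) :
    Wk G 1 (⟨n, loc n x j i.castSucc⟩ : Sp G) (⟨n, loc n x j i.succ⟩ : Sp G) :=
  wk_step (Step.pos (Step0.lvl x j i))

theorem wk_up (n : ℕ) (x : H n) (j : ZMod (2 ^ ll n)) :
    ∀ (m : ℕ) (i : Fin (kk n + ll n + 1)), (i : ℕ) + m = kk n + ll n →
      Wk G m (⟨n, loc n x j i⟩ : Sp G) (⟨n, loc n x j (Fin.last _)⟩ : Sp G) := by
  intro m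
  induction m with
  | zero =>
    intro i hi
    have : i = Fin.last _ := Fin.ext (by rw [Fin.val_last]; omega)
    rw [this]
    exact wk_of_eq rfl _
  | succ m ih =>
    intro i hi
    have h1 : i = (⟨i, by omega⟩ : Fin (kk n + ll n)).castSucc := rfl
    rw [h1, add_comm]
    refine wkm_trans (wk_lvl n x j _) (ih _ ?_)
    rw [Fin.val_succ]
    change (i : ℕ) + 1 + m = _
    omega

theorem wk_all (n : ℕ) (x x' : H n) (j : ZMod (2 ^ ll n)) (i : Fin (kk n + ll n + 1)) :
    Wk G (2 * (kk n + ll n) + 1) (⟨n, loc n x j i⟩ : Sp G) (⟨n, loc n x' (j + 1) i⟩ : Sp G) := by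
  have h1 := wk_up n x j (kk n + ll n - i) i (by have := i.2; omega)
  have h2 := wk_up n x' (j + 1) (kk n + ll n - i) i (by have := i.2; omega)
  have h3 := wkm_trans (wkm_trans h1 (wk_circTop n x x' j)) (wkm_symm h2)
  exact wkm_mono h3 (by omega)

/-! ### the matrix of the multiplication by three -/

open Classical in
/-- the bad points -/
def TT (n : ℕ) : Finset (H n) := (Bad (2 ^ kk n) n).toFinset

theorem mem_TT (n : ℕ) (x : H n) : x ∈ TT n ↔ x ∈ Bad (2 ^ kk n) n := by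
  classical
  rw [TT, Set.mem_toFinset]

theorem card_H (n : ℕ) : Fintype.card (H n) = 4 ^ kk n := by
  rw [Fintype.card_prod, ZMod.card, ← mul_pow]
  norm_num

theorem card_TT (n : ℕ) : (TT n).card * (n + 1) ≤ Fintype.card (H n) := by
  classical
  rw [card_H, TT, ← Set.ncard_eq_toFinset_card']
  exact kk_spec n

theorem act9_inj (n : ℕ) (x y : H n) (h : act (2 ^ kk n) 9 x = act (2 ^ kk n) 9 y) : x = y := by
  have h3 : IsUnit (3 : ZMod (2 ^ kk n)) := by
    have : ((3 : ℕ) : ZMod (2 ^ kk n)) = 3 := by norm_num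
    rw [← this, ZMod.isUnit_iff_coprime]
    exact Nat.Coprime.pow_right _ (by norm_num)
  have h1 : 3 * x.1 = 3 * y.1 := congrArg Prod.fst h
  have h2 : 3 * x.2 = 3 * y.2 := congrArg Prod.snd h
  exact Prod.ext (h3.mul_left_cancel h1) (h3.mul_left_cancel h2)

open Classical in
/-- the partial permutation matrix -/
def Bm (n : ℕ) : Matrix (H n) (H n) ℂ :=
  fun z x' => if z = act (2 ^ kk n) 9 x' ∧ x' ∉ TT n then 1 else 0

theorem Bm_ne {n : ℕ} {z x' : H n} (h : Bm n z x' ≠ 0) :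
    z = act (2 ^ kk n) 9 x' ∧ x' ∉ TT n := by
  unfold Bm at h
  by_contra hc
  rw [if_neg hc] at h
  exact h rfl

section norms2

variable {p : ℝ≥0∞} [hp1 : Fact (1 ≤ p)] [hpt : Fact (p ≠ ∞)]

theorem MBd_Bm (n : ℕ) : MBd p (Bm n) 1 := by
  classical
  apply MBd.partialPerm
  · intro a b
    unfold Bm
    split_ifs
    · exact Or.inr rfl
    · exact Or.inl rfl
  · intro a b b' h1 h2
    exact act9_inj n _ _ ((Bm_ne h1).1.symm.trans (Bm_ne h2).1)
  · intro a a' b h1 h2
    exact (Bm_ne h1).1.trans (Bm_ne h2).1.symm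

theorem MBd_BmT (n : ℕ) : MBd p (Bm n)ᵀ 1 := by
  classical
  apply MBd.partialPerm
  · intro a b
    rw [Matrix.transpose_apply]
    unfold Bm
    split_ifs
    · exact Or.inr rfl
    · exact Or.inl rfl
  · intro a b b' h1 h2
    exact (Bm_ne h1).1.trans (Bm_ne h2).1.symm
  · intro a a' b h1 h2
    exact act9_inj n _ _ ((Bm_ne h1).1.symm.trans (Bm_ne h2).1)

theorem sum_Bm (n : ℕ) (x' : H n) : ∑ z, Bm n z x' = if x' ∈ TT n then 0 else 1 := by
  classical
  by_cases h : x' ∈ TT n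
  · rw [if_pos h]
    refine Finset.sum_eq_zero fun z _ => ?_
    unfold Bm
    rw [if_neg (fun hc => hc.2 h)]
  · rw [if_neg h, Finset.sum_eq_single (act (2 ^ kk n) 9 x')]
    · unfold Bm
      rw [if_pos ⟨rfl, h⟩]
    · intro z _ hz
      unfold Bm
      rw [if_neg (fun hc => hz hc.1)]
    · intro hc; exact absurd (Finset.mem_univ _) hc

theorem norm_avgB (n : ℕ) :
    MBd p (avg (H n) * Bm n - avg (H n)) ((1 / ((n + 1 : ℕ) : ℝ)) ^ (1 - 1 / p.toReal)) := by
  classical
  have h := colind (p := p) (TT n) (n + 1) (by omega) (card_TT n)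
  have e : avg (H n) * Bm n - avg (H n)
      = fun _ x' : H n => if x' ∈ TT n then -(1 / (Fintype.card (H n) : ℂ)) else 0 := ?_
  · rw [e]; exact h
  ext x x'
  rw [Matrix.sub_apply, Matrix.mul_apply]
  simp only [avg]
  rw [← Finset.mul_sum, sum_Bm]
  split_ifs <;> ring

theorem norm_Bavg (n : ℕ) :
    MBd p ((Bm n)ᵀ * avg (H n) - avg (H n)) ((1 / ((n + 1 : ℕ) : ℝ)) ^ (1 / p.toReal)) := by
  classical
  have h := rowind (p := p) (TT n) (n + 1) (by omega) (card_TT n)
  have e : (Bm n)ᵀ * avg (H n) - avg (H n)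
      = fun x _ : H n => if x ∈ TT n then -(1 / (Fintype.card (H n) : ℂ)) else 0 := ?_
  · rw [e]; exact h
  ext x x'
  rw [Matrix.sub_apply, Matrix.mul_apply]
  simp only [avg, Matrix.transpose_apply]
  rw [← Finset.sum_mul, sum_Bm]
  split_ifs <;> ring

theorem exists_n0 (hp : 1 < p) (ε : ℝ) (hε : 0 < ε) : ∃ n₀ : ℕ, ∀ n, n₀ ≤ n →
    (1 / ((n + 1 : ℕ) : ℝ)) ^ (1 - 1 / p.toReal) ≤ ε ∧
    (1 / ((n + 1 : ℕ) : ℝ)) ^ (1 / p.toReal) ≤ ε := by
  have hr : 0 < p.toReal := toReal_pos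
  have hr1 : 1 < p.toReal := by
    have := (ENNReal.toReal_lt_toReal ENNReal.one_ne_top hpt.out).2 hp
    simpa using this
  have key : ∀ a : ℝ, 0 < a → ∀ᶠ n : ℕ in atTop, (1 / ((n + 1 : ℕ) : ℝ)) ^ a ≤ ε := by
    intro a ha
    have h1 : Tendsto (fun n : ℕ => 1 / ((n + 1 : ℕ) : ℝ)) atTop (𝓝 0) := by
      have := tendsto_one_div_add_atTop_nhds_zero_nat (𝕜 := ℝ)
      simpa using this
    have h2 := h1.rpow_const (p := a) (Or.inr ha.le)
    rw [Real.zero_rpow ha.ne'] at h2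
    exact h2.eventually (ge_mem_nhds hε)
  have ha : 0 < 1 - 1 / p.toReal := by
    have : 1 / p.toReal < 1 := by
      rw [div_lt_one hr]; exact hr1
    linarith
  obtain ⟨n₀, hn₀⟩ := ((key _ ha).and (key (1 / p.toReal) (by positivity))).exists_forall_of_atTop
  exact ⟨n₀, fun n hn => hn₀ n hn⟩

theorem MBd_zero_sub {X : Type} [Fintype X] (M : Matrix X X ℂ) {ε : ℝ} (hε : 0 ≤ ε) :
    MBd p (M - M) ε := by
  rw [sub_self]
  exact MBd.zero.mono hε

theorem approxT_bg (hp : 1 < p) (ε : ℝ) (hε : 0 < ε) :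
    ∃ (r : ℕ) (A : ∀ n, ZMod (2 ^ ll n) → Matrix (H n) (H n) ℂ),
    (∀ n j, MBd p (A n j - avg (H n)) ε) ∧
    ∀ n j x x', A n j x x' ≠ 0 → ∀ i,
      Wk G r (⟨n, loc n x (j + 1) i⟩ : Sp G) (⟨n, loc n x' j i⟩ : Sp G) := by
  classical
  obtain ⟨K, hK⟩ := expander p hp (ε / 2) (by linarith)
  obtain ⟨n₀, hn₀⟩ := exists_n0 hp (ε / 2) (by linarith)
  refine ⟨K + 1 + (Finset.range n₀).sup (fun n => 2 * (kk n + ll n) + 1), fun n j =>
    if n < n₀ then avg (H n) else if j + 1 = 0 then Am (2 ^ kk n) ^ K * Bm n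
      else Am (2 ^ kk n) ^ K, ?_, ?_⟩
  · intro n j
    by_cases h1 : n < n₀
    · simp only [if_pos h1]
      exact MBd_zero_sub _ hε.le
    · simp only [if_neg h1]
      by_cases h2 : j + 1 = 0
      · simp only [if_pos h2]
        have e : Am (2 ^ kk n) ^ K * Bm n - avg (H n)
            = (Am (2 ^ kk n) ^ K - avg (H n)) * Bm n + (avg (H n) * Bm n - avg (H n)) := by
          rw [sub_mul]; abel
        rw [e]
        have h3 := ((hK (2 ^ kk n)).mul (MBd_Bm (p := p) n)).add (norm_avgB (p := p) n)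
        refine h3.mono ?_
        have := (hn₀ n (by omega)).1
        linarith
      · simp only [if_neg h2]
        exact (hK (2 ^ kk n)).mono (by linarith)
  · intro n j x x' hne i
    by_cases h1 : n < n₀
    · refine wkm_mono (wkm_symm (wk_all n x' x j i)) ?_
      have := Finset.le_sup (f := fun n => 2 * (kk n + ll n) + 1) (Finset.mem_range.2 h1)
      omega
    · simp only [if_neg h1] at hne
      by_cases h2 : j + 1 = 0
      · simp only [if_pos h2] at hne
        rw [Matrix.mul_apply] at hne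
        obtain ⟨z, -, hz⟩ := Finset.exists_ne_zero_of_sum_ne_zero hne
        have hz1 := left_ne_zero_of_mul hz
        obtain ⟨hz2, hz3⟩ := Bm_ne (right_ne_zero_of_mul hz)
        have w1 := wk_Am n K x z hz1 (j + 1) i
        have w2 : Wk G 1 (⟨n, loc n x' j i⟩ : Sp G) (⟨n, loc n z (j + 1) i⟩ : Sp G) := by
          rw [hz2]
          refine wk_step (Step.pos (Step0.wrap x' j i h2 ?_))
          intro _
          rwa [← mem_TT]
        exact wkm_mono (wkm_trans w1 (wkm_symm w2)) (by omega)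
      · simp only [if_neg h2] at hne
        have w1 := wk_Am n K x x' hne (j + 1) i
        have w2 : Wk G 1 (⟨n, loc n x' j i⟩ : Sp G) (⟨n, loc n x' (j + 1) i⟩ : Sp G) :=
          wk_step (Step.pos (Step0.circ x' j i h2))
        exact wkm_mono (wkm_trans w1 (wkm_symm w2)) (by omega)

theorem approxT'_bg (hp : 1 < p) (ε : ℝ) (hε : 0 < ε) :
    ∃ (r : ℕ) (A : ∀ n, ZMod (2 ^ ll n) → Matrix (H n) (H n) ℂ),
    (∀ n j, MBd p (A n j - avg (H n)) ε) ∧
    ∀ n j x x', A n j x x' ≠ 0 → ∀ i,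
      Wk G r (⟨n, loc n x j i⟩ : Sp G) (⟨n, loc n x' (j + 1) i⟩ : Sp G) := by
  classical
  obtain ⟨K, hK⟩ := expander p hp (ε / 2) (by linarith)
  obtain ⟨n₀, hn₀⟩ := exists_n0 hp (ε / 2) (by linarith)
  refine ⟨K + 1 + (Finset.range n₀).sup (fun n => 2 * (kk n + ll n) + 1), fun n j =>
    if n < n₀ then avg (H n) else if j + 1 = 0 then (Bm n)ᵀ * Am (2 ^ kk n) ^ K
      else Am (2 ^ kk n) ^ K, ?_, ?_⟩
  · intro n j
    by_cases h1 : n < n₀
    · simp only [if_pos h1]
      exact MBd_zero_sub _ hε.le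
    · simp only [if_neg h1]
      by_cases h2 : j + 1 = 0
      · simp only [if_pos h2]
        have e : (Bm n)ᵀ * Am (2 ^ kk n) ^ K - avg (H n)
            = (Bm n)ᵀ * (Am (2 ^ kk n) ^ K - avg (H n)) + ((Bm n)ᵀ * avg (H n) - avg (H n)) := by
          rw [mul_sub]; abel
        rw [e]
        have h3 := ((MBd_BmT (p := p) n).mul (hK (2 ^ kk n))).add (norm_Bavg (p := p) n)
        refine h3.mono ?_
        have := (hn₀ n (by omega)).2
        linarith
      · simp only [if_neg h2]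
        exact (hK (2 ^ kk n)).mono (by linarith)
  · intro n j x x' hne i
    by_cases h1 : n < n₀
    · refine wkm_mono (wk_all n x x' j i) ?_
      have := Finset.le_sup (f := fun n => 2 * (kk n + ll n) + 1) (Finset.mem_range.2 h1)
      omega
    · simp only [if_neg h1] at hne
      by_cases h2 : j + 1 = 0
      · simp only [if_pos h2] at hne
        rw [Matrix.mul_apply] at hne
        obtain ⟨z, -, hz⟩ := Finset.exists_ne_zero_of_sum_ne_zero hne
        have hz1 := right_ne_zero_of_mul hz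
        have hz0 := left_ne_zero_of_mul hz
        rw [Matrix.transpose_apply] at hz0
        obtain ⟨hz2, hz3⟩ := Bm_ne hz0
        have w1 := wk_Am n K z x' hz1 (j + 1) i
        have w2 : Wk G 1 (⟨n, loc n x j i⟩ : Sp G) (⟨n, loc n z (j + 1) i⟩ : Sp G) := by
          rw [hz2]
          refine wk_step (Step.pos (Step0.wrap x j i h2 ?_))
          intro _
          rwa [← mem_TT]
        exact wkm_mono (wkm_trans w2 w1) (by omega)
      · simp only [if_neg h2] at hne
        have w1 := wk_Am n K x x' hne (j + 1) i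
        have w2 : Wk G 1 (⟨n, loc n x j i⟩ : Sp G) (⟨n, loc n x (j + 1) i⟩ : Sp G) :=
          wk_step (Step.pos (Step0.circ x j i h2))
        exact wkm_mono (wkm_trans w2 w1) (by omega)

end norms2

theorem exists_model_bg (p : ℝ≥0∞) [Fact (1 ≤ p)] [Fact (p ≠ ∞)] (hp : 1 < p) :
    Nonempty (Model p G) := by
  refine ⟨{
    H := H
    fintype := fun n => inferInstance
    decEq := fun n => inferInstance
    nonempty := fun n => ⟨0⟩
    L := fun n => kk n + ll n
    loc := fun n x j i => loc n x j i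
    x0 := fun n => 0
    loc_core := fun n j => rfl
    r0 := 1
    lvl := fun n x j i => wk_lvl n x j i
    bot := fun n x j j' => wk_of_eq (loc_bot n x j j') 1
    top := fun n x x' j => wk_of_eq (loc_top n x x' j) 1
    circTop := fun n x j => wk_circTop n x x j
    approxP := ?_
    approxT := fun ε hε => approxT_bg hp ε hε
    approxT' := fun ε hε => approxT'_bg hp ε hε }⟩
  intro ε hε
  obtain ⟨K, hK⟩ := expander p hp ε hε
  exact ⟨K, fun n => Am (2 ^ kk n) ^ K, fun n => hK (2 ^ kk n),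
    fun n x x' h j i => wk_Am n K x x' h j i⟩

end BG

end

end Pool.Agent.H368.NV
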