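import Mathlib

/-!
# Fixed points of words in affine maps and multiplication by `3`

PROOF SKETCH of `bad_bound`. For a word `w` there are an integer matrix `A` (a product of at most `|w|` elementary
matrices, `det A = 1`), `b ∈ ℤ²` and `s, t ∈ ℕ` with `s - t = wordKap w` and
`3^t • wordAct k w x = 3^s • (A x) + b` for all `k` and all `x ∈ (ZMod (2^k))²` (induction; `3 * 3⁻¹ = 1` in
`ZMod (2^k)`). If `wordAct k w x = x` then `(3^s A - 3^t) x = -b`. The determinant
`d = det (3^s A - 3^t) = 3^{2s} - 3^{s+t} tr A + 3^{2t}` is not zero if `s ≠ t`: dividing by `3^{2 min(s, t)}`,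
`3^{2c} - 3^c tr A + 1` with `c = |s - t| ≥ 1` is congruent to `1` modulo `3`. Multiplying with the adjugate matrix,
`d x₁` and `d x₂` are determined, and the number of solutions of `d y = e` in `ZMod (2^k)` is at most `|d|`
(`gcd(d, 2^k) ≤ |d|`). So the word has at most `d²` fixed points for every `k`. There are finitely many words of
length at most `r`.
-/

set_option autoImplicit false
set_option linter.unusedVariables false

namespace Pool.Agent.H368.NV

noncomputable section

/-- The eleven letters: nine affine maps, multiplication by `3` and by `3⁻¹`. -/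
def act (N : ℕ) (i : Fin 11) (x : ZMod N × ZMod N) : ZMod N × ZMod N :=
  match i with
  | 0 => x
  | 1 => (x.1 + x.2, x.2)
  | 2 => (x.1 - x.2, x.2)
  | 3 => (x.1, x.2 + x.1)
  | 4 => (x.1, x.2 - x.1)
  | 5 => (x.1 + 1, x.2)
  | 6 => (x.1 - 1, x.2)
  | 7 => (x.1, x.2 + 1)
  | 8 => (x.1, x.2 - 1)
  | 9 => (3 * x.1, 3 * x.2)
  | 10 => ((3 : ZMod N)⁻¹ * x.1, (3 : ZMod N)⁻¹ * x.2)

/-- The exponent of a letter. -/
def kap (i : Fin 11) : ℤ := if i = 9 then 1 else if i = 10 then -1 else 0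

/-- The action of a word. -/
def wordAct (N : ℕ) (w : List (Fin 11)) (x : ZMod N × ZMod N) : ZMod N × ZMod N :=
  w.foldl (fun y i => act N i y) x

/-- The exponent of a word. -/
def wordKap (w : List (Fin 11)) : ℤ := (w.map kap).sum

/-- The fixed points of words of length at most `r` with nonzero exponent. -/
def Bad (N r : ℕ) : Set (ZMod N × ZMod N) :=
  {x | ∃ w : List (Fin 11), w.length ≤ r ∧ wordKap w ≠ 0 ∧ wordAct N w x = x}

/-- a word acts by an affine map with integer coefficients, times a power of `3` -/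
theorem word_affine (w : List (Fin 11)) : ∃ (a b c d e f : ℤ) (s t : ℕ), a * d - b * c = 1 ∧
    (s : ℤ) - t = wordKap w ∧ ∀ (k : ℕ) (x : ZMod (2 ^ k) × ZMod (2 ^ k)),
      (3 : ZMod (2 ^ k)) ^ t * (wordAct (2 ^ k) w x).1 = 3 ^ s * (a * x.1 + b * x.2) + e ∧
      (3 : ZMod (2 ^ k)) ^ t * (wordAct (2 ^ k) w x).2 = 3 ^ s * (c * x.1 + d * x.2) + f := by
  induction w using List.reverseRecOn with
  | nil =>
    refine ⟨1, 0, 0, 1, 0, 0, 0, 0, by norm_num, by simp [wordKap], fun k x => ?_⟩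
    simp [wordAct]
  | append_singleton w i ih =>
    obtain ⟨a, b, c, d, e, f, s, t, h1, h2, h3⟩ := ih
    have hk : wordKap (w ++ [i]) = wordKap w + kap i := by
      simp [wordKap]
    have hw : ∀ (k : ℕ) (x : ZMod (2 ^ k) × ZMod (2 ^ k)),
        wordAct (2 ^ k) (w ++ [i]) x = act (2 ^ k) i (wordAct (2 ^ k) w x) := by
      intro k x
      simp [wordAct]
    have h33 : ∀ k : ℕ, (3 : ZMod (2 ^ k)) * 3⁻¹ = 1 := by
      intro k
      have h := ZMod.coe_mul_inv_eq_one (n := 2 ^ k) 3 (Nat.Coprime.pow_right k (by norm_num))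
      exact_mod_cast h
    rw [hk]
    have key : ∀ (a' b' c' d' e' f' : ℤ) (s' t' : ℕ), a' * d' - b' * c' = 1 →
        (s' : ℤ) - t' = wordKap w + kap i →
        (∀ (k : ℕ) (x : ZMod (2 ^ k) × ZMod (2 ^ k)),
          (3 : ZMod (2 ^ k)) ^ t' * (act (2 ^ k) i (wordAct (2 ^ k) w x)).1 =
            3 ^ s' * (a' * x.1 + b' * x.2) + e' ∧
          (3 : ZMod (2 ^ k)) ^ t' * (act (2 ^ k) i (wordAct (2 ^ k) w x)).2 =
            3 ^ s' * (c' * x.1 + d' * x.2) + f') →
        ∃ (a b c d e f : ℤ) (s t : ℕ), a * d - b * c = 1 ∧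
        (s : ℤ) - t = wordKap w + kap i ∧ ∀ (k : ℕ) (x : ZMod (2 ^ k) × ZMod (2 ^ k)),
          (3 : ZMod (2 ^ k)) ^ t * (wordAct (2 ^ k) (w ++ [i]) x).1 = 3 ^ s * (a * x.1 + b * x.2) + e ∧
          (3 : ZMod (2 ^ k)) ^ t * (wordAct (2 ^ k) (w ++ [i]) x).2 = 3 ^ s * (c * x.1 + d * x.2) + f := by
      intro a' b' c' d' e' f' s' t' g1 g2 g3
      refine ⟨a', b', c', d', e', f', s', t', g1, g2, fun k x => ?_⟩
      rw [hw]
      exact g3 k x
    match i with
    | 0 =>
      refine key a b c d e f s t h1 (by rw [h2]; simp [kap]) fun k x => ?_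
      exact h3 k x
    | 1 =>
      refine key (a + c) (b + d) c d (e + f) f s t (by linarith) (by rw [h2]; simp [kap]) fun k x => ?_
      obtain ⟨g1, g2⟩ := h3 k x
      refine ⟨?_, g2⟩
      simp only [act]
      push_cast
      linear_combination g1 + g2
    | 2 =>
      refine key (a - c) (b - d) c d (e - f) f s t (by linarith) (by rw [h2]; simp [kap]) fun k x => ?_
      obtain ⟨g1, g2⟩ := h3 k x
      refine ⟨?_, g2⟩
      simp only [act]
      push_cast
      linear_combination g1 - g2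
    | 3 =>
      refine key a b (c + a) (d + b) e (f + e) s t (by linarith) (by rw [h2]; simp [kap]) fun k x => ?_
      obtain ⟨g1, g2⟩ := h3 k x
      refine ⟨g1, ?_⟩
      simp only [act]
      push_cast
      linear_combination g2 + g1
    | 4 =>
      refine key a b (c - a) (d - b) e (f - e) s t (by linarith) (by rw [h2]; simp [kap]) fun k x => ?_
      obtain ⟨g1, g2⟩ := h3 k x
      refine ⟨g1, ?_⟩
      simp only [act]
      push_cast
      linear_combination g2 - g1
    | 5 =>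
      refine key a b c d (e + 3 ^ t) f s t h1 (by rw [h2]; simp [kap]) fun k x => ?_
      obtain ⟨g1, g2⟩ := h3 k x
      refine ⟨?_, g2⟩
      simp only [act]
      push_cast
      linear_combination g1
    | 6 =>
      refine key a b c d (e - 3 ^ t) f s t h1 (by rw [h2]; simp [kap]) fun k x => ?_
      obtain ⟨g1, g2⟩ := h3 k x
      refine ⟨?_, g2⟩
      simp only [act]
      push_cast
      linear_combination g1
    | 7 =>
      refine key a b c d e (f + 3 ^ t) s t h1 (by rw [h2]; simp [kap]) fun k x => ?_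
      obtain ⟨g1, g2⟩ := h3 k x
      refine ⟨g1, ?_⟩
      simp only [act]
      push_cast
      linear_combination g2
    | 8 =>
      refine key a b c d e (f - 3 ^ t) s t h1 (by rw [h2]; simp [kap]) fun k x => ?_
      obtain ⟨g1, g2⟩ := h3 k x
      refine ⟨g1, ?_⟩
      simp only [act]
      push_cast
      linear_combination g2
    | 9 =>
      refine key a b c d (3 * e) (3 * f) (s + 1) t h1 (by
        rw [← h2]; simp [kap]; ring) fun k x => ?_
      obtain ⟨g1, g2⟩ := h3 k x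
      constructor
      · simp only [act]
        push_cast
        linear_combination 3 * g1
      · simp only [act]
        push_cast
        linear_combination 3 * g2
    | 10 =>
      refine key a b c d e f s (t + 1) h1 (by
        rw [← h2]; simp [kap]; ring) fun k x => ?_
      obtain ⟨g1, g2⟩ := h3 k x
      have g3 := h33 k
      constructor
      · simp only [act]
        linear_combination g1 + (3 ^ t * (wordAct (2 ^ k) w x).1) * g3
      · simp only [act]
        linear_combination g2 + (3 ^ t * (wordAct (2 ^ k) w x).2) * g3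

/-- the determinant is not zero -/
theorem det_ne {s t : ℕ} (h : s ≠ t) (T : ℤ) :
    (3 : ℤ) ^ (2 * s) - 3 ^ (s + t) * T + 3 ^ (2 * t) ≠ 0 := by
  have main : ∀ (m c : ℕ) (T : ℤ), 1 ≤ c →
      (3 : ℤ) ^ (2 * m) - 3 ^ (m + (m + c)) * T + 3 ^ (2 * (m + c)) ≠ 0 := by
    intro m c T hc h0
    obtain ⟨c', rfl⟩ := Nat.exists_eq_add_of_le hc
    have e : (3 : ℤ) ^ (2 * m) - 3 ^ (m + (m + (1 + c'))) * T + 3 ^ (2 * (m + (1 + c'))) =
        3 ^ (2 * m) * (1 + 3 * (3 ^ (2 * c' + 1) - 3 ^ c' * T)) := by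
      ring
    rw [e] at h0
    rcases mul_eq_zero.1 h0 with h1 | h1
    · exact absurd h1 (by positivity)
    · omega
  rcases Nat.lt_or_gt_of_ne h with h1 | h1
  · obtain ⟨c, rfl⟩ := Nat.exists_eq_add_of_lt h1
    have := main s (c + 1) T (by omega)
    exact this
  · obtain ⟨c, rfl⟩ := Nat.exists_eq_add_of_lt h1
    intro h0
    refine main t (c + 1) T (by omega) ?_
    rw [← h0]
    ring

/-- number of solutions of a linear congruence -/
theorem sol_card (k : ℕ) (D : ℤ) (hD : D ≠ 0) (E : ZMod (2 ^ k)) :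
    {y : ZMod (2 ^ k) | (D : ZMod (2 ^ k)) * y = E}.ncard ≤ D.natAbs := by
  classical
  have hpos : 0 < D.natAbs := Int.natAbs_pos.2 hD
  have hker : (Finset.univ.filter fun y : ZMod (2 ^ k) => D.natAbs • y = 0).card ≤ D.natAbs :=
    IsAddCyclic.card_nsmul_eq_zero_le hpos
  rcases Set.eq_empty_or_nonempty {y : ZMod (2 ^ k) | (D : ZMod (2 ^ k)) * y = E} with h | ⟨y0, hy0⟩
  · rw [h, Set.ncard_empty]
    exact Nat.zero_le _
  · refine le_trans ?_ hker
    rw [← Set.ncard_coe_finset]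
    refine Set.ncard_le_ncard_of_injOn (fun y => y - y0) ?_ ?_ (Set.toFinite _)
    · intro y hy
      rw [Finset.coe_filter]
      refine ⟨Finset.mem_univ _, ?_⟩
      have h1 : (D : ZMod (2 ^ k)) * (y - y0) = 0 := by
        rw [mul_sub]
        rw [Set.mem_ofPred_eq] at hy hy0
        rw [hy, hy0, sub_self]
      rw [nsmul_eq_mul]
      have e : ((D.natAbs : ℕ) : ZMod (2 ^ k)) = ((D.natAbs : ℤ) : ZMod (2 ^ k)) :=
        (Int.cast_natCast _).symm
      rcases Int.natAbs_eq D with h2 | h2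
      · have h5 : (D.natAbs : ℤ) = D := h2.symm
        rw [e, h5]
        exact h1
      · have h5 : (D.natAbs : ℤ) = -D := by omega
        rw [e, h5, Int.cast_neg, neg_mul, h1, neg_zero]
    · intro y _ z _ h
      exact sub_left_injective h

/-- the number of fixed points of a word -/
theorem fix_card (w : List (Fin 11)) (hw : wordKap w ≠ 0) :
    ∃ C : ℕ, ∀ k : ℕ, {x : ZMod (2 ^ k) × ZMod (2 ^ k) | wordAct (2 ^ k) w x = x}.ncard ≤ C := by
  obtain ⟨a, b, c, d, e, f, s, t, h1, h2, h3⟩ := word_affine w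
  have hst : s ≠ t := by
    rintro rfl
    apply hw
    rw [← h2]
    ring
  set D : ℤ := (3 : ℤ) ^ (2 * s) - 3 ^ (s + t) * (a + d) + 3 ^ (2 * t) with hD
  have hD0 : D ≠ 0 := det_ne hst (a + d)
  refine ⟨D.natAbs * D.natAbs, fun k => ?_⟩
  have hsub : {x : ZMod (2 ^ k) × ZMod (2 ^ k) | wordAct (2 ^ k) w x = x} ⊆
      {y : ZMod (2 ^ k) | (D : ZMod (2 ^ k)) * y =
        ((-((3 ^ s * d - 3 ^ t) * e) + (3 ^ s * b) * f : ℤ) : ZMod (2 ^ k))} ×ˢ
      {y : ZMod (2 ^ k) | (D : ZMod (2 ^ k)) * y =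
        ((-((3 ^ s * a - 3 ^ t) * f) + (3 ^ s * c) * e : ℤ) : ZMod (2 ^ k))} := by
    intro x hx
    rw [Set.mem_ofPred_eq] at hx
    obtain ⟨g1, g2⟩ := h3 k x
    rw [hx] at g1 g2
    have g3 : ((a : ZMod (2 ^ k)) * d - b * c) = 1 := by exact_mod_cast congrArg (Int.cast : ℤ → ZMod (2 ^ k)) h1
    constructor
    · show (D : ZMod (2 ^ k)) * x.1 = _
      rw [hD]
      push_cast
      linear_combination ((3 ^ s * d - 3 ^ t) : ZMod (2 ^ k)) * (-g1) + (3 ^ s * b : ZMod (2 ^ k)) * g2 -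
        (3 ^ (2 * s) * x.1) * g3
    · show (D : ZMod (2 ^ k)) * x.2 = _
      rw [hD]
      push_cast
      linear_combination ((3 ^ s * a - 3 ^ t) : ZMod (2 ^ k)) * (-g2) + (3 ^ s * c : ZMod (2 ^ k)) * g1 -
        (3 ^ (2 * s) * x.2) * g3
  refine (Set.ncard_le_ncard hsub (Set.toFinite _)).trans ?_
  rw [Set.ncard_prod]
  exact Nat.mul_le_mul (sol_card k D hD0 _) (sol_card k D hD0 _)

theorem bad_bound (r : ℕ) : ∃ C : ℕ, ∀ k : ℕ, (Bad (2 ^ k) r).ncard ≤ C := by
  classical
  have hex : ∀ w : List (Fin 11), ∃ C : ℕ, wordKap w ≠ 0 → ∀ k : ℕ,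
      {x : ZMod (2 ^ k) × ZMod (2 ^ k) | wordAct (2 ^ k) w x = x}.ncard ≤ C := by
    intro w
    by_cases hw : wordKap w = 0
    · exact ⟨0, fun h => absurd hw h⟩
    · obtain ⟨C, hC⟩ := fix_card w hw
      exact ⟨C, fun _ => hC⟩
  choose C hC using hex
  have hfin := List.finite_length_le (Fin 11) r
  let W : Finset (List (Fin 11)) := hfin.toFinset.filter fun w => wordKap w ≠ 0
  refine ⟨∑ w ∈ W, C w, fun k => ?_⟩
  have hsub : Bad (2 ^ k) r ⊆ ⋃ w ∈ W, {x : ZMod (2 ^ k) × ZMod (2 ^ k) | wordAct (2 ^ k) w x = x} := by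
    rintro x ⟨w, h1, h2, h3⟩
    rw [Set.mem_iUnion₂]
    refine ⟨w, ?_, h3⟩
    rw [Finset.mem_filter, Set.Finite.mem_toFinset]
    exact ⟨h1, h2⟩
  refine (Set.ncard_le_ncard hsub (Set.toFinite _)).trans ?_
  refine (Finset.set_ncard_biUnion_le _ _).trans ?_
  refine Finset.sum_le_sum (fun w hw => ?_)
  rw [Finset.mem_filter] at hw
  exact hC w hw.2 k

end

end Pool.Agent.H368.NV
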