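import Pool.Agent.H368.NV.LGraph
import Pool.Agent.H368.NV.BadPts

/-!
# Labelled graphs of bounded degree

Let `l = 2 n + 1`, `N = 2 ^ l`, and let `k = kk n` be so large that `Bad (2 ^ k) n` has at most `4 ^ k / (n + 1)` elements.
The vertices are the points `loc x j i`, `x ∈ (ZMod (2^k))²`, `j ∈ ZMod (2^l)`, `i ≤ k + l`: on the level `i ≤ l` the point
`loc x j i` remembers `x` and `⌊j / 2^(l - i)⌋`, on the level `i ≥ l` it remembers `j` and `x` modulo `2^(k - (i - l))`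
(subtraction of natural numbers is used below, so both cases are given by one formula).

PROOF SKETCH of `flat_bg`. Let `r ≤ n` (and `n ≥ 1`) and consider a closed walk of length `≤ r` in the `n`-th graph with
total label `κ`. The level changes by at most one in each step. Case A: all points have level `< l`. Then for each
point the coordinate `x` is determined, every step applies a letter of `act (2^k)` to `x` (`gen` letters for `fib`, the letter `0`
for `circ` and `lvl`, `9` resp. `10` for `wrap` resp. its inverse), the label is `kap` of the letter. If `κ ≠ 0` then at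
least one step is a `wrap` or its inverse, with `x ∉ Bad`; but the closed walk, started at this `x`, shows that `x` is a
fixed point of a word of length `≤ r ≤ n` with exponent `κ ≠ 0` (a cyclic rotation of the word of the walk), so
`x ∈ Bad`, a contradiction. Case B: all points have level `≥ n`. Every step satisfies
`|θ w - θ v + κ_step| ≤ 2^{-n}` (`circ` and `wrap` at the level `i`: the change is `0` or `2^{-min(i, l)}`; `lvl`: at most
`2^{-(i+1)}`; `fib`: `0`), so `|κ| ≤ r 2^{-n} < 1`. If the walk has a point of level `< n`, then all levels are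
`< n + r ≤ 2 n < l` and we are in case A.

PROOF SKETCH of `degree_bg`. For a vertex `v = (X₁, X₂, J, i)` there are at most 64 vertices `w` with
`Step n v w κ` for some `κ`: `fib`, `wrap`: `w` is determined by `v` and the letter, as the affine maps are compatible with
the reduction modulo `2^(k - (i - l))`; `circ`: `J' = J` or `J' = J + 1`; `lvl` upwards: `x` reduced is determined, and
`J' ∈ {2 J, 2 J + 1}` or `J' = J`; `lvl` downwards: `J'` is determined by `J`, `X_a' ∈ {X_a, X_a + 2^(k - (i - l))}`;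
and the same for the inverse steps.
-/

set_option autoImplicit false
set_option linter.unusedVariables false

namespace Pool.Agent.H368.NV

open scoped ENNReal NNReal Topology
open Filter

noncomputable section

namespace BG

theorem exists_kk (n : ℕ) : ∃ k : ℕ, (Bad (2 ^ k) n).ncard * (n + 1) ≤ 4 ^ k := by
  obtain ⟨C, hC⟩ := bad_bound n
  refine ⟨C * (n + 1), (Nat.mul_le_mul_right _ (hC _)).trans ?_⟩
  calc C * (n + 1) ≤ 2 ^ (C * (n + 1)) := Nat.lt_two_pow_self.le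
    _ ≤ 4 ^ (C * (n + 1)) := Nat.pow_le_pow_left (by norm_num) _

/-- The exponent of the modulus of the fibre. -/
def kk (n : ℕ) : ℕ := (exists_kk n).choose

theorem kk_spec (n : ℕ) : (Bad (2 ^ kk n) n).ncard * (n + 1) ≤ 4 ^ kk n := (exists_kk n).choose_spec

/-- The exponent of the length of the circle. -/
def ll (n : ℕ) : ℕ := 2 * n + 1

/-- The fibre. -/
abbrev H (n : ℕ) : Type := ZMod (2 ^ kk n) × ZMod (2 ^ kk n)

/-- The vertices. -/
abbrev V (n : ℕ) : Type := Fin (2 ^ kk n) × Fin (2 ^ kk n) × Fin (2 ^ ll n) × Fin (kk n + ll n + 1)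

/-- The exponent of the modulus of the fibre on the level `i`. -/
def ex (n i : ℕ) : ℕ := kk n - (i - ll n)

/-- The position of `(x, j)` on the level `i`. -/
def loc (n : ℕ) (x : H n) (j : ZMod (2 ^ ll n)) (i : Fin (kk n + ll n + 1)) : V n :=
  (⟨x.1.val % 2 ^ ex n i, (Nat.mod_le _ _).trans_lt (ZMod.val_lt _)⟩,
    ⟨x.2.val % 2 ^ ex n i, (Nat.mod_le _ _).trans_lt (ZMod.val_lt _)⟩,
    ⟨j.val / 2 ^ (ll n - i), (Nat.div_le_self _ _).trans_lt (ZMod.val_lt _)⟩, i)

/-- The edges in one direction. -/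
inductive Step0 (n : ℕ) : V n → V n → ℤ → Prop
  | fib (x : H n) (j : ZMod (2 ^ ll n)) (i : Fin (kk n + ll n + 1)) (g : Fin 11) :
      g.val < 9 → Step0 n (loc n x j i) (loc n (act _ g x) j i) 0
  | circ (x : H n) (j : ZMod (2 ^ ll n)) (i : Fin (kk n + ll n + 1)) : j + 1 ≠ 0 →
      Step0 n (loc n x j i) (loc n x (j + 1) i) 0
  | wrap (x : H n) (j : ZMod (2 ^ ll n)) (i : Fin (kk n + ll n + 1)) : j + 1 = 0 →
      ((i : ℕ) < ll n → x ∉ Bad (2 ^ kk n) n) →
      Step0 n (loc n x j i) (loc n (act _ 9 x) (j + 1) i) 1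
  | lvl (x : H n) (j : ZMod (2 ^ ll n)) (i : Fin (kk n + ll n)) :
      Step0 n (loc n x j i.castSucc) (loc n x j i.succ) 0

/-- The edges. -/
inductive Step (n : ℕ) : V n → V n → ℤ → Prop
  | pos {v w : V n} {κ : ℤ} : Step0 n v w κ → Step n v w κ
  | neg {v w : V n} {κ : ℤ} : Step0 n v w κ → Step n w v (-κ)

theorem Step.symm' {n : ℕ} {v w : V n} {κ : ℤ} (h : Step n v w κ) : Step n w v (-κ) := by
  cases h with
  | pos h => exact Step.neg h
  | neg h =>
    rw [neg_neg]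
    exact Step.pos h

theorem val_add_one {N : ℕ} [NeZero N] (j : ZMod N) (h : j + 1 ≠ 0) : (j + 1).val = j.val + 1 := by
  have h1 : j.val + 1 ≠ N := by
    intro h2
    apply h
    have h3 : ((j.val + 1 : ℕ) : ZMod N) = 0 := by
      rw [h2]
      exact ZMod.natCast_self N
    rw [Nat.cast_add, ZMod.natCast_zmod_val, Nat.cast_one] at h3
    exact h3
  have h2 : j.val < N := ZMod.val_lt j
  have h3 : j.val + 1 < N := by omega
  have h4 : ((j.val + 1 : ℕ) : ZMod N) = j + 1 := by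
    rw [Nat.cast_add, ZMod.natCast_zmod_val, Nat.cast_one]
  rw [← h4]
  exact ZMod.val_cast_of_lt h3

theorem val_of_add_one {N : ℕ} [NeZero N] (j : ZMod N) (h : j + 1 = 0) : j.val + 1 = N := by
  have h2 : j.val < N := ZMod.val_lt j
  by_contra h1
  have h3 : j.val + 1 < N := by omega
  have h4 : ((j.val + 1 : ℕ) : ZMod N) = 0 := by
    rw [Nat.cast_add, ZMod.natCast_zmod_val, Nat.cast_one]
    exact h
  have h5 := ZMod.val_cast_of_lt h3
  rw [h4, ZMod.val_zero] at h5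
  omega

/-- The phase. -/
def ph (n : ℕ) (v : V n) : ℝ := (v.2.2.1 : ℝ) / 2 ^ min (v.2.2.2 : ℕ) (ll n)

theorem ph_last (n : ℕ) (x : H n) (j : ZMod (2 ^ ll n)) :
    ph n (loc n x j (Fin.last _)) = (j.val : ℝ) / 2 ^ ll n := by
  unfold ph loc
  have h1 : ((Fin.last (kk n + ll n) : Fin (kk n + ll n + 1)) : ℕ) = kk n + ll n := rfl
  simp only [h1]
  have h2 : min (kk n + ll n) (ll n) = ll n := min_eq_right (by omega)
  have h3 : ll n - (kk n + ll n) = 0 := by omega
  rw [h2, h3, pow_zero, Nat.div_one]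

theorem core_phase_aux (n : ℕ) (j : ZMod (2 ^ ll n)) (x y : H n) :
    ph n (loc n y (j + 1) (Fin.last _)) - ph n (loc n x j (Fin.last _)) +
      (if j + 1 = 0 then (1 : ℝ) else 0) = 1 / 2 ^ ll n := by
  have hpos : (0 : ℝ) < 2 ^ ll n := by positivity
  rw [ph_last, ph_last]
  split_ifs with h
  · have h1 := val_of_add_one j h
    have h2 : ((j.val + 1 : ℕ) : ℝ) = ((2 ^ ll n : ℕ) : ℝ) := congrArg _ h1
    push_cast at h2
    rw [h, ZMod.val_zero, Nat.cast_zero, zero_div]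
    field_simp
    linarith
  · rw [val_add_one j h]
    push_cast
    field_simp
    ring

/-- The labelled graph. -/
def G (n : ℕ) : LGraph where
  V := V n
  finite := inferInstance
  step := Step n
  symm := Step.symm'
  N := 2 ^ ll n
  one_le := Nat.one_le_two_pow
  θ v := (v.2.2.1 : ℝ) / 2 ^ min (v.2.2.2 : ℕ) (ll n)
  core j := loc n 0 (j : ZMod (2 ^ ll n)) (Fin.last _)
  core_add := by
    intro j
    have h : ((j + ((2 ^ ll n : ℕ) : ℤ) : ℤ) : ZMod (2 ^ ll n)) = (j : ZMod (2 ^ ll n)) := by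
      rw [Int.cast_add, Int.cast_natCast, ZMod.natCast_self, add_zero]
    rw [h]
  lab j := if (j : ZMod (2 ^ ll n)) + 1 = 0 then 1 else 0
  core_step := by
    intro j
    have h : ((j + 1 : ℤ) : ZMod (2 ^ ll n)) = (j : ZMod (2 ^ ll n)) + 1 := by
      rw [Int.cast_add, Int.cast_one]
    rw [h]
    split_ifs with h0
    · have h1 := Step0.wrap (n := n) 0 (j : ZMod (2 ^ ll n)) (Fin.last _) h0 (by
        intro h2
        rw [Fin.val_last] at h2
        omega)
      have h3 : act (2 ^ kk n) 9 (0 : H n) = 0 :=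
        Prod.ext (mul_zero (3 : ZMod (2 ^ kk n))) (mul_zero (3 : ZMod (2 ^ kk n)))
      rw [h3] at h1
      exact Step.pos h1
    · exact Step.pos (Step0.circ 0 _ _ h0)
  core_phase := by
    intro j
    have h := core_phase_aux n (j : ZMod (2 ^ ll n)) 0 0
    have h1 : ((j + 1 : ℤ) : ZMod (2 ^ ll n)) = (j : ZMod (2 ^ ll n)) + 1 := by
      rw [Int.cast_add, Int.cast_one]
    unfold ph at h
    rw [h1]
    push_cast
    exact h

/-- The level. -/
def lev {n : ℕ} (v : V n) : ℕ := (v.2.2.2 : ℕ)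

/-- The coordinate of the fibre, for small levels. -/
def px {n : ℕ} (v : V n) : H n := (((v.1 : ℕ) : ZMod (2 ^ kk n)), ((v.2.1 : ℕ) : ZMod (2 ^ kk n)))

theorem lev_loc (n : ℕ) (x : H n) (j : ZMod (2 ^ ll n)) (i : Fin (kk n + ll n + 1)) :
    lev (loc n x j i) = (i : ℕ) := rfl

theorem px_loc (n : ℕ) (x : H n) (j : ZMod (2 ^ ll n)) (i : Fin (kk n + ll n + 1))
    (hi : (i : ℕ) ≤ ll n) : px (loc n x j i) = x := by
  have h1 : ex n i = kk n := by
    unfold ex
    omega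
  have h2 : ∀ y : ZMod (2 ^ kk n), ((y.val % 2 ^ ex n i : ℕ) : ZMod (2 ^ kk n)) = y := by
    intro y
    rw [h1, Nat.mod_eq_of_lt (ZMod.val_lt y), ZMod.natCast_zmod_val]
  unfold px loc
  exact Prod.ext (h2 x.1) (h2 x.2)

theorem lev_step0 {n : ℕ} {v w : V n} {κ : ℤ} (h : Step0 n v w κ) :
    lev w ≤ lev v + 1 ∧ lev v ≤ lev w + 1 := by
  cases h with
  | fib x j i g hg => exact ⟨by rw [lev_loc, lev_loc]; omega, by rw [lev_loc, lev_loc]; omega⟩
  | circ x j i hj => exact ⟨by rw [lev_loc, lev_loc]; omega, by rw [lev_loc, lev_loc]; omega⟩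
  | wrap x j i hj hb => exact ⟨by rw [lev_loc, lev_loc]; omega, by rw [lev_loc, lev_loc]; omega⟩
  | lvl x j i =>
    rw [lev_loc, lev_loc, Fin.val_castSucc, Fin.val_succ]
    exact ⟨by omega, by omega⟩

theorem lev_step {n : ℕ} {v w : V n} {κ : ℤ} (h : Step n v w κ) :
    lev w ≤ lev v + 1 ∧ lev v ≤ lev w + 1 := by
  cases h with
  | pos h => exact lev_step0 h
  | neg h => exact (lev_step0 h).symm

/-- The inverse of a letter. -/
def invl (g : Fin 11) : Fin 11 :=
  match g with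
  | 0 => 0
  | 1 => 2
  | 2 => 1
  | 3 => 4
  | 4 => 3
  | 5 => 6
  | 6 => 5
  | 7 => 8
  | 8 => 7
  | 9 => 10
  | 10 => 9

theorem three_inv (k : ℕ) (y : ZMod (2 ^ k)) : (3 : ZMod (2 ^ k))⁻¹ * (3 * y) = y := by
  have h1 : Nat.Coprime 3 (2 ^ k) := Nat.Coprime.pow_right k (by norm_num)
  have h2 := ZMod.coe_mul_inv_eq_one 3 h1
  have h3 : ((3 : ℕ) : ZMod (2 ^ k)) = 3 := by norm_num
  rw [h3] at h2
  rw [← mul_assoc, mul_comm (3 : ZMod (2 ^ k))⁻¹ 3, h2, one_mul]

theorem act_invl (k : ℕ) (g : Fin 11) (hg : g.val < 10) (x : ZMod (2 ^ k) × ZMod (2 ^ k)) :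
    act (2 ^ k) (invl g) (act (2 ^ k) g x) = x := by
  obtain ⟨a, b⟩ := x
  fin_cases g
  · rfl
  · exact Prod.ext (by change a + b - b = a; ring) rfl
  · exact Prod.ext (by change a - b + b = a; ring) rfl
  · exact Prod.ext rfl (by change b + a - a = b; ring)
  · exact Prod.ext rfl (by change b - a + a = b; ring)
  · exact Prod.ext (by change a + 1 - 1 = a; ring) rfl
  · exact Prod.ext (by change a - 1 + 1 = a; ring) rfl
  · exact Prod.ext rfl (by change b + 1 - 1 = b; ring)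
  · exact Prod.ext rfl (by change b - 1 + 1 = b; ring)
  · exact Prod.ext (three_inv k a) (three_inv k b)
  · exact absurd hg (by decide)

theorem kap_invl (g : Fin 11) : kap (invl g) = -kap g := by
  fin_cases g <;> decide

theorem kap_of_lt (g : Fin 11) (hg : g.val < 9) : kap g = 0 := by
  have h1 : g ≠ 9 := by
    rintro rfl
    exact absurd hg (by decide)
  have h2 : g ≠ 10 := by
    rintro rfl
    exact absurd hg (by decide)
  unfold kap
  rw [if_neg h1, if_neg h2]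

/-- The letters of the steps on small levels. -/
theorem letter0 {n : ℕ} {v w : V n} {κ : ℤ} (h : Step0 n v w κ) (hv : lev v ≤ ll n)
    (hw : lev w ≤ ll n) :
    ∃ g : Fin 11, g.val < 10 ∧ act (2 ^ kk n) g (px v) = px w ∧ kap g = κ := by
  cases h with
  | fib x j i g hg =>
    rw [lev_loc] at hv hw
    rw [px_loc n _ _ _ hv, px_loc n _ _ _ hw]
    exact ⟨g, by omega, rfl, kap_of_lt g hg⟩
  | circ x j i hj =>
    rw [lev_loc] at hv hw
    rw [px_loc n _ _ _ hv, px_loc n _ _ _ hw]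
    exact ⟨0, by decide, rfl, by decide⟩
  | wrap x j i hj hb =>
    rw [lev_loc] at hv hw
    rw [px_loc n _ _ _ hv, px_loc n _ _ _ hw]
    exact ⟨9, by decide, rfl, by decide⟩
  | lvl x j i =>
    rw [lev_loc] at hv hw
    rw [px_loc n _ _ _ hv, px_loc n _ _ _ hw]
    exact ⟨0, by decide, rfl, by decide⟩

theorem letter {n : ℕ} {v w : V n} {κ : ℤ} (h : Step n v w κ) (hv : lev v ≤ ll n)
    (hw : lev w ≤ ll n) :
    ∃ g : Fin 11, act (2 ^ kk n) g (px v) = px w ∧ kap g = κ := by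
  cases h with
  | pos h =>
    obtain ⟨g, -, h1, h2⟩ := letter0 h hv hw
    exact ⟨g, h1, h2⟩
  | neg h =>
    obtain ⟨g, hg, h1, h2⟩ := letter0 h hw hv
    refine ⟨invl g, ?_, ?_⟩
    · rw [← h1, act_invl _ g hg]
    · rw [kap_invl, h2]

theorem not_bad0 {n : ℕ} {v w : V n} {κ : ℤ} (h : Step0 n v w κ) (hv : lev v < ll n)
    (hκ : κ ≠ 0) : px v ∉ Bad (2 ^ kk n) n := by
  cases h with
  | fib x j i g hg => exact absurd rfl hκ
  | circ x j i hj => exact absurd rfl hκ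
  | wrap x j i hj hb =>
    rw [lev_loc] at hv
    rw [px_loc n _ _ _ hv.le]
    exact hb hv
  | lvl x j i => exact absurd rfl hκ

theorem not_bad {n : ℕ} {v w : V n} {κ : ℤ} (h : Step n v w κ) (hv : lev v < ll n)
    (hw : lev w < ll n) (hκ : κ ≠ 0) :
    px v ∉ Bad (2 ^ kk n) n ∨ px w ∉ Bad (2 ^ kk n) n := by
  cases h with
  | pos h => exact Or.inl (not_bad0 h hv hκ)
  | neg h => exact Or.inr (not_bad0 h hw (fun h0 => hκ (by rw [h0, neg_zero])))

theorem lev_walk {n : ℕ} {r : ℕ} {v w : (G n).V} {κ : ℤ} (h : (G n).Walk r v w κ) :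
    lev (n := n) w ≤ lev (n := n) v + r := by
  induction h with
  | refl r v => omega
  | cons h1 _ ih =>
    have h2 := (lev_step h1).1
    omega

theorem word_of_walk {n : ℕ} {r : ℕ} {v w : (G n).V} {κ : ℤ} (h : (G n).Walk r v w κ)
    (hv : lev (n := n) v + r ≤ ll n) :
    ∃ l : List (Fin 11), l.length ≤ r ∧ wordKap l = κ ∧
      wordAct (2 ^ kk n) l (px (n := n) v) = px (n := n) w := by
  induction h with
  | refl r v => exact ⟨[], Nat.zero_le _, rfl, rfl⟩
  | @cons r u v w κ₁ κ₂ h1 _ ih =>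
    have h2 := (lev_step h1).1
    obtain ⟨l, hl1, hl2, hl3⟩ := ih (by omega)
    obtain ⟨g, hg1, hg2⟩ := letter h1 (by omega) (by omega)
    refine ⟨g :: l, ?_, ?_, ?_⟩
    · rw [List.length_cons]
      omega
    · unfold wordKap at hl2 ⊢
      rw [List.map_cons, List.sum_cons, hl2, hg2]
    · unfold wordAct at hl3 ⊢
      rw [List.foldl_cons, hg1, hl3]

theorem split_walk {n : ℕ} {r : ℕ} {v w : (G n).V} {κ : ℤ} (h : (G n).Walk r v w κ)
    (hv : lev (n := n) v + r < ll n) (hκ : κ ≠ 0) :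
    ∃ (u : (G n).V) (s t : ℕ) (κ₁ κ₂ : ℤ), s + t ≤ r ∧ κ₁ + κ₂ = κ ∧ (G n).Walk s v u κ₁ ∧
      (G n).Walk t u w κ₂ ∧ px (n := n) u ∉ Bad (2 ^ kk n) n := by
  induction h with
  | refl r v => exact absurd rfl hκ
  | @cons r u v w κ₁ κ₂ h1 h2 ih =>
    have h3 := (lev_step h1).1
    by_cases hk : κ₁ = 0
    · obtain ⟨u', s, t, a, b, h4, h5, h6, h7, h8⟩ := ih (by omega) (by
        intro h0
        exact hκ (by rw [hk, h0, add_zero]))
      refine ⟨u', s + 1, t, κ₁ + a, b, by omega, ?_, LGraph.Walk.cons h1 h6, h7, h8⟩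
      rw [← h5, add_assoc]
    · rcases not_bad h1 (by omega) (by omega) hk with h4 | h4
      · exact ⟨u, 0, r + 1, 0, κ₁ + κ₂, by omega, zero_add _, LGraph.Walk.refl 0 u,
          LGraph.Walk.cons h1 h2, h4⟩
      · exact ⟨v, 1, r, κ₁, κ₂, by omega, rfl, LGraph.walk_one h1, h2, h4⟩

theorem ph_loc (n : ℕ) (x : H n) (j : ZMod (2 ^ ll n)) (i : Fin (kk n + ll n + 1)) (m : ℕ)
    (hm : m ≤ (i : ℕ)) (hm' : m ≤ ll n) :
    |ph n (loc n x j i) - (j.val : ℝ) / 2 ^ ll n| ≤ 1 / 2 ^ m := by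
  have h0 : (ll n - (i : ℕ)) + min (i : ℕ) (ll n) = ll n := by
    rcases le_total (i : ℕ) (ll n) with h | h
    · rw [min_eq_left h]
      omega
    · rw [min_eq_right h]
      omega
  have h1 : m ≤ min (i : ℕ) (ll n) := le_min hm hm'
  set e := ll n - (i : ℕ) with he
  set mi := min (i : ℕ) (ll n) with hmi
  have h2 : ph n (loc n x j i) = ((j.val / 2 ^ e : ℕ) : ℝ) / 2 ^ mi := rfl
  have h3 : (2 : ℝ) ^ ll n = 2 ^ e * 2 ^ mi := by rw [← pow_add, h0]
  have h4 : (j.val : ℝ) / 2 ^ ll n = ((j.val : ℝ) / 2 ^ e) / 2 ^ mi := by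
    rw [h3, div_div]
  have h5 : ((j.val / 2 ^ e : ℕ) : ℝ) ≤ (j.val : ℝ) / 2 ^ e := by
    have := @Nat.cast_div_le ℝ _ _ _ j.val (2 ^ e)
    rwa [Nat.cast_pow, Nat.cast_ofNat] at this
  have h6 : (j.val : ℝ) / 2 ^ e ≤ ((j.val / 2 ^ e : ℕ) : ℝ) + 1 := by
    rw [div_le_iff₀ (by positivity)]
    have h7 : j.val < (j.val / 2 ^ e + 1) * 2 ^ e := by
      have := Nat.lt_div_mul_add (a := j.val) (b := 2 ^ e) (by positivity)
      rw [add_mul, one_mul]
      exact this
    exact_mod_cast h7.le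
  rw [h2, h4, ← sub_div, abs_div, abs_of_pos (show (0 : ℝ) < 2 ^ mi by positivity)]
  refine div_le_div₀ zero_le_one ?_ (by positivity) ?_
  · rw [abs_le]
    exact ⟨by linarith, by linarith⟩
  · exact pow_le_pow_right₀ (by norm_num) h1

theorem ph_step0 {n : ℕ} {v w : V n} {κ : ℤ} (h : Step0 n v w κ) (m : ℕ) (hv : m ≤ lev v)
    (hw : m ≤ lev w) (hm : m ≤ ll n) : |ph n w - ph n v + κ| ≤ 3 * (1 / 2 ^ m) := by
  have hp : (0 : ℝ) < 1 / 2 ^ m := by positivity
  have hl : (1 : ℝ) / 2 ^ ll n ≤ 1 / 2 ^ m :=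
    one_div_le_one_div_of_le (by positivity) (pow_le_pow_right₀ (by norm_num) hm)
  have hl0 : (0 : ℝ) < 2 ^ ll n := by positivity
  cases h with
  | fib x j i g hg =>
    rw [lev_loc] at hv hw
    have h1 := ph_loc n x j i m hv hm
    have h2 := ph_loc n (act _ g x) j i m hw hm
    rw [abs_le] at h1 h2 ⊢
    push_cast
    exact ⟨by linarith, by linarith⟩
  | circ x j i hj =>
    rw [lev_loc] at hv hw
    have h1 := ph_loc n x j i m hv hm
    have h2 := ph_loc n x (j + 1) i m hw hm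
    rw [val_add_one j hj, Nat.cast_add, Nat.cast_one, add_div] at h2
    rw [abs_le] at h1 h2 ⊢
    have h3 : (0 : ℝ) < 1 / 2 ^ ll n := by positivity
    push_cast
    exact ⟨by linarith, by linarith⟩
  | wrap x j i hj hb =>
    rw [lev_loc] at hv hw
    have h1 := ph_loc n x j i m hv hm
    have h2 := ph_loc n (act _ 9 x) (j + 1) i m hw hm
    have h4 := val_of_add_one j hj
    have h5 : (j.val : ℝ) + 1 = 2 ^ ll n := by exact_mod_cast congrArg (fun t : ℕ => (t : ℝ)) h4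
    have h6 : (j.val : ℝ) / 2 ^ ll n = 1 - 1 / 2 ^ ll n := by
      rw [eq_sub_iff_add_eq, ← add_div, h5]
      exact div_self hl0.ne'
    have h7 : (((j + 1 : ZMod (2 ^ ll n)).val : ℕ) : ℝ) / 2 ^ ll n = 0 := by
      rw [hj, ZMod.val_zero, Nat.cast_zero, zero_div]
    rw [h6] at h1
    rw [h7] at h2
    rw [abs_le] at h1 h2 ⊢
    have h3 : (0 : ℝ) < 1 / 2 ^ ll n := by positivity
    push_cast
    exact ⟨by linarith, by linarith⟩
  | lvl x j i =>
    rw [lev_loc] at hv hw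
    have h1 := ph_loc n x j i.castSucc m hv hm
    have h2 := ph_loc n x j i.succ m hw hm
    rw [abs_le] at h1 h2 ⊢
    push_cast
    exact ⟨by linarith, by linarith⟩

theorem ph_step {n : ℕ} {v w : V n} {κ : ℤ} (h : Step n v w κ) (m : ℕ) (hv : m ≤ lev v)
    (hw : m ≤ lev w) (hm : m ≤ ll n) : |ph n w - ph n v + κ| ≤ 3 * (1 / 2 ^ m) := by
  cases h with
  | pos h => exact ph_step0 h m hv hw hm
  | @neg _ _ κ h =>
    have h1 := ph_step0 h m hw hv hm
    rw [← abs_neg] at h1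
    convert h1 using 2
    push_cast
    ring

theorem ph_walk {n : ℕ} {r : ℕ} {v w : (G n).V} {κ : ℤ} (h : (G n).Walk r v w κ) (m : ℕ)
    (hv : m + r ≤ lev (n := n) v) (hm : m ≤ ll n) :
    |ph n w - ph n v + κ| ≤ r * (3 * (1 / 2 ^ m)) := by
  have hp : (0 : ℝ) < 1 / 2 ^ m := by positivity
  induction h with
  | refl r v =>
    rw [sub_self, Int.cast_zero, add_zero, abs_zero]
    positivity
  | @cons r u v w κ₁ κ₂ h1 _ ih =>
    have h2 := (lev_step h1).2
    have h3 := ih (by omega)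
    have h4 := ph_step h1 m (by omega) (by omega) hm
    push_cast
    rw [abs_le] at h3 h4 ⊢
    exact ⟨by nlinarith, by nlinarith⟩

theorem flat_bg : Flat G := by
  intro r
  filter_upwards [eventually_ge_atTop (2 * r + 1)] with n hn v κ h
  by_contra hκ
  by_cases hv : lev (n := n) v ≤ n
  · have hl : ll n = 2 * n + 1 := rfl
    obtain ⟨u, s, t, κ₁, κ₂, h1, h2, h3, h4, h5⟩ := split_walk h (by omega) hκ
    have h6 := lev_walk h3
    obtain ⟨l, hl1, hl2, hl3⟩ := word_of_walk (h4.append h3) (by omega)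
    refine h5 ⟨l, by omega, ?_, hl3⟩
    rw [hl2, add_comm, h2]
    exact hκ
  · have hl : ll n = 2 * n + 1 := rfl
    have h1 := ph_walk h (r + 2) (by omega) (by omega)
    rw [sub_self, zero_add] at h1
    have h2 : (r : ℝ) < 2 ^ r := by exact_mod_cast (Nat.lt_two_pow_self : r < 2 ^ r)
    have h3 : (r : ℝ) * (3 * (1 / 2 ^ (r + 2))) < 1 := by
      rw [pow_add]
      have h4 : (0 : ℝ) < 2 ^ r := by positivity
      rw [show (r : ℝ) * (3 * (1 / (2 ^ r * 2 ^ 2))) = (3 * r) / (4 * 2 ^ r) by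
        field_simp
        ring]
      rw [div_lt_one (by positivity)]
      nlinarith
    have h5 : |(κ : ℝ)| < 1 := lt_of_le_of_lt h1 h3
    have h6 : |κ| < 1 := by exact_mod_cast h5
    exact hκ (Int.abs_lt_one_iff.1 h6)

end BG

namespace BGBAux

/-- the elements of a set with codes -/
theorem encard_le_of_code {α C : Type} [Fintype C] (S : Set α) (R : α → C → Prop)
    (h1 : ∀ w ∈ S, ∃ c, R w c) (h2 : ∀ w w' c, R w c → R w' c → w = w') :
    S.encard ≤ Fintype.card C := by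
  classical
  rcases S.eq_empty_or_nonempty with rfl | ⟨w0, hw0⟩
  · simp
  obtain ⟨c0, -⟩ := h1 w0 hw0
  have : Nonempty C := ⟨c0⟩
  choose! f hf using h1
  have h3 : S.encard ≤ (Set.univ : Set C).encard := by
    refine Set.encard_le_encard_of_injOn (f := f) (fun _ _ => Set.mem_univ _) ?_
    intro w hw w' hw' he
    have := hf w hw
    rw [he] at this
    exact h2 w w' _ this (hf w' hw')
  rwa [Set.encard_univ, ENat.card_eq_coe_fintype_card] at h3

/-- reduction modulo `M` -/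
def rd {N : ℕ} (M : ℕ) (x : ZMod N × ZMod N) : ZMod M × ZMod M := ((x.1.val : ZMod M), (x.2.val : ZMod M))

theorem rd_act {M N : ℕ} [NeZero N] (h : M ∣ N) (g : Fin 11) (hg : g.val < 10)
    (x : ZMod N × ZMod N) : rd M (act N g x) = act M g (rd M x) := by
  have hr : ∀ y : ZMod N × ZMod N, rd M y =
      (ZMod.castHom h (ZMod M) y.1, ZMod.castHom h (ZMod M) y.2) := by
    intro y
    simp only [rd, ZMod.castHom_apply, ZMod.natCast_val]
  rw [hr, hr]
  generalize ZMod.castHom h (ZMod M) = φ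
  fin_cases g
  pick_goal 11
  · exact absurd hg (by decide)
  pick_goal 10
  · have h3 : φ 3 = 3 := map_ofNat φ 3
    simp [act, h3]
  all_goals simp [act]

/-- three is a unit -/
theorem unit_three (e : ℕ) : IsUnit (3 : ZMod (2 ^ e)) := by
  have h : IsUnit ((3 : ℕ) : ZMod (2 ^ e)) :=
    (ZMod.isUnit_iff_coprime 3 (2 ^ e)).2 (Nat.Coprime.pow_right e (by norm_num))
  exact_mod_cast h

theorem act_inj (e : ℕ) (g : Fin 11) (hg : g.val < 10) {x y : ZMod (2 ^ e) × ZMod (2 ^ e)}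
    (h : act (2 ^ e) g x = act (2 ^ e) g y) : x = y := by
  obtain ⟨a, b⟩ := x
  obtain ⟨c, d⟩ := y
  fin_cases g
  · exact h
  · simp only [act, Prod.mk.injEq] at h ⊢
    obtain ⟨h1, h2⟩ := h
    subst h2
    exact ⟨add_right_cancel h1, rfl⟩
  · simp only [act, Prod.mk.injEq] at h ⊢
    obtain ⟨h1, h2⟩ := h
    subst h2
    exact ⟨sub_left_injective h1, rfl⟩
  · simp only [act, Prod.mk.injEq] at h ⊢
    obtain ⟨h1, h2⟩ := h
    subst h1
    exact ⟨rfl, add_right_cancel h2⟩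
  · simp only [act, Prod.mk.injEq] at h ⊢
    obtain ⟨h1, h2⟩ := h
    subst h1
    exact ⟨rfl, sub_left_injective h2⟩
  · simp only [act, Prod.mk.injEq] at h ⊢
    exact ⟨add_right_cancel h.1, h.2⟩
  · simp only [act, Prod.mk.injEq] at h ⊢
    exact ⟨sub_left_injective h.1, h.2⟩
  · simp only [act, Prod.mk.injEq] at h ⊢
    exact ⟨h.1, add_right_cancel h.2⟩
  · simp only [act, Prod.mk.injEq] at h ⊢
    exact ⟨h.1, sub_left_injective h.2⟩
  · simp only [act, Prod.mk.injEq] at h ⊢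
    exact ⟨(unit_three e).mul_left_cancel h.1, (unit_three e).mul_left_cancel h.2⟩
  · exact absurd hg (by decide)

/-- the class of the position in the fibre modulo `M` -/
def cl {n : ℕ} (M : ℕ) (v : BG.V n) : ZMod M × ZMod M := ((v.1.val : ZMod M), (v.2.1.val : ZMod M))

theorem loc_fst (n : ℕ) (x : BG.H n) (j : ZMod (2 ^ BG.ll n)) (i : Fin (BG.kk n + BG.ll n + 1)) :
    (BG.loc n x j i).1.val = x.1.val % 2 ^ BG.ex n i := rfl

theorem loc_snd (n : ℕ) (x : BG.H n) (j : ZMod (2 ^ BG.ll n)) (i : Fin (BG.kk n + BG.ll n + 1)) :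
    (BG.loc n x j i).2.1.val = x.2.val % 2 ^ BG.ex n i := rfl

theorem loc_J (n : ℕ) (x : BG.H n) (j : ZMod (2 ^ BG.ll n)) (i : Fin (BG.kk n + BG.ll n + 1)) :
    (BG.loc n x j i).2.2.1.val = j.val / 2 ^ (BG.ll n - i) := rfl

theorem loc_i (n : ℕ) (x : BG.H n) (j : ZMod (2 ^ BG.ll n)) (i : Fin (BG.kk n + BG.ll n + 1)) :
    (BG.loc n x j i).2.2.2 = i := rfl

theorem cl_loc (n : ℕ) (x : BG.H n) (j : ZMod (2 ^ BG.ll n)) (i : Fin (BG.kk n + BG.ll n + 1)) :
    cl (2 ^ BG.ex n i) (BG.loc n x j i) = rd (2 ^ BG.ex n i) x := by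
  unfold cl rd
  rw [loc_fst, loc_snd]
  simp

/-- vertices are determined by their coordinates -/
theorem V_ext {n : ℕ} {v w : BG.V n} (h1 : v.1.val = w.1.val) (h2 : v.2.1.val = w.2.1.val)
    (h3 : v.2.2.1.val = w.2.2.1.val) (h4 : v.2.2.2.val = w.2.2.2.val) : v = w := by
  obtain ⟨a, b, c, d⟩ := v
  obtain ⟨a', b', c', d'⟩ := w
  simp only at h1 h2 h3 h4
  rw [Fin.ext h1, Fin.ext h2, Fin.ext h3, Fin.ext h4]

theorem eq_of_cl {n M : ℕ} {v w : BG.V n} (h : cl M v = cl M w) (h1 : v.1.val < M)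
    (h2 : v.2.1.val < M) (h3 : w.1.val < M) (h4 : w.2.1.val < M) :
    v.1.val = w.1.val ∧ v.2.1.val = w.2.1.val := by
  simp only [cl, Prod.mk.injEq, ZMod.natCast_eq_natCast_iff'] at h
  rw [Nat.mod_eq_of_lt h1, Nat.mod_eq_of_lt h2, Nat.mod_eq_of_lt h3, Nat.mod_eq_of_lt h4] at h
  exact h

/-- the codes -/
abbrev C : Type := (Fin 10 ⊕ Fin 2 ⊕ Fin 3) ⊕ (Fin 10 ⊕ Fin 2 ⊕ (Fin 2 × Fin 2 × Fin 2))

/-- the relation between a neighbour of `v` and its code -/
def Rel {n : ℕ} (v w : BG.V n) : C → Prop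
  | .inl (.inl g) => w.2.2.2.val = v.2.2.2.val ∧ w.1.val < 2 ^ BG.ex n v.2.2.2 ∧
      w.2.1.val < 2 ^ BG.ex n v.2.2.2 ∧
      cl (2 ^ BG.ex n v.2.2.2) w = act (2 ^ BG.ex n v.2.2.2) g.castSucc (cl _ v) ∧
      w.2.2.1.val = if g = 9 then 0 else v.2.2.1.val
  | .inl (.inr (.inl b)) => w.2.2.2.val = v.2.2.2.val ∧ w.1.val = v.1.val ∧ w.2.1.val = v.2.1.val ∧
      w.2.2.1.val = v.2.2.1.val + b.val
  | .inl (.inr (.inr b)) => w.2.2.2.val = v.2.2.2.val + 1 ∧
      w.1.val = v.1.val % 2 ^ BG.ex n (v.2.2.2.val + 1) ∧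
      w.2.1.val = v.2.1.val % 2 ^ BG.ex n (v.2.2.2.val + 1) ∧
      w.2.2.1.val = if b = 0 then v.2.2.1.val else if b = 1 then 2 * v.2.2.1.val else
        2 * v.2.2.1.val + 1
  | .inr (.inl g) => w.2.2.2.val = v.2.2.2.val ∧ w.1.val < 2 ^ BG.ex n v.2.2.2 ∧
      w.2.1.val < 2 ^ BG.ex n v.2.2.2 ∧
      act (2 ^ BG.ex n v.2.2.2) g.castSucc (cl _ w) = cl (2 ^ BG.ex n v.2.2.2) v ∧
      w.2.2.1.val = if g = 9 then (2 ^ BG.ll n - 1) / 2 ^ (BG.ll n - v.2.2.2.val) else v.2.2.1.val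
  | .inr (.inr (.inl b)) => w.2.2.2.val = v.2.2.2.val ∧ w.1.val = v.1.val ∧
      w.2.1.val = v.2.1.val ∧ w.2.2.1.val + b.val = v.2.2.1.val
  | .inr (.inr (.inr b)) => w.2.2.2.val + 1 = v.2.2.2.val ∧
      w.1.val = v.1.val + b.1.val * 2 ^ BG.ex n v.2.2.2 ∧
      w.2.1.val = v.2.1.val + b.2.1.val * 2 ^ BG.ex n v.2.2.2 ∧
      w.2.2.1.val = if b.2.2 = 0 then v.2.2.1.val else v.2.2.1.val / 2

theorem Rel_inj {n : ℕ} (v w w' : BG.V n) (c : C) (h : Rel v w c) (h' : Rel v w' c) : w = w' := by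
  rcases c with (g | b | b) | (g | b | b)
  · obtain ⟨h1, h2, h3, h4, h5⟩ := h
    obtain ⟨h1', h2', h3', h4', h5'⟩ := h'
    obtain ⟨e1, e2⟩ := eq_of_cl (h4.trans h4'.symm) h2 h3 h2' h3'
    exact V_ext e1 e2 (h5.trans h5'.symm) (h1.trans h1'.symm)
  · obtain ⟨h1, h2, h3, h4⟩ := h
    obtain ⟨h1', h2', h3', h4'⟩ := h'
    exact V_ext (h2.trans h2'.symm) (h3.trans h3'.symm) (h4.trans h4'.symm) (h1.trans h1'.symm)
  · obtain ⟨h1, h2, h3, h4⟩ := h
    obtain ⟨h1', h2', h3', h4'⟩ := h'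
    exact V_ext (h2.trans h2'.symm) (h3.trans h3'.symm) (h4.trans h4'.symm) (h1.trans h1'.symm)
  · obtain ⟨h1, h2, h3, h4, h5⟩ := h
    obtain ⟨h1', h2', h3', h4', h5'⟩ := h'
    obtain ⟨e1, e2⟩ := eq_of_cl (act_inj _ g.castSucc (by simp) (h4.trans h4'.symm)) h2 h3 h2' h3'
    exact V_ext e1 e2 (h5.trans h5'.symm) (h1.trans h1'.symm)
  · obtain ⟨h1, h2, h3, h4⟩ := h
    obtain ⟨h1', h2', h3', h4'⟩ := h'
    exact V_ext (h2.trans h2'.symm) (h3.trans h3'.symm) (by omega) (h1.trans h1'.symm)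
  · obtain ⟨h1, h2, h3, h4⟩ := h
    obtain ⟨h1', h2', h3', h4'⟩ := h'
    exact V_ext (h2.trans h2'.symm) (h3.trans h3'.symm) (h4.trans h4'.symm) (by omega)

theorem ex_le (n i : ℕ) : BG.ex n i ≤ BG.kk n := Nat.sub_le _ _

theorem ex_succ_le (n i : ℕ) : BG.ex n (i + 1) ≤ BG.ex n i := by
  unfold BG.ex; omega

theorem ex_le_succ (n i : ℕ) : BG.ex n i ≤ BG.ex n (i + 1) + 1 := by
  unfold BG.ex; omega

theorem val_succ {n : ℕ} {j : ZMod (2 ^ BG.ll n)} (hj : j + 1 ≠ 0) : (j + 1).val = j.val + 1 := by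
  have h1 : (1 : ZMod (2 ^ BG.ll n)).val = 1 := by
    rw [ZMod.val_one_eq_one_mod]
    exact Nat.mod_eq_of_lt (Nat.one_lt_two_pow (by unfold BG.ll; omega))
  have h2 : j.val < 2 ^ BG.ll n := ZMod.val_lt j
  have h3 := ZMod.val_add j 1
  rw [h1] at h3
  rcases Nat.lt_or_ge (j.val + 1) (2 ^ BG.ll n) with h4 | h4
  · rw [h3, Nat.mod_eq_of_lt h4]
  · exfalso
    have h5 : j.val + 1 = 2 ^ BG.ll n := by omega
    rw [h5, Nat.mod_self] at h3
    exact hj ((ZMod.val_eq_zero _).1 h3)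

theorem val_last {n : ℕ} {j : ZMod (2 ^ BG.ll n)} (hj : j + 1 = 0) : j.val = 2 ^ BG.ll n - 1 := by
  have h1 : (1 : ZMod (2 ^ BG.ll n)).val = 1 := by
    rw [ZMod.val_one_eq_one_mod]
    exact Nat.mod_eq_of_lt (Nat.one_lt_two_pow (by unfold BG.ll; omega))
  have h2 : j.val < 2 ^ BG.ll n := ZMod.val_lt j
  have h3 := ZMod.val_add j 1
  rw [h1, hj, ZMod.val_zero] at h3
  rcases Nat.lt_or_ge (j.val + 1) (2 ^ BG.ll n) with h4 | h4
  · rw [Nat.mod_eq_of_lt h4] at h3
    omega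
  · omega

theorem div_pred (a : ℕ) {l i : ℕ} (h : i < l) : a / 2 ^ (l - i) = a / 2 ^ (l - (i + 1)) / 2 := by
  have h1 : l - i = (l - (i + 1)) + 1 := by omega
  rw [h1, pow_succ, Nat.div_div_eq_div_mul]

theorem mod_pred (a : ℕ) (n i : ℕ) : ∃ b : Fin 2, a % 2 ^ BG.ex n i =
    a % 2 ^ BG.ex n (i + 1) + b.val * 2 ^ BG.ex n (i + 1) := by
  rcases Nat.eq_or_lt_of_le (ex_succ_le n i) with h | h
  · exact ⟨0, by rw [h]; simp⟩
  · have h1 : BG.ex n i = BG.ex n (i + 1) + 1 := by have := ex_le_succ n i; omega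
    refine ⟨⟨a / 2 ^ BG.ex n (i + 1) % 2, Nat.mod_lt _ (by norm_num)⟩, ?_⟩
    rw [h1, pow_succ, Nat.mod_mul, mul_comm (a / 2 ^ BG.ex n (i + 1) % 2)]

/-- circ: the change of the third coordinate -/
theorem circ_J {n : ℕ} {j : ZMod (2 ^ BG.ll n)} (hj : j + 1 ≠ 0) (m : ℕ) :
    ∃ b : Fin 2, (j + 1).val / m = j.val / m + b.val := by
  have hd := Nat.succ_div (a := j.val) (b := m)
  rw [val_succ hj, hd]
  by_cases hb : m ∣ j.val + 1
  · exact ⟨1, by rw [if_pos hb]; rfl⟩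
  · exact ⟨0, by rw [if_neg hb]; rfl⟩

/-- forward steps -/
theorem fwd {n : ℕ} {v w : BG.V n} {κ : ℤ} (h : BG.Step0 n v w κ) :
    ∃ c : Fin 10 ⊕ Fin 2 ⊕ Fin 3, Rel v w (.inl c) := by
  cases h with
  | fib x j i g hg =>
    refine ⟨.inl ⟨g.val, by omega⟩, rfl, Nat.mod_lt _ (by positivity), Nat.mod_lt _ (by positivity),
      ?_, ?_⟩
    · show cl (2 ^ BG.ex n i) (BG.loc n (act _ g x) j i) = act (2 ^ BG.ex n i) _ (cl (2 ^ BG.ex n i) (BG.loc n x j i))
      rw [cl_loc, cl_loc, rd_act (pow_dvd_pow 2 (ex_le n i)) g (by omega)]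
      rfl
    · have h9 : ((⟨g.val, by omega⟩ : Fin 10) = 9) ↔ False := by
        simp only [iff_false]
        intro he
        have := congrArg Fin.val he
        simp at this
        omega
      simp only [h9, if_false]
      rfl
  | circ x j i hj =>
    obtain ⟨b, hb⟩ := circ_J hj (2 ^ (BG.ll n - (i : ℕ)))
    exact ⟨.inr (.inl b), rfl, rfl, rfl, hb⟩
  | wrap x j i hj _ =>
    refine ⟨.inl 9, rfl, Nat.mod_lt _ (by positivity), Nat.mod_lt _ (by positivity), ?_, ?_⟩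
    · show cl (2 ^ BG.ex n i) (BG.loc n (act _ 9 x) (j + 1) i) = act (2 ^ BG.ex n i) _ (cl (2 ^ BG.ex n i) (BG.loc n x j i))
      rw [cl_loc, cl_loc, rd_act (pow_dvd_pow 2 (ex_le n i)) 9 (by decide)]
      rfl
    · rw [loc_J, hj]
      simp
  | lvl x j i =>
    have hm : ∀ a : ℕ, a % 2 ^ BG.ex n (i.val + 1) =
        (a % 2 ^ BG.ex n i.val) % 2 ^ BG.ex n (i.val + 1) := fun a =>
      (Nat.mod_mod_of_dvd _ (pow_dvd_pow 2 (ex_succ_le n i.val))).symm
    obtain ⟨b, hb⟩ : ∃ b : Fin 3, j.val / 2 ^ (BG.ll n - (i.val + 1)) =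
        if b = 0 then j.val / 2 ^ (BG.ll n - i.val) else
          if b = 1 then 2 * (j.val / 2 ^ (BG.ll n - i.val)) else
            2 * (j.val / 2 ^ (BG.ll n - i.val)) + 1 := by
      rcases Nat.lt_or_ge i.val (BG.ll n) with h1 | h1
      · have h2 := div_pred j.val h1
        rcases Nat.mod_two_eq_zero_or_one (j.val / 2 ^ (BG.ll n - (i.val + 1))) with h3 | h3
        · refine ⟨1, ?_⟩
          rw [if_neg (by decide), if_pos rfl]
          omega
        · refine ⟨2, ?_⟩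
          rw [if_neg (by decide), if_neg (by decide)]
          omega
      · refine ⟨0, ?_⟩
        rw [if_pos rfl, Nat.sub_eq_zero_of_le h1, Nat.sub_eq_zero_of_le (by omega)]
    exact ⟨.inr (.inr b), rfl, hm _, hm _, hb⟩

/-- backward steps -/
theorem bwd {n : ℕ} {v w : BG.V n} {κ : ℤ} (h : BG.Step0 n w v κ) :
    ∃ c : Fin 10 ⊕ Fin 2 ⊕ (Fin 2 × Fin 2 × Fin 2), Rel v w (.inr c) := by
  cases h with
  | fib x j i g hg =>
    refine ⟨.inl ⟨g.val, by omega⟩, rfl, Nat.mod_lt _ (by positivity), Nat.mod_lt _ (by positivity),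
      ?_, ?_⟩
    · show act (2 ^ BG.ex n i) _ (cl (2 ^ BG.ex n i) (BG.loc n x j i)) =
        cl (2 ^ BG.ex n i) (BG.loc n (act _ g x) j i)
      rw [cl_loc, cl_loc, rd_act (pow_dvd_pow 2 (ex_le n i)) g (by omega)]
      rfl
    · have h9 : ((⟨g.val, by omega⟩ : Fin 10) = 9) ↔ False := by
        simp only [iff_false]
        intro he
        have := congrArg Fin.val he
        simp at this
        omega
      simp only [h9, if_false]
      rfl
  | circ x j i hj =>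
    obtain ⟨b, hb⟩ := circ_J hj (2 ^ (BG.ll n - (i : ℕ)))
    exact ⟨.inr (.inl b), rfl, rfl, rfl, hb.symm⟩
  | wrap x j i hj _ =>
    refine ⟨.inl 9, rfl, Nat.mod_lt _ (by positivity), Nat.mod_lt _ (by positivity), ?_, ?_⟩
    · show act (2 ^ BG.ex n i) _ (cl (2 ^ BG.ex n i) (BG.loc n x j i)) =
        cl (2 ^ BG.ex n i) (BG.loc n (act _ 9 x) (j + 1) i)
      rw [cl_loc, cl_loc, rd_act (pow_dvd_pow 2 (ex_le n i)) 9 (by decide)]
      rfl
    · rw [if_pos rfl, loc_J, val_last hj]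
      rfl
  | lvl x j i =>
    obtain ⟨b1, hb1⟩ := mod_pred x.1.val n i.val
    obtain ⟨b2, hb2⟩ := mod_pred x.2.val n i.val
    obtain ⟨b3, hb3⟩ : ∃ b : Fin 2, j.val / 2 ^ (BG.ll n - i.val) =
        if b = 0 then j.val / 2 ^ (BG.ll n - (i.val + 1)) else
          j.val / 2 ^ (BG.ll n - (i.val + 1)) / 2 := by
      rcases Nat.lt_or_ge i.val (BG.ll n) with h1 | h1
      · exact ⟨1, by rw [if_neg (by decide)]; exact div_pred j.val h1⟩
      · exact ⟨0, by rw [if_pos rfl, Nat.sub_eq_zero_of_le h1, Nat.sub_eq_zero_of_le (by omega)]⟩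
    exact ⟨.inr (.inr (b1, b2, b3)), rfl, hb1, hb2, hb3⟩

theorem walk_card {G : LGraph} {Δ : ℕ} (h : ∀ v : G.V, {w | ∃ κ, G.step v w κ}.encard ≤ Δ)
    (r : ℕ) : ∀ v : G.V, {w | ∃ κ, G.Walk r v w κ}.encard ≤ ((Δ + 1) ^ r : ℕ) := by
  classical
  have hcard : ∀ v : G.V, (Set.toFinite {w | ∃ κ, G.step v w κ}).toFinset.card ≤ Δ := by
    intro v
    have h1 := h v
    rw [(Set.toFinite {w | ∃ κ, G.step v w κ}).encard_eq_coe_toFinset_card] at h1
    exact_mod_cast h1
  induction r with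
  | zero =>
    intro v
    have hs : {w | ∃ κ, G.Walk 0 v w κ} ⊆ {v} := by
      rintro w ⟨κ, hw⟩
      exact (LGraph.walk_zero hw).1.symm
    exact (Set.encard_le_encard hs).trans (by simp)
  | succ r ih =>
    intro v
    have ih' : ∀ u : G.V, (Set.toFinite {w | ∃ κ, G.Walk r u w κ}).toFinset.card ≤ (Δ + 1) ^ r := by
      intro u
      have h1 := ih u
      rw [(Set.toFinite {w | ∃ κ, G.Walk r u w κ}).encard_eq_coe_toFinset_card] at h1
      exact_mod_cast h1
    have hs : {w | ∃ κ, G.Walk (r + 1) v w κ} ⊆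
        (((insert v (Set.toFinite {w | ∃ κ, G.step v w κ}).toFinset).biUnion fun u =>
          (Set.toFinite {w | ∃ κ, G.Walk r u w κ}).toFinset : Finset G.V) : Set G.V) := by
      rintro w ⟨κ, hw⟩
      rw [Finset.mem_coe, Finset.mem_biUnion]
      cases hw with
      | refl => exact ⟨v, Finset.mem_insert_self _ _, by
          rw [Set.Finite.mem_toFinset]; exact ⟨0, LGraph.Walk.refl _ _⟩⟩
      | @cons _ _ u _ κ₁ κ₂ h1 h2 =>
        exact ⟨u, Finset.mem_insert_of_mem (by rw [Set.Finite.mem_toFinset]; exact ⟨_, h1⟩), by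
          rw [Set.Finite.mem_toFinset]; exact ⟨_, h2⟩⟩
    refine (Set.encard_le_encard hs).trans ?_
    rw [Set.encard_coe_eq_coe_finsetCard]
    have h4 := Finset.card_biUnion_le_card_mul
      (insert v (Set.toFinite {w | ∃ κ, G.step v w κ}).toFinset)
      (fun u => (Set.toFinite {w | ∃ κ, G.Walk r u w κ}).toFinset) ((Δ + 1) ^ r)
      (fun u _ => ih' u)
    have h5 := Finset.card_insert_le v (Set.toFinite {w | ∃ κ, G.step v w κ}).toFinset
    have h6 : (insert v (Set.toFinite {w | ∃ κ, G.step v w κ}).toFinset).card ≤ Δ + 1 :=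
      h5.trans (Nat.add_le_add_right (hcard v) 1)
    have h7 := h4.trans (Nat.mul_le_mul_right _ h6)
    rw [pow_succ, mul_comm]
    exact_mod_cast h7

end BGBAux

theorem BG.degree_bg (n : ℕ) (v : BG.V n) : {w : BG.V n | ∃ κ, BG.Step n v w κ}.encard ≤ 64 := by
  have h := BGBAux.encard_le_of_code {w : BG.V n | ∃ κ, BG.Step n v w κ} (BGBAux.Rel v) (by
    rintro w ⟨κ, hs⟩
    cases hs with
    | pos h0 => 
      obtain ⟨c, hc⟩ := BGBAux.fwd h0
      exact ⟨_, hc⟩
    | neg h0 =>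
      obtain ⟨c, hc⟩ := BGBAux.bwd h0
      exact ⟨_, hc⟩) (fun w w' c h h' => BGBAux.Rel_inj v w w' c h h')
  refine h.trans ?_
  have hc : Fintype.card BGBAux.C = 35 := by
    simp [BGBAux.C]
  rw [hc]
  norm_num


/-- If the degrees of the graphs are bounded then `Sp G` has bounded geometry. -/
theorem boundedGeometry_of_degree (G : ℕ → LGraph) (Δ : ℕ)
    (h : ∀ n (v : (G n).V), {w | ∃ κ, (G n).step v w κ}.encard ≤ Δ) (R : ℝ) :
    ∃ M : ℕ, ∀ a : Sp G, (Metric.closedBall a R).encard ≤ M := by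
  classical
  set r := ⌊R⌋₊ with hr
  have hfin : (⋃ n ∈ Set.Iio r,
      Set.range (fun v : (G n).V => (show Sp G from ⟨n, v⟩))).Finite :=
    Set.Finite.biUnion (Set.finite_Iio _) fun n _ => Set.finite_range _
  refine ⟨(Δ + 1) ^ r + hfin.toFinset.card, fun a => ?_⟩
  have hsub : Metric.closedBall a R ⊆
      ((fun w : (G a.1).V => (show Sp G from ⟨a.1, w⟩)) '' {w | ∃ κ, (G a.1).Walk r a.2 w κ}) ∪
        ⋃ n ∈ Set.Iio r, Set.range (fun v : (G n).V => (show Sp G from ⟨n, v⟩)) := by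
    intro b hb
    have h1 : dist b a ≤ R := hb
    have h2 : nearDist b a ≤ r := Nat.le_floor h1
    rcases near_symm ((nearDist_le_iff b a _).1 h2) with h3 | h3
    · left
      obtain ⟨n, v, w, κ, rfl, rfl, hw⟩ := h3
      exact ⟨w, ⟨κ, hw⟩, rfl⟩
    · right
      exact Set.mem_biUnion (Set.mem_Iio.2 (show b.1 < r by omega)) ⟨b.2, rfl⟩
  refine (Set.encard_le_encard hsub).trans ((Set.encard_union_le _ _).trans ?_)
  rw [Nat.cast_add]
  refine add_le_add ?_ ?_
  · exact (Set.encard_image_le _ _).trans (BGBAux.walk_card (h a.1) r a.2)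
  · rw [hfin.encard_eq_coe_toFinset_card]

end

end Pool.Agent.H368.NV
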