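import Mathlib

/-!
# An algebraic homotopy

`B` is a closed subalgebra of a Banach algebra `R`, `T` an invertible element. For an idempotent `q`
commuting with `T`, with `q (T - 1), q (T⁻¹ - 1) ∈ B`, the element `1 + q (T - 1)` is invertible over
`B`.

PROOF SKETCH.
* `Good x`, `x` idempotent ⇒ `w x := 1 + x (T - 1)` has the inverse `1 + x (T' - 1)`.
* Sums and complex multiples of `Good` elements are `Good`.
* `Equi e f` ⇒ `JoinedIn {u | InvOver B u} (w e) (w f)`: with `c = cos θ`, `s = sin θ`,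
  `q_θ = c² e + s² f + c s (v + v')` is an idempotent (use `e v = v = v f`, `v e = 0 = f v` etc.), good,
  `q_0 = e`, `q_{π/2} = f`.
* `{u | InvOver B u}` is closed under products and inverses, and `JoinedIn` is preserved by
  multiplication from the left or right by a fixed member.
* `w (e + f) = w e * w f` for orthogonal idempotents.
* `w q7 ~ 1`: `w q7 = (1 + q7 (ρ₁ - 1)) (1 + q7 (ρ₂ - 1))`, and `1 + λ q7 (ρ - 1)` with
  `λ = (1 - exp (i π t)) / 2`, `0 ≤ t ≤ 1`, is invertible with the inverse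
  `1 + λ' q7 (ρ - 1)`, `λ' = (1 - exp (-i π t)) / 2` (put `E = q7 (1 - ρ) / 2`, an idempotent; the
  element is `1 + (exp (i π t) - 1) E`).
* `w q2 ~ w q3 = w (q3 + q4) (w q4)⁻¹ ~ w (q3 + q4) (w q6)⁻¹ = w (q6 + q7) (w q6)⁻¹ = w q7 ~ 1`, using
  `w q4 ~ w q5 ~ w q6`.
-/

set_option autoImplicit false
set_option linter.unusedVariables false

namespace Pool.Agent.H368.NV

variable {R : Type*} [NormedRing R] [NormedAlgebra ℂ R]

/-- `B` is a closed complex subalgebra of `R`, which need not contain `1`. -/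
structure IsClosedSub (B : Set R) : Prop where
  zero_mem : (0 : R) ∈ B
  add_mem : ∀ {x y}, x ∈ B → y ∈ B → x + y ∈ B
  smul_mem : ∀ (c : ℂ) {x}, x ∈ B → c • x ∈ B
  mul_mem : ∀ {x y}, x ∈ B → y ∈ B → x * y ∈ B
  isClosed : IsClosed B

/-- `u` is invertible, and `u - 1` and `u⁻¹ - 1` are in `B`. -/
def InvOver (B : Set R) (u : R) : Prop :=
  ∃ u', u * u' = 1 ∧ u' * u = 1 ∧ u - 1 ∈ B ∧ u' - 1 ∈ B

/-- `x` commutes with `T`, and `x (T - 1)`, `x (T' - 1)` are in `B`. -/
structure Good (B : Set R) (T T' x : R) : Prop where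
  comm : T * x = x * T
  mem : x * (T - 1) ∈ B
  mem' : x * (T' - 1) ∈ B

/-- `e` and `f` are orthogonal idempotents which are equivalent by good elements. -/
structure Equi (B : Set R) (T T' e f : R) : Prop where
  good_e : Good B T T' e
  good_f : Good B T T' f
  ee : e * e = e
  ff : f * f = f
  ef : e * f = 0
  fe : f * e = 0
  exi : ∃ v v', Good B T T' v ∧ Good B T T' v' ∧ v * v' = e ∧ v' * v = f ∧
    e * v = v ∧ v * f = v ∧ f * v' = v' ∧ v' * e = v'

namespace KillingAux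

/-- `1 + x (T - 1)` -/
def w (T x : R) : R := 1 + x * (T - 1)

theorem comm' {T T' x : R} (h1 : T * T' = 1) (h2 : T' * T = 1) (h : T * x = x * T) :
    T' * x = x * T' := by
  calc T' * x = T' * x * (T * T') := by rw [h1, mul_one]
    _ = T' * (x * T) * T' := by noncomm_ring
    _ = T' * (T * x) * T' := by rw [h]
    _ = (T' * T) * x * T' := by noncomm_ring
    _ = x * T' := by rw [h2, one_mul]

theorem w_mul_w' {T T' x : R} (h1 : T * T' = 1) (h : T * x = x * T) (hx : x * x = x) :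
    w T x * w T' x = 1 := by
  unfold w
  have e1 : x * (T - 1) * (x * (T' - 1)) = x * (1 - T - T' + 1) := by
    calc x * (T - 1) * (x * (T' - 1)) = x * (T * x - x) * (T' - 1) := by noncomm_ring
      _ = x * (x * T - x) * (T' - 1) := by rw [h]
      _ = (x * x) * (T * T' - T - T' + 1) := by noncomm_ring
      _ = x * (1 - T - T' + 1) := by rw [hx, h1]
  calc (1 + x * (T - 1)) * (1 + x * (T' - 1))
      = 1 + x * (T - 1) + x * (T' - 1) + x * (T - 1) * (x * (T' - 1)) := by noncomm_ring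
    _ = 1 := by rw [e1]; noncomm_ring

theorem Good.symm {B : Set R} {T T' x : R} (h1 : T * T' = 1) (h2 : T' * T = 1)
    (h : Good B T T' x) : Good B T' T x := ⟨comm' h1 h2 h.comm, h.mem', h.mem⟩

theorem Good.add {B : Set R} (hB : IsClosedSub B) {T T' x y : R} (hx : Good B T T' x)
    (hy : Good B T T' y) : Good B T T' (x + y) := by
  refine ⟨by rw [mul_add, add_mul, hx.comm, hy.comm], ?_, ?_⟩
  · rw [add_mul]; exact hB.add_mem hx.mem hy.mem
  · rw [add_mul]; exact hB.add_mem hx.mem' hy.mem'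

theorem Good.smul {B : Set R} (hB : IsClosedSub B) {T T' x : R} (c : ℂ) (hx : Good B T T' x) :
    Good B T T' (c • x) := by
  refine ⟨by rw [mul_smul_comm, smul_mul_assoc, hx.comm], ?_, ?_⟩
  · rw [smul_mul_assoc]; exact hB.smul_mem c hx.mem
  · rw [smul_mul_assoc]; exact hB.smul_mem c hx.mem'

theorem inv_w {B : Set R} {T T' x : R} (h1 : T * T' = 1) (h2 : T' * T = 1)
    (h : Good B T T' x) (hx : x * x = x) : InvOver B (w T x) := by
  refine ⟨w T' x, w_mul_w' h1 h.comm hx, w_mul_w' h2 (comm' h1 h2 h.comm) hx, ?_, ?_⟩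
  · have : w T x - 1 = x * (T - 1) := by unfold w; abel
    rw [this]; exact h.mem
  · have : w T' x - 1 = x * (T' - 1) := by unfold w; abel
    rw [this]; exact h.mem'

theorem inv_mul {B : Set R} (hB : IsClosedSub B) {a b : R} (ha : InvOver B a)
    (hb : InvOver B b) : InvOver B (a * b) := by
  obtain ⟨a', a1, a2, a3, a4⟩ := ha
  obtain ⟨b', b1, b2, b3, b4⟩ := hb
  refine ⟨b' * a', ?_, ?_, ?_, ?_⟩
  · calc a * b * (b' * a') = a * (b * b') * a' := by noncomm_ring
      _ = 1 := by rw [b1, mul_one, a1]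
  · calc b' * a' * (a * b) = b' * (a' * a) * b := by noncomm_ring
      _ = 1 := by rw [a2, mul_one, b2]
  · have : a * b - 1 = (a - 1) * (b - 1) + ((a - 1) + (b - 1)) := by noncomm_ring
    rw [this]
    exact hB.add_mem (hB.mul_mem a3 b3) (hB.add_mem a3 b3)
  · have : b' * a' - 1 = (b' - 1) * (a' - 1) + ((b' - 1) + (a' - 1)) := by noncomm_ring
    rw [this]
    exact hB.add_mem (hB.mul_mem b4 a4) (hB.add_mem b4 a4)

theorem join_mul_right {B : Set R} (hB : IsClosedSub B) {a b c : R}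
    (h : JoinedIn {u | InvOver B u} a b) (hc : InvOver B c) :
    JoinedIn {u | InvOver B u} (a * c) (b * c) := by
  obtain ⟨γ, hγ⟩ := h
  exact ⟨γ.map (continuous_mul_const c), fun t => inv_mul hB (hγ t) hc⟩

theorem join_mul_left {B : Set R} (hB : IsClosedSub B) {a b c : R}
    (h : JoinedIn {u | InvOver B u} a b) (hc : InvOver B c) :
    JoinedIn {u | InvOver B u} (c * a) (c * b) := by
  obtain ⟨γ, hγ⟩ := h
  exact ⟨γ.map (continuous_const_mul c), fun t => inv_mul hB hc (hγ t)⟩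

theorem idem {e f v v' : R} (ee : e * e = e) (ff : f * f = f) (ef : e * f = 0) (fe : f * e = 0)
    (h1 : v * v' = e) (h2 : v' * v = f) (h3 : e * v = v) (h4 : v * f = v) (h5 : f * v' = v')
    (h6 : v' * e = v') (c s : ℂ) (hcs : c ^ 2 + s ^ 2 = 1) :
    ((c ^ 2) • e + (s ^ 2) • f + (c * s) • (v + v')) *
      ((c ^ 2) • e + (s ^ 2) • f + (c * s) • (v + v')) =
      (c ^ 2) • e + (s ^ 2) • f + (c * s) • (v + v') := by
  have g1 : v * e = 0 := by rw [← h4, mul_assoc, fe, mul_zero]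
  have g2 : f * v = 0 := by rw [← h3, ← mul_assoc, fe, zero_mul]
  have g3 : e * v' = 0 := by rw [← h5, ← mul_assoc, ef, zero_mul]
  have g4 : v' * f = 0 := by rw [← h6, mul_assoc, ef, mul_zero]
  have g5 : v * v = 0 := by
    calc v * v = v * f * v := by rw [h4]
      _ = 0 := by rw [mul_assoc, g2, mul_zero]
  have g6 : v' * v' = 0 := by
    calc v' * v' = v' * e * v' := by rw [h6]
      _ = 0 := by rw [mul_assoc, g3, mul_zero]
  simp only [add_mul, mul_add, smul_mul_assoc, mul_smul_comm, smul_add, ee, ff, ef, fe, h1, h2,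
    h3, h4, h5, h6, g1, g2, g3, g4, g5, g6, smul_zero, add_zero, zero_add, smul_smul]
  linear_combination (norm := module) hcs • ((c ^ 2) • e + (s ^ 2) • f + (c * s) • (v + v'))

theorem join_equi {B : Set R} (hB : IsClosedSub B) {T T' e f : R} (h1 : T * T' = 1)
    (h2 : T' * T = 1) (h : Equi B T T' e f) :
    JoinedIn {u | InvOver B u} (w T e) (w T f) := by
  obtain ⟨ge, gf, ee, ff, ef, fe, v, v', gv, gv', k1, k2, k3, k4, k5, k6⟩ := h
  set q : ℝ → R := fun t => (((Real.cos (Real.pi * t / 2) : ℝ) : ℂ) ^ 2) • e +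
    (((Real.sin (Real.pi * t / 2) : ℝ) : ℂ) ^ 2) • f +
    (((Real.cos (Real.pi * t / 2) : ℝ) : ℂ) * ((Real.sin (Real.pi * t / 2) : ℝ) : ℂ)) •
      (v + v') with hq
  have hqc : Continuous q := by
    rw [hq]
    fun_prop
  refine JoinedIn.ofLine (f := fun t => w T (q t)) ?_ ?_ ?_ ?_
  · refine Continuous.continuousOn ?_
    unfold w
    exact continuous_const.add (hqc.mul continuous_const)
  · have : q 0 = e := by rw [hq]; simp
    rw [this]
  · have : q 1 = f := by rw [hq]; simp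
    rw [this]
  · rintro _ ⟨t, -, rfl⟩
    refine inv_w h1 h2 ?_ ?_
    · exact Good.add hB (Good.add hB (Good.smul hB _ ge) (Good.smul hB _ gf))
        (Good.smul hB _ (Good.add hB gv gv'))
    · refine idem ee ff ef fe k1 k2 k3 k4 k5 k6 _ _ ?_
      norm_cast
      exact Real.cos_sq_add_sin_sq _

theorem w_add {T x y : R} (hc : T * x = x * T) (hc' : T * y = y * T) (h1 : x * y = 0) :
    w T (x + y) = w T x * w T y := by
  unfold w
  have e1 : x * (T - 1) * (y * (T - 1)) = 0 := by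
    calc x * (T - 1) * (y * (T - 1)) = x * (T * y - y) * (T - 1) := by noncomm_ring
      _ = x * (y * T - y) * (T - 1) := by rw [hc']
      _ = (x * y) * (T - 1) * (T - 1) := by noncomm_ring
      _ = 0 := by rw [h1, zero_mul, zero_mul]
  calc 1 + (x + y) * (T - 1) = 1 + x * (T - 1) + y * (T - 1) + 0 := by noncomm_ring
    _ = (1 + x * (T - 1)) * (1 + y * (T - 1)) := by rw [← e1]; noncomm_ring

theorem join_refl {B : Set R} (hB : IsClosedSub B) {q ρ : R} (hq : q * q = q)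
    (hρ : ρ * ρ = 1) (hc : ρ * q = q * ρ) (hm : q * (ρ - 1) ∈ B) :
    JoinedIn {u | InvOver B u} (1 + q * (ρ - 1)) 1 := by
  set E : R := (-(1 / 2) : ℂ) • (q * (ρ - 1)) with hE
  have hEB : E ∈ B := hB.smul_mem _ hm
  have hEE : E * E = E := by
    have e1 : q * (ρ - 1) * (q * (ρ - 1)) = (-2 : ℂ) • (q * (ρ - 1)) := by
      calc q * (ρ - 1) * (q * (ρ - 1)) = q * (ρ * q - q) * (ρ - 1) := by noncomm_ring
        _ = q * (q * ρ - q) * (ρ - 1) := by rw [hc]
        _ = (q * q) * (ρ * ρ - ρ - ρ + 1) := by noncomm_ring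
        _ = q * (1 - ρ - ρ + 1) := by rw [hq, hρ]
        _ = (-2 : ℂ) • (q * (ρ - 1)) := by
          have : (-2 : ℂ) • (q * (ρ - 1)) = -(q * (ρ - 1)) - q * (ρ - 1) := by module
          rw [this]; noncomm_ring
    rw [hE, smul_mul_assoc, mul_smul_comm, e1, smul_smul, smul_smul]
    congr 1
    norm_num
  have hinv : ∀ z z' : ℂ, z * z' = 1 → (1 + (z - 1) • E) * (1 + (z' - 1) • E) = 1 := by
    intro z z' hz
    have : (1 + (z - 1) • E) * (1 + (z' - 1) • E) =
        1 + ((z - 1) + (z' - 1) + (z - 1) * (z' - 1)) • E := by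
      simp only [add_mul, mul_add, one_mul, mul_one, smul_mul_assoc, mul_smul_comm, hEE]
      module
    rw [this, show (z - 1) + (z' - 1) + (z - 1) * (z' - 1) = z * z' - 1 by ring, hz, sub_self,
      zero_smul, add_zero]
  have hcont : Continuous (fun t : ℝ => 1 + (Complex.exp (Real.pi * t * Complex.I) - 1) • E) := by
    fun_prop
  refine JoinedIn.symm (JoinedIn.ofLine
    (f := fun t : ℝ => 1 + (Complex.exp (Real.pi * t * Complex.I) - 1) • E)
    hcont.continuousOn ?_ ?_ ?_)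
  · simp
  · have : Complex.exp (Real.pi * (1 : ℝ) * Complex.I) = -1 := by
      rw [Complex.ofReal_one, mul_one, Complex.exp_pi_mul_I]
    simp only [this]
    rw [hE, smul_smul]
    norm_num
  · rintro _ ⟨t, -, rfl⟩
    have hz : Complex.exp (Real.pi * t * Complex.I) * Complex.exp (-(Real.pi * t * Complex.I)) =
        1 := by rw [← Complex.exp_add, add_neg_cancel, Complex.exp_zero]
    refine ⟨1 + (Complex.exp (-(Real.pi * t * Complex.I)) - 1) • E, hinv _ _ hz,
      hinv _ _ (by rw [mul_comm]; exact hz), ?_, ?_⟩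
    · rw [add_sub_cancel_left]; exact hB.smul_mem _ hEB
    · rw [add_sub_cancel_left]; exact hB.smul_mem _ hEB

theorem inv_refl {B : Set R} (hB : IsClosedSub B) {q ρ : R} (hq : q * q = q)
    (hρ : ρ * ρ = 1) (hc : ρ * q = q * ρ) (hm : q * (ρ - 1) ∈ B) :
    InvOver B (1 + q * (ρ - 1)) :=
  (join_refl hB hq hρ hc hm).source_mem

end KillingAux

open KillingAux in
theorem killing (B : Set R) (hB : IsClosedSub B) (T T' : R) (h1 : T * T' = 1) (h2 : T' * T = 1)
    (q2 q3 q4 q5 q6 q7 ρ₁ ρ₂ : R)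
    (e23 : Equi B T T' q2 q3) (e45 : Equi B T T' q4 q5) (e56 : Equi B T T' q5 q6)
    (g7 : Good B T T' q7) (i7 : q7 * q7 = q7)
    (h34 : q3 * q4 = 0) (h43 : q4 * q3 = 0) (h67 : q6 * q7 = 0) (h76 : q7 * q6 = 0)
    (hsum : q3 + q4 = q6 + q7)
    (hρ₁ : ρ₁ * ρ₁ = 1) (hρ₂ : ρ₂ * ρ₂ = 1) (hρ : ρ₁ * ρ₂ = T)
    (c₁ : ρ₁ * q7 = q7 * ρ₁) (c₂ : ρ₂ * q7 = q7 * ρ₂)
    (m₁ : q7 * (ρ₁ - 1) ∈ B) (m₂ : q7 * (ρ₂ - 1) ∈ B) :
    JoinedIn {u | InvOver B u} (1 + q2 * (T - 1)) 1 := by
  have hE45 : JoinedIn {u | InvOver B u} (w T' q4) (w T' q6) := by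
    have sw : ∀ {e f : R}, Equi B T T' e f → Equi B T' T e f := by
      rintro e f ⟨a1, a2, a3, a4, a5, a6, v, v', a7, a8, a9⟩
      exact ⟨Good.symm h1 h2 a1, Good.symm h1 h2 a2, a3, a4, a5, a6, v, v', Good.symm h1 h2 a7,
        Good.symm h1 h2 a8, a9⟩
    exact (join_equi hB h2 h1 (sw e45)).trans (join_equi hB h2 h1 (sw e56))
  have s1 : JoinedIn {u | InvOver B u} (w T q2) (w T q3) := join_equi hB h1 h2 e23
  have g3 := e23.good_f
  have g4 := e45.good_e
  have g6 := e56.good_f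
  have s2 : w T q3 = w T (q3 + q4) * w T' q4 := by
    rw [w_add g3.comm g4.comm h34, mul_assoc, w_mul_w' h1 g4.comm e45.ee, mul_one]
  have s3 : w T (q3 + q4) * w T' q6 = w T q7 := by
    rw [hsum, add_comm q6 q7, w_add g7.comm g6.comm h76, mul_assoc,
      w_mul_w' h1 g6.comm e56.ff, mul_one]
  have hi : InvOver B (w T (q3 + q4)) := by
    refine inv_w h1 h2 (Good.add hB g3 g4) ?_
    rw [mul_add, add_mul, add_mul, e23.ff, e45.ee, h34, h43]
    simp
  have s4 : JoinedIn {u | InvOver B u} (w T q3) (w T q7) := by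
    rw [s2, ← s3]
    exact join_mul_left hB hE45 hi
  have s5 : w T q7 = (1 + q7 * (ρ₁ - 1)) * (1 + q7 * (ρ₂ - 1)) := by
    have e1 : q7 * (ρ₁ - 1) * (q7 * (ρ₂ - 1)) = q7 * (T - ρ₁ - ρ₂ + 1) := by
      calc q7 * (ρ₁ - 1) * (q7 * (ρ₂ - 1)) = q7 * (ρ₁ * q7 - q7) * (ρ₂ - 1) := by noncomm_ring
        _ = q7 * (q7 * ρ₁ - q7) * (ρ₂ - 1) := by rw [c₁]
        _ = (q7 * q7) * (ρ₁ * ρ₂ - ρ₁ - ρ₂ + 1) := by noncomm_ring
        _ = q7 * (T - ρ₁ - ρ₂ + 1) := by rw [i7, hρ]
    calc w T q7 = 1 + q7 * (ρ₁ - 1) + q7 * (ρ₂ - 1) + q7 * (T - ρ₁ - ρ₂ + 1) := by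
          unfold w; noncomm_ring
      _ = _ := by rw [← e1]; noncomm_ring
  have j1 := join_refl hB i7 hρ₁ c₁ m₁
  have j2 := join_refl hB i7 hρ₂ c₂ m₂
  have s6 : JoinedIn {u | InvOver B u} (w T q7) 1 := by
    rw [s5]
    have k1 := join_mul_right hB j1 (inv_refl hB i7 hρ₂ c₂ m₂)
    rw [one_mul] at k1
    exact k1.trans j2
  exact (s1.trans s4).trans s6

end Pool.Agent.H368.NV
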