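import Pool.Agent.H368.NV.LGraph
import Pool.Agent.H368.NV.LocClass
import Pool.Agent.H368.NV.Poly
import Pool.Agent.H368.NV.Killing

/-!
# The class of the core loops and its image in the `K`-theory of the Roe algebra

PROOF SKETCH of `base`. Let `(J, pr, co)` be from `hkill`. Let `u n j = ν (core j)` and
`I = J ⊕ Dy N`, and let `pos : I → rat K` be `pos (inl a)` = the vertex `ν (pr a)` (the point with
`w = single (ν (pr a)) 1`), `pos (inr (n, t)) = poly (u n) t`. `I` is countable; let
`ι : I ↪ rat K × ℕ`, `ι y = (pos y, encode y)`. Let `κ : Dy N ↪ I` map `(n, t)` to `inl (co (n, j))` if `t = j` is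
an integer and to `inr (n, t)` otherwise; then `pos (κ (n, t)) = poly (u n) t`. The loops are
`q n = poly (u n)`, `c = κ.trans ι`. `Loops.finite`: if `poly (u n) t ∈ C`, `C` compact, then
`ν (core ⌊t⌋)` is in the finite set of `finite_vertices`, and `hfin`.
By `dyUV_spec`, `L.x 0 = push c (perm (dyPerm 0) - 1)`, and with `e : Cyc N ↪ Dy N`, `(n, j) ↦ (n, j)`,
`perm (dyPerm 0) - 1 = push e (perm rot - 1)` (compare the entries), and
`κ ∘ e = inl ∘ co`. So `L.x 0 = push (ι ∘ inl) (push co (perm rot - 1))`.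
Now `push (ι ∘ inl)` maps `fpc G pr` to `(roe p (rat K)).s`: it is continuous, and if `T` satisfies
`ent T a b ≠ 0 → Wk G r (pr a) (pr b)` then `push (ι ∘ inl) T` has propagation `≤ 2 r` (the vertices
`ν x` and `ν y` have distance `≤ 2` if `Wk G 1 x y`), and it is locally compact, as a compact set
contains only finitely many vertices, so finitely many `ν (pr a)`, `a : J`.
So a path in `{g | InvOver (fpc G pr) g}` from `1 + push co (perm rot - 1)` to `1` gives a path of
`1 × 1` matrices, quasi-invertible over `(roe p (rat K)).s`, from `L.x 0` to `0`.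
-/

set_option autoImplicit false
set_option linter.unusedVariables false

namespace Pool.Agent.H368.NV

open scoped ENNReal NNReal Topology BoundedContinuousFunction
open Filter

noncomputable section

variable {p : ℝ≥0∞} [hp1 : Fact (1 ≤ p)] [hpt : Fact (p ≠ ∞)]

/-- The closure of the set of operators on `ℓ^p(J)` which have finite propagation over the graphs,
where `pr : J → Sp G`. -/
def fpc (p : ℝ≥0∞) [Fact (1 ≤ p)] [Fact (p ≠ ∞)] (G : ℕ → LGraph) {J : Type} (pr : J → Sp G) :
    Set (Op p J) :=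
  closure {T | ∃ r : ℕ, ∀ a b, ent T a b ≠ 0 → Wk G r (pr a) (pr b)}

/-- The pairs `(n, j)` with `0 ≤ j < N n`. -/
def Cyc (N : ℕ → ℕ) : Type := Σ n : ℕ, Fin (N n)

/-- The cyclic shifts `(n, j) ↦ (n, j + 1 mod N n)`. -/
def rot (N : ℕ → ℕ) : Equiv.Perm (Cyc N) := Equiv.sigmaCongrRight fun n => finRotate (N n)

/-- The shift along the cores is homotopic to `1` in the algebra `fpc` of some index set `J` over
`Sp G`. -/
def Kill (p : ℝ≥0∞) [Fact (1 ≤ p)] [Fact (p ≠ ∞)] (G : ℕ → LGraph) : Prop :=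
  ∃ (J : Type) (_ : Countable J) (pr : J → Sp G) (co : Cyc (fun n => (G n).N) ↪ J),
    (∀ a, (pr ⁻¹' {a}).Finite) ∧
    (∀ a, pr (co a) = ⟨a.1, (G a.1).core ((a.2 : ℕ) : ℤ)⟩) ∧
    JoinedIn {g | InvOver (fpc p G pr) g} (1 + push co (perm p (rot _) - 1)) 1

theorem wk_mono {G : ℕ → LGraph} {r s : ℕ} {a b : Sp G} (h : Wk G r a b) (hrs : r ≤ s) :
    Wk G s a b := by
  obtain ⟨n, v, w, κ, rfl, rfl, h⟩ := h
  exact ⟨n, v, w, κ, rfl, rfl, h.mono hrs⟩

theorem wk_trans {G : ℕ → LGraph} {r s : ℕ} {a b c : Sp G} (h : Wk G r a b) (h' : Wk G s b c) :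
    Wk G (r + s) a c := by
  obtain ⟨n, v, w, κ, rfl, rfl, h⟩ := h
  obtain ⟨m, v', w', κ', hb, rfl, h'⟩ := h'
  cases hb
  exact ⟨n, v, w', κ + κ', rfl, rfl, h.append h'⟩

/-- The algebra `fpc` is a closed subalgebra. -/
theorem isClosedSub_fpc {G : ℕ → LGraph} {J : Type} (pr : J → Sp G)
    (hfin : ∀ a, (pr ⁻¹' {a}).Finite) : IsClosedSub (fpc p G pr) := by
  refine ⟨?_, ?_, ?_, ?_, ?_⟩
  · refine subset_closure ⟨0, fun a b h => ?_⟩
    rw [ent_zero] at h
    exact absurd rfl h
  · intro x y hx hy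
    refine map_mem_closure₂ continuous_add hx hy ?_
    rintro T ⟨r, hT⟩ S ⟨s, hS⟩
    refine ⟨r + s, fun a b h => ?_⟩
    rw [ent_add] at h
    by_cases h1 : ent T a b = 0
    · rw [h1, zero_add] at h
      exact wk_mono (hS a b h) (Nat.le_add_left s r)
    · exact wk_mono (hT a b h1) (Nat.le_add_right r s)
  · intro c x hx
    refine map_mem_closure (continuous_const_smul c) hx ?_
    rintro T ⟨r, hT⟩
    refine ⟨r, fun a b h => hT a b ?_⟩
    rw [ent_smul] at h
    exact right_ne_zero_of_mul h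
  · intro x y hx hy
    refine map_mem_closure₂ continuous_mul hx hy ?_
    rintro T ⟨r, hT⟩ S ⟨s, hS⟩
    refine ⟨r + s, fun a b h => ?_⟩
    by_contra hc
    apply h
    have h1 := ent_mul T S a b
    have h2 : (fun c => ent T a c * ent S c b) = fun _ => 0 := by
      funext c
      by_contra h3
      exact hc (wk_trans (hT a c (left_ne_zero_of_mul h3)) (hS c b (right_ne_zero_of_mul h3)))
    rw [h2] at h1
    exact h1.unique hasSum_zero
  · exact isClosed_closure

end

end Pool.Agent.H368.NV
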