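import Pool.Agent.H368.NV.Base
import Pool.Agent.H368.NV.RoeM
import Pool.Agent.H368.NV.Rips

/-!
# The class of the core loops and its image in the `K`-theory of the Roe algebra (general version)

PROOF SKETCH of `push_fpc_mem_roe(M)`: by continuity it suffices to treat `T` with `ent T a b ≠ 0 → Wk G r (pr a) (pr b)`. If
`Wk G r x y` then the vertices `vert (ν x)`, `vert (ν y)` have distance `≤ 2 r` (induction on the walk; for one step the
two vertices are in a common simplex by `hν`). So `push ι T` has propagation `≤ 2 r`. A compact (or bounded) subset of the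
realization has finitely many vertices (`finite_vertices`, `finite_vertices_of_ebdd`), so it contains `vert (ν x)` for
finitely many `x : Sp G` (`hfin`), so only finitely many points `(ι a).1`, `a : J` (the fibres of `pr` are finite). So
`chi K * push ι T = ind S * (chi K * push ι T)` with `S` finite etc. (see the proof of `Loops.locCpt` in LocClass.lean), and for
`LocCptM`: all blocks have only finitely many nonzero entries, and only finitely many blocks over `B × B` are nonzero.

PROOF SKETCH of `base_gen`. Let `(J, pr, co)` be from `hkill`. Let `u n j = ν (core j)` and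
`I = J ⊕ Dy N`, and let `pos : I → rat K` be `pos (inl a)` = the vertex `vert (ν (pr a))`,
`pos (inr (n, t)) = poly (u n) t`. `I` is countable; let
`ι : I ↪ rat K × ℕ`, `ι y = (pos y, encode y)`. Let `κ : Dy N ↪ I` map `(n, t)` to `inl (co (n, j))` if `t = j` is
an integer and to `inr (n, t)` otherwise; then `pos (κ (n, t)) = poly (u n) t`. The loops are
`q n = poly (u n)`, `c = κ.trans ι`. `Loops.finite`: if `poly (u n) t ∈ C`, `C` compact, then
`ν (core ⌊t⌋)` is in the finite set of `finite_vertices`, and `hfin`.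
By `dyUV_spec`, `L.x 0 = push c (perm (dyPerm 0) - 1)`, and with `e : Cyc N ↪ Dy N`, `(n, j) ↦ (n, j)`,
`perm (dyPerm 0) - 1 = push e (perm rot - 1)` (compare the entries), and
`κ ∘ e = inl ∘ co`. So `L.x 0 = push (ι ∘ inl) (push co (perm rot - 1))`.
By `hAR`, `push (ι ∘ inl)` maps `fpc G pr` to `AR.s`. So a path in `{g | InvOver (fpc G pr) g}` from
`1 + push co (perm rot - 1)` to `1` gives a path of `1 × 1` matrices, quasi-invertible over `AR.s`, from `L.x 0` to `0`
(if `g * g' = 1 = g' * g`, `a = g - 1`, `b = g' - 1` then `a + b + a * b = 0`, and `push (ι ∘ inl)` is additive and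
multiplicative and continuous; see `qinv_fin_one` in LocClass.lean).
-/

set_option autoImplicit false
set_option linter.unusedVariables false

namespace Pool.Agent.H368.NV

open scoped ENNReal NNReal Topology BoundedContinuousFunction
open Filter

noncomputable section

variable {p : ℝ≥0∞} [hp1 : Fact (1 ≤ p)] [hpt : Fact (p ≠ ∞)]

/-- A vertex as a point of the realization. -/
def vert {W : Type} {K : Set (Finset W)} (v : W) (hv : {v} ∈ K) : Pt K where
  w := Finsupp.single v 1
  nonneg := by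
    classical
    intro u
    rw [Finsupp.single_apply]
    split_ifs <;> norm_num
  sum_one := by
    rw [Finsupp.sum_single_index rfl]
  mem := by
    rw [Finsupp.support_single_ne_zero v one_ne_zero]
    exact hv

/-- The hypotheses on the map `ν` from the space to the vertices of a complex. -/
structure Good0 (G : ℕ → LGraph) {W : Type} (K : Set (Finset W)) (ν : Sp G → W) : Prop where
  down : DownClosed K
  locFin : LocFin K
  edge : ∀ a b, Wk G 1 a b → ∀ σ : Finset W, (∀ v, v ∈ σ ↔ v = ν a ∨ v = ν b) → σ ∈ K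
  finite : ∀ w, {a | ν a = w}.Finite

theorem Good0.single {G : ℕ → LGraph} {W : Type} {K : Set (Finset W)} {ν : Sp G → W}
    (h : Good0 G K ν) (a : Sp G) : {ν a} ∈ K := by
  refine h.edge a a ⟨a.1, a.2, a.2, 0, rfl, rfl, LGraph.Walk.refl 1 _⟩ _ fun v => ?_
  rw [Finset.mem_singleton, or_self]

theorem vert_w {W : Type} {K : Set (Finset W)} (v : W) (hv : {v} ∈ K) :
    (vert v hv).w v ≠ 0 := by
  have h1 : (vert v hv).w v = 1 := Finsupp.single_eq_same
  rw [h1]
  exact one_ne_zero

/-- Points of a common simplex have distance at most two. -/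
theorem edist_le_two_of_common {W : Type} {K : Set (Finset W)} {x y : Pt K} (h : Common x y) :
    edist x y ≤ 2 := by
  refine (edist_le_of_common h).trans ?_
  obtain ⟨σ, hσ, hx, hy⟩ := h
  have h1 : ∀ v, v ∉ σ → x.w v = y.w v := by
    intro v hv
    rw [not_mem_supp x fun h => hv (hx h), not_mem_supp y fun h => hv (hy h)]
  have h2 : l1 x y ≤ 2 := by
    rw [l1_eq x y σ h1]
    calc ∑ v ∈ σ, |x.w v - y.w v| ≤ ∑ v ∈ σ, (x.w v + y.w v) := by
          refine Finset.sum_le_sum fun v _ => ?_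
          rw [abs_le]
          have g1 := x.nonneg v
          have g2 := y.nonneg v
          constructor <;> linarith
      _ = 2 := by
          rw [Finset.sum_add_distrib, sum_w_eq x σ hx, sum_w_eq y σ hy]; norm_num
  have h3 : ENNReal.ofReal (l1 x y) ≤ ENNReal.ofReal 2 := ENNReal.ofReal_le_ofReal h2
  refine h3.trans (le_of_eq ?_)
  simp

/-- The distance of the images of two points joined by a walk of length `r` is at most `2 r`. -/
theorem Good0.edist_walk {G : ℕ → LGraph} {W : Type} {K : Set (Finset W)} {ν : Sp G → W}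
    (h : Good0 G K ν) (n : ℕ) {r : ℕ} {v w : (G n).V} {κ : ℤ} (hw : (G n).Walk r v w κ) :
    edist (vert (ν ⟨n, v⟩) (h.single _)) (vert (ν ⟨n, w⟩) (h.single _)) ≤
      2 * (r : ℝ≥0∞) := by
  classical
  induction hw with
  | refl r v =>
    rw [edist_self]
    exact zero_le
  | @cons r u v w κ₁ κ₂ h1 _ ih =>
    have h2 : Common (vert (ν ⟨n, u⟩) (h.single _)) (vert (ν ⟨n, v⟩) (h.single _)) := by
      refine ⟨{ν ⟨n, u⟩, ν ⟨n, v⟩}, h.edge ⟨n, u⟩ ⟨n, v⟩
        ⟨n, u, v, κ₁, rfl, rfl, LGraph.walk_one h1⟩ _ fun x => ?_, ?_, ?_⟩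
      · rw [Finset.mem_insert, Finset.mem_singleton]
      · exact (Finsupp.support_single_subset).trans (by simp)
      · exact (Finsupp.support_single_subset).trans (by simp)
    calc edist (vert (ν ⟨n, u⟩) (h.single _)) (vert (ν ⟨n, w⟩) (h.single _))
        ≤ edist (vert (ν ⟨n, u⟩) (h.single _)) (vert (ν ⟨n, v⟩) (h.single _)) +
          edist (vert (ν ⟨n, v⟩) (h.single _)) (vert (ν ⟨n, w⟩) (h.single _)) :=
          edist_triangle _ _ _
      _ ≤ 2 + 2 * (r : ℝ≥0∞) := add_le_add (edist_le_two_of_common h2) ih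
      _ = 2 * ((r + 1 : ℕ) : ℝ≥0∞) := by
          push_cast
          ring

theorem Good0.edist_wk {G : ℕ → LGraph} {W : Type} {K : Set (Finset W)} {ν : Sp G → W}
    (h : Good0 G K ν) {r : ℕ} {a b : Sp G} (hw : Wk G r a b) :
    edist (vert (ν a) (h.single _)) (vert (ν b) (h.single _)) ≤ 2 * (r : ℝ≥0∞) := by
  obtain ⟨n, v, w, κ, rfl, rfl, hw⟩ := hw
  exact h.edist_walk n hw

/-- Finitely many indices lie over a set with finitely many vertices. -/
theorem Good0.finite_over {G : ℕ → LGraph} {W : Type} {K : Set (Finset W)} {ν : Sp G → W}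
    (h : Good0 G K ν) {J : Type} (pr : J → Sp G) (hpr : ∀ a, (pr ⁻¹' {a}).Finite)
    (ι : J ↪ rat K × ℕ) (hι : ∀ a, ((ι a).1 : Pt K) = vert (ν (pr a)) (h.single _))
    {C : Set (Pt K)} (hC : {v | ∃ x ∈ C, x.w v ≠ 0}.Finite) :
    {a : J | ((ι a).1 : Pt K) ∈ C}.Finite := by
  have h1 : (ν ⁻¹' {v | ∃ x ∈ C, x.w v ≠ 0}).Finite :=
    hC.preimage' fun w _ => h.finite w
  have h2 : (pr ⁻¹' (ν ⁻¹' {v | ∃ x ∈ C, x.w v ≠ 0})).Finite :=
    h1.preimage' fun a _ => hpr a
  refine h2.subset fun a ha => ?_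
  exact ⟨_, ha, by rw [hι]; exact vert_w _ _⟩

/-- The propagation of a push-forward. -/
theorem Good0.prop_push {G : ℕ → LGraph} {W : Type} {K : Set (Finset W)} {ν : Sp G → W}
    (h : Good0 G K ν) {J : Type} (pr : J → Sp G)
    (ι : J ↪ rat K × ℕ) (hι : ∀ a, ((ι a).1 : Pt K) = vert (ν (pr a)) (h.single _))
    {T : Op p J} {r : ℕ} (hT : ∀ a b, ent T a b ≠ 0 → Wk G r (pr a) (pr b)) :
    prop (push ι T) ≠ ∞ := by
  have h1 : prop (push ι T) ≤ 2 * (r : ℝ≥0∞) := by
    rw [prop_le_iff]
    intro a b hab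
    obtain ⟨a', b', rfl, rfl, h2⟩ := exists_of_ent_push ι T hab
    rw [hι, hι, edist_comm]
    exact h.edist_wk (hT a' b' h2)
  exact ne_top_of_le_ne_top (ENNReal.mul_ne_top (by norm_num) (ENNReal.natCast_ne_top r)) h1

theorem Good0.locCpt_push {G : ℕ → LGraph} {W : Type} {K : Set (Finset W)} {ν : Sp G → W}
    (h : Good0 G K ν) {J : Type} (pr : J → Sp G) (hpr : ∀ a, (pr ⁻¹' {a}).Finite)
    (ι : J ↪ rat K × ℕ) (hι : ∀ a, ((ι a).1 : Pt K) = vert (ν (pr a)) (h.single _))
    (T : Op p J) : LocCpt (push ι T) := by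
  classical
  intro C hC
  obtain ⟨S, hS⟩ : ∃ S : Set (rat K × ℕ), S = ι '' {a : J | ((ι a).1 : Pt K) ∈ C} := ⟨_, rfl⟩
  have hSf : S.Finite := by
    rw [hS]
    exact (h.finite_over pr hpr ι hι (finite_vertices h.locFin hC)).image _
  constructor
  · have h3 : chi p (rat K) C * push ι T = ind p S * (chi p (rat K) C * push ι T) := by
      apply op_ext
      intro a b
      rw [ent_ind_mul]
      by_cases ha : a ∈ S
      · rw [if_pos ha]
      · rw [if_neg ha]
        unfold chi
        rw [ent_ind_mul]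
        by_cases haK : a ∈ {a : rat K × ℕ | (a.1 : Pt K) ∈ C}
        · rw [if_pos haK]
          by_contra h4
          obtain ⟨a', b', rfl, rfl, h5⟩ := exists_of_ent_push ι _ h4
          apply ha
          rw [hS]
          exact ⟨a', haK, rfl⟩
        · rw [if_neg haK]
    rw [h3]
    exact (isCompactOperator_ind_mul S hSf _).1
  · have h3 : push ι T * chi p (rat K) C = (push ι T * chi p (rat K) C) * ind p S := by
      apply op_ext
      intro a b
      rw [ent_mul_ind]
      by_cases hb : b ∈ S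
      · rw [if_pos hb]
      · rw [if_neg hb]
        unfold chi
        rw [ent_mul_ind]
        by_cases hbK : b ∈ {a : rat K × ℕ | (a.1 : Pt K) ∈ C}
        · rw [if_pos hbK]
          by_contra h4
          obtain ⟨a', b', rfl, rfl, h5⟩ := exists_of_ent_push ι _ h4
          apply hb
          rw [hS]
          exact ⟨b', hbK, rfl⟩
        · rw [if_neg hbK]
    rw [h3]
    exact (isCompactOperator_ind_mul S hSf _).2

theorem Good0.locCptM_push {G : ℕ → LGraph} {W : Type} {K : Set (Finset W)} {ν : Sp G → W}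
    (h : Good0 G K ν) {J : Type} (pr : J → Sp G) (hpr : ∀ a, (pr ⁻¹' {a}).Finite)
    (ι : J ↪ rat K × ℕ) (hι : ∀ a, ((ι a).1 : Pt K) = vert (ν (pr a)) (h.single _))
    (T : Op p J) : LocCptM (push ι T) := by
  classical
  constructor
  · intro x y
    obtain ⟨S, hS⟩ : ∃ S : Set ℕ, S =
      (fun a => (ι a).2) '' {a : J | ((ι a).1 : Pt K) ∈ ({(x : Pt K)} : Set (Pt K))} := ⟨_, rfl⟩
    have hSf : S.Finite := by
      rw [hS]
      exact (h.finite_over pr hpr ι hι
        (finite_vertices h.locFin (isCompact_singleton (x := (x : Pt K))))).image _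
    have h3 : block (push ι T) x y = ind p S * block (push ι T) x y := by
      apply op_ext
      intro i j
      rw [ent_ind_mul]
      by_cases ha : i ∈ S
      · rw [if_pos ha]
      · rw [if_neg ha, ent_block]
        by_contra h4
        obtain ⟨a', b', h5, h6, h7⟩ := exists_of_ent_push ι _ h4
        apply ha
        rw [hS]
        refine ⟨a', ?_, ?_⟩
        · rw [Set.mem_ofPred_eq, h5]
          exact Set.mem_singleton _
        · change (ι a').2 = i
          rw [h5]
    rw [h3]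
    exact (isCompactOperator_ind_mul S hSf _).1
  · intro B hB
    have h1 := h.finite_over pr hpr ι hι (finite_vertices_of_ebdd h.locFin hB)
    refine ((h1.prod h1).image fun q : J × J => ((ι q.1).1, (ι q.2).1)).subset ?_
    rintro ⟨x, y⟩ ⟨hx, hy, hne⟩
    rw [Ne, block_eq_zero_iff] at hne
    push Not at hne
    obtain ⟨i, j, hij⟩ := hne
    obtain ⟨a', b', h5, h6, h7⟩ := exists_of_ent_push ι _ hij
    refine ⟨(a', b'), ⟨?_, ?_⟩, ?_⟩
    · change ((ι a').1 : Pt K) ∈ B
      rw [h5]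
      exact hx
    · change ((ι b').1 : Pt K) ∈ B
      rw [h6]
      exact hy
    · change ((ι a').1, (ι b').1) = (x, y)
      rw [h5, h6]

theorem push_fpc_mem_roe {G : ℕ → LGraph} {W : Type} {K : Set (Finset W)} {ν : Sp G → W}
    (h : Good0 G K ν) {J : Type} (pr : J → Sp G) (hpr : ∀ a, (pr ⁻¹' {a}).Finite)
    (ι : J ↪ rat K × ℕ) (hι : ∀ a, ((ι a).1 : Pt K) = vert (ν (pr a)) (h.single _))
    {T : Op p J} (hT : T ∈ fpc p G pr) : push ι T ∈ (roe p (rat K)).s := by
  have h1 : Set.MapsTo (pushL p ι) {T | ∃ r : ℕ, ∀ a b, ent T a b ≠ 0 → Wk G r (pr a) (pr b)}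
      (roeAlg p (rat K)) := by
    rintro S ⟨r, hS⟩
    exact ⟨h.locCpt_push pr hpr ι hι S, h.prop_push pr ι hι hS⟩
  exact map_mem_closure (pushL p ι).continuous hT h1

theorem push_fpc_mem_roeM {G : ℕ → LGraph} {W : Type} {K : Set (Finset W)} {ν : Sp G → W}
    (h : Good0 G K ν) {J : Type} (pr : J → Sp G) (hpr : ∀ a, (pr ⁻¹' {a}).Finite)
    (ι : J ↪ rat K × ℕ) (hι : ∀ a, ((ι a).1 : Pt K) = vert (ν (pr a)) (h.single _))
    {T : Op p J} (hT : T ∈ fpc p G pr) : push ι T ∈ (roeM p (rat K)).s := by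
  have h1 : Set.MapsTo (pushL p ι) {T | ∃ r : ℕ, ∀ a b, ent T a b ≠ 0 → Wk G r (pr a) (pr b)}
      (roeAlgM p (rat K)) := by
    rintro S ⟨r, hS⟩
    refine ⟨h.locCptM_push pr hpr ι hι S, ?_⟩
    rw [propM_eq_prop]
    exact h.prop_push pr ι hι hS
  exact map_mem_closure (pushL p ι).continuous hT h1

theorem Good0.isPoly {G : ℕ → LGraph} {W : Type} {K : Set (Finset W)} {ν : Sp G → W}
    (h : Good0 G K ν) (n : ℕ) : IsPoly K fun j => ν ⟨n, (G n).core j⟩ := by
  intro j σ hσ
  exact h.edge ⟨n, (G n).core j⟩ ⟨n, (G n).core (j + 1)⟩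
    ⟨n, _, _, _, rfl, rfl, LGraph.walk_one ((G n).core_step j)⟩ σ hσ

/-! ### Auxiliary lemmas for `base_gen` -/

theorem finRotate_val_gen {M : ℕ} (j : Fin M) :
    ((finRotate M j : Fin M) : ℕ) = if (j : ℕ) + 1 < M then (j : ℕ) + 1 else 0 := by
  rcases M with _ | m
  · exact j.elim0
  · exact finRotate_val j

/-- The embedding of the integral points. -/
def cycDy (N : ℕ → ℕ) : Cyc N ↪ Dy N where
  toFun := fun c => ⟨c.1, ⟨((c.2 : ℕ) : ℚ), Nat.cast_nonneg _, Nat.cast_lt.2 c.2.2⟩⟩
  inj' := by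
    rintro ⟨n, j⟩ ⟨m, k⟩ h
    have h1 : n = m := congrArg Sigma.fst h
    subst h1
    have h2 : ((j : ℕ) : ℚ) = ((k : ℕ) : ℚ) := by
      have h3 := eq_of_heq (Sigma.mk.inj h).2
      exact congrArg Subtype.val h3
    have h4 : (j : ℕ) = k := by exact_mod_cast h2
    have h5 : j = k := Fin.ext h4
    rw [h5]

theorem cycDy_fst {N : ℕ → ℕ} (c : Cyc N) : (cycDy N c).1 = c.1 := rfl

theorem cycDy_snd {N : ℕ → ℕ} (c : Cyc N) : ((cycDy N c).2 : ℚ) = ((c.2 : ℕ) : ℚ) := rfl

theorem rot_fst {N : ℕ → ℕ} (c : Cyc N) : (rot N c).1 = c.1 := rfl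

theorem rot_snd {N : ℕ → ℕ} (c : Cyc N) :
    (((rot N c).2 : Fin (N (rot N c).1)) : ℕ) = ((finRotate (N c.1) c.2 : Fin (N c.1)) : ℕ) := rfl

theorem exists_cycDy {N : ℕ → ℕ} {a : Dy N} (ha : IsDy 0 a.2) : ∃ c, cycDy N c = a := by
  obtain ⟨z, hz⟩ := ha
  rw [pow_zero, mul_one] at hz
  have h0 := a.2.2.1
  have h1 := a.2.2.2
  rw [hz] at h0 h1
  have hz0 : 0 ≤ z := by exact_mod_cast h0
  obtain ⟨j, rfl⟩ := Int.eq_ofNat_of_zero_le hz0
  have hj : j < N a.1 := by
    rw [Int.cast_natCast] at h1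
    exact_mod_cast h1
  refine ⟨⟨a.1, ⟨j, hj⟩⟩, ?_⟩
  apply dy_ext
  · rfl
  · rw [hz, Int.cast_natCast]
    rfl

theorem dyPerm_cycDy {N : ℕ → ℕ} (hN : ∀ n, 1 ≤ N n) (c : Cyc N) :
    dyPerm N hN 0 (cycDy N c) = cycDy N (rot N c) := by
  apply dy_ext
  · rw [dyPerm_fst]
    rfl
  · rw [dyPerm_snd, cycDy_snd, cycDy_snd, rot_snd, finRotate_val_gen]
    unfold stepVal
    rw [if_pos (isDy_nat 0 _), cycDy_fst, pow_zero, div_one]
    by_cases h : ((c.2 : Fin (N c.1)) : ℕ) + 1 < N c.1
    · have h2 : (((c.2 : Fin (N c.1)) : ℕ) : ℚ) + 1 < (N c.1 : ℚ) := by exact_mod_cast h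
      rw [if_pos h2, if_pos h]
      push_cast
      rfl
    · have h2 : ¬ (((c.2 : Fin (N c.1)) : ℕ) : ℚ) + 1 < (N c.1 : ℚ) := by
        intro h3
        exact h (by exact_mod_cast h3)
      rw [if_neg h2, if_neg h, Nat.cast_zero]

theorem perm_dyPerm_zero {N : ℕ → ℕ} (hN : ∀ n, 1 ≤ N n) :
    perm p (dyPerm N hN 0) - 1 = push (cycDy N) (perm p (rot N) - 1) := by
  classical
  apply op_ext
  intro a b
  by_cases hb : ∃ b', cycDy N b' = b
  · obtain ⟨b', rfl⟩ := hb
    by_cases ha : ∃ a', cycDy N a' = a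
    · obtain ⟨a', rfl⟩ := ha
      rw [ent_push, ent_sub, ent_sub, ent_perm, ent_perm, ent_one, ent_one, dyPerm_cycDy]
      simp only [(cycDy N).injective.eq_iff]
    · push Not at ha
      rw [ent_push_left (cycDy N) _ ha, ent_sub, ent_perm, ent_one, dyPerm_cycDy,
        if_neg (fun h => ha _ h.symm), if_neg (fun h => ha _ h.symm), sub_self]
  · have hb2 : ∀ i, cycDy N i ≠ b := fun i hi => hb ⟨i, hi⟩
    have hnd : ¬ IsDy 0 b.2 := fun h => hb (exists_cycDy h)
    rw [ent_push_right (cycDy N) _ a hb2, ent_sub, ent_perm, ent_one,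
      dyPerm_of_not_isDy hN hnd, sub_self]

theorem poly_int_w {W : Type} {K : Set (Finset W)} (hK : DownClosed K) {u : ℤ → W}
    (hu : IsPoly K u) (j : ℤ) : (poly hK hu (j : ℚ)).w = Finsupp.single (u j) 1 := by
  simp only [poly]
  rw [Int.floor_intCast, Int.fract_intCast]
  simp

theorem Pt.exists_ne {W : Type} {K : Set (Finset W)} (x : Pt K) : ∃ v, x.w v ≠ 0 := by
  by_contra hcon
  push Not at hcon
  have h1 : x.w = 0 := Finsupp.ext hcon
  have h2 := x.sum_one
  rw [h1, Finsupp.sum_zero_index] at h2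
  exact zero_ne_one h2

theorem countable_dy (N : ℕ → ℕ) : Countable (Dy N) := by
  unfold Dy
  infer_instance

theorem base_gen {G : ℕ → LGraph} (hkill : Kill p G) {W : Type} (K : Set (Finset W))
    (hc : (rat K).Countable) (ν : Sp G → W) (h : Good0 G K ν)
    (AR : ZSet (Op p (rat K × ℕ)))
    (hAR : ∀ {J : Type} (pr : J → Sp G) (hpr : ∀ a, (pr ⁻¹' {a}).Finite)
      (ι : J ↪ rat K × ℕ) (hι : ∀ a, ((ι a).1 : Pt K) = vert (ν (pr a)) (h.single _))
      {T : Op p J} (hT : T ∈ fpc p G pr), push ι T ∈ AR.s) :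
    ∃ L : Loops (rat K) fun n => (G n).N,
      (∀ n t, L.q n t = poly h.down (h.isPoly n) t) ∧
      ∃ q : QInv AR.s (fun (_ _ : Fin 1) => L.x p (fun n => (G n).one_le) 0),
        K1.mk AR ⟨1, _, q⟩ = K1.zero AR := by
  classical
  obtain ⟨J, hJ, pr, co, hfp, hco, hjoin⟩ := hkill
  have hN : ∀ n, 1 ≤ (fun n => (G n).N) n := fun n => (G n).one_le
  have hDy : Countable (Dy fun n => (G n).N) := countable_dy _
  let pos : J ⊕ Dy (fun n => (G n).N) → Pt K :=
    Sum.elim (fun a => vert (ν (pr a)) (h.single _))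
      (fun a => poly h.down (h.isPoly a.1) (a.2 : ℚ))
  have hpos : ∀ y, pos y ∈ rat K := by
    rintro (a | a)
    · intro v
      change ∃ q : ℚ, (Finsupp.single (ν (pr a)) (1 : ℝ)) v = q
      rw [Finsupp.single_apply]
      by_cases hv : ν (pr a) = v
      · exact ⟨1, by rw [if_pos hv]; norm_num⟩
      · exact ⟨0, by rw [if_neg hv]; norm_num⟩
    · exact poly_mem_rat h.down (h.isPoly a.1) (a.2 : ℚ)
  obtain ⟨en, hen⟩ := exists_injective_nat (J ⊕ Dy (fun n => (G n).N))
  let ι : J ⊕ Dy (fun n => (G n).N) ↪ rat K × ℕ :=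
    ⟨fun y => (⟨pos y, hpos y⟩, en y), fun y y' hy => hen (congrArg Prod.snd hy)⟩
  let κ : Dy (fun n => (G n).N) ↪ J ⊕ Dy (fun n => (G n).N) :=
    ⟨fun a => if ha : ∃ c, cycDy (fun n => (G n).N) c = a then Sum.inl (co ha.choose)
      else Sum.inr a, by
      intro a b hab
      by_cases ha : ∃ c, cycDy (fun n => (G n).N) c = a
      · by_cases hb : ∃ c, cycDy (fun n => (G n).N) c = b
        · simp only [dif_pos ha, dif_pos hb] at hab
          have h1 := co.injective (Sum.inl.inj hab)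
          rw [← ha.choose_spec, ← hb.choose_spec, h1]
        · simp only [dif_pos ha, dif_neg hb] at hab
          exact absurd hab Sum.inl_ne_inr
      · by_cases hb : ∃ c, cycDy (fun n => (G n).N) c = b
        · simp only [dif_neg ha, dif_pos hb] at hab
          exact absurd hab Sum.inr_ne_inl
        · simp only [dif_neg ha, dif_neg hb] at hab
          exact Sum.inr.inj hab⟩
  have hκ : ∀ c, κ (cycDy (fun n => (G n).N) c) = Sum.inl (co c) := by
    intro c
    have ha : ∃ c', cycDy (fun n => (G n).N) c' = cycDy (fun n => (G n).N) c := ⟨c, rfl⟩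
    change (if ha : ∃ c', cycDy (fun n => (G n).N) c' = cycDy (fun n => (G n).N) c then
      Sum.inl (co ha.choose) else Sum.inr (cycDy (fun n => (G n).N) c)) = _
    rw [dif_pos ha]
    have h1 := (cycDy (fun n => (G n).N)).injective ha.choose_spec
    rw [h1]
  have hκpos : ∀ a, pos (κ a) = poly h.down (h.isPoly a.1) (a.2 : ℚ) := by
    intro a
    by_cases ha : ∃ c, cycDy (fun n => (G n).N) c = a
    · obtain ⟨c, rfl⟩ := ha
      rw [hκ]
      change vert (ν (pr (co c))) (h.single _) = _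
      apply PolyAux.Pt_ext
      have h1 := poly_int_w h.down (h.isPoly (cycDy (fun n => (G n).N) c).1) ((c.2 : ℕ) : ℤ)
      have h2 : ((cycDy (fun n => (G n).N) c).2 : ℚ) = ((((c.2 : ℕ) : ℤ)) : ℚ) := by
        rw [cycDy_snd, Int.cast_natCast]
      rw [h2, h1]
      change Finsupp.single (ν (pr (co c))) (1 : ℝ) = _
      rw [hco]
      rfl
    · have h1 : κ a = Sum.inr a := dif_neg ha
      rw [h1]
      rfl
  let L : Loops (rat K) fun n => (G n).N :=
    { q := fun n t => poly h.down (h.isPoly n) t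
      per := fun n t => poly_add h.down (h.isPoly n) (G n).N
        (fun j => congrArg (fun v => ν ⟨n, v⟩) ((G n).core_add j)) t
      lip := fun n t t' => edist_poly_le h.down (h.isPoly n) t t'
      c := κ.trans ι
      c_fst := fun a => hκpos a
      finite := by
        intro C hC
        have hF := finite_vertices h.locFin hC
        have h1 : (⋃ v ∈ {v | ∃ x ∈ C, x.w v ≠ 0}, {a : Sp G | ν a = v}).Finite :=
          hF.biUnion fun v _ => h.finite v
        refine (h1.image Sigma.fst).subset ?_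
        rintro n ⟨t, ht⟩
        obtain ⟨v, hv⟩ := (poly h.down (h.isPoly n) t).exists_ne
        have hvF : v ∈ {v | ∃ x ∈ C, x.w v ≠ 0} := ⟨_, ht, hv⟩
        rcases poly_ne_zero h.down (h.isPoly n) t v hv with h2 | h2
        · exact ⟨⟨n, (G n).core ⌊t⌋⟩, Set.mem_biUnion hvF h2.symm, rfl⟩
        · exact ⟨⟨n, (G n).core (⌊t⌋ + 1)⟩, Set.mem_biUnion hvF h2.symm, rfl⟩ }
  let ι' : J ↪ rat K × ℕ := Function.Embedding.inl.trans ι
  have hι' : ∀ a, ((ι' a).1 : Pt K) = vert (ν (pr a)) (h.single _) := fun a => rfl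
  have hx0 : L.x p (fun n => (G n).one_le) 0 = push ι' (push co (perm p (rot _) - 1)) := by
    unfold Loops.x
    rw [pushB_apply]
    have h1 := (dyUV_spec p (fun n => (G n).N) (fun n => (G n).one_le)).2.2.2.1 0
    rw [Nat.cast_zero] at h1
    rw [h1, perm_dyPerm_zero]
    change push (κ.trans ι) _ = _
    rw [push_trans, push_trans]
    congr 1
    apply Function.Embedding.ext
    intro c
    change ι (κ (cycDy (fun n => (G n).N) c)) = ι (Sum.inl (co c))
    rw [hκ]
  let φ : Op p J → Matrix (Fin 1) (Fin 1) (Op p (rat K × ℕ)) := fun g _ _ => push ι' (g - 1)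
  have hφ : Continuous φ := by
    apply continuous_matrix
    intro i j
    exact (pushL p ι').continuous.comp (continuous_id.sub continuous_const)
  have hmaps : Set.MapsTo φ {g | InvOver (fpc p G pr) g}
      {c : Matrix (Fin 1) (Fin 1) (Op p (rat K × ℕ)) | QInv AR.s c} := by
    rintro g ⟨g', h1, h2, h3, h4⟩
    refine qinv_fin_one AR.s (hAR pr hfp ι' hι' h3) (hAR pr hfp ι' hι' h4) ?_ ?_
    · rw [← push_mul, ← push_add, ← push_add]
      have e : g - 1 + (g' - 1) + (g - 1) * (g' - 1) = g * g' - 1 := by noncomm_ring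
      rw [e, h1, sub_self, push_zero]
    · rw [← push_mul, ← push_add, ← push_add]
      have e : g - 1 + (g' - 1) + (g' - 1) * (g - 1) = g' * g - 1 := by noncomm_ring
      rw [e, h2, sub_self, push_zero]
  have hj := joinedIn_map hφ hmaps hjoin
  have e1 : φ (1 + push co (perm p (rot _) - 1)) =
      fun (_ _ : Fin 1) => L.x p (fun n => (G n).one_le) 0 := by
    funext i j
    change push ι' (1 + push co (perm p (rot _) - 1) - 1) = _
    rw [add_sub_cancel_left, hx0]
  have e2 : φ 1 = 0 := by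
    funext i j
    change push ι' (1 - 1) = 0
    rw [sub_self, push_zero]
  rw [e1, e2] at hj
  refine ⟨L, fun n t => rfl, hj.source_mem, ?_⟩
  rw [K1.mk_eq_zero]
  refine ⟨1, le_rfl, ?_⟩
  rw [pad_self]
  exact hj

end

end Pool.Agent.H368.NV
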