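import Mathlib

/-!
# Bounded operators on `ℓ^p(I)`: entries, indicator operators, extensions and restrictions
-/

set_option autoImplicit false

namespace Pool.Agent.H368.NV

open scoped ENNReal NNReal Topology
open Filter

noncomputable section

/-- The Banach space `ℓ^p(I)` of complex functions on `I`. -/
abbrev Ell (p : ℝ≥0∞) (I : Type) : Type := lp (fun _ : I => ℂ) p

/-- The Banach algebra of bounded operators on `ℓ^p(I)`. -/
abbrev Op (p : ℝ≥0∞) [Fact (1 ≤ p)] (I : Type) : Type := Ell p I →L[ℂ] Ell p I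

set_option linter.unusedVariables false

variable {p : ℝ≥0∞} [hp1 : Fact (1 ≤ p)] {I J K : Type}

theorem toReal_pos [hpt : Fact (p ≠ ∞)] : 0 < p.toReal :=
  ENNReal.toReal_pos (zero_lt_one.trans_le hp1.out).ne' hpt.out

theorem one_le_toReal [hpt : Fact (p ≠ ∞)] : 1 ≤ p.toReal := by
  have := ENNReal.toReal_mono hpt.out hp1.out
  simpa using this

/-! ### Basis vectors and entries -/

/-- The basis vector `e_i` of `ℓ^p(I)`. -/
def bas (p : ℝ≥0∞) {I : Type} (i : I) : Ell p I := by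
  classical exact lp.single p i 1

theorem bas_apply (i j : I) [Decidable (j = i)] :
    (bas p i : I → ℂ) j = if j = i then 1 else 0 := by
  classical
  unfold bas
  rw [lp.single_apply]
  by_cases h : j = i
  · subst h; simp
  · simp [h]

theorem bas_apply_self (i : I) : (bas p i : I → ℂ) i = 1 := by
  classical
  rw [bas_apply]; simp

theorem bas_apply_ne {i j : I} (h : j ≠ i) : (bas p i : I → ℂ) j = 0 := by
  classical
  rw [bas_apply]; simp [h]

theorem norm_bas (i : I) : ‖bas p i‖ = 1 := by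
  classical
  unfold bas
  rw [lp.norm_single (zero_lt_one.trans_le hp1.out)]
  simp

/-- The matrix entry of an operator. -/
def ent (T : Op p I) (a b : I) : ℂ := (T (bas p b) : I → ℂ) a

theorem hasSum_bas [hpt : Fact (p ≠ ∞)] (f : Ell p I) : HasSum (fun i => (f i) • bas p i) f := by
  classical
  have h := lp.hasSum_single hpt.out f
  have h2 : (fun i => (f i) • bas p i) = fun i => lp.single p i (f i) := by
    funext i
    ext j
    by_cases hj : j = i
    · subst hj
      simp [bas_apply_self]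
    · simp [bas_apply_ne hj, lp.single_apply, hj]
  rw [h2]
  exact h

/-- Evaluation at a point, as a continuous linear functional. -/
def evl (p : ℝ≥0∞) [Fact (1 ≤ p)] {I : Type} (a : I) : Ell p I →L[ℂ] ℂ :=
  LinearMap.mkContinuous
    { toFun := fun f => f a
      map_add' := fun f g => by simp
      map_smul' := fun c f => by simp } 1 (fun f => by
        have := lp.norm_apply_le_norm (p := p) (E := fun _ : I => ℂ)
          (zero_lt_one.trans_le Fact.out).ne' f a
        simpa using this)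

@[simp] theorem evl_apply (a : I) (f : Ell p I) : evl p a f = f a := rfl

theorem hasSum_apply [hpt : Fact (p ≠ ∞)] (T : Op p I) (f : Ell p I) (a : I) :
    HasSum (fun b => f b * ent T a b) ((T f : I → ℂ) a) := by
  have h1 := (hasSum_bas f).mapL ((evl p a).comp T)
  simpa [ent] using h1

theorem op_ext [hpt : Fact (p ≠ ∞)] {T S : Op p I} (h : ∀ a b, ent T a b = ent S a b) : T = S := by
  ext f a
  have h1 := hasSum_apply T f a
  have h2 := hasSum_apply S f a
  simp only [h] at h1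
  exact h1.unique h2

/-- Two operators between `ℓ^p` spaces which agree on the basis vectors are equal. -/
theorem clm_ext [hpt : Fact (p ≠ ∞)] {T S : Ell p I →L[ℂ] Ell p J}
    (h : ∀ b, T (bas p b) = S (bas p b)) : T = S := by
  ext1 f
  have h1 := (hasSum_bas f).mapL T
  have h2 := (hasSum_bas f).mapL S
  have h3 : (fun i => T ((f i) • bas p i)) = fun i => S ((f i) • bas p i) := by
    funext i
    simp [h]
  rw [h3] at h1
  exact h1.unique h2

@[simp] theorem ent_add (T S : Op p I) (a b : I) : ent (T + S) a b = ent T a b + ent S a b := by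
  simp [ent]

@[simp] theorem ent_sub (T S : Op p I) (a b : I) : ent (T - S) a b = ent T a b - ent S a b := by
  simp [ent]

@[simp] theorem ent_neg (T : Op p I) (a b : I) : ent (-T) a b = -ent T a b := by
  simp [ent]

@[simp] theorem ent_zero (a b : I) : ent (0 : Op p I) a b = 0 := by
  simp [ent]

@[simp] theorem ent_smul (c : ℂ) (T : Op p I) (a b : I) : ent (c • T) a b = c * ent T a b := by
  simp [ent]

theorem ent_one (a b : I) [Decidable (a = b)] :
    ent (1 : Op p I) a b = if a = b then 1 else 0 := by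
  simp [ent, bas_apply]

theorem ent_mul [hpt : Fact (p ≠ ∞)] (T S : Op p I) (a b : I) :
    HasSum (fun c => ent T a c * ent S c b) (ent (T * S) a b) := by
  have h := hasSum_apply T (S (bas p b)) a
  simp only [mul_comm] at h
  exact h

theorem norm_ent_le (T : Op p I) (a b : I) : ‖ent T a b‖ ≤ ‖T‖ := by
  have h1 := lp.norm_apply_le_norm (zero_lt_one.trans_le hp1.out).ne' (T (bas p b)) a
  have h2 := T.le_opNorm (bas p b)
  rw [norm_bas, mul_one] at h2
  exact h1.trans h2

/-! ### A constructor -/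

theorem mk_memℓp [hpt : Fact (p ≠ ∞)] (g : (I → ℂ) →ₗ[ℂ] (J → ℂ)) (C : ℝ)
    (h : ∀ f : Ell p I, ∀ s : Finset J,
      ∑ j ∈ s, ‖g f j‖ ^ p.toReal ≤ C ^ p.toReal * ‖f‖ ^ p.toReal) (f : Ell p I) :
    Memℓp (g f) p :=
  memℓp_gen' (h f)

/-- The operator `ℓ^p(I) → ℓ^p(J)` given by a linear map on functions which is bounded for the
`ℓ^p` norm. -/
def mkOp [hpt : Fact (p ≠ ∞)] (g : (I → ℂ) →ₗ[ℂ] (J → ℂ)) (C : ℝ) (hC : 0 ≤ C)
    (h : ∀ f : Ell p I, ∀ s : Finset J,
      ∑ j ∈ s, ‖g f j‖ ^ p.toReal ≤ C ^ p.toReal * ‖f‖ ^ p.toReal) :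
    Ell p I →L[ℂ] Ell p J :=
  LinearMap.mkContinuous
    { toFun := fun f => ⟨g f, mk_memℓp g C h f⟩
      map_add' := fun f f' => by
        ext j
        change g ((f : I → ℂ) + f') j = g f j + g f' j
        rw [map_add]; rfl
      map_smul' := fun c f => by
        ext j
        change g (c • (f : I → ℂ)) j = c • g f j
        rw [map_smul]; rfl } C (fun f => by
        apply lp.norm_le_of_forall_sum_le toReal_pos (by positivity)
        intro s
        rw [Real.mul_rpow hC (norm_nonneg _)]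
        exact h f s)

@[simp] theorem mkOp_apply [hpt : Fact (p ≠ ∞)] (g : (I → ℂ) →ₗ[ℂ] (J → ℂ)) (C : ℝ) (hC : 0 ≤ C)
    (h : ∀ f : Ell p I, ∀ s : Finset J,
      ∑ j ∈ s, ‖g f j‖ ^ p.toReal ≤ C ^ p.toReal * ‖f‖ ^ p.toReal) (f : Ell p I) (j : J) :
    (mkOp g C hC h f : J → ℂ) j = g f j := rfl

theorem norm_mkOp_le [hpt : Fact (p ≠ ∞)] (g : (I → ℂ) →ₗ[ℂ] (J → ℂ)) (C : ℝ) (hC : 0 ≤ C)
    (h : ∀ f : Ell p I, ∀ s : Finset J,
      ∑ j ∈ s, ‖g f j‖ ^ p.toReal ≤ C ^ p.toReal * ‖f‖ ^ p.toReal) : ‖mkOp g C hC h‖ ≤ C :=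
  LinearMap.mkContinuous_norm_le _ hC _

theorem sum_le_norm [hpt : Fact (p ≠ ∞)] (f : Ell p I) (s : Finset I) :
    ∑ i ∈ s, ‖f i‖ ^ p.toReal ≤ ‖f‖ ^ p.toReal := by
  rw [lp.norm_rpow_eq_tsum toReal_pos f]
  exact ((lp.memℓp f).summable toReal_pos).sum_le_tsum s (fun i _ => by positivity)

/-! ### Diagonal operators -/

/-- Multiplication by a bounded function (zero if the function is not bounded). -/
def dg (p : ℝ≥0∞) [Fact (1 ≤ p)] [Fact (p ≠ ∞)] {I : Type} (g : I → ℂ) : Op p I := by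
  classical
  exact if h : ∃ C : ℝ, 0 ≤ C ∧ ∀ i, ‖g i‖ ≤ C then
    mkOp (LinearMap.mulLeft ℂ g) h.choose h.choose_spec.1 (fun f s => by
      have h2 := h.choose_spec.2
      have h1 := h.choose_spec.1
      calc ∑ j ∈ s, ‖(LinearMap.mulLeft ℂ g) f j‖ ^ p.toReal
          ≤ ∑ j ∈ s, h.choose ^ p.toReal * ‖f j‖ ^ p.toReal := by
            apply Finset.sum_le_sum
            intro j _
            rw [← Real.mul_rpow h1 (norm_nonneg _)]
            apply Real.rpow_le_rpow (norm_nonneg _) _ toReal_pos.le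
            simp only [LinearMap.mulLeft_apply, Pi.mul_apply, norm_mul]
            exact mul_le_mul_of_nonneg_right (h2 j) (norm_nonneg _)
        _ = h.choose ^ p.toReal * ∑ j ∈ s, ‖f j‖ ^ p.toReal := by rw [Finset.mul_sum]
        _ ≤ _ := by
            apply mul_le_mul_of_nonneg_left (sum_le_norm f s)
            exact Real.rpow_nonneg h1 _)
  else 0

theorem dg_apply [hpt : Fact (p ≠ ∞)] {g : I → ℂ} {C : ℝ} (hg : ∀ i, ‖g i‖ ≤ C) (f : Ell p I)
    (i : I) : (dg p g f : I → ℂ) i = g i * f i := by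
  have h : ∃ C : ℝ, 0 ≤ C ∧ ∀ i, ‖g i‖ ≤ C := ⟨C, (norm_nonneg _).trans (hg i), hg⟩
  unfold dg
  rw [dif_pos h]
  simp

theorem norm_dg_le [hpt : Fact (p ≠ ∞)] {g : I → ℂ} {C : ℝ} (hC : 0 ≤ C) (hg : ∀ i, ‖g i‖ ≤ C) :
    ‖dg p g‖ ≤ C := by
  apply ContinuousLinearMap.opNorm_le_bound _ hC
  intro f
  apply lp.norm_le_of_forall_sum_le toReal_pos (by positivity)
  intro s
  rw [Real.mul_rpow hC (norm_nonneg _)]
  calc ∑ j ∈ s, ‖(dg p g f : I → ℂ) j‖ ^ p.toReal
      ≤ ∑ j ∈ s, C ^ p.toReal * ‖f j‖ ^ p.toReal := by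
        apply Finset.sum_le_sum
        intro j _
        rw [← Real.mul_rpow hC (norm_nonneg _), dg_apply hg, norm_mul]
        apply Real.rpow_le_rpow (by positivity) _ toReal_pos.le
        exact mul_le_mul_of_nonneg_right (hg j) (norm_nonneg _)
    _ = C ^ p.toReal * ∑ j ∈ s, ‖f j‖ ^ p.toReal := by rw [Finset.mul_sum]
    _ ≤ _ := by
        apply mul_le_mul_of_nonneg_left (sum_le_norm f s)
        exact Real.rpow_nonneg hC _

theorem ent_dg_mul [hpt : Fact (p ≠ ∞)] {g : I → ℂ} {C : ℝ} (hg : ∀ i, ‖g i‖ ≤ C) (T : Op p I)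
    (a b : I) : ent (dg p g * T) a b = g a * ent T a b := by
  simp [ent, dg_apply hg]

theorem dg_bas [hpt : Fact (p ≠ ∞)] {g : I → ℂ} {C : ℝ} (hg : ∀ i, ‖g i‖ ≤ C) (b : I) :
    dg p g (bas p b) = g b • bas p b := by
  ext i
  by_cases h : i = b
  · subst h; simp [dg_apply hg]
  · simp [dg_apply hg, bas_apply_ne h]

theorem ent_mul_dg [hpt : Fact (p ≠ ∞)] {g : I → ℂ} {C : ℝ} (hg : ∀ i, ‖g i‖ ≤ C) (T : Op p I)
    (a b : I) : ent (T * dg p g) a b = ent T a b * g b := by
  simp [ent, dg_bas hg, mul_comm]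

/-- The indicator operator of a subset of the index set: multiplication by the characteristic
function. -/
def ind (p : ℝ≥0∞) [Fact (1 ≤ p)] [Fact (p ≠ ∞)] {I : Type} (S : Set I) : Op p I :=
  dg p (S.indicator fun _ => 1)

theorem norm_indicator_one_le (S : Set I) (i : I) : ‖S.indicator (fun _ => (1 : ℂ)) i‖ ≤ 1 := by
  by_cases h : i ∈ S
  · simp [h]
  · simp [h]

theorem ind_apply [hpt : Fact (p ≠ ∞)] (S : Set I) (f : Ell p I) (i : I) :
    (ind p S f : I → ℂ) i = S.indicator (fun _ => 1) i * f i :=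
  dg_apply (norm_indicator_one_le S) f i

theorem ind_apply_mem [hpt : Fact (p ≠ ∞)] {S : Set I} (f : Ell p I) {i : I} (hi : i ∈ S) :
    (ind p S f : I → ℂ) i = f i := by
  rw [ind_apply]; simp [hi]

theorem ind_apply_notMem [hpt : Fact (p ≠ ∞)] {S : Set I} (f : Ell p I) {i : I} (hi : i ∉ S) :
    (ind p S f : I → ℂ) i = 0 := by
  rw [ind_apply]; simp [hi]

theorem norm_ind_le [hpt : Fact (p ≠ ∞)] (S : Set I) : ‖ind p S‖ ≤ 1 :=
  norm_dg_le zero_le_one (norm_indicator_one_le S)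

theorem ent_ind_mul [hpt : Fact (p ≠ ∞)] (S : Set I) (T : Op p I) (a b : I) [Decidable (a ∈ S)] :
    ent (ind p S * T) a b = if a ∈ S then ent T a b else 0 := by
  unfold ind
  rw [ent_dg_mul (norm_indicator_one_le S)]
  by_cases h : a ∈ S
  · simp [h]
  · simp [h]

theorem ent_mul_ind [hpt : Fact (p ≠ ∞)] (S : Set I) (T : Op p I) (a b : I) [Decidable (b ∈ S)] :
    ent (T * ind p S) a b = if b ∈ S then ent T a b else 0 := by
  unfold ind
  rw [ent_mul_dg (norm_indicator_one_le S)]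
  by_cases h : b ∈ S
  · simp [h]
  · simp [h]

/-! ### Extension by zero and restriction along an injection -/

/-- Restriction along an injective map `ι`: `(res ι f) i = f (ι i)`. -/
def res (p : ℝ≥0∞) [Fact (1 ≤ p)] [Fact (p ≠ ∞)] (ι : I ↪ J) : Ell p J →L[ℂ] Ell p I :=
  mkOp (LinearMap.funLeft ℂ ℂ ι) 1 zero_le_one (fun f s => by
    rw [Real.one_rpow, one_mul]
    refine le_trans (le_of_eq ?_) (sum_le_norm f (s.map ι))
    rw [Finset.sum_map]
    rfl)

@[simp] theorem res_apply [hpt : Fact (p ≠ ∞)] (ι : I ↪ J) (f : Ell p J) (i : I) :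
    (res p ι f : I → ℂ) i = f (ι i) := rfl

/-- Extension by zero of functions along an injective map `ι`. -/
def exz (p : ℝ≥0∞) [Fact (1 ≤ p)] [Fact (p ≠ ∞)] (ι : I ↪ J) : Ell p I →L[ℂ] Ell p J :=
  mkOp
    { toFun := fun f => Function.extend ι f 0
      map_add' := fun f g => by
        funext j
        by_cases h : ∃ i, ι i = j
        · obtain ⟨i, rfl⟩ := h
          simp [ι.injective.extend_apply]
        · simp [Function.extend_apply' _ _ _ h]
      map_smul' := fun c f => by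
        funext j
        by_cases h : ∃ i, ι i = j
        · obtain ⟨i, rfl⟩ := h
          simp [ι.injective.extend_apply]
        · simp [Function.extend_apply' _ _ _ h] } 1 zero_le_one (fun f s => by
    classical
    rw [Real.one_rpow, one_mul]
    have h1 : ∀ j ∈ s, j ∉ s.filter (fun j => ∃ i, ι i = j) →
        ‖Function.extend ι (f : I → ℂ) 0 j‖ ^ p.toReal = 0 := by
      intro j hj hj2
      have h3 : ¬ ∃ i, ι i = j := fun h => hj2 (Finset.mem_filter.2 ⟨hj, h⟩)
      rw [Function.extend_apply' _ _ _ h3]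
      simp [toReal_pos.ne']
    have h2 : ∑ j ∈ s, ‖Function.extend ι (f : I → ℂ) 0 j‖ ^ p.toReal =
        ∑ i ∈ s.preimage ι ι.injective.injOn, ‖f i‖ ^ p.toReal := by
      rw [← Finset.sum_subset (Finset.filter_subset (fun j => ∃ i, ι i = j) s) h1]
      symm
      refine Finset.sum_nbij ι ?_ ?_ ?_ ?_
      · intro i hi
        rw [Finset.mem_preimage] at hi
        exact Finset.mem_filter.2 ⟨hi, i, rfl⟩
      · exact ι.injective.injOn
      · intro j hj
        simp only [Finset.coe_filter, Set.mem_ofPred_eq] at hj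
        obtain ⟨hj, i, rfl⟩ := hj
        exact ⟨i, by simpa using hj, rfl⟩
      · intro i _
        rw [ι.injective.extend_apply]
    exact h2.le.trans (sum_le_norm f _))

@[simp] theorem exz_apply [hpt : Fact (p ≠ ∞)] (ι : I ↪ J) (f : Ell p I) (i : I) :
    (exz p ι f : J → ℂ) (ι i) = f i := ι.injective.extend_apply _ _ _

theorem exz_apply_notMem [hpt : Fact (p ≠ ∞)] (ι : I ↪ J) (f : Ell p I) {j : J}
    (h : ∀ i, ι i ≠ j) : (exz p ι f : J → ℂ) j = 0 :=
  Function.extend_apply' _ _ _ (by rintro ⟨i, hi⟩; exact h i hi)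

theorem norm_res_le [hpt : Fact (p ≠ ∞)] (ι : I ↪ J) : ‖res p ι‖ ≤ 1 := norm_mkOp_le _ _ _ _

theorem norm_exz_le [hpt : Fact (p ≠ ∞)] (ι : I ↪ J) : ‖exz p ι‖ ≤ 1 := norm_mkOp_le _ _ _ _

@[simp] theorem res_exz [hpt : Fact (p ≠ ∞)] (ι : I ↪ J) (f : Ell p I) :
    res p ι (exz p ι f) = f := by
  ext i
  simp

theorem exz_bas [hpt : Fact (p ≠ ∞)] (ι : I ↪ J) (i : I) : exz p ι (bas p i) = bas p (ι i) := by
  ext j
  by_cases h : ∃ i', ι i' = j
  · obtain ⟨i', rfl⟩ := h
    rw [exz_apply]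
    by_cases h2 : i' = i
    · subst h2; simp [bas_apply_self]
    · rw [bas_apply_ne h2, bas_apply_ne (fun h3 => h2 (ι.injective h3))]
  · push Not at h
    rw [exz_apply_notMem ι _ h, bas_apply_ne (fun h3 => h i h3.symm)]

theorem res_bas [hpt : Fact (p ≠ ∞)] (ι : I ↪ J) (i : I) : res p ι (bas p (ι i)) = bas p i := by
  rw [← exz_bas, res_exz]

theorem res_bas_notMem [hpt : Fact (p ≠ ∞)] (ι : I ↪ J) {j : J} (h : ∀ i, ι i ≠ j) :
    res p ι (bas p j) = 0 := by
  ext i
  simp [bas_apply_ne (h i)]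

/-- The operator on `ℓ^p(J)` which is `T` on the image of `ℓ^p(I)` under the isometry `e_i ↦ e_{ι i}`
and zero on the other basis vectors: `V T V⁺` with `V = exz ι` and `V⁺ = res ι`. -/
def push (ι : I ↪ J) [Fact (p ≠ ∞)] (T : Op p I) : Op p J := (exz p ι).comp (T.comp (res p ι))

theorem push_apply [hpt : Fact (p ≠ ∞)] (ι : I ↪ J) (T : Op p I) (f : Ell p J) :
    push ι T f = exz p ι (T (res p ι f)) := rfl

theorem push_add [hpt : Fact (p ≠ ∞)] (ι : I ↪ J) (T S : Op p I) :
    push ι (T + S) = push ι T + push ι S := by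
  ext1 f; simp [push_apply]

theorem push_sub [hpt : Fact (p ≠ ∞)] (ι : I ↪ J) (T S : Op p I) :
    push ι (T - S) = push ι T - push ι S := by
  ext1 f; simp [push_apply]

theorem push_zero [hpt : Fact (p ≠ ∞)] (ι : I ↪ J) : push ι (0 : Op p I) = 0 := by
  ext1 f; simp [push_apply]

theorem push_smul [hpt : Fact (p ≠ ∞)] (ι : I ↪ J) (c : ℂ) (T : Op p I) :
    push ι (c • T) = c • push ι T := by
  ext1 f; simp [push_apply]

theorem push_mul [hpt : Fact (p ≠ ∞)] (ι : I ↪ J) (T S : Op p I) :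
    push ι (T * S) = push ι T * push ι S := by
  ext1 f; simp [push_apply]

theorem norm_push_le [hpt : Fact (p ≠ ∞)] (ι : I ↪ J) (T : Op p I) : ‖push ι T‖ ≤ ‖T‖ := by
  unfold push
  calc ‖(exz p ι).comp (T.comp (res p ι))‖ ≤ ‖exz p ι‖ * (‖T‖ * ‖res p ι‖) :=
        (ContinuousLinearMap.opNorm_comp_le _ _).trans
          (mul_le_mul_of_nonneg_left (ContinuousLinearMap.opNorm_comp_le _ _) (norm_nonneg _))
    _ ≤ 1 * (‖T‖ * 1) := by
        gcongr
        · exact norm_exz_le ι
        · exact norm_res_le ι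
    _ = ‖T‖ := by ring

/-- `push ι` as a continuous linear map. -/
def pushL (p : ℝ≥0∞) [Fact (1 ≤ p)] [Fact (p ≠ ∞)] (ι : I ↪ J) : Op p I →L[ℂ] Op p J :=
  LinearMap.mkContinuous
    { toFun := push ι
      map_add' := push_add ι
      map_smul' := push_smul ι } 1 (fun T => by simpa using norm_push_le ι T)

@[simp] theorem pushL_apply [hpt : Fact (p ≠ ∞)] (ι : I ↪ J) (T : Op p I) :
    pushL p ι T = push ι T := rfl

theorem ent_push [hpt : Fact (p ≠ ∞)] (ι : I ↪ J) (T : Op p I) (a b : I) :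
    ent (push ι T) (ι a) (ι b) = ent T a b := by
  simp [ent, push_apply, res_bas]

theorem ent_push_left [hpt : Fact (p ≠ ∞)] (ι : I ↪ J) (T : Op p I) {a : J} (h : ∀ i, ι i ≠ a)
    (b : J) : ent (push ι T) a b = 0 := by
  simp [ent, push_apply, exz_apply_notMem ι _ h]

theorem ent_push_right [hpt : Fact (p ≠ ∞)] (ι : I ↪ J) (T : Op p I) (a : J) {b : J}
    (h : ∀ i, ι i ≠ b) : ent (push ι T) a b = 0 := by
  simp [ent, push_apply, res_bas_notMem ι h]

theorem push_trans [hpt : Fact (p ≠ ∞)] (ι : I ↪ J) (κ : J ↪ K) (T : Op p I) :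
    push κ (push ι T) = push (ι.trans κ) T := by
  have h1 : (exz p κ).comp (exz p ι) = exz p (ι.trans κ) := by
    apply clm_ext
    intro b
    simp [exz_bas]
  have h2 : (res p ι).comp (res p κ) = res p (ι.trans κ) := by
    ext f i
    simp
  ext1 f
  have h3 := congrArg (fun A => A (T ((res p ι) ((res p κ) f)))) h1
  have h4 := congrArg (fun A => A f) h2
  simp only [ContinuousLinearMap.comp_apply] at h3 h4
  rw [push_apply, push_apply, push_apply, h3, h4]

/-! ### Permutation operators -/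

/-- The isometry `e_i ↦ e_{σ i}`. -/
def perm (p : ℝ≥0∞) [Fact (1 ≤ p)] [Fact (p ≠ ∞)] (σ : Equiv.Perm I) : Op p I :=
  exz p σ.toEmbedding

theorem perm_bas [hpt : Fact (p ≠ ∞)] (σ : Equiv.Perm I) (i : I) :
    perm p σ (bas p i) = bas p (σ i) := exz_bas _ _

theorem perm_apply [hpt : Fact (p ≠ ∞)] (σ : Equiv.Perm I) (f : Ell p I) (i : I) :
    (perm p σ f : I → ℂ) i = f (σ.symm i) := by
  conv_lhs => rw [← σ.apply_symm_apply i]
  exact exz_apply σ.toEmbedding f (σ.symm i)

theorem norm_perm_le [hpt : Fact (p ≠ ∞)] (σ : Equiv.Perm I) : ‖perm p σ‖ ≤ 1 := norm_exz_le _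

theorem perm_mul [hpt : Fact (p ≠ ∞)] (σ τ : Equiv.Perm I) :
    perm p (σ * τ) = perm p σ * perm p τ := by
  apply clm_ext
  intro b
  simp [perm_bas]

theorem perm_one [hpt : Fact (p ≠ ∞)] : perm p (1 : Equiv.Perm I) = 1 := by
  apply clm_ext
  intro b
  simp [perm_bas]

theorem ent_perm [hpt : Fact (p ≠ ∞)] (σ : Equiv.Perm I) (a b : I) [Decidable (a = σ b)] :
    ent (perm p σ) a b = if a = σ b then 1 else 0 := by
  simp [ent, perm_bas, bas_apply]

end

end Pool.Agent.H368.NV
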