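import Pool.Agent.H368.NV.Basic

/-!
# Block diagonal operators given by finite matrices
-/

set_option autoImplicit false
set_option linter.unusedVariables false

namespace Pool.Agent.H368.NV

open scoped ENNReal NNReal Topology Kronecker
open Filter Matrix

noncomputable section

variable {p : ℝ≥0∞} [hp1 : Fact (1 ≤ p)] [hpt : Fact (p ≠ ∞)]

/-- The norm of the finite matrix `M` as an operator on `ℓ^p(A)` is at most `C`. -/
def MBd (p : ℝ≥0∞) {A : Type} [Fintype A] (M : Matrix A A ℂ) (C : ℝ) : Prop :=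
  0 ≤ C ∧ ∀ f : A → ℂ, ∑ a, ‖∑ b, M a b * f b‖ ^ p.toReal ≤ C ^ p.toReal * ∑ a, ‖f a‖ ^ p.toReal

section MBd

variable {A B : Type} [Fintype A] [Fintype B]

omit hp1 in
theorem MBd.sum_nonneg' (f : A → ℂ) : 0 ≤ ∑ a, ‖f a‖ ^ p.toReal :=
  Finset.sum_nonneg fun _ _ => Real.rpow_nonneg (norm_nonneg _) _

/-- the bound in terms of `ℓ^p` norms -/
theorem MBd.iff_norm {M : Matrix A A ℂ} {C : ℝ} : MBd p M C ↔ 0 ≤ C ∧ ∀ f : A → ℂ,
    (∑ a, ‖∑ b, M a b * f b‖ ^ p.toReal) ^ (1 / p.toReal) ≤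
      C * (∑ a, ‖f a‖ ^ p.toReal) ^ (1 / p.toReal) := by
  have hr : 0 < p.toReal := toReal_pos
  have hS : ∀ f : A → ℂ, 0 ≤ ∑ a, ‖f a‖ ^ p.toReal := fun f => MBd.sum_nonneg' f
  have e : ∀ (C : ℝ) (f : A → ℂ), 0 ≤ C →
      (C ^ p.toReal * ∑ a, ‖f a‖ ^ p.toReal) ^ (1 / p.toReal) =
        C * (∑ a, ‖f a‖ ^ p.toReal) ^ (1 / p.toReal) := by
    intro C f hC
    rw [Real.mul_rpow (Real.rpow_nonneg hC _) (hS f), ← Real.rpow_mul hC,
      mul_one_div_cancel hr.ne', Real.rpow_one]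
  constructor
  · rintro ⟨hC, h⟩
    refine ⟨hC, fun f => ?_⟩
    rw [← e C f hC]
    exact Real.rpow_le_rpow (hS _) (h f) (by positivity)
  · rintro ⟨hC, h⟩
    refine ⟨hC, fun f => ?_⟩
    have h1 := h f
    rw [← e C f hC] at h1
    exact (Real.rpow_le_rpow_iff (hS _) (mul_nonneg (Real.rpow_nonneg hC _) (hS f))
      (by positivity)).1 h1

theorem MBd.mono {M : Matrix A A ℂ} {C C' : ℝ} (h : MBd p M C) (hC : C ≤ C') : MBd p M C' := by
  refine ⟨h.1.trans hC, fun f => (h.2 f).trans ?_⟩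
  exact mul_le_mul_of_nonneg_right (Real.rpow_le_rpow h.1 hC toReal_pos.le) (MBd.sum_nonneg' f)

theorem MBd.one [DecidableEq A] : MBd p (1 : Matrix A A ℂ) 1 := by
  refine ⟨zero_le_one, fun f => ?_⟩
  rw [Real.one_rpow, one_mul]
  refine Finset.sum_le_sum fun a _ => le_of_eq ?_
  congr 2
  simp [Matrix.one_apply]

theorem MBd.zero : MBd p (0 : Matrix A A ℂ) 0 := by
  refine ⟨le_rfl, fun f => ?_⟩
  simp [toReal_pos.ne']

/-- Minkowski's inequality. -/
theorem MBd.add {M M' : Matrix A A ℂ} {C C' : ℝ} (h : MBd p M C) (h' : MBd p M' C') :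
    MBd p (M + M') (C + C') := by
  rw [MBd.iff_norm] at h h' ⊢
  refine ⟨add_nonneg h.1 h'.1, fun f => ?_⟩
  have hr : 0 < p.toReal := toReal_pos
  have h1 := Real.Lp_add_le Finset.univ (fun a => ‖∑ b, M a b * f b‖) (fun a => ‖∑ b, M' a b * f b‖)
    (one_le_toReal (p := p))
  simp only [abs_norm] at h1
  have h2 : (∑ a, ‖∑ b, (M + M') a b * f b‖ ^ p.toReal) ^ (1 / p.toReal) ≤
      (∑ a, |‖∑ b, M a b * f b‖ + ‖∑ b, M' a b * f b‖| ^ p.toReal) ^ (1 / p.toReal) := by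
    refine Real.rpow_le_rpow (MBd.sum_nonneg' _) ?_ (by positivity)
    refine Finset.sum_le_sum fun a _ => Real.rpow_le_rpow (norm_nonneg _) ?_ hr.le
    rw [abs_of_nonneg (by positivity)]
    refine le_trans (le_of_eq ?_) (norm_add_le _ _)
    congr 1
    rw [← Finset.sum_add_distrib]
    exact Finset.sum_congr rfl fun b _ => by rw [Matrix.add_apply, add_mul]
  refine h2.trans (h1.trans ?_)
  rw [add_mul]
  exact add_le_add (h.2 f) (h'.2 f)

theorem MBd.mul {M M' : Matrix A A ℂ} {C C' : ℝ} (h : MBd p M C) (h' : MBd p M' C') :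
    MBd p (M * M') (C * C') := by
  refine ⟨mul_nonneg h.1 h'.1, fun f => ?_⟩
  have e : ∀ a, ∑ b, (M * M') a b * f b = ∑ b, M a b * ∑ c, M' b c * f c := by
    intro a
    simp only [Matrix.mul_apply, Finset.sum_mul, Finset.mul_sum]
    rw [Finset.sum_comm]
    exact Finset.sum_congr rfl fun b _ => Finset.sum_congr rfl fun c _ => by ring
  rw [Finset.sum_congr rfl fun a _ => by rw [e a], Real.mul_rpow h.1 h'.1, mul_assoc]
  refine (h.2 _).trans ?_
  exact mul_le_mul_of_nonneg_left (h'.2 f) (Real.rpow_nonneg h.1 _)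

theorem MBd.smul {M : Matrix A A ℂ} {C : ℝ} (h : MBd p M C) (c : ℂ) :
    MBd p (c • M) (‖c‖ * C) := by
  refine ⟨mul_nonneg (norm_nonneg _) h.1, fun f => ?_⟩
  have e : ∀ a, ‖∑ b, (c • M) a b * f b‖ ^ p.toReal =
      ‖c‖ ^ p.toReal * ‖∑ b, M a b * f b‖ ^ p.toReal := by
    intro a
    rw [← Real.mul_rpow (norm_nonneg _) (norm_nonneg _), ← norm_mul, Finset.mul_sum]
    congr 2
    exact Finset.sum_congr rfl fun b _ => by rw [Matrix.smul_apply, smul_eq_mul, mul_assoc]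
  rw [Finset.sum_congr rfl fun a _ => e a, ← Finset.mul_sum, Real.mul_rpow (norm_nonneg _) h.1,
    mul_assoc]
  exact mul_le_mul_of_nonneg_left (h.2 f) (Real.rpow_nonneg (norm_nonneg _) _)

theorem MBd.sub {M M' : Matrix A A ℂ} {C C' : ℝ} (h : MBd p M C) (h' : MBd p M' C') :
    MBd p (M - M') (C + C') := by
  have h1 := h.add (h'.smul (-1))
  rw [norm_neg, norm_one, one_mul] at h1
  rwa [neg_smul, one_smul, ← sub_eq_add_neg] at h1

/-- Kronecker products (`M ⊗ M' = (M ⊗ 1) (1 ⊗ M')`). -/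
theorem MBd.kron {M : Matrix A A ℂ} {M' : Matrix B B ℂ} {C C' : ℝ} (h : MBd p M C)
    (h' : MBd p M' C') : MBd p (M ⊗ₖ M') (C * C') := by
  refine ⟨mul_nonneg h.1 h'.1, fun f => ?_⟩
  have e : ∀ (a : A) (b : B), ∑ q : A × B, (M ⊗ₖ M') (a, b) q * f q =
      ∑ a', M a a' * ∑ b', M' b b' * f (a', b') := by
    intro a b
    rw [Fintype.sum_prod_type]
    refine Finset.sum_congr rfl fun a' _ => ?_
    rw [Finset.mul_sum]
    exact Finset.sum_congr rfl fun b' _ => by rw [Matrix.kroneckerMap_apply, mul_assoc]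
  rw [Fintype.sum_prod_type, Fintype.sum_prod_type, Finset.sum_comm]
  calc ∑ b, ∑ a, ‖∑ q : A × B, (M ⊗ₖ M') (a, b) q * f q‖ ^ p.toReal
      = ∑ b, ∑ a, ‖∑ a', M a a' * ∑ b', M' b b' * f (a', b')‖ ^ p.toReal := by
        refine Finset.sum_congr rfl fun b _ => Finset.sum_congr rfl fun a _ => by rw [e]
    _ ≤ ∑ b, C ^ p.toReal * ∑ a', ‖∑ b', M' b b' * f (a', b')‖ ^ p.toReal :=
        Finset.sum_le_sum fun b _ => h.2 fun a' => ∑ b', M' b b' * f (a', b')
    _ = C ^ p.toReal * ∑ a', ∑ b, ‖∑ b', M' b b' * f (a', b')‖ ^ p.toReal := by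
        rw [← Finset.mul_sum, Finset.sum_comm]
    _ ≤ C ^ p.toReal * ∑ a', C' ^ p.toReal * ∑ b', ‖f (a', b')‖ ^ p.toReal :=
        mul_le_mul_of_nonneg_left (Finset.sum_le_sum fun a' _ => h'.2 fun b' => f (a', b'))
          (Real.rpow_nonneg h.1 _)
    _ = (C * C') ^ p.toReal * ∑ a', ∑ b', ‖f (a', b')‖ ^ p.toReal := by
        rw [← Finset.mul_sum, Real.mul_rpow h.1 h'.1, mul_assoc]

/-- A matrix of zeros and ones with at most one `1` in each row and column. -/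
theorem MBd.partialPerm {M : Matrix A A ℂ} (h01 : ∀ a b, M a b = 0 ∨ M a b = 1)
    (hrow : ∀ a b b', M a b ≠ 0 → M a b' ≠ 0 → b = b')
    (hcol : ∀ a a' b, M a b ≠ 0 → M a' b ≠ 0 → a = a') : MBd p M 1 := by
  refine ⟨zero_le_one, fun f => ?_⟩
  have hr : p.toReal ≠ 0 := toReal_pos.ne'
  rw [Real.one_rpow, one_mul]
  have h1 : ∀ a, ‖∑ b, M a b * f b‖ ^ p.toReal = ∑ b, ‖M a b‖ * ‖f b‖ ^ p.toReal := by
    intro a
    by_cases h : ∃ b, M a b ≠ 0
    · obtain ⟨b, hb⟩ := h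
      have hz : ∀ b', b' ≠ b → M a b' = 0 := fun b' hb' => by
        by_contra h0
        exact hb' (hrow a b' b h0 hb)
      have hb1 : M a b = 1 := (h01 a b).resolve_left hb
      rw [Finset.sum_eq_single b (fun b' _ hb' => by rw [hz b' hb', zero_mul])
        (fun h => absurd (Finset.mem_univ b) h),
        Finset.sum_eq_single b (fun b' _ hb' => by rw [hz b' hb', norm_zero, zero_mul])
        (fun h => absurd (Finset.mem_univ b) h), hb1, one_mul, norm_one, one_mul]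
    · push Not at h
      rw [Finset.sum_eq_zero fun b _ => by rw [h b, zero_mul],
        Finset.sum_eq_zero fun b _ => by rw [h b, norm_zero, zero_mul], norm_zero,
        Real.zero_rpow hr]
  rw [Finset.sum_congr rfl fun a _ => h1 a, Finset.sum_comm]
  refine Finset.sum_le_sum fun b _ => ?_
  rw [← Finset.sum_mul]
  have h2 : ∑ a, ‖M a b‖ ≤ 1 := by
    by_cases h : ∃ a, M a b ≠ 0
    · obtain ⟨a, ha⟩ := h
      have hz : ∀ a', a' ≠ a → M a' b = 0 := fun a' ha' => by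
        by_contra h0
        exact ha' (hcol a' a b h0 ha)
      rw [Finset.sum_eq_single a (fun a' _ ha' => by rw [hz a' ha', norm_zero])
        (fun h => absurd (Finset.mem_univ a) h), (h01 a b).resolve_left ha, norm_one]
    · push Not at h
      rw [Finset.sum_eq_zero fun a _ => by rw [h a, norm_zero]]
      exact zero_le_one
  calc (∑ a, ‖M a b‖) * ‖f b‖ ^ p.toReal ≤ 1 * ‖f b‖ ^ p.toReal :=
        mul_le_mul_of_nonneg_right h2 (Real.rpow_nonneg (norm_nonneg _) _)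
    _ = ‖f b‖ ^ p.toReal := one_mul _

/-- Hoelder's inequality: `n ((1/n) ∑ ‖f‖)^p ≤ ∑ ‖f‖^p`. -/
theorem MBd.mean [Nonempty A] (f : A → ℂ) :
    (Fintype.card A : ℝ) * ((1 / Fintype.card A : ℝ) * ∑ b, ‖f b‖) ^ p.toReal ≤
      ∑ b, ‖f b‖ ^ p.toReal := by
  have hn : (0 : ℝ) < Fintype.card A := by exact_mod_cast Fintype.card_pos
  have h1 := Real.rpow_arith_mean_le_arith_mean_rpow Finset.univ
    (fun _ : A => (1 / Fintype.card A : ℝ)) (fun b => ‖f b‖) (fun _ _ => by positivity)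
    (by rw [Finset.sum_const, Finset.card_univ, nsmul_eq_mul, mul_one_div_cancel hn.ne'])
    (fun _ _ => norm_nonneg _) (one_le_toReal (p := p))
  rw [← Finset.mul_sum, ← Finset.mul_sum] at h1
  calc (Fintype.card A : ℝ) * ((1 / Fintype.card A : ℝ) * ∑ b, ‖f b‖) ^ p.toReal
      ≤ (Fintype.card A : ℝ) * ((1 / Fintype.card A : ℝ) * ∑ b, ‖f b‖ ^ p.toReal) :=
        mul_le_mul_of_nonneg_left h1 hn.le
    _ = ∑ b, ‖f b‖ ^ p.toReal := by rw [← mul_assoc, mul_one_div_cancel hn.ne', one_mul]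

/-- The averaging operator (Hölder). -/
theorem MBd.avg [Nonempty A] : MBd p (fun _ _ : A => (1 / Fintype.card A : ℂ)) 1 := by
  refine ⟨zero_le_one, fun f => ?_⟩
  rw [Real.one_rpow, one_mul, Finset.sum_const, Finset.card_univ, nsmul_eq_mul]
  refine le_trans ?_ (MBd.mean f)
  refine mul_le_mul_of_nonneg_left ?_ (Nat.cast_nonneg _)
  refine Real.rpow_le_rpow (norm_nonneg _) ?_ toReal_pos.le
  rw [← Finset.mul_sum, norm_mul]
  refine mul_le_mul (le_of_eq ?_) (norm_sum_le _ _) (norm_nonneg _) (by positivity)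
  rw [norm_div, norm_one, Complex.norm_natCast]

/-- The operator `f ↦ |A|^{-1/p'} (∑ f) e_x`, with `1/p' = 1 - 1/p` (Hölder). -/
theorem MBd.toPoint [Nonempty A] [DecidableEq A] (x : A) :
    MBd p (fun a _ : A => if a = x then (((Fintype.card A : ℝ) ^ (1 / p.toReal - 1) : ℝ) : ℂ)
      else 0) 1 := by
  have hr : 0 < p.toReal := toReal_pos
  have hn : (0 : ℝ) < Fintype.card A := by exact_mod_cast Fintype.card_pos
  refine ⟨zero_le_one, fun f => ?_⟩
  rw [Real.one_rpow, one_mul]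
  rw [Finset.sum_eq_single x]
  · simp only [if_true]
    refine le_trans ?_ (MBd.mean f)
    rw [← Finset.mul_sum, norm_mul, Complex.norm_real, Real.norm_of_nonneg (Real.rpow_nonneg hn.le _),
      Real.mul_rpow (Real.rpow_nonneg hn.le _) (norm_nonneg _),
      Real.mul_rpow (by positivity) (Finset.sum_nonneg fun _ _ => norm_nonneg _), ← mul_assoc,
      ← Real.rpow_mul hn.le]
    have e : (Fintype.card A : ℝ) ^ ((1 / p.toReal - 1) * p.toReal) =
        (Fintype.card A : ℝ) * (1 / (Fintype.card A : ℝ)) ^ p.toReal := by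
      rw [one_div (Fintype.card A : ℝ), Real.inv_rpow hn.le, ← Real.rpow_neg hn.le]
      nth_rewrite 2 [← Real.rpow_one (Fintype.card A : ℝ)]
      rw [← Real.rpow_add hn]
      congr 1
      field_simp
      ring
    rw [e]
    refine mul_le_mul_of_nonneg_left ?_ (by positivity)
    exact Real.rpow_le_rpow (norm_nonneg _) (norm_sum_le _ _) hr.le
  · intro a _ ha
    simp [ha, hr.ne']
  · intro h
    exact absurd (Finset.mem_univ x) h

/-- The operator `f ↦ f(x) |A|^{-1/p} 1`. -/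
theorem MBd.fromPoint [Nonempty A] [DecidableEq A] (x : A) :
    MBd p (fun _ b : A => if b = x then (((Fintype.card A : ℝ) ^ (-(1 / p.toReal)) : ℝ) : ℂ)
      else 0) 1 := by
  have hr : 0 < p.toReal := toReal_pos
  have hn : (0 : ℝ) < Fintype.card A := by exact_mod_cast Fintype.card_pos
  refine ⟨zero_le_one, fun f => ?_⟩
  rw [Real.one_rpow, one_mul]
  have h1 : ∀ _ : A, ‖∑ b, (if b = x then (((Fintype.card A : ℝ) ^ (-(1 / p.toReal)) : ℝ) : ℂ)
      else 0) * f b‖ ^ p.toReal = (Fintype.card A : ℝ)⁻¹ * ‖f x‖ ^ p.toReal := by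
    intro _
    simp only [ite_mul, zero_mul, Finset.sum_ite_eq', Finset.mem_univ, if_true]
    rw [norm_mul, Complex.norm_real, Real.norm_of_nonneg (Real.rpow_nonneg hn.le _),
      Real.mul_rpow (Real.rpow_nonneg hn.le _) (norm_nonneg _), ← Real.rpow_mul hn.le]
    congr 1
    rw [neg_mul, one_div_mul_cancel hr.ne', Real.rpow_neg_one]
  rw [Finset.sum_congr rfl fun a _ => h1 a, Finset.sum_const, Finset.card_univ, nsmul_eq_mul,
    ← mul_assoc, mul_inv_cancel₀ hn.ne', one_mul]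
  exact Finset.single_le_sum (f := fun a => ‖f a‖ ^ p.toReal)
    (fun _ _ => Real.rpow_nonneg (norm_nonneg _) _) (Finset.mem_univ x)

end MBd

variable {A : ℕ → Type} [∀ n, Fintype (A n)]

/-- the estimate for block diagonal operators -/
theorem blk_bound {M : ∀ n, Matrix (A n) (A n) ℂ} {C : ℝ} (h : ∀ n, MBd p (M n) C)
    (f : Ell p (Σ n, A n)) (s : Finset (Σ n, A n)) :
    ∑ j ∈ s, ‖∑ b : A j.1, M j.1 j.2 b * f ⟨j.1, b⟩‖ ^ p.toReal ≤ C ^ p.toReal * ‖f‖ ^ p.toReal := by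
  classical
  have hC := (h 0).1
  have hs : s ⊆ (s.image Sigma.fst).sigma (fun n => (Finset.univ : Finset (A n))) := by
    intro j hj
    rw [Finset.mem_sigma]
    exact ⟨Finset.mem_image_of_mem _ hj, Finset.mem_univ _⟩
  calc ∑ j ∈ s, ‖∑ b : A j.1, M j.1 j.2 b * f ⟨j.1, b⟩‖ ^ p.toReal
      ≤ ∑ j ∈ (s.image Sigma.fst).sigma (fun n => (Finset.univ : Finset (A n))),
          ‖∑ b : A j.1, M j.1 j.2 b * f ⟨j.1, b⟩‖ ^ p.toReal :=
        Finset.sum_le_sum_of_subset_of_nonneg hs fun _ _ _ => Real.rpow_nonneg (norm_nonneg _) _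
    _ = ∑ n ∈ s.image Sigma.fst, ∑ a : A n, ‖∑ b : A n, M n a b * f ⟨n, b⟩‖ ^ p.toReal :=
        Finset.sum_sigma _ _ _
    _ ≤ ∑ n ∈ s.image Sigma.fst, C ^ p.toReal * ∑ a : A n, ‖f ⟨n, a⟩‖ ^ p.toReal :=
        Finset.sum_le_sum fun n _ => (h n).2 fun b => f ⟨n, b⟩
    _ = C ^ p.toReal * ∑ j ∈ (s.image Sigma.fst).sigma (fun n => (Finset.univ : Finset (A n))),
          ‖f j‖ ^ p.toReal := by
        rw [← Finset.mul_sum, Finset.sum_sigma]
    _ ≤ C ^ p.toReal * ‖f‖ ^ p.toReal :=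
        mul_le_mul_of_nonneg_left (sum_le_norm f _) (Real.rpow_nonneg hC _)

/-- The block diagonal operator on `ℓ^p` of the disjoint union of the finite sets `A n` with the
blocks `M n`, if these are uniformly bounded. -/
def blk (p : ℝ≥0∞) [Fact (1 ≤ p)] [Fact (p ≠ ∞)] {A : ℕ → Type} [∀ n, Fintype (A n)]
    (M : ∀ n, Matrix (A n) (A n) ℂ) : Op p (Σ n, A n) := by
  classical
  exact if h : ∃ C : ℝ, ∀ n, MBd p (M n) C then
    mkOp
      { toFun := fun f a => ∑ b : A a.1, M a.1 a.2 b * f ⟨a.1, b⟩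
        map_add' := by
          intro f g
          funext a
          simp only [Pi.add_apply, mul_add, Finset.sum_add_distrib]
        map_smul' := by
          intro c f
          funext a
          simp only [Pi.smul_apply, smul_eq_mul, RingHom.id_apply, Finset.mul_sum]
          exact Finset.sum_congr rfl fun b _ => by ring } h.choose (by
          exact (h.choose_spec 0).1) (by
          exact fun f s => blk_bound h.choose_spec f s)
  else 0

theorem blk_apply {M : ∀ n, Matrix (A n) (A n) ℂ} {C : ℝ} (h : ∀ n, MBd p (M n) C)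
    (f : Ell p (Σ n, A n)) (n : ℕ) (a : A n) :
    (blk p M f : (Σ n, A n) → ℂ) ⟨n, a⟩ = ∑ b, M n a b * f ⟨n, b⟩ := by
  have h1 : ∃ C : ℝ, ∀ n, MBd p (M n) C := ⟨C, h⟩
  unfold blk
  rw [dif_pos h1]
  rfl

theorem norm_blk_le {M : ∀ n, Matrix (A n) (A n) ℂ} {C : ℝ} (h : ∀ n, MBd p (M n) C) :
    ‖blk p M‖ ≤ C := by
  have hC := (h 0).1
  apply ContinuousLinearMap.opNorm_le_bound _ hC
  intro f
  apply lp.norm_le_of_forall_sum_le toReal_pos (by positivity)
  intro s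
  rw [Real.mul_rpow hC (norm_nonneg _)]
  refine le_trans (le_of_eq ?_) (blk_bound h f s)
  refine Finset.sum_congr rfl fun j _ => ?_
  obtain ⟨n, a⟩ := j
  rw [blk_apply h]

theorem ent_blk {M : ∀ n, Matrix (A n) (A n) ℂ} {C : ℝ} (h : ∀ n, MBd p (M n) C) (n : ℕ)
    (a b : A n) : ent (blk p M) ⟨n, a⟩ ⟨n, b⟩ = M n a b := by
  classical
  unfold ent
  rw [blk_apply h, Finset.sum_eq_single b]
  · rw [bas_apply_self, mul_one]
  · intro b' _ hb'
    rw [bas_apply_ne (fun h => hb' (by simpa using h)), mul_zero]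
  · intro h
    exact absurd (Finset.mem_univ b) h

theorem ent_blk_ne {M : ∀ n, Matrix (A n) (A n) ℂ} {C : ℝ} (h : ∀ n, MBd p (M n) C)
    (a b : Σ n, A n) (hab : a.1 ≠ b.1) : ent (blk p M) a b = 0 := by
  obtain ⟨n, a⟩ := a
  unfold ent
  rw [blk_apply h]
  refine Finset.sum_eq_zero fun b' _ => ?_
  rw [bas_apply_ne (fun h => hab (by rw [← h])), mul_zero]

theorem blk_add {M M' : ∀ n, Matrix (A n) (A n) ℂ} {C C' : ℝ} (h : ∀ n, MBd p (M n) C)
    (h' : ∀ n, MBd p (M' n) C') : blk p (fun n => M n + M' n) = blk p M + blk p M' := by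
  ext f ⟨n, a⟩
  have e : ((blk p M + blk p M') f : (Σ n, A n) → ℂ) ⟨n, a⟩ =
      (blk p M f : (Σ n, A n) → ℂ) ⟨n, a⟩ + (blk p M' f : (Σ n, A n) → ℂ) ⟨n, a⟩ := rfl
  rw [e, blk_apply h, blk_apply h', blk_apply (fun n => (h n).add (h' n)),
    ← Finset.sum_add_distrib]
  exact Finset.sum_congr rfl fun b _ => by rw [Matrix.add_apply, add_mul]

theorem blk_sub {M M' : ∀ n, Matrix (A n) (A n) ℂ} {C C' : ℝ} (h : ∀ n, MBd p (M n) C)
    (h' : ∀ n, MBd p (M' n) C') : blk p (fun n => M n - M' n) = blk p M - blk p M' := by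
  ext f ⟨n, a⟩
  have e : ((blk p M - blk p M') f : (Σ n, A n) → ℂ) ⟨n, a⟩ =
      (blk p M f : (Σ n, A n) → ℂ) ⟨n, a⟩ - (blk p M' f : (Σ n, A n) → ℂ) ⟨n, a⟩ := rfl
  rw [e, blk_apply h, blk_apply h', blk_apply (fun n => (h n).sub (h' n)),
    ← Finset.sum_sub_distrib]
  exact Finset.sum_congr rfl fun b _ => by rw [Matrix.sub_apply, sub_mul]

theorem blk_mul {M M' : ∀ n, Matrix (A n) (A n) ℂ} {C C' : ℝ} (h : ∀ n, MBd p (M n) C)
    (h' : ∀ n, MBd p (M' n) C') : blk p (fun n => M n * M' n) = blk p M * blk p M' := by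
  ext f ⟨n, a⟩
  have e : ((blk p M * blk p M') f : (Σ n, A n) → ℂ) ⟨n, a⟩ =
      (blk p M (blk p M' f) : (Σ n, A n) → ℂ) ⟨n, a⟩ := rfl
  rw [e, blk_apply h, blk_apply (fun n => (h n).mul (h' n))]
  simp only [Matrix.mul_apply, Finset.sum_mul]
  rw [Finset.sum_comm]
  refine Finset.sum_congr rfl fun b _ => ?_
  rw [blk_apply h', Finset.mul_sum]
  exact Finset.sum_congr rfl fun c _ => by rw [mul_assoc]

theorem blk_one [∀ n, DecidableEq (A n)] : blk p (fun n => (1 : Matrix (A n) (A n) ℂ)) = 1 := by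
  ext f ⟨n, a⟩
  rw [blk_apply (fun n => MBd.one), Finset.sum_eq_single a]
  · rw [Matrix.one_apply_eq, one_mul]
    rfl
  · intro b _ hb
    rw [Matrix.one_apply_ne (Ne.symm hb), zero_mul]
  · intro h
    exact absurd (Finset.mem_univ a) h

theorem blk_zero : blk p (fun n => (0 : Matrix (A n) (A n) ℂ)) = 0 := by
  ext f ⟨n, a⟩
  rw [blk_apply (fun n => MBd.zero)]
  simp

end

end Pool.Agent.H368.NV
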