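import Pool.Agent.H368.NV.Basic

/-!
# Compression of operators to a subset of the index set
-/

set_option autoImplicit false
set_option linter.unusedVariables false

namespace Pool.Agent.H368.NV

open scoped ENNReal NNReal Topology

noncomputable section

variable {p : ℝ≥0∞} [hp1 : Fact (1 ≤ p)] [hpt : Fact (p ≠ ∞)] {I J K : Type}

theorem op_mul_apply (T S : Op p I) (f : Ell p I) : (T * S) f = T (S f) := rfl

/-- The compression of an operator on `ℓ^p(J)` along an injection `κ : I → J`. -/
def cut (κ : I ↪ J) (T : Op p J) : Op p I := (res p κ).comp (T.comp (exz p κ))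

theorem cut_apply (κ : I ↪ J) (T : Op p J) (f : Ell p I) : cut κ T f = res p κ (T (exz p κ f)) :=
  rfl

theorem cut_add (κ : I ↪ J) (T S : Op p J) : cut κ (T + S) = cut κ T + cut κ S := by
  ext1 f; simp [cut_apply]

theorem cut_sub (κ : I ↪ J) (T S : Op p J) : cut κ (T - S) = cut κ T - cut κ S := by
  ext1 f; simp [cut_apply]

theorem cut_smul (κ : I ↪ J) (c : ℂ) (T : Op p J) : cut κ (c • T) = c • cut κ T := by
  ext1 f; simp [cut_apply]

theorem cut_zero (κ : I ↪ J) : cut κ (0 : Op p J) = 0 := by
  ext1 f; simp [cut_apply]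

theorem cut_one (κ : I ↪ J) : cut κ (1 : Op p J) = 1 := by
  ext1 f; simp [cut_apply]

theorem norm_cut_le (κ : I ↪ J) (T : Op p J) : ‖cut κ T‖ ≤ ‖T‖ := by
  unfold cut
  calc ‖(res p κ).comp (T.comp (exz p κ))‖ ≤ ‖res p κ‖ * (‖T‖ * ‖exz p κ‖) :=
        (ContinuousLinearMap.opNorm_comp_le _ _).trans
          (mul_le_mul_of_nonneg_left (ContinuousLinearMap.opNorm_comp_le _ _) (norm_nonneg _))
    _ ≤ 1 * (‖T‖ * 1) := by
        gcongr
        · exact norm_res_le κ
        · exact norm_exz_le κ
    _ = ‖T‖ := by ring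

/-- `cut κ` as a continuous linear map. -/
def cutL (p : ℝ≥0∞) [Fact (1 ≤ p)] [Fact (p ≠ ∞)] (κ : I ↪ J) : Op p J →L[ℂ] Op p I :=
  LinearMap.mkContinuous
    { toFun := cut κ
      map_add' := cut_add κ
      map_smul' := cut_smul κ } 1 (fun T => by simpa using norm_cut_le κ T)

@[simp] theorem cutL_apply (κ : I ↪ J) (T : Op p J) : cutL p κ T = cut κ T := rfl

theorem ent_cut (κ : I ↪ J) (T : Op p J) (a b : I) : ent (cut κ T) a b = ent T (κ a) (κ b) := by
  simp [ent, cut_apply, exz_bas]

theorem cut_push (κ : I ↪ J) (T : Op p I) : cut κ (push κ T) = T := by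
  ext1 f; simp [cut_apply, push_apply]

/-- `exz κ ∘ res κ` is the indicator operator of the range of `κ`. -/
theorem exz_res (κ : I ↪ J) (f : Ell p J) : exz p κ (res p κ f) = ind p (Set.range κ) f := by
  ext j
  by_cases h : ∃ i, κ i = j
  · obtain ⟨i, rfl⟩ := h
    rw [ind_apply_mem f (Set.mem_range_self i)]
    simp
  · push Not at h
    rw [exz_apply_notMem κ _ h, ind_apply_notMem]
    rintro ⟨i, hi⟩
    exact h i hi

/-- Compression is multiplicative on operators which commute with the indicator operator. -/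
theorem cut_mul (κ : I ↪ J) (T S : Op p J)
    (h : ind p (Set.range κ) * S = S * ind p (Set.range κ)) :
    cut κ (T * S) = cut κ T * cut κ S := by
  ext1 f
  simp only [cut_apply, op_mul_apply]
  rw [exz_res]
  have h2 : ind p (Set.range κ) (exz p κ f) = exz p κ f := by
    rw [← exz_res, res_exz]
  have h3 := congrArg (fun A => A (exz p κ f)) h
  simp only [op_mul_apply] at h3
  rw [h3, h2]

/-- Zero entries between the range of `κ` and its complement imply commutation with the indicator
operator. -/
theorem ind_comm (S : Set I) (T : Op p I)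
    (h : ∀ a b, ent T a b ≠ 0 → (a ∈ S ↔ b ∈ S)) : ind p S * T = T * ind p S := by
  classical
  apply op_ext
  intro a b
  rw [ent_ind_mul, ent_mul_ind]
  by_cases h0 : ent T a b = 0
  · simp [h0]
  · have := h a b h0
    simp [this]

end

end Pool.Agent.H368.NV
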