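import Mathlib

/-!
# Homotopy invariance of the winding number

PROOF SKETCH of `winding`. Let `P s` be: there is a continuous `m : unitInterval → ℂ` with
`D s t = D s 0 * exp (m t)`, `m 0 = 0` and `m 1 = ℓ 1 - ℓ 0`. `P 0` holds with `m t = ℓ t - ℓ 0`. By
uniform continuity and compactness (`|D|` is bounded below) there is `δ > 0` such that
`|D s' t / D s t - 1| < 1` for `|s - s'| < δ`, all `t`. If `P s` holds and `|s - s'| < δ` then
`m' t = m t + log (D s' t / D s t) - log (D s' 0 / D s 0)` shows `P s'`, as the correction has the same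
value at `t = 0` and `t = 1`. Hence `P 1` holds; since `D 1 t` is constant, `exp (m t) = 1`, so `m`
is constant (continuous with values in `2πiℤ`), `m 1 = m 0 = 0`.
(Or use Mathlib's covering map / homotopy lifting for `Complex.exp`.)

PROOF of `exists_log_prod`: the sum of `Complex.log ((1 - t) + t * exp (2πi δ_i))`, where the argument
of the logarithm is in the slit plane since `|δ_i| < 1/2`.
-/

set_option autoImplicit false

namespace Pool.Agent.H368.NV

open Complex

/-- a clopen nonempty subset of the unit interval is everything -/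
theorem clopen_univ {A : Set unitInterval} (h : IsClopen A) {x : unitInterval} (hx : x ∈ A)
    (y : unitInterval) : y ∈ A := by
  rw [h.eq_univ ⟨x, hx⟩]
  trivial

theorem winding (D : unitInterval → unitInterval → ℂ)
    (hD : Continuous fun x : unitInterval × unitInterval => D x.1 x.2)
    (h0 : ∀ s t, D s t ≠ 0) (hper : ∀ s, D s 0 = D s 1) (hend : ∀ t, D 1 t = D 1 0)
    (ℓ : unitInterval → ℂ) (hℓ : Continuous ℓ) (c : ℂ) (hc : c ≠ 0)
    (hstart : ∀ t, D 0 t = c * exp (ℓ t)) : ℓ 1 = ℓ 0 := by
  let P : Set unitInterval := {s | ∃ m : unitInterval → ℂ, Continuous m ∧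
    (∀ t, D s t = D s 0 * exp (m t)) ∧ m 0 = 0 ∧ m 1 = ℓ 1 - ℓ 0}
  have hcont : ∀ s, Continuous (fun t => D s t) := fun s =>
    hD.comp (continuous_const.prodMk continuous_id)
  have hP0 : (0 : unitInterval) ∈ P := by
    refine ⟨fun t => ℓ t - ℓ 0, hℓ.sub continuous_const, fun t => ?_, sub_self _, rfl⟩
    rw [hstart t, hstart 0, mul_assoc, ← Complex.exp_add]
    congr 2
    ring
  have hstep : ∀ s s', (∀ t, ‖D s' t - D s t‖ < ‖D s t‖) → s ∈ P → s' ∈ P := by
    rintro s s' hss ⟨m, hm, hm1, hm2, hm3⟩
    have hq : ∀ t, D s' t / D s t ∈ Complex.slitPlane := by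
      intro t
      have h1 : ‖D s' t / D s t - 1‖ < 1 := by
        rw [div_sub_one (h0 s t), norm_div, div_lt_one (norm_pos_iff.2 (h0 s t))]
        exact hss t
      have h2 := Complex.mem_slitPlane_of_norm_lt_one h1
      rwa [add_sub_cancel] at h2
    refine ⟨fun t => m t + Complex.log (D s' t / D s t) - Complex.log (D s' 0 / D s 0), ?_, ?_, ?_, ?_⟩
    · refine (hm.add (Continuous.clog ((hcont s').div (hcont s) (h0 s)) hq)).sub continuous_const
    · intro t
      rw [Complex.exp_sub, Complex.exp_add, Complex.exp_log (div_ne_zero (h0 _ _) (h0 _ _)),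
        Complex.exp_log (div_ne_zero (h0 _ _) (h0 _ _))]
      have h3 := hm1 t
      have e1 := h0 s t
      have e2 := h0 s' 0
      have e3 := h0 s 0
      have h4 : exp (m t) = D s t / D s 0 := by
        rw [h3]
        field_simp
      rw [h4]
      field_simp
    · simp only
      rw [hm2]
      ring
    · simp only
      rw [hm3, ← hper s, ← hper s']
      ring
  -- uniform step
  obtain ⟨x0, -, hx0⟩ := isCompact_univ.exists_isMinOn
    (Set.univ_nonempty : (Set.univ : Set (unitInterval × unitInterval)).Nonempty)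
    (hD.norm.continuousOn)
  have hmin : ∀ s t, ‖D x0.1 x0.2‖ ≤ ‖D s t‖ := fun s t => hx0 (Set.mem_univ (s, t))
  have hpos : 0 < ‖D x0.1 x0.2‖ := norm_pos_iff.2 (h0 _ _)
  have huc := CompactSpace.uniformContinuous_of_continuous hD
  obtain ⟨δ, hδ, hδ2⟩ := Metric.uniformContinuous_iff.1 huc _ hpos
  have hloc : ∀ s s', dist s' s < δ → s ∈ P → s' ∈ P := by
    intro s s' hss
    apply hstep
    intro t
    have h1 : dist ((s', t) : unitInterval × unitInterval) (s, t) < δ := by
      rw [Prod.dist_eq]
      simp only [dist_self]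
      exact max_lt hss hδ
    have h2 := hδ2 h1
    rw [dist_eq_norm] at h2
    exact h2.trans_le (hmin s t)
  have hclopen : IsClopen P := by
    constructor
    · rw [← isOpen_compl_iff, Metric.isOpen_iff]
      intro s hs
      refine ⟨δ, hδ, fun s' hs' hcon => hs ?_⟩
      rw [Metric.mem_ball] at hs'
      exact hloc s' s (by rwa [dist_comm]) hcon
    · rw [Metric.isOpen_iff]
      intro s hs
      exact ⟨δ, hδ, fun s' hs' => hloc s s' hs' hs⟩
  obtain ⟨m, hm, hm1, hm2, hm3⟩ := clopen_univ hclopen hP0 1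
  have hexp : ∀ t, exp (m t) = 1 := by
    intro t
    have h1 := hm1 t
    rw [hend t] at h1
    exact mul_left_cancel₀ (h0 1 0) (by rw [← h1, mul_one])
  have hsmall : ∀ t, ‖m t‖ < 1 → m t = 0 := by
    intro t ht
    have h1 : |(m t).im| < 1 := (Complex.abs_im_le_norm _).trans_lt ht
    have h2 := abs_lt.1 h1
    have h3 := Real.pi_gt_three
    rw [← Complex.log_exp (x := m t) (by linarith) (by linarith), hexp t, Complex.log_one]
  have hcl2 : IsClopen {t | m t = 0} := by
    constructor
    · exact isClosed_eq hm continuous_const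
    · have : {t | m t = 0} = {t | ‖m t‖ < 1} := by
        ext t
        constructor
        · intro h
          have h' : m t = 0 := h
          show ‖m t‖ < 1
          rw [h', norm_zero]
          exact one_pos
        · exact hsmall t
      rw [this]
      exact isOpen_lt hm.norm continuous_const
  have := clopen_univ hcl2 hm2 1
  have h5 : m 1 = 0 := this
  rw [hm3] at h5
  exact sub_eq_zero.1 h5

theorem exists_log_prod {ι : Type*} [Fintype ι] (δ : ι → ℝ) (hδ : ∀ i, |δ i| < 1 / 2) :
    ∃ ℓ : unitInterval → ℂ, Continuous ℓ ∧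
      (∀ t : unitInterval, exp (ℓ t) =
        ∏ i, ((1 - (t : ℂ)) + (t : ℂ) * exp (2 * Real.pi * I * (δ i : ℂ)))) ∧
      ℓ 0 = 0 ∧ ℓ 1 = 2 * Real.pi * I * ((∑ i, δ i : ℝ) : ℂ) := by
  have hπ := Real.pi_pos
  have harg : ∀ i, (2 * Real.pi * I * (δ i : ℂ)) = ((2 * Real.pi * δ i : ℝ) : ℂ) * I := by
    intro i
    push_cast
    ring
  have hre : ∀ (i : ι) (t : ℝ), ((1 - (t : ℂ)) + (t : ℂ) * exp (2 * Real.pi * I * (δ i : ℂ))).re =
      (1 - t) + t * Real.cos (2 * Real.pi * δ i) := by
    intro i t
    rw [harg i, Complex.add_re, Complex.sub_re, Complex.one_re, Complex.ofReal_re,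
      Complex.re_ofReal_mul, Complex.exp_ofReal_mul_I_re]
  have him : ∀ (i : ι) (t : ℝ), ((1 - (t : ℂ)) + (t : ℂ) * exp (2 * Real.pi * I * (δ i : ℂ))).im =
      t * Real.sin (2 * Real.pi * δ i) := by
    intro i t
    rw [harg i, Complex.add_im, Complex.sub_im, Complex.one_im, Complex.ofReal_im,
      Complex.im_ofReal_mul, Complex.exp_ofReal_mul_I_im]
    ring
  have hb : ∀ i, -Real.pi < 2 * Real.pi * δ i ∧ 2 * Real.pi * δ i < Real.pi := by
    intro i
    have h := abs_lt.1 (hδ i)
    constructor
    · nlinarith [h.1]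
    · nlinarith [h.2]
  have hslit : ∀ (i : ι) (t : unitInterval),
      ((1 - (t : ℂ)) + (t : ℂ) * exp (2 * Real.pi * I * (δ i : ℂ))) ∈ Complex.slitPlane := by
    intro i t
    rw [Complex.mem_slitPlane_iff]
    by_cases h1 : (t : ℝ) * Real.sin (2 * Real.pi * δ i) = 0
    · left
      have h2 := hre i t
      rw [h2]
      rcases mul_eq_zero.1 h1 with h3 | h3
      · rw [h3]; norm_num
      · have h4 : 2 * Real.pi * δ i = 0 :=
          (Real.sin_eq_zero_iff_of_lt_of_lt (hb i).1 (hb i).2).1 h3
        rw [h4, Real.cos_zero]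
        norm_num
    · right
      have h2 := him i t
      rw [h2]
      exact h1
  refine ⟨fun t => ∑ i, Complex.log ((1 - (t : ℂ)) + (t : ℂ) * exp (2 * Real.pi * I * (δ i : ℂ))),
    ?_, ?_, ?_, ?_⟩
  · refine continuous_finsetSum _ fun i _ => Continuous.clog ?_ (hslit i)
    have h1 : Continuous fun t : unitInterval => ((t : ℝ) : ℂ) :=
      Complex.continuous_ofReal.comp continuous_subtype_val
    exact (continuous_const.sub h1).add (h1.mul continuous_const)
  · intro t
    rw [Complex.exp_sum]
    refine Finset.prod_congr rfl fun i _ => ?_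
    rw [Complex.exp_log (Complex.slitPlane_ne_zero (hslit i t))]
  · simp
  · have h1 : ∀ i, Complex.log ((1 - (((1 : unitInterval) : ℝ) : ℂ)) +
        (((1 : unitInterval) : ℝ) : ℂ) * exp (2 * Real.pi * I * (δ i : ℂ))) =
        2 * Real.pi * I * (δ i : ℂ) := by
      intro i
      rw [Set.Icc.coe_one, Complex.ofReal_one, sub_self, zero_add, one_mul]
      apply Complex.log_exp
      · rw [harg i, Complex.im_ofReal_mul, Complex.I_im, mul_one]
        exact (hb i).1
      · rw [harg i, Complex.im_ofReal_mul, Complex.I_im, mul_one]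
        exact (hb i).2.le
    simp only [h1]
    rw [← Finset.mul_sum]
    push_cast
    rfl

end Pool.Agent.H368.NV
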