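import Pool.Agent.H368.NV.Cut
import Pool.Agent.H368.NV.K1
import Pool.Agent.H368.NV.Winding
import Pool.Agent.H368.NV.OpTools

/-!
# The winding number invariant

PROOF SKETCH of `detect`. Use the operator norm `‖a‖ = max_i ∑_j ‖a i j‖` on `Matrix (Fin M) (Fin M) (Op p I)`
(local instances `Matrix.linftyOpNormedRing` etc.; complete as a finite product). Let
`Φ = dg p F`, `Φ⁻¹ = dg p (conj F)`. For `s, t ∈ [0,1]` let `a^t_s i j = (1 - t) a_s i j + t Φ (a_s i j) Φ⁻¹`.
As `‖Φ a_ij Φ⁻¹ - a_ij‖ = ‖(Φ a_ij - a_ij Φ) Φ⁻¹‖ ≤ η`, the norm of `a^t_s - a_s` is at most `M η`.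
Choose `ε > 0` with `(1 + M C) (M η + M ε) < 1`, and by `compact_approx`, applied to the compact set
of all `a_s i j` (`ind p G` commutes with the diagonal operators), a finite set `G ⊆ I` with
`‖a^t_s i j - ind G * a^t_s i j‖ < ε` for all `s, t, i, j` and `c d ∈ G` for all `d : D`. Then
`1 + ind G * a^t_s` is invertible, since `‖(1 + a_s)⁻¹‖ ≤ 1 + M C`. So the finite matrix
`m_{s,t} = 1 + (ent (a^t_s i j) g g')_{(g,i), (g',j)}` of size `G × Fin M` is invertible: if `m ξ = 0` then
the vector `ξ` extended by zero is in the kernel of `1 + ind G * a^t_s`. Let `D s t = det m_{s,t} ≠ 0`.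
It is continuous; `D s 1 = D s 0` as `m_{s,1} = Φ_G m_{s,0} Φ_G⁻¹`; `D 1 t = 1`; and at `s = 0` the matrix
is the identity outside `c(D) × {0}`, and on `c(D) × {0}` it has the entries
`[d = π d'] ((1 - t) + t F(c (π d')) / F(c d'))`, so
`D 0 t = sign π * ∏_d ((1 - t) + t exp (2πi δ_d))`. Now apply `exists_log_prod` and `winding`.
-/

set_option autoImplicit false
set_option linter.unusedVariables false

namespace Pool.Agent.H368.NV

open scoped ENNReal NNReal Topology
open Filter

noncomputable section

variable {p : ℝ≥0∞} [hp1 : Fact (1 ≤ p)] [hpt : Fact (p ≠ ∞)] {I : Type}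

/-- The action of a matrix of operators on vectors. -/
def dact {M : ℕ} (X : Matrix (Fin M) (Fin M) (Op p I)) (f : Fin M → Ell p I) : Fin M → Ell p I :=
  fun i => ∑ j, X i j (f j)

theorem dact_mul {M : ℕ} (X Y : Matrix (Fin M) (Fin M) (Op p I)) (f : Fin M → Ell p I) :
    dact (X * Y) f = dact X (dact Y f) := by
  funext i
  simp only [dact, Matrix.mul_apply, map_sum]
  rw [Finset.sum_comm]
  refine Finset.sum_congr rfl fun j _ => ?_
  rw [_root_.sum_apply]
  rfl

theorem dact_one_add {M : ℕ} (X : Matrix (Fin M) (Fin M) (Op p I)) (f : Fin M → Ell p I)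
    (i : Fin M) : dact (1 + X) f i = f i + ∑ j, X i j (f j) := by
  simp only [dact, Matrix.add_apply, _root_.add_apply, Finset.sum_add_distrib]
  congr 1
  rw [Finset.sum_eq_single i]
  · simp
  · intro j _ hj
    rw [Matrix.one_apply_ne (Ne.symm hj)]
    rfl
  · intro h
    exact absurd (Finset.mem_univ i) h

theorem dact_one {M : ℕ} (f : Fin M → Ell p I) :
    dact (1 : Matrix (Fin M) (Fin M) (Op p I)) f = f := by
  funext i
  have h := dact_one_add (0 : Matrix (Fin M) (Fin M) (Op p I)) f i
  simpa using h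

/-- A perturbation of an invertible matrix has trivial kernel. -/
theorem perturb {M : ℕ} (a b : Matrix (Fin M) (Fin M) (Op p I)) (X : Matrix (Fin M) (Fin M) (Op p I))
    (C θ : ℝ) (hC : 0 ≤ C) (hθ : 0 ≤ θ) (hCθ : (1 + M * C) * (M * θ) < 1)
    (hb : (1 + b) * (1 + a) = 1) (hbC : ∀ i j, ‖b i j‖ ≤ C) (hX : ∀ i j, ‖a i j - X i j‖ ≤ θ)
    (f : Fin M → Ell p I) (hf : ∀ i, f i + ∑ j, X i j (f j) = 0) : f = 0 := by
  set r : Fin M → Ell p I := dact (1 + a) f with hr
  have hr1 : ∀ i, ‖r i‖ ≤ M * θ * ‖f‖ := by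
    intro i
    have h1 : r i = ∑ j, (a i j - X i j) (f j) := by
      rw [hr, dact_one_add]
      have h2 := hf i
      have h3 : f i = -∑ j, X i j (f j) := eq_neg_of_add_eq_zero_left h2
      rw [h3, neg_add_eq_sub, ← Finset.sum_sub_distrib]
      exact Finset.sum_congr rfl fun j _ => by rw [_root_.sub_apply]
    rw [h1]
    calc ‖∑ j, (a i j - X i j) (f j)‖ ≤ ∑ j, ‖(a i j - X i j) (f j)‖ := norm_sum_le _ _
      _ ≤ ∑ _j : Fin M, θ * ‖f‖ := by
          refine Finset.sum_le_sum fun j _ => ?_
          refine ((a i j - X i j).le_opNorm (f j)).trans ?_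
          exact mul_le_mul (hX i j) (norm_le_pi_norm f j) (norm_nonneg _) hθ
      _ = M * θ * ‖f‖ := by simp [mul_assoc]
  have hrn : ‖r‖ ≤ M * θ * ‖f‖ := (pi_norm_le_iff_of_nonneg (by positivity)).2 hr1
  have hfr : f = dact (1 + b) r := by
    rw [hr, ← dact_mul, hb, dact_one]
  have hf1 : ‖f‖ ≤ (1 + M * C) * ‖r‖ := by
    rw [pi_norm_le_iff_of_nonneg (by positivity)]
    intro i
    have h1 : f i = r i + ∑ j, b i j (r j) := by
      conv_lhs => rw [hfr]
      rw [dact_one_add]
    rw [h1]
    calc ‖r i + ∑ j, b i j (r j)‖ ≤ ‖r i‖ + ‖∑ j, b i j (r j)‖ := norm_add_le _ _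
      _ ≤ ‖r‖ + ∑ _j : Fin M, C * ‖r‖ := by
          refine add_le_add (norm_le_pi_norm r i) ((norm_sum_le _ _).trans ?_)
          refine Finset.sum_le_sum fun j _ => ?_
          refine ((b i j).le_opNorm (r j)).trans ?_
          exact mul_le_mul (hbC i j) (norm_le_pi_norm r j) (norm_nonneg _) hC
      _ = (1 + M * C) * ‖r‖ := by
          simp
          ring
  have hf2 : ‖f‖ ≤ (1 + M * C) * (M * θ) * ‖f‖ := by
    calc ‖f‖ ≤ (1 + M * C) * ‖r‖ := hf1
      _ ≤ (1 + M * C) * (M * θ * ‖f‖) := mul_le_mul_of_nonneg_left hrn (by positivity)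
      _ = _ := by ring
  have hf3 : ‖f‖ ≤ 0 := by
    by_contra hcon
    push Not at hcon
    nlinarith
  exact norm_le_zero_iff.1 hf3

/-- The conjugation path. -/
def cpath (F : I → ℂ) (t : ℂ) (T : Op p I) : Op p I :=
  (1 - t) • T + t • (dg p F * T * dg p (fun i => (starRingEnd ℂ) (F i)))

theorem norm_dg_one {F : I → ℂ} (hF : ∀ a, ‖F a‖ = 1) : ‖dg p F‖ ≤ 1 :=
  norm_dg_le zero_le_one fun i => (hF i).le

theorem norm_conj_one {F : I → ℂ} (hF : ∀ a, ‖F a‖ = 1) (a : I) :
    ‖(starRingEnd ℂ) (F a)‖ = 1 := by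
  rw [RCLike.norm_conj]
  exact hF a

theorem mul_conj_one {F : I → ℂ} (hF : ∀ a, ‖F a‖ = 1) (a : I) :
    F a * (starRingEnd ℂ) (F a) = 1 := by
  rw [Complex.mul_conj, Complex.normSq_eq_norm_sq, hF a]
  simp

theorem ent_cpath {F : I → ℂ} (hF : ∀ a, ‖F a‖ = 1) (t : ℂ) (T : Op p I) (g g' : I) :
    ent (cpath F t T) g g' = ((1 - t) + t * (F g * (starRingEnd ℂ) (F g'))) * ent T g g' := by
  unfold cpath
  rw [ent_add, ent_smul, ent_smul, ent_mul_dg (fun i => (norm_conj_one hF i).le),
    ent_dg_mul (fun i => (hF i).le)]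
  ring

theorem dg_mul_conj {F : I → ℂ} (hF : ∀ a, ‖F a‖ = 1) :
    dg p F * dg p (fun i => (starRingEnd ℂ) (F i)) = 1 := by
  classical
  apply op_ext
  intro a b
  rw [ent_dg_mul (fun i => (hF i).le), ent_one]
  have h1 := ent_mul_dg (p := p) (g := fun i => (starRingEnd ℂ) (F i))
    (fun i => (norm_conj_one hF i).le) (1 : Op p I) a b
  rw [one_mul, ent_one] at h1
  rw [h1]
  by_cases h : a = b
  · subst h
    simp only [if_true, one_mul]
    exact mul_conj_one hF a
  · simp [h]

theorem norm_sub_cpath {F : I → ℂ} (hF : ∀ a, ‖F a‖ = 1) {t : ℝ} (ht : 0 ≤ t) (ht1 : t ≤ 1)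
    (T : Op p I) {η : ℝ} (h : ‖dg p F * T - T * dg p F‖ ≤ η) : ‖T - cpath F t T‖ ≤ η := by
  have h1 : T - cpath F t T =
      (t : ℂ) • ((T * dg p F - dg p F * T) * dg p (fun i => (starRingEnd ℂ) (F i))) := by
    unfold cpath
    rw [sub_mul, mul_assoc T, dg_mul_conj hF, mul_one]
    module
  rw [h1, norm_smul]
  have h2 : ‖(T * dg p F - dg p F * T) * dg p (fun i => (starRingEnd ℂ) (F i))‖ ≤ η := by
    calc _ ≤ ‖T * dg p F - dg p F * T‖ * ‖dg p (fun i => (starRingEnd ℂ) (F i))‖ := norm_mul_le _ _
      _ ≤ η * 1 := by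
          apply mul_le_mul
          · rw [norm_sub_rev]; exact h
          · exact norm_dg_one (norm_conj_one hF)
          · exact norm_nonneg _
          · exact (norm_nonneg _).trans h
      _ = η := mul_one _
  rw [Complex.norm_real, Real.norm_eq_abs, abs_of_nonneg ht]
  calc t * _ ≤ 1 * η := mul_le_mul ht1 h2 (norm_nonneg _) zero_le_one
    _ = η := one_mul _

theorem norm_cpath_le {F : I → ℂ} (hF : ∀ a, ‖F a‖ = 1) {t : ℝ} (ht : 0 ≤ t) (ht1 : t ≤ 1)
    (T : Op p I) : ‖cpath F t T‖ ≤ ‖T‖ := by
  unfold cpath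
  have h2 : ‖dg p F * T * dg p (fun i => (starRingEnd ℂ) (F i))‖ ≤ ‖T‖ := by
    calc _ ≤ ‖dg p F * T‖ * ‖dg p (fun i => (starRingEnd ℂ) (F i))‖ := norm_mul_le _ _
      _ ≤ (‖dg p F‖ * ‖T‖) * 1 :=
          mul_le_mul (norm_mul_le _ _) (norm_dg_one (norm_conj_one hF)) (norm_nonneg _)
            (by positivity)
      _ ≤ (1 * ‖T‖) * 1 := by
          have := norm_dg_one (p := p) hF
          gcongr
      _ = ‖T‖ := by ring
  calc ‖(1 - (t : ℂ)) • T + (t : ℂ) • (dg p F * T * dg p (fun i => (starRingEnd ℂ) (F i)))‖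
      ≤ ‖(1 - (t : ℂ)) • T‖ + ‖(t : ℂ) • (dg p F * T * dg p (fun i => (starRingEnd ℂ) (F i)))‖ :=
        norm_add_le _ _
    _ ≤ (1 - t) * ‖T‖ + t * ‖T‖ := by
        rw [norm_smul, norm_smul]
        have h3 : ‖(1 - (t : ℂ))‖ = 1 - t := by
          rw [← Complex.ofReal_one, ← Complex.ofReal_sub, Complex.norm_real, Real.norm_eq_abs,
            abs_of_nonneg (by linarith)]
        have h4 : ‖(t : ℂ)‖ = t := by
          rw [Complex.norm_real, Real.norm_eq_abs, abs_of_nonneg ht]
        rw [h3, h4]
        gcongr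
    _ = ‖T‖ := by ring

theorem cpath_sub_ind {F : I → ℂ} (hF : ∀ a, ‖F a‖ = 1) (t : ℂ) (T : Op p I) (S : Set I) :
    cpath F t T - ind p S * cpath F t T = cpath F t (T - ind p S * T) := by
  classical
  apply op_ext
  intro a b
  rw [ent_sub, ent_ind_mul, ent_cpath hF, ent_cpath hF, ent_sub, ent_ind_mul]
  by_cases h : a ∈ S
  · simp [h]
  · simp [h]

theorem continuous_ent (g g' : I) : Continuous fun T : Op p I => ent T g g' :=
  (evl p g).continuous.comp (continuous_id.clm_apply continuous_const)

theorem detect (F : I → ℂ) (hF : ∀ a, ‖F a‖ = 1) (M : ℕ)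
    (a : unitInterval → Matrix (Fin M) (Fin M) (Op p I)) (ha : Continuous a)
    (hcpt : ∀ s i j, IsCompactOperator (a s i j : Op p I)) (C η : ℝ) (hC : 0 ≤ C) (hη : 0 ≤ η)
    (hCη : (1 + M * C) * (M * η) < 1)
    (hinv : ∀ s, ∃ b : Matrix (Fin M) (Fin M) (Op p I), (1 + a s) * (1 + b) = 1 ∧
      (1 + b) * (1 + a s) = 1 ∧ ∀ i j, ‖b i j‖ ≤ C)
    (hcomm : ∀ s i j, ‖dg p F * a s i j - a s i j * dg p F‖ ≤ η)
    (hend : a 1 = 0)
    {D : Type} [Fintype D] [DecidableEq D] (c : D ↪ I) (π : Equiv.Perm D) (δ : D → ℝ)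
    (hM : 1 ≤ M)
    (hstart : a 0 = pad M (fun (_ _ : Fin 1) => push c (perm p π - 1)))
    (hδ : ∀ d, |δ d| < 1 / 2)
    (hFδ : ∀ d, F (c (π d)) = Complex.exp (2 * Real.pi * Complex.I * (δ d : ℂ)) * F (c d)) :
    ∑ d, δ d = 0 := by
  classical
  -- the error
  set K : ℝ := (1 + M * C) * M with hK
  have hK0 : 0 ≤ K := by positivity
  set ε : ℝ := (1 - (1 + M * C) * (M * η)) / (2 * (K + 1)) with hε
  have hε0 : 0 < ε := div_pos (by linarith) (by positivity)
  have hεK : (1 + M * C) * (M * (η + ε)) < 1 := by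
    have h1 : K * ε < 1 - (1 + M * C) * (M * η) := by
      have h2 : 2 * (K + 1) * ε = 1 - (1 + M * C) * (M * η) := by
        rw [hε]
        field_simp
      have h3 : K * ε < 2 * (K + 1) * ε := by nlinarith
      rwa [h2] at h3
    have h4 : (1 + M * C) * (M * (η + ε)) = (1 + M * C) * (M * η) + K * ε := by rw [hK]; ring
    rw [h4]
    linarith
  have haij : ∀ i j, Continuous fun s => a s i j := fun i j => ha.matrix_elem i j
  have hScomp : IsCompact (⋃ i : Fin M, ⋃ j : Fin M, (fun s => a s i j) '' Set.univ) :=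
    isCompact_iUnion fun i => isCompact_iUnion fun j => isCompact_univ.image (haij i j)
  obtain ⟨G₀, hG₀⟩ := compact_approx _ hScomp (by
    intro T hT
    simp only [Set.mem_iUnion, Set.mem_image] at hT
    obtain ⟨i, j, s, -, rfl⟩ := hT
    exact hcpt s i j) hε0
  let G : Finset I := G₀ ∪ Finset.univ.image c
  have hG : ∀ s i j, ‖a s i j - ind p (G : Set I) * a s i j‖ < ε := by
    intro s i j
    apply hG₀ G Finset.subset_union_left
    simp only [Set.mem_iUnion, Set.mem_image]
    exact ⟨i, j, s, Set.mem_univ _, rfl⟩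
  have hcG : ∀ d, c d ∈ G := fun d =>
    Finset.mem_union_right _ (Finset.mem_image_of_mem _ (Finset.mem_univ d))
  -- the finite matrices
  let m : unitInterval → unitInterval → Matrix ({g // g ∈ G} × Fin M) ({g // g ∈ G} × Fin M) ℂ :=
    fun s t => 1 + Matrix.of fun x y => ((1 - (t : ℂ)) + (t : ℂ) *
      (F x.1 * (starRingEnd ℂ) (F y.1))) * ent (a s x.2 y.2) x.1 y.1
  have hm : ∀ s t x y, m s t x y = (1 : Matrix _ _ ℂ) x y + ((1 - (t : ℂ)) + (t : ℂ) *
      (F x.1 * (starRingEnd ℂ) (F y.1))) * ent (a s x.2 y.2) x.1 y.1 := fun _ _ _ _ => rfl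
  have hme : ∀ s t x y, m s t x y = (1 : Matrix _ _ ℂ) x y +
      ent (cpath F t (a s x.2 y.2)) x.1 y.1 := by
    intro s t x y
    rw [hm, ent_cpath hF]
  have hDcont : Continuous fun x : unitInterval × unitInterval => (m x.1 x.2).det := by
    refine Continuous.matrix_det (continuous_matrix fun x y => ?_)
    simp only [hm]
    refine continuous_const.add (Continuous.mul ?_ ?_)
    · have h1 : Continuous fun z : unitInterval × unitInterval => ((z.2 : ℝ) : ℂ) :=
        Complex.continuous_ofReal.comp (continuous_subtype_val.comp continuous_snd)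
      exact (continuous_const.sub h1).add (h1.mul continuous_const)
    · exact (continuous_ent _ _).comp ((haij _ _).comp continuous_fst)
  -- nonvanishing
  have hne : ∀ s t, (m s t).det ≠ 0 := by
    intro s t hdet
    obtain ⟨v, hv0, hv⟩ := Matrix.exists_mulVec_eq_zero_iff.2 hdet
    let f : Fin M → Ell p I := fun j => ∑ g : {g // g ∈ G}, v (g, j) • bas p g.1
    have hfv : ∀ (g : {g // g ∈ G}) (j : Fin M), (f j : I → ℂ) g = v (g, j) := by
      intro g j
      have h1 : evl p (g : I) (f j) = v (g, j) := by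
        show evl p (g : I) (∑ g : {g // g ∈ G}, v (g, j) • bas p g.1) = _
        rw [map_sum, Finset.sum_eq_single g]
        · rw [map_smul, evl_apply, bas_apply_self, smul_eq_mul, mul_one]
        · intro b _ hb
          rw [map_smul, evl_apply, bas_apply_ne (fun h => hb (Subtype.ext h.symm)), smul_zero]
        · intro h
          exact absurd (Finset.mem_univ g) h
      exact h1
    have hfn : ∀ (g : I) (j : Fin M), g ∉ G → (f j : I → ℂ) g = 0 := by
      intro g j hg
      have h1 : evl p g (f j) = 0 := by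
        show evl p g (∑ g : {g // g ∈ G}, v (g, j) • bas p g.1) = _
        rw [map_sum]
        refine Finset.sum_eq_zero fun b _ => ?_
        rw [map_smul, evl_apply, bas_apply_ne (fun h => hg (by rw [h]; exact b.2)), smul_zero]
      exact h1
    obtain ⟨b, -, hb2, hb3⟩ := hinv s
    have hf0 : f = 0 := by
      refine perturb (a s) b (fun i j => ind p (G : Set I) * cpath F t (a s i j)) C (η + ε) hC
        (by positivity) hεK hb2 hb3 ?_ f ?_
      · intro i j
        have h1 : a s i j - ind p (G : Set I) * cpath F t (a s i j) =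
            (a s i j - cpath F t (a s i j)) +
              cpath F t (a s i j - ind p (G : Set I) * a s i j) := by
          rw [← cpath_sub_ind hF]
          abel
        show ‖a s i j - ind p (G : Set I) * cpath F t (a s i j)‖ ≤ _
        rw [h1]
        refine (norm_add_le _ _).trans (add_le_add ?_ ?_)
        · exact norm_sub_cpath hF t.2.1 t.2.2 _ (hcomm s i j)
        · exact (norm_cpath_le hF t.2.1 t.2.2 _).trans (hG s i j).le
      · intro i
        ext g
        have h1 : ∀ j, ((ind p (G : Set I) * cpath F t (a s i j)) (f j) : I → ℂ) g =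
            ∑ g' : {g // g ∈ G}, v (g', j) * ent (ind p (G : Set I) * cpath F t (a s i j)) g g' := by
          intro j
          have h2 : evl p g ((ind p (G : Set I) * cpath F t (a s i j)) (f j)) =
              ∑ g' : {g // g ∈ G}, v (g', j) *
                ent (ind p (G : Set I) * cpath F t (a s i j)) g g' := by
            show evl p g ((ind p (G : Set I) * cpath F t (a s i j))
              (∑ g : {g // g ∈ G}, v (g, j) • bas p g.1)) = _
            rw [map_sum, map_sum]
            refine Finset.sum_congr rfl fun g' _ => ?_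
            rw [map_smul, map_smul]
            rfl
          exact h2
        have h3 : ((f i + ∑ j, (ind p (G : Set I) * cpath F t (a s i j)) (f j) : Ell p I) : I → ℂ) g =
            (f i : I → ℂ) g + ∑ j, ((ind p (G : Set I) * cpath F t (a s i j)) (f j) : I → ℂ) g := by
          have h4 : evl p g (f i + ∑ j, (ind p (G : Set I) * cpath F t (a s i j)) (f j)) =
              evl p g (f i) + ∑ j, evl p g ((ind p (G : Set I) * cpath F t (a s i j)) (f j)) := by
            rw [map_add]
            congr 1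
            exact map_sum _ _ _
          exact h4
        rw [h3]
        simp only [h1]
        show _ = (0 : ℂ)
        by_cases hg : g ∈ G
        · have hg' : g ∈ (G : Set I) := hg
          have h5 := congrFun hv (⟨g, hg⟩, i)
          rw [Matrix.mulVec, dotProduct] at h5
          simp only [Pi.zero_apply, hme, add_mul, Finset.sum_add_distrib] at h5
          have h6 : ∑ x : {g // g ∈ G} × Fin M,
              (1 : Matrix ({g // g ∈ G} × Fin M) ({g // g ∈ G} × Fin M) ℂ) (⟨g, hg⟩, i) x * v x =
              v (⟨g, hg⟩, i) := by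
            rw [Finset.sum_eq_single (⟨g, hg⟩, i)]
            · rw [Matrix.one_apply_eq, one_mul]
            · intro y _ hy
              rw [Matrix.one_apply_ne (Ne.symm hy), zero_mul]
            · intro h
              exact absurd (Finset.mem_univ _) h
          rw [h6, Fintype.sum_prod_type, Finset.sum_comm] at h5
          rw [← h5]
          congr 1
          · exact hfv ⟨g, hg⟩ i
          · refine Finset.sum_congr rfl fun j _ => Finset.sum_congr rfl fun g' _ => ?_
            rw [ent_ind_mul, if_pos hg']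
            ring
        · have hg' : g ∉ (G : Set I) := hg
          rw [hfn g i hg, zero_add]
          refine Finset.sum_eq_zero fun j _ => Finset.sum_eq_zero fun g' _ => ?_
          rw [ent_ind_mul, if_neg hg', mul_zero]
    apply hv0
    funext x
    have h1 := hfv x.1 x.2
    rw [hf0] at h1
    simpa using h1.symm
  -- periodicity
  have hper : ∀ s, (m s 0).det = (m s 1).det := by
    intro s
    have h1 : m s 1 = Matrix.diagonal (fun x : {g // g ∈ G} × Fin M => F x.1) * m s 0 *
        Matrix.diagonal (fun x : {g // g ∈ G} × Fin M => (starRingEnd ℂ) (F x.1)) := by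
      ext x y
      rw [Matrix.mul_diagonal, Matrix.diagonal_mul, hm, hm]
      by_cases hxy : x = y
      · subst hxy
        have h2 := mul_conj_one hF (x.1 : I)
        rw [Matrix.one_apply_eq]
        simp only [Set.Icc.coe_one, Set.Icc.coe_zero, Complex.ofReal_one, Complex.ofReal_zero]
        linear_combination (ent (a s x.2 x.2) x.1 x.1 - ent (a s x.2 x.2) x.1 x.1 - 1) * h2
      · rw [Matrix.one_apply_ne hxy]
        simp only [Set.Icc.coe_one, Set.Icc.coe_zero, Complex.ofReal_one, Complex.ofReal_zero]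
        ring
    rw [h1, Matrix.det_mul, Matrix.det_mul, Matrix.det_diagonal, Matrix.det_diagonal]
    have h2 : (∏ x : {g // g ∈ G} × Fin M, F x.1) *
        ∏ x : {g // g ∈ G} × Fin M, (starRingEnd ℂ) (F x.1) = 1 := by
      rw [← Finset.prod_mul_distrib]
      exact Finset.prod_eq_one fun x _ => mul_conj_one hF _
    linear_combination (-(m s 0).det) * h2
  have hone : ∀ t, (m 1 t).det = (m 1 0).det := by
    intro t
    have h1 : ∀ t, m 1 t = 1 := by
      intro t
      ext x y
      rw [hm, hend]
      simp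
    rw [h1 t, h1 0]
  -- the start
  obtain ⟨ℓ, hℓ, hℓ1, hℓ2, hℓ3⟩ := exists_log_prod δ hδ
  let i0 : Fin M := ⟨0, hM⟩
  let κ : D ↪ {g // g ∈ G} × Fin M :=
    ⟨fun d => (⟨c d, hcG d⟩, i0), fun d d' h => by
      simp only [Prod.mk.injEq, Subtype.mk.injEq, and_true] at h
      exact c.injective h⟩
  let σ : Equiv.Perm ({g // g ∈ G} × Fin M) := π.viaEmbedding κ
  have hσ1 : ∀ d, σ (κ d) = κ (π d) := fun d => Equiv.Perm.viaEmbedding_apply π κ d
  have hσ2 : ∀ x, x ∉ Set.range κ → σ x = x := fun x hx =>
    Equiv.Perm.viaEmbedding_apply_of_notMem π κ x hx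
  let P : Matrix ({g // g ∈ G} × Fin M) ({g // g ∈ G} × Fin M) ℂ :=
    Matrix.of fun x y => if x = σ y then 1 else 0
  let w : unitInterval → ({g // g ∈ G} × Fin M) → ℂ := fun t =>
    Function.extend κ (fun d => (1 - (t : ℂ)) + (t : ℂ) *
      Complex.exp (2 * Real.pi * Complex.I * (δ d : ℂ))) (fun _ => 1)
  have hstart' : ∀ t, m 0 t = P * Matrix.diagonal (w t) := by
    intro t
    ext x y
    rw [Matrix.mul_diagonal, hm, hstart]
    have hP : P x y = if x = σ y then 1 else 0 := rfl
    rw [hP]
    by_cases hy : y ∈ Set.range κ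
    · obtain ⟨d, rfl⟩ := hy
      have hw : w t (κ d) = (1 - (t : ℂ)) + (t : ℂ) *
          Complex.exp (2 * Real.pi * Complex.I * (δ d : ℂ)) := κ.injective.extend_apply _ _ _
      rw [hw, hσ1]
      by_cases hx : x ∈ Set.range κ
      · obtain ⟨d', rfl⟩ := hx
        have hpad : pad M (fun (_ _ : Fin 1) => push c (perm p π - 1)) (κ d').2 (κ d).2 =
            push c (perm p π - 1) := by
          unfold pad
          rw [dif_pos]
          exact ⟨Nat.zero_lt_one, Nat.zero_lt_one⟩
        rw [hpad]
        have he : ent (push c (perm p π - 1)) ((κ d').1 : I) ((κ d).1 : I) =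
            (if d' = π d then 1 else 0) - (if d' = d then 1 else 0) := by
          show ent (push c (perm p π - 1)) (c d') (c d) = _
          rw [ent_push, ent_sub, ent_perm, ent_one]
        rw [he]
        have hκ1 : (κ d' = κ (π d)) ↔ d' = π d := κ.injective.eq_iff
        have hone' : (1 : Matrix ({g // g ∈ G} × Fin M) ({g // g ∈ G} × Fin M) ℂ) (κ d') (κ d) =
            if d' = d then 1 else 0 := by
          rw [Matrix.one_apply]
          simp only [κ.injective.eq_iff]
        rw [hone']
        simp only [hκ1]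
        have hF1 : F ((κ d').1 : I) = F (c d') := rfl
        have hF2 : F ((κ d).1 : I) = F (c d) := rfl
        rw [hF1, hF2]
        by_cases h1 : d' = π d
        · have h2 : F (c d') * (starRingEnd ℂ) (F (c d)) =
              Complex.exp (2 * Real.pi * Complex.I * (δ d : ℂ)) := by
            rw [h1, hFδ d, mul_assoc, mul_conj_one hF, mul_one]
          by_cases h3 : d' = d
          · have h4 : F (c d') * (starRingEnd ℂ) (F (c d)) = 1 := by
              rw [h3]
              exact mul_conj_one hF _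
            rw [if_pos h1, if_pos h3, ← h2, h4]
            ring
          · rw [if_pos h1, if_neg h3, h2]
            ring
        · by_cases h3 : d' = d
          · have h4 : F (c d') * (starRingEnd ℂ) (F (c d)) = 1 := by
              rw [h3]
              exact mul_conj_one hF _
            rw [if_neg h1, if_pos h3, h4]
            ring
          · rw [if_neg h1, if_neg h3]
            ring
      · have h1 : x ≠ κ (π d) := fun h => hx ⟨π d, h.symm⟩
        have h2 : x ≠ κ d := fun h => hx ⟨d, h.symm⟩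
        rw [if_neg h1, Matrix.one_apply_ne h2, zero_mul, zero_add]
        have h3 : ent (pad M (fun (_ _ : Fin 1) => push c (perm p π - 1)) x.2 (κ d).2) x.1
            (κ d).1 = 0 := by
          unfold pad
          by_cases h4 : (x.2 : ℕ) < 1 ∧ ((κ d).2 : ℕ) < 1
          · rw [dif_pos h4]
            apply ent_push_left
            intro d' hd'
            apply hx
            refine ⟨d', ?_⟩
            apply Prod.ext
            · exact Subtype.ext hd'
            · apply Fin.ext
              show 0 = (x.2 : ℕ)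
              omega
          · rw [dif_neg h4]
            exact ent_zero _ _
        rw [h3, mul_zero]
    · have hw : w t y = 1 := Function.extend_apply' _ _ _ (by
        rintro ⟨d, hd⟩
        exact hy ⟨d, hd⟩)
      rw [hw, hσ2 y hy, mul_one]
      have h3 : ent (pad M (fun (_ _ : Fin 1) => push c (perm p π - 1)) x.2 y.2) x.1 y.1 = 0 := by
        unfold pad
        by_cases h4 : (x.2 : ℕ) < 1 ∧ (y.2 : ℕ) < 1
        · rw [dif_pos h4]
          apply ent_push_right
          intro d' hd'
          apply hy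
          refine ⟨d', ?_⟩
          apply Prod.ext
          · exact Subtype.ext hd'
          · apply Fin.ext
            show 0 = (y.2 : ℕ)
            omega
        · rw [dif_neg h4]
          exact ent_zero _ _
      rw [h3, mul_zero, add_zero, Matrix.one_apply]
  have hdetstart : ∀ t, (m 0 t).det = P.det * Complex.exp (ℓ t) := by
    intro t
    rw [hstart' t, Matrix.det_mul, Matrix.det_diagonal, hℓ1 t]
    congr 1
    symm
    refine Fintype.prod_of_injective κ κ.injective _ _ ?_ ?_
    · intro x hx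
      exact Function.extend_apply' _ _ _ (by
        rintro ⟨d, hd⟩
        exact hx ⟨d, hd⟩)
    · intro d
      show _ = Function.extend κ (fun d => (1 - (t : ℂ)) + (t : ℂ) *
        Complex.exp (2 * Real.pi * Complex.I * (δ d : ℂ))) (fun _ => 1) (κ d)
      rw [κ.injective.extend_apply]
  have hPne : P.det ≠ 0 := by
    intro h
    apply hne 0 0
    rw [hdetstart 0, h, zero_mul]
  have hfin := winding (fun s t => (m s t).det) hDcont hne hper hone ℓ hℓ P.det hPne hdetstart
  rw [hℓ3, hℓ2] at hfin
  have h2 : (2 * Real.pi * Complex.I : ℂ) ≠ 0 := by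
    have := Real.pi_pos.ne'
    simp [Complex.I_ne_zero, this]
  have h3 := (mul_eq_zero.1 hfin).resolve_left h2
  exact_mod_cast h3

end

end Pool.Agent.H368.NV
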