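import Pool.Agent.H368.NV.Basic

/-!
# A path of invertible operators with propagation tending to zero

PROOF SKETCH of `exists_dyPerm`: on `[0, N)`, the map `stepVal N k` is the cyclic shift
`t ↦ t + 2^{-k} mod N` of the finite set of `t` with `2^k t ∈ ℤ`, and the identity elsewhere. The
inverse is: `t ↦ t - 2^{-k}` if `2^k t ∈ ℤ`, `t > 0`; `0 ↦ N - 2^{-k}`; identity elsewhere.

PROOF SKETCH of `exists_dyPath`. Let `π_k = dyPerm N hN k` and let `τ_k` be the involution of `Dy N` which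
exchanges `t` and `t + 2^{-k-1}` if `2^k t ∈ ℤ`, and fixes all other points. Then
`π_{k+1} = π_k ∘ τ_k`. For `k ≤ t ≤ k + 1` let
`1 + U t = perm π_k * (1 + λ(t - k) (perm τ_k - 1))`, `λ(s) = (1 - exp (i π s)) / 2`; this is consistent at
integers since `λ(0) = 0`, `λ(1) = 1`. The inverse is
`1 + V t = (1 + λ'(t - k) (perm τ_k - 1)) * perm π_k⁻¹`, `λ'(s) = (1 - exp (-i π s)) / 2`, as
`E = (1 - perm τ_k) / 2` is an idempotent and `1 + λ (perm τ_k - 1) = 1 + (exp (i π s) - 1) E`. Both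
functions are Lipschitz and bounded. The entries of `U t`, `V t` are zero unless both indices satisfy
`2^{k+1} a ∈ ℤ` and their circular distance is at most `2^{-k} + 2^{-k-1}`.
-/

set_option autoImplicit false
set_option linter.unusedVariables false

namespace Pool.Agent.H368.NV

open scoped ENNReal NNReal Topology BoundedContinuousFunction
open Filter

noncomputable section

variable {p : ℝ≥0∞} [hp1 : Fact (1 ≤ p)] [hpt : Fact (p ≠ ∞)]

/-- `t` is an integral multiple of `2^{-k}`. -/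
def IsDy (k : ℕ) (t : ℚ) : Prop := ∃ z : ℤ, t * 2 ^ k = z

open Classical in
/-- The cyclic shift by `2^{-k}` on the multiples of `2^{-k}` in `[0, N)`; all other numbers are
fixed. -/
def stepVal (N k : ℕ) (t : ℚ) : ℚ :=
  if IsDy k t then (if t + 1 / 2 ^ k < N then t + 1 / 2 ^ k else 0) else t

/-- The pairs `(n, t)` with a rational number `0 ≤ t < N n`. -/
def Dy (N : ℕ → ℕ) : Type := Σ n : ℕ, {t : ℚ // 0 ≤ t ∧ t < N n}

theorem dy_two (k : ℕ) : (0 : ℚ) < 2 ^ k := by positivity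

theorem isDy_nat (k n : ℕ) : IsDy k (n : ℚ) := ⟨n * 2 ^ k, by push_cast; ring⟩

theorem isDy_zero (k : ℕ) : IsDy k 0 := ⟨0, by simp⟩

theorem isDy_add {k : ℕ} {t : ℚ} (h : IsDy k t) : IsDy k (t + 1 / 2 ^ k) := by
  obtain ⟨z, hz⟩ := h
  refine ⟨z + 1, ?_⟩
  have := (dy_two k).ne'
  rw [add_mul, hz]
  field_simp
  push_cast
  ring

theorem isDy_sub {k : ℕ} {t : ℚ} (h : IsDy k t) : IsDy k (t - 1 / 2 ^ k) := by
  obtain ⟨z, hz⟩ := h
  refine ⟨z - 1, ?_⟩
  have := (dy_two k).ne'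
  rw [sub_mul, hz]
  field_simp
  push_cast
  ring

theorem isDy_succ {k : ℕ} {t : ℚ} (h : IsDy k t) : IsDy (k + 1) t := by
  obtain ⟨z, hz⟩ := h
  refine ⟨2 * z, ?_⟩
  push_cast
  rw [← hz]
  ring

theorem isDy_le {k N : ℕ} {t : ℚ} (h : IsDy k t) (h1 : t < N) : t + 1 / 2 ^ k ≤ N := by
  obtain ⟨z, hz⟩ := h
  have h2 := dy_two k
  have h3 : (z : ℚ) < N * 2 ^ k := by rw [← hz]; exact mul_lt_mul_of_pos_right h1 h2
  have h4 : z < (N : ℤ) * 2 ^ k := by exact_mod_cast h3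
  have h5 : z + 1 ≤ (N : ℤ) * 2 ^ k := h4
  have h6 : (z : ℚ) + 1 ≤ N * 2 ^ k := by exact_mod_cast h5
  rw [← hz] at h6
  have h7 : (t + 1 / 2 ^ k) * 2 ^ k = t * 2 ^ k + 1 := by field_simp
  rw [← h7] at h6
  exact le_of_mul_le_mul_right h6 h2

theorem isDy_pos {k : ℕ} {t : ℚ} (h : IsDy k t) (h1 : 0 < t) : 1 / 2 ^ k ≤ t := by
  obtain ⟨z, hz⟩ := h
  have h2 := dy_two k
  have h3 : (0 : ℚ) < z := by rw [← hz]; positivity
  have h4 : 0 < z := by exact_mod_cast h3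
  have h5 : 1 ≤ z := h4
  have h6 : (1 : ℚ) ≤ z := by exact_mod_cast h5
  rw [div_le_iff₀ h2, hz]
  exact h6

open Classical in
/-- The inverse of `stepVal`. -/
def invVal (N k : ℕ) (t : ℚ) : ℚ :=
  if IsDy k t then (if 0 < t then t - 1 / 2 ^ k else N - 1 / 2 ^ k) else t

theorem stepVal_mem {N k : ℕ} (hN : 1 ≤ N) {t : ℚ} (h0 : 0 ≤ t) (h1 : t < N) :
    0 ≤ stepVal N k t ∧ stepVal N k t < N := by
  have hN' : (1 : ℚ) ≤ N := by exact_mod_cast hN
  unfold stepVal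
  split_ifs with h2 h3
  · exact ⟨by positivity, h3⟩
  · exact ⟨le_rfl, by linarith⟩
  · exact ⟨h0, h1⟩

theorem dy_le_one (k : ℕ) : (1 : ℚ) / 2 ^ k ≤ 1 := by
  rw [div_le_one (dy_two k)]
  exact one_le_pow₀ (by norm_num)

theorem invVal_mem {N k : ℕ} (hN : 1 ≤ N) {t : ℚ} (h0 : 0 ≤ t) (h1 : t < N) :
    0 ≤ invVal N k t ∧ invVal N k t < N := by
  have hN' : (1 : ℚ) ≤ N := by exact_mod_cast hN
  have hk := dy_le_one k
  have hk0 : (0 : ℚ) < 1 / 2 ^ k := by positivity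
  unfold invVal
  split_ifs with h2 h3
  · exact ⟨by linarith [isDy_pos h2 h3], by linarith⟩
  · exact ⟨by linarith, by linarith⟩
  · exact ⟨h0, h1⟩

theorem inv_step {N k : ℕ} {t : ℚ} (h0 : 0 ≤ t) (h1 : t < N) :
    invVal N k (stepVal N k t) = t := by
  have hk0 : (0 : ℚ) < 1 / 2 ^ k := by positivity
  by_cases h2 : IsDy k t
  · by_cases h3 : t + 1 / 2 ^ k < N
    · have e : stepVal N k t = t + 1 / 2 ^ k := by rw [stepVal, if_pos h2, if_pos h3]
      rw [e, invVal, if_pos (isDy_add h2), if_pos (by linarith)]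
      ring
    · have e : stepVal N k t = 0 := by rw [stepVal, if_pos h2, if_neg h3]
      rw [e, invVal, if_pos (isDy_zero k), if_neg (lt_irrefl _)]
      have := isDy_le h2 h1
      push Not at h3
      linarith
  · have e : stepVal N k t = t := by rw [stepVal, if_neg h2]
    rw [e, invVal, if_neg h2]

theorem step_inv {N k : ℕ} {t : ℚ} (h0 : 0 ≤ t) (h1 : t < N) :
    stepVal N k (invVal N k t) = t := by
  have hk0 : (0 : ℚ) < 1 / 2 ^ k := by positivity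
  by_cases h2 : IsDy k t
  · by_cases h3 : 0 < t
    · have e : invVal N k t = t - 1 / 2 ^ k := by rw [invVal, if_pos h2, if_pos h3]
      rw [e, stepVal, if_pos (isDy_sub h2), if_pos (by linarith)]
      ring
    · have e : invVal N k t = N - 1 / 2 ^ k := by rw [invVal, if_pos h2, if_neg h3]
      rw [e, stepVal, if_pos (isDy_sub (isDy_nat k N)), if_neg (by linarith)]
      linarith
  · have e : invVal N k t = t := by rw [invVal, if_neg h2]
    rw [e, stepVal, if_neg h2]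

theorem dy_ext {N : ℕ → ℕ} {a b : Dy N} (h1 : a.1 = b.1) (h2 : (a.2 : ℚ) = b.2) : a = b := by
  obtain ⟨n, t, ht⟩ := a
  obtain ⟨m, s, hs⟩ := b
  simp only at h1
  subst h1
  simp only at h2
  subst h2
  rfl

theorem exists_dyPerm (N : ℕ → ℕ) (hN : ∀ n, 1 ≤ N n) (k : ℕ) :
    ∃ σ : Equiv.Perm (Dy N), ∀ a : Dy N, (σ a).1 = a.1 ∧
      ((σ a).2 : ℚ) = stepVal (N a.1) k a.2 := by
  refine ⟨⟨fun a => ⟨a.1, stepVal (N a.1) k a.2, stepVal_mem (hN _) a.2.2.1 a.2.2.2⟩,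
    fun a => ⟨a.1, invVal (N a.1) k a.2, invVal_mem (hN _) a.2.2.1 a.2.2.2⟩,
    fun a => dy_ext rfl (inv_step a.2.2.1 a.2.2.2),
    fun a => dy_ext rfl (step_inv a.2.2.1 a.2.2.2)⟩, fun a => ⟨rfl, rfl⟩⟩

/-- The permutation of `Dy N` given by `stepVal`. -/
def dyPerm (N : ℕ → ℕ) (hN : ∀ n, 1 ≤ N n) (k : ℕ) : Equiv.Perm (Dy N) :=
  (exists_dyPerm N hN k).choose

theorem dyPerm_fst (N : ℕ → ℕ) (hN : ∀ n, 1 ≤ N n) (k : ℕ) (a : Dy N) :
    (dyPerm N hN k a).1 = a.1 := ((exists_dyPerm N hN k).choose_spec a).1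

theorem dyPerm_snd (N : ℕ → ℕ) (hN : ∀ n, 1 ≤ N n) (k : ℕ) (a : Dy N) :
    ((dyPerm N hN k a).2 : ℚ) = stepVal (N a.1) k a.2 :=
  ((exists_dyPerm N hN k).choose_spec a).2

theorem dy_glue {X : Type*} [NormedAddCommGroup X] (G : ℕ → ℝ → X) (C M : ℝ) (hC : 0 ≤ C)
    (hL : ∀ k s s', 0 ≤ s → s ≤ 1 → 0 ≤ s' → s' ≤ 1 → ‖G k s - G k s'‖ ≤ C * |s - s'|)
    (hG : ∀ k, G k 1 = G (k + 1) 0) (hM : ∀ k s, 0 ≤ s → s ≤ 1 → ‖G k s‖ ≤ M) :
    ∃ F : ℝ≥0 →ᵇ X, UniformContinuous F ∧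
      ∀ (k : ℕ) (t : ℝ≥0), (k : ℝ≥0) ≤ t → t ≤ k + 1 → F t = G k ((t : ℝ) - k) := by
  set f : ℝ≥0 → X := fun t => G ⌊t⌋₊ ((t : ℝ) - ⌊t⌋₊) with hf
  have hk : ∀ (k : ℕ) (t : ℝ≥0), (k : ℝ≥0) ≤ t → t ≤ k + 1 → f t = G k ((t : ℝ) - k) := by
    intro k t h1 h2
    rcases h2.lt_or_eq with h3 | h3
    · have : ⌊t⌋₊ = k := (Nat.floor_eq_iff (zero_le)).2 ⟨h1, h3⟩
      simp only [hf, this]
    · have h4 : ⌊t⌋₊ = k + 1 := by
        rw [h3]
        have : ((k : ℝ≥0) + 1) = ((k + 1 : ℕ) : ℝ≥0) := by push_cast; rfl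
        rw [this, Nat.floor_natCast]
      simp only [hf, h4]
      rw [h3]
      push_cast
      rw [sub_self, add_sub_cancel_left, hG]
  have hle : ∀ t t' : ℝ≥0, t ≤ t' → (t' : ℝ) ≤ t + 1 → ‖f t - f t'‖ ≤ C * |(t : ℝ) - t'| := by
    intro t t' h1 h2
    set k := ⌊t⌋₊ with hkd
    have a1 : (k : ℝ≥0) ≤ t := Nat.floor_le (zero_le)
    have a2 : t < k + 1 := Nat.lt_floor_add_one t
    have b1 : (k : ℝ) ≤ t := by exact_mod_cast a1
    have b2 : (t : ℝ) < k + 1 := by exact_mod_cast a2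
    have b3 : (t : ℝ) ≤ t' := by exact_mod_cast h1
    rw [hk k t a1 a2.le]
    rcases le_total t' (k + 1) with h3 | h3
    · have c1 : (t' : ℝ) ≤ k + 1 := by exact_mod_cast h3
      rw [hk k t' (a1.trans h1) h3]
      have := hL k ((t : ℝ) - k) ((t' : ℝ) - k) (by linarith) (by linarith) (by linarith)
        (by linarith)
      rw [show (t : ℝ) - k - (t' - k) = t - t' by ring] at this
      exact this
    · have c1 : ((k : ℝ)) + 1 ≤ t' := by exact_mod_cast h3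
      have h4 : ((k + 1 : ℕ) : ℝ≥0) ≤ t' := by push_cast; exact h3
      have h5 : t' ≤ ((k + 1 : ℕ) : ℝ≥0) + 1 := by
        have : (t' : ℝ) ≤ ((k + 1 : ℕ) : ℝ) + 1 := by push_cast; linarith
        exact_mod_cast this
      rw [hk (k + 1) t' h4 h5]
      have d1 := hL k ((t : ℝ) - k) 1 (by linarith) (by linarith) (by linarith) le_rfl
      have d2 := hL (k + 1) 0 ((t' : ℝ) - ((k + 1 : ℕ) : ℝ)) le_rfl (by linarith)
        (by push_cast; linarith) (by push_cast; linarith)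
      rw [hG] at d1
      rw [abs_of_nonpos (by linarith)] at d1
      rw [abs_of_nonpos (by push_cast; linarith)] at d2
      rw [abs_of_nonpos (by linarith)]
      calc _ ≤ _ := norm_sub_le_norm_sub_add_norm_sub _ (G (k + 1) 0) _
        _ ≤ C * -((t : ℝ) - k - 1) + C * -(0 - ((t' : ℝ) - ((k + 1 : ℕ) : ℝ))) := add_le_add d1 d2
        _ = _ := by push_cast; ring
  have hle2 : ∀ t t' : ℝ≥0, |(t : ℝ) - t'| ≤ 1 → ‖f t - f t'‖ ≤ C * |(t : ℝ) - t'| := by
    intro t t' h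
    have h' := abs_le.1 h
    rcases le_total t t' with h1 | h1
    · exact hle t t' h1 (by linarith)
    · rw [norm_sub_rev, abs_sub_comm]
      exact hle t' t h1 (by linarith)
  have huc : UniformContinuous f := by
    rw [Metric.uniformContinuous_iff]
    intro ε hε
    refine ⟨min 1 (ε / (C + 1)), by positivity, fun {t t'} h => ?_⟩
    rw [NNReal.dist_eq] at h
    have h1 : |(t : ℝ) - t'| ≤ 1 := (h.le).trans (min_le_left _ _)
    have h2 : |(t : ℝ) - t'| < ε / (C + 1) := h.trans_le (min_le_right _ _)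
    rw [dist_eq_norm]
    have h3 := hle2 t t' h1
    rw [lt_div_iff₀ (by positivity)] at h2
    nlinarith [abs_nonneg ((t : ℝ) - t')]
  refine ⟨BoundedContinuousFunction.ofNormedAddCommGroup f huc.continuous M (fun t => ?_), huc, hk⟩
  have a1 : ((⌊t⌋₊ : ℕ) : ℝ≥0) ≤ t := Nat.floor_le (zero_le)
  have a2 : t < ⌊t⌋₊ + 1 := Nat.lt_floor_add_one t
  have b1 : ((⌊t⌋₊ : ℕ) : ℝ) ≤ t := by exact_mod_cast a1
  have b2 : (t : ℝ) < (⌊t⌋₊ : ℕ) + 1 := by exact_mod_cast a2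
  exact hM _ _ (by linarith) (by linarith)

/-- the scalar function `(1 - exp (c i π s)) / 2` -/
def dyLam (c : ℝ) (s : ℝ) : ℂ := (1 - Complex.exp (Complex.I * ((c * (Real.pi * s) : ℝ) : ℂ))) / 2

theorem dyLam_zero (c : ℝ) : dyLam c 0 = 0 := by
  unfold dyLam; simp

theorem dyLam_one {c : ℝ} (hc : c = 1 ∨ c = -1) : dyLam c 1 = 1 := by
  unfold dyLam
  rcases hc with h | h
  · rw [h]
    have : Complex.I * ((1 * (Real.pi * 1) : ℝ) : ℂ) = Real.pi * Complex.I := by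
      push_cast; ring
    rw [this, Complex.exp_pi_mul_I]; norm_num
  · rw [h]
    have : Complex.I * ((-1 * (Real.pi * 1) : ℝ) : ℂ) = -(Real.pi * Complex.I) := by
      push_cast; ring
    rw [this, Complex.exp_neg, Complex.exp_pi_mul_I]; norm_num

theorem norm_dyLam (c s : ℝ) : ‖dyLam c s‖ ≤ 1 := by
  unfold dyLam
  rw [norm_div]
  have h1 : ‖1 - Complex.exp (Complex.I * ((c * (Real.pi * s) : ℝ) : ℂ))‖ ≤ 1 + 1 := by
    refine (norm_sub_le _ _).trans ?_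
    rw [norm_one, mul_comm, Complex.norm_exp_ofReal_mul_I]
  have : ‖(2 : ℂ)‖ = 2 := by simp
  rw [this]
  linarith

theorem dyLam_lip {c : ℝ} (hc : c = 1 ∨ c = -1) (s s' : ℝ) :
    ‖dyLam c s - dyLam c s'‖ ≤ 2 * |s - s'| := by
  unfold dyLam
  have e : (1 - Complex.exp (Complex.I * ((c * (Real.pi * s) : ℝ) : ℂ))) / 2 -
      (1 - Complex.exp (Complex.I * ((c * (Real.pi * s') : ℝ) : ℂ))) / 2 =
      -(Complex.exp (Complex.I * ((c * (Real.pi * s') : ℝ) : ℂ)) *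
        (Complex.exp (Complex.I * ((c * (Real.pi * (s - s')) : ℝ) : ℂ)) - 1)) / 2 := by
    have : Complex.exp (Complex.I * ((c * (Real.pi * s') : ℝ) : ℂ)) *
        Complex.exp (Complex.I * ((c * (Real.pi * (s - s')) : ℝ) : ℂ)) =
        Complex.exp (Complex.I * ((c * (Real.pi * s) : ℝ) : ℂ)) := by
      rw [← Complex.exp_add]; congr 1; push_cast; ring
    rw [mul_sub, this]; ring
  rw [e, norm_div, norm_neg, norm_mul, mul_comm Complex.I, Complex.norm_exp_ofReal_mul_I, one_mul]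
  have h1 := Real.norm_exp_I_mul_ofReal_sub_one_le (x := c * (Real.pi * (s - s')))
  rw [Real.norm_eq_abs, abs_mul, abs_mul, abs_of_pos Real.pi_pos] at h1
  have h2 : |c| = 1 := by rcases hc with h | h <;> rw [h] <;> simp
  rw [h2, one_mul] at h1
  have : ‖(2 : ℂ)‖ = 2 := by simp
  rw [this]
  have h3 := Real.pi_le_four
  have h4 : Real.pi * |s - s'| ≤ 4 * |s - s'| := mul_le_mul_of_nonneg_right h3 (abs_nonneg _)
  rw [div_le_iff₀ (by norm_num)]
  linarith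

theorem dyLam_mul (s : ℝ) : dyLam 1 s + dyLam (-1) s = 2 * (dyLam 1 s * dyLam (-1) s) := by
  unfold dyLam
  have : Complex.exp (Complex.I * ((1 * (Real.pi * s) : ℝ) : ℂ)) *
      Complex.exp (Complex.I * ((-1 * (Real.pi * s) : ℝ) : ℂ)) = 1 := by
    rw [← Complex.exp_add, ← Complex.exp_zero]; congr 1; push_cast; ring
  linear_combination (-(1:ℂ) / 2) * this

theorem dy_alg {R : Type*} [Ring R] [Algebra ℂ R] {T : R} (hT : T * T = 1) {z z' : ℂ}
    (h : z + z' = 2 * (z * z')) : (1 + z • (T - 1)) * (1 + z' • (T - 1)) = 1 := by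
  have h1 : (T - 1) * (T - 1) = (-2 : ℂ) • (T - 1) := by
    have : (T - 1) * (T - 1) = T * T - T - T + 1 := by noncomm_ring
    rw [this, hT]
    rw [neg_smul, two_smul]
    noncomm_ring
  have h2 : (1 + z • (T - 1)) * (1 + z' • (T - 1)) =
      1 + z • (T - 1) + z' • (T - 1) + (z * z') • ((T - 1) * (T - 1)) := by
    rw [mul_add, add_mul, add_mul, mul_one, one_mul, mul_one, smul_mul_smul_comm]
    abel
  rw [h2, h1, smul_smul, add_assoc, add_assoc, ← add_smul, ← add_smul]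
  have : z + (z' + z * z' * -2) = 0 := by linear_combination h
  rw [this, zero_smul, add_zero]

open Classical in
/-- The involution relating two successive shifts. -/
def swapVal (k : ℕ) (t : ℚ) : ℚ :=
  if IsDy k t then t + 1 / 2 ^ (k + 1)
  else if IsDy k (t - 1 / 2 ^ (k + 1)) then t - 1 / 2 ^ (k + 1) else t

theorem dy_half (k : ℕ) : (1 : ℚ) / 2 ^ (k + 1) + 1 / 2 ^ (k + 1) = 1 / 2 ^ k := by
  rw [pow_succ]; field_simp; norm_num

theorem not_isDy_half {k : ℕ} {t : ℚ} (h : IsDy k t) : ¬ IsDy k (t + 1 / 2 ^ (k + 1)) := by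
  rintro ⟨w, hw⟩
  obtain ⟨z, hz⟩ := h
  have h2 := (dy_two k).ne'
  have h3 : (1 : ℚ) / 2 ^ (k + 1) * 2 ^ k = 1 / 2 := by rw [pow_succ]; field_simp
  rw [add_mul, hz, h3] at hw
  have h4 : (2 * z + 1 : ℚ) = 2 * w := by linarith
  have h5 : 2 * z + 1 = 2 * w := by exact_mod_cast h4
  omega

theorem isDy_half {k : ℕ} {t : ℚ} (h : IsDy (k + 1) t) :
    IsDy k t ∨ IsDy k (t - 1 / 2 ^ (k + 1)) := by
  obtain ⟨z, hz⟩ := h
  have h2 := (dy_two k).ne'
  have h3 : (1 : ℚ) / 2 ^ (k + 1) * 2 ^ k = 1 / 2 := by rw [pow_succ]; field_simp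
  rcases Int.even_or_odd z with ⟨w, hw⟩ | ⟨w, hw⟩
  · left
    refine ⟨w, ?_⟩
    rw [hw] at hz
    push_cast at hz
    rw [pow_succ] at hz
    linarith
  · right
    refine ⟨w, ?_⟩
    rw [hw] at hz
    push_cast at hz
    rw [pow_succ] at hz
    rw [sub_mul, h3]
    linarith

theorem swapVal_mem {N k : ℕ} {t : ℚ} (h0 : 0 ≤ t) (h1 : t < N) :
    0 ≤ swapVal k t ∧ swapVal k t < N := by
  have hk0 : (0 : ℚ) < 1 / 2 ^ k := by positivity
  have hk1 : (0 : ℚ) < 1 / 2 ^ (k + 1) := by positivity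
  have hh := dy_half k
  unfold swapVal
  split_ifs with h2 h3
  · exact ⟨by positivity, by linarith [isDy_le h2 h1]⟩
  · refine ⟨?_, by linarith⟩
    by_contra hc
    push Not at hc
    have h4 := isDy_le (N := 0) h3 (by exact_mod_cast hc)
    push_cast at h4
    linarith
  · exact ⟨h0, h1⟩

theorem swap_swap (k : ℕ) (t : ℚ) : swapVal k (swapVal k t) = t := by
  by_cases h2 : IsDy k t
  · have e : swapVal k t = t + 1 / 2 ^ (k + 1) := by rw [swapVal, if_pos h2]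
    rw [e, swapVal, if_neg (not_isDy_half h2), add_sub_cancel_right, if_pos h2]
  · by_cases h3 : IsDy k (t - 1 / 2 ^ (k + 1))
    · have e : swapVal k t = t - 1 / 2 ^ (k + 1) := by rw [swapVal, if_neg h2, if_pos h3]
      rw [e, swapVal, if_pos h3, sub_add_cancel]
    · have e : swapVal k t = t := by rw [swapVal, if_neg h2, if_neg h3]
      rw [e, e]

theorem step_swap {N k : ℕ} {t : ℚ} (h0 : 0 ≤ t) (h1 : t < N) :
    stepVal N k (swapVal k t) = stepVal N (k + 1) t := by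
  have hk0 : (0 : ℚ) < 1 / 2 ^ k := by positivity
  have hk1 : (0 : ℚ) < 1 / 2 ^ (k + 1) := by positivity
  have hh := dy_half k
  by_cases h2 : IsDy k t
  · have e : swapVal k t = t + 1 / 2 ^ (k + 1) := by rw [swapVal, if_pos h2]
    rw [e, stepVal, if_neg (not_isDy_half h2), stepVal, if_pos (isDy_succ h2),
      if_pos (by linarith [isDy_le h2 h1])]
  · by_cases h3 : IsDy k (t - 1 / 2 ^ (k + 1))
    · have e : swapVal k t = t - 1 / 2 ^ (k + 1) := by rw [swapVal, if_neg h2, if_pos h3]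
      have h4 : IsDy (k + 1) t := by
        have := isDy_add (isDy_succ h3)
        rwa [sub_add_cancel] at this
      have e2 : t - 1 / 2 ^ (k + 1) + 1 / 2 ^ k = t + 1 / 2 ^ (k + 1) := by linarith
      rw [e, stepVal, if_pos h3, stepVal, if_pos h4, e2]
    · have e : swapVal k t = t := by rw [swapVal, if_neg h2, if_neg h3]
      have h4 : ¬ IsDy (k + 1) t := fun h => (isDy_half h).elim h2 h3
      rw [e, stepVal, if_neg h2, stepVal, if_neg h4]

theorem exists_swap (N : ℕ → ℕ) (hN : ∀ n, 1 ≤ N n) (k : ℕ) :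
    ∃ τ : Equiv.Perm (Dy N), τ * τ = 1 ∧ dyPerm N hN (k + 1) = dyPerm N hN k * τ := by
  have hinv : ∀ a : Dy N, (⟨a.1, swapVal k (swapVal k a.2),
      swapVal_mem (swapVal_mem a.2.2.1 a.2.2.2).1 (swapVal_mem a.2.2.1 a.2.2.2).2⟩ : Dy N) = a :=
    fun a => dy_ext rfl (swap_swap k a.2)
  refine ⟨⟨fun a => ⟨a.1, swapVal k a.2, swapVal_mem a.2.2.1 a.2.2.2⟩,
    fun a => ⟨a.1, swapVal k a.2, swapVal_mem a.2.2.1 a.2.2.2⟩, hinv, hinv⟩, ?_, ?_⟩
  · ext1 a
    exact hinv a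
  · ext1 a
    apply dy_ext
    · rw [dyPerm_fst, Equiv.Perm.mul_apply, dyPerm_fst]
      rfl
    · rw [dyPerm_snd, Equiv.Perm.mul_apply, dyPerm_snd]
      exact (step_swap a.2.2.1 a.2.2.2).symm

/-- what a nonzero entry means -/
theorem dy_entry (N : ℕ → ℕ) (hN : ∀ n, 1 ≤ N n) (k : ℕ) (x y : Dy N)
    (h : (x = y ∨ x = dyPerm N hN k y ∨ x = dyPerm N hN (k + 1) y) ∧
      (dyPerm N hN k y ≠ y ∨ dyPerm N hN (k + 1) y ≠ y)) :
    x.1 = y.1 ∧ IsDy (k + 1) x.2 ∧ IsDy (k + 1) y.2 ∧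
      ∃ m : ℤ, |(x.2 : ℚ) - y.2 + m * N x.1| ≤ 2 / 2 ^ k := by
  have hk0 : (0 : ℚ) < 1 / 2 ^ k := by positivity
  have hk1 : (0 : ℚ) < 1 / 2 ^ (k + 1) := by positivity
  have hh := dy_half k
  have h22 : (2 : ℚ) / 2 ^ k = 1 / 2 ^ k + 1 / 2 ^ k := by ring
  obtain ⟨h1, h2⟩ := h
  have hy : IsDy (k + 1) y.2 := by
    by_contra hc
    rcases h2 with h2 | h2
    · apply h2
      apply dy_ext (dyPerm_fst N hN k y)
      rw [dyPerm_snd, stepVal, if_neg (fun h => hc (isDy_succ h))]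
    · apply h2
      apply dy_ext (dyPerm_fst N hN (k + 1) y)
      rw [dyPerm_snd, stepVal, if_neg hc]
  -- general fact on one step
  have key : ∀ j, (j = k ∨ j = k + 1) → x = dyPerm N hN j y → x.1 = y.1 ∧ IsDy (k + 1) x.2 ∧
      ∃ m : ℤ, |(x.2 : ℚ) - y.2 + m * N x.1| ≤ 2 / 2 ^ k := by
    intro j hj hx
    have e1 : x.1 = y.1 := by rw [hx]; exact dyPerm_fst N hN j y
    have e2 : (x.2 : ℚ) = stepVal (N y.1) j y.2 := by rw [hx]; exact dyPerm_snd N hN j y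
    have hj1 : (1 : ℚ) / 2 ^ j ≤ 1 / 2 ^ k := by
      rcases hj with rfl | rfl
      · exact le_rfl
      · linarith
    have hj0 : (0 : ℚ) < 1 / 2 ^ j := by positivity
    refine ⟨e1, ?_, ?_⟩
    · rw [e2]
      unfold stepVal
      split_ifs with h3 h4
      · rcases hj with rfl | rfl
        · exact isDy_succ (isDy_add h3)
        · exact isDy_add h3
      · exact isDy_zero _
      · exact hy
    · have hNe : ((N x.1 : ℕ) : ℚ) = (N y.1 : ℕ) := by rw [e1]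
      suffices hs : ∃ m : ℤ, |stepVal (N y.1) j y.2 - y.2 + m * N y.1| ≤ 2 / 2 ^ k by
        obtain ⟨m, hm⟩ := hs
        refine ⟨m, ?_⟩
        have e3 : (x.2 : ℚ) - y.2 + m * N x.1 = stepVal (N y.1) j y.2 - y.2 + m * N y.1 := by
          linear_combination e2 + m * hNe
        rw [e3]
        exact hm
      unfold stepVal
      split_ifs with h3 h4
      · refine ⟨0, ?_⟩
        rw [show (y.2 : ℚ) + 1 / 2 ^ j - y.2 + ((0 : ℤ) : ℚ) * N y.1 = 1 / 2 ^ j by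
          push_cast; ring, abs_of_pos hj0]
        linarith
      · refine ⟨1, ?_⟩
        have h5 := isDy_le h3 y.2.2.2
        push Not at h4
        have h6 : (y.2 : ℚ) + 1 / 2 ^ j = N y.1 := le_antisymm h5 h4
        rw [show (0 : ℚ) - y.2 + ((1 : ℤ) : ℚ) * N y.1 = 1 / 2 ^ j by
          push_cast; linarith, abs_of_pos hj0]
        linarith
      · refine ⟨0, ?_⟩
        rw [show (y.2 : ℚ) - y.2 + ((0 : ℤ) : ℚ) * N y.1 = 0 by push_cast; ring, abs_zero]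
        positivity
  rcases h1 with h1 | h1 | h1
  · subst h1
    refine ⟨rfl, hy, hy, 0, ?_⟩
    rw [show (x.2 : ℚ) - x.2 + ((0 : ℤ) : ℚ) * N x.1 = 0 by push_cast; ring, abs_zero]
    positivity
  · obtain ⟨a1, a2, a3⟩ := key k (Or.inl rfl) h1
    exact ⟨a1, a2, hy, a3⟩
  · obtain ⟨a1, a2, a3⟩ := key (k + 1) (Or.inr rfl) h1
    exact ⟨a1, a2, hy, a3⟩

open Classical in
theorem dy_entry' (N : ℕ → ℕ) (hN : ∀ n, 1 ≤ N n) (k : ℕ) (x y : Dy N) (z : ℂ)
    (h : (1 - z) * (if x = dyPerm N hN k y then 1 else 0) +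
      z * (if x = dyPerm N hN (k + 1) y then 1 else 0) - (if x = y then 1 else 0) ≠ 0) :
    x.1 = y.1 ∧ IsDy (k + 1) x.2 ∧ IsDy (k + 1) y.2 ∧
      ∃ m : ℤ, |(x.2 : ℚ) - y.2 + m * N x.1| ≤ 2 / 2 ^ k := by
  apply dy_entry N hN k x y
  constructor
  · by_contra hc
    push Not at hc
    apply h
    rw [if_neg hc.1, if_neg hc.2.1, if_neg hc.2.2]
    ring
  · by_contra hc
    push Not at hc
    apply h
    rw [hc.1, hc.2]
    ring

theorem exists_dyPath (p : ℝ≥0∞) [Fact (1 ≤ p)] [Fact (p ≠ ∞)] (N : ℕ → ℕ) (hN : ∀ n, 1 ≤ N n) :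
    ∃ U V : ℝ≥0 →ᵇ Op p (Dy N),
      UniformContinuous U ∧ UniformContinuous V ∧
      (∀ t, (1 + U t) * (1 + V t) = 1 ∧ (1 + V t) * (1 + U t) = 1) ∧
      (∀ K : ℕ, U (K : ℝ≥0) = perm p (dyPerm N hN K) - 1) ∧
      (∀ (k : ℕ) (t : ℝ≥0), (k : ℝ≥0) ≤ t → t ≤ k + 1 → ∀ a b : Dy N,
        ent (U t) a b ≠ 0 ∨ ent (V t) a b ≠ 0 →
        a.1 = b.1 ∧ IsDy (k + 1) a.2 ∧ IsDy (k + 1) b.2 ∧
          ∃ m : ℤ, |(a.2 : ℚ) - b.2 + m * N a.1| ≤ 2 / 2 ^ k) := by
  classical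
  choose τ hτ hπ using exists_swap N hN
  have hT : ∀ k, perm p (τ k) * perm p (τ k) = 1 := by
    intro k; rw [← perm_mul, hτ, perm_one]
  have hP : ∀ k, perm p (dyPerm N hN k) * perm p (τ k) = perm p (dyPerm N hN (k + 1)) := by
    intro k; rw [← perm_mul, ← hπ]
  have hPi : ∀ k, perm p (τ k) * perm p (dyPerm N hN k)⁻¹ = perm p (dyPerm N hN (k + 1))⁻¹ := by
    intro k
    rw [← perm_mul, hπ, mul_inv_rev, inv_eq_of_mul_eq_one_right (hτ k)]
  have hone : ‖(1 : Op p (Dy N))‖ ≤ 1 := ContinuousLinearMap.norm_id_le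
  have hE : ∀ k, ‖perm p (τ k) - 1‖ ≤ 2 := by
    intro k
    have h1 := norm_perm_le (p := p) (τ k)
    calc _ ≤ _ := norm_sub_le _ _
      _ ≤ 1 + 1 := add_le_add h1 hone
      _ = 2 := by norm_num
  have hB : ∀ k (z : ℂ), ‖z‖ ≤ 1 → ‖1 + z • (perm p (τ k) - 1)‖ ≤ 3 := by
    intro k z hz
    have h1 : ‖z • (perm p (τ k) - 1)‖ ≤ 1 * 2 := by
      rw [norm_smul]; exact mul_le_mul hz (hE k) (norm_nonneg _) zero_le_one
    calc _ ≤ _ := norm_add_le _ _
      _ ≤ 1 + 1 * 2 := add_le_add hone h1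
      _ = 3 := by norm_num
  -- the path U
  obtain ⟨U, hU1, hU2⟩ := dy_glue
    (fun k s => perm p (dyPerm N hN k) * (1 + dyLam 1 s • (perm p (τ k) - 1)) - 1) 4 4 (by norm_num)
    (by
      intro k s s' _ _ _ _
      have e : perm p (dyPerm N hN k) * (1 + dyLam 1 s • (perm p (τ k) - 1)) - 1 -
          (perm p (dyPerm N hN k) * (1 + dyLam 1 s' • (perm p (τ k) - 1)) - 1) =
          perm p (dyPerm N hN k) * ((dyLam 1 s - dyLam 1 s') • (perm p (τ k) - 1)) := by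
        rw [sub_smul, mul_add, mul_add, mul_sub]; abel
      simp only [e]
      have h1 := norm_perm_le (p := p) (dyPerm N hN k)
      have h2 := dyLam_lip (Or.inl rfl : (1:ℝ) = 1 ∨ (1:ℝ) = -1) s s'
      calc _ ≤ _ := norm_mul_le _ _
        _ ≤ 1 * (2 * |s - s'| * 2) := by
            apply mul_le_mul h1 _ (norm_nonneg _) zero_le_one
            rw [norm_smul]
            exact mul_le_mul h2 (hE k) (norm_nonneg _) (by positivity)
        _ = _ := by ring)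
    (by
      intro k
      simp only [dyLam_one (Or.inl rfl : (1:ℝ) = 1 ∨ (1:ℝ) = -1), dyLam_zero, one_smul, zero_smul,
        add_zero, mul_one, add_sub_cancel, hP])
    (by
      intro k s _ _
      have h1 := norm_perm_le (p := p) (dyPerm N hN k)
      calc _ ≤ _ := norm_sub_le _ _
        _ ≤ 1 * 3 + 1 := by
            refine add_le_add ((norm_mul_le _ _).trans ?_) hone
            exact mul_le_mul h1 (hB k _ (norm_dyLam _ _)) (norm_nonneg _) zero_le_one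
        _ = 4 := by norm_num)
  obtain ⟨V, hV1, hV2⟩ := dy_glue
    (fun k s => (1 + dyLam (-1) s • (perm p (τ k) - 1)) * perm p (dyPerm N hN k)⁻¹ - 1) 4 4
    (by norm_num)
    (by
      intro k s s' _ _ _ _
      have e : (1 + dyLam (-1) s • (perm p (τ k) - 1)) * perm p (dyPerm N hN k)⁻¹ - 1 -
          ((1 + dyLam (-1) s' • (perm p (τ k) - 1)) * perm p (dyPerm N hN k)⁻¹ - 1) =
          ((dyLam (-1) s - dyLam (-1) s') • (perm p (τ k) - 1)) * perm p (dyPerm N hN k)⁻¹ := by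
        rw [sub_smul, add_mul, add_mul, sub_mul]; abel
      simp only [e]
      have h1 := norm_perm_le (p := p) (dyPerm N hN k)⁻¹
      have h2 := dyLam_lip (Or.inr rfl : (-1:ℝ) = 1 ∨ (-1:ℝ) = -1) s s'
      calc _ ≤ _ := norm_mul_le _ _
        _ ≤ (2 * |s - s'| * 2) * 1 := by
            refine mul_le_mul ?_ h1 (norm_nonneg _) (by positivity)
            rw [norm_smul]
            exact mul_le_mul h2 (hE k) (norm_nonneg _) (by positivity)
        _ = _ := by ring)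
    (by
      intro k
      simp only [dyLam_one (Or.inr rfl : (-1:ℝ) = 1 ∨ (-1:ℝ) = -1), dyLam_zero, one_smul,
        zero_smul, add_zero, one_mul, add_sub_cancel, hPi])
    (by
      intro k s _ _
      have h1 := norm_perm_le (p := p) (dyPerm N hN k)⁻¹
      calc _ ≤ _ := norm_sub_le _ _
        _ ≤ 3 * 1 + 1 := by
            refine add_le_add ((norm_mul_le _ _).trans ?_) hone
            exact mul_le_mul (hB k _ (norm_dyLam _ _)) h1 (norm_nonneg _) (by norm_num)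
        _ = 4 := by norm_num)
  have hPP : ∀ k, perm p (dyPerm N hN k) * perm p (dyPerm N hN k)⁻¹ = 1 := by
    intro k; rw [← perm_mul, mul_inv_cancel, perm_one]
  have hPP' : ∀ k, perm p (dyPerm N hN k)⁻¹ * perm p (dyPerm N hN k) = 1 := by
    intro k; rw [← perm_mul, inv_mul_cancel, perm_one]
  refine ⟨U, V, hU1, hV1, ?_, ?_, ?_⟩
  · intro t
    have a1 : ((⌊t⌋₊ : ℕ) : ℝ≥0) ≤ t := Nat.floor_le (zero_le)
    have a2 : t ≤ ⌊t⌋₊ + 1 := (Nat.lt_floor_add_one t).le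
    rw [hU2 _ t a1 a2, hV2 _ t a1 a2]
    set k := ⌊t⌋₊
    set s : ℝ := (t : ℝ) - k
    have q1 := dy_alg (hT k) (dyLam_mul s)
    have q2 := dy_alg (hT k) (z := dyLam (-1) s) (z' := dyLam 1 s)
      (by have := dyLam_mul s; linear_combination this)
    rw [add_sub_cancel, add_sub_cancel]
    constructor
    · rw [mul_assoc, ← mul_assoc (1 + dyLam 1 s • (perm p (τ k) - 1)), q1, one_mul, hPP]
    · rw [mul_assoc, ← mul_assoc (perm p (dyPerm N hN k)⁻¹), hPP', one_mul, q2]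
  · intro K
    rw [hU2 K (K : ℝ≥0) le_rfl (by simp)]
    simp [dyLam_zero]
  · intro k t h1 h2 a b hab
    rcases hab with h | h
    · rw [hU2 k t h1 h2] at h
      refine dy_entry' N hN k a b (dyLam 1 ((t : ℝ) - k)) ?_
      convert h using 1
      have e : perm p (dyPerm N hN k) * (1 + dyLam 1 ((t : ℝ) - k) • (perm p (τ k) - 1)) - 1 =
          (1 - dyLam 1 ((t : ℝ) - k)) • perm p (dyPerm N hN k) +
            dyLam 1 ((t : ℝ) - k) • perm p (dyPerm N hN (k + 1)) - 1 := by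
        rw [mul_add, mul_one, mul_smul_comm, mul_sub, mul_one, hP, smul_sub, sub_smul, one_smul]
        abel
      rw [e, ent_sub, ent_add, ent_smul, ent_smul, ent_perm, ent_perm, ent_one]
    · rw [hV2 k t h1 h2] at h
      have key := dy_entry' N hN k b a (dyLam (-1) ((t : ℝ) - k)) ?_
      · obtain ⟨c1, c2, c3, m, hm⟩ := key
        refine ⟨c1.symm, c3, c2, -m, ?_⟩
        have hNe : ((N b.1 : ℕ) : ℚ) = (N a.1 : ℕ) := by rw [c1]
        have e3 : (a.2 : ℚ) - b.2 + ((-m : ℤ) : ℚ) * N a.1 = -((b.2 : ℚ) - a.2 + m * N b.1) := by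
          push_cast
          linear_combination m * hNe
        rw [e3, abs_neg]
        exact hm
      · convert h using 1
        have e : (1 + dyLam (-1) ((t : ℝ) - k) • (perm p (τ k) - 1)) *
            perm p (dyPerm N hN k)⁻¹ - 1 =
            (1 - dyLam (-1) ((t : ℝ) - k)) • perm p (dyPerm N hN k)⁻¹ +
              dyLam (-1) ((t : ℝ) - k) • perm p (dyPerm N hN (k + 1))⁻¹ - 1 := by
          rw [add_mul, one_mul, smul_mul_assoc, sub_mul, one_mul, hPi, smul_sub, sub_smul, one_smul]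
          abel
        have e2 : ∀ σ : Equiv.Perm (Dy N), (a = σ⁻¹ b ↔ b = σ a) := by
          intro σ
          rw [Equiv.Perm.eq_inv_iff_eq]
          exact eq_comm
        rw [e, ent_sub, ent_add, ent_smul, ent_smul, ent_perm, ent_perm, ent_one]
        simp only [e2, eq_comm (a := a) (b := b)]

/-- The path `U` of `exists_dyPath`. -/
def dyU (p : ℝ≥0∞) [Fact (1 ≤ p)] [Fact (p ≠ ∞)] (N : ℕ → ℕ) (hN : ∀ n, 1 ≤ N n) :
    ℝ≥0 →ᵇ Op p (Dy N) := (exists_dyPath p N hN).choose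

/-- The path `V` of `exists_dyPath`. -/
def dyV (p : ℝ≥0∞) [Fact (1 ≤ p)] [Fact (p ≠ ∞)] (N : ℕ → ℕ) (hN : ∀ n, 1 ≤ N n) :
    ℝ≥0 →ᵇ Op p (Dy N) := (exists_dyPath p N hN).choose_spec.choose

theorem dyUV_spec (p : ℝ≥0∞) [Fact (1 ≤ p)] [Fact (p ≠ ∞)] (N : ℕ → ℕ) (hN : ∀ n, 1 ≤ N n) :
    UniformContinuous (dyU p N hN) ∧ UniformContinuous (dyV p N hN) ∧
      (∀ t, (1 + dyU p N hN t) * (1 + dyV p N hN t) = 1 ∧
        (1 + dyV p N hN t) * (1 + dyU p N hN t) = 1) ∧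
      (∀ K : ℕ, dyU p N hN (K : ℝ≥0) = perm p (dyPerm N hN K) - 1) ∧
      (∀ (k : ℕ) (t : ℝ≥0), (k : ℝ≥0) ≤ t → t ≤ k + 1 → ∀ a b : Dy N,
        ent (dyU p N hN t) a b ≠ 0 ∨ ent (dyV p N hN t) a b ≠ 0 →
        a.1 = b.1 ∧ IsDy (k + 1) a.2 ∧ IsDy (k + 1) b.2 ∧
          ∃ m : ℤ, |(a.2 : ℚ) - b.2 + m * N a.1| ≤ 2 / 2 ^ k) :=
  (exists_dyPath p N hN).choose_spec.choose_spec

end

end Pool.Agent.H368.NV
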