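import Pool.Agent.H368.NV.Base
import Pool.Agent.H368.NV.Blk

/-!
# Models: operators of finite propagation

PROOF SKETCH of `kill_model`. Write `N = (G n).N`, `L = L n`, `Lv = Fin (L + 1) × Fin 2`. The index set is
`J = Σ n, A n` with `A n = H n × (ZMod N × (Fin (L + 1) × Fin 2))`, `pr (n, (x, j, i, s)) = loc n x j i`, and
`co (n, j) = (n, (x0 n, j, last, 1))`. All operators are block diagonal operators `blk p M` with
`M n = X ⊗ₖ (c ⊗ₖ τ)`, `X` a matrix over `H n`, `c` over `ZMod N`, `τ` over `Lv`; products are computed by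
`Matrix.mul_kronecker_mul` and `blk_mul`, bounds by `MBd.kron`. Let `C` be the permutation matrix of `j ↦ j + 1`
(`C j j' = 1` iff `j = j' + 1`), `R₁, R₂` those of `j ↦ 1 - j` and `j ↦ -j` (so `C = R₁ R₂`), `E s s'` the matrix units of
`Fin 2`, `χ` diagonal matrices on the levels, `D i i' = 1` iff `i' = i + 1` (`D Dᵀ = χ_{<L}`, `Dᵀ D = χ_{>0}`), `P = avg`,
`p0` the matrix unit at `x0 n`, `a, a'` the matrices of `MBd.toPoint`, `MBd.fromPoint` (`a a' = p0`, `a' a = P`).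
Apply `killing` with `B = fpc p G pr`, and
* `T = 1 ⊗ C ⊗ 1`, `T' = 1 ⊗ Cᵀ ⊗ 1`, `ρ₁ = 1 ⊗ R₁ ⊗ 1`, `ρ₂ = 1 ⊗ R₂ ⊗ 1`,
* `q2 = p0 ⊗ 1 ⊗ χ_L E 1 1`, `q3 = P ⊗ 1 ⊗ χ_L E 0 0`, `v = a ⊗ 1 ⊗ χ_L E 1 0`, `v' = a' ⊗ 1 ⊗ χ_L E 0 1`,
* `q4 = P ⊗ 1 ⊗ χ_{<L} E 0 0`, `q5 = P ⊗ 1 ⊗ χ_{>0} E 1 1`, with `v = P ⊗ 1 ⊗ D E 0 1`, `v' = P ⊗ 1 ⊗ Dᵀ E 1 0`,
* `q6 = P ⊗ 1 ⊗ χ_{>0} E 0 0`, with `v = P ⊗ 1 ⊗ χ_{>0} E 1 0`, `v' = P ⊗ 1 ⊗ χ_{>0} E 0 1`,
* `q7 = P ⊗ 1 ⊗ χ_0 E 0 0`.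
The result is `1 + q2 (T - 1) ~ 1`, and `q2 (T - 1) = push co (perm rot - 1)` (entries).
Memberships in `fpc`: it suffices that for every `ε > 0` there are `r` and a block diagonal operator with
entries supported on `Wk G r` at distance `≤ ε`.
(m1) `P ⊗ 1 ⊗ τ` with `τ` supported on pairs of levels with `|i - i'| ≤ 1` : use `A ⊗ 1 ⊗ τ`, `A` from `approxP`,
  with walks `(x,j,i) → (x',j,i) → (x',j,i')`.
(m2) `P ⊗ C ⊗ τ`, `P ⊗ Cᵀ ⊗ τ` : use the matrices `A n j` of `approxT`, `approxT'`; the difference is, up to the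
  factor `τ`, a block permutation matrix with blocks of norm `≤ ε`, so it has norm `≤ ε`.
(m3) `X ⊗ c ⊗ τ` with `τ` supported on the top level, `c ∈ {1, C, Cᵀ}` : finite propagation by `top`, `circTop`.
(m4) `P ⊗ R ⊗ χ_0 E 0 0`, `R ∈ {R₁, R₂}` : use `A ⊗ R ⊗ χ_0 E 0 0` and `bot`.
`fpc` is closed under linear combinations (`isClosedSub_fpc`).
-/

set_option autoImplicit false
set_option linter.unusedVariables false

namespace Pool.Agent.H368.NV

open scoped ENNReal NNReal Topology Kronecker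
open Filter Matrix

noncomputable section

variable {p : ℝ≥0∞} [hp1 : Fact (1 ≤ p)] [hpt : Fact (p ≠ ∞)]

instance LGraph.neZero (G : LGraph) : NeZero G.N := ⟨by have := G.one_le; omega⟩

/-- The matrix of the averaging operator. -/
def avg (A : Type) [Fintype A] : Matrix A A ℂ := fun _ _ => (1 / Fintype.card A : ℂ)

/-- Sets `H n × ZMod (N n) × {0, …, L n}` over the vertex sets of a sequence of labelled graphs, such that
the averaging operators of `H n` and their products with the shift in the direction of `ZMod (N n)`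
are uniformly approximable by operators with finite propagation. -/
structure Model (p : ℝ≥0∞) [Fact (1 ≤ p)] [Fact (p ≠ ∞)] (G : ℕ → LGraph) where
  /-- the fibres -/
  H : ℕ → Type
  fintype : ∀ n, Fintype (H n)
  decEq : ∀ n, DecidableEq (H n)
  nonempty : ∀ n, Nonempty (H n)
  /-- the number of levels -/
  L : ℕ → ℕ
  /-- the positions -/
  loc : ∀ n, H n → ZMod (G n).N → Fin (L n + 1) → (G n).V
  /-- the base points -/
  x0 : ∀ n, H n
  loc_core : ∀ n (j : ℤ), loc n (x0 n) (j : ZMod (G n).N) (Fin.last _) = (G n).core j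
  /-- a bound for the lengths of walks -/
  r0 : ℕ
  lvl : ∀ n x j (i : Fin (L n)),
    Wk G r0 (⟨n, loc n x j i.castSucc⟩ : Sp G) (⟨n, loc n x j i.succ⟩ : Sp G)
  bot : ∀ n x j j', Wk G r0 (⟨n, loc n x j 0⟩ : Sp G) (⟨n, loc n x j' 0⟩ : Sp G)
  top : ∀ n x x' j, Wk G r0 (⟨n, loc n x j (Fin.last _)⟩ : Sp G)
    (⟨n, loc n x' j (Fin.last _)⟩ : Sp G)
  circTop : ∀ n x j, Wk G r0 (⟨n, loc n x j (Fin.last _)⟩ : Sp G)
    (⟨n, loc n x (j + 1) (Fin.last _)⟩ : Sp G)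
  approxP : ∀ ε : ℝ, 0 < ε → ∃ (r : ℕ) (A : ∀ n, Matrix (H n) (H n) ℂ),
    (∀ n, MBd p (A n - avg (H n)) ε) ∧
    ∀ n x x', A n x x' ≠ 0 → ∀ j i, Wk G r (⟨n, loc n x j i⟩ : Sp G) (⟨n, loc n x' j i⟩ : Sp G)
  approxT : ∀ ε : ℝ, 0 < ε → ∃ (r : ℕ) (A : ∀ n, ZMod (G n).N → Matrix (H n) (H n) ℂ),
    (∀ n j, MBd p (A n j - avg (H n)) ε) ∧
    ∀ n j x x', A n j x x' ≠ 0 → ∀ i,
      Wk G r (⟨n, loc n x (j + 1) i⟩ : Sp G) (⟨n, loc n x' j i⟩ : Sp G)
  approxT' : ∀ ε : ℝ, 0 < ε → ∃ (r : ℕ) (A : ∀ n, ZMod (G n).N → Matrix (H n) (H n) ℂ),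
    (∀ n j, MBd p (A n j - avg (H n)) ε) ∧
    ∀ n j x x', A n j x x' ≠ 0 → ∀ i,
      Wk G r (⟨n, loc n x j i⟩ : Sp G) (⟨n, loc n x' (j + 1) i⟩ : Sp G)

/-! ### Auxiliary lemmas on walks -/

theorem wkm_refl {G : ℕ → LGraph} (r : ℕ) (a : Sp G) : Wk G r a a :=
  ⟨a.1, a.2, a.2, 0, rfl, rfl, LGraph.Walk.refl r a.2⟩

theorem wkm_symm {G : ℕ → LGraph} {r : ℕ} {a b : Sp G} (h : Wk G r a b) : Wk G r b a := by
  obtain ⟨n, v, w, κ, h1, h2, h3⟩ := h
  exact ⟨n, w, v, -κ, h2, h1, h3.reverse⟩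

theorem wkm_trans {G : ℕ → LGraph} {r s : ℕ} {a b c : Sp G} (h : Wk G r a b)
    (h' : Wk G s b c) : Wk G (r + s) a c := by
  obtain ⟨n, v, w, κ, h1, h2, h3⟩ := h
  obtain ⟨n', v', w', κ', h2', h4, h3'⟩ := h'
  rw [h2] at h2'
  obtain ⟨rfl, h5⟩ := Sigma.mk.inj_iff.1 h2'
  obtain rfl := eq_of_heq h5
  exact ⟨n, v, w', κ + κ', h1, h4, h3.append h3'⟩

theorem wkm_mono {G : ℕ → LGraph} {r s : ℕ} {a b : Sp G} (h : Wk G r a b) (hrs : r ≤ s) :
    Wk G s a b := by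
  obtain ⟨n, v, w, κ, h1, h2, h3⟩ := h
  exact ⟨n, v, w, κ, h1, h2, h3.mono hrs⟩

/-! ### Auxiliary lemmas on norms of matrices -/

omit hp1 hpt in
theorem km_submatrix {A B : Type} [Fintype A] [Fintype B] {M : Matrix A A ℂ} {C : ℝ}
    (h : MBd p M C) (e : B ≃ A) : MBd p (M.submatrix e e) C := by
  refine ⟨h.1, fun f => ?_⟩
  have h2 := h.2 (fun a => f (e.symm a))
  have h3 : ∀ a, ∑ b, M a (e b) * f b = ∑ b, M a b * f (e.symm b) := by
    intro a
    rw [← Equiv.sum_comp e (fun b => M a b * f (e.symm b))]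
    simp
  have h4 : ∑ a, ‖∑ b, M.submatrix e e a b * f b‖ ^ p.toReal =
      ∑ a, ‖∑ b, M a b * f (e.symm b)‖ ^ p.toReal := by
    rw [← Equiv.sum_comp e (fun a => ‖∑ b, M a b * f (e.symm b)‖ ^ p.toReal)]
    refine Finset.sum_congr rfl fun a _ => ?_
    simp only [Matrix.submatrix_apply]
    rw [h3]
  have h5 : ∑ a, ‖f (e.symm a)‖ ^ p.toReal = ∑ a, ‖f a‖ ^ p.toReal :=
    Equiv.sum_comp e.symm (fun a => ‖f a‖ ^ p.toReal)
  rw [h4, ← h5]
  exact h2

/-- A block permutation matrix. -/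
def kmBlockPerm {A J : Type} [DecidableEq J] (σ : Equiv.Perm J) (B : J → Matrix A A ℂ) :
    Matrix (A × J) (A × J) ℂ :=
  fun a b => if a.2 = σ b.2 then B b.2 a.1 b.1 else 0

omit hp1 hpt in
theorem km_blockPerm {A J : Type} [Fintype A] [Fintype J] [DecidableEq J]
    (σ : Equiv.Perm J) {B : J → Matrix A A ℂ} {C : ℝ} (hC : 0 ≤ C) (h : ∀ j, MBd p (B j) C) :
    MBd p (kmBlockPerm σ B) C := by
  refine ⟨hC, fun f => ?_⟩
  have h1 : ∀ (x : A) (j : J), ∑ b, kmBlockPerm σ B (x, j) b * f b =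
      ∑ x', B (σ.symm j) x x' * f (x', σ.symm j) := by
    intro x j
    rw [Fintype.sum_prod_type]
    refine Finset.sum_congr rfl fun x' _ => ?_
    rw [Finset.sum_eq_single (σ.symm j)]
    · simp [kmBlockPerm]
    · intro j' _ hj'
      have : ¬ j = σ j' := fun h => hj' (by rw [h]; simp)
      simp [kmBlockPerm, this]
    · intro hj
      exact absurd (Finset.mem_univ _) hj
  calc ∑ a, ‖∑ b, kmBlockPerm σ B a b * f b‖ ^ p.toReal
      = ∑ j, ∑ x, ‖∑ x', B (σ.symm j) x x' * f (x', σ.symm j)‖ ^ p.toReal := by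
        rw [Fintype.sum_prod_type_right]
        refine Finset.sum_congr rfl fun j _ => Finset.sum_congr rfl fun x _ => ?_
        rw [h1]
    _ = ∑ j, ∑ x, ‖∑ x', B j x x' * f (x', j)‖ ^ p.toReal :=
        Equiv.sum_comp σ.symm (fun j => ∑ x, ‖∑ x', B j x x' * f (x', j)‖ ^ p.toReal)
    _ ≤ ∑ j, C ^ p.toReal * ∑ x, ‖f (x, j)‖ ^ p.toReal :=
        Finset.sum_le_sum fun j _ => (h j).2 (fun x => f (x, j))
    _ = C ^ p.toReal * ∑ a, ‖f a‖ ^ p.toReal := by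
        rw [← Finset.mul_sum, Fintype.sum_prod_type_right]

/-- A block permutation matrix tensored with a matrix. -/
theorem km_blockPerm_kron {A J L : Type} [Fintype A] [Fintype J] [DecidableEq J] [Fintype L]
    (σ : Equiv.Perm J) {B : J → Matrix A A ℂ} {C : ℝ} (hC : 0 ≤ C) (h : ∀ j, MBd p (B j) C)
    {τ : Matrix L L ℂ} (hτ : MBd p τ 1) :
    MBd p (fun a b : A × (J × L) => if a.2.1 = σ b.2.1 then
      B b.2.1 a.1 b.1 * τ a.2.2 b.2.2 else 0) C := by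
  have h1 := km_submatrix ((km_blockPerm σ hC h).kron hτ) (Equiv.prodAssoc A J L).symm
  rw [mul_one] at h1
  have h2 : ((kmBlockPerm σ B) ⊗ₖ τ).submatrix (Equiv.prodAssoc A J L).symm
      (Equiv.prodAssoc A J L).symm = (fun a b : A × (J × L) => if a.2.1 = σ b.2.1 then
      B b.2.1 a.1 b.1 * τ a.2.2 b.2.2 else 0) := by
    funext a b
    obtain ⟨x, j, l⟩ := a
    obtain ⟨x', j', l'⟩ := b
    simp only [Matrix.submatrix_apply, Equiv.prodAssoc_symm_apply, Matrix.kroneckerMap_apply,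
      kmBlockPerm]
    split_ifs <;> simp
  rw [h2] at h1
  exact h1

/-! ### Operators on the index set of a model -/

namespace Model

attribute [instance] Model.fintype Model.decEq Model.nonempty

variable {G : ℕ → LGraph} (m : Model p G)

/-- The levels, with two slots. -/
abbrev Lv (n : ℕ) : Type := Fin (m.L n + 1) × Fin 2

/-- The index set of the `n`-th block. -/
abbrev A (n : ℕ) : Type := m.H n × (ZMod (G n).N × m.Lv n)

/-- The index set. -/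
abbrev J : Type := Σ n, m.A n

/-- The map of the index set to the space. -/
def pr (a : m.J) : Sp G := ⟨a.1, m.loc a.1 a.2.1 a.2.2.1 a.2.2.2.1⟩

/-- The block diagonal operator with blocks `X n ⊗ c n ⊗ τ n`. -/
def op (X : ∀ n, Matrix (m.H n) (m.H n) ℂ) (c : ∀ n, Matrix (ZMod (G n).N) (ZMod (G n).N) ℂ)
    (τ : ∀ n, Matrix (m.Lv n) (m.Lv n) ℂ) : Op p m.J :=
  blk p fun n => X n ⊗ₖ (c n ⊗ₖ τ n)

/-- The matrix of `j ↦ j + 1`. -/
def shift (G : ℕ → LGraph) (n : ℕ) : Matrix (ZMod (G n).N) (ZMod (G n).N) ℂ :=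
  fun j j' => if j = j' + 1 then 1 else 0

theorem mbd_shift (n : ℕ) : MBd p (shift G n) 1 ∧ MBd p (shift G n)ᵀ 1 := by
  have key : ∀ a b, shift G n a b ≠ 0 → a = b + 1 := by
    intro a b h
    by_contra h2
    exact h (by simp [shift, h2])
  constructor
  · refine MBd.partialPerm ?_ ?_ ?_
    · intro a b
      unfold shift
      split_ifs
      · exact Or.inr rfl
      · exact Or.inl rfl
    · intro a b b' h h'
      have h1 := key _ _ h
      have h2 := key _ _ h'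
      exact add_right_cancel (h1.symm.trans h2)
    · intro a a' b h h'
      exact (key _ _ h).trans (key _ _ h').symm
  · refine MBd.partialPerm ?_ ?_ ?_
    · intro a b
      rw [Matrix.transpose_apply]
      unfold shift
      split_ifs
      · exact Or.inr rfl
      · exact Or.inl rfl
    · intro a b b' h h'
      rw [Matrix.transpose_apply] at h h'
      exact (key _ _ h).trans (key _ _ h').symm
    · intro a a' b h h'
      rw [Matrix.transpose_apply] at h h'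
      have h1 := key _ _ h
      have h2 := key _ _ h'
      exact add_right_cancel (h1.symm.trans h2)

/-- An operator which can be approximated by block diagonal operators of finite propagation is in
`fpc`. -/
theorem mem_fpc_of_approx (M : ∀ n, Matrix (m.A n) (m.A n) ℂ) {C : ℝ}
    (hM : ∀ n, MBd p (M n) C)
    (h : ∀ ε : ℝ, 0 < ε → ∃ (r : ℕ) (M' : ∀ n, Matrix (m.A n) (m.A n) ℂ),
      (∀ n, MBd p (M' n - M n) ε) ∧
      ∀ n a b, M' n a b ≠ 0 → Wk G r (m.pr ⟨n, a⟩) (m.pr ⟨n, b⟩)) :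
    blk p M ∈ fpc p G m.pr := by
  unfold fpc
  rw [Metric.mem_closure_iff]
  intro ε hε
  obtain ⟨r, M', h1, h2⟩ := h (ε / 2) (half_pos hε)
  have hM' : ∀ n, MBd p (M' n) (ε / 2 + C) := fun n => by
    have := (h1 n).add (hM n)
    rwa [sub_add_cancel] at this
  refine ⟨blk p M', ⟨r, ?_⟩, ?_⟩
  · rintro ⟨n, a⟩ ⟨n', b⟩ hab
    by_cases hn : n = n'
    · subst hn
      rw [ent_blk hM'] at hab
      exact h2 n a b hab
    · exact absurd (ent_blk_ne hM' _ _ hn) hab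
  · rw [dist_comm, dist_eq_norm, ← blk_sub hM' hM]
    exact lt_of_le_of_lt (norm_blk_le h1) (half_lt_self hε)

/-- Neighbouring levels are connected by short walks. -/
theorem km_wk_lvl (n : ℕ) (x : m.H n) (j : ZMod (G n).N) (i i' : Fin (m.L n + 1))
    (h1 : (i : ℕ) ≤ i' + 1) (h2 : (i' : ℕ) ≤ i + 1) :
    Wk G m.r0 (⟨n, m.loc n x j i⟩ : Sp G) (⟨n, m.loc n x j i'⟩ : Sp G) := by
  rcases lt_trichotomy (i : ℕ) (i' : ℕ) with h | h | h
  · have hi : (i : ℕ) < m.L n := by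
      have := i'.2
      omega
    have e1 : i = (⟨i, hi⟩ : Fin (m.L n)).castSucc := by
      ext; simp
    have e2 : i' = (⟨i, hi⟩ : Fin (m.L n)).succ := by
      ext; simp only [Fin.val_succ]; omega
    rw [e2]
    nth_rw 1 [e1]
    exact m.lvl n x j ⟨i, hi⟩
  · obtain rfl : i = i' := Fin.ext h
    exact wkm_refl _ _
  · have hi : (i' : ℕ) < m.L n := by
      have := i.2
      omega
    have e1 : i' = (⟨i', hi⟩ : Fin (m.L n)).castSucc := by
      ext; simp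
    have e2 : i = (⟨i', hi⟩ : Fin (m.L n)).succ := by
      ext; simp only [Fin.val_succ]; omega
    rw [e2]
    nth_rw 2 [e1]
    exact wkm_symm (m.lvl n x j ⟨i', hi⟩)

/-- The blocks of `op`. -/
theorem km_mbd_op {X : ∀ n, Matrix (m.H n) (m.H n) ℂ}
    {c : ∀ n, Matrix (ZMod (G n).N) (ZMod (G n).N) ℂ}
    {τ : ∀ n, Matrix (m.Lv n) (m.Lv n) ℂ} {C : ℝ} (hX : ∀ n, MBd p (X n) C)
    (hc : ∀ n, MBd p (c n) 1) (hτ : ∀ n, MBd p (τ n) 1) (n : ℕ) :
    MBd p (X n ⊗ₖ (c n ⊗ₖ τ n)) C := by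
  have h := (hX n).kron ((hc n).kron (hτ n))
  rwa [one_mul, mul_one] at h

theorem km_mbd_avg (n : ℕ) : MBd p (avg (m.H n)) 1 := MBd.avg

/-- `τ` connects only neighbouring levels. -/
def IsLocal (τ : ∀ n, Matrix (m.Lv n) (m.Lv n) ℂ) : Prop :=
  ∀ n a b, τ n a b ≠ 0 → (a.1 : ℕ) ≤ b.1 + 1 ∧ (b.1 : ℕ) ≤ a.1 + 1

theorem mem_avg_one (τ : ∀ n, Matrix (m.Lv n) (m.Lv n) ℂ) (hτ : ∀ n, MBd p (τ n) 1)
    (hl : m.IsLocal τ) : m.op (fun n => avg (m.H n)) (fun _ => 1) τ ∈ fpc p G m.pr := by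
  refine m.mem_fpc_of_approx _ (m.km_mbd_op (fun n => m.km_mbd_avg n) (fun _ => MBd.one) hτ) ?_
  intro ε hε
  obtain ⟨r, A, h1, h2⟩ := m.approxP ε hε
  refine ⟨r + m.r0, fun n => A n ⊗ₖ ((1 : Matrix (ZMod (G n).N) (ZMod (G n).N) ℂ) ⊗ₖ τ n),
    ?_, ?_⟩
  · intro n
    have h3 := m.km_mbd_op (X := fun n => A n - avg (m.H n)) h1 (fun _ => MBd.one) hτ n
    have h4 : A n ⊗ₖ ((1 : Matrix (ZMod (G n).N) (ZMod (G n).N) ℂ) ⊗ₖ τ n) -
        avg (m.H n) ⊗ₖ ((1 : Matrix (ZMod (G n).N) (ZMod (G n).N) ℂ) ⊗ₖ τ n) =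
        (A n - avg (m.H n)) ⊗ₖ ((1 : Matrix (ZMod (G n).N) (ZMod (G n).N) ℂ) ⊗ₖ τ n) := by
      ext a b
      simp only [Matrix.sub_apply, Matrix.kroneckerMap_apply]
      ring
    rw [h4]
    exact h3
  · rintro n ⟨x, j, i, s⟩ ⟨x', j', i', s'⟩ hab
    simp only [Matrix.kroneckerMap_apply] at hab
    have hA := left_ne_zero_of_mul hab
    have h5 := right_ne_zero_of_mul hab
    have h6 := left_ne_zero_of_mul h5
    have h7 := right_ne_zero_of_mul h5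
    have hj : j = j' := by
      by_contra hj
      exact h6 (Matrix.one_apply_ne hj)
    subst hj
    have h8 := hl n _ _ h7
    exact wkm_trans (h2 n x x' hA j i) (m.km_wk_lvl n x' j i i' h8.1 h8.2)

theorem mem_avg_shift (τ : ∀ n, Matrix (m.Lv n) (m.Lv n) ℂ) (hτ : ∀ n, MBd p (τ n) 1)
    (hl : m.IsLocal τ) : m.op (fun n => avg (m.H n)) (shift G) τ ∈ fpc p G m.pr := by
  refine m.mem_fpc_of_approx _ (m.km_mbd_op (fun n => m.km_mbd_avg n)
    (fun n => (mbd_shift (p := p) (G := G) n).1) hτ) ?_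
  intro ε hε
  obtain ⟨r, A, h1, h2⟩ := m.approxT ε hε
  refine ⟨r + m.r0, fun n a b => if a.2.1 = b.2.1 + 1 then
    A n b.2.1 a.1 b.1 * τ n a.2.2 b.2.2 else 0, ?_, ?_⟩
  · intro n
    have h3 := km_blockPerm_kron (Equiv.addRight (1 : ZMod (G n).N)) hε.le
      (B := fun j => A n j - avg (m.H n)) (h1 n) (hτ n)
    convert h3 using 1
    funext a b
    rw [Matrix.sub_apply]
    simp only [Matrix.kroneckerMap_apply, shift, Equiv.coe_addRight, Matrix.sub_apply]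
    split_ifs
    · ring
    · ring
  · rintro n ⟨x, j, i, s⟩ ⟨x', j', i', s'⟩ hab
    simp only [ne_eq, ite_eq_right_iff, not_forall] at hab
    obtain ⟨rfl, hab⟩ := hab
    have hA := left_ne_zero_of_mul hab
    have h7 := right_ne_zero_of_mul hab
    have h8 := hl n _ _ h7
    exact wkm_trans (h2 n j' x x' hA i) (m.km_wk_lvl n x' j' i i' h8.1 h8.2)

theorem mem_avg_shift' (τ : ∀ n, Matrix (m.Lv n) (m.Lv n) ℂ) (hτ : ∀ n, MBd p (τ n) 1)
    (hl : m.IsLocal τ) :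
    m.op (fun n => avg (m.H n)) (fun n => (shift G n)ᵀ) τ ∈ fpc p G m.pr := by
  refine m.mem_fpc_of_approx _ (m.km_mbd_op (fun n => m.km_mbd_avg n)
    (fun n => (mbd_shift (p := p) (G := G) n).2) hτ) ?_
  intro ε hε
  obtain ⟨r, A, h1, h2⟩ := m.approxT' ε hε
  refine ⟨r + m.r0, fun n a b => if b.2.1 = a.2.1 + 1 then
    A n a.2.1 a.1 b.1 * τ n a.2.2 b.2.2 else 0, ?_, ?_⟩
  · intro n
    have h3 := km_blockPerm_kron (Equiv.subRight (1 : ZMod (G n).N)) hε.le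
      (B := fun j => A n (j - 1) - avg (m.H n)) (fun j => h1 n (j - 1)) (hτ n)
    convert h3 using 1
    funext a b
    obtain ⟨x, j, l⟩ := a
    obtain ⟨x', j', l'⟩ := b
    rw [Matrix.sub_apply]
    simp only [Matrix.kroneckerMap_apply, shift, Equiv.subRight_apply, Matrix.sub_apply,
      Matrix.transpose_apply]
    by_cases hj : j' = j + 1
    · subst hj
      simp only [if_true, add_sub_cancel_right]
      ring
    · have hj2 : ¬ j = j' - 1 := fun h => hj (by rw [h]; ring)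
      simp [hj, hj2]
  · rintro n ⟨x, j, i, s⟩ ⟨x', j', i', s'⟩ hab
    simp only [ne_eq, ite_eq_right_iff, not_forall] at hab
    obtain ⟨rfl, hab⟩ := hab
    have hA := left_ne_zero_of_mul hab
    have h7 := right_ne_zero_of_mul hab
    have h8 := hl n _ _ h7
    exact wkm_trans (h2 n j x x' hA i) (m.km_wk_lvl n x' (j + 1) i i' h8.1 h8.2)

/-- `τ` is supported on the top level. -/
theorem mem_top (X : ∀ n, Matrix (m.H n) (m.H n) ℂ) (hX : ∀ n, MBd p (X n) 1)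
    (c : ∀ n, Matrix (ZMod (G n).N) (ZMod (G n).N) ℂ) (hc : ∀ n, MBd p (c n) 1)
    (hc' : ∀ n j j', c n j j' ≠ 0 → j = j' ∨ j = j' + 1 ∨ j' = j + 1)
    (τ : ∀ n, Matrix (m.Lv n) (m.Lv n) ℂ) (hτ : ∀ n, MBd p (τ n) 1)
    (hl : ∀ n a b, τ n a b ≠ 0 → a.1 = Fin.last _ ∧ b.1 = Fin.last _) :
    m.op X c τ ∈ fpc p G m.pr := by
  refine m.mem_fpc_of_approx _ (m.km_mbd_op hX hc hτ) ?_
  intro ε hε
  refine ⟨m.r0 + m.r0, fun n => X n ⊗ₖ (c n ⊗ₖ τ n), ?_, ?_⟩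
  · intro n
    rw [sub_self]
    exact MBd.zero.mono hε.le
  · rintro n ⟨x, j, i, s⟩ ⟨x', j', i', s'⟩ hab
    simp only [Matrix.kroneckerMap_apply] at hab
    have h5 := right_ne_zero_of_mul hab
    have h6 := left_ne_zero_of_mul h5
    have h7 := right_ne_zero_of_mul h5
    obtain ⟨h8, h9⟩ := hl n _ _ h7
    simp only at h8 h9
    subst h8
    subst h9
    refine wkm_trans (m.top n x x' j) ?_
    rcases hc' n j j' h6 with h | h | h
    · subst h
      exact wkm_refl _ _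
    · subst h
      exact wkm_symm (m.circTop n x' j')
    · subst h
      exact m.circTop n x' j

/-- `τ` is supported on the bottom level. -/
theorem mem_bot (c : ∀ n, Matrix (ZMod (G n).N) (ZMod (G n).N) ℂ) (hc : ∀ n, MBd p (c n) 1)
    (τ : ∀ n, Matrix (m.Lv n) (m.Lv n) ℂ) (hτ : ∀ n, MBd p (τ n) 1)
    (hl : ∀ n a b, τ n a b ≠ 0 → a.1 = 0 ∧ b.1 = 0) :
    m.op (fun n => avg (m.H n)) c τ ∈ fpc p G m.pr := by
  refine m.mem_fpc_of_approx _ (m.km_mbd_op (fun n => m.km_mbd_avg n) hc hτ) ?_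
  intro ε hε
  obtain ⟨r, A, h1, h2⟩ := m.approxP ε hε
  refine ⟨r + m.r0, fun n => A n ⊗ₖ (c n ⊗ₖ τ n), ?_, ?_⟩
  · intro n
    have h3 := m.km_mbd_op (X := fun n => A n - avg (m.H n)) h1 hc hτ n
    have h4 : A n ⊗ₖ (c n ⊗ₖ τ n) - avg (m.H n) ⊗ₖ (c n ⊗ₖ τ n) =
        (A n - avg (m.H n)) ⊗ₖ (c n ⊗ₖ τ n) := by
      ext a b
      simp only [Matrix.sub_apply, Matrix.kroneckerMap_apply]
      ring
    rw [h4]
    exact h3
  · rintro n ⟨x, j, i, s⟩ ⟨x', j', i', s'⟩ hab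
    simp only [Matrix.kroneckerMap_apply] at hab
    have hA := left_ne_zero_of_mul hab
    have h5 := right_ne_zero_of_mul hab
    have h7 := right_ne_zero_of_mul h5
    obtain ⟨h8, h9⟩ := hl n _ _ h7
    simp only at h8 h9
    subst h8
    subst h9
    exact wkm_trans (h2 n x x' hA j 0) (m.bot n x' j j')

end Model

end

end Pool.Agent.H368.NV
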