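import Pool.Agent.H368.NV.KillMem

/-!
# The homotopy for models

PROOF SKETCH of `kill_model`. Write `N = (G n).N`, `L = L n`, `Lv = Fin (L + 1) × Fin 2`. The index set is
`J = Σ n, A n` with `A n = H n × (ZMod N × (Fin (L + 1) × Fin 2))`, `pr (n, (x, j, i, s)) = loc n x j i`, and
`co (n, j) = (n, (x0 n, j, last, 1))`. All operators are block diagonal operators `blk p M` with
`M n = X ⊗ₖ (c ⊗ₖ τ)`, `X` a matrix over `H n`, `c` over `ZMod N`, `τ` over `Lv`; products are computed by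
`Matrix.mul_kronecker_mul` and `blk_mul`, bounds by `MBd.kron`. Let `C` be the permutation matrix of `j ↦ j + 1`
(`C j j' = 1` iff `j = j' + 1`), `R₁, R₂` those of `j ↦ 1 - j` and `j ↦ -j` (so `C = R₁ R₂`), `E s s'` the matrix units of
`Fin 2`, `χ` diagonal matrices on the levels, `D i i' = 1` iff `i' = i + 1` (`D Dᵀ = χ_{<L}`, `Dᵀ D = χ_{>0}`), `P = avg`,
`p0` the matrix unit at `x0 n`, `a, a'` the matrices of `MBd.toPoint`, `MBd.fromPoint` (`a a' = p0`, `a' a = P`).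
Apply `killing` with `B = fpc p G pr`, and
* `T = 1 ⊗ C ⊗ 1`, `T' = 1 ⊗ Cᵀ ⊗ 1`, `ρ₁ = 1 ⊗ R₁ ⊗ 1`, `ρ₂ = 1 ⊗ R₂ ⊗ 1`,
* `q2 = p0 ⊗ 1 ⊗ χ_L E 1 1`, `q3 = P ⊗ 1 ⊗ χ_L E 0 0`, `v = a ⊗ 1 ⊗ χ_L E 1 0`, `v' = a' ⊗ 1 ⊗ χ_L E 0 1`,
* `q4 = P ⊗ 1 ⊗ χ_{<L} E 0 0`, `q5 = P ⊗ 1 ⊗ χ_{>0} E 1 1`, with `v = P ⊗ 1 ⊗ D E 0 1`, `v' = P ⊗ 1 ⊗ Dᵀ E 1 0`,
* `q6 = P ⊗ 1 ⊗ χ_{>0} E 0 0`, with `v = P ⊗ 1 ⊗ χ_{>0} E 1 0`, `v' = P ⊗ 1 ⊗ χ_{>0} E 0 1`,
* `q7 = P ⊗ 1 ⊗ χ_0 E 0 0`.
The result is `1 + q2 (T - 1) ~ 1`, and `q2 (T - 1) = push co (perm rot - 1)` (entries).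
Memberships in `fpc`: it suffices that for every `ε > 0` there are `r` and a block diagonal operator with
entries supported on `Wk G r` at distance `≤ ε`.
(m1) `P ⊗ 1 ⊗ τ` with `τ` supported on pairs of levels with `|i - i'| ≤ 1` : use `A ⊗ 1 ⊗ τ`, `A` from `approxP`,
  with walks `(x,j,i) → (x',j,i) → (x',j,i')`.
(m2) `P ⊗ C ⊗ τ`, `P ⊗ Cᵀ ⊗ τ` : use the matrices `A n j` of `approxT`, `approxT'`; the difference is, up to the
  factor `τ`, a block permutation matrix with blocks of norm `≤ ε`, so it has norm `≤ ε`.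
(m3) `X ⊗ c ⊗ τ` with `τ` supported on the top level, `c ∈ {1, C, Cᵀ}` : finite propagation by `top`, `circTop`.
(m4) `P ⊗ R ⊗ χ_0 E 0 0`, `R ∈ {R₁, R₂}` : use `A ⊗ R ⊗ χ_0 E 0 0` and `bot`.
`fpc` is closed under linear combinations (`isClosedSub_fpc`).
-/

set_option autoImplicit false
set_option linter.unusedVariables false
set_option linter.unusedSectionVars false

namespace Pool.Agent.H368.NV

open scoped ENNReal NNReal Topology Kronecker
open Filter Matrix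

noncomputable section

variable {p : ℝ≥0∞} [hp1 : Fact (1 ≤ p)] [hpt : Fact (p ≠ ∞)]

namespace KM

/-! ### Matrices on the levels -/

/-- matrix units -/
def EE (s s' : Fin 2) : Matrix (Fin 2) (Fin 2) ℂ := fun a b => if a = s ∧ b = s' then 1 else 0

theorem EE_mul (s t u : Fin 2) : EE s t * EE t u = EE s u := by
  ext a b
  rw [Matrix.mul_apply, Finset.sum_eq_single t]
  · unfold EE
    by_cases h1 : a = s <;> by_cases h2 : b = u <;> simp [h1, h2]
  · intro c _ hc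
    simp [EE, hc]
  · intro h
    exact absurd (Finset.mem_univ _) h

theorem EE_mul_ne {s t t' u : Fin 2} (h : t ≠ t') : EE s t * EE t' u = 0 := by
  ext a b
  rw [Matrix.mul_apply, Matrix.zero_apply]
  refine Finset.sum_eq_zero fun c _ => ?_
  unfold EE
  by_cases h1 : c = t
  · have h2 : c ≠ t' := fun h2 => h (h1.symm.trans h2)
    simp [h2]
  · simp [h1]

omit hp1 hpt in
theorem mbd_EE [Fact (1 ≤ p)] [Fact (p ≠ ∞)] (s s' : Fin 2) : MBd p (EE s s') 1 := by
  refine MBd.partialPerm ?_ ?_ ?_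
  · intro a b
    unfold EE
    split_ifs
    · exact Or.inr rfl
    · exact Or.inl rfl
  · intro a b b' h h'
    unfold EE at h h'
    split_ifs at h h' with h1 h2
    · exact h1.2.trans h2.2.symm
    all_goals simp at *
  · intro a a' b h h'
    unfold EE at h h'
    split_ifs at h h' with h1 h2
    · exact h1.1.trans h2.1.symm
    all_goals simp at *

/-- diagonal 0-1 matrices -/
def dia {A : Type} [DecidableEq A] (S : A → Prop) [DecidablePred S] : Matrix A A ℂ :=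
  fun a b => if a = b ∧ S a then 1 else 0

theorem dia_mul {A : Type} [Fintype A] [DecidableEq A] (S : A → Prop) [DecidablePred S]
    (M : Matrix A A ℂ) (a b : A) : (dia S * M) a b = if S a then M a b else 0 := by
  rw [Matrix.mul_apply, Finset.sum_eq_single a]
  · unfold dia
    by_cases h : S a <;> simp [h]
  · intro c _ hc
    simp [dia, hc.symm]
  · intro h
    exact absurd (Finset.mem_univ _) h

theorem mul_dia {A : Type} [Fintype A] [DecidableEq A] (S : A → Prop) [DecidablePred S]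
    (M : Matrix A A ℂ) (a b : A) : (M * dia S) a b = if S b then M a b else 0 := by
  rw [Matrix.mul_apply, Finset.sum_eq_single b]
  · unfold dia
    by_cases h : S b <;> simp [h]
  · intro c _ hc
    simp [dia, hc]
  · intro h
    exact absurd (Finset.mem_univ _) h

theorem mbd_dia {A : Type} [Fintype A] [DecidableEq A] (S : A → Prop) [DecidablePred S] :
    MBd p (dia S) 1 := by
  refine MBd.partialPerm ?_ ?_ ?_
  · intro a b
    unfold dia
    split_ifs
    · exact Or.inr rfl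
    · exact Or.inl rfl
  · intro a b b' h h'
    unfold dia at h h'
    split_ifs at h h' with h1 h2
    · exact h1.1.symm.trans h2.1
    all_goals simp at *
  · intro a a' b h h'
    unfold dia at h h'
    split_ifs at h h' with h1 h2
    · exact h1.1.trans h2.1.symm
    all_goals simp at *

/-- one level up -/
def DD (L : ℕ) : Matrix (Fin (L + 1)) (Fin (L + 1)) ℂ :=
  fun i i' => if (i' : ℕ) = i + 1 then 1 else 0

theorem mbd_DD (L : ℕ) : MBd p (DD L) 1 := by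
  refine MBd.partialPerm ?_ ?_ ?_
  · intro a b
    unfold DD
    split_ifs
    · exact Or.inr rfl
    · exact Or.inl rfl
  · intro a b b' h h'
    unfold DD at h h'
    split_ifs at h h' with h1 h2
    · exact Fin.ext (h1.trans h2.symm)
    all_goals simp at *
  · intro a a' b h h'
    unfold DD at h h'
    split_ifs at h h' with h1 h2
    · exact Fin.ext (by omega)
    all_goals simp at *

theorem mbd_DDT (L : ℕ) : MBd p (DD L)ᵀ 1 := by
  refine MBd.partialPerm ?_ ?_ ?_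
  · intro a b
    rw [Matrix.transpose_apply]
    unfold DD
    split_ifs
    · exact Or.inr rfl
    · exact Or.inl rfl
  · intro a b b' h h'
    rw [Matrix.transpose_apply] at h h'
    unfold DD at h h'
    split_ifs at h h' with h1 h2
    · exact Fin.ext (by omega)
    all_goals simp at *
  · intro a a' b h h'
    rw [Matrix.transpose_apply] at h h'
    unfold DD at h h'
    split_ifs at h h' with h1 h2
    · exact Fin.ext (h1.trans h2.symm)
    all_goals simp at *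

/-- the top level -/
abbrev cT (L : ℕ) : Matrix (Fin (L + 1)) (Fin (L + 1)) ℂ := dia fun i => i = Fin.last L
/-- all levels below the top level -/
abbrev cL (L : ℕ) : Matrix (Fin (L + 1)) (Fin (L + 1)) ℂ := dia fun i => i ≠ Fin.last L
/-- all levels above the bottom level -/
abbrev cP (L : ℕ) : Matrix (Fin (L + 1)) (Fin (L + 1)) ℂ := dia fun i => i ≠ 0
/-- the bottom level -/
abbrev cB (L : ℕ) : Matrix (Fin (L + 1)) (Fin (L + 1)) ℂ := dia fun i => i = 0

theorem dia_mul_self {A : Type} [Fintype A] [DecidableEq A] (S : A → Prop) [DecidablePred S] :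
    dia S * dia S = dia S := by
  ext a b
  rw [dia_mul]
  unfold dia
  by_cases h : S a <;> simp [h]

theorem dia_mul_disj {A : Type} [Fintype A] [DecidableEq A] (S S' : A → Prop) [DecidablePred S]
    [DecidablePred S'] (hd : ∀ a, S a → ¬ S' a) : dia S * dia S' = 0 := by
  ext a b
  rw [dia_mul]
  unfold dia
  by_cases h : S a
  · have := hd a h
    simp [this]
  · simp [h]

theorem dia_add {A : Type} [Fintype A] [DecidableEq A] (S S' : A → Prop) [DecidablePred S]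
    [DecidablePred S'] (hd : ∀ a, S' a ↔ ¬ S a) : dia S + dia S' = 1 := by
  ext a b
  rw [Matrix.add_apply, Matrix.one_apply]
  unfold dia
  by_cases hab : a = b
  · by_cases h : S a
    · have : ¬ S' a := fun h' => (hd a).1 h' h
      simp [← hab, h, this]
    · have : S' a := (hd a).2 h
      simp [← hab, h, this]
  · simp [hab]

theorem DD_mul_DDT (L : ℕ) : DD L * (DD L)ᵀ = cL L := by
  ext i k
  rw [Matrix.mul_apply]
  change _ = if i = k ∧ i ≠ Fin.last L then (1 : ℂ) else 0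
  by_cases hi : i = Fin.last L
  · rw [if_neg (by simp [hi])]
    refine Finset.sum_eq_zero fun j _ => ?_
    have h1 : DD L i j = 0 := by
      unfold DD
      rw [if_neg]
      have := j.isLt
      rw [hi, Fin.val_last]
      omega
    rw [h1, zero_mul]
  · have hlt : (i : ℕ) + 1 < L + 1 := by
      have h1 := i.isLt
      have h2 : (i : ℕ) ≠ L := fun h => hi (Fin.ext h)
      omega
    rw [Finset.sum_eq_single (⟨(i : ℕ) + 1, hlt⟩ : Fin (L + 1))]
    · rw [Matrix.transpose_apply]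
      unfold DD
      by_cases hik : i = k
      · simp [← hik, hi]
      · have h3 : ¬ ((i : ℕ) = k) := fun h => hik (Fin.ext h)
        simp [hik, h3]
    · intro j _ hj
      have h1 : DD L i j = 0 := by
        unfold DD
        rw [if_neg]
        exact fun h => hj (Fin.ext h)
      rw [h1, zero_mul]
    · intro h
      exact absurd (Finset.mem_univ _) h

theorem DDT_mul_DD (L : ℕ) : (DD L)ᵀ * DD L = cP L := by
  ext i k
  rw [Matrix.mul_apply]
  change _ = if i = k ∧ i ≠ 0 then (1 : ℂ) else 0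
  by_cases hi : i = 0
  · rw [if_neg (by simp [hi])]
    refine Finset.sum_eq_zero fun j _ => ?_
    have h1 : (DD L)ᵀ i j = 0 := by
      rw [Matrix.transpose_apply]
      unfold DD
      rw [if_neg]
      rw [hi]
      simp
    rw [h1, zero_mul]
  · have hpos : (i : ℕ) ≠ 0 := fun h => hi (Fin.ext h)
    have hlt : (i : ℕ) - 1 < L + 1 := by
      have h1 := i.isLt
      omega
    rw [Finset.sum_eq_single (⟨(i : ℕ) - 1, hlt⟩ : Fin (L + 1))]
    · rw [Matrix.transpose_apply]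
      unfold DD
      have h5 : (i : ℕ) - 1 + 1 = i := by omega
      by_cases hik : i = k
      · simp [← hik, hi, h5]
      · have h3 : ¬ ((k : ℕ) = i) := fun h => hik (Fin.ext h.symm)
        simp [hik, h5, h3]
    · intro j _ hj
      have h1 : (DD L)ᵀ i j = 0 := by
        rw [Matrix.transpose_apply]
        unfold DD
        rw [if_neg]
        exact fun h => hj (Fin.ext (by simp; omega))
      rw [h1, zero_mul]
    · intro h
      exact absurd (Finset.mem_univ _) h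

theorem cL_mul_DD (L : ℕ) : cL L * DD L = DD L := by
  ext i k
  rw [dia_mul]
  split_ifs with h
  · rfl
  · push Not at h
    unfold DD
    rw [if_neg]
    have := k.isLt
    rw [h, Fin.val_last]
    omega

theorem DD_mul_cP (L : ℕ) : DD L * cP L = DD L := by
  ext i k
  rw [mul_dia]
  split_ifs with h
  · rfl
  · push Not at h
    unfold DD
    rw [if_neg]
    rw [h]
    simp

theorem cP_mul_DDT (L : ℕ) : cP L * (DD L)ᵀ = (DD L)ᵀ := by
  ext i k
  rw [dia_mul]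
  split_ifs with h
  · rfl
  · push Not at h
    rw [Matrix.transpose_apply]
    unfold DD
    rw [if_neg]
    rw [h]
    simp

theorem DDT_mul_cL (L : ℕ) : (DD L)ᵀ * cL L = (DD L)ᵀ := by
  ext i k
  rw [mul_dia]
  split_ifs with h
  · rfl
  · push Not at h
    rw [Matrix.transpose_apply]
    unfold DD
    rw [if_neg]
    have := i.isLt
    rw [h, Fin.val_last]
    omega

/-! ### Shifts and reflections -/

/-- the permutation matrix of a permutation -/
def pm {A : Type} [DecidableEq A] (f : A → A) : Matrix A A ℂ := fun a b => if a = f b then 1 else 0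

theorem mbd_pm {A : Type} [Fintype A] [DecidableEq A] (f : A → A)
    (hf : Function.Injective f) : MBd p (pm f) 1 := by
  refine MBd.partialPerm ?_ ?_ ?_
  · intro a b
    unfold pm
    split_ifs
    · exact Or.inr rfl
    · exact Or.inl rfl
  · intro a b b' h h'
    unfold pm at h h'
    split_ifs at h h' with h1 h2
    · exact hf (h1.symm.trans h2)
    all_goals simp at *
  · intro a a' b h h'
    unfold pm at h h'
    split_ifs at h h' with h1 h2
    · exact h1.trans h2.symm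
    all_goals simp at *

theorem pm_mul {A : Type} [Fintype A] [DecidableEq A] (f g : A → A) :
    pm f * pm g = pm fun a => f (g a) := by
  ext a b
  rw [Matrix.mul_apply, Finset.sum_eq_single (g b)]
  · unfold pm
    simp
  · intro c _ hc
    unfold pm
    simp [hc]
  · intro h
    exact absurd (Finset.mem_univ _) h

theorem pm_id {A : Type} [Fintype A] [DecidableEq A] (f : A → A) (hf : ∀ a, f a = a) :
    pm f = 1 := by
  ext a b
  rw [Matrix.one_apply]
  unfold pm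
  rw [hf]

variable {G : ℕ → LGraph}

/-- the permutation matrix of `j ↦ 1 - j` -/
def R1 (G : ℕ → LGraph) (n : ℕ) : Matrix (ZMod (G n).N) (ZMod (G n).N) ℂ := pm fun j => 1 - j

/-- the permutation matrix of `j ↦ - j` -/
def R2 (G : ℕ → LGraph) (n : ℕ) : Matrix (ZMod (G n).N) (ZMod (G n).N) ℂ := pm fun j => - j

theorem shift_eq (n : ℕ) : Model.shift G n = pm fun j => j + 1 := rfl

theorem shiftT_eq (n : ℕ) : (Model.shift G n)ᵀ = pm fun j => j - 1 := by
  ext a b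
  rw [Matrix.transpose_apply]
  unfold Model.shift pm
  have h : b = a + 1 ↔ a = b - 1 := by
    constructor
    · intro h; rw [h]; ring
    · intro h; rw [h]; ring
  by_cases h1 : b = a + 1
  · rw [if_pos h1, if_pos (h.1 h1)]
  · rw [if_neg h1, if_neg (fun h2 => h1 (h.2 h2))]

theorem mbd_R1 (n : ℕ) : MBd p (R1 G n) 1 :=
  mbd_pm _ (fun a b h => sub_right_injective h)

theorem mbd_R2 (n : ℕ) : MBd p (R2 G n) 1 :=
  mbd_pm _ neg_injective

theorem R1_sq (n : ℕ) : R1 G n * R1 G n = 1 := by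
  unfold R1
  rw [pm_mul]
  exact pm_id _ fun a => by ring

theorem R2_sq (n : ℕ) : R2 G n * R2 G n = 1 := by
  unfold R2
  rw [pm_mul]
  exact pm_id _ fun a => by ring

theorem R1_mul_R2 (n : ℕ) : R1 G n * R2 G n = Model.shift G n := by
  unfold R1 R2
  rw [pm_mul, shift_eq]
  congr 1
  funext a
  ring

theorem shift_mul_T (n : ℕ) : Model.shift G n * (Model.shift G n)ᵀ = 1 := by
  rw [shiftT_eq, shift_eq, pm_mul]
  exact pm_id _ fun a => by ring

theorem T_mul_shift (n : ℕ) : (Model.shift G n)ᵀ * Model.shift G n = 1 := by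
  rw [shiftT_eq, shift_eq, pm_mul]
  exact pm_id _ fun a => by ring

/-! ### Averages and points -/

section fib
variable {A : Type} [Fintype A] [Nonempty A] [DecidableEq A]

theorem card_ne : (Fintype.card A : ℂ) ≠ 0 := by
  have h : Fintype.card A ≠ 0 := Fintype.card_ne_zero
  exact_mod_cast h

omit [DecidableEq A] in
theorem avg_mul_avg : avg A * avg A = avg A := by
  ext a b
  rw [Matrix.mul_apply]
  unfold avg
  rw [Finset.sum_const, Finset.card_univ, nsmul_eq_mul]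
  field_simp

/-- the matrix of `MBd.toPoint` -/
def aT (p : ℝ≥0∞) (x : A) : Matrix A A ℂ :=
  fun a _ => if a = x then (((Fintype.card A : ℝ) ^ (1 / p.toReal - 1) : ℝ) : ℂ) else 0

/-- the matrix of `MBd.fromPoint` -/
def aF (p : ℝ≥0∞) (x : A) : Matrix A A ℂ :=
  fun _ b => if b = x then (((Fintype.card A : ℝ) ^ (-(1 / p.toReal)) : ℝ) : ℂ) else 0

theorem prod_pow : (((Fintype.card A : ℝ) ^ (1 / p.toReal - 1) : ℝ) : ℂ) *
    (((Fintype.card A : ℝ) ^ (-(1 / p.toReal)) : ℝ) : ℂ) = 1 / (Fintype.card A : ℂ) := by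
  have h : (0 : ℝ) < Fintype.card A := by exact_mod_cast Fintype.card_pos
  rw [← Complex.ofReal_mul, ← Real.rpow_add h]
  have h2 : 1 / p.toReal - 1 + -(1 / p.toReal) = -1 := by ring
  rw [h2, Real.rpow_neg_one]
  push_cast
  rw [one_div]

theorem aT_mul_aF (x : A) : aT p x * aF p x = dia fun y => y = x := by
  ext a b
  rw [Matrix.mul_apply]
  unfold aT aF dia
  by_cases ha : a = x
  · by_cases hb : b = x
    · simp only [ha, hb, if_true, and_self]
      rw [Finset.sum_const, Finset.card_univ, nsmul_eq_mul, prod_pow]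
      field_simp
    · have hab : ¬ (a = b) := fun h => hb (h.symm.trans ha)
      simp [ha, hb, Ne.symm hb]
  · simp [ha]

theorem aF_mul_aT (x : A) : aF p x * aT p x = avg A := by
  ext a b
  rw [Matrix.mul_apply, Finset.sum_eq_single x]
  · unfold aT aF avg
    simp only [if_true]
    rw [mul_comm, prod_pow]
  · intro c _ hc
    simp [aT, hc]
  · intro h
    exact absurd (Finset.mem_univ _) h

theorem dia_mul_aT (x : A) : dia (fun y => y = x) * aT p x = aT p x := by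
  ext a b
  rw [dia_mul]
  unfold aT
  split_ifs <;> rfl

theorem aF_mul_dia (x : A) : aF p x * dia (fun y => y = x) = aF p x := by
  ext a b
  rw [mul_dia]
  unfold aF
  split_ifs <;> rfl

theorem aT_mul_avg (x : A) : aT p x * avg A = aT p x := by
  ext a b
  rw [Matrix.mul_apply]
  unfold aT avg
  by_cases ha : a = x
  · simp only [ha, if_true]
    rw [Finset.sum_const, Finset.card_univ, nsmul_eq_mul]
    field_simp
  · simp [ha]

theorem avg_mul_aF (x : A) : avg A * aF p x = aF p x := by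
  ext a b
  rw [Matrix.mul_apply]
  unfold aF avg
  by_cases hb : b = x
  · simp only [hb, if_true]
    rw [Finset.sum_const, Finset.card_univ, nsmul_eq_mul]
    field_simp
  · simp [hb]

theorem mbd_aT (x : A) : MBd p (aT p x) 1 := MBd.toPoint x

theorem mbd_aF (x : A) : MBd p (aF p x) 1 := MBd.fromPoint x

theorem mbd_avg : MBd p (avg A) 1 := MBd.avg

end fib

/-! ### The operators -/

section ops
variable {G : ℕ → LGraph} (m : Model p G)

theorem op_bd {X : ∀ n, Matrix (m.H n) (m.H n) ℂ}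
    {c : ∀ n, Matrix (ZMod (G n).N) (ZMod (G n).N) ℂ} {τ : ∀ n, Matrix (m.Lv n) (m.Lv n) ℂ}
    (hX : ∀ n, MBd p (X n) 1) (hc : ∀ n, MBd p (c n) 1) (hτ : ∀ n, MBd p (τ n) 1) (n : ℕ) :
    MBd p (X n ⊗ₖ (c n ⊗ₖ τ n)) 1 := by
  have h := (hX n).kron ((hc n).kron (hτ n))
  rwa [one_mul, one_mul] at h

theorem op_mul {X X' : ∀ n, Matrix (m.H n) (m.H n) ℂ}
    {c c' : ∀ n, Matrix (ZMod (G n).N) (ZMod (G n).N) ℂ} {τ τ' : ∀ n, Matrix (m.Lv n) (m.Lv n) ℂ}
    (hX : ∀ n, MBd p (X n) 1) (hc : ∀ n, MBd p (c n) 1) (hτ : ∀ n, MBd p (τ n) 1)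
    (hX' : ∀ n, MBd p (X' n) 1) (hc' : ∀ n, MBd p (c' n) 1) (hτ' : ∀ n, MBd p (τ' n) 1) :
    m.op X c τ * m.op X' c' τ' =
      m.op (fun n => X n * X' n) (fun n => c n * c' n) (fun n => τ n * τ' n) := by
  unfold Model.op
  rw [← blk_mul (op_bd m hX hc hτ) (op_bd m hX' hc' hτ')]
  congr 1
  funext n
  rw [← Matrix.mul_kronecker_mul, ← Matrix.mul_kronecker_mul]

theorem op_one : m.op (fun _ => 1) (fun _ => 1) (fun _ => 1) = (1 : Op p m.J) := by
  unfold Model.op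
  have h : (fun n => (1 : Matrix (m.H n) (m.H n) ℂ) ⊗ₖ
      ((1 : Matrix (ZMod (G n).N) (ZMod (G n).N) ℂ) ⊗ₖ (1 : Matrix (m.Lv n) (m.Lv n) ℂ))) =
      fun n => (1 : Matrix (m.A n) (m.A n) ℂ) := by
    funext n
    rw [Matrix.one_kronecker_one, Matrix.one_kronecker_one]
  rw [h]
  exact blk_one

theorem op_zero (X : ∀ n, Matrix (m.H n) (m.H n) ℂ)
    (c : ∀ n, Matrix (ZMod (G n).N) (ZMod (G n).N) ℂ) : m.op X c (fun _ => 0) = (0 : Op p m.J) := by
  unfold Model.op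
  have h : (fun n => X n ⊗ₖ (c n ⊗ₖ (0 : Matrix (m.Lv n) (m.Lv n) ℂ))) =
      fun n => (0 : Matrix (m.A n) (m.A n) ℂ) := by
    funext n
    rw [Matrix.kronecker_zero, Matrix.kronecker_zero]
  rw [h]
  exact blk_zero

theorem op_add {X : ∀ n, Matrix (m.H n) (m.H n) ℂ}
    {c : ∀ n, Matrix (ZMod (G n).N) (ZMod (G n).N) ℂ} {τ τ' : ∀ n, Matrix (m.Lv n) (m.Lv n) ℂ}
    (hX : ∀ n, MBd p (X n) 1) (hc : ∀ n, MBd p (c n) 1) (hτ : ∀ n, MBd p (τ n) 1)
    (hτ' : ∀ n, MBd p (τ' n) 1) :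
    m.op X c τ + m.op X c τ' = m.op X c (fun n => τ n + τ' n) := by
  unfold Model.op
  rw [← blk_add (op_bd m hX hc hτ) (op_bd m hX hc hτ')]
  congr 1
  funext n
  rw [← Matrix.kronecker_add, ← Matrix.kronecker_add]

/-- matrices on the levels and the two slots -/
def lev (χ : ∀ n, Matrix (Fin (m.L n + 1)) (Fin (m.L n + 1)) ℂ) (s s' : Fin 2) (n : ℕ) :
    Matrix (m.Lv n) (m.Lv n) ℂ := χ n ⊗ₖ EE s s'

theorem lev_mul (χ χ' : ∀ n, Matrix (Fin (m.L n + 1)) (Fin (m.L n + 1)) ℂ) (s t u : Fin 2)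
    (n : ℕ) : lev m χ s t n * lev m χ' t u n = lev m (fun n => χ n * χ' n) s u n := by
  unfold lev
  rw [← Matrix.mul_kronecker_mul, EE_mul]

theorem lev_mul_ne (χ χ' : ∀ n, Matrix (Fin (m.L n + 1)) (Fin (m.L n + 1)) ℂ) {s t t' u : Fin 2}
    (h : t ≠ t') (n : ℕ) : lev m χ s t n * lev m χ' t' u n = 0 := by
  unfold lev
  rw [← Matrix.mul_kronecker_mul, EE_mul_ne h, Matrix.kronecker_zero]

theorem lev_congr {χ χ' : ∀ n, Matrix (Fin (m.L n + 1)) (Fin (m.L n + 1)) ℂ} {s s' : Fin 2}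
    {n : ℕ} (h : χ n = χ' n) : lev m χ s s' n = lev m χ' s s' n := by
  unfold lev
  rw [h]

theorem lev_bd {χ : ∀ n, Matrix (Fin (m.L n + 1)) (Fin (m.L n + 1)) ℂ}
    (h : ∀ n, MBd p (χ n) 1) (s s' : Fin 2) (n : ℕ) : MBd p (lev m χ s s' n) 1 := by
  have h1 := (h n).kron (mbd_EE (p := p) s s')
  rwa [one_mul] at h1

theorem lev_ne_zero {χ : ∀ n, Matrix (Fin (m.L n + 1)) (Fin (m.L n + 1)) ℂ} {s s' : Fin 2}
    {n : ℕ} {a b : m.Lv n} (h : lev m χ s s' n a b ≠ 0) : χ n a.1 b.1 ≠ 0 := by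
  intro h0
  apply h
  unfold lev
  rw [Matrix.kroneckerMap_apply, h0, zero_mul]

theorem mbd_one {A : Type} [Fintype A] [DecidableEq A] : MBd p (1 : Matrix A A ℂ) 1 := MBd.one

theorem mbd_shift1 (n : ℕ) : MBd p (Model.shift G n) 1 := mbd_pm _ (add_left_injective 1)

theorem mbd_shift2 (n : ℕ) : MBd p (Model.shift G n)ᵀ 1 := by
  rw [shiftT_eq]
  exact mbd_pm _ (fun a b h => sub_left_injective h)

/-- the shift -/
abbrev oT : Op p m.J := m.op (fun _ => 1) (Model.shift G) (fun _ => 1)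

/-- the inverse of the shift -/
abbrev oT' : Op p m.J := m.op (fun _ => 1) (fun n => (Model.shift G n)ᵀ) (fun _ => 1)

theorem oT_mul {X : ∀ n, Matrix (m.H n) (m.H n) ℂ} {τ : ∀ n, Matrix (m.Lv n) (m.Lv n) ℂ}
    (hX : ∀ n, MBd p (X n) 1) (hτ : ∀ n, MBd p (τ n) 1) :
    oT m * m.op X (fun _ => 1) τ = m.op X (Model.shift G) τ := by
  rw [op_mul m (fun _ => mbd_one) mbd_shift1 (fun _ => mbd_one) hX (fun _ => mbd_one) hτ]
  simp only [one_mul, mul_one]

theorem mul_oT {X : ∀ n, Matrix (m.H n) (m.H n) ℂ} {τ : ∀ n, Matrix (m.Lv n) (m.Lv n) ℂ}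
    (hX : ∀ n, MBd p (X n) 1) (hτ : ∀ n, MBd p (τ n) 1) :
    m.op X (fun _ => 1) τ * oT m = m.op X (Model.shift G) τ := by
  rw [op_mul m hX (fun _ => mbd_one) hτ (fun _ => mbd_one) mbd_shift1 (fun _ => mbd_one)]
  simp only [one_mul, mul_one]

theorem mul_oT' {X : ∀ n, Matrix (m.H n) (m.H n) ℂ} {τ : ∀ n, Matrix (m.Lv n) (m.Lv n) ℂ}
    (hX : ∀ n, MBd p (X n) 1) (hτ : ∀ n, MBd p (τ n) 1) :
    m.op X (fun _ => 1) τ * oT' m = m.op X (fun n => (Model.shift G n)ᵀ) τ := by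
  rw [op_mul m hX (fun _ => mbd_one) hτ (fun _ => mbd_one) mbd_shift2 (fun _ => mbd_one)]
  simp only [one_mul, mul_one]

theorem fib_finite (a : Sp G) : (m.pr ⁻¹' {a}).Finite := by
  refine ((Set.finite_univ (α := m.A a.1)).image (fun b => (⟨a.1, b⟩ : m.J))).subset ?_
  rintro ⟨n, b⟩ hb
  have hb' : m.pr ⟨n, b⟩ = a := hb
  have h1 : n = a.1 := congrArg Sigma.fst hb'
  subst h1
  exact ⟨b, Set.mem_univ _, rfl⟩

theorem sub_mem' {x y : Op p m.J} (hx : x ∈ fpc p G m.pr) (hy : y ∈ fpc p G m.pr) :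
    x - y ∈ fpc p G m.pr := by
  have hB := isClosedSub_fpc (p := p) m.pr (fib_finite m)
  have h := hB.add_mem hx (hB.smul_mem (-1) hy)
  have h2 : x + (-1 : ℂ) • y = x - y := by
    rw [neg_one_smul, sub_eq_add_neg]
  rwa [h2] at h

/-- good elements of the first kind -/
theorem good_avg {τ : ∀ n, Matrix (m.Lv n) (m.Lv n) ℂ} (hτ : ∀ n, MBd p (τ n) 1)
    (hl : m.IsLocal τ) :
    Good (fpc p G m.pr) (oT m) (oT' m) (m.op (fun n => avg (m.H n)) (fun _ => 1) τ) := by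
  refine ⟨?_, ?_, ?_⟩
  · rw [oT_mul m (fun _ => mbd_avg) hτ, mul_oT m (fun _ => mbd_avg) hτ]
  · rw [mul_sub, mul_one, mul_oT m (fun _ => mbd_avg) hτ]
    exact sub_mem' m (m.mem_avg_shift τ hτ hl) (m.mem_avg_one τ hτ hl)
  · rw [mul_sub, mul_one, mul_oT' m (fun _ => mbd_avg) hτ]
    exact sub_mem' m (m.mem_avg_shift' τ hτ hl) (m.mem_avg_one τ hτ hl)

/-- good elements of the second kind -/
theorem good_top {X : ∀ n, Matrix (m.H n) (m.H n) ℂ} (hX : ∀ n, MBd p (X n) 1)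
    {τ : ∀ n, Matrix (m.Lv n) (m.Lv n) ℂ} (hτ : ∀ n, MBd p (τ n) 1)
    (hl : ∀ n a b, τ n a b ≠ 0 → a.1 = Fin.last _ ∧ b.1 = Fin.last _) :
    Good (fpc p G m.pr) (oT m) (oT' m) (m.op X (fun _ => 1) τ) := by
  have h1 : m.op X (fun _ => 1) τ ∈ fpc p G m.pr := by
    refine m.mem_top X hX _ (fun _ => mbd_one) ?_ τ hτ hl
    intro n j j' h
    left
    by_contra hne
    exact h (Matrix.one_apply_ne hne)
  have h2 : m.op X (Model.shift G) τ ∈ fpc p G m.pr := by
    refine m.mem_top X hX _ mbd_shift1 ?_ τ hτ hl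
    intro n j j' h
    right
    left
    by_contra hne
    exact h (if_neg hne)
  have h3 : m.op X (fun n => (Model.shift G n)ᵀ) τ ∈ fpc p G m.pr := by
    refine m.mem_top X hX _ mbd_shift2 ?_ τ hτ hl
    intro n j j' h
    right
    right
    by_contra hne
    exact h (if_neg hne)
  refine ⟨?_, ?_, ?_⟩
  · rw [oT_mul m hX hτ, mul_oT m hX hτ]
  · rw [mul_sub, mul_one, mul_oT m hX hτ]
    exact sub_mem' m h2 h1
  · rw [mul_sub, mul_one, mul_oT' m hX hτ]
    exact sub_mem' m h3 h1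

/-- products of operators with trivial action in the direction of the circle -/
theorem op1_mul {X X' X'' : ∀ n, Matrix (m.H n) (m.H n) ℂ}
    {τ τ' τ'' : ∀ n, Matrix (m.Lv n) (m.Lv n) ℂ}
    (hX : ∀ n, MBd p (X n) 1) (hτ : ∀ n, MBd p (τ n) 1)
    (hX' : ∀ n, MBd p (X' n) 1) (hτ' : ∀ n, MBd p (τ' n) 1)
    (h1 : ∀ n, X n * X' n = X'' n) (h2 : ∀ n, τ n * τ' n = τ'' n) :
    m.op X (fun _ => 1) τ * m.op X' (fun _ => 1) τ' = m.op X'' (fun _ => 1) τ'' := by
  rw [op_mul m hX (fun _ => mbd_one) hτ hX' (fun _ => mbd_one) hτ']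
  simp only [mul_one, h1, h2]

theorem op1_mul_zero {X X' : ∀ n, Matrix (m.H n) (m.H n) ℂ}
    {τ τ' : ∀ n, Matrix (m.Lv n) (m.Lv n) ℂ}
    (hX : ∀ n, MBd p (X n) 1) (hτ : ∀ n, MBd p (τ n) 1)
    (hX' : ∀ n, MBd p (X' n) 1) (hτ' : ∀ n, MBd p (τ' n) 1)
    (h2 : ∀ n, τ n * τ' n = 0) :
    m.op X (fun _ => 1) τ * m.op X' (fun _ => 1) τ' = 0 := by
  rw [op_mul m hX (fun _ => mbd_one) hτ hX' (fun _ => mbd_one) hτ']
  simp only [h2]
  exact op_zero m _ _

end ops

/-! ### The entries -/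

section ents
variable {G : ℕ → LGraph} (m : Model p G)

theorem dia_ne_zero {A : Type} [DecidableEq A] {S : A → Prop} [DecidablePred S] {a b : A}
    (h : dia S a b ≠ 0) : a = b ∧ S a := by
  unfold dia at h
  by_contra hn
  exact h (if_neg hn)

theorem EE_ne_zero {s s' a b : Fin 2} (h : EE s s' a b ≠ 0) : a = s ∧ b = s' := by
  unfold EE at h
  by_contra hn
  exact h (if_neg hn)

theorem ent_op {X : ∀ n, Matrix (m.H n) (m.H n) ℂ}
    {c : ∀ n, Matrix (ZMod (G n).N) (ZMod (G n).N) ℂ} {τ : ∀ n, Matrix (m.Lv n) (m.Lv n) ℂ}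
    (hX : ∀ n, MBd p (X n) 1) (hc : ∀ n, MBd p (c n) 1) (hτ : ∀ n, MBd p (τ n) 1) (n : ℕ)
    (a b : m.A n) : ent (m.op X c τ) ⟨n, a⟩ ⟨n, b⟩ =
      X n a.1 b.1 * (c n a.2.1 b.2.1 * τ n a.2.2 b.2.2) := by
  unfold Model.op
  rw [ent_blk (op_bd m hX hc hτ)]
  rfl

theorem ent_op_ne {X : ∀ n, Matrix (m.H n) (m.H n) ℂ}
    {c : ∀ n, Matrix (ZMod (G n).N) (ZMod (G n).N) ℂ} {τ : ∀ n, Matrix (m.Lv n) (m.Lv n) ℂ}
    (hX : ∀ n, MBd p (X n) 1) (hc : ∀ n, MBd p (c n) 1) (hτ : ∀ n, MBd p (τ n) 1)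
    (a b : m.J) (hab : a.1 ≠ b.1) : ent (m.op X c τ) a b = 0 := by
  unfold Model.op
  exact ent_blk_ne (op_bd m hX hc hτ) a b hab

theorem cast_inj {N : ℕ} {j j' : Fin N} (h : ((j : ℕ) : ZMod N) = ((j' : ℕ) : ZMod N)) :
    j = j' := by
  rw [ZMod.natCast_eq_natCast_iff', Nat.mod_eq_of_lt j.isLt, Nat.mod_eq_of_lt j'.isLt] at h
  exact Fin.ext h

theorem rot_iff {N : ℕ} (hN : 1 ≤ N) (j j' : Fin N) :
    ((j : ℕ) : ZMod N) = ((j' : ℕ) : ZMod N) + 1 ↔ j = finRotate N j' := by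
  obtain ⟨M, rfl⟩ : ∃ M, N = M + 1 := ⟨N - 1, by omega⟩
  have h1 : ((j' : ℕ) : ZMod (M + 1)) + 1 = ((finRotate (M + 1) j' : ℕ) : ZMod (M + 1)) := by
    rw [coe_finRotate]
    split_ifs with h
    · rw [h, Fin.val_last]
      have h2 : ((M : ℕ) : ZMod (M + 1)) + 1 = (((M + 1 : ℕ)) : ZMod (M + 1)) := by push_cast; rfl
      rw [h2, ZMod.natCast_self]
      simp
    · push_cast
      rfl
  rw [h1]
  constructor
  · intro h
    exact cast_inj h
  · intro h
    rw [← h]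

/-- the embedding of the cycles -/
def co : Cyc (fun n => (G n).N) ↪ m.J :=
  ⟨fun a => ⟨a.1, (m.x0 a.1, (((a.2 : ℕ) : ZMod (G a.1).N), (Fin.last _, 1)))⟩, by
    rintro ⟨n, j⟩ ⟨n', j'⟩ h
    have h1 : n = n' := congrArg Sigma.fst h
    subst h1
    have h2 : (m.x0 n, (((j : ℕ) : ZMod (G n).N), ((Fin.last _, 1) : m.Lv n))) =
        (m.x0 n, (((j' : ℕ) : ZMod (G n).N), ((Fin.last _, 1) : m.Lv n))) :=
      eq_of_heq (Sigma.mk.inj_iff.1 h).2
    have h3 : ((j : ℕ) : ZMod (G n).N) = ((j' : ℕ) : ZMod (G n).N) :=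
      congrArg (fun x : m.A n => x.2.1) h2
    have h4 : j = j' := cast_inj h3
    rw [h4]⟩

theorem mem_co (n : ℕ) (j : ZMod (G n).N) :
    ∃ i, co m i = ⟨n, (m.x0 n, (j, (Fin.last _, 1)))⟩ := by
  refine ⟨⟨n, ⟨j.val, ZMod.val_lt j⟩⟩, ?_⟩
  change (⟨n, (m.x0 n, (((j.val : ℕ) : ZMod (G n).N), (Fin.last _, 1)))⟩ : m.J) = _
  rw [ZMod.natCast_zmod_val]

/-- the first idempotent -/
abbrev q2 : Op p m.J := m.op (fun n => dia (fun y => y = m.x0 n)) (fun _ => 1)
  (lev m (fun n => cT (m.L n)) 1 1)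

theorem ent_zero_of {c : ∀ n, Matrix (ZMod (G n).N) (ZMod (G n).N) ℂ}
    (hc : ∀ n, MBd p (c n) 1) (a b : m.J)
    (h : (∀ i, co m i ≠ a) ∨ (∀ i, co m i ≠ b)) :
    ent (m.op (fun n => dia (fun y => y = m.x0 n)) c (lev m (fun n => cT (m.L n)) 1 1)) a b = 0 := by
  have hX : ∀ n, MBd p (dia (fun y => y = m.x0 n)) 1 := fun n => mbd_dia _
  have hτ : ∀ n, MBd p (lev m (fun n => cT (m.L n)) 1 1 n) 1 := lev_bd m (fun n => mbd_dia _) 1 1
  by_cases hab : a.1 = b.1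
  · obtain ⟨n, a⟩ := a
    obtain ⟨n', b⟩ := b
    change n = n' at hab
    subst hab
    rw [ent_op m hX hc hτ]
    by_contra hne
    have h1 := left_ne_zero_of_mul hne
    have h2 := right_ne_zero_of_mul (right_ne_zero_of_mul hne)
    obtain ⟨h3, h4⟩ := dia_ne_zero h1
    have h5 : cT (m.L n) a.2.2.1 b.2.2.1 * EE 1 1 a.2.2.2 b.2.2.2 ≠ 0 := h2
    obtain ⟨h6, h7⟩ := dia_ne_zero (left_ne_zero_of_mul h5)
    obtain ⟨h8, h9⟩ := EE_ne_zero (right_ne_zero_of_mul h5)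
    obtain ⟨x, j, l, s⟩ := a
    obtain ⟨x', j', l', s'⟩ := b
    change x = x' at h3
    change x = m.x0 n at h4
    change l = l' at h6
    change l = Fin.last _ at h7
    change s = 1 at h8
    change s' = 1 at h9
    subst h3 h6 h8 h9 h4 h7
    rcases h with h | h
    · obtain ⟨i, hi⟩ := mem_co m n j
      exact h i hi
    · obtain ⟨i, hi⟩ := mem_co m n j'
      exact h i hi
  · exact ent_op_ne m hX hc hτ a b hab

theorem e3 (n : ℕ) : dia (fun y => y = m.x0 n) (m.x0 n) (m.x0 n) = (1 : ℂ) := if_pos ⟨rfl, rfl⟩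

theorem e4 (n : ℕ) :
    lev m (fun n => cT (m.L n)) 1 1 n (Fin.last _, 1) (Fin.last _, 1) = (1 : ℂ) := by
  change (if (Fin.last (m.L n) = Fin.last (m.L n) ∧ Fin.last (m.L n) = Fin.last (m.L n))
    then (1 : ℂ) else 0) * (if ((1 : Fin 2) = 1 ∧ (1 : Fin 2) = 1) then (1 : ℂ) else 0) = 1
  simp

theorem ent_gen {c : ∀ n, Matrix (ZMod (G n).N) (ZMod (G n).N) ℂ} (hc : ∀ n, MBd p (c n) 1)
    (P : Cyc (fun n => (G n).N) → Cyc (fun n => (G n).N) → Prop)
    (hP : ∀ i i', P i i' → i.1 = i'.1)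
    (h : ∀ n (j j' : Fin (G n).N), (P ⟨n, j⟩ ⟨n, j'⟩ ∧
      c n ((j : ℕ) : ZMod (G n).N) ((j' : ℕ) : ZMod (G n).N) = 1) ∨ (¬ P ⟨n, j⟩ ⟨n, j'⟩ ∧
      c n ((j : ℕ) : ZMod (G n).N) ((j' : ℕ) : ZMod (G n).N) = 0))
    (i i' : Cyc (fun n => (G n).N)) [Decidable (P i i')] :
    ent (m.op (fun n => dia (fun y => y = m.x0 n)) c (lev m (fun n => cT (m.L n)) 1 1))
      (co m i) (co m i') = if P i i' then 1 else 0 := by
  have hX : ∀ n, MBd p (dia (fun y => y = m.x0 n)) 1 := fun n => mbd_dia _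
  have hτ : ∀ n, MBd p (lev m (fun n => cT (m.L n)) 1 1 n) 1 := lev_bd m (fun n => mbd_dia _) 1 1
  by_cases hii : i.1 = i'.1
  · have key : (ent (m.op (fun n => dia (fun y => y = m.x0 n)) c
        (lev m (fun n => cT (m.L n)) 1 1)) (co m i) (co m i') = 1 ∧ P i i') ∨
        (ent (m.op (fun n => dia (fun y => y = m.x0 n)) c
        (lev m (fun n => cT (m.L n)) 1 1)) (co m i) (co m i') = 0 ∧ ¬ P i i') := by
      obtain ⟨n, j⟩ := i
      obtain ⟨n', j'⟩ := i'
      change n = n' at hii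
      subst hii
      have e1 := ent_op m hX hc hτ n
        (m.x0 n, (((j : ℕ) : ZMod (G n).N), (Fin.last _, 1)))
        (m.x0 n, (((j' : ℕ) : ZMod (G n).N), (Fin.last _, 1)))
      simp only [e3, e4, one_mul, mul_one] at e1
      have e2 : ent (m.op (fun n => dia (fun y => y = m.x0 n)) c
        (lev m (fun n => cT (m.L n)) 1 1)) (co m ⟨n, j⟩) (co m ⟨n, j'⟩) =
        c n ((j : ℕ) : ZMod (G n).N) ((j' : ℕ) : ZMod (G n).N) := e1
      rw [e2]
      rcases h n j j' with ⟨h1, h2⟩ | ⟨h1, h2⟩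
      · exact Or.inl ⟨h2, h1⟩
      · exact Or.inr ⟨h2, h1⟩
    rcases key with ⟨h1, h2⟩ | ⟨h1, h2⟩
    · rw [h1, if_pos h2]
    · rw [h1, if_neg h2]
  · rw [ent_op_ne m hX hc hτ _ _ hii, if_neg (fun h2 => hii (hP _ _ h2))]

theorem final_eq : q2 m * (oT m - 1) = push (co m) (perm p (rot _) - 1) := by
  classical
  have hX : ∀ n, MBd p (dia (fun y => y = m.x0 n)) 1 := fun n => mbd_dia _
  have hτ : ∀ n, MBd p (lev m (fun n => cT (m.L n)) 1 1 n) 1 := lev_bd m (fun n => mbd_dia _) 1 1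
  rw [mul_sub, mul_one]
  rw [mul_oT m hX hτ]
  apply op_ext
  intro a b
  rw [ent_sub]
  by_cases ha : ∃ i, co m i = a
  · by_cases hb : ∃ i, co m i = b
    · obtain ⟨i, rfl⟩ := ha
      obtain ⟨i', rfl⟩ := hb
      rw [ent_push, ent_sub, ent_perm, ent_one]
      rw [ent_gen m mbd_shift1 (fun i i' => i = rot _ i') (fun i i' h => by rw [h]; rfl) ?_ i i',
        ent_gen m (fun _ => mbd_one) (fun i i' => i = i') (fun i i' h => by rw [h]) ?_ i i']
      · intro n j j'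
        by_cases hj : j = j'
        · left
          subst hj
          exact ⟨rfl, Matrix.one_apply_eq _⟩
        · right
          refine ⟨fun h => hj (eq_of_heq (Sigma.mk.inj_iff.1 h).2), ?_⟩
          exact Matrix.one_apply_ne fun h => hj (cast_inj h)
      · intro n j j'
        by_cases hj : ((j : ℕ) : ZMod (G n).N) = ((j' : ℕ) : ZMod (G n).N) + 1
        · left
          refine ⟨?_, if_pos hj⟩
          rw [rot_iff (G n).one_le] at hj
          rw [hj]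
          rfl
        · right
          refine ⟨fun h => hj ?_, if_neg hj⟩
          rw [rot_iff (G n).one_le]
          exact eq_of_heq (Sigma.mk.inj_iff.1 h).2
    · have hb' : ∀ i, co m i ≠ b := fun i hi => hb ⟨i, hi⟩
      rw [ent_push_right _ _ _ hb', ent_zero_of m mbd_shift1 a b (Or.inr hb'),
        ent_zero_of m (fun _ => mbd_one) a b (Or.inr hb'), sub_zero]
  · have ha' : ∀ i, co m i ≠ a := fun i hi => ha ⟨i, hi⟩
    rw [ent_push_left _ _ ha', ent_zero_of m mbd_shift1 a b (Or.inl ha'),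
      ent_zero_of m (fun _ => mbd_one) a b (Or.inl ha'), sub_zero]

end ents

/-! ### The equivalences -/

section equi
variable {G : ℕ → LGraph} (m : Model p G)

/-- `P ⊗ 1 ⊗ (χ ⊗ E s s')` -/
abbrev oP (χ : ∀ n, Matrix (Fin (m.L n + 1)) (Fin (m.L n + 1)) ℂ) (s s' : Fin 2) : Op p m.J :=
  m.op (fun n => avg (m.H n)) (fun _ => 1) (lev m χ s s')

theorem oP_mul {χ χ' χ'' : ∀ n, Matrix (Fin (m.L n + 1)) (Fin (m.L n + 1)) ℂ}
    (h : ∀ n, MBd p (χ n) 1) (h' : ∀ n, MBd p (χ' n) 1) (hχ : ∀ n, χ n * χ' n = χ'' n)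
    (s t u : Fin 2) : oP m χ s t * oP m χ' t u = oP m χ'' s u := by
  refine op1_mul m (fun _ => mbd_avg) (lev_bd m h s t) (fun _ => mbd_avg) (lev_bd m h' t u)
    (fun _ => avg_mul_avg) (fun n => ?_)
  rw [lev_mul]
  exact lev_congr m (hχ n)

theorem oP_mul_zero {χ χ' : ∀ n, Matrix (Fin (m.L n + 1)) (Fin (m.L n + 1)) ℂ}
    (h : ∀ n, MBd p (χ n) 1) (h' : ∀ n, MBd p (χ' n) 1) {t t' : Fin 2} (ht : t ≠ t')
    (s u : Fin 2) : oP m χ s t * oP m χ' t' u = 0 :=
  op1_mul_zero m (fun _ => mbd_avg) (lev_bd m h s t) (fun _ => mbd_avg) (lev_bd m h' t' u)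
    (fun n => lev_mul_ne m _ _ ht n)

theorem oP_mul_zero' {χ χ' : ∀ n, Matrix (Fin (m.L n + 1)) (Fin (m.L n + 1)) ℂ}
    (h : ∀ n, MBd p (χ n) 1) (h' : ∀ n, MBd p (χ' n) 1) (hχ : ∀ n, χ n * χ' n = 0)
    (s t u : Fin 2) : oP m χ s t * oP m χ' t u = 0 := by
  refine op1_mul_zero m (fun _ => mbd_avg) (lev_bd m h s t) (fun _ => mbd_avg) (lev_bd m h' t u)
    (fun n => ?_)
  rw [lev_mul, lev_congr m (χ' := fun _ => 0) (hχ n)]
  unfold lev
  exact Matrix.zero_kronecker _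

theorem local_dia {S : ∀ n, Fin (m.L n + 1) → Prop} [∀ n, DecidablePred (S n)] (s s' : Fin 2) :
    m.IsLocal (lev m (fun n => dia (S n)) s s') := by
  intro n a b h
  have h1 := (dia_ne_zero (lev_ne_zero m h)).1
  rw [h1]
  omega

theorem local_DD (s s' : Fin 2) : m.IsLocal (lev m (fun n => DD (m.L n)) s s') := by
  intro n a b h
  have h1 := lev_ne_zero m h
  have h2 : (b.1 : ℕ) = a.1 + 1 := by
    by_contra hn
    exact h1 (if_neg hn)
  omega

theorem local_DDT (s s' : Fin 2) : m.IsLocal (lev m (fun n => (DD (m.L n))ᵀ) s s') := by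
  intro n a b h
  have h1 := lev_ne_zero m h
  have h2 : (a.1 : ℕ) = b.1 + 1 := by
    by_contra hn
    exact h1 (if_neg hn)
  omega

theorem top_dia (s s' : Fin 2) : ∀ n a b, lev m (fun n => cT (m.L n)) s s' n a b ≠ 0 →
    a.1 = Fin.last _ ∧ b.1 = Fin.last _ := by
  intro n a b h
  obtain ⟨h1, h2⟩ := dia_ne_zero (lev_ne_zero m h)
  exact ⟨h2, h1 ▸ h2⟩

theorem mT : ∀ n, MBd p (cT (m.L n)) 1 := fun n => mbd_dia _
theorem mL : ∀ n, MBd p (cL (m.L n)) 1 := fun n => mbd_dia _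
theorem mP : ∀ n, MBd p (cP (m.L n)) 1 := fun n => mbd_dia _
theorem mB : ∀ n, MBd p (cB (m.L n)) 1 := fun n => mbd_dia _
theorem mD : ∀ n, MBd p (DD (m.L n)) 1 := fun n => mbd_DD _
theorem mDT : ∀ n, MBd p (DD (m.L n))ᵀ 1 := fun n => mbd_DDT _

theorem e23 : Equi (fpc p G m.pr) (oT m) (oT' m) (q2 m) (oP m (fun n => cT (m.L n)) 0 0) := by
  have hx : ∀ n, MBd p (dia (fun y => y = m.x0 n)) 1 := fun n => mbd_dia _
  have ha : ∀ n, MBd p (aT p (m.x0 n)) 1 := fun n => mbd_aT _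
  have hf : ∀ n, MBd p (aF p (m.x0 n)) 1 := fun n => mbd_aF _
  have hP : ∀ n, MBd p (avg (m.H n)) 1 := fun n => mbd_avg
  have hl : ∀ s s' n, MBd p (lev m (fun n => cT (m.L n)) s s' n) 1 := fun s s' => lev_bd m (mT m) s s'
  have hm : ∀ (s t u : Fin 2) n, lev m (fun n => cT (m.L n)) s t n *
      lev m (fun n => cT (m.L n)) t u n = lev m (fun n => cT (m.L n)) s u n := by
    intro s t u n
    rw [lev_mul]
    exact lev_congr m (dia_mul_self _)
  refine ⟨good_top m hx (hl 1 1) (top_dia m 1 1), good_top m hP (hl 0 0) (top_dia m 0 0), ?_, ?_,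
    ?_, ?_, m.op (fun n => aT p (m.x0 n)) (fun _ => 1) (lev m (fun n => cT (m.L n)) 1 0),
    m.op (fun n => aF p (m.x0 n)) (fun _ => 1) (lev m (fun n => cT (m.L n)) 0 1),
    good_top m ha (hl 1 0) (top_dia m 1 0), good_top m hf (hl 0 1) (top_dia m 0 1), ?_, ?_, ?_, ?_,
    ?_, ?_⟩
  · exact op1_mul m hx (hl 1 1) hx (hl 1 1) (fun n => dia_mul_self _) (hm 1 1 1)
  · exact op1_mul m hP (hl 0 0) hP (hl 0 0) (fun n => avg_mul_avg) (hm 0 0 0)
  · exact op1_mul_zero m hx (hl 1 1) hP (hl 0 0) (fun n => lev_mul_ne m _ _ (by decide) n)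
  · exact op1_mul_zero m hP (hl 0 0) hx (hl 1 1) (fun n => lev_mul_ne m _ _ (by decide) n)
  · exact op1_mul m ha (hl 1 0) hf (hl 0 1) (fun n => aT_mul_aF _) (hm 1 0 1)
  · exact op1_mul m hf (hl 0 1) ha (hl 1 0) (fun n => aF_mul_aT _) (hm 0 1 0)
  · exact op1_mul m hx (hl 1 1) ha (hl 1 0) (fun n => dia_mul_aT _) (hm 1 1 0)
  · exact op1_mul m ha (hl 1 0) hP (hl 0 0) (fun n => aT_mul_avg _) (hm 1 0 0)
  · exact op1_mul m hP (hl 0 0) hf (hl 0 1) (fun n => avg_mul_aF _) (hm 0 0 1)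
  · exact op1_mul m hf (hl 0 1) hx (hl 1 1) (fun n => aF_mul_dia _) (hm 0 1 1)

theorem e45 : Equi (fpc p G m.pr) (oT m) (oT' m) (oP m (fun n => cL (m.L n)) 0 0)
    (oP m (fun n => cP (m.L n)) 1 1) := by
  refine ⟨good_avg m (lev_bd m (mL m) 0 0) (local_dia m 0 0),
    good_avg m (lev_bd m (mP m) 1 1) (local_dia m 1 1), ?_, ?_, ?_, ?_,
    oP m (fun n => DD (m.L n)) 0 1, oP m (fun n => (DD (m.L n))ᵀ) 1 0,
    good_avg m (lev_bd m (mD m) 0 1) (local_DD m 0 1),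
    good_avg m (lev_bd m (mDT m) 1 0) (local_DDT m 1 0), ?_, ?_, ?_, ?_, ?_, ?_⟩
  · exact oP_mul m (mL m) (mL m) (fun n => dia_mul_self _) 0 0 0
  · exact oP_mul m (mP m) (mP m) (fun n => dia_mul_self _) 1 1 1
  · exact oP_mul_zero m (mL m) (mP m) (by decide) 0 1
  · exact oP_mul_zero m (mP m) (mL m) (by decide) 1 0
  · exact oP_mul m (mD m) (mDT m) (fun n => DD_mul_DDT _) 0 1 0
  · exact oP_mul m (mDT m) (mD m) (fun n => DDT_mul_DD _) 1 0 1
  · exact oP_mul m (mL m) (mD m) (fun n => cL_mul_DD _) 0 0 1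
  · exact oP_mul m (mD m) (mP m) (fun n => DD_mul_cP _) 0 1 1
  · exact oP_mul m (mP m) (mDT m) (fun n => cP_mul_DDT _) 1 1 0
  · exact oP_mul m (mDT m) (mL m) (fun n => DDT_mul_cL _) 1 0 0

theorem e56 : Equi (fpc p G m.pr) (oT m) (oT' m) (oP m (fun n => cP (m.L n)) 1 1)
    (oP m (fun n => cP (m.L n)) 0 0) := by
  have h : ∀ s t u : Fin 2, oP m (fun n => cP (m.L n)) s t * oP m (fun n => cP (m.L n)) t u =
      oP m (fun n => cP (m.L n)) s u := fun s t u =>
    oP_mul m (mP m) (mP m) (fun n => dia_mul_self _) s t u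
  refine ⟨good_avg m (lev_bd m (mP m) 1 1) (local_dia m 1 1),
    good_avg m (lev_bd m (mP m) 0 0) (local_dia m 0 0), h 1 1 1, h 0 0 0, ?_, ?_,
    oP m (fun n => cP (m.L n)) 1 0, oP m (fun n => cP (m.L n)) 0 1,
    good_avg m (lev_bd m (mP m) 1 0) (local_dia m 1 0),
    good_avg m (lev_bd m (mP m) 0 1) (local_dia m 0 1), h 1 0 1, h 0 1 0, h 1 1 0, h 1 0 0,
    h 0 0 1, h 0 1 1⟩
  · exact oP_mul_zero m (mP m) (mP m) (by decide) 1 0
  · exact oP_mul_zero m (mP m) (mP m) (by decide) 0 1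

end equi

end KM

open KM in
theorem kill_model {G : ℕ → LGraph} (m : Model p G) : Kill p G := by
  refine ⟨m.J, inferInstance, m.pr, co m, fib_finite m, ?_, ?_⟩
  · intro a
    have h := m.loc_core a.1 ((a.2 : ℕ) : ℤ)
    rw [Int.cast_natCast] at h
    change (⟨a.1, m.loc a.1 (m.x0 a.1) (((a.2 : ℕ) : ZMod (G a.1).N)) (Fin.last _)⟩ : Sp G) = _
    rw [h]
  · have hB := isClosedSub_fpc (p := p) m.pr (fib_finite m)
    have hP : ∀ n, MBd p (avg (m.H n)) 1 := fun n => mbd_avg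
    have h1 : ∀ n : ℕ, MBd p (1 : Matrix (m.H n) (m.H n) ℂ) 1 := fun n => mbd_one
    have h2 : ∀ n : ℕ, MBd p (1 : Matrix (ZMod (G n).N) (ZMod (G n).N) ℂ) 1 := fun n => mbd_one
    have h3 : ∀ n : ℕ, MBd p (1 : Matrix (m.Lv n) (m.Lv n) ℂ) 1 := fun n => mbd_one
    have hb := lev_bd m (mB m) 0 0
    have hlb : ∀ n a b, lev m (fun n => cB (m.L n)) 0 0 n a b ≠ 0 → a.1 = 0 ∧ b.1 = 0 := by
      intro n a b h
      obtain ⟨h4, h5⟩ := dia_ne_zero (lev_ne_zero m h)
      exact ⟨h5, h4 ▸ h5⟩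
    have hc7 : ∀ c : ∀ n, Matrix (ZMod (G n).N) (ZMod (G n).N) ℂ, (∀ n, MBd p (c n) 1) →
        m.op (fun _ => 1) c (fun _ => 1) * oP m (fun n => cB (m.L n)) 0 0 =
          m.op (fun n => avg (m.H n)) c (lev m (fun n => cB (m.L n)) 0 0) ∧
        oP m (fun n => cB (m.L n)) 0 0 * m.op (fun _ => 1) c (fun _ => 1) =
          m.op (fun n => avg (m.H n)) c (lev m (fun n => cB (m.L n)) 0 0) := by
      intro c hc
      rw [op_mul m h1 hc h3 hP h2 hb, op_mul m hP h2 hb h1 hc h3]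
      simp only [one_mul, mul_one]
      exact ⟨trivial, trivial⟩
    have k := killing (fpc p G m.pr) hB (oT m) (oT' m) ?_ ?_ (q2 m)
      (oP m (fun n => cT (m.L n)) 0 0) (oP m (fun n => cL (m.L n)) 0 0)
      (oP m (fun n => cP (m.L n)) 1 1) (oP m (fun n => cP (m.L n)) 0 0)
      (oP m (fun n => cB (m.L n)) 0 0) (m.op (fun _ => 1) (R1 G) (fun _ => 1))
      (m.op (fun _ => 1) (R2 G) (fun _ => 1)) (e23 m) (e45 m) (e56 m)
      (good_avg m hb (local_dia m 0 0)) (oP_mul m (mB m) (mB m) (fun n => dia_mul_self _) 0 0 0)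
      (oP_mul_zero' m (mT m) (mL m) (fun n => dia_mul_disj _ _ fun a h h' => h' h) 0 0 0)
      (oP_mul_zero' m (mL m) (mT m) (fun n => dia_mul_disj _ _ fun a h h' => h h') 0 0 0)
      (oP_mul_zero' m (mP m) (mB m) (fun n => dia_mul_disj _ _ fun a h h' => h h') 0 0 0)
      (oP_mul_zero' m (mB m) (mP m) (fun n => dia_mul_disj _ _ fun a h h' => h' h) 0 0 0)
      ?_ ?_ ?_ ?_ ?_ ?_ ?_ ?_
    · rw [final_eq] at k
      exact k
    · rw [op_mul m h1 mbd_shift1 h3 h1 mbd_shift2 h3]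
      simp only [one_mul, shift_mul_T]
      exact op_one m
    · rw [op_mul m h1 mbd_shift2 h3 h1 mbd_shift1 h3]
      simp only [one_mul, T_mul_shift]
      exact op_one m
    · rw [op_add m hP h2 (lev_bd m (mT m) 0 0) (lev_bd m (mL m) 0 0),
        op_add m hP h2 (lev_bd m (mP m) 0 0) hb]
      congr 1
      funext n
      unfold lev
      rw [← Matrix.add_kronecker, ← Matrix.add_kronecker,
        dia_add _ _ (fun a => Iff.rfl), add_comm (cP (m.L n)), dia_add _ _ (fun a => Iff.rfl)]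
    · rw [op_mul m h1 mbd_R1 h3 h1 mbd_R1 h3]
      simp only [one_mul, R1_sq]
      exact op_one m
    · rw [op_mul m h1 mbd_R2 h3 h1 mbd_R2 h3]
      simp only [one_mul, R2_sq]
      exact op_one m
    · rw [op_mul m h1 mbd_R1 h3 h1 mbd_R2 h3]
      simp only [one_mul, R1_mul_R2]
    · rw [(hc7 _ mbd_R1).1, (hc7 _ mbd_R1).2]
    · rw [(hc7 _ mbd_R2).1, (hc7 _ mbd_R2).2]
    · rw [mul_sub, mul_one, (hc7 _ mbd_R1).2]
      exact sub_mem' m (m.mem_bot _ mbd_R1 _ hb hlb) (m.mem_bot _ h2 _ hb hlb)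
    · rw [mul_sub, mul_one, (hc7 _ mbd_R2).2]
      exact sub_mem' m (m.mem_bot _ mbd_R2 _ hb hlb) (m.mem_bot _ h2 _ hb hlb)

end

end Pool.Agent.H368.NV
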