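import Mathlib

/-!
# Labelled graphs and the associated discrete metric spaces
-/

set_option autoImplicit false

namespace Pool.Agent.H368.NV

open scoped ENNReal NNReal Topology
open Filter

noncomputable section

/-- A finite graph with integer labels on the oriented edges, a real function `θ` on the vertices
and a closed path `core` of length `N` along which `θ` plus the labels increases by `1 / N` in each
step. -/
structure LGraph where
  /-- the vertices -/
  V : Type
  finite : Finite V
  /-- `step v w κ`: there is an edge from `v` to `w` with label `κ` -/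
  step : V → V → ℤ → Prop
  symm : ∀ {v w : V} {κ : ℤ}, step v w κ → step w v (-κ)
  /-- the length of the core -/
  N : ℕ
  one_le : 1 ≤ N
  /-- the phases -/
  θ : V → ℝ
  /-- the core -/
  core : ℤ → V
  core_add : ∀ j, core (j + N) = core j
  /-- the labels of the edges of the core -/
  lab : ℤ → ℤ
  core_step : ∀ j, step (core j) (core (j + 1)) (lab j)
  core_phase : ∀ j, θ (core (j + 1)) - θ (core j) + lab j = 1 / N

attribute [instance] LGraph.finite

/-- `Walk r v w κ`: there is a walk of length at most `r` from `v` to `w` with total label `κ`. -/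
inductive LGraph.Walk (G : LGraph) : ℕ → G.V → G.V → ℤ → Prop
  | refl (r : ℕ) (v : G.V) : LGraph.Walk G r v v 0
  | cons {r : ℕ} {u v w : G.V} {κ κ' : ℤ} : G.step u v κ → LGraph.Walk G r v w κ' →
      LGraph.Walk G (r + 1) u w (κ + κ')

theorem LGraph.Walk.mono {G : LGraph} {r s : ℕ} {v w : G.V} {κ : ℤ} (h : G.Walk r v w κ)
    (hrs : r ≤ s) : G.Walk s v w κ := by
  induction h generalizing s with
  | refl r v => exact LGraph.Walk.refl s v
  | cons h1 _ ih =>
    obtain ⟨t, rfl⟩ : ∃ t, s = t + 1 := ⟨s - 1, by omega⟩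
    exact LGraph.Walk.cons h1 (ih (by omega))

theorem LGraph.Walk.append {G : LGraph} {r s : ℕ} {u v w : G.V} {κ κ' : ℤ}
    (h : G.Walk r u v κ) (h' : G.Walk s v w κ') : G.Walk (r + s) u w (κ + κ') := by
  induction h with
  | refl r v =>
    rw [zero_add]
    exact h'.mono (Nat.le_add_left s r)
  | @cons r u v w κ₁ κ₂ h1 _ ih =>
    have h2 := LGraph.Walk.cons h1 (ih h')
    have e : r + 1 + s = r + s + 1 := by ring
    rw [e, add_assoc κ₁]
    exact h2

theorem LGraph.Walk.reverse {G : LGraph} {r : ℕ} {v w : G.V} {κ : ℤ} (h : G.Walk r v w κ) :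
    G.Walk r w v (-κ) := by
  induction h with
  | refl r v =>
    rw [neg_zero]
    exact LGraph.Walk.refl r v
  | cons h1 _ ih =>
    rw [neg_add_rev]
    refine ih.append ?_
    have h2 := LGraph.Walk.cons (G.symm h1) (LGraph.Walk.refl 0 _)
    rwa [add_zero, zero_add] at h2

theorem LGraph.walk_zero {G : LGraph} {v w : G.V} {κ : ℤ} (h : G.Walk 0 v w κ) :
    v = w ∧ κ = 0 := by
  cases h with
  | refl => exact ⟨rfl, rfl⟩

theorem LGraph.walk_one {G : LGraph} {v w : G.V} {κ : ℤ} (h : G.step v w κ) :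
    G.Walk 1 v w κ := by
  have h2 := LGraph.Walk.cons h (LGraph.Walk.refl 0 w)
  rwa [add_zero, zero_add] at h2

/-- The disjoint union of the vertex sets of a sequence of labelled graphs. -/
def Sp (G : ℕ → LGraph) : Type := Σ n, (G n).V

/-- `Wk G r a b`: the points `a` and `b` are in the same graph, and there is a walk of length at most
`r` from `a` to `b`. -/
def Wk (G : ℕ → LGraph) (r : ℕ) (a b : Sp G) : Prop :=
  ∃ (n : ℕ) (v w : (G n).V) (κ : ℤ), a = ⟨n, v⟩ ∧ b = ⟨n, w⟩ ∧ (G n).Walk r v w κ

/-- `Near G r a b`: either `Wk G r a b`, or `r` is larger than the numbers of the graphs of `a` and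
`b`. -/
def Near (G : ℕ → LGraph) (r : ℕ) (a b : Sp G) : Prop := Wk G r a b ∨ max a.1 b.1 + 1 ≤ r

theorem near_zero {G : ℕ → LGraph} (a b : Sp G) : Near G 0 a b ↔ a = b := by
  constructor
  · rintro (⟨n, v, w, κ, rfl, rfl, h⟩ | h)
    · rw [(LGraph.walk_zero h).1]
    · omega
  · rintro rfl
    exact Or.inl ⟨a.1, a.2, a.2, 0, rfl, rfl, LGraph.Walk.refl 0 _⟩

theorem near_symm {G : ℕ → LGraph} {r : ℕ} {a b : Sp G} (h : Near G r a b) : Near G r b a := by
  rcases h with ⟨n, v, w, κ, rfl, rfl, h⟩ | h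
  · exact Or.inl ⟨n, w, v, -κ, rfl, rfl, h.reverse⟩
  · rw [max_comm] at h
    exact Or.inr h

theorem Wk.fst_eq {G : ℕ → LGraph} {r : ℕ} {a b : Sp G} (h : Wk G r a b) : a.1 = b.1 := by
  obtain ⟨n, v, w, κ, rfl, rfl, -⟩ := h
  rfl

theorem near_trans {G : ℕ → LGraph} {r s : ℕ} {a b c : Sp G} (h : Near G r a b)
    (h' : Near G s b c) : Near G (r + s) a c := by
  rcases h with h | h
  · rcases h' with h' | h'
    · obtain ⟨n, v, w, κ, rfl, rfl, h⟩ := h
      obtain ⟨m, v', w', κ', hb, rfl, h'⟩ := h'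
      cases hb
      exact Or.inl ⟨n, v, w', κ + κ', rfl, rfl, h.append h'⟩
    · have h1 := h.fst_eq
      exact Or.inr (by omega)
  · rcases h' with h' | h'
    · have h1 := h'.fst_eq
      exact Or.inr (by omega)
    · exact Or.inr (by omega)

theorem near_mono {G : ℕ → LGraph} {r s : ℕ} {a b : Sp G} (h : Near G r a b) (hrs : r ≤ s) :
    Near G s a b := by
  rcases h with ⟨n, v, w, κ, rfl, rfl, h⟩ | h
  · exact Or.inl ⟨n, v, w, κ, rfl, rfl, h.mono hrs⟩
  · exact Or.inr (h.trans hrs)

theorem exists_near {G : ℕ → LGraph} (a b : Sp G) : ∃ r, Near G r a b :=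
  ⟨_, Or.inr le_rfl⟩

open Classical in
/-- The distance: the smallest `r` with `Near G r a b`. -/
def nearDist {G : ℕ → LGraph} (a b : Sp G) : ℕ := Nat.find (exists_near a b)

theorem nearDist_le_iff {G : ℕ → LGraph} (a b : Sp G) (r : ℕ) :
    nearDist a b ≤ r ↔ Near G r a b := by
  classical
  unfold nearDist
  rw [Nat.find_le_iff]
  constructor
  · rintro ⟨m, hm, h⟩
    exact near_mono h hm
  · intro h
    exact ⟨r, le_rfl, h⟩

theorem nearDist_comm {G : ℕ → LGraph} (a b : Sp G) : nearDist a b = nearDist b a :=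
  le_antisymm ((nearDist_le_iff a b _).2 (near_symm ((nearDist_le_iff b a _).1 le_rfl)))
    ((nearDist_le_iff b a _).2 (near_symm ((nearDist_le_iff a b _).1 le_rfl)))

/-- The metric: the minimum of the graph distance and of `n + 1` in the `n`-th graph, and
`max n m + 1` between points of the `n`-th and the `m`-th graph. -/
instance (G : ℕ → LGraph) : MetricSpace (Sp G) where
  dist a b := nearDist a b
  dist_self := by
    intro a
    have h : nearDist a a ≤ 0 := (nearDist_le_iff a a 0).2 ((near_zero a a).2 rfl)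
    exact_mod_cast Nat.le_zero.1 h
  dist_comm := by
    intro a b
    exact congrArg (fun n : ℕ => (n : ℝ)) (nearDist_comm a b)
  dist_triangle := by
    intro a b c
    have h : nearDist a c ≤ nearDist a b + nearDist b c :=
      (nearDist_le_iff a c _).2
        (near_trans ((nearDist_le_iff a b _).1 le_rfl) ((nearDist_le_iff b c _).1 le_rfl))
    exact_mod_cast h
  eq_of_dist_eq_zero := by
    intro a b h
    have h1 : nearDist a b = 0 := by exact_mod_cast h
    exact (near_zero a b).1 ((nearDist_le_iff a b 0).1 h1.le)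

theorem dist_le_iff {G : ℕ → LGraph} (a b : Sp G) (r : ℕ) : dist a b ≤ (r : ℝ) ↔ Near G r a b := by
  rw [← nearDist_le_iff]
  exact Nat.cast_le

theorem finite_closedBall {G : ℕ → LGraph} (a : Sp G) (r : ℝ) :
    (Metric.closedBall a r).Finite := by
  have hfin : (⋃ n ∈ Set.Iic (max a.1 ⌊r⌋₊),
      Set.range (fun v : (G n).V => (show Sp G from ⟨n, v⟩))).Finite :=
    Set.Finite.biUnion (Set.finite_Iic _) fun n _ => Set.finite_range _
  refine hfin.subset fun b hb => ?_
  have h1 : dist b a ≤ r := hb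
  have h2 : nearDist b a ≤ ⌊r⌋₊ := Nat.le_floor h1
  have h3 : b.1 ≤ max a.1 ⌊r⌋₊ := by
    rcases (nearDist_le_iff b a _).1 h2 with h4 | h4
    · rw [h4.fst_eq]
      exact le_max_left _ _
    · omega
  exact Set.mem_biUnion (Set.mem_Iic.2 h3) ⟨b.2, rfl⟩

instance (G : ℕ → LGraph) : ProperSpace (Sp G) where
  isCompact_closedBall a r := (finite_closedBall a r).isCompact

instance (G : ℕ → LGraph) : Countable (Sp G) := by
  unfold Sp
  infer_instance

instance (G : ℕ → LGraph) : Nonempty (Sp G) := ⟨⟨0, (G 0).core 0⟩⟩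

/-- Closed walks of bounded length in the `n`-th graph have total label zero if `n` is large. -/
def Flat (G : ℕ → LGraph) : Prop :=
  ∀ r : ℕ, ∀ᶠ n in atTop, ∀ (v : (G n).V) (κ : ℤ), (G n).Walk r v v κ → κ = 0

end

end Pool.Agent.H368.NV
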