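import Pool.Agent.H368.NV.System
import Pool.Agent.H368.NV.Stage
import Pool.Agent.H368.NV.BaseGen

/-!
# The coarse assembly map of `Sp G` is not injective

PROOF SKETCH of `main_nerve`. Choose `k` with `2 ≤ S.R k`, let `k₀ = k + 1` and `K = nerve (S.cov k₀)`. By
`S.lebesgue` there is for every `a` a member `ν a ∈ S.cov k₀` with `closedBall a 1 ⊆ ν a`. Apply `base_gen` to `K` and
`ν` (`Wk G 1 a b` implies `dist a b ≤ 1`, so `b ∈ ν a ∩ ν b`; each `w ∈ S.cov k₀` is bounded, hence finite, and
`a ∈ ν a`; countability of `rat K` as in the proof of `exists_lift`): there are loops `L₀` with `q n = poly (u n)`,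
`u n j = ν (core j)`, whose class is mapped to zero by `ev`. Say that a sequence of loops at stage `l` is admissible if
`L.q n t = poly (u n) t` for some `u` with `u n j ∈ S.cov l`, `core j ∈ u n j`, `u n (j + N) = u n j`. For admissible
`L` at stage `l`, `L.map (Lift.covers _ l)` is admissible at the stage `l + 1` (`map_poly`) and
`stepL p _ l (L.cls p _) = (L.map _).cls p _` (`Loops.map_cls`); and `L.cls p _ ≠ K1.zero _` by `stage`, applied with
`pt U` = any point of `U` (for nonempty `U`) and `r ≥ 2 R_l`.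
If `mu p L` were injective, then `Lim.of (stepL p L) k₀ (L₀.cls)` would be equal to the image of the zero class, since
both are mapped to the image of the zero class (`Lim.map_of`, `K1.map_zero`), so by `Lim.of_eq_base` some iterate of
`Lim.next` maps `⟨k₀, L₀.cls⟩` to a zero class, but all the iterates are classes of admissible loops.
-/

set_option autoImplicit false
set_option linter.unusedVariables false

namespace Pool.Agent.H368.NV

open scoped ENNReal NNReal Topology BoundedContinuousFunction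
open Filter

noncomputable section

variable {p : ℝ≥0∞} [hp1 : Fact (1 ≤ p)] [hpt : Fact (p ≠ ∞)]

/-- A sequence of loops at stage `l` is admissible if it is the sequence of polygons through members of
the cover which contain the points of the core. -/
def Adm {G : ℕ → LGraph} (S : AntiCech (Sp G)) (l : ℕ)
    (L' : Loops (rat (nerve (S.cov l))) fun n => (G n).N) : Prop :=
  ∃ (u : ℕ → ℤ → Set (Sp G)) (hu : ∀ n, IsPoly (nerve (S.cov l)) (u n)),
    (∀ n j, u n j ∈ S.cov l) ∧ (∀ n j, (⟨n, (G n).core j⟩ : Sp G) ∈ u n j) ∧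
    (∀ n j, u n (j + (G n).N) = u n j) ∧
    ∀ n s, L'.q n s = poly (downClosed_nerve (S.cov l)) (hu n) s

theorem Adm.map {G : ℕ → LGraph} {S : AntiCech (Sp G)} {t : Trans S} (L : Lift t) {l : ℕ}
    {L' : Loops (rat (nerve (S.cov l))) fun n => (G n).N} (h : Adm S l L') :
    Adm S (l + 1) (L'.map (L.covers l)) := by
  classical
  obtain ⟨u, hu, h1, h2, h3, h4⟩ := h
  have hu' : ∀ n, IsPoly (nerve (S.cov (l + 1))) fun j => t.next l (u n j) := by
    intro n j σ hσ
    have h5 : ({u n j, u n (j + 1)} : Finset (Set (Sp G))) ∈ nerve (S.cov l) :=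
      hu n j _ fun v => by simp
    obtain ⟨_, _, x, hx⟩ := h5
    have hx1 : x ∈ u n j := hx _ (by simp)
    have hx2 : x ∈ u n (j + 1) := hx _ (by simp)
    refine ⟨⟨t.next l (u n j), (hσ _).2 (Or.inl rfl)⟩, ?_, x, ?_⟩
    · intro V hV
      rcases (hσ V).1 hV with rfl | rfl
      · exact t.next_mem l _ (h1 n _)
      · exact t.next_mem l _ (h1 n _)
    · intro V hV
      rcases (hσ V).1 hV with rfl | rfl
      · exact t.subset_next l _ (h1 n _) hx1
      · exact t.subset_next l _ (h1 n _) hx2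
  refine ⟨fun n j => t.next l (u n j), hu', fun n j => t.next_mem l _ (h1 n j),
    fun n j => t.subset_next l _ (h1 n j) (h2 n j), fun n j => congrArg (t.next l) (h3 n j), fun n s => ?_⟩
  change t.beta l (L'.q n s) = _
  rw [h4]
  exact map_poly (downClosed_nerve (S.cov l)) (downClosed_nerve (S.cov (l + 1))) (t.simplicial l)
    (hu n) (hu' n) s

theorem finite_fst {G : ℕ → LGraph} (n : ℕ) : {a : Sp G | a.1 = n}.Finite := by
  refine (Set.finite_range fun v : (G n).V => (show Sp G from ⟨n, v⟩)).subset ?_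
  rintro ⟨m, v⟩ h
  have h1 : m = n := h
  subst h1
  exact ⟨v, rfl⟩

theorem Adm.cls_ne_zero {G : ℕ → LGraph} (hflat : Flat G) {S : AntiCech (Sp G)} {l : ℕ}
    {L' : Loops (rat (nerve (S.cov l))) fun n => (G n).N} (h : Adm S l L') :
    L'.cls p (fun n => (G n).one_le) ≠ K1.zero (loc p (rat (nerve (S.cov l)))) := by
  classical
  obtain ⟨u, hu, h1, h2, h3, h4⟩ := h
  let pt : Set (Sp G) → Sp G := fun U => if h : U.Nonempty then h.some else
    ⟨0, (G 0).core 0⟩
  have hpt : ∀ U : Set (Sp G), U.Nonempty → pt U ∈ U := by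
    intro U hU
    have h5 : pt U = hU.some := dif_pos hU
    rw [h5]
    exact hU.some_mem
  have hd : ∀ U ∈ S.cov l, ∀ x ∈ U, ∀ y ∈ U, dist x y ≤ S.R l := by
    intro U hU x hx y hy
    obtain ⟨h5, h6⟩ := S.bounded l U hU
    exact (Metric.dist_le_diam_of_mem h5 hx hy).trans h6
  have hR : 0 ≤ S.R l := dist_nonneg.trans (hd _ (h1 0 0) _ (h2 0 0) _ (h2 0 0))
  have hr0 : 2 * S.R l ≤ (⌈2 * S.R l⌉₊ : ℝ) := Nat.le_ceil _
  refine stage (p := p) hflat (nerve (S.cov l)) (downClosed_nerve _) pt ⌈2 * S.R l⌉₊ ?_ ?_ u hu h3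
    ?_ L' h4
  · rintro σ ⟨_, hσ, x, hx⟩ v hv w hw
    have h5 := hd v (hσ v hv) _ (hpt v ⟨x, hx v hv⟩) x (hx v hv)
    have h6 := hd w (hσ w hw) x (hx w hw) _ (hpt w ⟨x, hx w hw⟩)
    have h7 := dist_triangle (pt v) x (pt w)
    linarith
  · intro n
    refine (finite_meet S l (finite_fst (G := G) n).isBounded).subset ?_
    rintro v ⟨hv, _, hσ, x, hx⟩
    have h5 : v ∈ S.cov l := hσ v (Finset.mem_singleton_self v)
    have h6 : x ∈ v := hx v (Finset.mem_singleton_self v)
    exact ⟨h5, pt v, hpt v ⟨x, h6⟩, hv⟩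
  · intro n j
    have h5 := hd _ (h1 n j) _ (hpt _ ⟨_, h2 n j⟩) _ (h2 n j)
    linarith

theorem iterate_ne {G : ℕ → LGraph} (hflat : Flat G) {S : AntiCech (Sp G)} {t : Trans S}
    (L : Lift t) (n : ℕ) : ∀ (l : ℕ) (L' : Loops (rat (nerve (S.cov l))) fun n => (G n).N),
    Adm S l L' → ∀ l' : ℕ, (Lim.next (G := KL p S) (stepL p L))^[n]
      ⟨l, L'.cls p (fun n => (G n).one_le)⟩ ≠ ⟨l', K1.zero (loc p (rat (nerve (S.cov l'))))⟩ := by
  induction n with
  | zero =>
    intro l L' h l' he
    rw [Function.iterate_zero, id_eq] at he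
    have h1 : l = l' := congrArg Sigma.fst he
    subst h1
    exact h.cls_ne_zero (p := p) hflat (eq_of_heq (Sigma.mk.inj_iff.1 he).2)
  | succ n ih =>
    intro l L' h l' he
    rw [Function.iterate_succ_apply] at he
    refine ih (l + 1) (L'.map (L.covers l)) (h.map L) l' ?_
    rw [← he]
    congr 1
    change _ = (⟨l + 1, stepL p L l (L'.cls p _)⟩ : Σ k, KL p S k)
    congr 1
    exact (Loops.map_cls L' (L.covers l) fun n => (G n).one_le).symm

theorem main_nerve {G : ℕ → LGraph} (hflat : Flat G) (hkill : Kill p G)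
    {S : AntiCech (Sp G)} {t : Trans S} (L : Lift t) : ¬ Function.Injective (mu p L) := by
  intro hinj
  obtain ⟨k, hk⟩ := (S.tendsto.eventually_ge_atTop 2).exists
  have hleb : ∀ a : Sp G, ∃ U ∈ S.cov (k + 1), Metric.closedBall a 1 ⊆ U := by
    intro a
    refine S.lebesgue k _ Metric.isBounded_closedBall ?_
    have h1 := Metric.diam_closedBall (x := a) (zero_le_one (α := ℝ))
    linarith
  choose ν hν1 hν2 using hleb
  have hmem : ∀ a : Sp G, a ∈ ν a := fun a => hν2 a (Metric.mem_closedBall_self zero_le_one)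
  have hmem1 : ∀ a b : Sp G, Wk G 1 a b → b ∈ ν a := by
    intro a b h
    apply hν2 a
    rw [Metric.mem_closedBall, dist_comm]
    have h1 := (dist_le_iff a b 1).2 (Or.inl h)
    rwa [Nat.cast_one] at h1
  have hc : (rat (nerve (S.cov (k + 1)))).Countable := by
    apply countable_rat
    have h1 : (⋃ x : Sp G, {U | U ∈ S.cov (k + 1) ∧ x ∈ U}).Countable := by
      refine Set.countable_iUnion fun x => Set.Finite.countable ?_
      refine (((S.locallyFinite (k + 1)).point_finite x).image
        (fun U : S.cov (k + 1) => (U : Set (Sp G)))).subset ?_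
      rintro U ⟨hU, hx⟩
      exact ⟨⟨U, hU⟩, hx, rfl⟩
    refine h1.mono ?_
    rintro U ⟨σ, ⟨_, hσ, x, hx⟩, hU⟩
    exact Set.mem_iUnion.2 ⟨x, hσ U hU, hx U hU⟩
  have hgood : Good0 G (nerve (S.cov (k + 1))) ν := by
    refine ⟨downClosed_nerve _, locFin_nerve S (k + 1), ?_, ?_⟩
    · intro a b hab σ hσ
      refine ⟨⟨ν a, (hσ _).2 (Or.inl rfl)⟩, ?_, b, ?_⟩
      · intro V hV
        rcases (hσ V).1 hV with rfl | rfl
        · exact hν1 a
        · exact hν1 b
      · intro V hV
        rcases (hσ V).1 hV with rfl | rfl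
        · exact hmem1 a b hab
        · exact hmem b
    · intro w
      by_cases hw : ∃ a, ν a = w
      · obtain ⟨a, rfl⟩ := hw
        obtain ⟨r, hr⟩ := (S.bounded (k + 1) _ (hν1 a)).1.subset_closedBall a
        refine (finite_closedBall a r).subset ?_
        intro b hb
        apply hr
        have h1 : ν b = ν a := hb
        rw [← h1]
        exact hmem b
      · refine Set.finite_empty.subset ?_
        intro a ha
        exact hw ⟨a, ha⟩
  obtain ⟨L₀, hq, q₀, hz⟩ := base_gen (p := p) hkill (nerve (S.cov (k + 1))) hc ν hgood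
    (roe p (rat (nerve (S.cov (k + 1)))))
    (fun pr hpr ι hι _ hT => push_fpc_mem_roe hgood pr hpr ι hι hT)
  have hzero : K1.map (evalZero p (rat (nerve (S.cov (k + 1)))))
      (L₀.cls p fun n => (G n).one_le) = K1.zero (roe p (rat (nerve (S.cov (k + 1))))) := by
    unfold Loops.cls
    rw [K1.map_mk]
    exact hz
  have hadm : Adm S (k + 1) L₀ := by
    refine ⟨fun n j => ν ⟨n, (G n).core j⟩, hgood.isPoly, fun n j => hν1 _, fun n j => hmem _, ?_, hq⟩
    intro n j
    change ν ⟨n, (G n).core (j + (G n).N)⟩ = _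
    rw [(G n).core_add]
  have hlim : Lim.of (G := KL p S) (stepL p L) (k + 1) (L₀.cls p fun n => (G n).one_le) =
      Lim.of (G := KL p S) (stepL p L) (k + 1) (K1.zero (loc p (rat (nerve (S.cov (k + 1)))))) := by
    apply hinj
    have h1 := Lim.map_of (stepL p L) (stepR p L) (ev p S) (ev_step p L) (k + 1)
      (L₀.cls p fun n => (G n).one_le)
    have h2 := Lim.map_of (stepL p L) (stepR p L) (ev p S) (ev_step p L) (k + 1)
      (K1.zero (loc p (rat (nerve (S.cov (k + 1))))))
    refine h1.trans (Eq.trans ?_ h2.symm)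
    exact congrArg (Lim.of (G := KR p S) (stepR p L) (k + 1))
      (hzero.trans (K1.map_zero (evalZero p (rat (nerve (S.cov (k + 1)))))).symm)
  obtain ⟨n, l, hnl⟩ := Lim.of_eq_base (stepL p L)
    (fun k => K1.zero (loc p (rat (nerve (S.cov k))))) (fun k => K1.map_zero _) hlim
  exact iterate_ne (p := p) hflat L n (k + 1) L₀ hadm l hnl

theorem exists_system (G : ℕ → LGraph) : Nonempty (AntiCech (Sp G)) ∧
    ∀ S : AntiCech (Sp G), Nonempty (Trans S) ∧ ∀ t : Trans S, Nonempty (Lift t) :=
  ⟨exists_antiCech finite_closedBall, fun S => ⟨exists_trans S, fun t => exists_lift t⟩⟩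

end

end Pool.Agent.H368.NV
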