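import Pool.Agent.H368.NV.Roe
import Pool.Agent.H368.NV.Cx

/-!
# Anti-Čech systems and the `ℓ^p` coarse assembly map in degree one
-/

set_option autoImplicit false
set_option linter.unusedVariables false

namespace Pool.Agent.H368.NV

open scoped ENNReal NNReal Topology BoundedContinuousFunction
open Filter

noncomputable section

/-- The nerve of a family `C` of subsets of `X`: its simplices are the nonempty finite sets of
members of `C` with a common point. -/
def nerve {X : Type} (C : Set (Set X)) : Set (Finset (Set X)) :=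
  {σ | σ.Nonempty ∧ (∀ U ∈ σ, U ∈ C) ∧ ∃ x, ∀ U ∈ σ, x ∈ U}

/-- An anti-Čech system of covers of `X`. -/
structure AntiCech (X : Type) [MetricSpace X] where
  /-- the covers `C_k` -/
  cov : ℕ → Set (Set X)
  /-- the numbers `R_k` -/
  R : ℕ → ℝ
  covers : ∀ k x, ∃ U ∈ cov k, x ∈ U
  locallyFinite : ∀ k, LocallyFinite (fun U : cov k => (U : Set X))
  bounded : ∀ k, ∀ U ∈ cov k, Bornology.IsBounded U ∧ Metric.diam U ≤ R k
  tendsto : Tendsto R atTop atTop
  lebesgue : ∀ k, ∀ S : Set X, Bornology.IsBounded S → Metric.diam S ≤ R k →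
    ∃ U ∈ cov (k + 1), S ⊆ U

/-- Maps `C_k → C_{k+1}` sending each `U` to a member containing it. -/
structure Trans {X : Type} [MetricSpace X] (S : AntiCech X) where
  /-- the maps -/
  next : ℕ → Set X → Set X
  next_mem : ∀ k, ∀ U ∈ S.cov k, next k U ∈ S.cov (k + 1)
  subset_next : ∀ k, ∀ U ∈ S.cov k, U ⊆ next k U

section

variable {X : Type} [MetricSpace X] {S : AntiCech X}

theorem Trans.simplicial (t : Trans S) (k : ℕ) :
    IsSimplicial (nerve (S.cov k)) (nerve (S.cov (k + 1))) (t.next k) := by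
  refine ⟨fun σ hσ σ' h => ?_⟩
  obtain ⟨⟨U, hU⟩, h2, x, h3⟩ := hσ
  refine ⟨⟨t.next k U, (h _).2 ⟨U, hU, rfl⟩⟩, ?_, x, ?_⟩
  · intro V hV
    obtain ⟨U', hU', rfl⟩ := (h _).1 hV
    exact t.next_mem k U' (h2 U' hU')
  · intro V hV
    obtain ⟨U', hU', rfl⟩ := (h _).1 hV
    exact t.subset_next k U' (h2 U' hU') (h3 U' hU')

/-- The simplicial map `N_{C_k} → N_{C_{k+1}}`. -/
def Trans.beta (t : Trans S) (k : ℕ) : Pt (nerve (S.cov k)) → Pt (nerve (S.cov (k + 1))) :=
  (t.simplicial k).map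

/-- Injections `Z_k × ℕ → Z_{k+1} × ℕ` over the simplicial maps `N_{C_k} → N_{C_{k+1}}`, where
`Z_k` is the set of points of `N_{C_k}` with rational coordinates; they give isometries
`ℓ^p(Z_k, ℓ^p(ℕ)) → ℓ^p(Z_{k+1}, ℓ^p(ℕ))` which cover the simplicial maps. -/
structure Lift (t : Trans S) where
  /-- the injections -/
  fib : ∀ k, (rat (nerve (S.cov k)) × ℕ) ↪ (rat (nerve (S.cov (k + 1))) × ℕ)
  fib_fst : ∀ k a, ((fib k a).1 : Pt (nerve (S.cov (k + 1)))) = t.beta k a.1

theorem downClosed_nerve (C : Set (Set X)) : DownClosed (nerve C) := by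
  rintro σ ⟨_, h2, x, h3⟩ τ hτ hn
  exact ⟨hn, fun U hU => h2 U (hτ hU), x, fun U hU => h3 U (hτ hU)⟩

/-- A bounded set meets finitely many members of a cover. -/
theorem finite_meet [ProperSpace X] (S : AntiCech X) (k : ℕ) {B : Set X}
    (hB : Bornology.IsBounded B) : {U | U ∈ S.cov k ∧ (U ∩ B).Nonempty}.Finite := by
  have h1 := (S.locallyFinite k).finite_nonempty_inter_compact hB.isCompact_closure
  refine (h1.image (fun U : S.cov k => (U : Set X))).subset ?_
  rintro U ⟨hU, x, hx1, hx2⟩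
  exact ⟨⟨U, hU⟩, ⟨x, hx1, subset_closure hx2⟩, rfl⟩

theorem locFin_nerve [ProperSpace X] (S : AntiCech X) (k : ℕ) : LocFin (nerve (S.cov k)) := by
  classical
  intro v
  by_cases hv : v ∈ S.cov k
  · have h1 := finite_meet S k (S.bounded k v hv).1
    refine (h1.toFinset.powerset.finite_toSet).subset ?_
    rintro σ ⟨⟨_, hσ, x, hx⟩, hvσ⟩
    rw [Finset.mem_coe, Finset.mem_powerset]
    intro U hU
    rw [Set.Finite.mem_toFinset]
    exact ⟨hσ U hU, x, hx U hU, hx v hvσ⟩
  · refine Set.finite_empty.subset ?_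
    rintro σ ⟨⟨_, hσ, _⟩, hvσ⟩
    exact hv (hσ v hvσ)

theorem Trans.finite_fibre [ProperSpace X] (t : Trans S) (k : ℕ) (V : Set X) :
    {U | t.next k U = V ∧ {U} ∈ nerve (S.cov k)}.Finite := by
  by_cases hV : V ∈ S.cov (k + 1)
  · refine (finite_meet S k (S.bounded (k + 1) V hV).1).subset ?_
    rintro U ⟨hUV, _, hU, x, hx⟩
    have hU' := hU U (Finset.mem_singleton_self U)
    have hxU := hx U (Finset.mem_singleton_self U)
    refine ⟨hU', x, hxU, ?_⟩
    rw [← hUV]
    exact t.subset_next k U hU' hxU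
  · refine Set.finite_empty.subset ?_
    rintro U ⟨hUV, _, hU, x, hx⟩
    apply hV
    rw [← hUV]
    exact t.next_mem k U (hU U (Finset.mem_singleton_self U))

theorem Lift.covers [ProperSpace X] {t : Trans S} (L : Lift t) (k : ℕ) :
    Covers (t.beta k) (L.fib k) where
  fst := L.fib_fst k
  lip := (t.simplicial k).edist_map_le
  proper := (t.simplicial k).proper (downClosed_nerve _) (locFin_nerve S (k + 1)) (t.finite_fibre k)

end

section Assembly

variable {X : Type} [MetricSpace X] [ProperSpace X] {S : AntiCech X} {t : Trans S}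

variable (p : ℝ≥0∞) [Fact (1 ≤ p)] [Fact (p ≠ ∞)]

/-- The groups `K₁(B_L^p(N_{C_k}))`. -/
def KL (S : AntiCech X) (k : ℕ) : Type := K1 (loc p (rat (nerve (S.cov k))))

/-- The groups `K₁(B^p(N_{C_k}))`. -/
def KR (S : AntiCech X) (k : ℕ) : Type := K1 (roe p (rat (nerve (S.cov k))))

/-- The maps `K₁(B_L^p(N_{C_k})) → K₁(B_L^p(N_{C_{k+1}}))`. -/
def stepL (L : Lift t) (k : ℕ) : KL p S k → KL p S (k + 1) := K1.map ((L.covers k).onLoc p)

/-- The maps `K₁(B^p(N_{C_k})) → K₁(B^p(N_{C_{k+1}}))`. -/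
def stepR (L : Lift t) (k : ℕ) : KR p S k → KR p S (k + 1) := K1.map ((L.covers k).onRoe p)

/-- The maps `K₁(B_L^p(N_{C_k})) → K₁(B^p(N_{C_k}))` induced by evaluation at `0`. -/
def ev (S : AntiCech X) (k : ℕ) : KL p S k → KR p S k := K1.map (evalZero p _)

theorem ev_step (L : Lift t) (k : ℕ) (x : KL p S k) :
    ev p S (k + 1) (stepL p L k x) = stepR p L k (ev p S k x) :=
  K1.map_eq_of_comp ((L.covers k).onLoc p) (evalZero p _) (evalZero p _)
    ((L.covers k).onRoe p) (fun _ => rfl) x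

/-- The `ℓ^p` coarse assembly map in degree one,
`lim_k K₁(B_L^p(N_{C_k})) → lim_k K₁(B^p(N_{C_k}))`. -/
def mu (L : Lift t) : Lim (KL p S) (stepL p L) → Lim (KR p S) (stepR p L) :=
  Lim.map (stepL p L) (stepR p L) (ev p S) (ev_step p L)

end Assembly

/-! ### Existence of systems -/

section Exist

variable {X : Type} [MetricSpace X]

/-- Transition maps exist. -/
theorem exists_trans (S : AntiCech X) : Nonempty (Trans S) := by
  classical
  have h : ∀ (k : ℕ) (U : Set X), ∃ V : Set X, U ∈ S.cov k → V ∈ S.cov (k + 1) ∧ U ⊆ V := by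
    intro k U
    by_cases hU : U ∈ S.cov k
    · obtain ⟨V, hV, hUV⟩ := S.lebesgue k U (S.bounded k U hU).1 (S.bounded k U hU).2
      exact ⟨V, fun _ => ⟨hV, hUV⟩⟩
    · exact ⟨U, fun h => absurd h hU⟩
  choose f hf using h
  exact ⟨⟨f, fun k U hU => (hf k U hU).1, fun k U hU => (hf k U hU).2⟩⟩

/-- Lifts exist if `X` is countable. -/
theorem exists_lift [Countable X] {S : AntiCech X} (t : Trans S) : Nonempty (Lift t) := by
  have hc : ∀ k, (rat (nerve (S.cov k))).Countable := by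
    intro k
    apply countable_rat
    have h1 : (⋃ x : X, {U | U ∈ S.cov k ∧ x ∈ U}).Countable := by
      refine Set.countable_iUnion fun x => Set.Finite.countable ?_
      refine (((S.locallyFinite k).point_finite x).image (fun U : S.cov k => (U : Set X))).subset ?_
      rintro U ⟨hU, hx⟩
      exact ⟨⟨U, hU⟩, hx, rfl⟩
    refine h1.mono ?_
    rintro U ⟨σ, ⟨_, hσ, x, hx⟩, hU⟩
    exact Set.mem_iUnion.2 ⟨x, hσ U hU, hx U hU⟩
  choose en hen using fun k => (Set.countable_iff_exists_injective.1 (hc k))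
  refine ⟨⟨fun k => ⟨fun a => (⟨t.beta k a.1, (t.simplicial k).map_mem_rat a.1.2⟩,
    Nat.pair (en k a.1) a.2), ?_⟩, fun k a => rfl⟩⟩
  rintro ⟨z, i⟩ ⟨z', i'⟩ h
  have h2 := congrArg Prod.snd h
  have h3 := Nat.pair_eq_pair.1 h2
  have h4 := hen k h3.1
  have h5 : i = i' := h3.2
  have h6 : z = z' := h4
  rw [h5, h6]

/-- If all balls are finite, then the balls of radius `2 ^ k / 2` give an anti-Čech system. -/
theorem exists_antiCech [Nonempty X] (h : ∀ (x : X) (r : ℝ), (Metric.closedBall x r).Finite) :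
    Nonempty (AntiCech X) := by
  refine ⟨⟨fun k => Set.range fun x : X => Metric.closedBall x ((2 : ℝ) ^ k / 2),
    fun k => (2 : ℝ) ^ k, ?_, ?_, ?_, ?_, ?_⟩⟩
  · intro k x
    exact ⟨_, ⟨x, rfl⟩, Metric.mem_closedBall_self (by positivity)⟩
  · intro k y
    refine ⟨Metric.closedBall y 1, Metric.closedBall_mem_nhds y one_pos, ?_⟩
    refine ((h y ((2 : ℝ) ^ k / 2 + 1)).image (fun x : X =>
      (⟨Metric.closedBall x ((2 : ℝ) ^ k / 2), x, rfl⟩ :
        Set.range fun x : X => Metric.closedBall x ((2 : ℝ) ^ k / 2)))).subset ?_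
    rintro ⟨_, x, rfl⟩ ⟨z, hz1, hz2⟩
    refine ⟨x, ?_, rfl⟩
    have h1 : dist z x ≤ (2 : ℝ) ^ k / 2 := hz1
    have h2 : dist z y ≤ 1 := hz2
    rw [Metric.mem_closedBall]
    have h3 := dist_triangle x z y
    rw [dist_comm x z] at h3
    linarith
  · rintro k _ ⟨x, rfl⟩
    refine ⟨Metric.isBounded_closedBall, ?_⟩
    have := Metric.diam_closedBall (x := x) (show (0 : ℝ) ≤ (2 : ℝ) ^ k / 2 by positivity)
    linarith
  · exact tendsto_pow_atTop_atTop_of_one_lt one_lt_two
  · intro k S hS hd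
    rcases S.eq_empty_or_nonempty with rfl | ⟨x, hx⟩
    · exact ⟨_, ⟨Classical.arbitrary X, rfl⟩, Set.empty_subset _⟩
    · refine ⟨_, ⟨x, rfl⟩, fun y hy => ?_⟩
      rw [Metric.mem_closedBall]
      have h1 := Metric.dist_le_diam_of_mem hS hy hx
      have h2 : (2 : ℝ) ^ (k + 1) / 2 = 2 ^ k := by rw [pow_succ]; ring
      rw [h2]
      exact h1.trans hd

end Exist

end

end Pool.Agent.H368.NV
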